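import Pool.Agent.LibMR57.Defs

/-!
# Primes `p` with `⌊α p⌋` prime: the exceptional set. Definitions.

`DP s a t = ∑_{n ∈ s} a n * n^{-it}`, `tw t n = n^{-it}`, `Sep X T` (1-separated subsets of
`[-X, X]`), `trap`, `SW`, `wh`, `ES` come from `LibMR57/Defs.lean` (namespace `MR57`).
-/

open Finset

namespace BP4

open MR57 (tw DP trap SW wh ES IsCM Grep)

/-- The natural numbers `n` with `a < n ≤ b` (`0 ≤ a`). -/
noncomputable def win (a b : ℝ) : Finset ℕ := Ioc ⌊a⌋₊ ⌊b⌋₊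

/-- The primes `p` with `a < p ≤ b` (`0 ≤ a`). -/
noncomputable def prm (a b : ℝ) : Finset ℕ := (win a b).filter Nat.Prime

/-- All prime factors of `n` are larger than `z`. -/
def Rough (z : ℝ) (n : ℕ) : Prop := n ≠ 0 ∧ ∀ p : ℕ, p.Prime → p ∣ n → z < p

open Classical in
/-- The `z`-rough numbers `n` with `a < n ≤ b` (`0 ≤ a`). -/
noncomputable def rgh (z a b : ℝ) : Finset ℕ := (win a b).filter (Rough z)

/-- `∏_{p ≤ z} (1 - 1/p)`. -/
noncomputable def V (z : ℝ) : ℝ := ∏ p ∈ prm 0 z, (1 - 1 / (p : ℝ))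

theorem mem_win {a b : ℝ} (ha : 0 ≤ a) {n : ℕ} : n ∈ win a b ↔ a < n ∧ (n : ℝ) ≤ b := by
  unfold win
  rw [mem_Ioc, Nat.floor_lt ha]
  constructor
  · rintro ⟨h1, h2⟩
    refine ⟨h1, ?_⟩
    have hn : n ≠ 0 := by
      rintro rfl
      simp only [Nat.cast_zero] at h1
      linarith
    exact (Nat.le_floor_iff' hn).1 h2
  · rintro ⟨h1, h2⟩
    exact ⟨h1, Nat.le_floor h2⟩

theorem mem_prm {a b : ℝ} (ha : 0 ≤ a) {n : ℕ} :
    n ∈ prm a b ↔ (a < n ∧ (n : ℝ) ≤ b) ∧ n.Prime := by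
  unfold prm
  rw [mem_filter, mem_win ha]

theorem mem_rgh {z a b : ℝ} (ha : 0 ≤ a) {n : ℕ} :
    n ∈ rgh z a b ↔ (a < n ∧ (n : ℝ) ≤ b) ∧ Rough z n := by
  classical
  simp only [rgh, mem_filter, mem_win ha]

theorem prm_zero (t : ℝ) : prm 0 t = (Icc 0 ⌊t⌋₊).filter Nat.Prime := by
  ext p
  unfold prm win
  simp only [mem_filter, mem_Ioc, mem_Icc, Nat.floor_zero, and_congr_left_iff]
  intro hp
  have := hp.pos
  omega

theorem norm_tw (t : ℝ) (n : ℕ) : ‖tw t n‖ = 1 := by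
  unfold MR57.tw
  rw [← Complex.ofReal_neg, Complex.norm_exp_ofReal_mul_I]

theorem tw_mul (t : ℝ) (m n : ℕ) (hm : m ≠ 0) (hn : n ≠ 0) :
    tw t (m * n) = tw t m * tw t n := by
  unfold MR57.tw
  rw [← Complex.exp_add]
  congr 1
  have h : Real.log ((m * n : ℕ) : ℝ) = Real.log m + Real.log n := by
    push_cast
    rw [Real.log_mul (by exact_mod_cast hm) (by exact_mod_cast hn)]
  rw [h]
  push_cast
  ring

/-- A Dirichlet polynomial with coefficients bounded by `1` is bounded by the number of terms. -/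
theorem norm_DP_le (s : Finset ℕ) (a : ℕ → ℂ) (t : ℝ) (ha : ∀ n ∈ s, ‖a n‖ ≤ 1) :
    ‖DP s a t‖ ≤ s.card := by
  unfold MR57.DP
  refine (norm_sum_le _ _).trans ?_
  calc ∑ n ∈ s, ‖a n * tw t n‖ ≤ ∑ _n ∈ s, (1 : ℝ) := by
        apply sum_le_sum
        intro n hn
        rw [norm_mul, norm_tw, mul_one]
        exact ha n hn
    _ = s.card := by rw [sum_const, nsmul_eq_mul, mul_one]

/-- The Fejér kernel at scale `h`: `(2 - 2 cos (h t)) / t²` (its Fourier transform is the tent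
`2π max(0, h - |u|)`, see `x_fejer_int`). -/
noncomputable def Kr (h t : ℝ) : ℝ := (2 - 2 * Real.cos (h * t)) / t ^ 2

/-- The prime polynomial `P(t) = ∑_{M < p ≤ (1+δ)M} p^{-it}`. -/
noncomputable def PP (δ M t : ℝ) : ℂ := DP (prm M ((1 + δ) * M)) (fun _ => 1) t

/-- The prime polynomial `Q(t) = ∑_{aM/2 < q ≤ 2aM} q^{-it}`. -/
noncomputable def QQ (a M t : ℝ) : ℂ := DP (prm (a * M / 2) (2 * a * M)) (fun _ => 1) t

/-- The smoothed count of pairs of primes `(p, q)` with `log q` close to `β + log p`. -/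
noncomputable def FF (δ a M h β : ℝ) : ℝ :=
  ∑ p ∈ prm M ((1 + δ) * M), ∑ q ∈ prm (a * M / 2) (2 * a * M),
    max 0 (h - |β + Real.log p - Real.log q|)

/-- Log-weighted prime polynomial. -/
noncomputable def W (δ x t : ℝ) : ℂ :=
  ∑ p ∈ prm x ((1 + δ) * x), (Real.log p : ℂ) * tw t p

/-- Log-weighted polynomial over products of two primes `p q ∈ (x, (1+δ)x]`, `z < p ≤ x/z`. -/
noncomputable def BB (δ x z t : ℝ) : ℂ :=
  ∑ p ∈ prm z (x / z), (Real.log p : ℂ) * tw t p * W δ (x / p) t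

/-- Selberg's function `Λ₂(n) = Λ(n) log n + (Λ * Λ)(n)`. -/
noncomputable def Lam2 (n : ℕ) : ℝ :=
  ArithmeticFunction.vonMangoldt n * Real.log n +
    ∑ x ∈ n.divisorsAntidiagonal, ArithmeticFunction.vonMangoldt x.1 *
      ArithmeticFunction.vonMangoldt x.2

open Classical in
/-- Squarefree `d ≤ R` all of whose prime factors are `≤ z`. -/
noncomputable def sset (R : ℕ) (z : ℝ) : Finset ℕ :=
  (Icc 1 R).filter (fun d => Squarefree d ∧ ∀ p : ℕ, p.Prime → p ∣ d → (p : ℝ) ≤ z)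

/-- Selberg's sum. -/
noncomputable def G (R : ℕ) (z : ℝ) : ℝ := ∑ d ∈ sset R z, 1 / (Nat.totient d : ℝ)

/-- `ρ` are upper bound sieve weights of level `R²` for the primes `≤ z`. -/
structure IsSel (C₀ z : ℝ) (R : ℕ) (ρ : ℕ → ℝ) : Prop where
  one : ρ 1 = 1
  supp : ∀ d, ρ d ≠ 0 → 1 ≤ d ∧ d ≤ R ^ 2
  bd : ∀ d, |ρ d| ≤ (d.divisors.card : ℝ) ^ 2
  nonneg : ∀ n, 1 ≤ n → 0 ≤ ∑ d ∈ n.divisors, ρ d
  rough : ∀ n, Rough z n → ∑ d ∈ n.divisors, ρ d = 1
  pos : 0 < ∑ d ∈ Icc 1 (R ^ 2), ρ d / d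
  le_log : ∑ d ∈ Icc 1 (R ^ 2), ρ d / d ≤ C₀ / Real.log z
  le_V : ∑ d ∈ Icc 1 (R ^ 2), ρ d / d ≤
    V z * (1 + C₀ * Real.exp (-(Real.log R / Real.log z)))

/-- The number of primes `q ∣ m` with `z < q ≤ y`. -/
noncomputable def om (z y : ℝ) (m : ℕ) : ℕ := ((prm z y).filter (fun q => q ∣ m)).card

open Classical in
/-- The coefficients of the second factor in the decomposition of the primes. -/
noncomputable def cf (z y : ℝ) (m : ℕ) : ℂ := if Rough z m then 1 / ((om z y m : ℂ) + 1) else 0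

/-- The coefficients of `∑_j P_j A_j` in the decomposition of the primes, `z_j = z (1+e)^j`,
`y = z (1+e)^J`: `∑_j ∑_{z_j < p ≤ (1+e) z_j, p ∣ n} [n/p ∈ (M/z_j, (1+δ)M/z_j]] cf(n/p)`. -/
noncomputable def bco (M δ z e : ℝ) (J n : ℕ) : ℂ :=
  ∑ j ∈ range J, ∑ p ∈ prm (z * (1 + e) ^ j) ((1 + e) * (z * (1 + e) ^ j)),
    if p ∣ n ∧ n / p ∈ win (M / (z * (1 + e) ^ j)) ((1 + δ) * (M / (z * (1 + e) ^ j))) then
      cf z (z * (1 + e) ^ J) (n / p) else 0

open Classical in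
/-- The exceptional numbers in the decomposition of the primes. -/
noncomputable def Uset (z e δ M : ℝ) : Finset ℕ :=
  (rgh z M ((1 + δ) * (1 + e) * M)).filter (fun n : ℕ =>
    (n : ℝ) ≤ (1 + e) * M ∨ (1 + δ) * M < n ∨ ∃ p : ℕ, p.Prime ∧ z < p ∧ p ^ 2 ∣ n)

/-- Difference of the normalised smoothed counts at the scales `h` and `w`. -/
noncomputable def DD (δ a M h w β : ℝ) : ℝ := |FF δ a M h β / h ^ 2 - FF δ a M w β / w ^ 2|

/-- The number of primes `p ∈ (M, (1+δ)M]` with `⌊α p⌋` prime. -/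
noncomputable def Nw (δ M α : ℝ) : ℕ :=
  ((prm M ((1 + δ) * M)).filter (fun p : ℕ => (⌊α * p⌋₊).Prime)).card

end BP4
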