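import Pool.Agent.LibBP4.Ext

/-!
TASK E01.  Partial sums of `m^{-it}`.  `∫_0^Y v^{-it} dv = Y^{1-it}/(1-it)`.
Case `|t| ≤ Y^{1/2}`: compare sum and integral, `|∑_{m ≤ Y} m^{-it} - ∫_0^Y v^{-it} dv| ≤
2 + |t| (1 + log Y)` (on `[m-1, m]`, `m ≥ 2`, the function varies by at most `|t|/(m-1)`).
Case `Y^{1/2} < |t| ≤ Y^A`: the main term is at most `Y/|t| ≤ Y^{1/2}`; the sum over
`m ≤ Y^{1/2}` is trivially `≤ Y^{1/2}`, and the dyadic blocks `(N, 2N]`, `Y^{1/2} ≤ N ≤ Y`, are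
`≤ C N^{1-c}` by `x_weyl (2A)` with `θ = 0` (`N^{1/2} ≤ |t| ≤ Y^A ≤ N^{2A}`).  (`ES a b 0 t` is
`∑_{a<n≤b} n^{-it}`.)
-/

open MeasureTheory Finset Filter
open scoped Topology

namespace BP4

open MR57 (tw DP trap SW wh ES IsCM Grep)

/-- The main term. -/
noncomputable def E01_F (t v : ℝ) : ℂ :=
  (v : ℂ) * Complex.exp (-((t * Real.log v : ℝ) : ℂ) * Complex.I) / (1 - t * Complex.I)

theorem E01_ne (t : ℝ) : (1 - t * Complex.I : ℂ) ≠ 0 := by
  intro h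
  have := congrArg Complex.re h
  simp at this

theorem E01_norm_ge (t : ℝ) : 1 ≤ ‖(1 - t * Complex.I : ℂ)‖ ∧ |t| ≤ ‖(1 - t * Complex.I : ℂ)‖ := by
  constructor
  · have h := Complex.abs_re_le_norm (1 - t * Complex.I : ℂ)
    simpa using h
  · have h := Complex.abs_im_le_norm (1 - t * Complex.I : ℂ)
    simpa using h

theorem E01_norm_F (t v : ℝ) (hv : 0 ≤ v) : ‖E01_F t v‖ = v / ‖(1 - t * Complex.I : ℂ)‖ := by
  unfold E01_F
  rw [norm_div, norm_mul, Complex.norm_real, Real.norm_of_nonneg hv, ← Complex.ofReal_neg,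
    Complex.norm_exp_ofReal_mul_I, mul_one]

theorem E01_deriv (t v : ℝ) (hv : 0 < v) : HasDerivAt (E01_F t)
    (Complex.exp (-((t * Real.log v : ℝ) : ℂ) * Complex.I)) v := by
  have h1 : HasDerivAt (fun v : ℝ => ((t * Real.log v : ℝ) : ℂ)) ((t * v⁻¹ : ℝ) : ℂ) v :=
    ((Real.hasDerivAt_log hv.ne').const_mul t).ofReal_comp
  have h2 : HasDerivAt (fun v : ℝ => Complex.exp (-((t * Real.log v : ℝ) : ℂ) * Complex.I))
      (Complex.exp (-((t * Real.log v : ℝ) : ℂ) * Complex.I) *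
        (-((t * v⁻¹ : ℝ) : ℂ) * Complex.I)) v :=
    (h1.neg.mul_const Complex.I).cexp
  have h3 : HasDerivAt (fun v : ℝ => (v : ℂ)) 1 v := by
    simpa using (hasDerivAt_id v).ofReal_comp
  have h4 := (h3.mul h2).div_const (1 - t * Complex.I : ℂ)
  have hvc : (v : ℂ) ≠ 0 := by exact_mod_cast hv.ne'
  refine h4.congr_deriv ?_
  rw [div_eq_iff (E01_ne t)]
  push_cast
  field_simp
  ring

theorem E01_exp_sub (a b : ℝ) : ‖Complex.exp (-(a : ℂ) * Complex.I) -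
    Complex.exp (-(b : ℂ) * Complex.I)‖ ≤ |a - b| := by
  have h1 : Complex.exp (-(a : ℂ) * Complex.I) - Complex.exp (-(b : ℂ) * Complex.I) =
      Complex.exp (((-b : ℝ) : ℂ) * Complex.I) *
        (Complex.exp (Complex.I * ((b - a : ℝ) : ℂ)) - 1) := by
    rw [mul_sub, mul_one, ← Complex.exp_add]
    congr 2
    · push_cast; ring
    · push_cast; ring
  rw [h1, norm_mul, Complex.norm_exp_ofReal_mul_I, one_mul]
  refine (Real.norm_exp_I_mul_ofReal_sub_one_le (x := b - a)).trans (le_of_eq ?_)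
  rw [Real.norm_eq_abs, abs_sub_comm]

theorem E01_step (t : ℝ) (m : ℕ) (hm : 1 ≤ m) :
    ‖(E01_F t ((m + 1 : ℕ) : ℝ) - E01_F t m) - tw t (m + 1)‖ ≤ |t| / m := by
  have hm0 : (0 : ℝ) < m := by exact_mod_cast hm
  have h := Convex.norm_image_sub_le_of_norm_hasDerivWithin_le
    (f := fun v : ℝ => E01_F t v - (v : ℂ) * tw t (m + 1))
    (f' := fun v : ℝ => Complex.exp (-((t * Real.log v : ℝ) : ℂ) * Complex.I) - tw t (m + 1))
    (s := Set.Icc (m : ℝ) (m + 1)) (C := |t| / m) (x := (m : ℝ)) (y := (m : ℝ) + 1)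
    (by
      intro v hv
      have hv0 : 0 < v := hm0.trans_le hv.1
      have h3 : HasDerivAt (fun v : ℝ => (v : ℂ)) 1 v := by
        simpa using (hasDerivAt_id v).ofReal_comp
      have h4 := h3.mul_const (tw t (m + 1))
      rw [one_mul] at h4
      exact ((E01_deriv t v hv0).sub h4).hasDerivWithinAt)
    (by
      intro v hv
      have hv0 : 0 < v := hm0.trans_le hv.1
      unfold MR57.tw
      refine (E01_exp_sub _ _).trans ?_
      rw [← mul_sub, abs_mul, div_eq_mul_inv]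
      apply mul_le_mul_of_nonneg_left _ (abs_nonneg _)
      push_cast
      have h1 : Real.log v ≤ Real.log ((m : ℝ) + 1) := Real.log_le_log hv0 hv.2
      have h2 : Real.log (m : ℝ) ≤ Real.log v := Real.log_le_log hm0 hv.1
      have h3 : Real.log ((m : ℝ) + 1) - Real.log m ≤ (m : ℝ)⁻¹ := by
        rw [← Real.log_div (by positivity) hm0.ne']
        have h4 := Real.log_le_sub_one_of_pos (show (0 : ℝ) < (m + 1) / m by positivity)
        have h5 : ((m : ℝ) + 1) / m - 1 = (m : ℝ)⁻¹ := by field_simp; ring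
        linarith
      rw [abs_le]
      constructor <;> linarith)
    (convex_Icc _ _) (by constructor <;> linarith) (by constructor <;> linarith)
  have e1 : ((m : ℝ) + 1 - m) = 1 := by ring
  rw [e1, norm_one, mul_one] at h
  have e2 : (E01_F t ((m : ℝ) + 1) - (((m : ℝ) + 1 : ℝ) : ℂ) * tw t (m + 1)) -
      (E01_F t m - ((m : ℝ) : ℂ) * tw t (m + 1)) =
      (E01_F t ((m + 1 : ℕ) : ℝ) - E01_F t m) - tw t (m + 1) := by
    push_cast; ring
  rw [e2] at h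
  exact h

theorem E01_small (t : ℝ) (n : ℕ) (hn : 1 ≤ n) :
    ‖(∑ m ∈ Ioc 0 n, tw t m) - E01_F t n‖ ≤ 2 + |t| * ∑ m ∈ Ico 1 n, (1 : ℝ) / m := by
  induction n, hn using Nat.le_induction with
  | base =>
    have e1 : (∑ m ∈ Ioc 0 1, tw t m) = 1 := by
      rw [show Ioc 0 1 = {1} by rfl, sum_singleton]
      simp [MR57.tw]
    rw [e1]
    have h1 := E01_norm_F t ((1 : ℕ) : ℝ) (by norm_num)
    have h2 : ‖E01_F t ((1 : ℕ) : ℝ)‖ ≤ 1 := by
      rw [h1, Nat.cast_one]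
      exact div_le_one_of_le₀ (E01_norm_ge t).1 (norm_nonneg _)
    calc ‖(1 : ℂ) - E01_F t ((1 : ℕ) : ℝ)‖ ≤ ‖(1 : ℂ)‖ + ‖E01_F t ((1 : ℕ) : ℝ)‖ :=
          norm_sub_le _ _
      _ ≤ 2 + |t| * ∑ m ∈ Ico (1 : ℕ) 1, (1 : ℝ) / (m : ℝ) := by
        rw [norm_one]
        simp only [Ico_self, sum_empty, mul_zero]
        linarith
  | succ n hn ih =>
    have e1 : (∑ m ∈ Ioc 0 (n + 1), tw t m) = (∑ m ∈ Ioc 0 n, tw t m) + tw t (n + 1) :=
      sum_Ioc_succ_top (Nat.zero_le n) _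
    rw [e1, sum_Ico_succ_top hn]
    have e2 : (∑ m ∈ Ioc 0 n, tw t m) + tw t (n + 1) - E01_F t ((n + 1 : ℕ) : ℝ) =
        ((∑ m ∈ Ioc 0 n, tw t m) - E01_F t n) -
          ((E01_F t ((n + 1 : ℕ) : ℝ) - E01_F t n) - tw t (n + 1)) := by ring
    rw [e2]
    refine (norm_sub_le _ _).trans ?_
    have h := E01_step t n hn
    have e3 : |t| * (∑ m ∈ Ico 1 n, (1 : ℝ) / m + 1 / n) =
        |t| * (∑ m ∈ Ico 1 n, (1 : ℝ) / m) + |t| / n := by ring
    rw [e3]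
    linarith

theorem E01_harm (n : ℕ) : ∑ m ∈ Ico 1 n, (1 : ℝ) / m ≤ 1 + Real.log n := by
  have h := harmonic_le_one_add_log n
  rw [harmonic_eq_sum_Icc] at h
  push_cast at h
  have h2 : ∑ m ∈ Ico 1 n, (1 : ℝ) / m ≤ ∑ m ∈ Icc 1 n, (1 : ℝ) / m := by
    apply sum_le_sum_of_subset_of_nonneg
    · intro m hm
      rw [mem_Ico] at hm
      rw [mem_Icc]
      omega
    · intros; positivity
  refine h2.trans ?_
  simpa [one_div] using h

theorem E01_tail (t Y : ℝ) (n : ℕ) (hn : 1 ≤ n) (h1 : (n : ℝ) ≤ Y) (h2 : Y ≤ n + 1) :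
    ‖E01_F t Y - E01_F t n‖ ≤ 1 := by
  have hn0 : (0 : ℝ) < n := by exact_mod_cast hn
  have h := Convex.norm_image_sub_le_of_norm_hasDerivWithin_le
    (f := E01_F t) (f' := fun v : ℝ => Complex.exp (-((t * Real.log v : ℝ) : ℂ) * Complex.I))
    (s := Set.Icc (n : ℝ) (n + 1)) (C := 1) (x := (n : ℝ)) (y := Y)
    (by
      intro v hv
      exact (E01_deriv t v (hn0.trans_le hv.1)).hasDerivWithinAt)
    (by
      intro v _
      rw [← Complex.ofReal_neg, Complex.norm_exp_ofReal_mul_I])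
    (convex_Icc _ _) (by constructor <;> linarith) ⟨h1, h2⟩
  refine h.trans ?_
  rw [one_mul, Real.norm_eq_abs, abs_of_nonneg (by linarith)]
  linarith

theorem E01_large (A : ℝ) (hA : 1 ≤ A) : ∃ c K : ℝ, 0 < c ∧ c ≤ 1 / 4 ∧ 0 < K ∧
    ∀ Y t : ℝ, 1 ≤ Y → Y ^ (1 / 2 : ℝ) < |t| → |t| ≤ Y ^ A → ∀ n : ℕ, (n : ℝ) ≤ Y →
      ‖∑ m ∈ Ioc 0 n, tw t m‖ ≤ 2 * Y ^ (1 / 2 : ℝ) + K * (n : ℝ) ^ (1 - c) := by
  obtain ⟨c0, C, hc0, hC, hw⟩ := x_weyl (2 * A) (by linarith)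
  refine ⟨min c0 (1 / 4), 7 * C, by positivity, min_le_right _ _, by positivity, ?_⟩
  intro Y t hY ht1 ht2
  set c : ℝ := min c0 (1 / 4) with hc
  have hcc : c ≤ c0 := min_le_left _ _
  have hc4 : c ≤ 1 / 4 := min_le_right _ _
  have hY0 : 0 < Y := by linarith
  intro n
  induction n using Nat.strong_induction_on with
  | _ n ih =>
    intro hnY
    by_cases hsm : (n : ℝ) ≤ 2 * Y ^ (1 / 2 : ℝ)
    · have h1 : ‖∑ m ∈ Ioc 0 n, tw t m‖ ≤ n := by
        refine (norm_sum_le _ _).trans ?_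
        simp only [norm_tw, sum_const, Nat.card_Ioc, tsub_zero, nsmul_eq_mul, mul_one]
        exact le_rfl
      have h2 : 0 ≤ 7 * C * (n : ℝ) ^ (1 - c) := by positivity
      linarith
    · push Not at hsm
      have hY12 : 1 ≤ Y ^ (1 / 2 : ℝ) := Real.one_le_rpow hY (by norm_num)
      have hn2 : 2 < (n : ℝ) := by linarith
      have hn2' : 2 < n := by exact_mod_cast hn2
      set N : ℕ := (n + 1) / 2 with hN
      have hNn : N < n := by omega
      have hN2 : n ≤ 2 * N := by omega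
      have hN1 : 1 ≤ N := by omega
      have hNr : (n : ℝ) ≤ 2 * N := by exact_mod_cast hN2
      have hNY : Y ^ (1 / 2 : ℝ) ≤ N := by linarith
      have hN0 : (0 : ℝ) < N := by linarith
      have hNY' : (N : ℝ) ≤ Y := by
        have : (N : ℝ) ≤ n := by exact_mod_cast hNn.le
        linarith
      have h1 := ih N hNn hNY'
      have h2 : ‖ES N n 0 t‖ ≤ C * (N : ℝ) ^ (1 - c0) := by
        apply hw N N n 0 t hN1 le_rfl hNn.le hN2 le_rfl zero_le_one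
        · refine le_trans ?_ ht1.le
          exact Real.rpow_le_rpow hN0.le hNY' (by norm_num)
        · refine ht2.trans ?_
          calc Y ^ A = (Y ^ (1 / 2 : ℝ)) ^ (2 * A) := by
                rw [← Real.rpow_mul hY0.le]; congr 1; ring
            _ ≤ (N : ℝ) ^ (2 * A) := Real.rpow_le_rpow (by positivity) hNY (by linarith)
      have h3 : ES N n 0 t = ∑ m ∈ Ioc N n, tw t m := by
        unfold MR57.ES MR57.tw
        apply sum_congr rfl
        intro m _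
        rw [add_zero]
      have h4 : ∑ m ∈ Ioc 0 n, tw t m = (∑ m ∈ Ioc 0 N, tw t m) + ∑ m ∈ Ioc N n, tw t m := by
        rw [← sum_Ioc_consecutive _ (Nat.zero_le N) hNn.le]
      rw [h4, ← h3]
      have hN1r : (1 : ℝ) ≤ N := by exact_mod_cast hN1
      have h5 : (N : ℝ) ^ (1 - c0) ≤ (N : ℝ) ^ (1 - c) :=
        Real.rpow_le_rpow_of_exponent_le hN1r (by linarith)
      have h6 : (N : ℝ) ^ (1 - c) ≤ 7 / 8 * (n : ℝ) ^ (1 - c) := by
        have h7 : (N : ℝ) ≤ 3 / 4 * n := by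
          have : 4 * N ≤ 3 * n := by omega
          have h8 : (4 : ℝ) * N ≤ 3 * n := by exact_mod_cast this
          linarith
        calc (N : ℝ) ^ (1 - c) ≤ (3 / 4 * (n : ℝ)) ^ (1 - c) :=
              Real.rpow_le_rpow hN0.le h7 (by linarith)
          _ = (3 / 4 : ℝ) ^ (1 - c) * (n : ℝ) ^ (1 - c) :=
              Real.mul_rpow (by norm_num) (by positivity)
          _ ≤ 7 / 8 * (n : ℝ) ^ (1 - c) := by
              apply mul_le_mul_of_nonneg_right _ (by positivity)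
              calc (3 / 4 : ℝ) ^ (1 - c) ≤ (3 / 4 : ℝ) ^ (1 / 2 : ℝ) :=
                    Real.rpow_le_rpow_of_exponent_ge (by norm_num) (by norm_num) (by linarith)
                _ ≤ 7 / 8 := by
                    rw [← Real.sqrt_eq_rpow, Real.sqrt_le_left (by norm_num)]
                    norm_num
      calc ‖(∑ m ∈ Ioc 0 N, tw t m) + ES N n 0 t‖ ≤
          ‖∑ m ∈ Ioc 0 N, tw t m‖ + ‖ES N n 0 t‖ := norm_add_le _ _
        _ ≤ (2 * Y ^ (1 / 2 : ℝ) + 7 * C * (N : ℝ) ^ (1 - c)) + C * (N : ℝ) ^ (1 - c) := by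
            have := mul_le_mul_of_nonneg_left h5 hC.le
            linarith
        _ = 2 * Y ^ (1 / 2 : ℝ) + 8 * C * (N : ℝ) ^ (1 - c) := by ring
        _ ≤ 2 * Y ^ (1 / 2 : ℝ) + 8 * C * (7 / 8 * (n : ℝ) ^ (1 - c)) := by
            have := mul_le_mul_of_nonneg_left h6 (by positivity : 0 ≤ 8 * C)
            linarith
        _ = 2 * Y ^ (1 / 2 : ℝ) + 7 * C * (n : ℝ) ^ (1 - c) := by ring

theorem partial_sum (A : ℝ) (hA : 1 ≤ A) : ∃ c C : ℝ, 0 < c ∧ c ≤ 1 / 2 ∧ 0 < C ∧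
    ∀ Y t : ℝ, 1 ≤ Y → |t| ≤ Y ^ A →
    ‖DP (win 0 Y) (fun _ => 1) t -
      (Y : ℂ) * Complex.exp (-((t * Real.log Y : ℝ) : ℂ) * Complex.I) / (1 - t * Complex.I)‖ ≤
      C * Y ^ (1 - c) := by
  obtain ⟨c, K, hc0, hc4, hK, hlarge⟩ := E01_large A hA
  refine ⟨c, K + 8, hc0, by linarith, by positivity, ?_⟩
  intro Y t hY htA
  have hY0 : 0 < Y := by linarith
  have hdp : DP (win 0 Y) (fun _ => 1) t = ∑ m ∈ Ioc 0 ⌊Y⌋₊, tw t m := by
    unfold MR57.DP win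
    simp
  rw [hdp]
  show ‖(∑ m ∈ Ioc 0 ⌊Y⌋₊, tw t m) - E01_F t Y‖ ≤ _
  set n : ℕ := ⌊Y⌋₊ with hn
  have hn1 : 1 ≤ n := by
    rw [hn]; exact (Nat.one_le_floor_iff Y).mpr hY
  have hnY : (n : ℝ) ≤ Y := Nat.floor_le hY0.le
  have hYn : Y ≤ n + 1 := (Nat.lt_floor_add_one Y).le
  have hn0 : (0 : ℝ) < n := by exact_mod_cast hn1
  have h34 : Y ^ (3 / 4 : ℝ) ≤ Y ^ (1 - c) := Real.rpow_le_rpow_of_exponent_le hY (by linarith)
  have h12 : Y ^ (1 / 2 : ℝ) ≤ Y ^ (3 / 4 : ℝ) :=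
    Real.rpow_le_rpow_of_exponent_le hY (by norm_num)
  have h1Y : 1 ≤ Y ^ (1 / 2 : ℝ) := Real.one_le_rpow hY (by norm_num)
  by_cases ht : |t| ≤ Y ^ (1 / 2 : ℝ)
  · have h1 := E01_small t n hn1
    have h2 := E01_harm n
    have h3 := E01_tail t Y n hn1 hnY hYn
    have h4 : Real.log n ≤ Real.log Y := Real.log_le_log hn0 hnY
    have h5 : Real.log Y ≤ Y ^ (1 / 4 : ℝ) / (1 / 4) :=
      Real.log_le_rpow_div hY0.le (by norm_num)
    have e1 : (∑ m ∈ Ioc 0 n, tw t m) - E01_F t Y =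
        ((∑ m ∈ Ioc 0 n, tw t m) - E01_F t n) - (E01_F t Y - E01_F t n) := by ring
    rw [e1]
    refine (norm_sub_le _ _).trans ?_
    have h6 : |t| * ∑ m ∈ Ico 1 n, (1 : ℝ) / m ≤
        Y ^ (1 / 2 : ℝ) * (1 + 4 * Y ^ (1 / 4 : ℝ)) := by
      apply mul_le_mul ht _ (sum_nonneg fun _ _ => by positivity) (by positivity)
      linarith
    have h7 : Y ^ (1 / 2 : ℝ) * Y ^ (1 / 4 : ℝ) = Y ^ (3 / 4 : ℝ) := by
      rw [← Real.rpow_add hY0]; norm_num
    have h8 : Y ^ (1 / 2 : ℝ) * (1 + 4 * Y ^ (1 / 4 : ℝ)) =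
        Y ^ (1 / 2 : ℝ) + 4 * Y ^ (3 / 4 : ℝ) := by
      rw [← h7]; ring
    rw [h8] at h6
    have h9 : 0 ≤ K * Y ^ (1 - c) := by positivity
    have h10 : (K + 8) * Y ^ (1 - c) = K * Y ^ (1 - c) + 8 * Y ^ (1 - c) := by ring
    rw [h10]
    linarith
  · push Not at ht
    have h1 := hlarge Y t hY ht htA n hnY
    have h2 : ‖E01_F t Y‖ ≤ Y ^ (1 / 2 : ℝ) := by
      rw [E01_norm_F t Y hY0.le]
      have h3 : Y ^ (1 / 2 : ℝ) ≤ ‖(1 - t * Complex.I : ℂ)‖ := ht.le.trans (E01_norm_ge t).2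
      rw [div_le_iff₀ (by linarith)]
      calc Y = Y ^ (1 / 2 : ℝ) * Y ^ (1 / 2 : ℝ) := by
            rw [← Real.rpow_add hY0]; norm_num
        _ ≤ _ := mul_le_mul_of_nonneg_left h3 (by positivity)
    have h4 : (n : ℝ) ^ (1 - c) ≤ Y ^ (1 - c) := Real.rpow_le_rpow hn0.le hnY (by linarith)
    have h5 := mul_le_mul_of_nonneg_left h4 hK.le
    refine (norm_sub_le _ _).trans ?_
    have h10 : (K + 8) * Y ^ (1 - c) = K * Y ^ (1 - c) + 8 * Y ^ (1 - c) := by ring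
    rw [h10]
    linarith

end BP4
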