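import Pool.Agent.LibBP4.Ext

/-!
TASK E02.  Smooth sums of sieve weights twisted by `n^{-iu}`.  Adapt `sieve_twist` in
`outputs/live/Pool/Agent/LibMR57/B06b.lean` (whose `b06b_swap` is `x_swap`): after the swap the sum
is `∑_{d ≤ D} ρ_d d^{-iu} SW(M/d, u)` with `M/d ≥ M^{11/12}`.
If `|u| ≤ M^{7/10}`: `x_sw_small` gives the main term `M M^{-iu} wh(u) ∑ ρ_d/d`, bounded with
`x_wh_bound` (this is the absolute constant `C₁`), and an error `C (1+|u|) ∑_{d ≤ D} τ(d)²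
≤ C M^{7/10} D^2 ≤ C M^{9/10}` (`x_tau_bound` with small `ε`).
If `|u| > M^{7/10}`: `x_sw_weyl (max 1 (2/θ))`, `|SW(M/d,u)| ≤ C (M/d)^{1-c₀}` (take `c₀ ≤ 1/10`), so
the sum is `≤ C M^{1-c₀} ∑_{d ≤ D} τ(d)² d^{c₀-1} ≤ C M^{1-c₀} ∑_{d ≤ D} d^{2c₀-1}
≤ C M^{1-c₀} D^{2c₀} ≤ C M^{1-5c₀/6}` (`τ(d)² ≤ C d^{c₀}`).
-/

open MeasureTheory Finset Filter
open scoped Topology

namespace BP4

open MR57 (tw DP trap SW wh ES IsCM Grep)

theorem E02_harm (D : ℕ) : ∑ d ∈ Icc 1 D, (1 : ℝ) / d ≤ 1 + Real.log D := by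
  have h := harmonic_le_one_add_log D
  rw [harmonic_eq_sum_Icc] at h
  push_cast at h
  simpa [one_div] using h

theorem E02_sum (c0 : ℝ) (h0 : 0 < c0) : ∃ K : ℝ, 0 < K ∧ ∀ (D : ℕ) (ρ : ℕ → ℝ), 1 ≤ D →
    (∀ d, |ρ d| ≤ (d.divisors.card : ℝ) ^ 2) →
    ∑ d ∈ Icc 1 D, |ρ d| * (d : ℝ) ^ (c0 - 1) ≤ K * (D : ℝ) ^ (3 * c0) := by
  obtain ⟨Ct, hCt, htau⟩ := x_tau_bound (c0 / 2) (by positivity)
  refine ⟨Ct ^ 2 * (1 + 1 / c0), by positivity, ?_⟩
  intro D ρ hD hρ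
  have hD1 : (1 : ℝ) ≤ D := by exact_mod_cast hD
  have hD0 : (0 : ℝ) < D := by linarith
  have h1 : ∀ d ∈ Icc 1 D, |ρ d| * (d : ℝ) ^ (c0 - 1) ≤
      Ct ^ 2 * (D : ℝ) ^ (2 * c0) * (1 / d) := by
    intro d hd
    rw [mem_Icc] at hd
    have hd1 : (1 : ℝ) ≤ d := by exact_mod_cast hd.1
    have hd0 : (0 : ℝ) < d := by linarith
    have hdD : (d : ℝ) ≤ D := by exact_mod_cast hd.2
    have h2 : |ρ d| ≤ Ct ^ 2 * (d : ℝ) ^ c0 := by
      calc |ρ d| ≤ (d.divisors.card : ℝ) ^ 2 := hρ d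
        _ ≤ (Ct * (d : ℝ) ^ (c0 / 2)) ^ 2 := by
          have := htau d hd.1
          gcongr
        _ = Ct ^ 2 * ((d : ℝ) ^ (c0 / 2)) ^ 2 := by ring
        _ = Ct ^ 2 * (d : ℝ) ^ c0 := by
          rw [← Real.rpow_natCast ((d : ℝ) ^ (c0 / 2)) 2, ← Real.rpow_mul hd0.le]
          congr 2
          push_cast
          ring
    calc |ρ d| * (d : ℝ) ^ (c0 - 1) ≤ Ct ^ 2 * (d : ℝ) ^ c0 * (d : ℝ) ^ (c0 - 1) := by
          gcongr
      _ = Ct ^ 2 * (d : ℝ) ^ (2 * c0) * (1 / d) := by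
          rw [mul_assoc, mul_assoc, ← Real.rpow_add hd0]
          congr 1
          have : (1 : ℝ) / d = (d : ℝ) ^ (-1 : ℝ) := by
            rw [Real.rpow_neg hd0.le, Real.rpow_one, one_div]
          rw [this, ← Real.rpow_add hd0]
          congr 1
          ring
      _ ≤ Ct ^ 2 * (D : ℝ) ^ (2 * c0) * (1 / d) := by
          have : (d : ℝ) ^ (2 * c0) ≤ (D : ℝ) ^ (2 * c0) :=
            Real.rpow_le_rpow hd0.le hdD (by positivity)
          gcongr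
  calc ∑ d ∈ Icc 1 D, |ρ d| * (d : ℝ) ^ (c0 - 1)
      ≤ ∑ d ∈ Icc 1 D, Ct ^ 2 * (D : ℝ) ^ (2 * c0) * (1 / d) := sum_le_sum h1
    _ = Ct ^ 2 * (D : ℝ) ^ (2 * c0) * ∑ d ∈ Icc 1 D, (1 : ℝ) / d := by rw [mul_sum]
    _ ≤ Ct ^ 2 * (D : ℝ) ^ (2 * c0) * ((1 + 1 / c0) * (D : ℝ) ^ c0) := by
        have h3 := E02_harm D
        have h4 := Real.log_le_rpow_div hD0.le h0
        have h5 : (1 : ℝ) ≤ (D : ℝ) ^ c0 := Real.one_le_rpow hD1 h0.le
        have h6 : (1 + 1 / c0) * (D : ℝ) ^ c0 = (D : ℝ) ^ c0 + (D : ℝ) ^ c0 / c0 := by ring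
        have h7 : ∑ d ∈ Icc 1 D, (1 : ℝ) / d ≤ (1 + 1 / c0) * (D : ℝ) ^ c0 := by
          rw [h6]
          linarith
        gcongr
    _ = Ct ^ 2 * (1 + 1 / c0) * ((D : ℝ) ^ (2 * c0) * (D : ℝ) ^ c0) := by ring
    _ = Ct ^ 2 * (1 + 1 / c0) * (D : ℝ) ^ (3 * c0) := by
        rw [← Real.rpow_add hD0]
        congr 2
        ring

theorem E02_rho_sum (ρ : ℕ → ℝ) (D : ℕ) (hρ : ∀ d, |ρ d| ≤ (d.divisors.card : ℝ) ^ 2) :
    ∑ d ∈ Icc 1 D, |ρ d| ≤ (D : ℝ) ^ 3 := by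
  calc ∑ d ∈ Icc 1 D, |ρ d| ≤ ∑ d ∈ Icc 1 D, (D : ℝ) ^ 2 := by
        apply sum_le_sum
        intro d hd
        rw [mem_Icc] at hd
        have h1 : (d.divisors.card : ℝ) ≤ (D : ℝ) := by
          have h2 : d.divisors.card ≤ d := Nat.card_divisors_le_self d
          exact_mod_cast h2.trans hd.2
        calc |ρ d| ≤ (d.divisors.card : ℝ) ^ 2 := hρ d
          _ ≤ (D : ℝ) ^ 2 := by gcongr
    _ = (D : ℝ) ^ 3 := by
        rw [sum_const, Nat.card_Icc, nsmul_eq_mul]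
        push_cast [Nat.add_sub_cancel]
        ring

theorem smooth_twist : ∃ C₁ : ℝ, 0 < C₁ ∧ ∀ θ : ℝ, 0 < θ → ∃ C c z₀ : ℝ, 0 < C ∧ 0 < c ∧
    c ≤ 1 / 10 ∧ 2 ≤ z₀ ∧ ∀ (M u : ℝ) (D : ℕ) (ρ : ℕ → ℝ), z₀ ≤ M →
    (D : ℝ) ≤ M ^ (1 / 12 : ℝ) → |u| ≤ M ^ (1 / θ) →
    (∀ d, ρ d ≠ 0 → 1 ≤ d ∧ d ≤ D) → (∀ d, |ρ d| ≤ (d.divisors.card : ℝ) ^ 2) →
    ‖∑ n ∈ range (⌊8 * M⌋₊ + 1),
        ((trap ((n : ℝ) / M) * ∑ d ∈ n.divisors, ρ d : ℝ) : ℂ) * tw u n‖ ≤
      C₁ * M * |∑ d ∈ Icc 1 D, ρ d / d| / (1 + u ^ 2) + C * M ^ (1 - c) := by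
  obtain ⟨C1, hC1, hsmall⟩ := x_sw_small
  obtain ⟨C2, hC2, hwh⟩ := x_wh_bound
  refine ⟨C2, hC2, ?_⟩
  intro θ hθ
  obtain ⟨c1, C4, hc1, hC4, hweyl⟩ := x_sw_weyl (max 1 (2 / θ)) (le_max_left _ _)
  set c0 : ℝ := min c1 (1 / 20) with hc0def
  have hc0 : 0 < c0 := lt_min hc1 (by norm_num)
  have hc0a : c0 ≤ c1 := min_le_left _ _
  have hc0b : c0 ≤ 1 / 20 := min_le_right _ _
  obtain ⟨K, hK, hsum⟩ := E02_sum c0 hc0
  refine ⟨2 * C1 + C4 * K, c0 / 2, 2, by positivity, by positivity, by linarith, le_rfl, ?_⟩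
  intro M u D ρ hM2 hDM hu hsupp hb
  have hM1 : 1 ≤ M := by linarith
  have hM0 : 0 < M := by linarith
  rw [x_swap ρ D hsupp M u hM1]
  rcases Nat.eq_zero_or_pos D with hD0 | hDpos
  · subst hD0
    simp
    positivity
  have hMD : ∀ d ∈ Icc 1 D, M ^ (1 / 2 : ℝ) ≤ M / d ∧ M / d ≤ M ∧ 1 ≤ M / d := by
    intro d hd
    rw [mem_Icc] at hd
    have hd0 : (0 : ℝ) < d := by exact_mod_cast hd.1
    have hd1 : (1 : ℝ) ≤ d := by exact_mod_cast hd.1
    have hdle : (d : ℝ) ≤ M ^ (1 / 2 : ℝ) := by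
      have h1 : (d : ℝ) ≤ D := by exact_mod_cast hd.2
      have h2 : M ^ (1 / 12 : ℝ) ≤ M ^ (1 / 2 : ℝ) :=
        Real.rpow_le_rpow_of_exponent_le hM1 (by norm_num)
      linarith
    have hA : M ^ (1 / 2 : ℝ) ≤ M / d := by
      rw [le_div_iff₀ hd0]
      calc M ^ (1 / 2 : ℝ) * d ≤ M ^ (1 / 2 : ℝ) * M ^ (1 / 2 : ℝ) := by gcongr
        _ = M := by
          rw [← Real.rpow_add hM0]
          norm_num
    refine ⟨hA, ?_, ?_⟩
    · rw [div_le_iff₀ hd0]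
      nlinarith
    · exact le_trans (Real.one_le_rpow hM1 (by norm_num)) hA
  by_cases hucase : |u| ≤ M ^ (7 / 10 : ℝ)
  · have hsplit : ∑ d ∈ Icc 1 D, (ρ d : ℂ) * (tw u d * SW (M / d) u) =
        (M : ℂ) * Complex.exp (-((u * Real.log M : ℝ) : ℂ) * Complex.I) * wh u *
          ((∑ d ∈ Icc 1 D, ρ d / d : ℝ) : ℂ) +
        ∑ d ∈ Icc 1 D, (ρ d : ℂ) * (tw u d * (SW (M / d) u - ((M / d : ℝ) : ℂ) *
          Complex.exp (-((u * Real.log (M / d) : ℝ) : ℂ) * Complex.I) * wh u)) := by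
      push_cast
      rw [mul_sum, ← sum_add_distrib]
      apply sum_congr rfl
      intro d hd
      rw [mem_Icc] at hd
      have hd0 : (0 : ℝ) < d := by exact_mod_cast hd.1
      have hd0' : (d : ℂ) ≠ 0 := by
        have : d ≠ 0 := by omega
        exact_mod_cast this
      have h1 : Complex.exp (-((u * Real.log M : ℝ) : ℂ) * Complex.I) =
          tw u d * Complex.exp (-((u * Real.log (M / d) : ℝ) : ℂ) * Complex.I) := by
        unfold MR57.tw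
        rw [← Complex.exp_add, Real.log_div hM0.ne' hd0.ne']
        congr 1
        push_cast
        ring
      push_cast at h1
      rw [h1]
      field_simp
      ring
    rw [hsplit]
    refine le_trans (norm_add_le _ _) ?_
    apply add_le_add
    · rw [norm_mul, norm_mul, norm_mul, ← Complex.ofReal_neg, Complex.norm_exp_ofReal_mul_I,
        Complex.norm_real, Complex.norm_real, Real.norm_eq_abs, Real.norm_eq_abs,
        abs_of_pos hM0, mul_one]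
      calc M * ‖wh u‖ * |∑ d ∈ Icc 1 D, ρ d / d|
          ≤ M * (C2 / (1 + u ^ 2)) * |∑ d ∈ Icc 1 D, ρ d / d| := by
            have h3 := hwh u
            gcongr
        _ = C2 * M * |∑ d ∈ Icc 1 D, ρ d / d| / (1 + u ^ 2) := by
            field_simp
    · calc ‖∑ d ∈ Icc 1 D, (ρ d : ℂ) * (tw u d * (SW (M / d) u - ((M / d : ℝ) : ℂ) *
            Complex.exp (-((u * Real.log (M / d) : ℝ) : ℂ) * Complex.I) * wh u))‖
          ≤ ∑ d ∈ Icc 1 D, |ρ d| * (C1 * (1 + |u|)) := by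
            refine le_trans (norm_sum_le _ _) (sum_le_sum ?_)
            intro d hd
            rw [norm_mul, norm_mul, norm_tw, one_mul, Complex.norm_real, Real.norm_eq_abs]
            exact mul_le_mul_of_nonneg_left (hsmall (M / d) u (hMD d hd).2.2) (abs_nonneg _)
        _ = (∑ d ∈ Icc 1 D, |ρ d|) * (C1 * (1 + |u|)) := by rw [sum_mul]
        _ ≤ (D : ℝ) ^ 3 * (C1 * (2 * M ^ (7 / 10 : ℝ))) := by
            have h5 : (1 : ℝ) ≤ M ^ (7 / 10 : ℝ) := Real.one_le_rpow hM1 (by norm_num)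
            have h6 := E02_rho_sum ρ D hb
            gcongr
            linarith
        _ ≤ M ^ (1 / 4 : ℝ) * (C1 * (2 * M ^ (7 / 10 : ℝ))) := by
            have h7 : (D : ℝ) ^ 3 ≤ M ^ (1 / 4 : ℝ) := by
              calc (D : ℝ) ^ 3 ≤ (M ^ (1 / 12 : ℝ)) ^ 3 := by gcongr
                _ = M ^ (1 / 4 : ℝ) := by
                  rw [← Real.rpow_natCast, ← Real.rpow_mul hM0.le]
                  congr 1
                  push_cast
                  norm_num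
            gcongr
        _ = 2 * C1 * (M ^ (1 / 4 : ℝ) * M ^ (7 / 10 : ℝ)) := by ring
        _ = 2 * C1 * M ^ (19 / 20 : ℝ) := by
            rw [← Real.rpow_add hM0]
            norm_num
        _ ≤ (2 * C1 + C4 * K) * M ^ (1 - c0 / 2) := by
            have h8 : M ^ (19 / 20 : ℝ) ≤ M ^ (1 - c0 / 2) :=
              Real.rpow_le_rpow_of_exponent_le hM1 (by linarith)
            have h9 : 0 < C4 * K := by positivity
            have h10 : 0 < M ^ (1 - c0 / 2) := by positivity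
            nlinarith [mul_pos h9 h10]
  · push Not at hucase
    have hmain : 0 ≤ C2 * M * |∑ d ∈ Icc 1 D, ρ d / d| / (1 + u ^ 2) := by positivity
    calc ‖∑ d ∈ Icc 1 D, (ρ d : ℂ) * (tw u d * SW (M / d) u)‖
        ≤ ∑ d ∈ Icc 1 D, C4 * M ^ (1 - c0) * (|ρ d| * (d : ℝ) ^ (c0 - 1)) := by
          refine le_trans (norm_sum_le _ _) (sum_le_sum ?_)
          intro d hd
          obtain ⟨hA1, hA2, hA3⟩ := hMD d hd
          rw [mem_Icc] at hd
          have hd0 : (0 : ℝ) < d := by exact_mod_cast hd.1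
          rw [norm_mul, norm_mul, norm_tw, one_mul, Complex.norm_real, Real.norm_eq_abs]
          have h1 : (M / d) ^ (3 / 5 : ℝ) ≤ |u| := by
            calc (M / d) ^ (3 / 5 : ℝ) ≤ M ^ (3 / 5 : ℝ) :=
                  Real.rpow_le_rpow (by linarith) hA2 (by norm_num)
              _ ≤ M ^ (7 / 10 : ℝ) := Real.rpow_le_rpow_of_exponent_le hM1 (by norm_num)
              _ ≤ |u| := hucase.le
          have h2 : |u| ≤ (M / d) ^ (max 1 (2 / θ)) := by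
            calc |u| ≤ M ^ (1 / θ) := hu
              _ = (M ^ (1 / 2 : ℝ)) ^ (2 / θ) := by
                rw [← Real.rpow_mul hM0.le]
                congr 1
                ring
              _ ≤ (M / d) ^ (2 / θ) := Real.rpow_le_rpow (by positivity) hA1 (by positivity)
              _ ≤ (M / d) ^ (max 1 (2 / θ)) :=
                Real.rpow_le_rpow_of_exponent_le hA3 (le_max_right _ _)
          have h3 : ‖SW (M / d) u‖ ≤ C4 * (M ^ (1 - c0) * (d : ℝ) ^ (c0 - 1)) := by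
            calc ‖SW (M / d) u‖ ≤ C4 * (M / d) ^ (1 - c1) := hweyl (M / d) u hA3 h1 h2
              _ ≤ C4 * (M / d) ^ (1 - c0) := by
                have := Real.rpow_le_rpow_of_exponent_le hA3 (show 1 - c1 ≤ 1 - c0 by linarith)
                gcongr
              _ = C4 * (M ^ (1 - c0) * (d : ℝ) ^ (c0 - 1)) := by
                rw [Real.div_rpow hM0.le hd0.le, div_eq_mul_inv, ← Real.rpow_neg hd0.le]
                congr 3
                ring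
          calc |ρ d| * ‖SW (M / d) u‖ ≤ |ρ d| * (C4 * (M ^ (1 - c0) * (d : ℝ) ^ (c0 - 1))) := by
                gcongr
            _ = C4 * M ^ (1 - c0) * (|ρ d| * (d : ℝ) ^ (c0 - 1)) := by ring
      _ = C4 * M ^ (1 - c0) * ∑ d ∈ Icc 1 D, |ρ d| * (d : ℝ) ^ (c0 - 1) := by rw [mul_sum]
      _ ≤ C4 * M ^ (1 - c0) * (K * M ^ (c0 / 4)) := by
          have h4 := hsum D ρ hDpos hb
          have h5 : (D : ℝ) ^ (3 * c0) ≤ M ^ (c0 / 4) := by
            calc (D : ℝ) ^ (3 * c0) ≤ (M ^ (1 / 12 : ℝ)) ^ (3 * c0) :=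
                  Real.rpow_le_rpow (by positivity) hDM (by positivity)
              _ = M ^ (c0 / 4) := by
                rw [← Real.rpow_mul hM0.le]
                congr 1
                ring
          have h6 : ∑ d ∈ Icc 1 D, |ρ d| * (d : ℝ) ^ (c0 - 1) ≤ K * M ^ (c0 / 4) :=
            h4.trans (by gcongr)
          gcongr
      _ = C4 * K * (M ^ (1 - c0) * M ^ (c0 / 4)) := by ring
      _ = C4 * K * M ^ (1 - 3 * c0 / 4) := by
          rw [← Real.rpow_add hM0]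
          congr 2
          ring
      _ ≤ (2 * C1 + C4 * K) * M ^ (1 - c0 / 2) := by
          have h8 : M ^ (1 - 3 * c0 / 4) ≤ M ^ (1 - c0 / 2) :=
            Real.rpow_le_rpow_of_exponent_le hM1 (by linarith)
          have h9 : 0 < C4 * K := by positivity
          have h10 : 0 < M ^ (1 - c0 / 2) := by positivity
          nlinarith [mul_pos hC1 h10]
      _ ≤ C2 * M * |∑ d ∈ Icc 1 D, ρ d / d| / (1 + u ^ 2) +
          (2 * C1 + C4 * K) * M ^ (1 - c0 / 2) := by linarith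

end BP4
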