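import Pool.Agent.LibBP4.E01

/-!
TASK E03.  Sharp sums of sieve weights twisted by `n^{-iu}`:
`∑_{n ≤ M} (∑_{d ∣ n} ρ_d) n^{-iu} = ∑_{d ≤ D} ρ_d d^{-iu} ∑_{m ≤ M/d} m^{-iu}`; use `partial_sum`
with `A = max 1 (2/θ)` at `Y = M/d ≥ M^{11/12}`; the main terms add up to
`M^{1-iu}/(1-iu) ∑ ρ_d/d`, with `|1/(1-iu)| ≤ 2/(1+|u|)`; the error is
`∑ |ρ_d| C (M/d)^{1-c₀} ≤ C M^{1-c₀} ∑_{d ≤ D} τ(d)² d^{c₀-1} ≤ C M^{1-c₀} D^{2c₀}/c₀` by
`x_tau_bound` (`τ(d)² ≤ C d^{c₀}`).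
-/

open MeasureTheory Finset Filter
open scoped Topology

namespace BP4

open MR57 (tw DP trap SW wh ES IsCM Grep)

private theorem e03_divs (ρ : ℕ → ℝ) (D n : ℕ) (hn : n ≠ 0)
    (hρ : ∀ d, ρ d ≠ 0 → 1 ≤ d ∧ d ≤ D) :
    ∑ d ∈ n.divisors, ρ d = ∑ d ∈ Icc 1 D, if d ∣ n then ρ d else 0 := by
  classical
  rw [← Finset.sum_filter, ← Finset.sum_filter_ne_zero (s := n.divisors),
    ← Finset.sum_filter_ne_zero (s := (Icc 1 D).filter (fun d => d ∣ n))]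
  congr 1
  ext d
  simp only [mem_filter, Nat.mem_divisors, mem_Icc]
  constructor
  · rintro ⟨⟨h1, _⟩, h3⟩
    exact ⟨⟨hρ d h3, h1⟩, h3⟩
  · rintro ⟨⟨_, h2⟩, h3⟩
    exact ⟨⟨h2, hn⟩, h3⟩

private theorem e03_inner (M u : ℝ) (d : ℕ) (hd : 1 ≤ d) :
    ∑ n ∈ (win 0 M).filter (fun n => d ∣ n), tw u n =
      tw u d * DP (win 0 (M / d)) (fun _ => 1) u := by
  unfold MR57.DP
  rw [Finset.mul_sum]
  have hd0 : (0 : ℝ) < d := by exact_mod_cast hd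
  refine Finset.sum_nbij' (fun n => n / d) (fun m => d * m) ?_ ?_ ?_ ?_ ?_
  · intro n hn
    rw [mem_filter, mem_win le_rfl] at hn
    obtain ⟨⟨h1, h2⟩, m, rfl⟩ := hn
    rw [Nat.mul_div_cancel_left m (by omega), mem_win le_rfl]
    push_cast at h1 h2
    constructor
    · by_contra h
      have : (m : ℝ) = 0 := le_antisymm (not_lt.mp h) (Nat.cast_nonneg m)
      rw [this, mul_zero] at h1
      exact lt_irrefl _ h1
    · rw [le_div_iff₀ hd0]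
      linarith
  · intro m hm
    rw [mem_win le_rfl] at hm
    rw [mem_filter, mem_win le_rfl]
    refine ⟨⟨?_, ?_⟩, Dvd.intro m rfl⟩
    · push_cast
      exact mul_pos hd0 hm.1
    · push_cast
      have := (le_div_iff₀ hd0).1 hm.2
      linarith
  · intro n hn
    rw [mem_filter] at hn
    exact Nat.mul_div_cancel' hn.2
  · intro m _
    exact Nat.mul_div_cancel_left m (by omega)
  · intro n hn
    rw [mem_filter, mem_win le_rfl] at hn
    obtain ⟨⟨h1, _⟩, m, rfl⟩ := hn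
    have hm0 : m ≠ 0 := by
      rintro rfl
      simp at h1
    rw [Nat.mul_div_cancel_left m (by omega), tw_mul u d m (by omega) hm0, one_mul]

private theorem e03_swap (ρ : ℕ → ℝ) (D : ℕ) (M u : ℝ)
    (hρ : ∀ d, ρ d ≠ 0 → 1 ≤ d ∧ d ≤ D) :
    ∑ n ∈ win 0 M, ((∑ d ∈ n.divisors, ρ d : ℝ) : ℂ) * tw u n =
      ∑ d ∈ Icc 1 D, (ρ d : ℂ) * (tw u d * DP (win 0 (M / d)) (fun _ => 1) u) := by
  classical
  have h1 : ∀ n ∈ win 0 M, ((∑ d ∈ n.divisors, ρ d : ℝ) : ℂ) * tw u n =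
      ∑ d ∈ Icc 1 D, if d ∣ n then (ρ d : ℂ) * tw u n else 0 := by
    intro n hn
    have hn0 : n ≠ 0 := by
      rintro rfl
      have := ((mem_win le_rfl).1 hn).1
      simp at this
    rw [e03_divs ρ D n hn0 hρ, Complex.ofReal_sum, Finset.sum_mul]
    refine Finset.sum_congr rfl fun d _ => ?_
    split_ifs <;> simp
  rw [Finset.sum_congr rfl h1, Finset.sum_comm]
  refine Finset.sum_congr rfl fun d hd => ?_
  rw [← e03_inner M u d (mem_Icc.1 hd).1, Finset.mul_sum, Finset.sum_filter]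

/-- `∑_{d ≤ D} d^{s-1} ≤ D^s / s` -/
private theorem e03_sum_rpow {s : ℝ} (hs : 0 < s) (hs1 : s ≤ 1) (D : ℕ) :
    ∑ d ∈ Icc 1 D, (d : ℝ) ^ (s - 1) ≤ (D : ℝ) ^ s / s := by
  induction D with
  | zero => simp [Real.zero_rpow hs.ne']
  | succ D ih =>
    rw [Finset.sum_Icc_succ_top (by omega)]
    have hD : (0 : ℝ) < ((D + 1 : ℕ) : ℝ) := by positivity
    have hb : (1 + (-(1 / ((D + 1 : ℕ) : ℝ)))) ^ s ≤ 1 + s * (-(1 / ((D + 1 : ℕ) : ℝ))) := by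
      apply rpow_one_add_le_one_add_mul_self _ hs.le hs1
      rw [neg_le_neg_iff, div_le_one hD]
      push_cast
      have : (0 : ℝ) ≤ D := Nat.cast_nonneg D
      linarith
    have he : (1 + (-(1 / ((D + 1 : ℕ) : ℝ)))) = (D : ℝ) / ((D + 1 : ℕ) : ℝ) := by
      field_simp
      push_cast
      ring
    rw [he, Real.div_rpow (Nat.cast_nonneg D) hD.le, div_le_iff₀ (by positivity)] at hb
    have h2 : ((D + 1 : ℕ) : ℝ) ^ (s - 1) = ((D + 1 : ℕ) : ℝ) ^ s / ((D + 1 : ℕ) : ℝ) := by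
      rw [Real.rpow_sub hD, Real.rpow_one]
    have h3 : (D : ℝ) ^ s / s ≤ ((D + 1 : ℕ) : ℝ) ^ s / s - ((D + 1 : ℕ) : ℝ) ^ (s - 1) := by
      rw [h2, div_le_iff₀ hs]
      calc (D : ℝ) ^ s ≤ (1 + s * (-(1 / ((D + 1 : ℕ) : ℝ)))) * ((D + 1 : ℕ) : ℝ) ^ s := hb
        _ = (((D + 1 : ℕ) : ℝ) ^ s / s - ((D + 1 : ℕ) : ℝ) ^ s / ((D + 1 : ℕ) : ℝ)) * s := by
          field_simp
          ring
    linarith

private theorem e03_norm (u : ℝ) : (1 + |u|) / 2 ≤ ‖(1 : ℂ) - u * Complex.I‖ := by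
  have h : ‖(1 : ℂ) - u * Complex.I‖ = Real.sqrt (1 + u ^ 2) := by
    have e : (1 : ℂ) - u * Complex.I = ((1 : ℝ) : ℂ) + ((-u : ℝ) : ℂ) * Complex.I := by
      push_cast
      ring
    rw [e, Complex.norm_add_mul_I]
    congr 1
    ring
  rw [h]
  apply Real.le_sqrt_of_sq_le
  have h1 : |u| ^ 2 = u ^ 2 := sq_abs u
  nlinarith [sq_nonneg (1 - |u|), abs_nonneg u, sq_nonneg |u|]

theorem sharp_twist : ∃ C₁ : ℝ, 0 < C₁ ∧ ∀ θ : ℝ, 0 < θ → ∃ C c z₀ : ℝ, 0 < C ∧ 0 < c ∧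
    c ≤ 1 / 10 ∧ 2 ≤ z₀ ∧ ∀ (M u : ℝ) (D : ℕ) (ρ : ℕ → ℝ), z₀ ≤ M →
    (D : ℝ) ≤ M ^ (1 / 12 : ℝ) → |u| ≤ M ^ (1 / θ) →
    (∀ d, ρ d ≠ 0 → 1 ≤ d ∧ d ≤ D) → (∀ d, |ρ d| ≤ (d.divisors.card : ℝ) ^ 2) →
    ‖∑ n ∈ win 0 M, ((∑ d ∈ n.divisors, ρ d : ℝ) : ℂ) * tw u n‖ ≤
      C₁ * M * |∑ d ∈ Icc 1 D, ρ d / d| / (1 + |u|) + C * M ^ (1 - c) := by
  refine ⟨2, by norm_num, ?_⟩
  intro θ hθ
  obtain ⟨c₀, C₀, hc₀, hc₀', hC₀, hps⟩ := partial_sum (max 1 (2 / θ)) (le_max_left _ _)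
  obtain ⟨Ct, hCt, htau⟩ := x_tau_bound (c₀ / 2) (by positivity)
  refine ⟨C₀ * Ct ^ 2 * (1 / (2 * c₀)), c₀ / 5, 2, by positivity, by positivity, by linarith,
    le_rfl, ?_⟩
  intro M u D ρ hM hD hu hsupp hbd
  have hM0 : 0 < M := by linarith
  have hM1 : 1 ≤ M := by linarith
  rw [e03_swap ρ D M u hsupp]
  set mt : ℕ → ℂ := fun d => (((M / d : ℝ) : ℂ) *
    Complex.exp (-((u * Real.log (M / d) : ℝ) : ℂ) * Complex.I) / (1 - u * Complex.I)) with hmt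
  have hY : ∀ d ∈ Icc 1 D, M ^ (11 / 12 : ℝ) ≤ M / d ∧ 1 ≤ M / d ∧ |u| ≤ (M / d) ^ (max 1 (2 / θ)) := by
    intro d hd
    have hd1 : 1 ≤ d := (mem_Icc.1 hd).1
    have hdD : d ≤ D := (mem_Icc.1 hd).2
    have hd0 : (0 : ℝ) < d := by exact_mod_cast hd1
    have h1 : M ^ (11 / 12 : ℝ) ≤ M / d := by
      rw [le_div_iff₀ hd0]
      calc M ^ (11 / 12 : ℝ) * d ≤ M ^ (11 / 12 : ℝ) * M ^ (1 / 12 : ℝ) := by
            apply mul_le_mul_of_nonneg_left _ (by positivity)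
            exact le_trans (by exact_mod_cast hdD) hD
        _ = M := by rw [← Real.rpow_add hM0]; norm_num
    refine ⟨h1, le_trans (Real.one_le_rpow hM1 (by norm_num)) h1, ?_⟩
    calc |u| ≤ M ^ (1 / θ) := hu
      _ ≤ M ^ ((11 / 12 : ℝ) * max 1 (2 / θ)) := by
        apply Real.rpow_le_rpow_of_exponent_le hM1
        have h2 : 2 / θ ≤ max 1 (2 / θ) := le_max_right _ _
        have h3 : (0 : ℝ) < 1 / θ := by positivity
        have h4 : 2 / θ = 2 * (1 / θ) := by ring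
        nlinarith
      _ = (M ^ (11 / 12 : ℝ)) ^ (max 1 (2 / θ)) := by rw [Real.rpow_mul hM0.le]
      _ ≤ (M / d) ^ (max 1 (2 / θ)) := by
        apply Real.rpow_le_rpow (by positivity) h1
        exact le_trans zero_le_one (le_max_left _ _)
  have hsplit : ∑ d ∈ Icc 1 D, (ρ d : ℂ) * (tw u d * DP (win 0 (M / d)) (fun _ => 1) u) =
      ∑ d ∈ Icc 1 D, (ρ d : ℂ) * (tw u d * mt d) +
      ∑ d ∈ Icc 1 D, (ρ d : ℂ) * (tw u d * (DP (win 0 (M / d)) (fun _ => 1) u - mt d)) := by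
    rw [← Finset.sum_add_distrib]
    refine Finset.sum_congr rfl fun d _ => ?_
    ring
  rw [hsplit]
  refine (norm_add_le _ _).trans (add_le_add ?_ ?_)
  · have h1 : ∑ d ∈ Icc 1 D, (ρ d : ℂ) * (tw u d * mt d) =
        (M : ℂ) * Complex.exp (-((u * Real.log M : ℝ) : ℂ) * Complex.I) / (1 - u * Complex.I) *
          ((∑ d ∈ Icc 1 D, ρ d / d : ℝ) : ℂ) := by
      rw [Complex.ofReal_sum, Finset.mul_sum]
      refine Finset.sum_congr rfl fun d hd => ?_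
      have hd1 : 1 ≤ d := (mem_Icc.1 hd).1
      have hd0 : (0 : ℝ) < d := by exact_mod_cast hd1
      have h2 : tw u d * Complex.exp (-((u * Real.log (M / d) : ℝ) : ℂ) * Complex.I) =
          Complex.exp (-((u * Real.log M : ℝ) : ℂ) * Complex.I) := by
        unfold MR57.tw
        rw [← Complex.exp_add]
        congr 1
        rw [Real.log_div hM0.ne' hd0.ne']
        push_cast
        ring
      rw [hmt]
      calc (ρ d : ℂ) * (tw u d * (((M / d : ℝ) : ℂ) *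
            Complex.exp (-((u * Real.log (M / d) : ℝ) : ℂ) * Complex.I) / (1 - u * Complex.I)))
          = (ρ d : ℂ) * (((M / d : ℝ) : ℂ) *
            (tw u d * Complex.exp (-((u * Real.log (M / d) : ℝ) : ℂ) * Complex.I)) /
              (1 - u * Complex.I)) := by ring
        _ = (ρ d : ℂ) * (((M / d : ℝ) : ℂ) *
            Complex.exp (-((u * Real.log M : ℝ) : ℂ) * Complex.I) / (1 - u * Complex.I)) := by
            rw [h2]
        _ = _ := by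
            push_cast
            ring
    rw [h1, norm_mul, norm_div, norm_mul]
    have h3 : ‖Complex.exp (-((u * Real.log M : ℝ) : ℂ) * Complex.I)‖ = 1 := by
      rw [← Complex.ofReal_neg, Complex.norm_exp_ofReal_mul_I]
    have h4 : ‖((∑ d ∈ Icc 1 D, ρ d / d : ℝ) : ℂ)‖ = |∑ d ∈ Icc 1 D, ρ d / d| := by
      rw [Complex.norm_real, Real.norm_eq_abs]
    have h5 : ‖(M : ℂ)‖ = M := by
      rw [Complex.norm_real, Real.norm_eq_abs, abs_of_pos hM0]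
    rw [h3, h4, h5, mul_one]
    have h6 := e03_norm u
    have h7 : 0 < (1 + |u|) / 2 := by positivity
    have h8 : M / ‖(1 : ℂ) - u * Complex.I‖ ≤ M / ((1 + |u|) / 2) :=
      div_le_div_of_nonneg_left hM0.le h7 h6
    calc M / ‖(1 : ℂ) - u * Complex.I‖ * |∑ d ∈ Icc 1 D, ρ d / d|
        ≤ M / ((1 + |u|) / 2) * |∑ d ∈ Icc 1 D, ρ d / d| :=
          mul_le_mul_of_nonneg_right h8 (abs_nonneg _)
      _ = 2 * M * |∑ d ∈ Icc 1 D, ρ d / d| / (1 + |u|) := by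
          field_simp
  · have hterm : ∀ d ∈ Icc 1 D,
        ‖(ρ d : ℂ) * (tw u d * (DP (win 0 (M / d)) (fun _ => 1) u - mt d))‖ ≤
          C₀ * Ct ^ 2 * M ^ (1 - c₀) * (d : ℝ) ^ (2 * c₀ - 1) := by
      intro d hd
      have hd1 : 1 ≤ d := (mem_Icc.1 hd).1
      have hd0 : (0 : ℝ) < d := by exact_mod_cast hd1
      obtain ⟨_, h1, h2⟩ := hY d hd
      have h3 := hps (M / d) u h1 h2
      rw [norm_mul, norm_mul, norm_tw, one_mul, Complex.norm_real, Real.norm_eq_abs]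
      have h4 : |ρ d| ≤ Ct ^ 2 * (d : ℝ) ^ c₀ := by
        calc |ρ d| ≤ (d.divisors.card : ℝ) ^ 2 := hbd d
          _ ≤ (Ct * (d : ℝ) ^ (c₀ / 2)) ^ 2 := by
            apply pow_le_pow_left₀ (Nat.cast_nonneg _) (htau d hd1)
          _ = Ct ^ 2 * (d : ℝ) ^ c₀ := by
            rw [mul_pow, ← Real.rpow_natCast ((d : ℝ) ^ (c₀ / 2)), ← Real.rpow_mul hd0.le]
            norm_num
      calc |ρ d| * ‖DP (win 0 (M / d)) (fun _ => 1) u - mt d‖
          ≤ (Ct ^ 2 * (d : ℝ) ^ c₀) * (C₀ * (M / d) ^ (1 - c₀)) :=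
            mul_le_mul h4 h3 (norm_nonneg _) (by positivity)
        _ = C₀ * Ct ^ 2 * M ^ (1 - c₀) * (d : ℝ) ^ (2 * c₀ - 1) := by
            rw [Real.div_rpow hM0.le hd0.le]
            have h5 : (d : ℝ) ^ (2 * c₀ - 1) = (d : ℝ) ^ c₀ / (d : ℝ) ^ (1 - c₀) := by
              rw [← Real.rpow_sub hd0]
              congr 1
              ring
            rw [h5]
            ring
    calc ‖∑ d ∈ Icc 1 D, (ρ d : ℂ) * (tw u d * (DP (win 0 (M / d)) (fun _ => 1) u - mt d))‖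
        ≤ ∑ d ∈ Icc 1 D, C₀ * Ct ^ 2 * M ^ (1 - c₀) * (d : ℝ) ^ (2 * c₀ - 1) :=
          (norm_sum_le _ _).trans (Finset.sum_le_sum hterm)
      _ = C₀ * Ct ^ 2 * M ^ (1 - c₀) * ∑ d ∈ Icc 1 D, (d : ℝ) ^ (2 * c₀ - 1) := by
          rw [Finset.mul_sum]
      _ ≤ C₀ * Ct ^ 2 * M ^ (1 - c₀) * ((D : ℝ) ^ (2 * c₀) / (2 * c₀)) := by
          apply mul_le_mul_of_nonneg_left _ (by positivity)
          exact e03_sum_rpow (by positivity) (by linarith) D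
      _ ≤ C₀ * Ct ^ 2 * M ^ (1 - c₀) * (M ^ (c₀ / 6) / (2 * c₀)) := by
          apply mul_le_mul_of_nonneg_left _ (by positivity)
          apply div_le_div_of_nonneg_right _ (by positivity)
          calc (D : ℝ) ^ (2 * c₀) ≤ (M ^ (1 / 12 : ℝ)) ^ (2 * c₀) :=
                Real.rpow_le_rpow (Nat.cast_nonneg _) hD (by positivity)
            _ = M ^ (c₀ / 6) := by
                rw [← Real.rpow_mul hM0.le]
                congr 1
                ring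
      _ = C₀ * Ct ^ 2 * (1 / (2 * c₀)) * (M ^ (1 - c₀) * M ^ (c₀ / 6)) := by ring
      _ ≤ C₀ * Ct ^ 2 * (1 / (2 * c₀)) * M ^ (1 - c₀ / 5) := by
          apply mul_le_mul_of_nonneg_left _ (by positivity)
          rw [← Real.rpow_add hM0]
          apply Real.rpow_le_rpow_of_exponent_le hM1
          linarith

end BP4
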