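import Pool.Agent.LibBP4.Defs

/-!
TASK S09.  Sum of the sieve weights over an interval: interchange the sums;
`#{n ∈ (x, x+h] : d ∣ n} = ⌊(x+h)/d⌋ - ⌊x/d⌋ = h/d + θ` with `|θ| ≤ 1`.  (Note `n ≥ 1` on
`win x (x+h)` when `0 ≤ x`.)
-/

open MeasureTheory Finset Filter
open scoped Topology

namespace BP4

open MR57 (tw DP trap SW wh ES IsCM Grep)

theorem S09_card (x h : ℝ) (hx : 0 ≤ x) (hh : 0 ≤ h) (d : ℕ) (hd : 1 ≤ d) :
    |(((win x (x + h)).filter (fun n => d ∣ n)).card : ℝ) - h / d| ≤ 1 := by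
  have hd0 : (0 : ℝ) < d := by exact_mod_cast hd
  have hcard : ((win x (x + h)).filter (fun n => d ∣ n)).card = ⌊(x + h) / d⌋₊ - ⌊x / d⌋₊ := by
    rw [← Nat.card_Ioc]
    symm
    apply Finset.card_bij (fun m _ => d * m)
    · intro m hm
      rw [mem_Ioc, Nat.floor_lt (div_nonneg hx hd0.le)] at hm
      obtain ⟨h1, h2⟩ := hm
      have hm0 : m ≠ 0 := by
        rintro rfl
        simp only [Nat.cast_zero] at h1
        exact absurd h1 (not_lt.2 (div_nonneg hx hd0.le))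
      have h2' := (Nat.le_floor_iff' hm0).1 h2
      rw [div_lt_iff₀ hd0] at h1
      rw [le_div_iff₀ hd0] at h2'
      rw [mem_filter, mem_win hx]
      push_cast
      refine ⟨⟨?_, ?_⟩, dvd_mul_right d m⟩
      · linarith [mul_comm (m : ℝ) (d : ℝ)]
      · linarith [mul_comm (m : ℝ) (d : ℝ)]
    · intro m _ m' _ h5
      exact Nat.eq_of_mul_eq_mul_left hd h5
    · intro n hn
      rw [mem_filter, mem_win hx] at hn
      obtain ⟨⟨h1, h2⟩, m, rfl⟩ := hn
      refine ⟨m, ?_, rfl⟩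
      push_cast at h1 h2
      rw [mem_Ioc, Nat.floor_lt (div_nonneg hx hd0.le)]
      refine ⟨?_, ?_⟩
      · rw [div_lt_iff₀ hd0]
        linarith [mul_comm (m : ℝ) (d : ℝ)]
      · apply Nat.le_floor
        rw [le_div_iff₀ hd0]
        linarith [mul_comm (m : ℝ) (d : ℝ)]
  have hle : ⌊x / d⌋₊ ≤ ⌊(x + h) / d⌋₊ := by
    apply Nat.floor_mono
    apply div_le_div_of_nonneg_right _ hd0.le
    linarith
  rw [hcard, Nat.cast_sub hle]
  have a1 := Nat.floor_le (div_nonneg hx hd0.le)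
  have a2 := Nat.lt_floor_add_one (x / (d : ℝ))
  have a3 := Nat.floor_le (div_nonneg (add_nonneg hx hh) hd0.le)
  have a4 := Nat.lt_floor_add_one ((x + h) / (d : ℝ))
  have a5 : (x + h) / (d : ℝ) = x / d + h / d := add_div _ _ _
  rw [abs_le]
  constructor <;> linarith

theorem mass_sum (ρ : ℕ → ℝ) (D : ℕ) (hρ : ∀ d, ρ d ≠ 0 → 1 ≤ d ∧ d ≤ D) (x h : ℝ) (hx : 0 ≤ x)
    (hh : 0 ≤ h) :
    |∑ n ∈ win x (x + h), ∑ d ∈ n.divisors, ρ d - h * ∑ d ∈ Icc 1 D, ρ d / d| ≤
      ∑ d ∈ Icc 1 D, |ρ d| := by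
  have h1 : ∑ n ∈ win x (x + h), ∑ d ∈ n.divisors, ρ d =
      ∑ d ∈ Icc 1 D, ρ d * (((win x (x + h)).filter (fun n => d ∣ n)).card : ℝ) := by
    have h2 : ∀ n ∈ win x (x + h), ∑ d ∈ n.divisors, ρ d =
        ∑ d ∈ Icc 1 D, if d ∣ n then ρ d else 0 := by
      intro n hn
      rw [mem_win hx] at hn
      have hn0 : n ≠ 0 := by
        rintro rfl
        simp only [Nat.cast_zero] at hn
        linarith [hn.1]
      rw [← Finset.sum_filter]
      symm
      apply Finset.sum_subset_zero_on_sdiff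
      · intro d hd
        rw [mem_filter] at hd
        exact Nat.mem_divisors.2 ⟨hd.2, hn0⟩
      · intro d hd
        rw [Finset.mem_sdiff, mem_filter, Nat.mem_divisors, mem_Icc] at hd
        by_contra hne
        exact hd.2 ⟨hρ d hne, hd.1.1⟩
      · intro d _
        rfl
    rw [Finset.sum_congr rfl h2, Finset.sum_comm]
    apply Finset.sum_congr rfl
    intro d _
    rw [← Finset.sum_filter, Finset.sum_const, nsmul_eq_mul, mul_comm]
  rw [h1, Finset.mul_sum, ← Finset.sum_sub_distrib]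
  refine (Finset.abs_sum_le_sum_abs _ _).trans ?_
  apply Finset.sum_le_sum
  intro d hd
  rw [mem_Icc] at hd
  have h3 : ρ d * (((win x (x + h)).filter (fun n => d ∣ n)).card : ℝ) - h * (ρ d / d) =
      ρ d * ((((win x (x + h)).filter (fun n => d ∣ n)).card : ℝ) - h / d) := by ring
  rw [h3, abs_mul]
  exact mul_le_of_le_one_right (abs_nonneg _) (S09_card x h hx hh d hd.1)

end BP4
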