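import Pool.Agent.LibBP4.S12
import Pool.Agent.LibBP4.S09

/-!
TASK E04a.  The sieve weights barely exceed the indicator function of the rough numbers (`x = 0`, `h = y`).
By `mass_sum` (`x = 0`, `∑ |ρ_d| ≤ R^6 ≤ y^{1/4}`, see `b06b_rho_sum` in
`outputs/live/Pool/Agent/LibMR57/B06b.lean`), `IsSel.le_V`, `V_bounds` and `FL` with `x = 0`,
`h = y`; `log R ≥ (1/25) log y` for `y ≥ y₀` (for bounded `y` everything is bounded, and
`y/log z * exp(-(c log y/log z))` is bounded below since `2 ≤ z ≤ y`).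
-/

open MeasureTheory Finset Filter
open scoped Topology

namespace BP4

open MR57 (tw DP trap SW wh ES IsCM Grep)

theorem E04a_rho_sum (C₀ z : ℝ) (R : ℕ) (ρ : ℕ → ℝ) (h : IsSel C₀ z R ρ) :
    ∑ d ∈ Icc 1 (R ^ 2), |ρ d| ≤ (R : ℝ) ^ 6 := by
  have h1 : ∀ d ∈ Icc 1 (R ^ 2), |ρ d| ≤ (R : ℝ) ^ 4 := by
    intro d hd
    rw [mem_Icc] at hd
    have h2 : (d.divisors.card : ℝ) ≤ (R : ℝ) ^ 2 := by
      have h3 : d.divisors.card ≤ d := Nat.card_divisors_le_self d
      exact_mod_cast h3.trans hd.2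
    calc |ρ d| ≤ (d.divisors.card : ℝ) ^ 2 := h.bd d
      _ ≤ ((R : ℝ) ^ 2) ^ 2 := pow_le_pow_left₀ (by positivity) h2 2
      _ = (R : ℝ) ^ 4 := by ring
  calc ∑ d ∈ Icc 1 (R ^ 2), |ρ d| ≤ ∑ _d ∈ Icc 1 (R ^ 2), (R : ℝ) ^ 4 := sum_le_sum h1
    _ = (R : ℝ) ^ 6 := by
      rw [sum_const, Nat.card_Icc, nsmul_eq_mul]
      simp only [Nat.add_sub_cancel]
      push_cast
      ring

theorem weight_diff (C₀ : ℝ) (hC₀ : 0 < C₀) : ∃ C c : ℝ, 0 < C ∧ 0 < c ∧ ∀ (z y : ℝ) (ρ : ℕ → ℝ),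
    2 ≤ z → z ≤ y → z ≤ ⌊y ^ (1 / 24 : ℝ)⌋₊ → IsSel C₀ z ⌊y ^ (1 / 24 : ℝ)⌋₊ ρ →
    ∑ n ∈ win 0 y, ∑ d ∈ n.divisors, ρ d - (rgh z 0 y).card ≤
      C * (y / Real.log z) * Real.exp (-(c * (Real.log y / Real.log z))) + y ^ (1 / 4 : ℝ) := by
  obtain ⟨C₁, c₁, hC₁, hc₁, hFL⟩ := FL
  obtain ⟨c₂, C₂, hc₂, hC₂, hV⟩ := V_bounds
  refine ⟨C₀ * C₂ + C₁, min c₁ (1 / 48), by positivity, lt_min hc₁ (by norm_num), ?_⟩
  intro z y ρ hz hzy hzR hsel
  have hy0 : 0 < y := by linarith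
  have hlz : 0 < Real.log z := Real.log_pos (by linarith)
  have hly : 0 < Real.log y := Real.log_pos (by linarith)
  set Y : ℝ := y ^ (1 / 24 : ℝ) with hY
  have hY0 : 0 < Y := Real.rpow_pos_of_pos hy0 _
  set R : ℕ := ⌊Y⌋₊ with hR
  have hRY : (R : ℝ) ≤ Y := Nat.floor_le hY0.le
  have hR2 : (2 : ℝ) ≤ R := le_trans hz hzR
  have hR0 : (0 : ℝ) < R := by linarith
  -- the mass of the weights
  have hmass := mass_sum ρ (R ^ 2) hsel.supp 0 y le_rfl hy0.le
  rw [zero_add] at hmass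
  have hm1 := (abs_le.1 hmass).2
  have hsum := E04a_rho_sum C₀ z R ρ hsel
  have hR6 : (R : ℝ) ^ 6 ≤ y ^ (1 / 4 : ℝ) := by
    calc (R : ℝ) ^ 6 ≤ Y ^ 6 := pow_le_pow_left₀ hR0.le hRY 6
      _ = y ^ (1 / 4 : ℝ) := by
        rw [hY, ← Real.rpow_natCast, ← Real.rpow_mul hy0.le]
        norm_num
  -- the rough numbers
  have hF := (abs_le.1 (hFL z 0 y hz le_rfl hzy)).1
  rw [zero_add] at hF
  -- logarithms
  have hlogR : Real.log y / 48 ≤ Real.log R := by
    have h1 : Y < R + 1 := Nat.lt_floor_add_one Y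
    have h2 : Y ≤ 2 * R := by linarith
    have h3 : Real.log Y ≤ Real.log 2 + Real.log R := by
      rw [← Real.log_mul (by norm_num) hR0.ne']
      exact Real.log_le_log hY0 h2
    have h4 : Real.log 2 ≤ Real.log R := Real.log_le_log (by norm_num) hR2
    have h5 : Real.log Y = 1 / 24 * Real.log y := by rw [hY, Real.log_rpow hy0]
    linarith
  set c : ℝ := min c₁ (1 / 48) with hc
  have hcc1 : c ≤ c₁ := min_le_left _ _
  have hcc2 : c ≤ 1 / 48 := min_le_right _ _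
  have hq : 0 ≤ Real.log y / Real.log z := by positivity
  have he1 : Real.exp (-(Real.log R / Real.log z)) ≤
      Real.exp (-(c * (Real.log y / Real.log z))) := by
    apply Real.exp_le_exp.2
    apply neg_le_neg
    calc c * (Real.log y / Real.log z) ≤ 1 / 48 * (Real.log y / Real.log z) :=
          mul_le_mul_of_nonneg_right hcc2 hq
      _ = (Real.log y / 48) / Real.log z := by ring
      _ ≤ Real.log R / Real.log z := div_le_div_of_nonneg_right hlogR hlz.le
  have he2 : Real.exp (-(c₁ * (Real.log y / Real.log z))) ≤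
      Real.exp (-(c * (Real.log y / Real.log z))) := by
    apply Real.exp_le_exp.2
    apply neg_le_neg
    exact mul_le_mul_of_nonneg_right hcc1 hq
  have hVz := (hV z hz).2
  have hE0 : 0 < Real.exp (-(c * (Real.log y / Real.log z))) := Real.exp_pos _
  have h1 : y * ∑ d ∈ Icc 1 (R ^ 2), ρ d / d ≤
      y * V z + C₀ * C₂ * (y / Real.log z) * Real.exp (-(c * (Real.log y / Real.log z))) := by
    have h2 := mul_le_mul_of_nonneg_left hsel.le_V hy0.le
    have h3 : V z * (C₀ * Real.exp (-(Real.log R / Real.log z))) ≤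
        (C₂ / Real.log z) * (C₀ * Real.exp (-(c * (Real.log y / Real.log z)))) :=
      mul_le_mul hVz (mul_le_mul_of_nonneg_left he1 hC₀.le) (by positivity) (by positivity)
    have h4 := mul_le_mul_of_nonneg_left h3 hy0.le
    calc y * ∑ d ∈ Icc 1 (R ^ 2), ρ d / d
        ≤ y * (V z * (1 + C₀ * Real.exp (-(Real.log R / Real.log z)))) := h2
      _ = y * V z + y * (V z * (C₀ * Real.exp (-(Real.log R / Real.log z)))) := by ring
      _ ≤ y * V z + y * ((C₂ / Real.log z) *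
            (C₀ * Real.exp (-(c * (Real.log y / Real.log z))))) := by linarith
      _ = y * V z + C₀ * C₂ * (y / Real.log z) *
            Real.exp (-(c * (Real.log y / Real.log z))) := by ring
  have h5 : C₁ * (y / Real.log z) * Real.exp (-(c₁ * (Real.log y / Real.log z))) ≤
      C₁ * (y / Real.log z) * Real.exp (-(c * (Real.log y / Real.log z))) :=
    mul_le_mul_of_nonneg_left he2 (by positivity)
  have h6 : (C₀ * C₂ + C₁) * (y / Real.log z) * Real.exp (-(c * (Real.log y / Real.log z))) =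
      C₀ * C₂ * (y / Real.log z) * Real.exp (-(c * (Real.log y / Real.log z))) +
      C₁ * (y / Real.log z) * Real.exp (-(c * (Real.log y / Real.log z))) := by ring
  rw [h6]
  linarith

end BP4
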