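import Pool.Agent.LibBP4.Defs

/-!
TASK S02.  Crude lower bound for `G`.  With `N = ⌊z⌋₊`: every squarefree `n ≤ N` is in `sset R z`, so
`G R z ≥ ∑_{n ≤ N squarefree} 1/φ(n) ≥ (1/2) log N` (`b05_G_ge` in
`outputs/live/Pool/Agent/LibMR57/B05.lean`, copy it), and `log N ≥ (1/2) log z` for `z ≥ 2`.
-/

open MeasureTheory Finset Filter
open scoped Topology

namespace BP4

open MR57 (tw DP trap SW wh ES IsCM Grep)

/-- Squarefree numbers up to `R`. -/
def s02S (R : ℕ) : Finset ℕ := (Icc 1 R).filter Squarefree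

/-- The Selberg sum over all squarefree numbers up to `R`. -/
noncomputable def s02G (R : ℕ) : ℝ := ∑ l ∈ s02S R, 1 / (Nat.totient l : ℝ)

theorem s02_mem {R l : ℕ} : l ∈ s02S R ↔ (1 ≤ l ∧ l ≤ R) ∧ Squarefree l := by
  unfold s02S
  rw [Finset.mem_filter, Finset.mem_Icc]

theorem s02_sum_inj {α β : Type*} [DecidableEq β] (s : Finset α) (t : Finset β) (f : β → ℝ)
    (i : α → β) (hi : ∀ a ∈ s, i a ∈ t) (inj : Set.InjOn i s) (hf : ∀ b ∈ t, 0 ≤ f b) :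
    ∑ a ∈ s, f (i a) ≤ ∑ b ∈ t, f b := by
  rw [← Finset.sum_image (f := f) inj]
  apply Finset.sum_le_sum_of_subset_of_nonneg
  · intro b hb
    rw [Finset.mem_image] at hb
    obtain ⟨a, ha, rfl⟩ := hb
    exact hi a ha
  · intro b hb _
    exact hf b hb

theorem s02_sum_sq (R : ℕ) : ∑ k ∈ Icc 1 (R + 1), 1 / (k : ℝ) ^ 2 ≤ 2 - 1 / ((R : ℝ) + 1) := by
  induction R with
  | zero => norm_num
  | succ n ih =>
    rw [Finset.sum_Icc_succ_top (by omega)]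
    push_cast
    have hn : (0 : ℝ) ≤ n := Nat.cast_nonneg n
    have h1 : 1 / ((n : ℝ) + 1 + 1) ^ 2 ≤ 1 / ((n : ℝ) + 1) - 1 / ((n : ℝ) + 1 + 1) := by
      rw [div_sub_div _ _ (by positivity) (by positivity), div_le_div_iff₀ (by positivity)
        (by positivity)]
      nlinarith
    linarith

theorem s02_G_ge {R : ℕ} (hR : 1 ≤ R) : Real.log R ≤ 2 * s02G R := by
  have h1 : Real.log R ≤ ∑ n ∈ Icc 1 R, 1 / (n : ℝ) := by
    have h := log_add_one_le_harmonic R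
    rw [harmonic_eq_sum_Icc] at h
    push_cast at h
    have h2 : Real.log R ≤ Real.log (R + 1) :=
      Real.log_le_log (by exact_mod_cast hR) (by linarith)
    simp only [one_div]
    linarith
  have h2 : ∀ n ∈ Icc 1 R, ∃ x : ℕ × ℕ, x ∈ s02S R ×ˢ Icc 1 R ∧ x.2 ^ 2 * x.1 = n := by
    intro n hn
    rw [Finset.mem_Icc] at hn
    obtain ⟨a, b, ha, hb, h, hsq⟩ := Nat.sq_mul_squarefree_of_pos (show 0 < n by omega)
    refine ⟨(a, b), ?_, h⟩
    rw [Finset.mem_product, s02_mem, Finset.mem_Icc]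
    have e1 : a ≤ n := by
      rw [← h]
      exact Nat.le_mul_of_pos_left a (by positivity)
    have e2 : b ≤ n := by
      rw [← h]
      calc b = b * 1 := by ring
        _ ≤ b * (b * a) := Nat.mul_le_mul_left b (Nat.mul_pos hb ha)
        _ = b ^ 2 * a := by ring
    exact ⟨⟨⟨ha, by omega⟩, hsq⟩, hb, by omega⟩
  choose! c hc1 hc2 using h2
  have h3 : ∑ n ∈ Icc 1 R, 1 / (n : ℝ) ≤ ∑ x ∈ s02S R ×ˢ Icc 1 R, 1 / ((x.2 : ℝ) ^ 2 * x.1) := by
    calc ∑ n ∈ Icc 1 R, 1 / (n : ℝ)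
        = ∑ n ∈ Icc 1 R, 1 / (((c n).2 : ℝ) ^ 2 * (c n).1) := by
          apply Finset.sum_congr rfl
          intro n hn
          have := hc2 n hn
          have h4 : (((c n).2 : ℝ) ^ 2 * (c n).1) = n := by exact_mod_cast this
          rw [h4]
      _ ≤ _ := by
          apply s02_sum_inj (Icc 1 R) (s02S R ×ˢ Icc 1 R)
            (fun x : ℕ × ℕ => 1 / ((x.2 : ℝ) ^ 2 * x.1)) c hc1
          · intro m hm n hn hmn
            rw [← hc2 m hm, ← hc2 n hn, hmn]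
          · intro x _
            positivity
  have h4 : ∑ x ∈ s02S R ×ˢ Icc 1 R, 1 / ((x.2 : ℝ) ^ 2 * x.1) =
      (∑ l ∈ s02S R, 1 / (l : ℝ)) * ∑ k ∈ Icc 1 R, 1 / (k : ℝ) ^ 2 := by
    rw [Finset.sum_mul_sum, Finset.sum_product]
    apply Finset.sum_congr rfl
    intro l _
    apply Finset.sum_congr rfl
    intro k _
    rw [div_mul_div_comm, one_mul, mul_comm]
  have h5 : ∑ l ∈ s02S R, 1 / (l : ℝ) ≤ s02G R := by
    unfold s02G
    apply Finset.sum_le_sum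
    intro l hl
    rw [s02_mem] at hl
    have e1 : 0 < Nat.totient l := Nat.totient_pos.2 (by omega)
    have e2 : Nat.totient l ≤ l := Nat.totient_le l
    exact one_div_le_one_div_of_le (by exact_mod_cast e1) (by exact_mod_cast e2)
  have h7 : ∑ k ∈ Icc 1 R, 1 / (k : ℝ) ^ 2 ≤ 2 := by
    obtain ⟨r, rfl⟩ : ∃ r, R = r + 1 := ⟨R - 1, by omega⟩
    have h6 := s02_sum_sq r
    have : 0 < 1 / ((r : ℝ) + 1) := by positivity
    linarith
  have h8 : 0 ≤ ∑ l ∈ s02S R, 1 / (l : ℝ) := Finset.sum_nonneg (fun l _ => by positivity)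
  calc Real.log R ≤ (∑ l ∈ s02S R, 1 / (l : ℝ)) * ∑ k ∈ Icc 1 R, 1 / (k : ℝ) ^ 2 := by
        rw [← h4]; linarith
    _ ≤ (∑ l ∈ s02S R, 1 / (l : ℝ)) * 2 := mul_le_mul_of_nonneg_left h7 h8
    _ ≤ 2 * s02G R := by linarith

theorem G_crude (z : ℝ) (R : ℕ) (hz : 2 ≤ z) (hR : z ≤ R) : Real.log z ≤ 4 * G R z := by
  have hz0 : 0 ≤ z := by linarith
  have hN2 : 2 ≤ ⌊z⌋₊ := Nat.le_floor (by exact_mod_cast hz)
  have hNR : ⌊z⌋₊ ≤ R := Nat.floor_le_of_le hR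
  have hNz : (⌊z⌋₊ : ℝ) ≤ z := Nat.floor_le hz0
  have hzN : z < (⌊z⌋₊ : ℝ) + 1 := Nat.lt_floor_add_one z
  have h1 := s02_G_ge (R := ⌊z⌋₊) (by omega)
  have h2 : s02G ⌊z⌋₊ ≤ G R z := by
    unfold s02G G
    apply Finset.sum_le_sum_of_subset_of_nonneg
    · intro n hn
      classical
      rw [s02_mem] at hn
      unfold sset
      rw [Finset.mem_filter, Finset.mem_Icc]
      refine ⟨⟨hn.1.1, hn.1.2.trans hNR⟩, hn.2, ?_⟩
      intro p _ hpn
      have h3 : p ≤ ⌊z⌋₊ := (Nat.le_of_dvd (by omega) hpn).trans hn.1.2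
      have h4 : (p : ℝ) ≤ (⌊z⌋₊ : ℝ) := by exact_mod_cast h3
      exact h4.trans hNz
    · intro n _ _
      positivity
  have hN2' : (2 : ℝ) ≤ (⌊z⌋₊ : ℝ) := by exact_mod_cast hN2
  have h3 : Real.log z ≤ 2 * Real.log (⌊z⌋₊ : ℝ) := by
    have h4 : z ≤ (⌊z⌋₊ : ℝ) ^ 2 := by nlinarith
    have h5 : Real.log z ≤ Real.log ((⌊z⌋₊ : ℝ) ^ 2) := Real.log_le_log (by linarith) h4
    rw [Real.log_pow] at h5
    push_cast at h5
    exact h5
  linarith

end BP4
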