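import Pool.Agent.LibBP4.Ext

/-!
TASK S03.  Two sided bounds for `V z = ∏_{p ≤ z} (1 - 1/p)` from Mertens' third theorem (`x_mertens_third`).
Large `z`: from the limit (`z` real against `⌊z⌋₊`: `prm 0 z = (range (⌊z⌋₊+1)).filter Prime`, and
`log ⌊z⌋₊` against `log z`); bounded `z ≥ 2`: `V` takes finitely many positive values `≤ 1`.
-/

open MeasureTheory Finset Filter
open scoped Topology

namespace BP4

open MR57 (tw DP trap SW wh ES IsCM Grep)

theorem S03_V_eq (z : ℝ) : V z = ∏ p ∈ (range (⌊z⌋₊ + 1)).filter Nat.Prime, (1 - 1 / (p : ℝ)) := by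
  unfold V
  rw [prm_zero]
  congr 1
  ext p
  simp only [mem_filter, mem_Icc, mem_range]
  constructor
  · rintro ⟨⟨_, h⟩, h'⟩
    exact ⟨by omega, h'⟩
  · rintro ⟨h, h'⟩
    exact ⟨⟨by omega, by omega⟩, h'⟩

theorem S03_pos (s : Finset ℕ) : 0 < ∏ p ∈ s.filter Nat.Prime, (1 - 1 / (p : ℝ)) := by
  apply Finset.prod_pos
  intro p hp
  rw [mem_filter] at hp
  have h2 : (2 : ℝ) ≤ p := by exact_mod_cast hp.2.two_le
  have h3 : 1 / (p : ℝ) ≤ 1 / 2 := one_div_le_one_div_of_le (by norm_num) h2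
  linarith

/-- The product over primes `≤ n` against `log n`. -/
theorem S03_nat : ∃ c C : ℝ, 0 < c ∧ 0 < C ∧ ∀ n : ℕ, 2 ≤ n →
    c ≤ (∏ p ∈ (range (n + 1)).filter Nat.Prime, (1 - 1 / (p : ℝ))) * Real.log n ∧
    (∏ p ∈ (range (n + 1)).filter Nat.Prime, (1 - 1 / (p : ℝ))) * Real.log n ≤ C := by
  set f : ℕ → ℝ := fun n =>
    (∏ p ∈ (range (n + 1)).filter Nat.Prime, (1 - 1 / (p : ℝ))) * Real.log n with hf
  set L : ℝ := Real.exp (-Real.eulerMascheroniConstant) with hL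
  have hL0 : 0 < L := Real.exp_pos _
  have hlim : Tendsto f atTop (𝓝 L) := x_mertens_third
  have hpos : ∀ n : ℕ, 2 ≤ n → 0 < f n := by
    intro n hn
    have h1 : (1 : ℝ) < n := by exact_mod_cast hn
    exact mul_pos (S03_pos _) (Real.log_pos h1)
  have e1 : ∀ᶠ n in atTop, L / 2 < f n := hlim.eventually (lt_mem_nhds (by linarith))
  have e2 : ∀ᶠ n in atTop, f n < 2 * L := hlim.eventually (gt_mem_nhds (by linarith))
  obtain ⟨N, hN⟩ := Filter.eventually_atTop.1 (e1.and e2)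
  -- lower bound on the finite part
  have hfin : ∀ N : ℕ, ∃ c C : ℝ, 0 < c ∧ 0 < C ∧ ∀ n, 2 ≤ n → n < N → c ≤ f n ∧ f n ≤ C := by
    intro N
    induction N with
    | zero => exact ⟨1, 1, one_pos, one_pos, fun n _ h => absurd h (Nat.not_lt_zero n)⟩
    | succ N ih =>
      obtain ⟨c, C, hc, hC, h⟩ := ih
      by_cases h2 : 2 ≤ N
      · refine ⟨min c (f N), max C (f N), lt_min hc (hpos N h2), lt_max_of_lt_left hC, ?_⟩
        intro n hn hnN
        rcases Nat.lt_succ_iff_lt_or_eq.1 hnN with h3 | h3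
        · exact ⟨(min_le_left _ _).trans (h n hn h3).1, (h n hn h3).2.trans (le_max_left _ _)⟩
        · subst h3
          exact ⟨min_le_right _ _, le_max_right _ _⟩
      · refine ⟨c, C, hc, hC, ?_⟩
        intro n hn hnN
        exact absurd hn (by omega)
  obtain ⟨c, C, hc, hC, h⟩ := hfin N
  refine ⟨min c (L / 2), max C (2 * L), lt_min hc (by linarith), lt_max_of_lt_left hC, ?_⟩
  intro n hn
  by_cases h3 : n < N
  · exact ⟨(min_le_left _ _).trans (h n hn h3).1, (h n hn h3).2.trans (le_max_left _ _)⟩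
  · have h4 := hN n (not_lt.1 h3)
    exact ⟨(min_le_right _ _).trans h4.1.le, h4.2.le.trans (le_max_right _ _)⟩

theorem V_bounds : ∃ c C : ℝ, 0 < c ∧ 0 < C ∧ ∀ z : ℝ, 2 ≤ z →
    c / Real.log z ≤ V z ∧ V z ≤ C / Real.log z := by
  obtain ⟨c, C, hc, hC, h⟩ := S03_nat
  refine ⟨c, 2 * C, hc, by linarith, ?_⟩
  intro z hz
  have hn : 2 ≤ ⌊z⌋₊ := Nat.le_floor (by exact_mod_cast hz)
  have hlz : 0 < Real.log z := Real.log_pos (by linarith)
  have hn2 : (2 : ℝ) ≤ (⌊z⌋₊ : ℝ) := by exact_mod_cast hn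
  have hle : (⌊z⌋₊ : ℝ) ≤ z := Nat.floor_le (by linarith)
  have hlt : z < (⌊z⌋₊ : ℝ) + 1 := Nat.lt_floor_add_one z
  have hln : 0 < Real.log (⌊z⌋₊ : ℝ) := Real.log_pos (by linarith)
  have hlog1 : Real.log (⌊z⌋₊ : ℝ) ≤ Real.log z := Real.log_le_log (by linarith) hle
  have hlog2 : Real.log z ≤ 2 * Real.log (⌊z⌋₊ : ℝ) := by
    have h1 : z ≤ (⌊z⌋₊ : ℝ) ^ 2 := by nlinarith
    have h2 := Real.log_le_log (by linarith) h1
    rw [Real.log_pow] at h2
    exact_mod_cast h2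
  obtain ⟨h1, h2⟩ := h ⌊z⌋₊ hn
  have hV : 0 < V z := by
    rw [S03_V_eq]
    exact S03_pos _
  rw [← S03_V_eq] at h1 h2
  constructor
  · rw [div_le_iff₀ hlz]
    exact h1.trans (mul_le_mul_of_nonneg_left hlog1 hV.le)
  · rw [le_div_iff₀ hlz]
    calc V z * Real.log z ≤ V z * (2 * Real.log (⌊z⌋₊ : ℝ)) :=
          mul_le_mul_of_nonneg_left hlog2 hV.le
      _ = 2 * (V z * Real.log (⌊z⌋₊ : ℝ)) := by ring
      _ ≤ 2 * C := by linarith

end BP4
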