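import Pool.Agent.LibBP4.Defs

/-!
TASK S04a.  `G` as a sum over sets of primes.  The map `s ↦ ∏_{p ∈ s} p` is a bijection between the subsets
of `prm 0 z` and the squarefree numbers with all prime factors `≤ z`
(`Nat.primeFactors`, `Nat.prod_primeFactors_of_squarefree`), and `φ` is multiplicative.
-/

open MeasureTheory Finset Filter
open scoped Topology

namespace BP4

open MR57 (tw DP trap SW wh ES IsCM Grep)

theorem S04a_sqf {s : Finset ℕ} (hs : ∀ p ∈ s, p.Prime) : Squarefree (∏ p ∈ s, p) := by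
  refine Finset.squarefree_prod_of_pairwise_isCoprime (fun p hp q hq hpq ↦ ?_)
    fun p hp ↦ (hs p hp).squarefree
  exact Nat.coprime_iff_isRelPrime.mp ((Nat.coprime_primes (hs p hp) (hs q hq)).mpr hpq)

theorem S04a_tot {d : ℕ} (hd : Squarefree d) :
    (Nat.totient d : ℝ) = ∏ p ∈ d.primeFactors, ((p : ℝ) - 1) := by
  have h1 := Nat.totient_mul_prod_primeFactors d
  rw [Nat.prod_primeFactors_of_squarefree hd, mul_comm] at h1
  have h2 : d.totient = ∏ p ∈ d.primeFactors, (p - 1) :=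
    Nat.eq_of_mul_eq_mul_left (Nat.pos_of_ne_zero hd.ne_zero) h1
  rw [h2, Nat.cast_prod]
  refine prod_congr rfl fun p hp => ?_
  rw [Nat.cast_sub (Nat.prime_of_mem_primeFactors hp).one_le, Nat.cast_one]

theorem G_eq (R : ℕ) (z : ℝ) (hz : 0 ≤ z) : G R z =
    ∑ s ∈ (prm 0 z).powerset.filter (fun s => ∏ p ∈ s, p ≤ R), ∏ p ∈ s, 1 / ((p : ℝ) - 1) := by
  classical
  unfold G
  have hmem : ∀ s ∈ (prm 0 z).powerset.filter (fun s => ∏ p ∈ s, p ≤ R),
      (∀ p ∈ s, p.Prime ∧ (p : ℝ) ≤ z) ∧ ∏ p ∈ s, p ≤ R := by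
    intro s hs
    rw [mem_filter, mem_powerset] at hs
    refine ⟨fun p hp => ?_, hs.2⟩
    have := (mem_prm le_rfl).1 (hs.1 hp)
    exact ⟨this.2, this.1.2⟩
  refine sum_bij' (fun d _ => d.primeFactors) (fun s _ => ∏ p ∈ s, p) ?_ ?_ ?_ ?_ ?_
  · intro d hd
    unfold sset at hd
    rw [mem_filter, mem_Icc] at hd
    rw [mem_filter, mem_powerset, Nat.prod_primeFactors_of_squarefree hd.2.1]
    refine ⟨fun p hp => ?_, hd.1.2⟩
    have hp' := Nat.prime_of_mem_primeFactors hp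
    exact (mem_prm le_rfl).2 ⟨⟨by exact_mod_cast hp'.pos,
      hd.2.2 p hp' (Nat.dvd_of_mem_primeFactors hp)⟩, hp'⟩
  · intro s hs
    obtain ⟨h1, h2⟩ := hmem s hs
    unfold sset
    rw [mem_filter, mem_Icc]
    refine ⟨⟨prod_pos fun p hp => (h1 p hp).1.pos, h2⟩, S04a_sqf fun p hp => (h1 p hp).1,
      fun p hp hdvd => ?_⟩
    have h3 : p ∈ (∏ p ∈ s, p).primeFactors :=
      Nat.mem_primeFactors.mpr ⟨hp, hdvd, (prod_pos fun p hp => (h1 p hp).1.pos).ne'⟩
    rw [Nat.primeFactors_prod fun p hp => (h1 p hp).1] at h3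
    exact (h1 p h3).2
  · intro d hd
    unfold sset at hd
    rw [mem_filter] at hd
    exact Nat.prod_primeFactors_of_squarefree hd.2.1
  · intro s hs
    exact Nat.primeFactors_prod fun p hp => ((hmem s hs).1 p hp).1
  · intro d hd
    unfold sset at hd
    rw [mem_filter] at hd
    rw [S04a_tot hd.2.1, prod_div_distrib, prod_const_one]

end BP4
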