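import Pool.Agent.LibBP4.Ext
import Pool.Agent.LibBP4.S04a

/-!
TASK S04.  Rankin's trick.  `∑_{s ⊆ prm 0 z} ∏_{p ∈ s} 1/(p-1) = ∏_{p ≤ z} (1 + 1/(p-1)) = 1 / V z`
(`Finset.prod_one_add`).  With `G_eq`, the missing part (`∏ s > R`) is at most
`R^{-η} ∑_s ∏_{p ∈ s} p^η/(p-1) = R^{-η} ∏ (1 + p^η/(p-1)) = R^{-η} (1/V z) ∏ (1 + (p^η - 1)/p)
 ≤ R^{-η} (1/V z) exp(∑_{p ≤ z} (p^η - 1)/p)` with `η = 1 / log z`; here `p^η ≤ e`, and
`p^η - 1 ≤ e η log p`, so the exponent is `≤ e η ∑_{p ≤ z} log p / p ≤ e η (log z + K) ≤ C`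
(`x_mertens_first`), and `R^{-η} = exp(-(log R / log z))`.
-/

open MeasureTheory Finset Filter
open scoped Topology

namespace BP4

open MR57 (tw DP trap SW wh ES IsCM Grep)

theorem S04_prm {z : ℝ} {p : ℕ} (hp : p ∈ prm 0 z) : p.Prime ∧ (p : ℝ) ≤ z ∧ (2 : ℝ) ≤ p := by
  rw [mem_prm le_rfl] at hp
  refine ⟨hp.2, hp.1.2, ?_⟩
  exact_mod_cast hp.2.two_le

theorem S04_inv_V (z : ℝ) :
    1 / V z = ∑ s ∈ (prm 0 z).powerset, ∏ p ∈ s, 1 / ((p : ℝ) - 1) := by
  rw [← Finset.prod_one_add]
  unfold V
  rw [one_div, ← Finset.prod_inv_distrib]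
  apply Finset.prod_congr rfl
  intro p hp
  have h2 := (S04_prm hp).2.2
  have h3 : (p : ℝ) ≠ 0 := by linarith
  have h4 : (p : ℝ) - 1 ≠ 0 := by
    intro h
    linarith
  field_simp
  ring

theorem S04_V_pos (z : ℝ) : 0 < V z := by
  unfold V
  apply Finset.prod_pos
  intro p hp
  have h2 := (S04_prm hp).2.2
  have : 1 / (p : ℝ) ≤ 1 / 2 := one_div_le_one_div_of_le (by norm_num) h2
  linarith

theorem S04_exp_sub_one {x : ℝ} (h0 : 0 ≤ x) (h1 : x ≤ 1) :
    Real.exp x - 1 ≤ Real.exp 1 * x := by
  have h2 : Real.exp x - 1 ≤ x * Real.exp x := by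
    have h3 := Real.add_one_le_exp (-x)
    have h4 : Real.exp x * Real.exp (-x) = 1 := by
      rw [← Real.exp_add]
      simp
    have h5 : Real.exp x * (-x + 1) ≤ Real.exp x * Real.exp (-x) :=
      mul_le_mul_of_nonneg_left h3 (Real.exp_pos x).le
    nlinarith
  have h3 : Real.exp x ≤ Real.exp 1 := Real.exp_le_exp.2 h1
  nlinarith

theorem G_rankin : ∃ C : ℝ, 0 < C ∧ ∀ (z : ℝ) (R : ℕ), 2 ≤ z → z ≤ R →
    1 / V z - G R z ≤ C * Real.exp (-(Real.log R / Real.log z)) / V z := by
  obtain ⟨K, hK, hM⟩ := x_mertens_first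
  refine ⟨Real.exp (Real.exp 1 * (1 + K / Real.log 2)), Real.exp_pos _, ?_⟩
  intro z R hz hR
  have hlz : 0 < Real.log z := Real.log_pos (by linarith)
  have hl2 : 0 < Real.log 2 := Real.log_pos (by norm_num)
  have hl2z : Real.log 2 ≤ Real.log z := Real.log_le_log (by norm_num) hz
  have hR0 : (0 : ℝ) < R := by linarith
  set η : ℝ := 1 / Real.log z with hη
  have hη0 : 0 < η := by positivity
  have hV := S04_V_pos z
  -- the difference
  have hdiff : 1 / V z - G R z =
      ∑ s ∈ (prm 0 z).powerset.filter (fun s => ¬ ∏ p ∈ s, p ≤ R),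
        ∏ p ∈ s, 1 / ((p : ℝ) - 1) := by
    rw [S04_inv_V, G_eq R z (by linarith),
      ← Finset.sum_filter_add_sum_filter_not (prm 0 z).powerset (fun s => ∏ p ∈ s, p ≤ R)]
    ring
  rw [hdiff]
  -- the termwise bound
  have hterm : ∀ s ∈ (prm 0 z).powerset.filter (fun s => ¬ ∏ p ∈ s, p ≤ R),
      ∏ p ∈ s, 1 / ((p : ℝ) - 1) ≤
        (R : ℝ) ^ (-η) * ∏ p ∈ s, ((p : ℝ) ^ η * (1 / ((p : ℝ) - 1))) := by
    intro s hs
    rw [mem_filter, mem_powerset, not_le] at hs
    obtain ⟨hs1, hs2⟩ := hs
    have hpos : 0 ≤ ∏ p ∈ s, 1 / ((p : ℝ) - 1) := by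
      apply Finset.prod_nonneg
      intro p hp
      have h2 := (S04_prm (hs1 hp)).2.2
      apply div_nonneg (by norm_num)
      linarith
    rw [Finset.prod_mul_distrib, ← mul_assoc]
    have h1 : (1 : ℝ) ≤ (R : ℝ) ^ (-η) * ∏ p ∈ s, (p : ℝ) ^ η := by
      have h2 : ∏ p ∈ s, (p : ℝ) ^ η = (∏ p ∈ s, (p : ℝ)) ^ η := by
        rw [← Real.finsetProd_rpow]
        intro p _
        positivity
      rw [h2]
      have h3 : (R : ℝ) ≤ ∏ p ∈ s, (p : ℝ) := by
        have := hs2.le
        have h4 : ((R : ℕ) : ℝ) ≤ ((∏ p ∈ s, p : ℕ) : ℝ) := by exact_mod_cast this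
        rwa [Nat.cast_prod] at h4
      have h4 : (R : ℝ) ^ η ≤ (∏ p ∈ s, (p : ℝ)) ^ η :=
        Real.rpow_le_rpow hR0.le h3 hη0.le
      calc (1 : ℝ) = (R : ℝ) ^ (-η) * (R : ℝ) ^ η := by
            rw [← Real.rpow_add hR0]
            simp
        _ ≤ _ := mul_le_mul_of_nonneg_left h4 (Real.rpow_nonneg hR0.le _)
    nlinarith
  calc ∑ s ∈ (prm 0 z).powerset.filter (fun s => ¬ ∏ p ∈ s, p ≤ R),
        ∏ p ∈ s, 1 / ((p : ℝ) - 1)
      ≤ ∑ s ∈ (prm 0 z).powerset.filter (fun s => ¬ ∏ p ∈ s, p ≤ R),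
        (R : ℝ) ^ (-η) * ∏ p ∈ s, ((p : ℝ) ^ η * (1 / ((p : ℝ) - 1))) :=
        Finset.sum_le_sum hterm
    _ ≤ ∑ s ∈ (prm 0 z).powerset,
        (R : ℝ) ^ (-η) * ∏ p ∈ s, ((p : ℝ) ^ η * (1 / ((p : ℝ) - 1))) := by
        apply Finset.sum_le_sum_of_subset_of_nonneg (Finset.filter_subset _ _)
        intro s hs _
        rw [mem_powerset] at hs
        apply mul_nonneg (Real.rpow_nonneg hR0.le _)
        apply Finset.prod_nonneg
        intro p hp
        have h2 := (S04_prm (hs hp)).2.2
        apply mul_nonneg (Real.rpow_nonneg (by linarith) _)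
        apply div_nonneg (by norm_num)
        linarith
    _ = (R : ℝ) ^ (-η) * ∏ p ∈ prm 0 z, (1 + (p : ℝ) ^ η * (1 / ((p : ℝ) - 1))) := by
        rw [← Finset.mul_sum, Finset.prod_one_add]
    _ = (R : ℝ) ^ (-η) * ((1 / V z) * ∏ p ∈ prm 0 z, (1 + ((p : ℝ) ^ η - 1) / p)) := by
        congr 1
        unfold V
        rw [one_div, ← Finset.prod_inv_distrib, ← Finset.prod_mul_distrib]
        apply Finset.prod_congr rfl
        intro p hp
        have h2 := (S04_prm hp).2.2
        have h3 : (p : ℝ) ≠ 0 := by linarith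
        have h4 : (p : ℝ) - 1 ≠ 0 := by
          intro h
          linarith
        field_simp
        ring
    _ ≤ (R : ℝ) ^ (-η) * ((1 / V z) * Real.exp (Real.exp 1 * (1 + K / Real.log 2))) := by
        apply mul_le_mul_of_nonneg_left _ (Real.rpow_nonneg hR0.le _)
        apply mul_le_mul_of_nonneg_left _ (by positivity)
        calc ∏ p ∈ prm 0 z, (1 + ((p : ℝ) ^ η - 1) / p)
            ≤ ∏ p ∈ prm 0 z, Real.exp (((p : ℝ) ^ η - 1) / p) := by
              apply Finset.prod_le_prod
              · intro p hp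
                have h2 := (S04_prm hp).2.2
                have h3 : (1 : ℝ) ≤ (p : ℝ) ^ η := Real.one_le_rpow (by linarith) hη0.le
                have : 0 ≤ ((p : ℝ) ^ η - 1) / p := div_nonneg (by linarith) (by linarith)
                linarith
              · intro p hp
                have := Real.add_one_le_exp (((p : ℝ) ^ η - 1) / p)
                linarith
          _ = Real.exp (∑ p ∈ prm 0 z, ((p : ℝ) ^ η - 1) / p) := by
              rw [Real.exp_sum]
          _ ≤ Real.exp (Real.exp 1 * (1 + K / Real.log 2)) := by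
              apply Real.exp_le_exp.2
              have h5 : ∀ p ∈ prm 0 z, ((p : ℝ) ^ η - 1) / p ≤
                  Real.exp 1 * η * (Real.log p / p) := by
                intro p hp
                obtain ⟨_, hpz, h2⟩ := S04_prm hp
                have hp0 : (0 : ℝ) < p := by linarith
                have hlp : 0 ≤ Real.log p := Real.log_nonneg (by linarith)
                have hlpz : Real.log p ≤ Real.log z := Real.log_le_log hp0 hpz
                have h6 : (p : ℝ) ^ η = Real.exp (Real.log p * η) := by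
                  rw [Real.rpow_def_of_pos hp0]
                have h7 : Real.log p * η ≤ 1 := by
                  rw [hη, mul_one_div, div_le_one hlz]
                  exact hlpz
                have h8 := S04_exp_sub_one (mul_nonneg hlp hη0.le) h7
                rw [h6]
                calc (Real.exp (Real.log p * η) - 1) / p
                    ≤ (Real.exp 1 * (Real.log p * η)) / p :=
                      div_le_div_of_nonneg_right h8 hp0.le
                  _ = Real.exp 1 * η * (Real.log p / p) := by ring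
              refine (Finset.sum_le_sum h5).trans ?_
              rw [← Finset.mul_sum]
              have h9 := hM z (by linarith)
              rw [abs_le] at h9
              have h10 : ∑ p ∈ prm 0 z, Real.log p / p ≤ Real.log z + K := by linarith [h9.2]
              have h11 : Real.exp 1 * η * ∑ p ∈ prm 0 z, Real.log p / p ≤
                  Real.exp 1 * η * (Real.log z + K) :=
                mul_le_mul_of_nonneg_left h10 (by positivity)
              refine h11.trans ?_
              rw [mul_assoc]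
              apply mul_le_mul_of_nonneg_left _ (Real.exp_pos 1).le
              have h12 : η * (Real.log z + K) = 1 + K / Real.log z := by
                rw [hη]
                field_simp
              rw [h12]
              have h13 : K / Real.log z ≤ K / Real.log 2 :=
                div_le_div_of_nonneg_left hK.le hl2 hl2z
              linarith
    _ = Real.exp (Real.exp 1 * (1 + K / Real.log 2)) *
          Real.exp (-(Real.log R / Real.log z)) / V z := by
        have h14 : (R : ℝ) ^ (-η) = Real.exp (-(Real.log R / Real.log z)) := by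
          rw [Real.rpow_def_of_pos hR0, hη]
          congr 1
          ring
        rw [h14]
        ring

end BP4
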