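import Pool.Agent.LibBP4.S01
import Pool.Agent.LibBP4.S02
import Pool.Agent.LibBP4.S03
import Pool.Agent.LibBP4.S04

/-!
TASK S05.  The sieve weights used everywhere (assembly of S01-S04).  Take `ρ` from `sel_weights`.
`rough`: if `Rough z n`, `d ∣ n` and `ρ d ≠ 0` then all primes of `d` are `≤ z` and `> z`, so
`d = 1`.  `le_log`: `1/G ≤ 4/log z` (`G_crude`).  `le_V`: let `x = C' exp(-(log R/log z))` with
`C'` from `G_rankin`.  If `x ≤ 1/2`, then `1/G ≤ V/(1-x) ≤ V (1 + 2x)`.  Otherwise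
`1/G ≤ 4/log z ≤ (4/c) V` (`V_bounds`) and `C₀ exp(..) ≥ C₀/(2C')` is large.
-/

open MeasureTheory Finset Filter
open scoped Topology

namespace BP4

open MR57 (tw DP trap SW wh ES IsCM Grep)

/-- The numerical part of `sieve_w`. -/
theorem S05_num {c C' G V l e : ℝ} (hc : 0 < c) (hC : 0 < C') (hV : 0 < V) (hl : 0 < l)
    (he : 0 < e) (h1 : l ≤ 4 * G) (h2 : c / l ≤ V) (h3 : 1 / V - G ≤ C' * e / V) :
    1 / G ≤ V * (1 + (4 + 2 * C' + 8 * C' / c) * e) := by
  have hG : 0 < G := by linarith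
  have hx : 1 - C' * e ≤ G * V := by
    have h4 : (1 / V - G) * V ≤ C' * e / V * V := mul_le_mul_of_nonneg_right h3 hV.le
    rw [div_mul_cancel₀ _ hV.ne', sub_mul, div_mul_cancel₀ _ hV.ne'] at h4
    linarith
  rw [div_le_iff₀ hG]
  have hce : 0 < C' * e := mul_pos hC he
  have hcc : 0 < C' / c := div_pos hC hc
  by_cases hx2 : C' * e ≤ 1 / 2
  · have h5 : 1 + 2 * (C' * e) ≤ 1 + (4 + 2 * C' + 8 * C' / c) * e := by
      have : 0 ≤ (4 + 8 * C' / c) * e := by positivity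
      nlinarith
    have h6 : 1 ≤ (1 + 2 * (C' * e)) * (1 - C' * e) := by nlinarith
    have h7 : (1 + 2 * (C' * e)) * (1 - C' * e) ≤ (1 + 2 * (C' * e)) * (G * V) :=
      mul_le_mul_of_nonneg_left hx (by linarith)
    have h8 : (1 + 2 * (C' * e)) * (G * V) ≤
        (1 + (4 + 2 * C' + 8 * C' / c) * e) * (G * V) :=
      mul_le_mul_of_nonneg_right h5 (mul_pos hG hV).le
    calc (1 : ℝ) ≤ (1 + (4 + 2 * C' + 8 * C' / c) * e) * (G * V) := by linarith
      _ = V * (1 + (4 + 2 * C' + 8 * C' / c) * e) * G := by ring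
  · rw [not_le] at hx2
    have h5 : c ≤ V * l := by
      rw [div_le_iff₀ hl] at h2
      exact h2
    have h6 : c / 4 ≤ G * V := by nlinarith
    have h7 : 4 / c ≤ 1 + (4 + 2 * C' + 8 * C' / c) * e := by
      have h8 : 4 / c ≤ 8 * C' / c * e := by
        have : 8 * C' / c * e = 8 * (C' * e) / c := by ring
        rw [this]
        apply div_le_div_of_nonneg_right _ hc.le
        linarith
      have h9 : 0 ≤ (4 + 2 * C') * e := by positivity
      nlinarith
    have h10 : 4 / c * (c / 4) ≤ (1 + (4 + 2 * C' + 8 * C' / c) * e) * (G * V) :=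
      mul_le_mul h7 h6 (by positivity) (by positivity)
    have h11 : 4 / c * (c / 4) = 1 := by
      field_simp
    calc (1 : ℝ) ≤ (1 + (4 + 2 * C' + 8 * C' / c) * e) * (G * V) := by linarith
      _ = V * (1 + (4 + 2 * C' + 8 * C' / c) * e) * G := by ring

theorem sieve_w : ∃ C₀ : ℝ, 0 < C₀ ∧ ∀ (z : ℝ) (R : ℕ), 2 ≤ z → z ≤ R →
    ∃ ρ : ℕ → ℝ, IsSel C₀ z R ρ := by
  obtain ⟨c, C, hc, hC, hV⟩ := V_bounds
  obtain ⟨C', hC', hG⟩ := G_rankin
  refine ⟨4 + 2 * C' + 8 * C' / c, by positivity, ?_⟩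
  intro z R hz hR
  have hR1 : 1 ≤ R := by
    have : (1 : ℝ) ≤ R := by linarith
    exact_mod_cast this
  obtain ⟨ρ, h1, h2, h3, h4, h5⟩ := sel_weights R z hR1
  have hl : 0 < Real.log z := Real.log_pos (by linarith)
  have hcr := G_crude z R hz hR
  have hGp : 0 < G R z := by linarith
  have hVz := (hV z hz).1
  have hVp : 0 < V z := lt_of_lt_of_le (div_pos hc hl) hVz
  refine ⟨ρ, ⟨h1, fun d hd => ⟨(h2 d hd).1, (h2 d hd).2.1⟩, h3, h4, ?_, ?_, ?_, ?_⟩⟩
  · intro n hn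
    rw [Finset.sum_eq_single 1]
    · exact h1
    · intro d hd hd1
      by_contra hne
      obtain ⟨p, hp, hpd⟩ := Nat.exists_prime_and_dvd hd1
      have hle := (h2 d hne).2.2 p hp hpd
      have hlt := hn.2 p hp (hpd.trans (Nat.dvd_of_mem_divisors hd))
      linarith
    · intro h
      exact absurd (Nat.one_mem_divisors.2 hn.1) h
  · rw [h5]
    positivity
  · rw [h5, div_le_div_iff₀ hGp hl]
    have : 0 ≤ (2 * C' + 8 * C' / c) * G R z := by positivity
    nlinarith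
  · rw [h5]
    exact S05_num hc hC' hVp hl (Real.exp_pos _) hcr hVz (hG z R hz hR)

end BP4
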