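import Pool.Agent.LibBP4.E03
import Pool.Agent.LibBP4.E04a
import Pool.Agent.LibBP4.S05

/-!
TASK E04.  Rough numbers twisted by `n^{-it}`.  If `y < z^{25}`: the trivial bound `rgh_card_le` (with
`x = 0`, `h = y ≥ z`) suffices because `exp(-c log y/log z) ≥ exp(-25c)`.  If `y ≥ z^{25}`: put
`R = ⌊y^{1/24}⌋₊ ≥ z` (large `z`), `ρ` from `sieve_w z R`, `D = R^2 ≤ y^{1/12}`.  The sum of
`(∑_{d∣n} ρ_d) n^{-it}` over `n ≤ y` is bounded by `sharp_twist` (`θ = 1/B`), with
`|∑ ρ_d/d| ≤ C₀/log z`.  The difference `∑_{n ≤ y} (∑_{d∣n} ρ_d - 1_{rough}(n)) n^{-it}` is at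
most `∑_{n ≤ y} ∑_{d∣n} ρ_d - #rgh z 0 y` in absolute value (the terms are nonnegative: `nonneg`,
`rough`), bounded by `weight_diff`.  The constants `C, c` must not depend on `B`; the power terms
`C_B y^{1-c_B} + y^{1/4}` are `≤ y^{1-c₁}` for `y ≥ z ≥ z₁`.
-/

open MeasureTheory Finset Filter
open scoped Topology

namespace BP4

open MR57 (tw DP trap SW wh ES IsCM Grep)

/-- passing from the sieve weights to the rough numbers -/
private theorem e04_diff {C₀ z y t : ℝ} {R : ℕ} {ρ : ℕ → ℝ} (hρ : IsSel C₀ z R ρ) :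
    ‖DP (rgh z 0 y) (fun _ => 1) t -
      ∑ n ∈ win 0 y, ((∑ d ∈ n.divisors, ρ d : ℝ) : ℂ) * tw t n‖ ≤
      ∑ n ∈ win 0 y, ∑ d ∈ n.divisors, ρ d - (rgh z 0 y).card := by
  classical
  have h1 : DP (rgh z 0 y) (fun _ => 1) t =
      ∑ n ∈ win 0 y, (((if Rough z n then 1 else 0 : ℝ)) : ℂ) * tw t n := by
    unfold MR57.DP rgh
    rw [Finset.sum_filter]
    refine Finset.sum_congr rfl fun n _ => ?_
    split_ifs <;> simp
  have h2 : ((rgh z 0 y).card : ℝ) = ∑ n ∈ win 0 y, (if Rough z n then 1 else 0 : ℝ) := by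
    unfold rgh
    rw [Finset.sum_boole]
  rw [h1, h2, ← Finset.sum_sub_distrib, ← Finset.sum_sub_distrib]
  refine (norm_sum_le _ _).trans (Finset.sum_le_sum fun n hn => ?_)
  have hn1 : 1 ≤ n := by
    have := ((mem_win le_rfl).1 hn).1
    have h : n ≠ 0 := by
      rintro rfl
      simp at this
    omega
  rw [← sub_mul, norm_mul, norm_tw, mul_one, ← Complex.ofReal_sub, Complex.norm_real,
    Real.norm_eq_abs]
  by_cases hr : Rough z n
  · rw [hρ.rough n hr]
    simp [hr]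
  · have := hρ.nonneg n hn1
    simp only [hr, if_false, zero_sub, sub_zero, abs_neg]
    exact le_of_eq (abs_of_nonneg this)

theorem rough_twist : ∃ C c : ℝ, 0 < C ∧ 0 < c ∧ ∀ B : ℝ, 1 ≤ B → ∃ c₁ z₁ : ℝ, 0 < c₁ ∧
    c₁ ≤ 1 / 2 ∧ 2 ≤ z₁ ∧ ∀ z y t : ℝ, z₁ ≤ z → z ≤ y → |t| ≤ y ^ B →
    ‖DP (rgh z 0 y) (fun _ => 1) t‖ ≤
      C * (y / Real.log z) * (Real.exp (-(c * (Real.log y / Real.log z))) + 1 / (1 + |t|)) +
        y ^ (1 - c₁) := by
  obtain ⟨C₀, hC₀, hsel⟩ := sieve_w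
  obtain ⟨C₁, hC₁, hst⟩ := sharp_twist
  obtain ⟨Cw, cw, hCw, hcw, hwd⟩ := weight_diff C₀ hC₀
  obtain ⟨Cr, hCr, hrc⟩ := rgh_card_le
  refine ⟨Cr * Real.exp (25 * cw) + C₁ * C₀ + Cw, cw, by positivity, hcw, ?_⟩
  intro B hB
  obtain ⟨CB, cB, z₀, hCB, hcB, hcB', hz₀, hstB⟩ := hst (1 / B) (by positivity)
  refine ⟨cB / 2, max (2 ^ 24) (max z₀ ((2 * CB) ^ (2 / cB))), by positivity, by linarith,
    le_trans (by norm_num) (le_max_left _ _), ?_⟩
  intro z y t hz hzy ht
  have hz24 : (2 : ℝ) ^ 24 ≤ z := le_trans (le_max_left _ _) hz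
  have hzz₀ : z₀ ≤ z := le_trans (le_trans (le_max_left _ _) (le_max_right _ _)) hz
  have hzC : (2 * CB) ^ (2 / cB) ≤ z := le_trans (le_trans (le_max_right _ _) (le_max_right _ _)) hz
  have hz2 : 2 ≤ z := le_trans (by norm_num) hz24
  have hz0 : 0 < z := by linarith
  have hy0 : 0 < y := by linarith
  have hy1 : 1 ≤ y := by linarith
  have hlz : 0 < Real.log z := Real.log_pos (by linarith)
  have hly : 0 < Real.log y := Real.log_pos (by linarith)
  have hq : 0 ≤ y / Real.log z := by positivity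
  have ht1 : 0 ≤ 1 / (1 + |t|) := by positivity
  by_cases hyz : y < z ^ (25 : ℕ)
  · -- trivial bound
    have h1 : ‖DP (rgh z 0 y) (fun _ => 1) t‖ ≤ (rgh z 0 y).card :=
      norm_DP_le _ _ _ (fun n _ => by simp)
    have h2 : ((rgh z 0 y).card : ℝ) ≤ Cr * (y / Real.log z) := by
      have := hrc z 0 y hz2 le_rfl hzy
      rwa [zero_add] at this
    have h3 : Real.log y / Real.log z ≤ 25 := by
      rw [div_le_iff₀ hlz]
      have := Real.log_le_log hy0 hyz.le
      rw [Real.log_pow] at this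
      exact_mod_cast this
    have h4 : 1 ≤ Real.exp (25 * cw) * Real.exp (-(cw * (Real.log y / Real.log z))) := by
      rw [← Real.exp_add]
      apply Real.one_le_exp
      nlinarith
    have h5 : 0 ≤ y ^ (1 - cB / 2) := by positivity
    have h6 : Cr * (y / Real.log z) ≤
        Cr * (y / Real.log z) * (Real.exp (25 * cw) * Real.exp (-(cw * (Real.log y / Real.log z)))) :=
      le_mul_of_one_le_right (by positivity) h4
    have h7 : Cr * (y / Real.log z) * (Real.exp (25 * cw) *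
        Real.exp (-(cw * (Real.log y / Real.log z)))) ≤
        (Cr * Real.exp (25 * cw) + C₁ * C₀ + Cw) * (y / Real.log z) *
          (Real.exp (-(cw * (Real.log y / Real.log z))) + 1 / (1 + |t|)) := by
      have e1 := Real.exp_pos (-(cw * (Real.log y / Real.log z)))
      have e2 := Real.exp_pos (25 * cw)
      have e3 : (Cr * Real.exp (25 * cw)) * (y / Real.log z) ≤
          (Cr * Real.exp (25 * cw) + C₁ * C₀ + Cw) * (y / Real.log z) := by
        apply mul_le_mul_of_nonneg_right _ hq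
        have : 0 ≤ C₁ * C₀ := by positivity
        linarith
      calc Cr * (y / Real.log z) * (Real.exp (25 * cw) *
            Real.exp (-(cw * (Real.log y / Real.log z))))
          = (Cr * Real.exp (25 * cw)) * (y / Real.log z) *
            Real.exp (-(cw * (Real.log y / Real.log z))) := by ring
        _ ≤ (Cr * Real.exp (25 * cw) + C₁ * C₀ + Cw) * (y / Real.log z) *
          (Real.exp (-(cw * (Real.log y / Real.log z))) + 1 / (1 + |t|)) := by
            apply mul_le_mul e3 (by linarith) e1.le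
            positivity
    linarith
  · -- sieve
    have hyz' : z ^ (25 : ℕ) ≤ y := not_lt.mp hyz
    set R := ⌊y ^ (1 / 24 : ℝ)⌋₊ with hR
    have hR1 : (R : ℝ) ≤ y ^ (1 / 24 : ℝ) := Nat.floor_le (by positivity)
    have hzR : z ≤ R := by
      have h1 : z + 1 ≤ y ^ (1 / 24 : ℝ) := by
        calc z + 1 ≤ z * 2 := by linarith
          _ ≤ z * z ^ (1 / 24 : ℝ) := by
            apply mul_le_mul_of_nonneg_left _ hz0.le
            calc (2 : ℝ) = ((2 : ℝ) ^ 24) ^ (1 / 24 : ℝ) := by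
                  rw [← Real.rpow_natCast, ← Real.rpow_mul (by norm_num)]
                  norm_num
              _ ≤ z ^ (1 / 24 : ℝ) := Real.rpow_le_rpow (by norm_num) hz24 (by norm_num)
          _ = (z ^ (25 : ℕ)) ^ (1 / 24 : ℝ) := by
            rw [← Real.rpow_natCast z 25, ← Real.rpow_mul hz0.le]
            nth_rewrite 1 [← Real.rpow_one z]
            rw [← Real.rpow_add hz0]
            norm_num
          _ ≤ y ^ (1 / 24 : ℝ) := Real.rpow_le_rpow (by positivity) hyz' (by norm_num)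
      have h2 : y ^ (1 / 24 : ℝ) < R + 1 := Nat.lt_floor_add_one _
      linarith
    obtain ⟨ρ, hρ⟩ := hsel z R hz2 hzR
    have hD : ((R ^ 2 : ℕ) : ℝ) ≤ y ^ (1 / 12 : ℝ) := by
      push_cast
      calc (R : ℝ) ^ 2 ≤ (y ^ (1 / 24 : ℝ)) ^ 2 := pow_le_pow_left₀ (Nat.cast_nonneg _) hR1 2
        _ = y ^ (1 / 12 : ℝ) := by
          rw [← Real.rpow_natCast (y ^ (1 / 24 : ℝ)), ← Real.rpow_mul hy0.le]
          norm_num
    have h1 := hstB y t (R ^ 2) ρ (by linarith) hD (by rw [one_div_one_div]; exact ht)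
      hρ.supp hρ.bd
    have h2 := e04_diff (y := y) (t := t) hρ
    have h3 := hwd z y ρ hz2 hzy hzR hρ
    have h4 : |∑ d ∈ Icc 1 (R ^ 2), ρ d / d| ≤ C₀ / Real.log z := by
      rw [abs_of_pos hρ.pos]
      exact hρ.le_log
    have h5 : C₁ * y * |∑ d ∈ Icc 1 (R ^ 2), ρ d / d| / (1 + |t|) ≤
        C₁ * C₀ * (y / Real.log z) * (1 / (1 + |t|)) := by
      calc C₁ * y * |∑ d ∈ Icc 1 (R ^ 2), ρ d / d| / (1 + |t|)
          = C₁ * y * |∑ d ∈ Icc 1 (R ^ 2), ρ d / d| * (1 / (1 + |t|)) := by ring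
        _ ≤ C₁ * y * (C₀ / Real.log z) * (1 / (1 + |t|)) := by
          apply mul_le_mul_of_nonneg_right _ ht1
          apply mul_le_mul_of_nonneg_left h4 (by positivity)
        _ = _ := by ring
    have hpow : CB * y ^ (1 - cB) + y ^ (1 / 4 : ℝ) ≤ y ^ (1 - cB / 2) := by
      have e1 : 2 * CB ≤ y ^ (cB / 2) := by
        calc 2 * CB = ((2 * CB) ^ (2 / cB)) ^ (cB / 2) := by
              rw [← Real.rpow_mul (by positivity)]
              have : 2 / cB * (cB / 2) = 1 := by field_simp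
              rw [this, Real.rpow_one]
          _ ≤ z ^ (cB / 2) := Real.rpow_le_rpow (by positivity) hzC (by positivity)
          _ ≤ y ^ (cB / 2) := Real.rpow_le_rpow hz0.le hzy (by positivity)
      have e2 : CB * y ^ (1 - cB) ≤ y ^ (1 - cB / 2) / 2 := by
        have : y ^ (1 - cB / 2) = y ^ (cB / 2) * y ^ (1 - cB) := by
          rw [← Real.rpow_add hy0]
          congr 1
          ring
        rw [this]
        have h0 : 0 ≤ y ^ (1 - cB) := by positivity
        nlinarith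
      have e3 : y ^ (1 / 4 : ℝ) ≤ y ^ (1 - cB / 2) / 2 := by
        have h6 : (2 : ℝ) ≤ y ^ (1 / 2 : ℝ) := by
          calc (2 : ℝ) ≤ (4 : ℝ) ^ (1 / 2 : ℝ) := by
                rw [← Real.sqrt_eq_rpow]
                rw [show (4 : ℝ) = 2 ^ 2 by norm_num, Real.sqrt_sq (by norm_num)]
            _ ≤ y ^ (1 / 2 : ℝ) := Real.rpow_le_rpow (by norm_num)
                (by linarith [show (4 : ℝ) ≤ 2 ^ 24 by norm_num]) (by norm_num)
        have h7 : y ^ (1 / 4 : ℝ) * y ^ (1 / 2 : ℝ) ≤ y ^ (1 - cB / 2) := by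
          rw [← Real.rpow_add hy0]
          apply Real.rpow_le_rpow_of_exponent_le hy1
          linarith
        have h8 : 0 ≤ y ^ (1 / 4 : ℝ) := by positivity
        nlinarith
      linarith
    have h6 : ‖DP (rgh z 0 y) (fun _ => 1) t‖ ≤
        ‖∑ n ∈ win 0 y, ((∑ d ∈ n.divisors, ρ d : ℝ) : ℂ) * tw t n‖ +
        ‖DP (rgh z 0 y) (fun _ => 1) t -
          ∑ n ∈ win 0 y, ((∑ d ∈ n.divisors, ρ d : ℝ) : ℂ) * tw t n‖ := by
      have := norm_add_le (∑ n ∈ win 0 y, ((∑ d ∈ n.divisors, ρ d : ℝ) : ℂ) * tw t n)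
        (DP (rgh z 0 y) (fun _ => 1) t -
          ∑ n ∈ win 0 y, ((∑ d ∈ n.divisors, ρ d : ℝ) : ℂ) * tw t n)
      rwa [add_sub_cancel] at this
    have e1 := Real.exp_pos (-(cw * (Real.log y / Real.log z)))
    have e2 := Real.exp_pos (25 * cw)
    have h7 : C₁ * C₀ * (y / Real.log z) * (1 / (1 + |t|)) +
        Cw * (y / Real.log z) * Real.exp (-(cw * (Real.log y / Real.log z))) ≤
        (Cr * Real.exp (25 * cw) + C₁ * C₀ + Cw) * (y / Real.log z) *
          (Real.exp (-(cw * (Real.log y / Real.log z))) + 1 / (1 + |t|)) := by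
      have a1 : 0 ≤ (Cr * Real.exp (25 * cw)) * (y / Real.log z) *
          (Real.exp (-(cw * (Real.log y / Real.log z))) + 1 / (1 + |t|)) := by positivity
      have a2 : 0 ≤ C₁ * C₀ * (y / Real.log z) *
          Real.exp (-(cw * (Real.log y / Real.log z))) := by positivity
      have a3 : 0 ≤ Cw * (y / Real.log z) * (1 / (1 + |t|)) := by positivity
      nlinarith
    linarith

end BP4
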