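import Pool.Agent.LibBP4.Defs

/-!
TASK E05.  Duality with a majorant.  As `duality` in `outputs/live/Pool/Agent/LibMR57/B03.lean`: let
`D_t = DP S a t` and `Z = ∑_t |D_t|²= ∑_n a_n \overline{(∑_t \overline{...})} = ∑_n a_n b_n` with
`b_n = ∑_t \overline{D_t} n^{-it}`.  Cauchy: `Z² ≤ (∑_n |a_n|²/w_n) (∑_n w_n |b_n|²)` over the `n`
with `w_n > 0` (where `w_n = 0` also `a_n = 0`), `|a_n|²/w_n ≤ |a_n|`, and
`∑_n w_n |b_n|² = ∑_{t,t'} \overline{D_t} D_{t'} ∑_n w_n n^{-i(t-t')} ≤ B ∑_t |D_t|² = B Z`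
(`|xy| ≤ (|x|²+|y|²)/2` and symmetry).
-/

open MeasureTheory Finset Filter
open scoped Topology

namespace BP4

open MR57 (tw DP trap SW wh ES IsCM Grep)

theorem E05_tw_sub (t t' : ℝ) (n : ℕ) : tw t n * (starRingEnd ℂ) (tw t' n) = tw (t - t') n := by
  unfold MR57.tw
  rw [← Complex.exp_conj, ← Complex.exp_add]
  congr 1
  simp only [map_mul, map_neg, Complex.conj_ofReal, Complex.conj_I]
  push_cast
  ring

theorem E05_conj_tw (t : ℝ) (n : ℕ) : (starRingEnd ℂ) (tw t n) = tw (-t) n := by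
  unfold MR57.tw
  rw [← Complex.exp_conj]
  congr 1
  simp only [map_mul, map_neg, Complex.conj_ofReal, Complex.conj_I]
  push_cast
  ring

theorem duality2 (S : Finset ℕ) (w : ℕ → ℝ) (a : ℕ → ℂ) (hw : ∀ n ∈ S, 0 ≤ w n)
    (ha : ∀ n ∈ S, ‖a n‖ ≤ w n) (T : Finset ℝ) (B : ℝ) (hB0 : 0 ≤ B)
    (hB : ∀ t ∈ T, ∑ t' ∈ T, ‖∑ n ∈ S, (w n : ℂ) * tw (t - t') n‖ ≤ B) :
    ∑ t ∈ T, ‖DP S a t‖ ^ 2 ≤ (∑ n ∈ S, ‖a n‖) * B := by
  classical
  set P : ℝ := ∑ t ∈ T, ‖DP S a t‖ ^ 2 with hP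
  have hP0 : 0 ≤ P := Finset.sum_nonneg fun t _ => by positivity
  set c : ℝ → ℂ := fun t => (starRingEnd ℂ) (DP S a t) with hc
  have hcn : ∀ t, ‖c t‖ = ‖DP S a t‖ := fun t => by rw [hc]; exact Complex.norm_conj _
  set G : ℕ → ℂ := fun n => ∑ t ∈ T, c t * tw t n with hG
  have hPG : (P : ℂ) = ∑ n ∈ S, a n * G n := by
    rw [hP]
    push_cast
    have : ∀ t ∈ T, ((‖DP S a t‖ : ℂ)) ^ 2 = ∑ n ∈ S, a n * (c t * tw t n) := by
      intro t _
      have h2 : ((‖DP S a t‖ : ℂ)) ^ 2 = c t * DP S a t := by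
        rw [hc]
        have := Complex.conj_mul' (DP S a t)
        rw [this]
      rw [h2]
      conv_lhs => rw [MR57.DP]
      rw [Finset.mul_sum]
      refine Finset.sum_congr rfl fun n _ => ?_
      ring
    rw [Finset.sum_congr rfl this, Finset.sum_comm]
    refine Finset.sum_congr rfl fun n _ => ?_
    rw [hG, Finset.mul_sum]
  have hP1 : P ≤ ∑ n ∈ S, ‖a n‖ * ‖G n‖ := by
    have h2 : P = ‖(P : ℂ)‖ := by rw [Complex.norm_real, Real.norm_of_nonneg hP0]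
    rw [h2, hPG]
    refine (norm_sum_le _ _).trans (Finset.sum_le_sum fun n hn => ?_)
    rw [norm_mul]
  have hP2 : P ^ 2 ≤ (∑ n ∈ S, ‖a n‖) * ∑ n ∈ S, ‖a n‖ * ‖G n‖ ^ 2 := by
    calc P ^ 2 ≤ (∑ n ∈ S, ‖a n‖ * ‖G n‖) ^ 2 := by
          exact pow_le_pow_left₀ hP0 hP1 2
      _ ≤ (∑ n ∈ S, ‖a n‖) * ∑ n ∈ S, ‖a n‖ * ‖G n‖ ^ 2 := by
          apply Finset.sum_sq_le_sum_mul_sum_of_sq_le_mul
          · intro n _; exact norm_nonneg _
          · intro n _; positivity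
          · intro n _; exact le_of_eq (by ring)
  have hP3 : ∑ n ∈ S, ‖a n‖ * ‖G n‖ ^ 2 ≤ ∑ n ∈ S, w n * ‖G n‖ ^ 2 := by
    refine Finset.sum_le_sum fun n hn => ?_
    exact mul_le_mul_of_nonneg_right (ha n hn) (by positivity)
  set W : ℝ → ℝ → ℝ := fun t t' => ‖∑ n ∈ S, (w n : ℂ) * tw (t - t') n‖ with hW
  have hWsymm : ∀ t t', W t t' = W t' t := by
    intro t t'
    have h2 : (∑ n ∈ S, (w n : ℂ) * tw (t' - t) n) =
        (starRingEnd ℂ) (∑ n ∈ S, (w n : ℂ) * tw (t - t') n) := by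
      rw [map_sum]
      refine Finset.sum_congr rfl fun n _ => ?_
      rw [map_mul, Complex.conj_ofReal, E05_conj_tw]
      congr 2
      ring
    rw [hW]
    simp only
    rw [h2, Complex.norm_conj]
  have hexp : ((∑ n ∈ S, w n * ‖G n‖ ^ 2 : ℝ) : ℂ) =
      ∑ t ∈ T, ∑ t' ∈ T, c t * (starRingEnd ℂ) (c t') * ∑ n ∈ S, (w n : ℂ) * tw (t - t') n := by
    push_cast
    have h2 : ∀ n ∈ S, (w n : ℂ) * (‖G n‖ : ℂ) ^ 2 =
        ∑ t ∈ T, ∑ t' ∈ T, c t * (starRingEnd ℂ) (c t') * ((w n : ℂ) * tw (t - t') n) := by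
      intro n _
      have h3 : (‖G n‖ : ℂ) ^ 2 = G n * (starRingEnd ℂ) (G n) := by
        rw [Complex.mul_conj']
      rw [h3, hG]
      simp only
      rw [map_sum, Finset.sum_mul_sum, Finset.mul_sum]
      refine Finset.sum_congr rfl fun t _ => ?_
      rw [Finset.mul_sum]
      refine Finset.sum_congr rfl fun t' _ => ?_
      rw [map_mul, ← E05_tw_sub]
      ring
    rw [Finset.sum_congr rfl h2, Finset.sum_comm]
    refine Finset.sum_congr rfl fun t _ => ?_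
    rw [Finset.sum_comm]
    refine Finset.sum_congr rfl fun t' _ => ?_
    rw [Finset.mul_sum]
  have hP4 : ∑ n ∈ S, w n * ‖G n‖ ^ 2 ≤ B * P := by
    have h0 : 0 ≤ ∑ n ∈ S, w n * ‖G n‖ ^ 2 :=
      Finset.sum_nonneg fun n hn => mul_nonneg (hw n hn) (by positivity)
    have h2 : ∑ n ∈ S, w n * ‖G n‖ ^ 2 = ‖((∑ n ∈ S, w n * ‖G n‖ ^ 2 : ℝ) : ℂ)‖ := by
      rw [Complex.norm_real, Real.norm_of_nonneg h0]
    rw [h2, hexp]
    calc ‖∑ t ∈ T, ∑ t' ∈ T, c t * (starRingEnd ℂ) (c t') * ∑ n ∈ S, (w n : ℂ) * tw (t - t') n‖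
        ≤ ∑ t ∈ T, ∑ t' ∈ T, ‖c t‖ * ‖c t'‖ * W t t' := by
          refine (norm_sum_le _ _).trans (Finset.sum_le_sum fun t _ => ?_)
          refine (norm_sum_le _ _).trans (Finset.sum_le_sum fun t' _ => ?_)
          rw [norm_mul, norm_mul, Complex.norm_conj (c t')]
      _ ≤ ∑ t ∈ T, ∑ t' ∈ T, (‖c t‖ ^ 2 / 2 * W t t' + ‖c t'‖ ^ 2 / 2 * W t' t) := by
          refine Finset.sum_le_sum fun t _ => Finset.sum_le_sum fun t' _ => ?_
          rw [← hWsymm t t']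
          have hW0 : 0 ≤ W t t' := norm_nonneg _
          nlinarith [mul_nonneg hW0 (sq_nonneg (‖c t‖ - ‖c t'‖))]
      _ = ∑ t ∈ T, ‖c t‖ ^ 2 * ∑ t' ∈ T, W t t' := by
          simp only [Finset.sum_add_distrib]
          rw [Finset.sum_comm (f := fun t t' => ‖c t'‖ ^ 2 / 2 * W t' t)]
          rw [← Finset.sum_add_distrib]
          refine Finset.sum_congr rfl fun t _ => ?_
          rw [← Finset.mul_sum]
          ring
      _ ≤ ∑ t ∈ T, ‖c t‖ ^ 2 * B := by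
          refine Finset.sum_le_sum fun t ht => mul_le_mul_of_nonneg_left (hB t ht) (by positivity)
      _ = B * P := by
          rw [← Finset.sum_mul, mul_comm, hP]
          simp only [hcn]
  have hA0 : 0 ≤ ∑ n ∈ S, ‖a n‖ := Finset.sum_nonneg fun n _ => norm_nonneg _
  rcases hP0.eq_or_lt with h | h
  · rw [← h]
    positivity
  · have h5 : P ^ 2 ≤ (∑ n ∈ S, ‖a n‖) * (B * P) :=
      hP2.trans (mul_le_mul_of_nonneg_left (hP3.trans hP4) hA0)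
    have h6 : P * P ≤ ((∑ n ∈ S, ‖a n‖) * B) * P := by nlinarith
    exact le_of_mul_le_mul_right h6 h

end BP4
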