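import Pool.Agent.LibBP4.E02

/-!
TASK E06.  The off-diagonal sums of the smoothed sieve weights.  From `smooth_twist (θ/2)` with
`D = ⌊M^{1/24}⌋₊²`, exactly as in the proof of `hm_two`
(`outputs/live/Pool/Agent/LibMR57/B06c.lean`): for `t ≠ t'` one has `1 ≤ |t - t'| ≤ 2X ≤ M^{2/θ}`;
the main terms are summed with `x_sep_sum` and `|∑ ρ_d/d| ≤ C₀/log z`; the error terms give
`|T| C M^{1-c₁} ≤ C M^{1-c₁/2} ≤ C' M/log M ≤ C' M/log z` if `c = c₁/2`.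
-/

open MeasureTheory Finset Filter
open scoped Topology

namespace BP4

open MR57 (tw DP trap SW wh ES IsCM Grep)

theorem wsum (θ C₀ : ℝ) (hθ : 0 < θ) (hC₀ : 0 < C₀) : ∃ c C M₀ : ℝ, 0 < c ∧ 0 < C ∧ 2 ≤ M₀ ∧
    ∀ (M X z : ℝ) (T : Finset ℝ) (ρ : ℕ → ℝ), M₀ ≤ M → X ≤ M ^ (1 / θ) → 2 ≤ z → z ≤ M →
    IsSel C₀ z ⌊M ^ (1 / 24 : ℝ)⌋₊ ρ → MR57.Sep X T → (T.card : ℝ) ≤ M ^ c →
    ∀ t ∈ T, ∑ t' ∈ T, ‖∑ n ∈ range (⌊8 * M⌋₊ + 1),
        ((trap ((n : ℝ) / M) * ∑ d ∈ n.divisors, ρ d : ℝ) : ℂ) * tw (t - t') n‖ ≤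
      C * (M / Real.log z) := by
  classical
  obtain ⟨C₁, hC₁, H⟩ := smooth_twist
  obtain ⟨C₄, c₁, z₁, hC₄, hc₁, hc₁', hz₁, H⟩ := H (θ / 2) (by positivity)
  obtain ⟨C₂, hC₂, hsep⟩ := x_sep_sum
  refine ⟨c₁ / 2, C₁ * C₀ * C₂ + C₄ * (2 / c₁), max z₁ ((2 : ℝ) ^ θ), by positivity, by positivity,
    hz₁.trans (le_max_left _ _), ?_⟩
  intro M X z T ρ hM hX hz hzM hρ hT hTc t ht
  have hMz₁ : z₁ ≤ M := (le_max_left _ _).trans hM
  have hMθ : (2 : ℝ) ^ θ ≤ M := (le_max_right _ _).trans hM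
  have hM2 : 2 ≤ M := hz₁.trans hMz₁
  have hM0 : 0 < M := by linarith
  have hlogz : 0 < Real.log z := Real.log_pos (by linarith)
  have hlogM : Real.log z ≤ Real.log M := Real.log_le_log (by linarith) hzM
  have hlog : 0 < Real.log M := hlogz.trans_le hlogM
  -- the level
  set R := ⌊M ^ (1 / 24 : ℝ)⌋₊ with hR
  have hRle : (R : ℝ) ≤ M ^ (1 / 24 : ℝ) := Nat.floor_le (by positivity)
  have hD : ((R ^ 2 : ℕ) : ℝ) ≤ M ^ (1 / 12 : ℝ) := by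
    push_cast
    calc (R : ℝ) ^ 2 ≤ (M ^ (1 / 24 : ℝ)) ^ 2 := pow_le_pow_left₀ (Nat.cast_nonneg _) hRle 2
      _ = M ^ (1 / 12 : ℝ) := by
        rw [← Real.rpow_natCast, ← Real.rpow_mul hM0.le]
        norm_num
  have hsum : |∑ d ∈ Icc 1 (R ^ 2), ρ d / d| ≤ C₀ / Real.log z := by
    rw [abs_of_pos hρ.pos]
    exact hρ.le_log
  -- the range of differences
  have hz3 : (2 : ℝ) ≤ M ^ (1 / θ) := by
    calc (2 : ℝ) = ((2 : ℝ) ^ θ) ^ (1 / θ) := by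
          rw [← Real.rpow_mul (by norm_num), mul_one_div_cancel hθ.ne', Real.rpow_one]
      _ ≤ M ^ (1 / θ) := Real.rpow_le_rpow (by positivity) hMθ (by positivity)
  have hX2 : 2 * X ≤ M ^ (1 / (θ / 2)) := by
    have h1 : M ^ (1 / (θ / 2)) = M ^ (1 / θ) * M ^ (1 / θ) := by
      rw [← Real.rpow_add hM0]
      congr 1
      field_simp
      ring
    rw [h1]
    have h2 : (0 : ℝ) < M ^ (1 / θ) := by positivity
    nlinarith
  set L : ℝ := M / Real.log z with hL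
  have hL0 : 0 < L := by positivity
  -- the log bound
  have hpow : M ^ (1 - c₁ / 2) ≤ 2 / c₁ * L := by
    have h1 : Real.log M ≤ M ^ (c₁ / 2) / (c₁ / 2) := Real.log_le_rpow_div hM0.le (by positivity)
    have h2 : M ^ (1 - c₁ / 2) * M ^ (c₁ / 2) = M := by
      rw [← Real.rpow_add hM0]
      simp
    rw [hL, ← mul_div_assoc, le_div_iff₀ hlogz]
    have h3 : (0 : ℝ) < M ^ (1 - c₁ / 2) := by positivity
    calc M ^ (1 - c₁ / 2) * Real.log z ≤ M ^ (1 - c₁ / 2) * Real.log M :=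
          mul_le_mul_of_nonneg_left hlogM h3.le
      _ ≤ M ^ (1 - c₁ / 2) * (M ^ (c₁ / 2) / (c₁ / 2)) :=
          mul_le_mul_of_nonneg_left h1 h3.le
      _ = (M ^ (1 - c₁ / 2) * M ^ (c₁ / 2)) / (c₁ / 2) := by ring
      _ = 2 / c₁ * M := by
          rw [h2]
          field_simp
  have h1 : ∀ t' ∈ T, ‖∑ n ∈ range (⌊8 * M⌋₊ + 1),
        ((trap ((n : ℝ) / M) * ∑ d ∈ n.divisors, ρ d : ℝ) : ℂ) * tw (t - t') n‖ ≤
      C₁ * C₀ * L * (1 / (1 + (t - t') ^ 2)) + C₄ * M ^ (1 - c₁) := by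
    intro t' ht'
    have h2 : |t - t'| ≤ M ^ (1 / (θ / 2)) := by
      have h3 : |t - t'| ≤ |t| + |t'| := abs_sub _ _
      have h4 := hT.1 t ht
      have h5 := hT.1 t' ht'
      linarith
    have h8 := H M (t - t') (R ^ 2) ρ hMz₁ hD h2 hρ.supp hρ.bd
    refine h8.trans ?_
    have h9 : C₁ * M * |∑ d ∈ Icc 1 (R ^ 2), ρ d / d| / (1 + (t - t') ^ 2) ≤
        C₁ * C₀ * L * (1 / (1 + (t - t') ^ 2)) := by
      rw [mul_one_div]
      apply div_le_div_of_nonneg_right _ (by positivity)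
      calc C₁ * M * |∑ d ∈ Icc 1 (R ^ 2), ρ d / d| ≤ C₁ * M * (C₀ / Real.log z) :=
            mul_le_mul_of_nonneg_left hsum (by positivity)
        _ = C₁ * C₀ * L := by rw [hL]; ring
    linarith
  calc ∑ t' ∈ T, ‖∑ n ∈ range (⌊8 * M⌋₊ + 1),
        ((trap ((n : ℝ) / M) * ∑ d ∈ n.divisors, ρ d : ℝ) : ℂ) * tw (t - t') n‖
      ≤ ∑ t' ∈ T, (C₁ * C₀ * L * (1 / (1 + (t - t') ^ 2)) + C₄ * M ^ (1 - c₁)) :=
        Finset.sum_le_sum h1
    _ = C₁ * C₀ * L * ∑ t' ∈ T, 1 / (1 + (t - t') ^ 2) + T.card * (C₄ * M ^ (1 - c₁)) := by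
        rw [Finset.sum_add_distrib, ← Finset.mul_sum, Finset.sum_const, nsmul_eq_mul]
    _ ≤ C₁ * C₀ * L * C₂ + M ^ (c₁ / 2) * (C₄ * M ^ (1 - c₁)) := by
        refine add_le_add (mul_le_mul_of_nonneg_left (hsep X T hT t ht) (by positivity)) ?_
        exact mul_le_mul_of_nonneg_right hTc (by positivity)
    _ = C₁ * C₀ * L * C₂ + C₄ * M ^ (1 - c₁ / 2) := by
        have : M ^ (1 - c₁ / 2) = M ^ (c₁ / 2) * M ^ (1 - c₁) := by
          rw [← Real.rpow_add hM0]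
          congr 1
          ring
        rw [this]
        ring
    _ ≤ C₁ * C₀ * L * C₂ + C₄ * (2 / c₁ * L) := by
        have := mul_le_mul_of_nonneg_left hpow hC₄.le
        linarith
    _ = (C₁ * C₀ * C₂ + C₄ * (2 / c₁)) * L := by ring

end BP4
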