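import Pool.Agent.LibBP4.E05
import Pool.Agent.LibBP4.E06
import Pool.Agent.LibBP4.S05

/-!
TASK E07.  Halász-Montgomery for rough numbers.  Put `z' = M^{min κ (1/25)}`, `R = ⌊M^{1/24}⌋₊ ≥ z'` (large
`M`), `ρ` from `sieve_w z' R`, `w n = trap(n/M) ∑_{d∣n} ρ_d` on `S = range (⌊8M⌋₊+1)`; `w n ≥ 0`
(`trap 0 = 0` handles `n = 0`), and `w n = 1` for the `n ∈ s` (`trap = 1` on `[1,4]`; `n` is
`z'`-rough, `IsSel.rough`).  Apply `duality2` with the coefficients `a` on `s` and `0` elsewhere and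
`wsum`; `M/log z' = M/(min κ (1/25) log M)`.
-/

open MeasureTheory Finset Filter
open scoped Topology

namespace BP4

open MR57 (tw DP trap SW wh ES IsCM Grep)

theorem E07_trap_nonneg (x : ℝ) : 0 ≤ trap x := by
  unfold MR57.trap
  exact le_max_left _ _

theorem E07_trap_zero : trap 0 = 0 := by
  unfold MR57.trap
  norm_num

theorem E07_trap_one {x : ℝ} (h1 : 1 ≤ x) (h4 : x ≤ 4) : trap x = 1 := by
  unfold MR57.trap
  have h2 : (1 : ℝ) ≤ 2 * x - 1 := by linarith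
  have h3 : (1 : ℝ) ≤ (8 - x) / 4 := by linarith
  rw [min_eq_left (le_min h2 h3)]
  norm_num

theorem hm_rough (θ : ℝ) (hθ : 0 < θ) : ∃ c : ℝ, 0 < c ∧ ∀ κ : ℝ, 0 < κ → κ ≤ 1 →
    ∃ C M₀ : ℝ, 0 < C ∧ 2 ≤ M₀ ∧ ∀ (M X : ℝ) (s : Finset ℕ) (a : ℕ → ℂ) (T : Finset ℝ),
    M₀ ≤ M → X ≤ M ^ (1 / θ) → (∀ n ∈ s, Rough (M ^ κ) n ∧ M < n ∧ (n : ℝ) ≤ 4 * M) →
    (∀ n, ‖a n‖ ≤ 1) → MR57.Sep X T → (T.card : ℝ) ≤ M ^ c →
    ∑ t ∈ T, ‖DP s a t‖ ^ 2 ≤ C * s.card * (M / Real.log M) := by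
  classical
  obtain ⟨C₀, hC₀, hsel⟩ := sieve_w
  obtain ⟨c, C₁, M₁, hc, hC₁, hM₁, H⟩ := wsum θ C₀ hθ hC₀
  refine ⟨c, hc, ?_⟩
  intro κ hκ hκ1
  set κ' : ℝ := min κ (1 / 25) with hκ'
  have hκ'0 : 0 < κ' := lt_min hκ (by norm_num)
  refine ⟨C₁ / κ', max M₁ (max ((2 : ℝ) ^ (1 / κ')) ((2 : ℝ) ^ (600 : ℝ))), by positivity,
    hM₁.trans (le_max_left _ _), ?_⟩
  intro M X s a T hM hX hs ha hT hTc
  have hMM₁ : M₁ ≤ M := (le_max_left _ _).trans hM
  have hM2 : (2 : ℝ) ≤ M := hM₁.trans hMM₁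
  have hM0 : 0 < M := by linarith
  have hMκ : (2 : ℝ) ^ (1 / κ') ≤ M :=
    ((le_max_left _ _).trans (le_max_right _ _)).trans hM
  have hM600 : (2 : ℝ) ≤ M ^ (1 / 600 : ℝ) := by
    have h : (2 : ℝ) ^ (600 : ℝ) ≤ M :=
      ((le_max_right _ _).trans (le_max_right _ _)).trans hM
    calc (2 : ℝ) = ((2 : ℝ) ^ (600 : ℝ)) ^ (1 / 600 : ℝ) := by
          rw [← Real.rpow_mul (by norm_num)]
          norm_num
      _ ≤ M ^ (1 / 600 : ℝ) := Real.rpow_le_rpow (by positivity) h (by norm_num)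
  clear hM
  have hlog : 0 < Real.log M := Real.log_pos (by linarith)
  set z : ℝ := M ^ κ' with hz
  set R : ℕ := ⌊M ^ (1 / 24 : ℝ)⌋₊ with hR
  have hz2 : 2 ≤ z := by
    calc (2 : ℝ) = ((2 : ℝ) ^ (1 / κ')) ^ κ' := by
          rw [← Real.rpow_mul (by norm_num), one_div_mul_cancel hκ'0.ne', Real.rpow_one]
      _ ≤ M ^ κ' := Real.rpow_le_rpow (by positivity) hMκ hκ'0.le
  have hzR : z ≤ R := by
    have h1 : z ≤ M ^ (1 / 25 : ℝ) := Real.rpow_le_rpow_of_exponent_le (by linarith)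
      (min_le_right _ _)
    have h2 : (2 : ℝ) ≤ M ^ (1 / 600 : ℝ) := hM600
    have h3 : M ^ (1 / 24 : ℝ) = M ^ (1 / 25 : ℝ) * M ^ (1 / 600 : ℝ) := by
      rw [← Real.rpow_add hM0]
      norm_num
    have h4 : (1 : ℝ) ≤ M ^ (1 / 25 : ℝ) := by linarith
    have h5 : M ^ (1 / 24 : ℝ) < (R : ℝ) + 1 := Nat.lt_floor_add_one _
    nlinarith
  have hzM : z ≤ M := by
    calc z ≤ M ^ (1 : ℝ) := Real.rpow_le_rpow_of_exponent_le (by linarith)
          ((min_le_right _ _).trans (by norm_num))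
      _ = M := Real.rpow_one M
  have hzκ : z ≤ M ^ κ := Real.rpow_le_rpow_of_exponent_le (by linarith) (min_le_left _ _)
  have hlogz : Real.log z = κ' * Real.log M := Real.log_rpow hM0 _
  obtain ⟨ρ, hρ⟩ := hsel z R hz2 hzR
  set S : Finset ℕ := range (⌊8 * M⌋₊ + 1) with hS
  set w : ℕ → ℝ := fun n => trap ((n : ℝ) / M) * ∑ d ∈ n.divisors, ρ d with hw
  have hsS : s ⊆ S := by
    intro n hn
    rw [hS, mem_range, Nat.lt_add_one_iff]
    exact Nat.le_floor (by linarith [(hs n hn).2.2])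
  have hw0 : ∀ n ∈ S, 0 ≤ w n := by
    intro n _
    rcases Nat.eq_zero_or_pos n with h | h
    · rw [h, hw]
      simp [E07_trap_zero]
    · exact mul_nonneg (E07_trap_nonneg _) (hρ.nonneg n h)
  set a' : ℕ → ℂ := fun n => if n ∈ s then a n else 0 with ha'
  have haw : ∀ n ∈ S, ‖a' n‖ ≤ w n := by
    intro n hn
    by_cases h : n ∈ s
    · have h1 := hs n h
      have hr : Rough z n := ⟨h1.1.1, fun p hp hpn => lt_of_le_of_lt hzκ (h1.1.2 p hp hpn)⟩
      have h2 : w n = 1 := by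
        rw [hw]
        simp only
        rw [hρ.rough n hr, E07_trap_one, one_mul]
        · rw [one_le_div hM0]
          exact h1.2.1.le
        · rw [div_le_iff₀ hM0]
          exact h1.2.2
      rw [h2, ha']
      simp only [if_pos h]
      exact ha n
    · rw [ha']
      simp only [if_neg h, norm_zero]
      exact hw0 n hn
  have hsum : ∑ n ∈ S, ‖a' n‖ ≤ s.card := by
    calc ∑ n ∈ S, ‖a' n‖ ≤ ∑ n ∈ S, (if n ∈ s then (1 : ℝ) else 0) := by
          refine sum_le_sum fun n _ => ?_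
          rw [ha']
          by_cases h : n ∈ s
          · simp only [if_pos h]
            exact ha n
          · simp only [if_neg h, norm_zero, le_refl]
      _ = s.card := by
          rw [sum_ite_mem, inter_eq_right.mpr hsS, sum_const, nsmul_eq_mul, mul_one]
  have hDP : ∀ t, DP S a' t = DP s a t := by
    intro t
    unfold MR57.DP
    rw [← sum_subset hsS (f := fun n => a' n * tw t n)]
    · refine sum_congr rfl fun n hn => ?_
      rw [ha']
      simp only [if_pos hn]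
    · intro n _ hn
      rw [ha']
      simp only [if_neg hn, zero_mul]
  have hdual := duality2 S w a' hw0 haw T (C₁ * (M / Real.log z)) (by
    rw [hlogz]
    positivity) (H M X z T ρ hMM₁ hX hz2 hzM hρ hT hTc)
  simp only [hDP] at hdual
  refine hdual.trans ?_
  calc (∑ n ∈ S, ‖a' n‖) * (C₁ * (M / Real.log z))
      ≤ s.card * (C₁ * (M / Real.log z)) := by
        apply mul_le_mul_of_nonneg_right hsum
        rw [hlogz]
        positivity
    _ = C₁ / κ' * s.card * (M / Real.log M) := by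
        rw [hlogz]
        field_simp

end BP4
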