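import Pool.Agent.LibBP4.S12
import Pool.Agent.LibBP4.S09

/-!
TASK E08.  The sieve weights barely exceed the indicator function of the rough numbers.  With
`z = M^{1/u}`, `R = ⌊M^{1/24}⌋₊`: by `mass_sum` (`∑ |ρ_d| ≤ R^6 ≤ M^{1/4}`, see `b06b_rho_sum` in
`outputs/live/Pool/Agent/LibMR57/B06b.lean`), `IsSel.le_V` and `FL` (with `x = M`, `h = δM ≥ z`,
`log h ≥ (1/2) log M`), the difference is at most
`δ M V C₀ exp(-(log R/log z)) + C (M/log z) exp(-c u/2) + M^{1/4}`; `log R/log z ≥ u/25`,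
`V z ≤ C/log z` (`V_bounds`), `M/log z = u M/log M`, and `M^{1/4}` is absorbed for `M ≥ M₀(u, δ)`.
-/

open MeasureTheory Finset Filter
open scoped Topology

namespace BP4

open MR57 (tw DP trap SW wh ES IsCM Grep)

theorem E08_rho_sum {C₀ z : ℝ} {R : ℕ} {ρ : ℕ → ℝ} (h : IsSel C₀ z R ρ) :
    ∑ d ∈ Icc 1 (R ^ 2), |ρ d| ≤ (R : ℝ) ^ 6 := by
  have hb : ∀ d ∈ Icc 1 (R ^ 2), |ρ d| ≤ (R : ℝ) ^ 4 := by
    intro d hd
    rw [mem_Icc] at hd
    refine (h.bd d).trans ?_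
    have h1 : (d.divisors.card : ℝ) ≤ (R : ℝ) ^ 2 := by
      calc (d.divisors.card : ℝ) ≤ d := by exact_mod_cast Nat.card_divisors_le_self d
        _ ≤ (R : ℝ) ^ 2 := by exact_mod_cast hd.2
    calc (d.divisors.card : ℝ) ^ 2 ≤ ((R : ℝ) ^ 2) ^ 2 :=
          pow_le_pow_left₀ (Nat.cast_nonneg _) h1 2
      _ = (R : ℝ) ^ 4 := by ring
  calc ∑ d ∈ Icc 1 (R ^ 2), |ρ d| ≤ ∑ _d ∈ Icc 1 (R ^ 2), (R : ℝ) ^ 4 := sum_le_sum hb
    _ = (R : ℝ) ^ 6 := by
      rw [sum_const, Nat.card_Icc, nsmul_eq_mul, Nat.add_sub_cancel]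
      push_cast
      ring

theorem mass_diff (C₀ : ℝ) (hC₀ : 0 < C₀) : ∃ C c' : ℝ, 0 < C ∧ 0 < c' ∧ ∀ u δ : ℝ, 25 ≤ u →
    0 < δ → δ ≤ 1 → ∃ M₀ : ℝ, 2 ≤ M₀ ∧ ∀ (M : ℝ) (ρ : ℕ → ℝ), M₀ ≤ M →
    IsSel C₀ (M ^ (1 / u)) ⌊M ^ (1 / 24 : ℝ)⌋₊ ρ →
    ∑ n ∈ win M ((1 + δ) * M), ∑ d ∈ n.divisors, ρ d - (rgh (M ^ (1 / u)) M ((1 + δ) * M)).card ≤
      C * (u * (M / Real.log M)) * Real.exp (-(c' * u)) := by
  obtain ⟨CF, cF, hCF, hcF, hFL⟩ := FL
  obtain ⟨cV, CV, hcV, hCV, hV⟩ := V_bounds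
  refine ⟨CV * C₀ + CF + 1, min (1 / 25) (cF / 2), by positivity,
    lt_min (by norm_num) (by positivity), ?_⟩
  intro u δ hu hδ hδ1
  have hu0 : 0 < u := by linarith
  refine ⟨max (max ((2 : ℝ) ^ (600 : ℝ)) (2 ^ u)) (max (δ ^ (-2 : ℝ)) (16 * Real.exp (2 * u))), ?_,
    ?_⟩
  · refine le_trans ?_ ((le_max_right _ _).trans (le_max_left _ _))
    calc (2 : ℝ) = 2 ^ (1 : ℝ) := (Real.rpow_one 2).symm
      _ ≤ 2 ^ u := Real.rpow_le_rpow_of_exponent_le (by norm_num) (by linarith)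
  intro M ρ hM hρ
  have hMu : (2 : ℝ) ^ u ≤ M := ((le_max_right _ _).trans (le_max_left _ _)).trans hM
  have hMδ : δ ^ (-2 : ℝ) ≤ M := ((le_max_left _ _).trans (le_max_right _ _)).trans hM
  have hMe : 16 * Real.exp (2 * u) ≤ M := ((le_max_right _ _).trans (le_max_right _ _)).trans hM
  have hM0 : 0 < M := lt_of_lt_of_le (by positivity) hMe
  have hM600 : (2 : ℝ) ≤ M ^ (1 / 600 : ℝ) := by
    have h : (2 : ℝ) ^ (600 : ℝ) ≤ M :=
      ((le_max_left _ _).trans (le_max_left _ _)).trans hM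
    calc (2 : ℝ) = ((2 : ℝ) ^ (600 : ℝ)) ^ (1 / 600 : ℝ) := by
          rw [← Real.rpow_mul (by norm_num)]
          norm_num
      _ ≤ M ^ (1 / 600 : ℝ) := Real.rpow_le_rpow (by positivity) h (by norm_num)
  clear hM
  have hM16 : 16 ≤ M := by
    have : 1 ≤ Real.exp (2 * u) := Real.one_le_exp (by positivity)
    linarith
  have hlog : 0 < Real.log M := Real.log_pos (by linarith)
  set z : ℝ := M ^ (1 / u) with hz
  set R : ℕ := ⌊M ^ (1 / 24 : ℝ)⌋₊ with hR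
  have hz2 : 2 ≤ z := by
    calc (2 : ℝ) = ((2 : ℝ) ^ u) ^ (1 / u) := by
          rw [← Real.rpow_mul (by norm_num), mul_one_div_cancel hu0.ne', Real.rpow_one]
      _ ≤ M ^ (1 / u) := Real.rpow_le_rpow (by positivity) hMu (by positivity)
  have hlogz : Real.log z = 1 / u * Real.log M := Real.log_rpow hM0 _
  have hlogz0 : 0 < Real.log z := by rw [hlogz]; positivity
  -- `h = δ M`
  set h : ℝ := δ * M with hh
  have hh0 : 0 < h := by positivity
  have hhM : h ≤ M := by rw [hh]; nlinarith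
  have hsqrt : M ^ (1 / 2 : ℝ) ≤ h := by
    have h1 : δ⁻¹ ≤ M ^ (1 / 2 : ℝ) := by
      calc δ⁻¹ = (δ ^ (-2 : ℝ)) ^ (1 / 2 : ℝ) := by
            rw [← Real.rpow_mul hδ.le]
            norm_num
            rw [Real.rpow_neg_one]
        _ ≤ M ^ (1 / 2 : ℝ) := Real.rpow_le_rpow (by positivity) hMδ (by norm_num)
    have h2 : M ^ (1 / 2 : ℝ) * M ^ (1 / 2 : ℝ) = M := by
      rw [← Real.rpow_add hM0]
      norm_num
    have h3 : 0 < M ^ (1 / 2 : ℝ) := by positivity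
    have h4 : 1 ≤ δ * M ^ (1 / 2 : ℝ) := by
      calc (1 : ℝ) = δ * δ⁻¹ := (mul_inv_cancel₀ hδ.ne').symm
        _ ≤ δ * M ^ (1 / 2 : ℝ) := mul_le_mul_of_nonneg_left h1 hδ.le
    rw [hh]
    nlinarith
  have hzh : z ≤ h := by
    refine le_trans ?_ hsqrt
    apply Real.rpow_le_rpow_of_exponent_le (by linarith)
    rw [div_le_div_iff₀ hu0 (by norm_num)]
    linarith
  have hlogh : 1 / 2 * Real.log M ≤ Real.log h := by
    have := Real.log_le_log (by positivity) hsqrt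
    rwa [Real.log_rpow hM0] at this
  have hq1 : u / 2 ≤ Real.log h / Real.log z := by
    rw [le_div_iff₀ hlogz0, hlogz]
    calc u / 2 * (1 / u * Real.log M) = 1 / 2 * Real.log M := by field_simp
      _ ≤ Real.log h := hlogh
  -- `R`
  have hR25 : M ^ (1 / 25 : ℝ) ≤ R := by
    have h3 : M ^ (1 / 24 : ℝ) = M ^ (1 / 25 : ℝ) * M ^ (1 / 600 : ℝ) := by
      rw [← Real.rpow_add hM0]
      norm_num
    have h4 : (1 : ℝ) ≤ M ^ (1 / 25 : ℝ) := Real.one_le_rpow (by linarith) (by norm_num)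
    have h5 : M ^ (1 / 24 : ℝ) < (R : ℝ) + 1 := Nat.lt_floor_add_one _
    nlinarith
  have hlogR : 1 / 25 * Real.log M ≤ Real.log R := by
    have := Real.log_le_log (by positivity) hR25
    rwa [Real.log_rpow hM0] at this
  have hq2 : u / 25 ≤ Real.log R / Real.log z := by
    rw [le_div_iff₀ hlogz0, hlogz]
    calc u / 25 * (1 / u * Real.log M) = 1 / 25 * Real.log M := by field_simp
      _ ≤ Real.log R := hlogR
  have hR6 : (R : ℝ) ^ 6 ≤ M ^ (1 / 4 : ℝ) := by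
    have hRle : (R : ℝ) ≤ M ^ (1 / 24 : ℝ) := Nat.floor_le (by positivity)
    calc (R : ℝ) ^ 6 ≤ (M ^ (1 / 24 : ℝ)) ^ 6 := pow_le_pow_left₀ (Nat.cast_nonneg _) hRle 6
      _ = M ^ (1 / 4 : ℝ) := by
        rw [← Real.rpow_natCast, ← Real.rpow_mul hM0.le]
        norm_num
  -- the exponential
  set c' := min (1 / 25) (cF / 2) with hc'
  have hc'0 : 0 < c' := lt_min (by norm_num) (by positivity)
  have hc'1 : c' ≤ 1 / 25 := min_le_left _ _
  have hc'2 : c' ≤ cF / 2 := min_le_right _ _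
  set E := Real.exp (-(c' * u)) with hE
  have hE0 : 0 < E := Real.exp_pos _
  set Q := u * (M / Real.log M) with hQ
  have hQ0 : 0 < Q := by positivity
  have hMz : M / Real.log z = Q := by
    rw [hlogz, hQ]
    field_simp
  have hE1 : Real.exp (-(Real.log R / Real.log z)) ≤ E := by
    rw [hE]
    apply Real.exp_le_exp.mpr
    have : c' * u ≤ 1 / 25 * u := mul_le_mul_of_nonneg_right hc'1 hu0.le
    linarith
  have hE2 : Real.exp (-(cF * (Real.log h / Real.log z))) ≤ E := by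
    rw [hE]
    apply Real.exp_le_exp.mpr
    have h1 : c' * u ≤ cF / 2 * u := mul_le_mul_of_nonneg_right hc'2 hu0.le
    have h2 : cF * (u / 2) ≤ cF * (Real.log h / Real.log z) :=
      mul_le_mul_of_nonneg_left hq1 hcF.le
    linarith
  -- absorb `M^{1/4}`
  have habs : M ^ (1 / 4 : ℝ) ≤ Q * E := by
    have h1 : Real.log M ≤ 4 * M ^ (1 / 4 : ℝ) := by
      have := Real.log_le_rpow_div hM0.le (by norm_num : (0 : ℝ) < 1 / 4)
      linarith
    have h2 : 4 * Real.exp (c' * u) ≤ M ^ (1 / 2 : ℝ) := by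
      calc 4 * Real.exp (c' * u) ≤ 4 * Real.exp u := by
            apply mul_le_mul_of_nonneg_left _ (by norm_num)
            apply Real.exp_le_exp.mpr
            nlinarith
        _ = (16 * Real.exp (2 * u)) ^ (1 / 2 : ℝ) := by
            rw [Real.mul_rpow (by norm_num) (Real.exp_pos _).le, ← Real.exp_mul]
            have : (16 : ℝ) ^ (1 / 2 : ℝ) = 4 := by
              rw [show (16 : ℝ) = 4 ^ (2 : ℝ) by norm_num, ← Real.rpow_mul (by norm_num)]
              norm_num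
            rw [this]
            congr 2
            ring
        _ ≤ M ^ (1 / 2 : ℝ) := Real.rpow_le_rpow (by positivity) hMe (by norm_num)
    have h3 : M ^ (1 / 4 : ℝ) * M ^ (1 / 4 : ℝ) = M ^ (1 / 2 : ℝ) := by
      rw [← Real.rpow_add hM0]
      norm_num
    have h4 : M ^ (1 / 2 : ℝ) * M ^ (1 / 2 : ℝ) = M := by
      rw [← Real.rpow_add hM0]
      norm_num
    have h5 : 0 < M ^ (1 / 4 : ℝ) := by positivity
    have h6 : 0 < M ^ (1 / 2 : ℝ) := by positivity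
    have h7 : 4 ≤ M ^ (1 / 2 : ℝ) * E := by
      calc (4 : ℝ) = 4 * Real.exp (c' * u) * E := by
            rw [hE, mul_assoc, ← Real.exp_add]
            simp
        _ ≤ M ^ (1 / 2 : ℝ) * E := mul_le_mul_of_nonneg_right h2 hE0.le
    have h8 : M ^ (1 / 4 : ℝ) ≤ M / Real.log M * E := by
      rw [div_mul_eq_mul_div, le_div_iff₀ hlog]
      calc M ^ (1 / 4 : ℝ) * Real.log M ≤ M ^ (1 / 4 : ℝ) * (4 * M ^ (1 / 4 : ℝ)) :=
            mul_le_mul_of_nonneg_left h1 h5.le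
        _ = 4 * M ^ (1 / 2 : ℝ) := by rw [← h3]; ring
        _ ≤ M ^ (1 / 2 : ℝ) * E * M ^ (1 / 2 : ℝ) := mul_le_mul_of_nonneg_right h7 h6.le
        _ = M * E := by
          calc M ^ (1 / 2 : ℝ) * E * M ^ (1 / 2 : ℝ)
              = (M ^ (1 / 2 : ℝ) * M ^ (1 / 2 : ℝ)) * E := by ring
            _ = M * E := by rw [h4]
    have h9 : M / Real.log M * E ≤ Q * E := by
      apply mul_le_mul_of_nonneg_right _ hE0.le
      rw [hQ]
      have : 0 < M / Real.log M := by positivity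
      nlinarith
    linarith
  -- the three main inequalities
  have hwin : (1 + δ) * M = M + h := by rw [hh]; ring
  rw [hwin]
  have hm := (abs_le.mp (mass_sum ρ (R ^ 2) hρ.supp M h hM0.le hh0.le)).2
  have hF := (abs_le.mp (hFL z M h hz2 hM0.le hzh)).1
  have hVz := hV z hz2
  have hV0 : 0 ≤ V z := le_trans (by positivity) hVz.1
  have hr := E08_rho_sum hρ
  have hmain : h * ∑ d ∈ Icc 1 (R ^ 2), ρ d / d ≤ h * V z + CV * C₀ * Q * E := by
    have h1 : ∑ d ∈ Icc 1 (R ^ 2), ρ d / d ≤ V z + V z * (C₀ * E) := by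
      refine hρ.le_V.trans ?_
      have h2 := mul_le_mul_of_nonneg_left hE1 hC₀.le
      have h3 := mul_le_mul_of_nonneg_left h2 hV0
      linarith
    have h4 : h * (V z * (C₀ * E)) ≤ CV * C₀ * Q * E := by
      have h5 : V z * (C₀ * E) ≤ CV / Real.log z * (C₀ * E) :=
        mul_le_mul_of_nonneg_right hVz.2 (by positivity)
      calc h * (V z * (C₀ * E)) ≤ M * (CV / Real.log z * (C₀ * E)) :=
            mul_le_mul hhM h5 (by positivity) hM0.le
        _ = CV * C₀ * (M / Real.log z) * E := by ring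
        _ = CV * C₀ * Q * E := by rw [hMz]
    have h6 := mul_le_mul_of_nonneg_left h1 hh0.le
    linarith
  have hF2 : CF * (h / Real.log z) * Real.exp (-(cF * (Real.log h / Real.log z))) ≤
      CF * Q * E := by
    apply mul_le_mul _ hE2 (Real.exp_pos _).le (by positivity)
    apply mul_le_mul_of_nonneg_left _ hCF.le
    rw [← hMz]
    exact div_le_div_of_nonneg_right hhM hlogz0.le
  have hfin : (CV * C₀ + CF + 1) * Q * E = CV * C₀ * Q * E + CF * Q * E + Q * E := by ring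
  rw [hfin]
  linarith

end BP4
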