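import Pool.Agent.LibBP4.E03

/-!
TASK E09.  The sieve-weight part, away from `t = 0`.  `win M ((1+δ)M) = win 0 ((1+δ)M) \ win 0 M`, two
applications of `sharp_twist (1/4)` (`D = ⌊M^{1/24}⌋₊²`; `|t| ≤ M³`), so for `|t| ≥ T₀ ≥ 1` the
inner norm is `≤ C (M/log z)/|t| + C M^{1-c₁}` with `M/log z = u M/log M`.  Sum of squares:
`∑_{t ∈ T} 1/t² ≤ C/T₀` for a 1-separated set with `|t| ≥ T₀` (e.g. at most 2 points `t` with
`⌊|t|⌋ = m` on each side, and `∑_{m ≥ T₀ - 1} 1/m²`), and `|T| M^{2-2c₁} ≤ M^{2-c₁}` with `c = c₁`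
is absorbed for `M ≥ M₀(u, δ, T₀)`.
-/

open MeasureTheory Finset Filter
open scoped Topology

namespace BP4

open MR57 (tw DP trap SW wh ES IsCM Grep)

/-- sums of `1/t²` over a set on which `⌊|t|⌋` is injective -/
theorem E09_sq1 (T₀ : ℝ) (hT₀ : 1 ≤ T₀) (S : Finset ℝ) (h1 : ∀ t ∈ S, T₀ ≤ |t|)
    (h2 : ∀ t ∈ S, ∀ t' ∈ S, ⌊|t|⌋₊ = ⌊|t'|⌋₊ → t = t') :
    ∑ t ∈ S, 1 / t ^ 2 ≤ 4 / T₀ := by
  have hf : 1 ≤ ⌊T₀⌋₊ := Nat.one_le_floor_iff _ |>.2 hT₀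
  obtain ⟨k, hk⟩ : ∃ k, ⌊T₀⌋₊ = k + 1 := ⟨⌊T₀⌋₊ - 1, by omega⟩
  have hT₀' : T₀ < k + 2 := by
    have := Nat.lt_floor_add_one T₀
    rw [hk] at this
    push_cast at this
    linarith
  have hfl : ∀ t ∈ S, k + 1 ≤ ⌊|t|⌋₊ := by
    intro t ht
    rw [← hk]
    exact Nat.floor_le_floor (h1 t ht)
  obtain ⟨N, hN⟩ : ∃ N : ℕ, ∀ t ∈ S, ⌊|t|⌋₊ < N := by
    refine ⟨(S.sup fun t => ⌊|t|⌋₊) + 1, fun t ht => ?_⟩
    have h9 : ⌊|t|⌋₊ ≤ S.sup fun t => ⌊|t|⌋₊ := Finset.le_sup (f := fun t : ℝ => ⌊|t|⌋₊) ht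
    omega
  have hsum : ∑ t ∈ S, 1 / t ^ 2 ≤ ∑ t ∈ S, (((⌊|t|⌋₊ : ℕ) : ℝ) ^ 2)⁻¹ := by
    apply sum_le_sum
    intro t ht
    have h3 := hfl t ht
    have h4 : (1 : ℝ) ≤ (⌊|t|⌋₊ : ℝ) := by exact_mod_cast (by omega : 1 ≤ ⌊|t|⌋₊)
    have h5 : (⌊|t|⌋₊ : ℝ) ≤ |t| := Nat.floor_le (abs_nonneg t)
    rw [one_div, ← sq_abs t]
    apply inv_anti₀ (by positivity)
    gcongr
  have himg : ∑ t ∈ S, (((⌊|t|⌋₊ : ℕ) : ℝ) ^ 2)⁻¹ =
      ∑ m ∈ S.image (fun t : ℝ => ⌊|t|⌋₊), ((m : ℝ) ^ 2)⁻¹ := by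
    rw [sum_image]
    intro a ha b hb hab
    exact h2 a ha b hb hab
  have hsub : S.image (fun t : ℝ => ⌊|t|⌋₊) ⊆ Ioo k N := by
    intro m hm
    rw [mem_image] at hm
    obtain ⟨t, ht, rfl⟩ := hm
    rw [mem_Ioo]
    exact ⟨by have := hfl t ht; omega, hN t ht⟩
  have h6 : ∑ m ∈ S.image (fun t : ℝ => ⌊|t|⌋₊), ((m : ℝ) ^ 2)⁻¹ ≤
      ∑ m ∈ Ioo k N, ((m : ℝ) ^ 2)⁻¹ :=
    sum_le_sum_of_subset_of_nonneg hsub (fun m _ _ => by positivity)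
  have h7 : ∑ m ∈ Ioo k N, ((m : ℝ) ^ 2)⁻¹ ≤ 2 / ((k : ℝ) + 1) := sum_Ioo_inv_sq_le k N
  have h8 : 2 / ((k : ℝ) + 1) ≤ 4 / T₀ := by
    rw [div_le_div_iff₀ (by positivity) (by linarith)]
    have : (0 : ℝ) ≤ k := Nat.cast_nonneg k
    nlinarith
  linarith

theorem E09_sq (X T₀ : ℝ) (hT₀ : 1 ≤ T₀) (T : Finset ℝ) (hT : MR57.Sep X T)
    (h1 : ∀ t ∈ T, T₀ ≤ |t|) : ∑ t ∈ T, 1 / t ^ 2 ≤ 8 / T₀ := by
  have hfl : ∀ a b : ℝ, 0 ≤ a → 0 ≤ b → ⌊a⌋₊ = ⌊b⌋₊ → |a - b| < 1 := by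
    intro a b ha hb hab
    have h3 := Nat.floor_le ha
    have h4 := Nat.floor_le hb
    have h5 := Nat.lt_floor_add_one a
    have h6 := Nat.lt_floor_add_one b
    rw [hab] at h3 h5
    rw [abs_lt]
    constructor <;> linarith
  rw [← sum_filter_add_sum_filter_not T (fun t => 0 ≤ t)]
  have hA : ∑ t ∈ T.filter (fun t => 0 ≤ t), 1 / t ^ 2 ≤ 4 / T₀ := by
    apply E09_sq1 T₀ hT₀
    · intro t ht
      exact h1 t (mem_filter.1 ht).1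
    · intro t ht t' ht' hab
      rw [mem_filter] at ht ht'
      by_contra hne
      have h2 := hT.2 t ht.1 t' ht'.1 hne
      have h3 := hfl |t| |t'| (abs_nonneg _) (abs_nonneg _) hab
      rw [abs_of_nonneg ht.2, abs_of_nonneg ht'.2] at h3
      linarith
  have hB : ∑ t ∈ T.filter (fun t => ¬ 0 ≤ t), 1 / t ^ 2 ≤ 4 / T₀ := by
    apply E09_sq1 T₀ hT₀
    · intro t ht
      exact h1 t (mem_filter.1 ht).1
    · intro t ht t' ht' hab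
      rw [mem_filter] at ht ht'
      by_contra hne
      have h2 := hT.2 t ht.1 t' ht'.1 hne
      have h3 := hfl |t| |t'| (abs_nonneg _) (abs_nonneg _) hab
      have ht2 := ht.2
      have ht2' := ht'.2
      push Not at ht2 ht2'
      rw [abs_of_neg ht2, abs_of_neg ht2', ← abs_neg] at h3
      have h4 : -(-t - -t') = t - t' := by ring
      rw [h4] at h3
      linarith
  have hC : (8 : ℝ) / T₀ = 4 / T₀ + 4 / T₀ := by ring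
  linarith

theorem gpart (C₀ : ℝ) (hC₀ : 0 < C₀) : ∃ C c : ℝ, 0 < C ∧ 0 < c ∧ ∀ u δ T₀ : ℝ, 25 ≤ u →
    0 < δ → δ ≤ 1 → 1 ≤ T₀ → ∃ M₀ : ℝ, 2 ≤ M₀ ∧ ∀ (M : ℝ) (T : Finset ℝ) (ρ : ℕ → ℝ), M₀ ≤ M →
    IsSel C₀ (M ^ (1 / u)) ⌊M ^ (1 / 24 : ℝ)⌋₊ ρ → MR57.Sep (M ^ 3) T → (∀ t ∈ T, T₀ ≤ |t|) →
    (T.card : ℝ) ≤ M ^ c →
    ∑ t ∈ T, ‖∑ n ∈ win M ((1 + δ) * M), ((∑ d ∈ n.divisors, ρ d : ℝ) : ℂ) * tw t n‖ ^ 2 ≤
      C * (u * (M / Real.log M)) ^ 2 * (1 / T₀) := by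
  obtain ⟨C₁, hC₁, hst⟩ := sharp_twist
  obtain ⟨C, c, z₀, hC, hc, hc10, hz₀, hsh⟩ := hst (1 / 4) (by norm_num)
  refine ⟨144 * (C₁ * C₀) ^ 2 + 18 * C ^ 2, c, by positivity, hc, ?_⟩
  intro u δ T₀ hu hδ hδ1 hT₀
  refine ⟨max z₀ ((16 * T₀ / c ^ 2) ^ (2 / c)), le_trans hz₀ (le_max_left _ _), ?_⟩
  intro M T ρ hM hρ hT hTT hcard
  have hMz : z₀ ≤ M := le_trans (le_max_left _ _) hM
  have hM2 : 2 ≤ M := le_trans hz₀ hMz
  have hM1 : 1 ≤ M := by linarith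
  have hM0 : 0 < M := by linarith
  have hlog : 0 < Real.log M := Real.log_pos (by linarith)
  have hu0 : 0 < u := by linarith
  -- the growth condition
  have hgrow : T₀ * Real.log M ^ 2 ≤ M ^ c := by
    have h1 : 16 * T₀ / c ^ 2 ≤ M ^ (c / 2) := by
      have h2 : (16 * T₀ / c ^ 2) ^ (2 / c) ≤ M := le_trans (le_max_right _ _) hM
      have h3 : ((16 * T₀ / c ^ 2) ^ (2 / c)) ^ (c / 2) ≤ M ^ (c / 2) :=
        Real.rpow_le_rpow (by positivity) h2 (by positivity)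
      rw [← Real.rpow_mul (by positivity)] at h3
      have h4 : 2 / c * (c / 2) = 1 := by field_simp
      rwa [h4, Real.rpow_one] at h3
    have h5 := Real.log_le_rpow_div hM0.le (show 0 < c / 4 by positivity)
    calc T₀ * Real.log M ^ 2 ≤ T₀ * (M ^ (c / 4) / (c / 4)) ^ 2 := by gcongr
      _ = 16 * T₀ / c ^ 2 * (M ^ (c / 4)) ^ 2 := by
          field_simp
          ring
      _ = 16 * T₀ / c ^ 2 * M ^ (c / 2) := by
          rw [← Real.rpow_natCast (M ^ (c / 4)) 2, ← Real.rpow_mul hM0.le]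
          congr 2
          push_cast
          ring
      _ ≤ M ^ (c / 2) * M ^ (c / 2) := by gcongr
      _ = M ^ c := by
          rw [← Real.rpow_add hM0]
          congr 1
          ring
  set R : ℕ := ⌊M ^ (1 / 24 : ℝ)⌋₊ with hR
  set S : ℝ := ∑ d ∈ Icc 1 (R ^ 2), ρ d / d with hS
  have hSle : |S| ≤ C₀ * u / Real.log M := by
    rw [abs_of_pos hρ.pos]
    refine hρ.le_log.trans (le_of_eq ?_)
    rw [Real.log_rpow hM0]
    field_simp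
  have hD : ((R ^ 2 : ℕ) : ℝ) ≤ M ^ (1 / 12 : ℝ) := by
    push_cast
    have h1 : (R : ℝ) ≤ M ^ (1 / 24 : ℝ) := Nat.floor_le (by positivity)
    calc (R : ℝ) ^ 2 ≤ (M ^ (1 / 24 : ℝ)) ^ 2 := by gcongr
      _ = M ^ (1 / 12 : ℝ) := by
        rw [← Real.rpow_natCast, ← Real.rpow_mul hM0.le]
        congr 1
        push_cast
        norm_num
  have hone : ∀ t ∈ T, ‖∑ n ∈ win M ((1 + δ) * M), ((∑ d ∈ n.divisors, ρ d : ℝ) : ℂ) * tw t n‖ ≤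
      3 * (C₁ * C₀) * (u * (M / Real.log M)) / |t| + 3 * C * M ^ (1 - c) := by
    intro t ht
    have hMM : M ≤ (1 + δ) * M := by nlinarith
    have hMM2 : (1 + δ) * M ≤ 2 * M := by nlinarith
    have ht0 : 0 < |t| := by linarith [hTT t ht]
    have htX : |t| ≤ M ^ (1 / (1 / 4) : ℝ) := by
      have h1 := hT.1 t ht
      have h2 : M ^ 3 ≤ M ^ (1 / (1 / 4) : ℝ) := by
        rw [← Real.rpow_natCast]
        apply Real.rpow_le_rpow_of_exponent_le hM1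
        norm_num
      linarith
    have htX2 : |t| ≤ ((1 + δ) * M) ^ (1 / (1 / 4) : ℝ) :=
      htX.trans (Real.rpow_le_rpow hM0.le hMM (by norm_num))
    have hD2 : ((R ^ 2 : ℕ) : ℝ) ≤ ((1 + δ) * M) ^ (1 / 12 : ℝ) :=
      hD.trans (Real.rpow_le_rpow hM0.le hMM (by norm_num))
    have hs1 := hsh M t (R ^ 2) ρ hMz hD htX hρ.supp hρ.bd
    have hs2 := hsh ((1 + δ) * M) t (R ^ 2) ρ (hMz.trans hMM) hD2 htX2 hρ.supp hρ.bd
    have hdiff : ∑ n ∈ win M ((1 + δ) * M), ((∑ d ∈ n.divisors, ρ d : ℝ) : ℂ) * tw t n =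
        ∑ n ∈ win 0 ((1 + δ) * M), ((∑ d ∈ n.divisors, ρ d : ℝ) : ℂ) * tw t n -
        ∑ n ∈ win 0 M, ((∑ d ∈ n.divisors, ρ d : ℝ) : ℂ) * tw t n := by
      unfold win
      rw [eq_sub_iff_add_eq, add_comm]
      exact sum_Ioc_consecutive _ (by simp) (Nat.floor_le_floor hMM)
    rw [hdiff]
    refine (norm_sub_le _ _).trans ?_
    have hrp : ((1 + δ) * M) ^ (1 - c) ≤ 2 * M ^ (1 - c) := by
      calc ((1 + δ) * M) ^ (1 - c) ≤ (2 * M) ^ (1 - c) :=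
            Real.rpow_le_rpow (by positivity) hMM2 (by linarith)
        _ = 2 ^ (1 - c) * M ^ (1 - c) := Real.mul_rpow (by norm_num) hM0.le
        _ ≤ 2 ^ (1 : ℝ) * M ^ (1 - c) := by
            have : (2 : ℝ) ^ (1 - c) ≤ 2 ^ (1 : ℝ) :=
              Real.rpow_le_rpow_of_exponent_le (by norm_num) (by linarith)
            gcongr
        _ = 2 * M ^ (1 - c) := by rw [Real.rpow_one]
    have hm1 : C₁ * M * |S| / (1 + |t|) ≤ (C₁ * C₀) * (u * (M / Real.log M)) / |t| := by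
      calc C₁ * M * |S| / (1 + |t|) ≤ C₁ * M * (C₀ * u / Real.log M) / |t| := by
            gcongr
            linarith
        _ = (C₁ * C₀) * (u * (M / Real.log M)) / |t| := by
            field_simp
    have hm2 : C₁ * ((1 + δ) * M) * |S| / (1 + |t|) ≤
        2 * ((C₁ * C₀) * (u * (M / Real.log M)) / |t|) := by
      calc C₁ * ((1 + δ) * M) * |S| / (1 + |t|) ≤ C₁ * (2 * M) * |S| / (1 + |t|) := by
            gcongr
        _ = 2 * (C₁ * M * |S| / (1 + |t|)) := by ring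
        _ ≤ 2 * ((C₁ * C₀) * (u * (M / Real.log M)) / |t|) := by linarith
    have hm3 : 3 * (C₁ * C₀) * (u * (M / Real.log M)) / |t| =
        3 * ((C₁ * C₀) * (u * (M / Real.log M)) / |t|) := by ring
    have hm4 : C * ((1 + δ) * M) ^ (1 - c) ≤ C * (2 * M ^ (1 - c)) := by gcongr
    rw [hm3]
    linarith
  set A : ℝ := u * (M / Real.log M) with hA
  have hA0 : 0 < A := by positivity
  have hsq : ∀ t ∈ T,
      ‖∑ n ∈ win M ((1 + δ) * M), ((∑ d ∈ n.divisors, ρ d : ℝ) : ℂ) * tw t n‖ ^ 2 ≤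
      18 * (C₁ * C₀) ^ 2 * A ^ 2 * (1 / t ^ 2) + 18 * C ^ 2 * (M ^ (1 - c)) ^ 2 := by
    intro t ht
    have ht0 : 0 < |t| := by linarith [hTT t ht]
    have h1 := hone t ht
    have h2 : ‖∑ n ∈ win M ((1 + δ) * M), ((∑ d ∈ n.divisors, ρ d : ℝ) : ℂ) * tw t n‖ ^ 2 ≤
        (3 * (C₁ * C₀) * A / |t| + 3 * C * M ^ (1 - c)) ^ 2 := by
      gcongr
    have h3 : (3 * (C₁ * C₀) * A / |t| + 3 * C * M ^ (1 - c)) ^ 2 ≤
        2 * (3 * (C₁ * C₀) * A / |t|) ^ 2 + 2 * (3 * C * M ^ (1 - c)) ^ 2 := by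
      nlinarith [sq_nonneg (3 * (C₁ * C₀) * A / |t| - 3 * C * M ^ (1 - c))]
    have h4 : (3 * (C₁ * C₀) * A / |t|) ^ 2 = 9 * (C₁ * C₀) ^ 2 * A ^ 2 * (1 / t ^ 2) := by
      rw [div_pow, sq_abs]
      ring
    rw [h4] at h3
    calc _ ≤ _ := h2
      _ ≤ _ := h3
      _ = _ := by ring
  calc ∑ t ∈ T, ‖∑ n ∈ win M ((1 + δ) * M), ((∑ d ∈ n.divisors, ρ d : ℝ) : ℂ) * tw t n‖ ^ 2
      ≤ ∑ t ∈ T, (18 * (C₁ * C₀) ^ 2 * A ^ 2 * (1 / t ^ 2) + 18 * C ^ 2 * (M ^ (1 - c)) ^ 2) :=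
        sum_le_sum hsq
    _ = 18 * (C₁ * C₀) ^ 2 * A ^ 2 * ∑ t ∈ T, 1 / t ^ 2 +
        (T.card : ℝ) * (18 * C ^ 2 * (M ^ (1 - c)) ^ 2) := by
        rw [sum_add_distrib, ← mul_sum, sum_const, nsmul_eq_mul]
    _ ≤ 18 * (C₁ * C₀) ^ 2 * A ^ 2 * (8 / T₀) + M ^ c * (18 * C ^ 2 * (M ^ (1 - c)) ^ 2) := by
        have h5 := E09_sq (M ^ 3) T₀ hT₀ T hT hTT
        gcongr
    _ ≤ 18 * (C₁ * C₀) ^ 2 * A ^ 2 * (8 / T₀) + 18 * C ^ 2 * (A ^ 2 * (1 / T₀)) := by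
        have h6 : M ^ c * (M ^ (1 - c)) ^ 2 ≤ A ^ 2 * (1 / T₀) := by
          have h7 : M ^ c * (M ^ (1 - c)) ^ 2 * M ^ c = M ^ 2 := by
            have h8 : M ^ c * M ^ (1 - c) = M := by
              rw [← Real.rpow_add hM0]
              have : c + (1 - c) = 1 := by ring
              rw [this, Real.rpow_one]
            calc M ^ c * (M ^ (1 - c)) ^ 2 * M ^ c = (M ^ c * M ^ (1 - c)) ^ 2 := by ring
              _ = M ^ 2 := by rw [h8]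
          have h9 : 0 < M ^ c := by positivity
          have h10 : A ^ 2 * (1 / T₀) = u ^ 2 * M ^ 2 / (T₀ * Real.log M ^ 2) := by
            rw [hA]
            field_simp
          rw [h10, le_div_iff₀ (by positivity)]
          have h11 : 0 ≤ M ^ c * (M ^ (1 - c)) ^ 2 := by positivity
          calc M ^ c * (M ^ (1 - c)) ^ 2 * (T₀ * Real.log M ^ 2)
              ≤ M ^ c * (M ^ (1 - c)) ^ 2 * M ^ c := by gcongr
            _ = M ^ 2 := h7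
            _ ≤ u ^ 2 * M ^ 2 := by
                have : 1 ≤ u ^ 2 := by nlinarith
                nlinarith [sq_nonneg M]
        have h12 : M ^ c * (18 * C ^ 2 * (M ^ (1 - c)) ^ 2) =
            18 * C ^ 2 * (M ^ c * (M ^ (1 - c)) ^ 2) := by ring
        rw [h12]
        gcongr
    _ = (144 * (C₁ * C₀) ^ 2 + 18 * C ^ 2) * A ^ 2 * (1 / T₀) := by ring

end BP4
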