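import Pool.Agent.LibBP4.E05
import Pool.Agent.LibBP4.E06
import Pool.Agent.LibBP4.E08
import Pool.Agent.LibBP4.E09
import Pool.Agent.LibBP4.S05

/-!
TASK E10.  Mean square over a sparse set of the rough numbers (assembly).  Take `ρ` from `sieve_w` with
`z = M^{1/u}`, `R = ⌊M^{1/24}⌋₊ ≥ z` (large `M`).  `S = G - D` with
`G(t) = ∑_{n ∈ win} (∑_{d∣n} ρ_d) n^{-it}` (`gpart`) and
`D(t) = ∑_{n ∈ win} ((∑_{d∣n} ρ_d) - 1_{rough}(n)) n^{-it}`.  For `D` use `duality2` on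
`S = range (⌊8M⌋₊+1)` with `w n = trap(n/M) ∑_{d∣n} ρ_d`, the coefficients
`(∑_{d∣n} ρ_d) - 1_{rough}(n) ∈ [0, w n]` on `win M ((1+δ)M)` and `0` elsewhere: the coefficient sum
is bounded by `mass_diff` and `B` by `wsum` (`θ = 1/4`; `M/log z = u M/log M`).
-/

open MeasureTheory Finset Filter
open scoped Topology

namespace BP4

open MR57 (tw DP trap SW wh ES IsCM Grep)

theorem E10_trap_one {x : ℝ} (h1 : 1 ≤ x) (h2 : x ≤ 2) : trap x = 1 := by
  unfold MR57.trap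
  rw [min_eq_left, max_eq_right (by norm_num)]
  apply le_min
  · linarith
  · linarith

theorem E10_trap_nonneg (x : ℝ) : 0 ≤ trap x := le_max_left _ _

/-- The difference of the sieve weights and the indicator function of the rough numbers. -/
noncomputable def E10_c (ρ : ℕ → ℝ) (z : ℝ) (n : ℕ) : ℝ :=
  by classical exact ∑ d ∈ n.divisors, ρ d - if Rough z n then 1 else 0

theorem E10_c_nonneg {C₀ z : ℝ} {R : ℕ} {ρ : ℕ → ℝ} (h : IsSel C₀ z R ρ) {n : ℕ} (hn : 1 ≤ n) :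
    0 ≤ E10_c ρ z n ∧ E10_c ρ z n ≤ ∑ d ∈ n.divisors, ρ d := by
  classical
  unfold E10_c
  by_cases hr : Rough z n
  · rw [if_pos hr, h.rough n hr]
    norm_num
  · rw [if_neg hr, sub_zero]
    exact ⟨h.nonneg n hn, le_rfl⟩

theorem E10_c_sum {z a b : ℝ} (ρ : ℕ → ℝ) : ∑ n ∈ win a b, E10_c ρ z n =
    ∑ n ∈ win a b, ∑ d ∈ n.divisors, ρ d - (rgh z a b).card := by
  classical
  unfold E10_c
  rw [sum_sub_distrib]
  congr 1
  rw [← sum_filter, sum_const, nsmul_eq_mul, mul_one]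
  unfold rgh
  congr!

theorem E10_split {z a b t : ℝ} (ρ : ℕ → ℝ) : DP (rgh z a b) (fun _ => 1) t =
    ∑ n ∈ win a b, ((∑ d ∈ n.divisors, ρ d : ℝ) : ℂ) * tw t n -
      ∑ n ∈ win a b, ((E10_c ρ z n : ℝ) : ℂ) * tw t n := by
  classical
  rw [← sum_sub_distrib]
  unfold MR57.DP
  have h : ∀ n ∈ win a b, ((∑ d ∈ n.divisors, ρ d : ℝ) : ℂ) * tw t n -
      ((E10_c ρ z n : ℝ) : ℂ) * tw t n = if Rough z n then 1 * tw t n else 0 := by
    intro n _
    unfold E10_c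
    by_cases hr : Rough z n
    · rw [if_pos hr, if_pos hr]
      push_cast
      ring
    · rw [if_neg hr, if_neg hr]
      push_cast
      ring
  rw [sum_congr rfl h, ← sum_filter]
  unfold rgh
  congr!

theorem E10_norm {x y : ℂ} : ‖x - y‖ ^ 2 ≤ 2 * ‖x‖ ^ 2 + 2 * ‖y‖ ^ 2 := by
  have h1 : ‖x - y‖ ≤ ‖x‖ + ‖y‖ := norm_sub_le x y
  have h2 : ‖x - y‖ ^ 2 ≤ (‖x‖ + ‖y‖) ^ 2 := pow_le_pow_left₀ (norm_nonneg _) h1 2
  nlinarith [sq_nonneg (‖x‖ - ‖y‖)]

theorem E10_L (v : ℝ) (hv : 0 < v) : ∃ L : ℝ, ∀ M : ℝ, L ≤ M → 2 ≤ M ^ (1 / v) := by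
  refine ⟨(2 : ℝ) ^ v, fun M hM => ?_⟩
  have h1 : ((2 : ℝ) ^ v) ^ (1 / v) ≤ M ^ (1 / v) :=
    Real.rpow_le_rpow (by positivity) hM (by positivity)
  rwa [← Real.rpow_mul (by norm_num), mul_one_div_cancel hv.ne', Real.rpow_one] at h1

theorem spart : ∃ C c c' : ℝ, 0 < C ∧ 0 < c ∧ 0 < c' ∧ ∀ u δ T₀ : ℝ, 25 ≤ u → 0 < δ → δ ≤ 1 →
    1 ≤ T₀ → ∃ M₀ : ℝ, 2 ≤ M₀ ∧ ∀ (M : ℝ) (T : Finset ℝ), M₀ ≤ M → MR57.Sep (M ^ 3) T →
    (∀ t ∈ T, T₀ ≤ |t|) → (T.card : ℝ) ≤ M ^ c →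
    ∑ t ∈ T, ‖DP (rgh (M ^ (1 / u)) M ((1 + δ) * M)) (fun _ => 1) t‖ ^ 2 ≤
      C * (u * (M / Real.log M)) ^ 2 * (Real.exp (-(c' * u)) + 1 / T₀) := by
  classical
  obtain ⟨C₀, hC₀, hsel⟩ := sieve_w
  obtain ⟨Cg, cg, hCg, hcg, hg⟩ := gpart C₀ hC₀
  obtain ⟨Cm, c', hCm, hc', hm⟩ := mass_diff C₀ hC₀
  obtain ⟨cw, Cw, Mw, hcw, hCw, hMw, hw⟩ := wsum (1 / 4) C₀ (by norm_num) hC₀
  refine ⟨2 * Cg + 2 * (Cm * Cw), min cg cw, c', by positivity, lt_min hcg hcw, hc', ?_⟩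
  intro u δ T₀ hu hδ hδ1 hT₀
  obtain ⟨M₁, hM₁, hg'⟩ := hg u δ T₀ hu hδ hδ1 hT₀
  obtain ⟨M₂, hM₂, hm'⟩ := hm u δ hu hδ hδ1
  have hu0 : 0 < u := by linarith
  obtain ⟨L₁, hL₁⟩ := E10_L 600 (by norm_num)
  obtain ⟨L₂, hL₂⟩ := E10_L u hu0
  refine ⟨max (max M₁ M₂) (max Mw (max L₁ L₂)), ?_, ?_⟩
  · exact hM₁.trans ((le_max_left _ _).trans (le_max_left _ _))
  intro M T hM hSep hT hcard
  have hMa : M₁ ≤ M := ((le_max_left _ _).trans (le_max_left _ _)).trans hM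
  have hMb : M₂ ≤ M := ((le_max_right _ _).trans (le_max_left _ _)).trans hM
  have hMc : Mw ≤ M := ((le_max_left _ _).trans (le_max_right _ _)).trans hM
  have hMd : L₁ ≤ M :=
    (((le_max_left _ _).trans (le_max_right _ _)).trans (le_max_right _ _)).trans hM
  have hMe : L₂ ≤ M :=
    (((le_max_right _ _).trans (le_max_right _ _)).trans (le_max_right _ _)).trans hM
  have hM2 : 2 ≤ M := hM₁.trans hMa
  have hM0 : 0 < M := by linarith
  set z : ℝ := M ^ (1 / u) with hz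
  have hz2 : 2 ≤ z := hL₂ M hMe
  have hzM : z ≤ M := by
    have h1 : M ^ (1 / u) ≤ M ^ (1 : ℝ) := by
      apply Real.rpow_le_rpow_of_exponent_le (by linarith)
      rw [div_le_one hu0]
      linarith
    rwa [Real.rpow_one] at h1
  have hzR : z ≤ (⌊M ^ (1 / 24 : ℝ)⌋₊ : ℕ) := by
    have h1 : z ≤ M ^ (1 / 25 : ℝ) := by
      apply Real.rpow_le_rpow_of_exponent_le (by linarith)
      exact one_div_le_one_div_of_le (by norm_num) hu
    have h2 : (2 : ℝ) ≤ M ^ (1 / 600 : ℝ) := hL₁ M hMd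
    have h4 : M ^ (1 / 24 : ℝ) = M ^ (1 / 25 : ℝ) * M ^ (1 / 600 : ℝ) := by
      rw [← Real.rpow_add hM0]
      norm_num
    have h5 : 1 ≤ M ^ (1 / 25 : ℝ) := Real.one_le_rpow (by linarith) (by norm_num)
    have h6 : M ^ (1 / 24 : ℝ) < (⌊M ^ (1 / 24 : ℝ)⌋₊ : ℝ) + 1 := Nat.lt_floor_add_one _
    nlinarith
  obtain ⟨ρ, hρ⟩ := hsel z ⌊M ^ (1 / 24 : ℝ)⌋₊ hz2 hzR
  have hM1 : 1 ≤ M := by linarith
  have hcardg : (T.card : ℝ) ≤ M ^ cg :=
    hcard.trans (Real.rpow_le_rpow_of_exponent_le hM1 (min_le_left _ _))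
  have hcardw : (T.card : ℝ) ≤ M ^ cw :=
    hcard.trans (Real.rpow_le_rpow_of_exponent_le hM1 (min_le_right _ _))
  have G1 := hg' M T ρ hMa hρ hSep hT hcardg
  have D1 := hm' M ρ hMb hρ
  have hX : M ^ 3 ≤ M ^ (1 / (1 / 4) : ℝ) := by
    have e : (1 / (1 / 4) : ℝ) = ((4 : ℕ) : ℝ) := by norm_num
    rw [e, Real.rpow_natCast]
    exact pow_le_pow_right₀ hM1 (by norm_num)
  have W1 := hw M (M ^ 3) z T ρ hMc hX hz2 hzM hρ hSep hcardw
  have hlogM : 0 < Real.log M := Real.log_pos (by linarith)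
  have hlogz : Real.log z = Real.log M / u := by
    rw [hz, Real.log_rpow hM0]
    ring
  have hML : M / Real.log z = u * (M / Real.log M) := by
    rw [hlogz]
    field_simp
  rw [hML] at W1
  have hX0 : 0 < u * (M / Real.log M) := by positivity
  -- the duality
  set S' : Finset ℕ := range (⌊8 * M⌋₊ + 1) with hS'
  have hsub : ∀ n ∈ win M ((1 + δ) * M), n ∈ S' := by
    intro n hn
    rw [hS', mem_range]
    have h1 := ((mem_win hM0.le).1 hn).2
    have h2 : (n : ℝ) ≤ 8 * M := by nlinarith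
    have := Nat.le_floor h2
    omega
  have htrap : ∀ n ∈ win M ((1 + δ) * M), trap ((n : ℝ) / M) = 1 := by
    intro n hn
    have h1 := (mem_win hM0.le).1 hn
    apply E10_trap_one
    · rw [le_div_iff₀ hM0]
      linarith
    · rw [div_le_iff₀ hM0]
      nlinarith [h1.2]
  have hone : ∀ n ∈ win M ((1 + δ) * M), 1 ≤ n := by
    intro n hn
    have h1 := ((mem_win hM0.le).1 hn).1
    by_contra h0
    have h2 : n = 0 := by omega
    rw [h2] at h1
    simp only [Nat.cast_zero] at h1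
    linarith
  set a : ℕ → ℂ := fun n => if n ∈ win M ((1 + δ) * M) then ((E10_c ρ z n : ℝ) : ℂ) else 0 with ha
  set w : ℕ → ℝ := fun n => trap ((n : ℝ) / M) * ∑ d ∈ n.divisors, ρ d with hwdef
  have hw0 : ∀ n ∈ S', 0 ≤ w n := by
    intro n _
    rcases Nat.eq_zero_or_pos n with h0 | h0
    · rw [hwdef]
      simp only [h0, Nat.divisors_zero, sum_empty, mul_zero, le_refl]
    · exact mul_nonneg (E10_trap_nonneg _) (hρ.nonneg n h0)
  have haw : ∀ n ∈ S', ‖a n‖ ≤ w n := by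
    intro n hn
    rw [ha]
    simp only
    by_cases hnw : n ∈ win M ((1 + δ) * M)
    · rw [if_pos hnw, Complex.norm_real, Real.norm_eq_abs,
        abs_of_nonneg (E10_c_nonneg hρ (hone n hnw)).1, hwdef]
      simp only
      rw [htrap n hnw, one_mul]
      exact (E10_c_nonneg hρ (hone n hnw)).2
    · rw [if_neg hnw, norm_zero]
      exact hw0 n hn
  have hdual := duality2 S' w a hw0 haw T (Cw * (u * (M / Real.log M))) (by positivity) W1
  have hsuma : ∑ n ∈ S', ‖a n‖ ≤ Cm * (u * (M / Real.log M)) * Real.exp (-(c' * u)) := by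
    have e1 : ∑ n ∈ S', ‖a n‖ = ∑ n ∈ win M ((1 + δ) * M), E10_c ρ z n := by
      rw [← sum_subset (s₁ := win M ((1 + δ) * M)) (fun n hn => hsub n hn)]
      · apply sum_congr rfl
        intro n hn
        rw [ha]
        simp only
        rw [if_pos hn, Complex.norm_real, Real.norm_eq_abs,
          abs_of_nonneg (E10_c_nonneg hρ (hone n hn)).1]
      · intro n _ hn
        rw [ha]
        simp only
        rw [if_neg hn, norm_zero]
    rw [e1, E10_c_sum]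
    exact D1
  have hDPa : ∀ t : ℝ, DP S' a t = ∑ n ∈ win M ((1 + δ) * M), ((E10_c ρ z n : ℝ) : ℂ) * tw t n := by
    intro t
    unfold MR57.DP
    rw [← sum_subset (s₁ := win M ((1 + δ) * M)) (fun n hn => hsub n hn)]
    · apply sum_congr rfl
      intro n hn
      rw [ha]
      simp only
      rw [if_pos hn]
    · intro n _ hn
      rw [ha]
      simp only
      rw [if_neg hn, zero_mul]
  have hD2 : ∑ t ∈ T, ‖DP S' a t‖ ^ 2 ≤
      Cm * Cw * (u * (M / Real.log M)) ^ 2 * Real.exp (-(c' * u)) := by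
    refine hdual.trans ?_
    have := mul_le_mul_of_nonneg_right hsuma
      (show 0 ≤ Cw * (u * (M / Real.log M)) by positivity)
    refine this.trans (le_of_eq ?_)
    ring
  calc ∑ t ∈ T, ‖DP (rgh z M ((1 + δ) * M)) (fun _ => 1) t‖ ^ 2
      ≤ ∑ t ∈ T, (2 * ‖∑ n ∈ win M ((1 + δ) * M),
          ((∑ d ∈ n.divisors, ρ d : ℝ) : ℂ) * tw t n‖ ^ 2 + 2 * ‖DP S' a t‖ ^ 2) := by
        apply sum_le_sum
        intro t _
        rw [E10_split ρ, hDPa t]
        exact E10_norm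
    _ = 2 * ∑ t ∈ T, ‖∑ n ∈ win M ((1 + δ) * M),
          ((∑ d ∈ n.divisors, ρ d : ℝ) : ℂ) * tw t n‖ ^ 2 + 2 * ∑ t ∈ T, ‖DP S' a t‖ ^ 2 := by
        rw [sum_add_distrib, mul_sum, mul_sum]
    _ ≤ 2 * (Cg * (u * (M / Real.log M)) ^ 2 * (1 / T₀)) +
        2 * (Cm * Cw * (u * (M / Real.log M)) ^ 2 * Real.exp (-(c' * u))) := by
        linarith
    _ ≤ _ := by
        have hT0 : 0 < 1 / T₀ := by positivity
        have he : 0 < Real.exp (-(c' * u)) := Real.exp_pos _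
        have hA : 0 < (u * (M / Real.log M)) ^ 2 := by positivity
        have e : (2 * Cg + 2 * (Cm * Cw)) * (u * (M / Real.log M)) ^ 2 *
            (Real.exp (-(c' * u)) + 1 / T₀) =
            2 * (Cg * (u * (M / Real.log M)) ^ 2 * (1 / T₀)) +
            2 * (Cm * Cw * (u * (M / Real.log M)) ^ 2 * Real.exp (-(c' * u))) +
            (2 * (Cg * (u * (M / Real.log M)) ^ 2 * Real.exp (-(c' * u))) +
            2 * (Cm * Cw * (u * (M / Real.log M)) ^ 2 * (1 / T₀))) := by ring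
        rw [e]
        have : 0 ≤ 2 * (Cg * (u * (M / Real.log M)) ^ 2 * Real.exp (-(c' * u))) +
            2 * (Cm * Cw * (u * (M / Real.log M)) ^ 2 * (1 / T₀)) := by positivity
        linarith

end BP4
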