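import Pool.Agent.LibBP4.Defs
import Pool.Agent.LibMR57.A02
import Pool.Agent.LibMR57.A03
import Pool.Agent.LibMR57.A04
import Pool.Agent.LibMR57.A05a
import Pool.Agent.LibMR57.A12a
import Pool.Agent.LibMR57.B01
import Pool.Agent.LibMR57.B02
import Pool.Agent.LibMR57.B03
import Pool.Agent.LibMR57.B06
import Pool.Agent.LibMR57.B08
import Pool.Agent.LibMR57.V05
import Pool.Agent.LibMaier.Mertens
import Pool.Agent.LibPNT.PNT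
import Pool.Agent.LibPS4.P13
import Pool.Agent.Hall79X.X1

/-! External results used in `LibBP4` (all proved in other libraries of the pool). -/

open MeasureTheory Finset Filter
open scoped Topology

namespace BP4

open MR57 (tw DP trap SW wh ES IsCM Grep)

/-- Weyl bound (`MR57.weyl`), `ES a b θ u = ∑_{a < n ≤ b} (n + θ)^{-iu}`. -/
theorem x_weyl (A : ℝ) (hA : 1 ≤ A) : ∃ c C : ℝ, 0 < c ∧ 0 < C ∧ ∀ (N a b : ℕ) (θ u : ℝ), 1 ≤ N →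
    N ≤ a → a ≤ b → b ≤ 2 * N → 0 ≤ θ → θ ≤ 1 → (N : ℝ) ^ (1 / 2 : ℝ) ≤ |u| →
    |u| ≤ (N : ℝ) ^ A → ‖ES a b θ u‖ ≤ C * (N : ℝ) ^ (1 - c) :=
  MR57.weyl A hA

/-- Smooth sums against the integral. -/
theorem x_sw_small : ∃ C : ℝ, 0 < C ∧ ∀ M u : ℝ, 1 ≤ M →
    ‖SW M u - (M : ℂ) * Complex.exp (-((u * Real.log M : ℝ) : ℂ) * Complex.I) * wh u‖ ≤
      C * (1 + |u|) :=
  MR57.sw_small

/-- The transform of the weight. -/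
theorem x_wh_bound : ∃ C : ℝ, 0 < C ∧ ∀ u : ℝ, ‖wh u‖ ≤ C / (1 + u ^ 2) :=
  MR57.wh_bound

/-- Smooth sums, power saving. -/
theorem x_sw_weyl (A : ℝ) (hA : 1 ≤ A) : ∃ c C : ℝ, 0 < c ∧ 0 < C ∧ ∀ M u : ℝ, 1 ≤ M →
    M ^ (3 / 5 : ℝ) ≤ |u| → |u| ≤ M ^ A → ‖SW M u‖ ≤ C * M ^ (1 - c) :=
  MR57.sw_weyl A hA

/-- Separated points: sums of `1/(1+u²)`. -/
theorem x_sep_sum : ∃ C : ℝ, 0 < C ∧ ∀ (X : ℝ) (T : Finset ℝ), MR57.Sep X T → ∀ t ∈ T,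
    ∑ t' ∈ T, 1 / (1 + (t - t') ^ 2) ≤ C :=
  MR57.sep_sum

/-- Large value estimate for prime polynomials. -/
theorem x_hm_two (θ : ℝ) (hθ : 0 < θ) : ∃ (C c z₀ : ℝ), 0 < C ∧ 0 < c ∧ 2 ≤ z₀ ∧
    ∀ (z X : ℝ) (s : Finset ℕ) (a : ℕ → ℂ) (T : Finset ℝ), z₀ ≤ z → X ≤ z ^ (1 / θ) →
      (∀ p ∈ s, p.Prime ∧ z < p ∧ (p : ℝ) ≤ 4 * z) → (∀ n, ‖a n‖ ≤ 1) → MR57.Sep X T →
      (T.card : ℝ) ≤ z ^ c → ∑ t ∈ T, ‖DP s a t‖ ^ 2 ≤ C * (z / Real.log z) ^ 2 :=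
  MR57.hm_two θ hθ

/-- Number of primes, Chebyshev. -/
theorem x_card_primes_le : ∃ C : ℝ, 0 < C ∧ ∀ z : ℝ, 2 ≤ z →
    (((range (⌊4 * z⌋₊ + 1)).filter Nat.Prime).card : ℝ) ≤ C * (z / Real.log z) :=
  MR57.card_primes_le

/-- From separated points to measurable sets. -/
theorem x_disc_to_cont (X : ℝ) (S : Set ℝ) (hS : MeasurableSet S) (hSX : S ⊆ Set.Icc (-X) X)
    (f : ℝ → ℂ) (hf : Continuous f) (B : ℝ)
    (h : ∀ T : Finset ℝ, MR57.Sep X T → (T : Set ℝ) ⊆ S → ∑ t ∈ T, ‖f t‖ ^ 2 ≤ B) :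
    ∫ t in S, ‖f t‖ ^ 2 ≤ 2 * B :=
  MR57.disc_to_cont X S hS hSX f hf B h

/-- Mean value theorem. -/
theorem x_mvt : ∃ C : ℝ, 0 < C ∧ ∀ (N : ℕ) (s : Finset ℕ) (a : ℕ → ℂ) (T : ℝ), 1 ≤ N →
    s ⊆ Icc 1 N → 0 ≤ T →
    ∫ t in (-T)..T, ‖DP s a t‖ ^ 2 ≤ C * (T + N) * ∑ n ∈ s, ‖a n‖ ^ 2 :=
  MR57.mvt

/-- Discrete mean value theorem. -/
theorem x_mvt_disc : ∃ C : ℝ, 0 < C ∧ ∀ (N : ℕ) (s : Finset ℕ) (a : ℕ → ℂ) (X : ℝ) (T : Finset ℝ),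
    1 ≤ N → s ⊆ Icc 1 N → 1 ≤ X → MR57.Sep X T →
    ∑ t ∈ T, ‖DP s a t‖ ^ 2 ≤ C * (X + N) * (1 + Real.log N) * ∑ n ∈ s, ‖a n‖ ^ 2 :=
  MR57.mvt_disc

/-- The Fourier transform of the Fejér kernel. -/
theorem x_fejer_integrable {δ : ℝ} (hδ : 0 < δ) :
    Integrable (fun t : ℝ => (2 - 2 * Real.cos (δ * t)) / t ^ 2) :=
  MR57.fejer_integrable hδ

theorem x_fejer_int {δ : ℝ} (hδ : 0 < δ) (u : ℝ) :
    ∫ t : ℝ, (((2 - 2 * Real.cos (δ * t)) / t ^ 2 : ℝ) : ℂ) *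
      Complex.exp (-((t * u : ℝ) : ℂ) * Complex.I) =
      ((2 * Real.pi * max 0 (δ - |u|) : ℝ) : ℂ) :=
  MR57.fejer_int hδ u

/-- Plancherel for short multiplicative windows. -/
theorem x_window_plancherel (s : Finset ℕ) (a : ℕ → ℂ) {δ : ℝ} (hδ : 0 < δ) :
    ∫ y : ℝ, ‖∑ n ∈ s.filter (fun n : ℕ => y < Real.log n ∧ Real.log n ≤ y + δ), a n‖ ^ 2 =
      (1 / (2 * Real.pi)) *
        ∫ t : ℝ, ‖DP s a t‖ ^ 2 * ((2 - 2 * Real.cos (δ * t)) / t ^ 2) :=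
  MR57.window_plancherel s a hδ

/-- Powers of a prime polynomial times a polynomial. -/
theorem x_pow_mul_DP {g : ℕ → ℂ} (hg : IsCM g) (I M s : Finset ℕ) (hI : ∀ p ∈ I, p.Prime)
    (hM : ∀ m ∈ M, 1 ≤ m) (l : ℕ)
    (hs : ∀ x ∈ (Fintype.piFinset fun _ : Fin l => I) ×ˢ M, (∏ i, x.1 i) * x.2 ∈ s) (t : ℝ) :
    DP I g t ^ l * DP M g t = DP s (fun n => g n * (Grep I l M n : ℂ)) t :=
  MR57.pow_mul_DP hg I M s hI hM l hs t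

/-- The twisted sum of the sieve weights as a combination of the smooth sums. -/
theorem x_swap (ρ : ℕ → ℝ) (D : ℕ) (hρ : ∀ d, ρ d ≠ 0 → 1 ≤ d ∧ d ≤ D) (z u : ℝ) (hz : 1 ≤ z) :
    ∑ n ∈ range (⌊8 * z⌋₊ + 1), ((trap ((n : ℝ) / z) * ∑ d ∈ n.divisors, ρ d : ℝ) : ℂ) * tw u n =
      ∑ d ∈ Icc 1 D, (ρ d : ℂ) * (tw u d * SW (z / d) u) :=
  MR57.b06b_swap ρ D hρ z u hz

/-- Mertens' first theorem. -/
theorem x_mertens_first : ∃ K : ℝ, 0 < K ∧ ∀ t : ℝ, 1 ≤ t →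
    |∑ p ∈ prm 0 t, Real.log p / p - Real.log t| ≤ K := by
  obtain ⟨K, hK, h⟩ := Pool.Agent.LibMaier.mertens_first
  refine ⟨K, hK, fun t ht => ?_⟩
  have h1 := h t ht
  unfold Pool.Agent.LibMaier.TN at h1
  rw [prm_zero]
  exact h1

/-- Mertens' second theorem. -/
theorem x_mertens_second : ∃ M : ℝ,
    Tendsto (fun t : ℝ => ∑ p ∈ prm 0 t, 1 / (p : ℝ) - Real.log (Real.log t)) atTop (𝓝 M) := by
  obtain ⟨M, hM⟩ := Pool.Agent.LibMaier.mertens_second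
  refine ⟨M, hM.congr fun t => ?_⟩
  unfold Pool.Agent.LibMaier.DR Pool.Agent.LibMaier.RN
  rw [prm_zero]
  rfl

/-- Mertens' third theorem. -/
theorem x_mertens_third :
    Tendsto (fun z : ℕ => (∏ p ∈ (range (z + 1)).filter Nat.Prime, (1 - 1 / (p : ℝ))) *
      Real.log z) atTop (𝓝 (Real.exp (-Real.eulerMascheroniConstant))) :=
  Pool.Agent.LibMaier.mertens_third

/-- The divisor bound. -/
theorem x_tau_bound (ε : ℝ) (hε : 0 < ε) :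
    ∃ C : ℝ, 0 < C ∧ ∀ n : ℕ, 1 ≤ n → (n.divisors.card : ℝ) ≤ C * (n : ℝ) ^ ε :=
  Pool.Agent.LibHall79.card_divisors_le ε hε

/-- Prime number theorem, `θ(x) ~ x`. -/
theorem x_theta_tendsto : Tendsto (fun x : ℝ => Chebyshev.theta x / x) atTop (𝓝 1) :=
  Pool.Agent.LibPNT.theta_tendsto

/-- Prime number theorem, `π(x) ~ x / log x`. -/
theorem x_primeCounting_tendsto :
    Tendsto (fun x : ℝ => (Nat.primeCounting ⌊x⌋₊ : ℝ) * Real.log x / x) atTop (𝓝 1) :=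
  Pool.Agent.LibPNT.primeCounting_tendsto

/-- Hausdorff dimension of a limsup set of grid cells. -/
theorem x_dimH_limsup (s : ℝ) (hs : 0 < s) (N : ℕ → ℕ) (I : ℕ → Finset ℕ) (E : Set ℝ)
    (hN : Tendsto (fun j => (N j : ℝ)) atTop atTop)
    (hsum : Summable (fun j => ((I j).card : ℝ) * (N j : ℝ) ^ (-s)))
    (hE : ∀ x ∈ E, ∃ᶠ j in atTop, ∃ i ∈ I j, (i : ℝ) / N j ≤ x ∧ x ≤ ((i : ℝ) + 1) / N j) :
    dimH E ≤ ENNReal.ofReal s :=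
  PS4.dimH_limsup s hs N I E hN hsum hE

end BP4
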