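import Pool.Agent.LibBP4.Ext

/-!
TASK F01.  The smoothed count as an integral: expand `PP`, `QQ`, and use `x_fejer_int` at
`u = β + log p - log q` for each pair (`tw t p = exp(-i t log p)`,
`conj (tw t q) = exp(i t log q)`).
-/

open MeasureTheory Finset Filter
open scoped Topology

namespace BP4

open MR57 (tw DP trap SW wh ES IsCM Grep)

theorem F01_integrable {h : ℝ} (hh : 0 < h) (u : ℝ) :
    Integrable (fun t : ℝ => ((Kr h t : ℝ) : ℂ) * Complex.exp (-((t * u : ℝ) : ℂ) * Complex.I)) := by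
  have h1 : Integrable (fun t : ℝ => ((Kr h t : ℝ) : ℂ)) := (x_fejer_integrable hh).ofReal
  have hc : Continuous (fun t : ℝ => Complex.exp (-((t * u : ℝ) : ℂ) * Complex.I)) := by
    fun_prop
  refine h1.mono (h1.aestronglyMeasurable.mul hc.aestronglyMeasurable) ?_
  refine Eventually.of_forall fun t => ?_
  rw [norm_mul, ← Complex.ofReal_neg, Complex.norm_exp_ofReal_mul_I, mul_one]

theorem FF_fourier (δ a M h β : ℝ) (hh : 0 < h) :
    (FF δ a M h β : ℂ) = (1 / (2 * Real.pi) : ℝ) * ∫ t : ℝ, ((Kr h t : ℝ) : ℂ) *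
      (Complex.exp (-((t * β : ℝ) : ℂ) * Complex.I) * PP δ M t *
        (starRingEnd ℂ) (QQ a M t)) := by
  have e : ∀ t : ℝ, ((Kr h t : ℝ) : ℂ) *
      (Complex.exp (-((t * β : ℝ) : ℂ) * Complex.I) * PP δ M t * (starRingEnd ℂ) (QQ a M t)) =
      ∑ p ∈ prm M ((1 + δ) * M), ∑ q ∈ prm (a * M / 2) (2 * a * M), ((Kr h t : ℝ) : ℂ) *
        Complex.exp (-((t * (β + Real.log p - Real.log q) : ℝ) : ℂ) * Complex.I) := by
    intro t
    unfold PP QQ MR57.DP
    rw [map_sum, mul_assoc, Finset.sum_mul_sum, Finset.mul_sum, Finset.mul_sum]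
    refine Finset.sum_congr rfl fun p _ => ?_
    rw [Finset.mul_sum, Finset.mul_sum]
    refine Finset.sum_congr rfl fun q _ => ?_
    congr 1
    rw [one_mul, one_mul]
    unfold MR57.tw
    rw [← Complex.exp_conj, ← Complex.exp_add, ← Complex.exp_add]
    congr 1
    rw [map_mul, map_neg, Complex.conj_ofReal, Complex.conj_I]
    push_cast
    ring
  simp_rw [e]
  rw [integral_finsetSum _ (fun p _ => integrable_finsetSum _ fun q _ => F01_integrable hh _)]
  simp_rw [integral_finsetSum _ (fun q (_ : q ∈ prm (a * M / 2) (2 * a * M)) =>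
    F01_integrable hh _)]
  unfold FF
  push_cast
  rw [Finset.mul_sum]
  refine Finset.sum_congr rfl fun p _ => ?_
  rw [Finset.mul_sum]
  refine Finset.sum_congr rfl fun q _ => ?_
  have := x_fejer_int hh (β + Real.log p - Real.log q)
  unfold Kr
  push_cast at this ⊢
  rw [this]
  have hpi : (Real.pi : ℂ) ≠ 0 := by exact_mod_cast Real.pi_ne_zero
  field_simp

end BP4
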