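import Pool.Agent.LibBP4.Ext

/-!
TASK F02.  Splitting the frequency integral.  Facts: `0 ≤ Kr h t ≤ h²`, `0 ≤ 1 - Kr h t/h² ≤ h²t²/4` for
`t ≠ 0`, `Kr h t ≤ 4/t²`.  So `κ(t) = Kr h t/h² - Kr w t/w²`
satisfies `|κ| ≤ 1`, `|κ(t)| ≤ w²T₀²/4` for `|t| ≤ T₀` (`h ≤ w`), and
`|κ(t)| ≤ (4/t²)(1/h² + 1/w²)`.  Split `ℝ` into `|t| ≤ T₀`, `{T₀ < |t| ≤ Y} \ S`, `S`, `|t| > Y`
(`∫_{|t|>Y} 1/t² = 2/Y`).
-/

open MeasureTheory Finset Filter
open scoped Topology

namespace BP4

open MR57 (tw DP trap SW wh ES IsCM Grep)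

theorem Kr_nonneg (h t : ℝ) : 0 ≤ Kr h t := by
  unfold Kr
  have := Real.cos_le_one (h * t)
  exact div_nonneg (by linarith) (sq_nonneg t)

theorem Kr_le (h t : ℝ) : Kr h t ≤ h ^ 2 := by
  unfold Kr
  by_cases ht : t = 0
  · subst ht
    simp only [ne_eq, OfNat.ofNat_ne_zero, not_false_eq_true, zero_pow, div_zero]
    positivity
  · have h2 : 0 < t ^ 2 := by positivity
    rw [div_le_iff₀ h2]
    have := Real.one_sub_sq_div_two_le_cos (x := h * t)
    nlinarith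

theorem F02_cos_le (x : ℝ) : 2 - 2 * Real.cos x ≥ x ^ 2 - x ^ 4 / 4 := by
  -- even in `x`
  have main : ∀ x : ℝ, 0 ≤ x → 2 - 2 * Real.cos x ≥ x ^ 2 - x ^ 4 / 4 := by
    intro x hx
    rcases lt_or_ge 2 x with h2 | h2
    · have h3 : x ^ 2 - x ^ 4 / 4 ≤ 0 := by
        have h4 : 4 ≤ x ^ 2 := by nlinarith
        have h5 : 0 ≤ x ^ 2 * (x ^ 2 - 4) := mul_nonneg (sq_nonneg x) (by linarith)
        nlinarith
      have := Real.cos_le_one x
      linarith
    · rcases eq_or_lt_of_le hx with h0 | h0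
      · rw [← h0]; simp
      · have hs := Real.sin_gt_sub_cube (x := x / 2) (by linarith)
        have hc : 2 - 2 * Real.cos x = 4 * Real.sin (x / 2) ^ 2 := by
          have h4 := Real.cos_sq' (x / 2)
          have h5 := Real.cos_two_mul (x / 2)
          rw [show 2 * (x / 2) = x by ring] at h5
          rw [h5, h4]; ring
        rw [hc]
        have hp : 0 ≤ x / 2 - (x / 2) ^ 3 / 6 := by
          have : (x / 2) ^ 3 ≤ x / 2 := by
            have h6 : 0 ≤ x / 2 := by linarith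
            have h7 : x / 2 ≤ 1 := by linarith
            calc (x / 2) ^ 3 ≤ (x / 2) ^ 1 := pow_le_pow_of_le_one h6 h7 (by norm_num)
              _ = x / 2 := pow_one _
          linarith
        have h8 : (x / 2 - (x / 2) ^ 3 / 6) ^ 2 ≤ Real.sin (x / 2) ^ 2 :=
          pow_le_pow_left₀ hp hs.le 2
        nlinarith [sq_nonneg ((x / 2) ^ 3), sq_nonneg (x ^ 2)]
  rcases le_or_gt 0 x with h | h
  · exact main x h
  · have := main (-x) (by linarith)
    rw [Real.cos_neg] at this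
    nlinarith

/-- The kernel. -/
noncomputable def F02_ka (h w t : ℝ) : ℝ := Kr h t / h ^ 2 - Kr w t / w ^ 2

theorem F02_frac_le_one {h : ℝ} (hh : 0 < h) (t : ℝ) : Kr h t / h ^ 2 ≤ 1 := by
  rw [div_le_one (by positivity)]
  exact Kr_le h t

theorem F02_frac_nonneg (h t : ℝ) : 0 ≤ Kr h t / h ^ 2 :=
  div_nonneg (Kr_nonneg h t) (sq_nonneg h)

theorem F02_frac_ge {h : ℝ} (hh : 0 < h) {t : ℝ} (ht : t ≠ 0) :
    1 - h ^ 2 * t ^ 2 / 4 ≤ Kr h t / h ^ 2 := by
  have h2 : 0 < t ^ 2 := by positivity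
  unfold Kr
  rw [div_div, le_div_iff₀ (by positivity)]
  have := F02_cos_le (h * t)
  nlinarith

theorem F02_ka_abs_le_one {h w : ℝ} (hh : 0 < h) (hw : 0 < w) (t : ℝ) : |F02_ka h w t| ≤ 1 := by
  unfold F02_ka
  rw [abs_le]
  constructor
  · linarith [F02_frac_nonneg h t, F02_frac_le_one hw t]
  · linarith [F02_frac_nonneg w t, F02_frac_le_one hh t]

theorem F02_ka_abs_le_small {h w : ℝ} (hh : 0 < h) (hhw : h ≤ w) (t : ℝ) :
    |F02_ka h w t| ≤ w ^ 2 * t ^ 2 / 4 := by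
  by_cases ht : t = 0
  · subst ht
    unfold F02_ka Kr
    simp
  · have hw : 0 < w := lt_of_lt_of_le hh hhw
    unfold F02_ka
    have a1 := F02_frac_ge hh ht
    have a2 := F02_frac_ge hw ht
    have b1 := F02_frac_le_one hh t
    have b2 := F02_frac_le_one hw t
    have c : h ^ 2 * t ^ 2 ≤ w ^ 2 * t ^ 2 :=
      mul_le_mul_of_nonneg_right (pow_le_pow_left₀ hh.le hhw 2) (sq_nonneg t)
    rw [abs_le]
    constructor <;> linarith

theorem F02_Kr_le_inv (h t : ℝ) : Kr h t ≤ 4 * (t ^ 2)⁻¹ := by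
  unfold Kr
  rw [div_eq_mul_inv]
  apply mul_le_mul_of_nonneg_right _ (by positivity)
  linarith [Real.neg_one_le_cos (h * t)]

theorem F02_ka_abs_le_large {h w : ℝ} (hh : 0 < h) (hw : 0 < w) (t : ℝ) :
    |F02_ka h w t| ≤ 4 * (1 / h ^ 2 + 1 / w ^ 2) * (t ^ 2)⁻¹ := by
  have e1 : Kr h t / h ^ 2 ≤ 4 * (t ^ 2)⁻¹ * (1 / h ^ 2) := by
    rw [div_eq_mul_one_div]
    exact mul_le_mul_of_nonneg_right (F02_Kr_le_inv h t) (by positivity)
  have e2 : Kr w t / w ^ 2 ≤ 4 * (t ^ 2)⁻¹ * (1 / w ^ 2) := by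
    rw [div_eq_mul_one_div]
    exact mul_le_mul_of_nonneg_right (F02_Kr_le_inv w t) (by positivity)
  have p1 : 0 ≤ 4 * (t ^ 2)⁻¹ * (1 / h ^ 2) := by positivity
  have p2 : 0 ≤ 4 * (t ^ 2)⁻¹ * (1 / w ^ 2) := by positivity
  unfold F02_ka
  rw [abs_le]
  constructor
  · linarith [F02_frac_nonneg h t]
  · linarith [F02_frac_nonneg w t]

theorem F02_tail {Y : ℝ} (hY : 0 < Y) :
    IntegrableOn (fun t : ℝ => (t ^ 2)⁻¹) (Set.Ioi Y) ∧
      ∫ t in Set.Ioi Y, (t ^ 2)⁻¹ = 1 / Y := by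
  have e : ∀ t ∈ Set.Ioi Y, (t : ℝ) ^ (-2 : ℝ) = (t ^ 2)⁻¹ := by
    intro t ht
    have htp : 0 < t := lt_trans hY ht
    rw [Real.rpow_neg htp.le]
    norm_num
  constructor
  · have := integrableOn_Ioi_rpow_of_lt (a := -2) (by norm_num) hY
    exact this.congr_fun e measurableSet_Ioi
  · have := integral_Ioi_rpow_of_lt (a := -2) (by norm_num) hY
    rw [← setIntegral_congr_fun measurableSet_Ioi e, this]
    norm_num
    rw [Real.rpow_neg_one]

theorem F02_tail' {Y : ℝ} (hY : 0 < Y) :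
    IntegrableOn (fun t : ℝ => (t ^ 2)⁻¹) (Set.Iic (-Y)) ∧
      ∫ t in Set.Iic (-Y), (t ^ 2)⁻¹ = 1 / Y := by
  obtain ⟨h1, h2⟩ := F02_tail hY
  constructor
  · have h3 := h1.comp_neg
    have e : -Set.Ioi Y = Set.Iio (-Y) := by
      ext t
      simp only [Set.mem_neg, Set.mem_Ioi, Set.mem_Iio]
      constructor <;> intro h <;> linarith
    rw [e] at h3
    have h4 : IntegrableOn (fun t : ℝ => (t ^ 2)⁻¹) (Set.Iio (-Y)) := by
      refine h3.congr_fun (fun t _ => ?_) measurableSet_Iio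
      simp
    rwa [integrableOn_Iic_iff_integrableOn_Iio]
  · have := integral_comp_neg_Ioi Y (fun t : ℝ => (t ^ 2)⁻¹)
    rw [← this, ← h2]
    apply setIntegral_congr_fun measurableSet_Ioi
    intro t _
    simp

theorem kernel_split (h w T₀ Y B : ℝ) (hh : 0 < h) (hhw : h ≤ w) (hT : 1 ≤ T₀)
    (hY : T₀ ≤ Y) (g : ℝ → ℂ) (hg : Continuous g) (hB : ∀ t, ‖g t‖ ≤ B) (S : Set ℝ)
    (hS : MeasurableSet S) (hSY : ∀ t ∈ S, T₀ < |t| ∧ |t| ≤ Y) :
    ‖(∫ t : ℝ, ((Kr h t / h ^ 2 - Kr w t / w ^ 2 : ℝ) : ℂ) * g t) -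
        ∫ t in S, ((Kr h t / h ^ 2 - Kr w t / w ^ 2 : ℝ) : ℂ) * g t‖ ≤
      w ^ 2 * T₀ ^ 3 * B + (∫ t in {t : ℝ | T₀ < |t| ∧ |t| ≤ Y} \ S, ‖g t‖) +
        8 / Y * (1 / h ^ 2 + 1 / w ^ 2) * B := by
  have hw : 0 < w := lt_of_lt_of_le hh hhw
  have hT0 : 0 < T₀ := by linarith
  have hY0 : 0 < Y := by linarith
  have hB0 : 0 ≤ B := (norm_nonneg _).trans (hB 0)
  set M : Set ℝ := {t : ℝ | T₀ < |t| ∧ |t| ≤ Y} \ S with hM
  have hMm : MeasurableSet M := by
    apply MeasurableSet.diff _ hS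
    have m1 : MeasurableSet {t : ℝ | T₀ < |t|} := measurableSet_lt measurable_const measurable_abs
    have m2 : MeasurableSet {t : ℝ | |t| ≤ Y} := measurableSet_le measurable_abs measurable_const
    exact m1.inter m2
  change ‖(∫ t : ℝ, ((F02_ka h w t : ℝ) : ℂ) * g t) - ∫ t in S, ((F02_ka h w t : ℝ) : ℂ) * g t‖ ≤ _
  -- integrability
  have hka : Integrable (fun t : ℝ => F02_ka h w t) := by
    have i1 : Integrable (fun t : ℝ => Kr h t) := x_fejer_integrable hh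
    have i2 : Integrable (fun t : ℝ => Kr w t) := x_fejer_integrable hw
    exact (i1.div_const _).sub (i2.div_const _)
  have hG : Integrable (fun t : ℝ => ((F02_ka h w t : ℝ) : ℂ) * g t) := by
    have h1 : Integrable (fun t : ℝ => ((F02_ka h w t : ℝ) : ℂ)) := hka.ofReal
    refine (h1.norm.mul_const B).mono (h1.aestronglyMeasurable.mul hg.aestronglyMeasurable) ?_
    refine Eventually.of_forall fun t => ?_
    rw [norm_mul, norm_mul, norm_norm, Real.norm_of_nonneg hB0]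
    exact mul_le_mul_of_nonneg_left (hB t) (norm_nonneg _)
  have hsplit : (∫ t : ℝ, ((F02_ka h w t : ℝ) : ℂ) * g t) -
      ∫ t in S, ((F02_ka h w t : ℝ) : ℂ) * g t = ∫ t in Sᶜ, ((F02_ka h w t : ℝ) : ℂ) * g t := by
    rw [← integral_add_compl hS hG]; ring
  rw [hsplit]
  refine (norm_integral_le_integral_norm _).trans ?_
  set c₂ : ℝ := 4 * (1 / h ^ 2 + 1 / w ^ 2) * B with hc₂
  have hc₂0 : 0 ≤ c₂ := by positivity
  set c₁ : ℝ := w ^ 2 * T₀ ^ 2 / 4 * B with hc₁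
  have hc₁0 : 0 ≤ c₁ := by positivity
  obtain ⟨t1, t2⟩ := F02_tail hY0
  obtain ⟨t3, t4⟩ := F02_tail' hY0
  -- the majorant
  set m : ℝ → ℝ := fun t => (Set.Icc (-T₀) T₀).indicator (fun _ => c₁) t +
    M.indicator (fun t => ‖g t‖) t + ((Set.Iic (-Y)).indicator (fun t => c₂ * (t ^ 2)⁻¹) t +
      (Set.Ioi Y).indicator (fun t => c₂ * (t ^ 2)⁻¹) t) with hm
  have i1 : Integrable ((Set.Icc (-T₀) T₀).indicator (fun _ => c₁) : ℝ → ℝ) := by
    rw [integrable_indicator_iff measurableSet_Icc]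
    refine integrableOn_const ?_
    rw [Real.volume_Icc]; exact ENNReal.ofReal_ne_top
  have i2 : Integrable (M.indicator (fun t => ‖g t‖)) := by
    rw [integrable_indicator_iff hMm]
    refine Measure.integrableOn_of_bounded (M := B) ?_ hg.norm.aestronglyMeasurable ?_
    · have : M ⊆ Set.Icc (-Y) Y := by
        intro t ht
        exact abs_le.mp ht.1.2
      exact ((measure_mono this).trans_lt (by rw [Real.volume_Icc]; exact ENNReal.ofReal_lt_top)).ne
    · refine Eventually.of_forall fun t => ?_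
      rw [norm_norm]; exact hB t
  have i3 : Integrable ((Set.Iic (-Y)).indicator (fun t => c₂ * (t ^ 2)⁻¹) : ℝ → ℝ) := by
    rw [integrable_indicator_iff measurableSet_Iic]
    exact t3.const_mul c₂
  have i4 : Integrable ((Set.Ioi Y).indicator (fun t => c₂ * (t ^ 2)⁻¹) : ℝ → ℝ) := by
    rw [integrable_indicator_iff measurableSet_Ioi]
    exact t1.const_mul c₂
  have i5 : Integrable (fun t => (Set.Icc (-T₀) T₀).indicator (fun _ => c₁) t +
      M.indicator (fun t => ‖g t‖) t) := i1.add i2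
  have i6 : Integrable (fun t => (Set.Iic (-Y)).indicator (fun t => c₂ * (t ^ 2)⁻¹) t +
      (Set.Ioi Y).indicator (fun t => c₂ * (t ^ 2)⁻¹) t) := i3.add i4
  have hmi : Integrable m := i5.add i6
  have hmint : ∫ t, m t = 2 * T₀ * c₁ + (∫ t in M, ‖g t‖) + 2 * c₂ / Y := by
    have e1 : ∫ _t in Set.Icc (-T₀) T₀, c₁ = 2 * T₀ * c₁ := by
      rw [setIntegral_const, smul_eq_mul, Real.volume_real_Icc_of_le (by linarith)]; ring
    have e3 : ∫ t in Set.Iic (-Y), c₂ * (t ^ 2)⁻¹ = c₂ * (1 / Y) := by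
      rw [integral_const_mul, t4]
    have e4 : ∫ t in Set.Ioi Y, c₂ * (t ^ 2)⁻¹ = c₂ * (1 / Y) := by
      rw [integral_const_mul, t2]
    rw [hm, integral_add i5 i6, integral_add i1 i2, integral_add i3 i4,
      integral_indicator measurableSet_Icc, integral_indicator hMm,
      integral_indicator measurableSet_Iic, integral_indicator measurableSet_Ioi, e1, e3, e4]
    ring
  have hle : ∫ t in Sᶜ, ‖((F02_ka h w t : ℝ) : ℂ) * g t‖ ≤ ∫ t, m t := by
    rw [← integral_indicator hS.compl]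
    apply integral_mono (hG.norm.indicator hS.compl) hmi
    intro t
    have n1 : 0 ≤ (Set.Icc (-T₀) T₀).indicator (fun _ => c₁) t :=
      Set.indicator_nonneg (fun _ _ => hc₁0) t
    have n2 : 0 ≤ M.indicator (fun t => ‖g t‖) t :=
      Set.indicator_nonneg (fun _ _ => norm_nonneg _) t
    have n3 : 0 ≤ (Set.Iic (-Y)).indicator (fun t => c₂ * (t ^ 2)⁻¹) t :=
      Set.indicator_nonneg (fun _ _ => by positivity) t
    have n4 : 0 ≤ (Set.Ioi Y).indicator (fun t => c₂ * (t ^ 2)⁻¹) t :=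
      Set.indicator_nonneg (fun _ _ => by positivity) t
    by_cases htS : t ∈ S
    · rw [Set.indicator_of_notMem (by simpa using htS)]
      simp only [hm]
      linarith
    · rw [Set.indicator_of_mem (by simpa using htS)]
      rw [norm_mul, Complex.norm_real, Real.norm_eq_abs]
      simp only [hm]
      rcases le_or_gt |t| T₀ with h1 | h1
      · have hmem : t ∈ Set.Icc (-T₀) T₀ := abs_le.mp h1
        have e1 : (Set.Icc (-T₀) T₀).indicator (fun _ => c₁) t = c₁ :=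
          Set.indicator_of_mem hmem _
        have b1 : |F02_ka h w t| ≤ w ^ 2 * T₀ ^ 2 / 4 := by
          refine (F02_ka_abs_le_small hh hhw t).trans ?_
          have : t ^ 2 ≤ T₀ ^ 2 := by
            rw [← sq_abs]; exact pow_le_pow_left₀ (abs_nonneg _) h1 2
          have w2 : 0 ≤ w ^ 2 := sq_nonneg w
          nlinarith
        have b2 : |F02_ka h w t| * ‖g t‖ ≤ c₁ :=
          mul_le_mul b1 (hB t) (norm_nonneg _) (by positivity)
        linarith
      · rcases le_or_gt |t| Y with h2 | h2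
        · have hmem : t ∈ M := ⟨⟨h1, h2⟩, htS⟩
          have e1 : M.indicator (fun t => ‖g t‖) t = ‖g t‖ := Set.indicator_of_mem hmem _
          have b2 : |F02_ka h w t| * ‖g t‖ ≤ 1 * ‖g t‖ :=
            mul_le_mul_of_nonneg_right (F02_ka_abs_le_one hh hw t) (norm_nonneg _)
          linarith
        · have b2 : |F02_ka h w t| * ‖g t‖ ≤ c₂ * (t ^ 2)⁻¹ := by
            have := mul_le_mul (F02_ka_abs_le_large hh hw t) (hB t) (norm_nonneg _)
              (by positivity)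
            calc |F02_ka h w t| * ‖g t‖ ≤ 4 * (1 / h ^ 2 + 1 / w ^ 2) * (t ^ 2)⁻¹ * B := this
              _ = c₂ * (t ^ 2)⁻¹ := by rw [hc₂]; ring
          rcases lt_abs.mp h2 with h3 | h3
          · have e1 : (Set.Ioi Y).indicator (fun t => c₂ * (t ^ 2)⁻¹) t = c₂ * (t ^ 2)⁻¹ :=
              Set.indicator_of_mem (show t ∈ Set.Ioi Y from h3) _
            linarith
          · have e1 : (Set.Iic (-Y)).indicator (fun t => c₂ * (t ^ 2)⁻¹) t = c₂ * (t ^ 2)⁻¹ :=
              Set.indicator_of_mem (show t ∈ Set.Iic (-Y) by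
                rw [Set.mem_Iic]; linarith) _
            linarith
  refine hle.trans ?_
  rw [hmint]
  have f1 : 2 * T₀ * c₁ ≤ w ^ 2 * T₀ ^ 3 * B := by
    rw [hc₁]
    have : 0 ≤ w ^ 2 * T₀ ^ 3 * B := by positivity
    nlinarith
  have f2 : 2 * c₂ / Y = 8 / Y * (1 / h ^ 2 + 1 / w ^ 2) * B := by
    rw [hc₂]; ring
  rw [f2]
  linarith

end BP4
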