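import Pool.Agent.LibBP4.Ext

/-!
TASK F03.  Local Plancherel inequality.  The global Plancherel theorem for functions in `L¹ ∩ L²`
gives the bound with `C = 2π`.
-/

open MeasureTheory Finset Filter
open scoped Topology

namespace BP4

open MR57 (tw DP trap SW wh ES IsCM Grep)

section F03

open FourierTransform SchwartzMap
open scoped ENNReal

/-- The integral Fourier transform of a function in `L¹ ∩ L²` agrees a.e. with the `L²` one. -/
theorem F03_fourier_ae_eq
    (g : ℝ → ℂ) (hg1 : Integrable g) (hg2 : MemLp g 2) :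
    ∀ᵐ w, (𝓕 (hg2.toLp g) : Lp ℂ 2 (volume : Measure ℝ)) w = 𝓕 g w := by
  apply ae_eq_of_integral_contDiff_smul_eq
  · exact (Lp.memLp _).locallyIntegrable (by norm_num)
  · have hc : Continuous (𝓕 g) :=
      VectorFourier.fourierIntegral_continuous Real.continuous_fourierChar
        (innerSL ℝ).continuous₂ hg1
    exact hc.locallyIntegrable
  · intro φ hφ1 hφ2
    have h1 : ContDiff ℝ (⊤ : ℕ∞) (fun x => (φ x : ℂ)) :=
      Complex.ofRealCLM.contDiff.comp hφ1
    have h2 : HasCompactSupport (fun x => (φ x : ℂ)) :=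
      hφ2.comp_left (g := fun r : ℝ => (r : ℂ)) (by simp)
    set ψ : 𝓢(ℝ, ℂ) := h2.toSchwartzMap h1 with hψ
    have hψx : ∀ x, ψ x = (φ x : ℂ) := fun x => rfl
    have key := congrArg (fun T => T ψ)
      (MeasureTheory.Lp.fourier_toTemperedDistribution_eq (hg2.toLp g))
    simp only [TemperedDistribution.fourier_apply, Lp.toTemperedDistribution_apply] at key
    have e1 : ∫ x, φ x • (𝓕 (hg2.toLp g) : Lp ℂ 2 (volume : Measure ℝ)) x
        = ∫ x, ψ x • (𝓕 (hg2.toLp g) : Lp ℂ 2 (volume : Measure ℝ)) x := by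
      apply integral_congr_ae
      filter_upwards with x
      rw [hψx]; simp
    rw [e1, ← key]
    have e2 : ∫ x, (𝓕 ψ) x • (hg2.toLp g : Lp ℂ 2 (volume : Measure ℝ)) x
        = ∫ x, (𝓕 ψ) x • g x := by
      apply integral_congr_ae
      filter_upwards [hg2.coeFn_toLp] with x hx
      rw [hx]
    rw [e2]
    have e3 := VectorFourier.integral_fourierIntegral_smul_eq_flip (L := innerₗ ℝ)
      (μ := volume) (ν := volume) (f := (ψ : ℝ → ℂ)) (g := g)
      Real.continuous_fourierChar continuous_inner ψ.integrable hg1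
    have e4 : ∫ x, φ x • 𝓕 g x = ∫ x, ψ x • 𝓕 g x := by
      apply integral_congr_ae
      filter_upwards with x
      rw [hψx]; simp
    rw [e4]
    simpa using! e3

/-- Plancherel for functions in `L¹ ∩ L²`. -/
theorem F03_plancherel
    (g : ℝ → ℂ) (hg1 : Integrable g) (hg2 : MemLp g 2) :
    ∫⁻ w, ‖𝓕 g w‖ₑ ^ 2 = ∫⁻ w, ‖g w‖ₑ ^ 2 := by
  have h1 : ∫⁻ w, ‖𝓕 g w‖ₑ ^ 2 =
      ∫⁻ w, ‖(𝓕 (hg2.toLp g) : Lp ℂ 2 (volume : Measure ℝ)) w‖ₑ ^ 2 := by
    apply lintegral_congr_ae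
    filter_upwards [F03_fourier_ae_eq g hg1 hg2] with w hw
    rw [hw]
  have h2 : ∫⁻ w, ‖g w‖ₑ ^ 2 = ∫⁻ w, ‖(hg2.toLp g : Lp ℂ 2 (volume : Measure ℝ)) w‖ₑ ^ 2 := by
    apply lintegral_congr_ae
    filter_upwards [hg2.coeFn_toLp] with w hw
    rw [hw]
  have h3 : ∀ F : Lp ℂ 2 (volume : Measure ℝ), ∫⁻ w, ‖F w‖ₑ ^ 2 = ‖F‖ₑ ^ 2 := by
    intro F
    rw [Lp.enorm_def, eLpNorm_eq_lintegral_rpow_enorm_toReal (by norm_num) (by norm_num)]
    simp only [ENNReal.toReal_ofNat, one_div]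
    rw [← ENNReal.rpow_natCast, ← ENNReal.rpow_mul]
    simp
  rw [h1, h2, h3, h3]
  have h4 : ‖(𝓕 (hg2.toLp g) : Lp ℂ 2 (volume : Measure ℝ))‖ = ‖hg2.toLp g‖ :=
    MeasureTheory.Lp.norm_fourier_eq _
  have h5 : ‖(𝓕 (hg2.toLp g) : Lp ℂ 2 (volume : Measure ℝ))‖ₑ = ‖hg2.toLp g‖ₑ := by
    rw [← ofReal_norm, ← ofReal_norm, h4]
  rw [h5]

/-- Plancherel, Bochner integrals. -/
theorem F03_plancherel' (g : ℝ → ℂ) (hg1 : Integrable g) (hg2 : MemLp g 2) :
    Integrable (fun w => ‖𝓕 g w‖ ^ 2) ∧ ∫ w, ‖𝓕 g w‖ ^ 2 = ∫ w, ‖g w‖ ^ 2 := by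
  have hc : Continuous (𝓕 g) :=
      VectorFourier.fourierIntegral_continuous Real.continuous_fourierChar
        (innerSL ℝ).continuous₂ hg1
  have hgi : Integrable (fun w => ‖g w‖ ^ 2) :=
    (memLp_two_iff_integrable_sq_norm hg1.aestronglyMeasurable).1 hg2
  have hP := F03_plancherel g hg1 hg2
  have conv : ∀ F : ℝ → ℂ, (∫⁻ w, ENNReal.ofReal (‖F w‖ ^ 2)) = ∫⁻ w, ‖F w‖ₑ ^ 2 := by
    intro F
    apply lintegral_congr
    intro w
    rw [ENNReal.ofReal_pow (norm_nonneg _), ofReal_norm]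
  have hfin : ∫⁻ w, ‖g w‖ₑ ^ 2 < ∞ := by
    rw [← conv]
    have := hgi.hasFiniteIntegral
    rwa [hasFiniteIntegral_iff_ofReal (Eventually.of_forall fun w => by positivity)] at this
  constructor
  · refine ⟨(hc.norm.pow 2).aestronglyMeasurable, ?_⟩
    rw [hasFiniteIntegral_iff_ofReal (Eventually.of_forall fun w => by positivity), conv, hP]
    exact hfin
  · have m1 : AEStronglyMeasurable (fun w => ‖𝓕 g w‖ ^ 2) volume :=
      (hc.norm.pow 2).aestronglyMeasurable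
    have p1 : 0 ≤ᵐ[volume] (fun w => ‖𝓕 g w‖ ^ 2) :=
      Eventually.of_forall fun w => sq_nonneg ‖𝓕 g w‖
    have p2 : 0 ≤ᵐ[volume] (fun w => ‖g w‖ ^ 2) :=
      Eventually.of_forall fun w => sq_nonneg ‖g w‖
    rw [integral_eq_lintegral_of_nonneg_ae p1 m1,
      integral_eq_lintegral_of_nonneg_ae p2 hgi.aestronglyMeasurable, conv, conv, hP]

end F03

theorem loc_planch : ∃ C : ℝ, 0 < C ∧ ∀ (f : ℝ → ℂ) (Y B b : ℝ), Measurable f →
    (∀ t, Y < |t| → f t = 0) → (∀ t, ‖f t‖ ≤ B) →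
    ∫ β in (b - 2)..(b + 2), ‖∫ t : ℝ, f t * Complex.exp (-((t * β : ℝ) : ℂ) * Complex.I)‖ ^ 2 ≤
      C * ∫ t : ℝ, ‖f t‖ ^ 2 := by
  refine ⟨2 * Real.pi, by positivity, ?_⟩
  intro f Y B b hf hY hB
  have hsupp : ∀ t, t ∉ Set.Icc (-Y) Y → f t = 0 := by
    intro t ht
    apply hY
    by_contra hcon
    exact ht (abs_le.mp (not_lt.mp hcon))
  have hfI : Integrable f := by
    have h1 : IntegrableOn f (Set.Icc (-Y) Y) := by
      refine Measure.integrableOn_of_bounded (M := B) (by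
        rw [Real.volume_Icc]; exact ENNReal.ofReal_ne_top) hf.aestronglyMeasurable ?_
      exact Eventually.of_forall hB
    exact h1.integrable_of_forall_notMem_eq_zero hsupp
  have hf2 : Integrable (fun t => ‖f t‖ ^ 2) := by
    have h1 : IntegrableOn (fun t => ‖f t‖ ^ 2) (Set.Icc (-Y) Y) := by
      refine Measure.integrableOn_of_bounded (M := B ^ 2) (by
        rw [Real.volume_Icc]; exact ENNReal.ofReal_ne_top)
        (hf.norm.pow_const 2).aestronglyMeasurable ?_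
      refine Eventually.of_forall fun t => ?_
      rw [Real.norm_of_nonneg (by positivity)]
      exact pow_le_pow_left₀ (norm_nonneg _) (hB t) 2
    exact h1.integrable_of_forall_notMem_eq_zero (fun t ht => by rw [hsupp t ht]; simp)
  have hL2 : MemLp f 2 := (memLp_two_iff_integrable_sq_norm hf.aestronglyMeasurable).2 hf2
  obtain ⟨hPi, hPe⟩ := F03_plancherel' f hfI hL2
  have key : ∀ β : ℝ, (∫ t : ℝ, f t * Complex.exp (-((t * β : ℝ) : ℂ) * Complex.I)) =
      FourierTransform.fourier f ((2 * Real.pi)⁻¹ * β) := by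
    intro β
    rw [Real.fourier_eq']
    apply integral_congr_ae
    refine Eventually.of_forall fun t => ?_
    simp only [smul_eq_mul]
    rw [mul_comm]
    congr 2
    have h1 : (-2 * Real.pi * inner ℝ t ((2 * Real.pi)⁻¹ * β)) = -(t * β) := by
      have h2 : inner ℝ t ((2 * Real.pi)⁻¹ * β) = (2 * Real.pi)⁻¹ * β * t := by
        simp [inner]
      rw [h2]
      have : Real.pi ≠ 0 := Real.pi_ne_zero
      field_simp
    rw [h1]
    push_cast
    ring
  have hint : Integrable (fun β : ℝ =>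
      ‖FourierTransform.fourier f ((2 * Real.pi)⁻¹ * β)‖ ^ 2) :=
    hPi.comp_mul_left' (by positivity)
  simp_rw [key]
  rw [intervalIntegral.integral_of_le (by linarith)]
  calc ∫ β in Set.Ioc (b - 2) (b + 2), ‖FourierTransform.fourier f ((2 * Real.pi)⁻¹ * β)‖ ^ 2
      ≤ ∫ β : ℝ, ‖FourierTransform.fourier f ((2 * Real.pi)⁻¹ * β)‖ ^ 2 :=
        setIntegral_le_integral hint (Eventually.of_forall fun β => by positivity)
    _ = 2 * Real.pi * ∫ t : ℝ, ‖f t‖ ^ 2 := by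
        rw [Measure.integral_comp_mul_left
          (fun w => ‖FourierTransform.fourier f w‖ ^ 2) ((2 * Real.pi)⁻¹), hPe]
        rw [inv_inv, abs_of_pos (by positivity), smul_eq_mul]

end BP4
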