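import Pool.Agent.LibBP4.Ext

/-!
TASK F04.  Energy of `QQ` against the Fejér kernel: `x_window_plancherel` with `s = prm (aM/2) (2aM)`,
coefficients `1`.  The integrand on the left is `N(y)²`, `N(y)` the number of `q ∈ s` with
`y < log q ≤ y + h`; if `N(y) > 0` then `e^y < 2aM` and the window `(e^y, e^{y+h}]` has length
`≤ 2aM (e^h - 1) ≤ 4aMh`, so `N(y) ≤ 1 + 4aMh`; and `∫ N(y) dy = h · #s ≤ h · 2aM`.
-/

open MeasureTheory Finset Filter
open scoped Topology

namespace BP4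

open MR57 (tw DP trap SW wh ES IsCM Grep)

theorem F04_card_window (s : Finset ℕ) (X y h : ℝ) (hs : ∀ n ∈ s, 1 ≤ n ∧ (n : ℝ) ≤ X)
    (hX : 0 ≤ X) (hh : 0 < h) (hh1 : h ≤ 1) :
    (((s.filter (fun n : ℕ => y < Real.log n ∧ Real.log n ≤ y + h)).card : ℕ) : ℝ) ≤
      1 + 2 * X * h := by
  set t := s.filter (fun n : ℕ => y < Real.log n ∧ Real.log n ≤ y + h) with ht
  rcases t.eq_empty_or_nonempty with h0 | ⟨q, hq⟩
  · rw [h0]
    simp only [Finset.card_empty, Nat.cast_zero]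
    positivity
  · have hq' := Finset.mem_filter.mp hq
    obtain ⟨hq1, hqX⟩ := hs q hq'.1
    have hqpos : (0 : ℝ) < q := by exact_mod_cast hq1
    have hyq : Real.exp y < q := by
      rw [← Real.exp_log hqpos]
      exact Real.exp_lt_exp.mpr hq'.2.1
    have hsub : t ⊆ Finset.Ioc ⌊Real.exp y⌋₊ ⌊Real.exp (y + h)⌋₊ := by
      intro n hn
      have hn' := Finset.mem_filter.mp hn
      obtain ⟨hn1, _⟩ := hs n hn'.1
      have hnpos : (0 : ℝ) < n := by exact_mod_cast hn1
      rw [Finset.mem_Ioc]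
      constructor
      · rw [Nat.floor_lt (Real.exp_pos y).le]
        calc Real.exp y < Real.exp (Real.log n) := Real.exp_lt_exp.mpr hn'.2.1
          _ = n := Real.exp_log hnpos
      · apply Nat.le_floor
        calc (n : ℝ) = Real.exp (Real.log n) := (Real.exp_log hnpos).symm
          _ ≤ Real.exp (y + h) := Real.exp_le_exp.mpr hn'.2.2
    have hcard : t.card ≤ ⌊Real.exp (y + h)⌋₊ - ⌊Real.exp y⌋₊ := by
      refine (Finset.card_le_card hsub).trans ?_
      rw [Nat.card_Ioc]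
    have hfl : ⌊Real.exp y⌋₊ ≤ ⌊Real.exp (y + h)⌋₊ :=
      Nat.floor_le_floor (Real.exp_le_exp.mpr (by linarith))
    have h1 : (t.card : ℝ) ≤ (⌊Real.exp (y + h)⌋₊ : ℝ) - ⌊Real.exp y⌋₊ := by
      calc (t.card : ℝ) ≤ ((⌊Real.exp (y + h)⌋₊ - ⌊Real.exp y⌋₊ : ℕ) : ℝ) := by
            exact_mod_cast hcard
        _ = _ := by rw [Nat.cast_sub hfl]
    have h2 : (⌊Real.exp (y + h)⌋₊ : ℝ) ≤ Real.exp (y + h) :=
      Nat.floor_le (Real.exp_pos _).le
    have h3 : Real.exp y < (⌊Real.exp y⌋₊ : ℝ) + 1 := Nat.lt_floor_add_one _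
    have h4 : Real.exp (y + h) - Real.exp y = Real.exp y * (Real.exp h - 1) := by
      rw [Real.exp_add]; ring
    have h5 : Real.exp h - 1 ≤ 2 * h := by
      have := Real.abs_exp_sub_one_le (x := h) (by rw [abs_of_pos hh]; exact hh1)
      rw [abs_of_pos hh] at this
      exact (le_abs_self _).trans this
    have h6 : Real.exp y * (Real.exp h - 1) ≤ X * (2 * h) := by
      apply mul_le_mul (hyq.le.trans hqX) h5
      · have := Real.add_one_le_exp h
        linarith
      · exact hX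
    linarith

theorem F04_sum_ind (s : Finset ℕ) (h y : ℝ) :
    (((s.filter (fun n : ℕ => y < Real.log n ∧ Real.log n ≤ y + h)).card : ℕ) : ℝ) =
      ∑ n ∈ s, (Set.Ico (Real.log n - h) (Real.log n)).indicator (fun _ => (1 : ℝ)) y := by
  rw [Finset.card_filter]
  push_cast
  refine Finset.sum_congr rfl fun n _ => ?_
  by_cases hc : y < Real.log n ∧ Real.log n ≤ y + h
  · rw [if_pos hc, Set.indicator_of_mem]
    rw [Set.mem_Ico]
    exact ⟨by linarith [hc.2], hc.1⟩
  · rw [if_neg hc, Set.indicator_of_notMem]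
    rw [Set.mem_Ico]
    rintro ⟨h1, h2⟩
    exact hc ⟨h2, by linarith⟩

theorem F04_ind_integrable (h : ℝ) (n : ℕ) :
    Integrable ((Set.Ico (Real.log n - h) (Real.log n)).indicator (fun _ => (1 : ℝ))) := by
  rw [integrable_indicator_iff measurableSet_Ico]
  refine integrableOn_const ?_
  rw [Real.volume_Ico]; exact ENNReal.ofReal_ne_top

theorem q_energy (a M h : ℝ) (ha : 1 ≤ a) (hM : 2 ≤ M) (hh : 0 < h) (hh1 : h ≤ 1) :
    ∫ t : ℝ, ‖QQ a M t‖ ^ 2 * Kr h t ≤
      2 * Real.pi * (h * (2 * a * M) * (1 + 4 * a * M * h)) := by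
  set s := prm (a * M / 2) (2 * a * M) with hs
  have hX : (0 : ℝ) ≤ 2 * a * M := by positivity
  have hsm : ∀ n ∈ s, 1 ≤ n ∧ (n : ℝ) ≤ 2 * a * M := by
    intro n hn
    rw [hs, mem_prm (by positivity)] at hn
    exact ⟨hn.2.one_le, hn.1.2⟩
  have hcard : (s.card : ℝ) ≤ 2 * a * M := by
    have h1 : s.card ≤ ⌊2 * a * M⌋₊ := by
      rw [hs]
      unfold prm win
      refine (Finset.card_filter_le _ _).trans ?_
      rw [Nat.card_Ioc]
      exact Nat.sub_le _ _
    calc (s.card : ℝ) ≤ (⌊2 * a * M⌋₊ : ℝ) := by exact_mod_cast h1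
      _ ≤ 2 * a * M := Nat.floor_le hX
  have hP := x_window_plancherel s (fun _ => 1) hh
  have hint : ∫ t : ℝ, ‖QQ a M t‖ ^ 2 * Kr h t = 2 * Real.pi *
      ∫ y : ℝ, ‖∑ n ∈ s.filter (fun n : ℕ => y < Real.log n ∧ Real.log n ≤ y + h),
        (fun _ => (1 : ℂ)) n‖ ^ 2 := by
    rw [hP]
    have hpi : 2 * Real.pi * (1 / (2 * Real.pi)) = 1 :=
      mul_one_div_cancel (by positivity)
    rw [← mul_assoc, hpi, one_mul]
    rfl
  rw [hint]
  apply mul_le_mul_of_nonneg_left _ (by positivity)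
  have hN : ∀ y : ℝ, ‖∑ n ∈ s.filter (fun n : ℕ => y < Real.log n ∧ Real.log n ≤ y + h),
        (fun _ => (1 : ℂ)) n‖ ^ 2 ≤ (1 + 4 * a * M * h) *
        ∑ n ∈ s, (Set.Ico (Real.log n - h) (Real.log n)).indicator (fun _ => (1 : ℝ)) y := by
    intro y
    have e1 : ‖∑ n ∈ s.filter (fun n : ℕ => y < Real.log n ∧ Real.log n ≤ y + h),
        (fun _ => (1 : ℂ)) n‖ =
        ((s.filter (fun n : ℕ => y < Real.log n ∧ Real.log n ≤ y + h)).card : ℝ) := by
      simp
    rw [e1, ← F04_sum_ind, sq]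
    apply mul_le_mul_of_nonneg_right _ (Nat.cast_nonneg _)
    have := F04_card_window s (2 * a * M) y h hsm hX hh hh1
    linarith
  have hgi : Integrable (fun y : ℝ => (1 + 4 * a * M * h) *
        ∑ n ∈ s, (Set.Ico (Real.log n - h) (Real.log n)).indicator (fun _ => (1 : ℝ)) y) :=
    (integrable_finsetSum _ fun n _ => F04_ind_integrable h n).const_mul _
  refine (integral_mono_of_nonneg (Eventually.of_forall fun y => by positivity) hgi
    (Eventually.of_forall hN)).trans ?_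
  rw [integral_const_mul, integral_finsetSum _ fun n _ => F04_ind_integrable h n]
  have e2 : ∀ n ∈ s, ∫ y : ℝ, (Set.Ico (Real.log n - h) (Real.log n)).indicator
      (fun _ => (1 : ℝ)) y = h := by
    intro n _
    rw [integral_indicator measurableSet_Ico, setIntegral_const, smul_eq_mul, mul_one,
      Real.volume_real_Ico_of_le (by linarith)]
    ring
  rw [Finset.sum_congr rfl e2, Finset.sum_const, nsmul_eq_mul]
  have h7 : 0 ≤ (1 + 4 * a * M * h) * h := by positivity
  calc (1 + 4 * a * M * h) * ((s.card : ℝ) * h) = (s.card : ℝ) * ((1 + 4 * a * M * h) * h) := by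
        ring
    _ ≤ (2 * a * M) * ((1 + 4 * a * M * h) * h) := mul_le_mul_of_nonneg_right hcard h7
    _ = h * (2 * a * M) * (1 + 4 * a * M * h) := by ring

end BP4
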