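import Pool.Agent.LibBP4.F02
import Pool.Agent.LibBP4.F03
import Pool.Agent.LibBP4.F04

/-!
TASK F05.  The mean square of the part where `PP` is small.  `h = 1/(n a M)`.  Apply `loc_planch` to
`f = 1_S κ PP conj(QQ)`; `‖f‖² ≤ |κ| λ² ‖QQ‖²` (as `|κ| ≤ 1`, `κ(t) = Kr h t/h² - Kr w t/w²`), and
`|κ| ≤ Kr h t/h² + Kr w t/w²`, so `∫ ‖f‖² ≤ λ² (2π 2aM (1+4aMh)/h + 2π 2aM(1+4aMw)/w) ≤ C λ² M²` by
`q_energy`.
-/

open MeasureTheory Finset Filter
open scoped Topology

namespace BP4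

open MR57 (tw DP trap SW wh ES IsCM Grep)

theorem F05_cont_DP (s : Finset ℕ) (a : ℕ → ℂ) : Continuous (fun t => DP s a t) := by
  unfold MR57.DP MR57.tw
  fun_prop

theorem F05_cont_PP (δ M : ℝ) : Continuous (fun t => PP δ M t) := by
  unfold PP
  exact F05_cont_DP _ _

theorem F05_cont_QQ (a M : ℝ) : Continuous (fun t => QQ a M t) := by
  unfold QQ
  exact F05_cont_DP _ _

theorem F05_norm_PP_le (δ M t : ℝ) : ‖PP δ M t‖ ≤ (prm M ((1 + δ) * M)).card := by
  unfold PP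
  exact norm_DP_le _ _ t (fun n _ => by simp)

theorem F05_norm_QQ_le (a M t : ℝ) : ‖QQ a M t‖ ≤ (prm (a * M / 2) (2 * a * M)).card := by
  unfold QQ
  exact norm_DP_le _ _ t (fun n _ => by simp)

theorem F05_energy_integrable (a M : ℝ) {h : ℝ} (hh : 0 < h) :
    Integrable (fun t : ℝ => ‖QQ a M t‖ ^ 2 * Kr h t) := by
  have i1 : Integrable (fun t : ℝ => Kr h t) := x_fejer_integrable hh
  have hc : Continuous (fun t : ℝ => ‖QQ a M t‖ ^ 2) := (F05_cont_QQ a M).norm.pow 2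
  refine (i1.norm.const_mul (((prm (a * M / 2) (2 * a * M)).card : ℝ) ^ 2)).mono
    (hc.aestronglyMeasurable.mul i1.aestronglyMeasurable) ?_
  refine Eventually.of_forall fun t => ?_
  rw [norm_mul, norm_mul, norm_norm, Real.norm_of_nonneg (by positivity : (0:ℝ) ≤ ‖QQ a M t‖ ^ 2),
    Real.norm_of_nonneg (by positivity : (0:ℝ) ≤ ((prm (a * M / 2) (2 * a * M)).card : ℝ) ^ 2)]
  apply mul_le_mul_of_nonneg_right _ (norm_nonneg _)
  exact pow_le_pow_left₀ (norm_nonneg _) (F05_norm_QQ_le a M t) 2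

theorem F05_ka_abs_le_add (h w t : ℝ) :
    |F02_ka h w t| ≤ Kr h t / h ^ 2 + Kr w t / w ^ 2 := by
  have h1 := F02_frac_nonneg h t
  have h2 := F02_frac_nonneg w t
  unfold F02_ka
  rw [abs_le]
  constructor <;> linarith

theorem F05_ka_measurable (h w : ℝ) : Measurable (fun t => F02_ka h w t) := by
  unfold F02_ka Kr
  fun_prop

theorem rem_l2 (a n w : ℝ) (ha : 1 ≤ a) (hn : 1 ≤ n) (hw : 0 < w) (hw1 : w ≤ 1) :
    ∃ C : ℝ, 0 < C ∧ ∀ (δ M b lam : ℝ) (S : Set ℝ), 0 < δ → δ ≤ 1 → 2 ≤ M → MeasurableSet S →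
    (∀ t ∈ S, |t| ≤ M ^ 3 ∧ ‖PP δ M t‖ ≤ lam) →
    ∫ β in (b - 2)..(b + 2), ‖∫ t in S, ((Kr (1 / (n * a * M)) t / (1 / (n * a * M)) ^ 2 -
        Kr w t / w ^ 2 : ℝ) : ℂ) * (Complex.exp (-((t * β : ℝ) : ℂ) * Complex.I) * PP δ M t *
        (starRingEnd ℂ) (QQ a M t))‖ ^ 2 ≤ C * lam ^ 2 * M ^ 2 := by
  obtain ⟨C₀, hC₀, hLP⟩ := loc_planch
  refine ⟨C₀ * (20 * Real.pi * n * a ^ 2 + 4 * Real.pi * a * (1 + 4 * a * w) / w),
    by positivity, ?_⟩
  intro δ M b lam S hδ hδ1 hM hS hSt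
  set h : ℝ := 1 / (n * a * M) with hh
  have hh0 : 0 < h := by rw [hh]; positivity
  have hnaM : 1 ≤ n * a * M := by
    have h1 : 1 ≤ n * a := by nlinarith
    nlinarith
  have hh1 : h ≤ 1 := by
    rw [hh, div_le_one (by positivity)]; exact hnaM
  -- the function
  set f : ℝ → ℂ := S.indicator (fun t => ((F02_ka h w t : ℝ) : ℂ) *
    (PP δ M t * (starRingEnd ℂ) (QQ a M t))) with hf
  have hfm : Measurable f := by
    apply Measurable.indicator _ hS
    exact (Complex.measurable_ofReal.comp (F05_ka_measurable h w)).mul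
      ((F05_cont_PP δ M).measurable.mul
        (Complex.continuous_conj.comp (F05_cont_QQ a M)).measurable)
  have hnorm : ∀ t ∈ S, ‖f t‖ = |F02_ka h w t| * (‖PP δ M t‖ * ‖QQ a M t‖) := by
    intro t ht
    rw [hf, Set.indicator_of_mem ht, norm_mul, Complex.norm_real, Real.norm_eq_abs, norm_mul,
      RCLike.norm_conj]
  have hoff : ∀ t, t ∉ S → f t = 0 := fun t ht => Set.indicator_of_notMem ht _
  have hrew : ∀ β : ℝ, (∫ t in S, ((Kr h t / h ^ 2 -
        Kr w t / w ^ 2 : ℝ) : ℂ) * (Complex.exp (-((t * β : ℝ) : ℂ) * Complex.I) * PP δ M t *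
        (starRingEnd ℂ) (QQ a M t))) =
      ∫ t : ℝ, f t * Complex.exp (-((t * β : ℝ) : ℂ) * Complex.I) := by
    intro β
    rw [← integral_indicator hS]
    congr 1
    funext t
    by_cases ht : t ∈ S
    · rw [Set.indicator_of_mem ht, hf, Set.indicator_of_mem ht]
      unfold F02_ka
      ring
    · rw [Set.indicator_of_notMem ht, hoff t ht, zero_mul]
  simp_rw [hrew]
  have hw' : 0 < w := hw
  refine (hLP f (M ^ 3) (((prm M ((1 + δ) * M)).card : ℝ) *
    ((prm (a * M / 2) (2 * a * M)).card : ℝ)) b hfm ?_ ?_).trans ?_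
  · intro t ht
    apply hoff
    intro htS
    exact absurd (hSt t htS).1 (not_le.mpr ht)
  · intro t
    by_cases ht : t ∈ S
    · rw [hnorm t ht]
      calc |F02_ka h w t| * (‖PP δ M t‖ * ‖QQ a M t‖) ≤ 1 * (‖PP δ M t‖ * ‖QQ a M t‖) :=
            mul_le_mul_of_nonneg_right (F02_ka_abs_le_one hh0 hw t) (by positivity)
        _ = ‖PP δ M t‖ * ‖QQ a M t‖ := one_mul _
        _ ≤ _ := mul_le_mul (F05_norm_PP_le δ M t) (F05_norm_QQ_le a M t) (norm_nonneg _)
            (Nat.cast_nonneg _)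
    · rw [hoff t ht, norm_zero]
      positivity
  · -- the mean square of `f`
    set g : ℝ → ℝ := fun t => lam ^ 2 * (1 / h ^ 2) * (‖QQ a M t‖ ^ 2 * Kr h t) +
      lam ^ 2 * (1 / w ^ 2) * (‖QQ a M t‖ ^ 2 * Kr w t) with hg
    have gi1 : Integrable (fun t => lam ^ 2 * (1 / h ^ 2) * (‖QQ a M t‖ ^ 2 * Kr h t)) :=
      (F05_energy_integrable a M hh0).const_mul _
    have gi2 : Integrable (fun t => lam ^ 2 * (1 / w ^ 2) * (‖QQ a M t‖ ^ 2 * Kr w t)) :=
      (F05_energy_integrable a M hw).const_mul _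
    have hfg : ∀ t, ‖f t‖ ^ 2 ≤ g t := by
      intro t
      have k1 := F02_frac_nonneg h t
      have k2 := F02_frac_nonneg w t
      have e1 : g t = lam ^ 2 * ‖QQ a M t‖ ^ 2 * (Kr h t / h ^ 2 + Kr w t / w ^ 2) := by
        rw [hg]; ring
      rw [e1]
      by_cases ht : t ∈ S
      · rw [hnorm t ht]
        have hP : ‖PP δ M t‖ ^ 2 ≤ lam ^ 2 := pow_le_pow_left₀ (norm_nonneg _) (hSt t ht).2 2
        have hk : |F02_ka h w t| ^ 2 ≤ Kr h t / h ^ 2 + Kr w t / w ^ 2 := by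
          have a1 := F02_ka_abs_le_one hh0 hw t
          have a2 := F05_ka_abs_le_add h w t
          have a3 := abs_nonneg (F02_ka h w t)
          calc |F02_ka h w t| ^ 2 = |F02_ka h w t| * |F02_ka h w t| := sq _
            _ ≤ 1 * |F02_ka h w t| := mul_le_mul_of_nonneg_right a1 a3
            _ ≤ _ := by rw [one_mul]; exact a2
        calc (|F02_ka h w t| * (‖PP δ M t‖ * ‖QQ a M t‖)) ^ 2
            = |F02_ka h w t| ^ 2 * (‖PP δ M t‖ ^ 2 * ‖QQ a M t‖ ^ 2) := by ring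
          _ ≤ (Kr h t / h ^ 2 + Kr w t / w ^ 2) * (lam ^ 2 * ‖QQ a M t‖ ^ 2) := by
              apply mul_le_mul hk (mul_le_mul_of_nonneg_right hP (by positivity)) (by positivity)
                (by positivity)
          _ = _ := by ring
      · rw [hoff t ht, norm_zero]
        have : 0 ≤ lam ^ 2 * ‖QQ a M t‖ ^ 2 := by positivity
        have h3 : 0 ≤ lam ^ 2 * ‖QQ a M t‖ ^ 2 * (Kr h t / h ^ 2 + Kr w t / w ^ 2) :=
          mul_nonneg this (by linarith)
        simpa using h3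
    have hint : ∫ t, ‖f t‖ ^ 2 ≤ ∫ t, g t :=
      integral_mono_of_nonneg (Eventually.of_forall fun t => by positivity) (gi1.add gi2)
        (Eventually.of_forall hfg)
    have hgint : ∫ t, g t ≤ lam ^ 2 * (1 / h ^ 2) *
          (2 * Real.pi * (h * (2 * a * M) * (1 + 4 * a * M * h))) +
        lam ^ 2 * (1 / w ^ 2) * (2 * Real.pi * (w * (2 * a * M) * (1 + 4 * a * M * w))) := by
      rw [hg, integral_add gi1 gi2, integral_const_mul, integral_const_mul]
      apply add_le_add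
      · exact mul_le_mul_of_nonneg_left (q_energy a M h ha hM hh0 hh1) (by positivity)
      · exact mul_le_mul_of_nonneg_left (q_energy a M w ha hM hw hw1) (by positivity)
    have t1 : lam ^ 2 * (1 / h ^ 2) *
          (2 * Real.pi * (h * (2 * a * M) * (1 + 4 * a * M * h))) ≤
          lam ^ 2 * (20 * Real.pi * n * a ^ 2 * M ^ 2) := by
      have e2 : lam ^ 2 * (1 / h ^ 2) * (2 * Real.pi * (h * (2 * a * M) * (1 + 4 * a * M * h))) =
          lam ^ 2 * (4 * Real.pi * n * a ^ 2 * M ^ 2 * (1 + 4 / n)) := by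
        rw [hh]
        have : n ≠ 0 := by positivity
        have : a ≠ 0 := by positivity
        have : M ≠ 0 := by positivity
        field_simp
        ring
      rw [e2]
      apply mul_le_mul_of_nonneg_left _ (sq_nonneg _)
      have h4 : 4 / n ≤ 4 := by
        rw [div_le_iff₀ (by linarith)]; linarith
      have h5 : 0 ≤ 4 * Real.pi * n * a ^ 2 * M ^ 2 := by positivity
      nlinarith
    have t2 : lam ^ 2 * (1 / w ^ 2) * (2 * Real.pi * (w * (2 * a * M) * (1 + 4 * a * M * w))) ≤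
        lam ^ 2 * (4 * Real.pi * a * (1 + 4 * a * w) / w * M ^ 2) := by
      have e2 : lam ^ 2 * (1 / w ^ 2) * (2 * Real.pi * (w * (2 * a * M) * (1 + 4 * a * M * w))) =
          lam ^ 2 * (4 * Real.pi * a / w * (M * (1 + 4 * a * M * w))) := by
        field_simp
        ring
      rw [e2]
      apply mul_le_mul_of_nonneg_left _ (sq_nonneg _)
      have h5 : 0 ≤ 4 * Real.pi * a / w := by positivity
      have h6 : M * (1 + 4 * a * M * w) ≤ (1 + 4 * a * w) * M ^ 2 := by nlinarith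
      calc 4 * Real.pi * a / w * (M * (1 + 4 * a * M * w)) ≤
            4 * Real.pi * a / w * ((1 + 4 * a * w) * M ^ 2) := mul_le_mul_of_nonneg_left h6 h5
        _ = _ := by ring
    calc C₀ * ∫ t, ‖f t‖ ^ 2 ≤ C₀ * (lam ^ 2 * (20 * Real.pi * n * a ^ 2 * M ^ 2) +
          lam ^ 2 * (4 * Real.pi * a * (1 + 4 * a * w) / w * M ^ 2)) := by
          apply mul_le_mul_of_nonneg_left _ hC₀.le
          linarith
      _ = _ := by ring

end BP4
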