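import Pool.Agent.LibBP4.Defs

/-!
TASK F06.  `FF` is Lipschitz in `β`: each summand is 1-Lipschitz, and there are at most
`((1+δ)M)(2aM)` pairs.
-/

open MeasureTheory Finset Filter
open scoped Topology

namespace BP4

open MR57 (tw DP trap SW wh ES IsCM Grep)

theorem F06_card_prm_le {x y : ℝ} (hy : 0 ≤ y) : ((prm x y).card : ℝ) ≤ y := by
  have h1 : (prm x y).card ≤ ⌊y⌋₊ := by
    unfold prm win
    refine (Finset.card_filter_le _ _).trans ?_
    rw [Nat.card_Ioc]
    exact Nat.sub_le _ _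
  calc ((prm x y).card : ℝ) ≤ (⌊y⌋₊ : ℝ) := by exact_mod_cast h1
    _ ≤ y := Nat.floor_le hy

theorem F06_lip (h u v : ℝ) : |max 0 (h - |u|) - max 0 (h - |v|)| ≤ |u - v| := by
  have h1 : |max 0 (h - |u|) - max 0 (h - |v|)| ≤ |(h - |u|) - (h - |v|)| := by
    have := abs_max_sub_max_le_abs (h - |u|) (h - |v|) 0
    rwa [max_comm (h - |u|), max_comm (h - |v|)] at this
  refine h1.trans ?_
  have h2 : (h - |u|) - (h - |v|) = |v| - |u| := by ring
  rw [h2, abs_sub_comm]
  exact abs_abs_sub_abs_le_abs_sub u v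

theorem FF_lip (δ a M h : ℝ) (hδ : 0 ≤ δ) (ha : 0 ≤ a) (hM : 0 ≤ M) (β β' : ℝ) :
    |FF δ a M h β - FF δ a M h β'| ≤ ((1 + δ) * M) * (2 * a * M) * |β - β'| := by
  unfold FF
  rw [← Finset.sum_sub_distrib]
  have hin : ∀ p ∈ prm M ((1 + δ) * M),
      |∑ q ∈ prm (a * M / 2) (2 * a * M), max 0 (h - |β + Real.log p - Real.log q|) -
        ∑ q ∈ prm (a * M / 2) (2 * a * M), max 0 (h - |β' + Real.log p - Real.log q|)| ≤
      (2 * a * M) * |β - β'| := by
    intro p _
    rw [← Finset.sum_sub_distrib]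
    refine (Finset.abs_sum_le_sum_abs _ _).trans ?_
    have : ∀ q ∈ prm (a * M / 2) (2 * a * M),
        |max 0 (h - |β + Real.log p - Real.log q|) -
          max 0 (h - |β' + Real.log p - Real.log q|)| ≤ |β - β'| := by
      intro q _
      refine (F06_lip _ _ _).trans (le_of_eq ?_)
      congr 1
      ring
    refine (Finset.sum_le_sum this).trans ?_
    rw [Finset.sum_const, nsmul_eq_mul]
    have h1 : ((prm (a * M / 2) (2 * a * M)).card : ℝ) ≤ 2 * a * M :=
      F06_card_prm_le (by positivity)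
    exact mul_le_mul_of_nonneg_right h1 (abs_nonneg _)
  refine (Finset.abs_sum_le_sum_abs _ _).trans ?_
  refine (Finset.sum_le_sum hin).trans ?_
  rw [Finset.sum_const, nsmul_eq_mul, mul_assoc ((1 + δ) * M)]
  have h1 : ((prm M ((1 + δ) * M)).card : ℝ) ≤ (1 + δ) * M := F06_card_prm_le (by positivity)
  have h2 : 0 ≤ 2 * a * M * |β - β'| := by positivity
  exact mul_le_mul_of_nonneg_right h1 h2

end BP4
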