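import Pool.Agent.LibBP4.Ext

/-!
TASK L01.  Large values of the prime polynomial are sparse.  `PP³ = DP (Icc 1 N) (coefficients)` with
`N = ⌊8M³⌋₊` by `x_pow_mul_DP` (`g = 1`, `l = 3`, second factor `{1}`); the coefficients are
`Grep ≤ 6` (ordered triples of primes with given product), so `∑ |coeff|² ≤ 36·8M³`.  `x_mvt_disc` with `X = M³`:
`∑_T ‖PP‖⁶ ≤ C (9M³)(1 + log(8M³)) 288 M³ ≤ C' M⁶ log M`.  Hence `|T| M^{6-6c₁} ≤ C' M⁶ log M`, take
`c₁ = min 1 (c/7)`.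
-/

open MeasureTheory Finset Filter
open scoped Topology

namespace BP4

open MR57 (tw DP trap SW wh ES IsCM Grep)

theorem L01_isCM : IsCM (fun _ : ℕ => (1 : ℂ)) where
  one := rfl
  mul := by
    intro m n _ _
    norm_num
  le := by
    intro n
    norm_num

theorem L01_DP_one (t : ℝ) : DP ({1} : Finset ℕ) (fun _ => 1) t = 1 := by
  unfold MR57.DP MR57.tw
  simp

/-- Ordered triples of primes with a given product: at most nine. -/
theorem L01_grep (I : Finset ℕ) (hI : ∀ p ∈ I, p.Prime) (n : ℕ) : Grep I 3 {1} n ≤ 9 := by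
  unfold MR57.Grep
  set F := ((Fintype.piFinset fun _ : Fin 3 => I) ×ˢ ({1} : Finset ℕ)).filter
    (fun x : (Fin 3 → ℕ) × ℕ => (∏ i, x.1 i) * x.2 = n) with hF
  have hmem : ∀ x ∈ F, (∀ i, (x.1 i).Prime) ∧ x.2 = 1 ∧ x.1 0 * x.1 1 * x.1 2 = n := by
    intro x hx
    rw [hF, mem_filter, mem_product, Fintype.mem_piFinset, mem_singleton] at hx
    obtain ⟨⟨h1, h2⟩, h3⟩ := hx
    refine ⟨fun i => hI _ (h1 i), h2, ?_⟩
    rw [h2, mul_one, Fin.prod_univ_three] at h3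
    exact h3
  rcases F.eq_empty_or_nonempty with hE | ⟨y, hy⟩
  · rw [hE]
    simp
  · obtain ⟨hyp, -, hyn⟩ := hmem y hy
    have hy0 := (hyp 0).ne_zero
    have hy1 := (hyp 1).ne_zero
    have hy2 := (hyp 2).ne_zero
    have hn0 : n ≠ 0 := by
      rw [← hyn]
      exact mul_ne_zero (mul_ne_zero hy0 hy1) hy2
    set P : Finset ℕ := {y.1 0, y.1 1, y.1 2} with hP
    have hPc : P.card ≤ 3 := by
      rw [hP]
      exact Finset.card_le_three
    have hin : ∀ q : ℕ, q.Prime → q ∣ n → q ∈ P := by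
      intro q hq hqn
      rw [← hyn, hq.dvd_mul, hq.dvd_mul] at hqn
      rw [hP]
      rcases hqn with (h | h) | h
      · rw [(Nat.prime_dvd_prime_iff_eq hq (hyp 0)).1 h]
        simp
      · rw [(Nat.prime_dvd_prime_iff_eq hq (hyp 1)).1 h]
        simp
      · rw [(Nat.prime_dvd_prime_iff_eq hq (hyp 2)).1 h]
        simp
    have hcard : F.card ≤ (P ×ˢ P).card := by
      apply Finset.card_le_card_of_injOn (fun x : (Fin 3 → ℕ) × ℕ => (x.1 0, x.1 1))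
      · intro x hx
        obtain ⟨h1, -, h3⟩ := hmem x hx
        simp only [coe_product, Set.mem_prod, mem_coe]
        refine ⟨hin _ (h1 0) ?_, hin _ (h1 1) ?_⟩
        · rw [← h3, mul_assoc]
          exact dvd_mul_right _ _
        · rw [← h3]
          exact (dvd_mul_left _ _).mul_right _
      · intro x hx x' hx' hxx
        obtain ⟨h1, h2, h3⟩ := hmem x hx
        obtain ⟨h1', h2', h3'⟩ := hmem x' hx'
        simp only [Prod.mk.injEq] at hxx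
        obtain ⟨e0, e1⟩ := hxx
        have e2 : x.1 2 = x'.1 2 := by
          have : x.1 0 * x.1 1 * x.1 2 = x.1 0 * x.1 1 * x'.1 2 := by
            rw [h3, e0, e1, h3']
          exact Nat.eq_of_mul_eq_mul_left
            (Nat.mul_pos (h1 0).pos (h1 1).pos) this
        apply Prod.ext
        · funext i
          fin_cases i
          · exact e0
          · exact e1
          · exact e2
        · rw [h2, h2']
    refine hcard.trans ?_
    rw [card_product]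
    calc P.card * P.card ≤ 3 * 3 := Nat.mul_le_mul hPc hPc
      _ = 9 := by norm_num

/-- The third power of the prime polynomial is a Dirichlet polynomial. -/
theorem L01_cube (δ M t : ℝ) (hδ : 0 < δ) (hδ1 : δ ≤ 1) (hM : 1 ≤ M) :
    PP δ M t ^ 3 = DP (Icc 1 ⌊8 * M ^ 3⌋₊)
      (fun n => 1 * (Grep (prm M ((1 + δ) * M)) 3 {1} n : ℂ)) t := by
  have hM0 : (0 : ℝ) ≤ M := by linarith
  have h := x_pow_mul_DP L01_isCM (prm M ((1 + δ) * M)) {1} (Icc 1 ⌊8 * M ^ 3⌋₊)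
    (fun p hp => ((mem_prm hM0).1 hp).2)
    (fun m hm => by rw [mem_singleton] at hm; omega) 3 (by
      intro x hx
      rw [mem_product, Fintype.mem_piFinset, mem_singleton] at hx
      obtain ⟨h1, h2⟩ := hx
      rw [h2, mul_one, Fin.prod_univ_three, mem_Icc]
      have hp : ∀ i, (1 : ℕ) ≤ x.1 i ∧ ((x.1 i : ℕ) : ℝ) ≤ 2 * M := by
        intro i
        obtain ⟨⟨-, h3⟩, h4⟩ := (mem_prm hM0).1 (h1 i)
        refine ⟨h4.one_lt.le, h3.trans ?_⟩
        nlinarith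
      constructor
      · calc 1 = 1 * 1 * 1 := by norm_num
          _ ≤ x.1 0 * x.1 1 * x.1 2 :=
            Nat.mul_le_mul (Nat.mul_le_mul (hp 0).1 (hp 1).1) (hp 2).1
      · apply Nat.le_floor
        push_cast
        have g0 : (0 : ℝ) ≤ (x.1 0 : ℝ) := Nat.cast_nonneg _
        have g1 : (0 : ℝ) ≤ (x.1 1 : ℝ) := Nat.cast_nonneg _
        have g2 : (0 : ℝ) ≤ (x.1 2 : ℝ) := Nat.cast_nonneg _
        calc (x.1 0 : ℝ) * (x.1 1 : ℝ) * (x.1 2 : ℝ) ≤ (2 * M) * (2 * M) * (2 * M) :=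
              mul_le_mul (mul_le_mul (hp 0).2 (hp 1).2 g1 (by positivity)) (hp 2).2 g2
                (by positivity)
          _ = 8 * M ^ 3 := by ring) t
  rw [L01_DP_one, mul_one] at h
  exact h

theorem large_values (c : ℝ) (hc : 0 < c) : ∃ c₁ : ℝ, 0 < c₁ ∧ c₁ ≤ 1 ∧ ∀ δ : ℝ, 0 < δ → δ ≤ 1 →
    ∃ M₀ : ℝ, 2 ≤ M₀ ∧ ∀ (M : ℝ) (T : Finset ℝ), M₀ ≤ M → MR57.Sep (M ^ 3) T →
    (∀ t ∈ T, M ^ (1 - c₁) ≤ ‖PP δ M t‖) → (T.card : ℝ) ≤ M ^ c := by
  obtain ⟨C, hC, hmv⟩ := x_mvt_disc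
  refine ⟨min 1 (c / 7), lt_min one_pos (by positivity), min_le_left _ _, ?_⟩
  intro δ hδ hδ1
  -- the size condition
  have hev : ∀ᶠ M : ℝ in atTop, C * 9 * (81 * 8) * (7 * Real.log M) ≤ M ^ (c / 7) := by
    have h1 := (isLittleO_log_rpow_atTop (show 0 < c / 7 by positivity)).bound
      (show 0 < 1 / (C * 9 * (81 * 8) * 7) by positivity)
    filter_upwards [h1, eventually_ge_atTop (1 : ℝ)] with M h2 hM
    have hl : 0 ≤ Real.log M := Real.log_nonneg hM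
    have hr : 0 ≤ M ^ (c / 7) := Real.rpow_nonneg (by linarith) _
    rw [Real.norm_of_nonneg hl, Real.norm_of_nonneg hr] at h2
    have h3 := mul_le_mul_of_nonneg_left h2 (show 0 ≤ C * 9 * (81 * 8) * 7 by positivity)
    have h4 : C * 9 * (81 * 8) * 7 * (1 / (C * 9 * (81 * 8) * 7) * M ^ (c / 7)) = M ^ (c / 7) := by
      field_simp
    rw [h4] at h3
    linarith
  obtain ⟨M₁, hM₁⟩ := Filter.eventually_atTop.1 hev
  refine ⟨max M₁ 8, le_max_of_le_right (by norm_num), ?_⟩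
  intro M T hM hT hlarge
  have hMM₁ : M₁ ≤ M := (le_max_left _ _).trans hM
  have hM8 : 8 ≤ M := (le_max_right _ _).trans hM
  have hM0 : 0 < M := by linarith
  have hM1 : 1 ≤ M := by linarith
  have hsize := hM₁ M hMM₁
  set c₁ : ℝ := min 1 (c / 7) with hc₁
  have hc₁7 : c₁ ≤ c / 7 := min_le_right _ _
  -- the mean value theorem
  have hX : (1 : ℝ) ≤ M ^ 3 := one_le_pow₀ hM1
  have hN1 : 1 ≤ ⌊8 * M ^ 3⌋₊ := by
    apply Nat.le_floor
    push_cast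
    linarith
  have hNle : ((⌊8 * M ^ 3⌋₊ : ℕ) : ℝ) ≤ 8 * M ^ 3 := Nat.floor_le (by positivity)
  have h1 := hmv ⌊8 * M ^ 3⌋₊ (Icc 1 ⌊8 * M ^ 3⌋₊)
    (fun n => 1 * (Grep (prm M ((1 + δ) * M)) 3 {1} n : ℂ)) (M ^ 3) T hN1 (Finset.Subset.refl _)
    hX hT
  have h2 : ∑ n ∈ Icc 1 ⌊8 * M ^ 3⌋₊, ‖1 * (Grep (prm M ((1 + δ) * M)) 3 {1} n : ℂ)‖ ^ 2 ≤
      81 * (8 * M ^ 3) := by
    calc ∑ n ∈ Icc 1 ⌊8 * M ^ 3⌋₊, ‖1 * (Grep (prm M ((1 + δ) * M)) 3 {1} n : ℂ)‖ ^ 2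
        ≤ ∑ _n ∈ Icc 1 ⌊8 * M ^ 3⌋₊, (81 : ℝ) := by
          apply sum_le_sum
          intro n _
          rw [one_mul, Complex.norm_natCast]
          have h3 : (Grep (prm M ((1 + δ) * M)) 3 {1} n : ℝ) ≤ 9 := by
            exact_mod_cast L01_grep _ (fun p hp => ((mem_prm hM0.le).1 hp).2) n
          have h4 : (0 : ℝ) ≤ (Grep (prm M ((1 + δ) * M)) 3 {1} n : ℝ) := Nat.cast_nonneg _
          nlinarith
      _ = (⌊8 * M ^ 3⌋₊ : ℝ) * 81 := by
          rw [sum_const, Nat.card_Icc, nsmul_eq_mul, Nat.add_sub_cancel]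
      _ ≤ 81 * (8 * M ^ 3) := by linarith
  have h3 : Real.log ((⌊8 * M ^ 3⌋₊ : ℕ) : ℝ) ≤ 4 * Real.log M := by
    have e1 : Real.log ((⌊8 * M ^ 3⌋₊ : ℕ) : ℝ) ≤ Real.log (M ^ 4) := by
      apply Real.log_le_log (by exact_mod_cast hN1)
      refine hNle.trans ?_
      calc 8 * M ^ 3 ≤ M * M ^ 3 := mul_le_mul_of_nonneg_right hM8 (by positivity)
        _ = M ^ 4 := by ring
    rw [Real.log_pow] at e1
    exact_mod_cast e1
  have hlogM : 1 ≤ Real.log M := by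
    rw [Real.le_log_iff_exp_le hM0]
    have := Real.exp_one_lt_d9
    linarith
  have h4 : ∑ t ∈ T, ‖DP (Icc 1 ⌊8 * M ^ 3⌋₊)
      (fun n => 1 * (Grep (prm M ((1 + δ) * M)) 3 {1} n : ℂ)) t‖ ^ 2 ≤
      C * (M ^ 3 + 8 * M ^ 3) * (7 * Real.log M) * (81 * (8 * M ^ 3)) := by
    refine h1.trans ?_
    have hl0 : 0 ≤ Real.log ((⌊8 * M ^ 3⌋₊ : ℕ) : ℝ) :=
      Real.log_nonneg (by exact_mod_cast hN1)
    apply mul_le_mul _ h2 (sum_nonneg fun n _ => by positivity) (by positivity)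
    apply mul_le_mul _ (by linarith) (by linarith) (by positivity)
    exact mul_le_mul_of_nonneg_left (by linarith) hC.le
  -- lower bound for each term
  have h5 : ∀ t ∈ T, M ^ (6 - 6 * c₁) ≤ ‖DP (Icc 1 ⌊8 * M ^ 3⌋₊)
      (fun n => 1 * (Grep (prm M ((1 + δ) * M)) 3 {1} n : ℂ)) t‖ ^ 2 := by
    intro t ht
    rw [← L01_cube δ M t hδ hδ1 hM1, norm_pow]
    have e1 := hlarge t ht
    have e2 : 0 ≤ M ^ (1 - c₁) := Real.rpow_nonneg hM0.le _
    have e3 : M ^ (6 - 6 * c₁) = ((M ^ (1 - c₁)) ^ 3) ^ 2 := by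
      rw [← pow_mul, ← Real.rpow_natCast, ← Real.rpow_mul hM0.le]
      congr 1
      push_cast
      ring
    rw [e3]
    apply pow_le_pow_left₀ (by positivity)
    exact pow_le_pow_left₀ e2 e1 3
  have h6 : (T.card : ℝ) * M ^ (6 - 6 * c₁) ≤
      C * (M ^ 3 + 8 * M ^ 3) * (7 * Real.log M) * (81 * (8 * M ^ 3)) := by
    refine le_trans ?_ h4
    rw [← nsmul_eq_mul]
    exact card_nsmul_le_sum _ _ _ h5
  -- conclusion
  have h7 : C * (M ^ 3 + 8 * M ^ 3) * (7 * Real.log M) * (81 * (8 * M ^ 3)) ≤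
      M ^ (c / 7) * M ^ (6 : ℝ) := by
    have e1 : M ^ (6 : ℝ) = M ^ 6 := by
      rw [← Real.rpow_natCast]
      norm_num
    rw [e1]
    calc C * (M ^ 3 + 8 * M ^ 3) * (7 * Real.log M) * (81 * (8 * M ^ 3))
        = (C * 9 * (81 * 8) * (7 * Real.log M)) * M ^ 6 := by ring
      _ ≤ M ^ (c / 7) * M ^ 6 := mul_le_mul_of_nonneg_right hsize (by positivity)
  have h8 : M ^ (c / 7) * M ^ (6 : ℝ) ≤ M ^ c * M ^ (6 - 6 * c₁) := by
    rw [← Real.rpow_add hM0, ← Real.rpow_add hM0]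
    apply Real.rpow_le_rpow_of_exponent_le hM1
    linarith
  have h9 : (T.card : ℝ) * M ^ (6 - 6 * c₁) ≤ M ^ c * M ^ (6 - 6 * c₁) :=
    h6.trans (h7.trans h8)
  exact le_of_mul_le_mul_right h9 (Real.rpow_pos_of_pos hM0 _)

end BP4
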