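import Pool.Agent.LibBP4.R04
import Pool.Agent.LibBP4.L01

/-!
TASK F07a.  The part where `PP` is large.  `c` from `rp`, `c₁` from `large_values c`.  Every 1-separated `T`
inside the set has `|T| ≤ M^c` (`large_values`), so `rp` and `x_disc_to_cont` (`X = M^3`) with the
continuous function `f(t) = √(‖PP‖‖QQ‖)` give `∫ ≤ 2 (η/2)(M/log M)²`.
-/

open MeasureTheory Finset Filter
open scoped Topology

namespace BP4

open MR57 (tw DP trap SW wh ES IsCM Grep)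

theorem F07a_cont_DP (s : Finset ℕ) (a : ℕ → ℂ) : Continuous fun t : ℝ => DP s a t := by
  unfold MR57.DP MR57.tw
  fun_prop

theorem F07a_cont_PP (δ M : ℝ) : Continuous fun t : ℝ => PP δ M t := by
  unfold PP
  exact F07a_cont_DP _ _

theorem F07a_cont_QQ (a M : ℝ) : Continuous fun t : ℝ => QQ a M t := by
  unfold QQ
  exact F07a_cont_DP _ _

theorem large_part : ∃ c₁ : ℝ, 0 < c₁ ∧ c₁ ≤ 1 ∧ ∀ δ a η : ℝ, 0 < δ → δ ≤ 1 / 10 → 1 ≤ a →
    0 < η → ∃ T₀ M₀ : ℝ, 1 ≤ T₀ ∧ 2 ≤ M₀ ∧ ∀ M : ℝ, M₀ ≤ M →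
    ∫ t in {t : ℝ | T₀ < |t| ∧ |t| ≤ M ^ 3} \
        {t : ℝ | (T₀ < |t| ∧ |t| ≤ M ^ 3) ∧ ‖PP δ M t‖ < M ^ (1 - c₁)},
      ‖PP δ M t‖ * ‖QQ a M t‖ ≤ η * (M / Real.log M) ^ 2 := by
  obtain ⟨c, hc, hrp⟩ := rp
  obtain ⟨c₁, hc₁, hc₁1, hlv⟩ := large_values c hc
  refine ⟨c₁, hc₁, hc₁1, ?_⟩
  intro δ a η hδ hδ1 ha hη
  obtain ⟨M₀, T₀, hM₀, hT₀, h1⟩ := hrp δ a (η / 2) hδ hδ1 ha (by linarith)
  obtain ⟨M₁, hM₁, h2⟩ := hlv δ hδ (by linarith)
  refine ⟨T₀, max M₀ M₁, hT₀, le_trans hM₀ (le_max_left _ _), ?_⟩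
  intro M hM
  have hMM₀ : M₀ ≤ M := le_trans (le_max_left _ _) hM
  have hMM₁ : M₁ ≤ M := le_trans (le_max_right _ _) hM
  set S : Set ℝ := {t : ℝ | T₀ < |t| ∧ |t| ≤ M ^ 3} \
        {t : ℝ | (T₀ < |t| ∧ |t| ≤ M ^ 3) ∧ ‖PP δ M t‖ < M ^ (1 - c₁)} with hS
  have hmA : MeasurableSet {t : ℝ | T₀ < |t| ∧ |t| ≤ M ^ 3} := by
    apply MeasurableSet.inter
    · exact measurableSet_lt measurable_const continuous_abs.measurable
    · exact measurableSet_le continuous_abs.measurable measurable_const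
  have hmB : MeasurableSet {t : ℝ | ‖PP δ M t‖ < M ^ (1 - c₁)} :=
    measurableSet_lt (F07a_cont_PP δ M).norm.measurable measurable_const
  have hmS : MeasurableSet S := by
    apply hmA.diff
    exact hmA.inter hmB
  have hSX : S ⊆ Set.Icc (-(M ^ 3)) (M ^ 3) := by
    intro t ht
    have := ht.1.2
    exact abs_le.1 this
  have hf : Continuous fun t : ℝ => ((Real.sqrt (‖PP δ M t‖ * ‖QQ a M t‖) : ℝ) : ℂ) := by
    apply Complex.continuous_ofReal.comp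
    exact Real.continuous_sqrt.comp ((F07a_cont_PP δ M).norm.mul (F07a_cont_QQ a M).norm)
  have hff : ∀ t : ℝ, ‖((Real.sqrt (‖PP δ M t‖ * ‖QQ a M t‖) : ℝ) : ℂ)‖ ^ 2 =
      ‖PP δ M t‖ * ‖QQ a M t‖ := by
    intro t
    rw [Complex.norm_real, Real.norm_eq_abs, sq_abs, Real.sq_sqrt (by positivity)]
  have key := x_disc_to_cont (M ^ 3) S hmS hSX
    (fun t : ℝ => ((Real.sqrt (‖PP δ M t‖ * ‖QQ a M t‖) : ℝ) : ℂ)) hf
    (η / 2 * (M / Real.log M) ^ 2) (by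
      intro T hT hTS
      simp only [hff]
      apply h1 M T hMM₀ hT
      · intro t ht
        exact (hTS ht).1.1.le
      · apply h2 M T hMM₁ hT
        intro t ht
        have h3 := hTS ht
        by_contra h4
        push Not at h4
        exact h3.2 ⟨h3.1, h4⟩)
  simp only [hff] at key
  linarith

end BP4
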