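import Pool.Agent.LibBP4.K06

/-!
TASK F07b.  Trivial bound (`norm_DP_le`, `cheb`: `PP` has at most `#prm 0 (2M)` terms, `QQ` at most
`#prm 0 (2aM)`).
-/

open MeasureTheory Finset Filter
open scoped Topology

namespace BP4

open MR57 (tw DP trap SW wh ES IsCM Grep)

theorem F07b_prm_subset {x y z : ℝ} (h : y ≤ z) : prm x y ⊆ prm 0 z := by
  intro p hp
  unfold prm win at *
  rw [mem_filter, mem_Ioc] at *
  refine ⟨⟨?_, ?_⟩, hp.2⟩
  · rw [Nat.floor_zero]
    exact lt_of_le_of_lt (Nat.zero_le _) hp.1.1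
  · exact hp.1.2.trans (Nat.floor_le_floor h)

theorem F07b_log_mono {C M y : ℝ} (hC : 0 < C) (hM : 2 ≤ M) (hy : M ≤ y) :
    C * (y / Real.log y) ≤ C * (y / Real.log M) := by
  have hl : 0 < Real.log M := Real.log_pos (by linarith)
  have hl2 : Real.log M ≤ Real.log y := Real.log_le_log (by linarith) hy
  apply mul_le_mul_of_nonneg_left _ hC.le
  exact div_le_div_of_nonneg_left (by linarith) hl hl2

theorem trivial_PQ : ∃ C : ℝ, 0 < C ∧ ∀ δ a M t : ℝ, 0 < δ → δ ≤ 1 → 1 ≤ a → 2 ≤ M →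
    ‖PP δ M t‖ * ‖QQ a M t‖ ≤ C * a * (M / Real.log M) ^ 2 := by
  obtain ⟨C, hC, h1, _⟩ := cheb
  refine ⟨4 * C ^ 2, by positivity, ?_⟩
  intro δ a M t hδ hδ1 ha hM
  have hl : 0 < Real.log M := Real.log_pos (by linarith)
  have hP : ‖PP δ M t‖ ≤ C * (2 * M / Real.log M) := by
    unfold PP
    refine (norm_DP_le _ _ t (fun n _ => by simp)).trans ?_
    have c1 : ((prm M ((1 + δ) * M)).card : ℝ) ≤ (prm 0 (2 * M)).card := by
      exact_mod_cast Finset.card_le_card (F07b_prm_subset (by nlinarith))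
    refine c1.trans ((h1 (2 * M) (by linarith)).trans ?_)
    exact F07b_log_mono hC hM (by linarith)
  have hQ : ‖QQ a M t‖ ≤ C * (2 * a * M / Real.log M) := by
    unfold QQ
    refine (norm_DP_le _ _ t (fun n _ => by simp)).trans ?_
    have c1 : ((prm (a * M / 2) (2 * a * M)).card : ℝ) ≤ (prm 0 (2 * a * M)).card := by
      exact_mod_cast Finset.card_le_card (F07b_prm_subset (le_refl _))
    have h3 : M ≤ 2 * a * M := by nlinarith
    refine c1.trans ((h1 (2 * a * M) (by linarith)).trans ?_)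
    exact F07b_log_mono hC hM h3
  calc ‖PP δ M t‖ * ‖QQ a M t‖ ≤ (C * (2 * M / Real.log M)) * (C * (2 * a * M / Real.log M)) :=
        mul_le_mul hP hQ (norm_nonneg _) (by positivity)
    _ = 4 * C ^ 2 * a * (M / Real.log M) ^ 2 := by ring

end BP4
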