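import Pool.Agent.LibBP4.F01
import Pool.Agent.LibBP4.F02
import Pool.Agent.LibBP4.F07a
import Pool.Agent.LibBP4.F07b

/-!
F07.  Pointwise approximation up to the remainder (assembly).
-/

open MeasureTheory Finset Filter
open scoped Topology

namespace BP4

open MR57 (tw DP trap SW wh ES IsCM Grep)

theorem f07_cont_DP (s : Finset ℕ) (a : ℕ → ℂ) : Continuous (fun t => DP s a t) := by
  unfold MR57.DP MR57.tw
  fun_prop

theorem f07_norm_g (δ a M β t : ℝ) :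
    ‖Complex.exp (-((t * β : ℝ) : ℂ) * Complex.I) * PP δ M t * (starRingEnd ℂ) (QQ a M t)‖ =
      ‖PP δ M t‖ * ‖QQ a M t‖ := by
  rw [norm_mul, norm_mul, ← Complex.ofReal_neg, Complex.norm_exp_ofReal_mul_I, one_mul,
    RCLike.norm_conj]

theorem f07_cont_g (δ a M β : ℝ) : Continuous (fun t : ℝ =>
    Complex.exp (-((t * β : ℝ) : ℂ) * Complex.I) * PP δ M t * (starRingEnd ℂ) (QQ a M t)) := by
  have h1 : Continuous (fun t : ℝ => PP δ M t) := f07_cont_DP _ _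
  have h2 : Continuous (fun t : ℝ => QQ a M t) := f07_cont_DP _ _
  have h3 : Continuous (fun t : ℝ => (starRingEnd ℂ) (QQ a M t)) := Complex.continuous_conj.comp h2
  have h4 : Continuous (fun t : ℝ => Complex.exp (-((t * β : ℝ) : ℂ) * Complex.I)) := by fun_prop
  exact (h4.mul h1).mul h3

theorem f07_int {h : ℝ} (hh : 0 < h) (g : ℝ → ℂ) (hg : Continuous g) (B : ℝ)
    (hB : ∀ t, ‖g t‖ ≤ B) : Integrable (fun t : ℝ => ((Kr h t : ℝ) : ℂ) * g t) := by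
  have h1 : Integrable (fun t : ℝ => Kr h t) := x_fejer_integrable hh
  have h2 : Integrable (fun t : ℝ => Kr h t * B) := h1.mul_const B
  refine h2.mono' ?_ (Eventually.of_forall fun t => ?_)
  · exact (h1.ofReal.aestronglyMeasurable).mul hg.aestronglyMeasurable
  · rw [norm_mul, Complex.norm_real, Real.norm_eq_abs, abs_of_nonneg (Kr_nonneg h t)]
    exact mul_le_mul_of_nonneg_left (hB t) (Kr_nonneg h t)

/-- The difference of the normalised counts as one integral. -/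
theorem f07_diff (δ a M h w β B : ℝ) (hh : 0 < h) (hw : 0 < w)
    (hB : ∀ t, ‖PP δ M t‖ * ‖QQ a M t‖ ≤ B) :
    |FF δ a M h β / h ^ 2 - FF δ a M w β / w ^ 2| ≤
      ‖∫ t : ℝ, ((Kr h t / h ^ 2 - Kr w t / w ^ 2 : ℝ) : ℂ) *
        (Complex.exp (-((t * β : ℝ) : ℂ) * Complex.I) * PP δ M t *
        (starRingEnd ℂ) (QQ a M t))‖ := by
  set g : ℝ → ℂ := fun t => Complex.exp (-((t * β : ℝ) : ℂ) * Complex.I) * PP δ M t *
        (starRingEnd ℂ) (QQ a M t) with hg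
  have hgc : Continuous g := f07_cont_g δ a M β
  have hgB : ∀ t, ‖g t‖ ≤ B := fun t => by
    rw [hg]
    simp only
    rw [f07_norm_g]
    exact hB t
  have i1 := f07_int hh g hgc B hgB
  have i2 := f07_int hw g hgc B hgB
  have e1 : (FF δ a M h β : ℂ) = (1 / (2 * Real.pi) : ℝ) * ∫ t : ℝ, ((Kr h t : ℝ) : ℂ) * g t :=
    FF_fourier δ a M h β hh
  have e2 : (FF δ a M w β : ℂ) = (1 / (2 * Real.pi) : ℝ) * ∫ t : ℝ, ((Kr w t : ℝ) : ℂ) * g t :=
    FF_fourier δ a M w β hw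
  have hh0 : (h : ℂ) ≠ 0 := by exact_mod_cast hh.ne'
  have hw0 : (w : ℂ) ≠ 0 := by exact_mod_cast hw.ne'
  have e3 : ∫ t : ℝ, ((Kr h t / h ^ 2 - Kr w t / w ^ 2 : ℝ) : ℂ) * g t =
      (∫ t : ℝ, ((Kr h t : ℝ) : ℂ) * g t) / (h : ℂ) ^ 2 -
        (∫ t : ℝ, ((Kr w t : ℝ) : ℂ) * g t) / (w : ℂ) ^ 2 := by
    rw [← integral_div, ← integral_div, ← integral_sub (i1.div_const _) (i2.div_const _)]
    congr 1
    ext t
    push_cast
    ring
  have e4 : ((FF δ a M h β / h ^ 2 - FF δ a M w β / w ^ 2 : ℝ) : ℂ) =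
      (1 / (2 * Real.pi) : ℝ) * ∫ t : ℝ, ((Kr h t / h ^ 2 - Kr w t / w ^ 2 : ℝ) : ℂ) * g t := by
    rw [e3, Complex.ofReal_sub, Complex.ofReal_div, Complex.ofReal_div, e1, e2,
      Complex.ofReal_pow, Complex.ofReal_pow]
    ring
  have hpi := Real.pi_gt_three
  have e5 : (1 / (2 * Real.pi) : ℝ) ≤ 1 := by
    rw [div_le_one (by positivity)]
    linarith
  calc |FF δ a M h β / h ^ 2 - FF δ a M w β / w ^ 2|
      = ‖((FF δ a M h β / h ^ 2 - FF δ a M w β / w ^ 2 : ℝ) : ℂ)‖ := by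
        rw [Complex.norm_real, Real.norm_eq_abs]
    _ = (1 / (2 * Real.pi)) *
        ‖∫ t : ℝ, ((Kr h t / h ^ 2 - Kr w t / w ^ 2 : ℝ) : ℂ) * g t‖ := by
        rw [e4, norm_mul, Complex.norm_real, Real.norm_eq_abs, abs_of_pos (by positivity)]
    _ ≤ 1 * ‖∫ t : ℝ, ((Kr h t / h ^ 2 - Kr w t / w ^ 2 : ℝ) : ℂ) * g t‖ :=
        mul_le_mul_of_nonneg_right e5 (norm_nonneg _)
    _ = _ := one_mul _

theorem approx : ∃ c₁ : ℝ, 0 < c₁ ∧ c₁ ≤ 1 ∧ ∀ δ a n η w₁ : ℝ, 0 < δ → δ ≤ 1 / 10 → 1 ≤ a →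
    1 ≤ n → 0 < η → 0 < w₁ → ∃ w T₀ M₀ : ℝ, 0 < w ∧ w ≤ w₁ ∧ w ≤ 1 ∧ 1 ≤ T₀ ∧ 2 ≤ M₀ ∧
    ∀ M β : ℝ, M₀ ≤ M →
    |FF δ a M (1 / (n * a * M)) β / (1 / (n * a * M)) ^ 2 - FF δ a M w β / w ^ 2| ≤
      η * (M / Real.log M) ^ 2 +
      ‖∫ t in {t : ℝ | (T₀ < |t| ∧ |t| ≤ M ^ 3) ∧ ‖PP δ M t‖ < M ^ (1 - c₁)},
        ((Kr (1 / (n * a * M)) t / (1 / (n * a * M)) ^ 2 - Kr w t / w ^ 2 : ℝ) : ℂ) *
        (Complex.exp (-((t * β : ℝ) : ℂ) * Complex.I) * PP δ M t *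
        (starRingEnd ℂ) (QQ a M t))‖ := by
  obtain ⟨c₁, hc1, hc1', HL⟩ := large_part
  obtain ⟨C, hC, HT⟩ := trivial_PQ
  refine ⟨c₁, hc1, hc1', ?_⟩
  intro δ a n η w₁ hδ hδ1 ha hn hη hw₁
  obtain ⟨T₀, M₁, hT₀, hM₁, HL'⟩ := HL δ a (η / 4) hδ hδ1 ha (by positivity)
  have ha0 : 0 < a := by linarith
  have hn0 : 0 < n := by linarith
  have hT0 : 0 < T₀ := by linarith
  set q : ℝ := η / (4 * (T₀ ^ 3 * (C * a))) with hq
  have hq0 : 0 < q := by positivity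
  set w : ℝ := min (min w₁ 1) (Real.sqrt q) with hwdef
  have hw0 : 0 < w := lt_min (lt_min hw₁ one_pos) (Real.sqrt_pos.2 hq0)
  have hww₁ : w ≤ w₁ := (min_le_left _ _).trans (min_le_left _ _)
  have hw1 : w ≤ 1 := (min_le_left _ _).trans (min_le_right _ _)
  have hwq : w ^ 2 ≤ q := by
    have : w ≤ Real.sqrt q := min_le_right _ _
    calc w ^ 2 ≤ (Real.sqrt q) ^ 2 := by gcongr
      _ = q := Real.sq_sqrt hq0.le
  set M₀ : ℝ := max (max M₁ T₀) (max (1 / w) (max (64 * C * a * n ^ 2 * a ^ 2 / η)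
    (64 * C * a / (w ^ 2 * η)))) with hM₀
  refine ⟨w, T₀, M₀, hw0, hww₁, hw1, hT₀, hM₁.trans ((le_max_left _ _).trans (le_max_left _ _)),
    ?_⟩
  intro M β hM
  have hMM₁ : M₁ ≤ M := ((le_max_left _ _).trans (le_max_left _ _)).trans hM
  have hMT : T₀ ≤ M := ((le_max_right _ _).trans (le_max_left _ _)).trans hM
  have hMw : 1 / w ≤ M := ((le_max_left _ _).trans (le_max_right _ _)).trans hM
  have hMa : 64 * C * a * n ^ 2 * a ^ 2 / η ≤ M :=
    ((le_max_left _ _).trans ((le_max_right _ _).trans (le_max_right _ _))).trans hM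
  have hMb : 64 * C * a / (w ^ 2 * η) ≤ M :=
    ((le_max_right _ _).trans ((le_max_right _ _).trans (le_max_right _ _))).trans hM
  have hM2 : 2 ≤ M := hM₁.trans hMM₁
  have hM0 : 0 < M := by linarith
  set h : ℝ := 1 / (n * a * M) with hh
  have hh0 : 0 < h := by positivity
  have hhw : h ≤ w := by
    have h1 : 1 ≤ n * a := by nlinarith
    have h2 : M ≤ n * a * M := by nlinarith
    calc h ≤ 1 / M := one_div_le_one_div_of_le hM0 h2
      _ ≤ w := by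
        rw [div_le_iff₀ hM0]
        rw [div_le_iff₀ hw0] at hMw
        linarith
  set P2 : ℝ := (M / Real.log M) ^ 2 with hP2
  have hlog : 0 < Real.log M := Real.log_pos (by linarith)
  have hP20 : 0 < P2 := by positivity
  have hB : ∀ t, ‖PP δ M t‖ * ‖QQ a M t‖ ≤ C * a * P2 := fun t =>
    HT δ a M t hδ (by linarith) ha hM2
  have hM3 : T₀ ≤ M ^ 3 := by
    have : M ≤ M ^ 3 := by nlinarith [sq_nonneg M, mul_pos hM0 hM0]
    linarith
  set S : Set ℝ := {t : ℝ | (T₀ < |t| ∧ |t| ≤ M ^ 3) ∧ ‖PP δ M t‖ < M ^ (1 - c₁)} with hS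
  have hSm : MeasurableSet S := by
    have hc : Continuous (fun t : ℝ => ‖PP δ M t‖) := (f07_cont_DP _ _).norm
    have m1 : MeasurableSet {t : ℝ | T₀ < |t|} := measurableSet_lt measurable_const
      measurable_id.abs
    have m2 : MeasurableSet {t : ℝ | |t| ≤ M ^ 3} := measurableSet_le measurable_id.abs
      measurable_const
    have m3 : MeasurableSet {t : ℝ | ‖PP δ M t‖ < M ^ (1 - c₁)} :=
      measurableSet_lt hc.measurable measurable_const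
    exact (m1.inter m2).inter m3
  have hspl := kernel_split h w T₀ (M ^ 3) (C * a * P2) hh0 hhw hT₀ hM3
    (fun t : ℝ => Complex.exp (-((t * β : ℝ) : ℂ) * Complex.I) * PP δ M t *
      (starRingEnd ℂ) (QQ a M t)) (f07_cont_g δ a M β)
    (fun t => by rw [f07_norm_g]; exact hB t) S hSm (fun t ht => ht.1)
  have hd := f07_diff δ a M h w β (C * a * P2) hh0 hw0 hB
  have hlarge : ∫ t in {t : ℝ | T₀ < |t| ∧ |t| ≤ M ^ 3} \ S,
      ‖Complex.exp (-((t * β : ℝ) : ℂ) * Complex.I) * PP δ M t *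
        (starRingEnd ℂ) (QQ a M t)‖ ≤ η / 4 * P2 := by
    have := HL' M hMM₁
    refine le_trans (le_of_eq ?_) this
    refine integral_congr_ae (Eventually.of_forall fun t => ?_)
    exact f07_norm_g δ a M β t
  have hlow : w ^ 2 * T₀ ^ 3 * (C * a * P2) ≤ η / 4 * P2 := by
    have h1 : w ^ 2 * (T₀ ^ 3 * (C * a)) ≤ η / 4 := by
      calc w ^ 2 * (T₀ ^ 3 * (C * a)) ≤ q * (T₀ ^ 3 * (C * a)) := by gcongr
        _ = η / 4 := by
          rw [hq]
          field_simp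
    calc w ^ 2 * T₀ ^ 3 * (C * a * P2) = w ^ 2 * (T₀ ^ 3 * (C * a)) * P2 := by ring
      _ ≤ η / 4 * P2 := mul_le_mul_of_nonneg_right h1 hP20.le
  have htail : 8 / M ^ 3 * (1 / h ^ 2 + 1 / w ^ 2) * (C * a * P2) ≤ η / 4 * P2 := by
    have e1 : 1 / h ^ 2 = n ^ 2 * a ^ 2 * M ^ 2 := by
      rw [hh]
      field_simp
    rw [div_le_iff₀ hη] at hMa
    rw [div_le_iff₀ (by positivity)] at hMb
    have h1 : 8 / M ^ 3 * (1 / h ^ 2) * (C * a) ≤ η / 8 := by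
      rw [e1]
      have : 8 / M ^ 3 * (n ^ 2 * a ^ 2 * M ^ 2) * (C * a) =
          8 * C * a * n ^ 2 * a ^ 2 / M := by
        field_simp
      rw [this, div_le_iff₀ hM0]
      nlinarith
    have h2 : 8 / M ^ 3 * (1 / w ^ 2) * (C * a) ≤ η / 8 := by
      have e2 : 8 / M ^ 3 * (1 / w ^ 2) * (C * a) = 8 * C * a / (w ^ 2 * M ^ 3) := by
        field_simp
      rw [e2, div_le_iff₀ (by positivity)]
      have h3 : M ≤ M ^ 3 := by nlinarith [sq_nonneg M, mul_pos hM0 hM0]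
      have h4 : M * (w ^ 2 * η) ≤ M ^ 3 * (w ^ 2 * η) := by
        have : 0 < w ^ 2 * η := by positivity
        exact mul_le_mul_of_nonneg_right h3 this.le
      nlinarith
    calc 8 / M ^ 3 * (1 / h ^ 2 + 1 / w ^ 2) * (C * a * P2)
        = (8 / M ^ 3 * (1 / h ^ 2) * (C * a) + 8 / M ^ 3 * (1 / w ^ 2) * (C * a)) * P2 := by ring
      _ ≤ (η / 8 + η / 8) * P2 := mul_le_mul_of_nonneg_right (by linarith) hP20.le
      _ = η / 4 * P2 := by ring
  have htri := norm_sub_norm_le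
    (∫ t : ℝ, ((Kr h t / h ^ 2 - Kr w t / w ^ 2 : ℝ) : ℂ) *
        (Complex.exp (-((t * β : ℝ) : ℂ) * Complex.I) * PP δ M t *
        (starRingEnd ℂ) (QQ a M t)))
    (∫ t in S, ((Kr h t / h ^ 2 - Kr w t / w ^ 2 : ℝ) : ℂ) *
        (Complex.exp (-((t * β : ℝ) : ℂ) * Complex.I) * PP δ M t *
        (starRingEnd ℂ) (QQ a M t)))
  have hfin := htri.trans hspl
  nlinarith

end BP4
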