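import Pool.Agent.LibBP4.F05
import Pool.Agent.LibBP4.F07

/-!
TASK F08.  Measure of the bad set.  By `approx`, `2η (M/log M)² < DD` forces the remainder to exceed
`η (M/log M)²`; Chebyshev's inequality with `rem_l2` (`lam = M^{1-c₁}`; measurability/continuity
in `β` of the remainder) bounds the measure by `C M^{2-2c₁} M² / (η² (M/log M)^4) = C_η M^{-2c₁}
log⁴ M ≤ M^{-c₁}`.
-/

open MeasureTheory Finset Filter
open scoped Topology

namespace BP4

open MR57 (tw DP trap SW wh ES IsCM Grep)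

theorem F08_cont (δ a M Y : ℝ) {h w : ℝ} (hh : 0 < h) (hw : 0 < w) {S : Set ℝ}
    (hSY : ∀ t ∈ S, |t| ≤ Y) (hS : MeasurableSet S) :
    Continuous (fun β : ℝ => ‖∫ t in S, ((Kr h t / h ^ 2 - Kr w t / w ^ 2 : ℝ) : ℂ) *
      (Complex.exp (-((t * β : ℝ) : ℂ) * Complex.I) * PP δ M t *
        (starRingEnd ℂ) (QQ a M t))‖ ^ 2) := by
  apply Continuous.pow
  apply Continuous.norm
  have hfin : volume S < ⊤ := by
    have h1 : S ⊆ Set.Icc (-Y) Y := fun t ht => abs_le.mp (hSY t ht)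
    exact (measure_mono h1).trans_lt (by rw [Real.volume_Icc]; exact ENNReal.ofReal_lt_top)
  apply continuous_of_dominated (bound := fun _ => ((prm M ((1 + δ) * M)).card : ℝ) *
    ((prm (a * M / 2) (2 * a * M)).card : ℝ))
  · intro β
    have m1 : Measurable (fun t : ℝ => ((Kr h t / h ^ 2 - Kr w t / w ^ 2 : ℝ) : ℂ)) :=
      Complex.measurable_ofReal.comp (F05_ka_measurable h w)
    have m2 : Continuous (fun t : ℝ => Complex.exp (-((t * β : ℝ) : ℂ) * Complex.I) * PP δ M t *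
        (starRingEnd ℂ) (QQ a M t)) := by
      have c1 : Continuous (fun t : ℝ => Complex.exp (-((t * β : ℝ) : ℂ) * Complex.I)) := by
        fun_prop
      exact (c1.mul (F05_cont_PP δ M)).mul (Complex.continuous_conj.comp (F05_cont_QQ a M))
    exact (m1.mul m2.measurable).aestronglyMeasurable
  · intro β
    refine Eventually.of_forall fun t => ?_
    rw [norm_mul, norm_mul, norm_mul, RCLike.norm_conj, ← Complex.ofReal_neg,
      Complex.norm_exp_ofReal_mul_I, one_mul, Complex.norm_real, Real.norm_eq_abs]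
    have k := F02_ka_abs_le_one hh hw t
    unfold F02_ka at k
    calc |Kr h t / h ^ 2 - Kr w t / w ^ 2| * (‖PP δ M t‖ * ‖QQ a M t‖)
        ≤ 1 * (‖PP δ M t‖ * ‖QQ a M t‖) := mul_le_mul_of_nonneg_right k (by positivity)
      _ = ‖PP δ M t‖ * ‖QQ a M t‖ := one_mul _
      _ ≤ _ := mul_le_mul (F05_norm_PP_le δ M t) (F05_norm_QQ_le a M t) (norm_nonneg _)
            (Nat.cast_nonneg _)
  · exact integrableOn_const hfin.ne
  · refine Eventually.of_forall fun t => ?_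
    have c1 : Continuous (fun β : ℝ => Complex.exp (-((t * β : ℝ) : ℂ) * Complex.I)) := by
      fun_prop
    exact continuous_const.mul ((c1.mul continuous_const).mul continuous_const)

theorem F08_log_pow {c : ℝ} (hc : 0 < c) (D : ℝ) (hD : 0 < D) :
    ∀ᶠ M : ℝ in atTop, D * Real.log M ^ 4 ≤ M ^ c := by
  have h1 := (isLittleO_log_rpow_rpow_atTop 4 hc).bound (show (0:ℝ) < 1 / D by positivity)
  filter_upwards [h1, eventually_ge_atTop (1:ℝ)] with M hM hM1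
  have hl : 0 ≤ Real.log M := Real.log_nonneg hM1
  have e1 : Real.log M ^ (4 : ℝ) = Real.log M ^ 4 := by
    rw [← Real.rpow_natCast]; norm_num
  rw [e1, Real.norm_of_nonneg (by positivity), Real.norm_of_nonneg (by positivity)] at hM
  calc D * Real.log M ^ 4 ≤ D * (1 / D * M ^ c) := mul_le_mul_of_nonneg_left hM hD.le
    _ = M ^ c := by field_simp

theorem bad_measure : ∃ c₁ : ℝ, 0 < c₁ ∧ c₁ ≤ 1 ∧ ∀ δ a n η w₁ : ℝ, 0 < δ → δ ≤ 1 / 10 → 1 ≤ a →
    1 ≤ n → 0 < η → 0 < w₁ → ∃ w M₀ : ℝ, 0 < w ∧ w ≤ w₁ ∧ w ≤ 1 ∧ 2 ≤ M₀ ∧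
    ∀ M b : ℝ, M₀ ≤ M →
    volume {β : ℝ | b - 2 ≤ β ∧ β ≤ b + 2 ∧
      2 * η * (M / Real.log M) ^ 2 < DD δ a M (1 / (n * a * M)) w β} ≤
      ENNReal.ofReal (M ^ (-c₁)) := by
  obtain ⟨c₁, hc0, hc1, H⟩ := approx
  refine ⟨c₁, hc0, hc1, ?_⟩
  intro δ a n η w₁ hδ hδ1 ha hn hη hw₁
  obtain ⟨w, T₀, M₁, hw0, hww, hw1, hT0, hM1, HA⟩ := H δ a n η w₁ hδ hδ1 ha hn hη hw₁
  obtain ⟨C, hC, HR⟩ := rem_l2 a n w ha hn hw0 hw1
  obtain ⟨M₂, hM₂⟩ := eventually_atTop.mp (F08_log_pow hc0 (C / η ^ 2) (by positivity))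
  refine ⟨w, max M₁ M₂, hw0, hww, hw1, le_max_of_le_left hM1, ?_⟩
  intro M b hM
  have hMM1 : M₁ ≤ M := (le_max_left _ _).trans hM
  have hMM2 : M₂ ≤ M := (le_max_right _ _).trans hM
  have hM2 : 2 ≤ M := hM1.trans hMM1
  have hM0 : 0 < M := by linarith
  have hl : 0 < Real.log M := Real.log_pos (by linarith)
  have hh0 : 0 < 1 / (n * a * M) := by positivity
  set S : Set ℝ := {t : ℝ | (T₀ < |t| ∧ |t| ≤ M ^ 3) ∧ ‖PP δ M t‖ < M ^ (1 - c₁)} with hSdef
  have hSm : MeasurableSet S := by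
    have m1 : MeasurableSet {t : ℝ | T₀ < |t|} := measurableSet_lt measurable_const measurable_abs
    have m2 : MeasurableSet {t : ℝ | |t| ≤ M ^ 3} :=
      measurableSet_le measurable_abs measurable_const
    have m3 : MeasurableSet {t : ℝ | ‖PP δ M t‖ < M ^ (1 - c₁)} :=
      measurableSet_lt (F05_cont_PP δ M).norm.measurable measurable_const
    exact (m1.inter m2).inter m3
  have hR := HR δ M b (M ^ (1 - c₁)) S hδ (by linarith) hM2 hSm
    (fun t ht => ⟨ht.1.2, ht.2.le⟩)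
  have hcont := F08_cont δ a M (M ^ 3) hh0 hw0 (fun t (ht : t ∈ S) => ht.1.2) hSm
  set F : ℝ → ℝ := fun β : ℝ => ‖∫ t in S, ((Kr (1 / (n * a * M)) t / (1 / (n * a * M)) ^ 2 -
      Kr w t / w ^ 2 : ℝ) : ℂ) * (Complex.exp (-((t * β : ℝ) : ℂ) * Complex.I) * PP δ M t *
        (starRingEnd ℂ) (QQ a M t))‖ ^ 2 with hF
  set θ : ℝ := η * (M / Real.log M) ^ 2 with hθ
  have hθ0 : 0 < θ := by positivity
  have hFint : IntegrableOn F (Set.Icc (b - 2) (b + 2)) := hcont.continuousOn.integrableOn_Icc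
  have hcheb := mul_meas_ge_le_integral_of_nonneg
    (μ := volume.restrict (Set.Icc (b - 2) (b + 2))) (f := F)
    (Eventually.of_forall fun β => by positivity) hFint (θ ^ 2)
  have hIcc : ∫ β in Set.Icc (b - 2) (b + 2), F β = ∫ β in (b - 2)..(b + 2), F β := by
    rw [intervalIntegral.integral_of_le (by linarith), integral_Icc_eq_integral_Ioc]
  rw [hIcc] at hcheb
  have hmeas : MeasurableSet {β : ℝ | θ ^ 2 ≤ F β} :=
    measurableSet_le measurable_const hcont.measurable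
  have hsub : {β : ℝ | b - 2 ≤ β ∧ β ≤ b + 2 ∧
      2 * η * (M / Real.log M) ^ 2 < DD δ a M (1 / (n * a * M)) w β} ⊆
      {β : ℝ | θ ^ 2 ≤ F β} ∩ Set.Icc (b - 2) (b + 2) := by
    rintro β ⟨h1, h2, h3⟩
    refine ⟨?_, h1, h2⟩
    have h4 := HA M β hMM1
    unfold DD at h3
    have h5 : θ ≤ ‖∫ t in S, ((Kr (1 / (n * a * M)) t / (1 / (n * a * M)) ^ 2 -
      Kr w t / w ^ 2 : ℝ) : ℂ) * (Complex.exp (-((t * β : ℝ) : ℂ) * Complex.I) * PP δ M t *
        (starRingEnd ℂ) (QQ a M t))‖ := by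
      linarith
    exact pow_le_pow_left₀ hθ0.le h5 2
  have hreal : (volume.restrict (Set.Icc (b - 2) (b + 2))).real {β : ℝ | θ ^ 2 ≤ F β} ≤
      M ^ (-c₁) := by
    have h1 : θ ^ 2 * (volume.restrict (Set.Icc (b - 2) (b + 2))).real {β : ℝ | θ ^ 2 ≤ F β} ≤
        C * (M ^ (1 - c₁)) ^ 2 * M ^ 2 := hcheb.trans hR
    have h2 : C * (M ^ (1 - c₁)) ^ 2 * M ^ 2 ≤ θ ^ 2 * M ^ (-c₁) := by
      have h3 := hM₂ M hMM2
      have e1 : (M ^ (1 - c₁)) ^ 2 = M ^ 2 * (M ^ (-c₁) * M ^ (-c₁)) := by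
        rw [sub_eq_add_neg, Real.rpow_add hM0, Real.rpow_one]
        ring
      have e2 : M ^ c₁ * M ^ (-c₁) = 1 := by
        rw [← Real.rpow_add hM0]; simp
      have p1 : 0 < M ^ (-c₁) := Real.rpow_pos_of_pos hM0 _
      have e3 : θ ^ 2 = η ^ 2 * M ^ 4 / Real.log M ^ 4 := by
        rw [hθ]; field_simp
      rw [e1, e3]
      have h4 : C * Real.log M ^ 4 ≤ η ^ 2 * M ^ c₁ := by
        have : C / η ^ 2 * Real.log M ^ 4 = C * Real.log M ^ 4 / η ^ 2 := by ring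
        rw [this, div_le_iff₀ (by positivity)] at h3
        linarith
      have h5 : C * Real.log M ^ 4 * M ^ (-c₁) ≤ η ^ 2 := by
        calc C * Real.log M ^ 4 * M ^ (-c₁) ≤ η ^ 2 * M ^ c₁ * M ^ (-c₁) :=
              mul_le_mul_of_nonneg_right h4 p1.le
          _ = η ^ 2 * (M ^ c₁ * M ^ (-c₁)) := by ring
          _ = η ^ 2 := by rw [e2, mul_one]
      rw [div_mul_eq_mul_div, le_div_iff₀ (by positivity)]
      calc C * (M ^ 2 * (M ^ (-c₁) * M ^ (-c₁))) * M ^ 2 * Real.log M ^ 4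
          = (C * Real.log M ^ 4 * M ^ (-c₁)) * (M ^ 4 * M ^ (-c₁)) := by ring
        _ ≤ η ^ 2 * (M ^ 4 * M ^ (-c₁)) := mul_le_mul_of_nonneg_right h5 (by positivity)
        _ = η ^ 2 * M ^ 4 * M ^ (-c₁) := by ring
    have h6 := h1.trans h2
    exact le_of_mul_le_mul_left h6 (by positivity)
  calc volume {β : ℝ | b - 2 ≤ β ∧ β ≤ b + 2 ∧
      2 * η * (M / Real.log M) ^ 2 < DD δ a M (1 / (n * a * M)) w β}
      ≤ volume ({β : ℝ | θ ^ 2 ≤ F β} ∩ Set.Icc (b - 2) (b + 2)) := measure_mono hsub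
    _ = (volume.restrict (Set.Icc (b - 2) (b + 2))) {β : ℝ | θ ^ 2 ≤ F β} :=
        (Measure.restrict_apply hmeas).symm
    _ = ENNReal.ofReal ((volume.restrict (Set.Icc (b - 2) (b + 2))).real {β : ℝ | θ ^ 2 ≤ F β}) :=
        (ofReal_measureReal).symm
    _ ≤ ENNReal.ofReal (M ^ (-c₁)) := ENNReal.ofReal_le_ofReal hreal

end BP4
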