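import Pool.Agent.LibBP4.Defs

/-!
TASK F09.  Covering the superlevel set of a Lipschitz function by few cells.  For each `j < J` let `I_j` be
the set of `i` such that the cell `[i/N, (i+1)/N]` contains a `β ∈ [b, b+1]` with
`lam < D(β - s_j)`.  By the Lipschitz condition the translated cell `[i/N - s_j, (i+1)/N - s_j]` is
contained in `{lam/2 < D} ∩ [b-2, b+2]`; these translated cells have disjoint interiors and length
`1/N`, so `#I_j ≤ N m`.  (Every `β ∈ [b, b+1]`, `b ≥ 0`, lies in the cell `i = ⌊Nβ⌋₊`.)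
-/

open MeasureTheory Finset Filter
open scoped Topology

namespace BP4

open MR57 (tw DP trap SW wh ES IsCM Grep)

private theorem F09_one (D : ℝ → ℝ) (Lam lam m b : ℝ) (N : ℕ) (s : ℝ)
    (hD : ∀ x y, |D x - D y| ≤ Lam * |x - y|) (hN : 1 ≤ N) (hLam0 : 0 ≤ Lam)
    (hLam : Lam / N < lam / 2)
    (hs : 0 ≤ s ∧ s ≤ 1) (hb : 0 ≤ b) (hm0 : 0 ≤ m)
    (hm : volume {β : ℝ | b - 2 ≤ β ∧ β ≤ b + 2 ∧ lam / 2 < D β} ≤ ENNReal.ofReal m) :
    ∃ I : Finset ℕ, (I.card : ℝ) ≤ N * m ∧ ∀ β : ℝ, b ≤ β → β ≤ b + 1 →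
      lam < D (β - s) → ∃ i ∈ I, (i : ℝ) / N ≤ β ∧ β ≤ ((i : ℝ) + 1) / N := by
  classical
  have hN' : (0 : ℝ) < N := by exact_mod_cast hN
  have hN1 : (1 : ℝ) ≤ N := by exact_mod_cast hN
  set P : ℕ → Prop := fun i => ∃ β : ℝ, b ≤ β ∧ β ≤ b + 1 ∧ lam < D (β - s) ∧
    (i : ℝ) / N ≤ β ∧ β ≤ ((i : ℝ) + 1) / N with hP
  refine ⟨(range (⌊(N : ℝ) * (b + 1)⌋₊ + 1)).filter P, ?_, ?_⟩
  · set I := (range (⌊(N : ℝ) * (b + 1)⌋₊ + 1)).filter P with hI
    set T : ℕ → Set ℝ := fun i => Set.Ico ((i : ℝ) / N - s) (((i : ℝ) + 1) / N - s) with hT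
    have hdisj : (I : Set ℕ).PairwiseDisjoint T := by
      intro i _ j _ hij
      refine Set.disjoint_left.2 fun x hx hy => hij ?_
      simp only [hT, Set.mem_Ico] at hx hy
      have h1 : (i : ℝ) ≤ (x + s) * N := by
        have := hx.1
        rw [sub_le_iff_le_add, div_le_iff₀ hN'] at this
        exact this
      have h2 : (x + s) * N < i + 1 := by
        have := hx.2
        rw [lt_sub_iff_add_lt, lt_div_iff₀ hN'] at this
        exact this
      have h3 : (j : ℝ) ≤ (x + s) * N := by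
        have := hy.1
        rw [sub_le_iff_le_add, div_le_iff₀ hN'] at this
        exact this
      have h4 : (x + s) * N < j + 1 := by
        have := hy.2
        rw [lt_sub_iff_add_lt, lt_div_iff₀ hN'] at this
        exact this
      have h5 : i < j + 1 := by exact_mod_cast h1.trans_lt h4
      have h6 : j < i + 1 := by exact_mod_cast h3.trans_lt h2
      omega
    have hsub : (⋃ i ∈ I, T i) ⊆ {β : ℝ | b - 2 ≤ β ∧ β ≤ b + 2 ∧ lam / 2 < D β} := by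
      intro x hx
      rw [Set.mem_iUnion₂] at hx
      obtain ⟨i, hi, hx⟩ := hx
      obtain ⟨β, h1, h2, h3, h4, h5⟩ := (mem_filter.1 hi).2
      simp only [hT, Set.mem_Ico] at hx
      have e : ((i : ℝ) + 1) / N = (i : ℝ) / N + 1 / N := by ring
      have h6 : (1 : ℝ) / N ≤ 1 := by rw [div_le_one hN']; exact hN1
      have h7 : |x - (β - s)| ≤ 1 / N := by
        rw [abs_le]
        constructor <;> linarith [hx.1, hx.2]
      have h8 := hD (β - s) x
      have h9 : Lam * |β - s - x| ≤ Lam / N := by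
        rw [abs_sub_comm, show Lam / (N : ℝ) = Lam * (1 / N) by ring]
        exact mul_le_mul_of_nonneg_left h7 hLam0
      have h10 := abs_le.1 h7
      have h11 := (abs_le.1 (h8.trans h9)).2
      refine ⟨?_, ?_, ?_⟩
      · linarith [h10.1, hs.2]
      · linarith [h10.2, hs.1]
      · linarith
    have hvol : ∑ i ∈ I, volume (T i) ≤ ENNReal.ofReal m := by
      rw [← measure_biUnion_finset hdisj fun i _ => measurableSet_Ico]
      exact (measure_mono hsub).trans hm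
    have hcell : ∀ i ∈ I, volume (T i) = ENNReal.ofReal (1 / N) := by
      intro i _
      simp only [hT, Real.volume_Ico]
      congr 1
      ring
    rw [sum_congr rfl hcell, sum_const, nsmul_eq_mul, ← ENNReal.ofReal_natCast,
      ← ENNReal.ofReal_mul (by positivity), ENNReal.ofReal_le_ofReal_iff hm0] at hvol
    rw [mul_one_div, div_le_iff₀ hN'] at hvol
    linarith
  · intro β h1 h2 h3
    have hβ : 0 ≤ β := hb.trans h1
    have h4 : (⌊(N : ℝ) * β⌋₊ : ℝ) ≤ N * β := Nat.floor_le (by positivity)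
    have h5 : (N : ℝ) * β < ⌊(N : ℝ) * β⌋₊ + 1 := Nat.lt_floor_add_one _
    have h6 : (⌊(N : ℝ) * β⌋₊ : ℝ) / N ≤ β := by
      rw [div_le_iff₀ hN']
      linarith
    have h7 : β ≤ ((⌊(N : ℝ) * β⌋₊ : ℝ) + 1) / N := by
      rw [le_div_iff₀ hN']
      linarith
    refine ⟨⌊(N : ℝ) * β⌋₊, mem_filter.2 ⟨mem_range.2 ?_, β, h1, h2, h3, h6, h7⟩, h6, h7⟩
    refine Nat.lt_succ_of_le (Nat.floor_mono ?_)
    exact mul_le_mul_of_nonneg_left h2 hN'.le

theorem cover_cells (D : ℝ → ℝ) (Lam lam m b : ℝ) (N J : ℕ) (s : ℕ → ℝ)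
    (hD : ∀ x y, |D x - D y| ≤ Lam * |x - y|) (hN : 1 ≤ N) (hLam0 : 0 ≤ Lam)
    (hLam : Lam / N < lam / 2)
    (hs : ∀ j < J, 0 ≤ s j ∧ s j ≤ 1) (hb : 0 ≤ b) (hm0 : 0 ≤ m)
    (hm : volume {β : ℝ | b - 2 ≤ β ∧ β ≤ b + 2 ∧ lam / 2 < D β} ≤ ENNReal.ofReal m) :
    ∃ I : Finset ℕ, (I.card : ℝ) ≤ J * (N * m) ∧ ∀ β : ℝ, b ≤ β → β ≤ b + 1 → ∀ j < J,
      lam < D (β - s j) → ∃ i ∈ I, (i : ℝ) / N ≤ β ∧ β ≤ ((i : ℝ) + 1) / N := by
  classical
  have h1 : ∀ j : ℕ, ∃ I : Finset ℕ, (I.card : ℝ) ≤ N * m ∧ (j < J → ∀ β : ℝ, b ≤ β → β ≤ b + 1 →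
      lam < D (β - s j) → ∃ i ∈ I, (i : ℝ) / N ≤ β ∧ β ≤ ((i : ℝ) + 1) / N) := by
    intro j
    by_cases hj : j < J
    · obtain ⟨I, hI1, hI2⟩ := F09_one D Lam lam m b N (s j) hD hN hLam0 hLam (hs j hj) hb hm0 hm
      exact ⟨I, hI1, fun _ => hI2⟩
    · refine ⟨∅, ?_, fun h => absurd h hj⟩
      rw [card_empty, Nat.cast_zero]
      positivity
  choose I hI1 hI2 using h1
  refine ⟨(range J).biUnion I, ?_, ?_⟩
  · calc (((range J).biUnion I).card : ℝ) ≤ ((∑ j ∈ range J, (I j).card : ℕ) : ℝ) := by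
          exact_mod_cast card_biUnion_le
      _ = ∑ j ∈ range J, ((I j).card : ℝ) := by push_cast; rfl
      _ ≤ ∑ _j ∈ range J, (N * m : ℝ) := sum_le_sum fun j _ => hI1 j
      _ = J * (N * m) := by rw [sum_const, card_range, nsmul_eq_mul]
  · intro β h2 h3 j hj h4
    obtain ⟨i, hi, h5⟩ := hI2 j hj β h2 h3 h4
    exact ⟨i, mem_biUnion.2 ⟨j, mem_range.2 hj, hi⟩, h5⟩

end BP4
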