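import Pool.Agent.LibBP4.Defs

/-!
TASK K01.  Selberg's identity `μ * log² = Λ log + Λ * Λ`.  With arithmetic functions:
`log * log-pointwise`: `log² (n) = log n ∑_{d∣n} Λ(d)`; `∑_{d∣n} (Λ(d) log d + Λ(d) log(n/d))
= ∑_{d∣n} Λ(d) log d + (Λ * Λ * ζ)(n) = ((Λ log + Λ*Λ) * ζ)(n)`; multiply by `μ`
(`ArithmeticFunction.vonMangoldt_mul_zeta : Λ * ζ = log`, `moebius_mul_coe_zeta`).
-/

open MeasureTheory Finset Filter
open scoped Topology

namespace BP4

open MR57 (tw DP trap SW wh ES IsCM Grep)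

theorem K01_sum (n : ℕ) (_hn : 0 < n) :
    ∑ d ∈ n.divisors, Lam2 d = Real.log n ^ 2 := by
  unfold Lam2
  rw [sum_add_distrib]
  have h1 : ∑ d ∈ n.divisors, ∑ x ∈ d.divisorsAntidiagonal,
      ArithmeticFunction.vonMangoldt x.1 * ArithmeticFunction.vonMangoldt x.2 =
      ∑ x ∈ n.divisorsAntidiagonal, ArithmeticFunction.vonMangoldt x.1 * Real.log x.2 := by
    have h2 : ((ArithmeticFunction.vonMangoldt * ArithmeticFunction.vonMangoldt) *
        (ArithmeticFunction.zeta : ArithmeticFunction ℝ)) n =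
        (ArithmeticFunction.vonMangoldt * ArithmeticFunction.log) n := by
      rw [mul_assoc, ArithmeticFunction.vonMangoldt_mul_zeta]
    rw [ArithmeticFunction.coe_mul_zeta_apply] at h2
    simp only [ArithmeticFunction.mul_apply, ArithmeticFunction.log_apply] at h2
    exact h2
  rw [h1]
  have h3 : ∑ d ∈ n.divisors, ArithmeticFunction.vonMangoldt d * Real.log d =
      ∑ x ∈ n.divisorsAntidiagonal, ArithmeticFunction.vonMangoldt x.1 * Real.log x.1 :=
    (Nat.sum_divisorsAntidiagonal (fun d _ =>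
      ArithmeticFunction.vonMangoldt d * Real.log d)).symm
  rw [h3, ← sum_add_distrib]
  calc ∑ x ∈ n.divisorsAntidiagonal, (ArithmeticFunction.vonMangoldt x.1 * Real.log x.1 +
        ArithmeticFunction.vonMangoldt x.1 * Real.log x.2)
      = ∑ x ∈ n.divisorsAntidiagonal, ArithmeticFunction.vonMangoldt x.1 * Real.log n := by
        refine sum_congr rfl fun x hx => ?_
        rw [Nat.mem_divisorsAntidiagonal] at hx
        have hx0 : x.1 * x.2 ≠ 0 := by rw [hx.1]; exact hx.2
        have hx1 : (x.1 : ℝ) ≠ 0 := by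
          exact_mod_cast (mul_ne_zero_iff.1 hx0).1
        have hx2 : (x.2 : ℝ) ≠ 0 := by
          exact_mod_cast (mul_ne_zero_iff.1 hx0).2
        rw [← mul_add, ← Real.log_mul hx1 hx2, ← hx.1]
        push_cast
        rfl
    _ = Real.log n ^ 2 := by
        rw [← sum_mul, Nat.sum_divisorsAntidiagonal (fun d _ =>
          ArithmeticFunction.vonMangoldt d), ArithmeticFunction.vonMangoldt_sum, sq]

theorem lam2_eq (n : ℕ) (hn : 1 ≤ n) :
    Lam2 n = ∑ x ∈ n.divisorsAntidiagonal,
      (ArithmeticFunction.moebius x.1 : ℝ) * Real.log x.2 ^ 2 := by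
  have h := (ArithmeticFunction.sum_eq_iff_sum_mul_moebius_eq (f := Lam2)
    (g := fun n => Real.log n ^ 2)).1 (fun n hn => K01_sum n hn) n hn
  exact h.symm

end BP4
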