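import Pool.Agent.LibBP4.K01

/-!
TASK K02.  Regrouping `n = a b`: `n` is `z`-rough iff `a` and `b` are; `a ≤ n ≤ (1+δ)x`.
-/

open MeasureTheory Finset Filter
open scoped Topology

namespace BP4

open MR57 (tw DP trap SW wh ES IsCM Grep)

theorem K02_rough_left {z : ℝ} {a b : ℕ} (h : Rough z (a * b)) : Rough z a := by
  refine ⟨?_, fun p hp hpa => h.2 p hp (hpa.mul_right b)⟩
  rintro rfl
  exact h.1 (by simp)

theorem K02_rough_right {z : ℝ} {a b : ℕ} (h : Rough z (a * b)) : Rough z b := by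
  refine ⟨?_, fun p hp hpa => h.2 p hp (hpa.mul_left a)⟩
  rintro rfl
  exact h.1 (by simp)

theorem K02_rough_mul {z : ℝ} {a b : ℕ} (ha : Rough z a) (hb : Rough z b) : Rough z (a * b) := by
  refine ⟨mul_ne_zero ha.1 hb.1, fun p hp hpab => ?_⟩
  rcases (Nat.Prime.dvd_mul hp).1 hpab with h | h
  · exact ha.2 p hp h
  · exact hb.2 p hp h

theorem lam2_regroup (z x δ t : ℝ) (hx : 1 ≤ x) (hδ : 0 ≤ δ) :
    ∑ n ∈ rgh z x ((1 + δ) * x), (Lam2 n : ℂ) * tw t n =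
      ∑ a ∈ rgh z 0 ((1 + δ) * x), ((ArithmeticFunction.moebius a : ℝ) : ℂ) * tw t a *
        ∑ b ∈ rgh z (x / a) ((1 + δ) * (x / a)), ((Real.log b ^ 2 : ℝ) : ℂ) * tw t b := by
  have hx0 : 0 ≤ x := by linarith
  have hL : ∀ n ∈ rgh z x ((1 + δ) * x), (Lam2 n : ℂ) * tw t n =
      ∑ y ∈ n.divisorsAntidiagonal, ((ArithmeticFunction.moebius y.1 : ℝ) : ℂ) * tw t y.1 *
        (((Real.log y.2 ^ 2 : ℝ) : ℂ) * tw t y.2) := by
    intro n hn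
    obtain ⟨_, hr⟩ := (mem_rgh hx0).1 hn
    rw [lam2_eq n (Nat.one_le_iff_ne_zero.2 hr.1)]
    push_cast
    rw [sum_mul]
    refine sum_congr rfl ?_
    rintro ⟨a, b⟩ hy
    obtain ⟨hab, hn0⟩ := Nat.mem_divisorsAntidiagonal.1 hy
    simp only at hab ⊢
    subst hab
    rw [tw_mul t a b (left_ne_zero_of_mul hn0) (right_ne_zero_of_mul hn0)]
    ring
  rw [sum_congr rfl hL]
  simp_rw [mul_sum]
  rw [sum_sigma', sum_sigma']
  refine sum_bij' (fun (q : Σ _ : ℕ, ℕ × ℕ) _ => (⟨q.2.1, q.2.2⟩ : Σ _ : ℕ, ℕ))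
    (fun (q : Σ _ : ℕ, ℕ) _ => (⟨q.1 * q.2, (q.1, q.2)⟩ : Σ _ : ℕ, ℕ × ℕ)) ?_ ?_ ?_ ?_ ?_
  · rintro ⟨n, a, b⟩ hq
    obtain ⟨hn, hab⟩ := mem_sigma.1 hq
    simp only at hn hab
    obtain ⟨hab, hn0⟩ := Nat.mem_divisorsAntidiagonal.1 hab
    simp only at hab
    subst hab
    obtain ⟨⟨h1, h2⟩, hr⟩ := (mem_rgh hx0).1 hn
    have hra := K02_rough_left hr
    have hrb := K02_rough_right hr
    have ha0 : (0 : ℝ) < a := by exact_mod_cast Nat.pos_of_ne_zero hra.1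
    have hb1 : (1 : ℝ) ≤ b := by exact_mod_cast Nat.one_le_iff_ne_zero.2 hrb.1
    push_cast at h1 h2
    refine mem_sigma.2 ⟨(mem_rgh le_rfl).2 ⟨⟨ha0, ?_⟩, hra⟩,
      (mem_rgh (by positivity)).2 ⟨⟨?_, ?_⟩, hrb⟩⟩
    · simp only
      nlinarith
    · simp only
      rw [div_lt_iff₀ ha0]
      linarith
    · simp only
      rw [← mul_div_assoc, le_div_iff₀ ha0]
      linarith
  · rintro ⟨a, b⟩ hq
    obtain ⟨ha, hb⟩ := mem_sigma.1 hq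
    simp only at ha hb
    obtain ⟨⟨h1, h2⟩, hra⟩ := (mem_rgh le_rfl).1 ha
    obtain ⟨⟨h3, h4⟩, hrb⟩ := (mem_rgh (by positivity)).1 hb
    rw [div_lt_iff₀ h1] at h3
    rw [← mul_div_assoc, le_div_iff₀ h1] at h4
    refine mem_sigma.2 ⟨(mem_rgh hx0).2 ⟨⟨?_, ?_⟩, K02_rough_mul hra hrb⟩,
      Nat.mem_divisorsAntidiagonal.2 ⟨rfl, mul_ne_zero hra.1 hrb.1⟩⟩
    · simp only
      push_cast
      linarith
    · simp only
      push_cast
      linarith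
  · rintro ⟨n, a, b⟩ hq
    obtain ⟨hn, hab⟩ := mem_sigma.1 hq
    simp only at hn hab
    obtain ⟨hab, hn0⟩ := Nat.mem_divisorsAntidiagonal.1 hab
    simp only at hab
    subst hab
    rfl
  · rintro ⟨a, b⟩ _
    rfl
  · rintro ⟨n, a, b⟩ _
    rfl

end BP4
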