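import Pool.Agent.LibBP4.E04

/-!
TASK K03.  Abel summation: with `S(v) = DP (rgh z 0 v) 1 t`,
`∑_{y < b ≤ (1+δ)y} log² b · b^{-it} 1_{rough} = log²((1+δ)y) S((1+δ)y) - log² y S(y) -
∫_y^{(1+δ)y} S(v) 2 log v / v dv`, hence `≤ 3 log²(2y) sup_{y ≤ v ≤ 2y} |S(v)|`
(`log²` is increasing), `rough_twist` on `[y, 2y]` and `log(2y) ≤ 2 log y`; the terms
`12 log² y (2y)^{1-c₁}` are `≤ y^{1-c₁/2}` for `y ≥ z ≥ z₁`.  (A discrete summation by parts, or
`Mathlib`'s `sum_mul_eq_sub_sub_integral_mul`, both work.)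
-/

open MeasureTheory Finset Filter
open scoped Topology

namespace BP4

open MR57 (tw DP trap SW wh ES IsCM Grep)

/-- Abel's inequality. -/
theorem K03_abel (g : ℕ → ℝ) (a : ℕ → ℂ) (hg : Monotone g) (hg0 : ∀ n, 0 ≤ g n) (m : ℕ) (B : ℝ) :
    ∀ N : ℕ, m ≤ N → (∀ k, m ≤ k → k ≤ N → ‖∑ n ∈ Ioc m k, a n‖ ≤ B) →
    ‖∑ n ∈ Ioc m N, (g n : ℂ) * a n - (g N : ℂ) * ∑ n ∈ Ioc m N, a n‖ ≤ (g N - g m) * B := by
  intro N hN
  induction N, hN using Nat.le_induction with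
  | base =>
    intro _
    simp
  | succ N hmN ih =>
    intro h
    have h1 := ih (fun k hk hk' => h k hk (by omega))
    have h2 := h N hmN (by omega)
    have h3 : ∀ f : ℕ → ℂ, ∑ n ∈ Ioc m (N + 1), f n = ∑ n ∈ Ioc m N, f n + f (N + 1) := by
      intro f
      rw [sum_Ioc_succ_top hmN]
    rw [h3, h3]
    have h4 : ∑ n ∈ Ioc m N, (g n : ℂ) * a n + (g (N + 1) : ℂ) * a (N + 1) -
        (g (N + 1) : ℂ) * (∑ n ∈ Ioc m N, a n + a (N + 1)) =
        (∑ n ∈ Ioc m N, (g n : ℂ) * a n - (g N : ℂ) * ∑ n ∈ Ioc m N, a n) -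
        ((g (N + 1) - g N : ℝ) : ℂ) * ∑ n ∈ Ioc m N, a n := by
      push_cast
      ring
    rw [h4]
    have h5 : 0 ≤ g (N + 1) - g N := by
      have := hg (Nat.le_succ N)
      simp only [Nat.succ_eq_add_one] at this
      linarith
    calc _ ≤ _ := norm_sub_le _ _
      _ ≤ (g N - g m) * B + (g (N + 1) - g N) * B := by
          apply add_le_add h1
          rw [norm_mul, Complex.norm_real, Real.norm_eq_abs, abs_of_nonneg h5]
          exact mul_le_mul_of_nonneg_left h2 h5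
      _ = (g (N + 1) - g m) * B := by ring

theorem K03_abel2 (g : ℕ → ℝ) (a : ℕ → ℂ) (hg : Monotone g) (hg0 : ∀ n, 0 ≤ g n) (m N : ℕ) (B : ℝ)
    (hN : m ≤ N) (hB : 0 ≤ B) (h : ∀ k, m ≤ k → k ≤ N → ‖∑ n ∈ Ioc m k, a n‖ ≤ B) :
    ‖∑ n ∈ Ioc m N, (g n : ℂ) * a n‖ ≤ 2 * g N * B := by
  have h1 := K03_abel g a hg hg0 m B N hN h
  have h2 : ‖(g N : ℂ) * ∑ n ∈ Ioc m N, a n‖ ≤ g N * B := by
    rw [norm_mul, Complex.norm_real, Real.norm_eq_abs, abs_of_nonneg (hg0 N)]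
    exact mul_le_mul_of_nonneg_left (h N hN le_rfl) (hg0 N)
  have h3 : ∑ n ∈ Ioc m N, (g n : ℂ) * a n =
      (∑ n ∈ Ioc m N, (g n : ℂ) * a n - (g N : ℂ) * ∑ n ∈ Ioc m N, a n) +
      (g N : ℂ) * ∑ n ∈ Ioc m N, a n := by ring
  rw [h3]
  have h4 : 0 ≤ g m * B := mul_nonneg (hg0 m) hB
  calc _ ≤ _ := norm_add_le _ _
    _ ≤ (g N - g m) * B + g N * B := add_le_add h1 h2
    _ ≤ 2 * g N * B := by linarith

theorem K03_mono : Monotone (fun n : ℕ => Real.log n ^ 2) := by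
  intro a b hab
  simp only
  rcases Nat.eq_zero_or_pos a with h | h
  · subst h
    simp
    positivity
  · have h1 : (1 : ℝ) ≤ a := by exact_mod_cast h
    have h2 : (a : ℝ) ≤ b := by exact_mod_cast hab
    have h3 : 0 ≤ Real.log a := Real.log_nonneg h1
    have h4 : Real.log a ≤ Real.log b := Real.log_le_log (by linarith) h2
    gcongr

open Classical in
/-- the coefficients -/
noncomputable def K03_a (z t : ℝ) (n : ℕ) : ℂ := if Rough z n then tw t n else 0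

theorem K03_DP (z v t : ℝ) : DP (rgh z 0 v) (fun _ => 1) t = ∑ n ∈ Ioc 0 ⌊v⌋₊, K03_a z t n := by
  classical
  unfold MR57.DP rgh win K03_a
  rw [Nat.floor_zero, sum_filter]
  apply sum_congr rfl
  intro n _
  split_ifs <;> simp

theorem inner_log2 : ∃ C c : ℝ, 0 < C ∧ 0 < c ∧ ∀ B : ℝ, 1 ≤ B → ∃ c₁ z₁ : ℝ, 0 < c₁ ∧
    c₁ ≤ 1 / 2 ∧ 2 ≤ z₁ ∧ ∀ z y t δ : ℝ, z₁ ≤ z → z ≤ y → |t| ≤ y ^ B → 0 ≤ δ → δ ≤ 1 →
    ‖∑ b ∈ rgh z y ((1 + δ) * y), ((Real.log b ^ 2 : ℝ) : ℂ) * tw t b‖ ≤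
      C * Real.log y ^ 2 * (y / Real.log z) *
        (Real.exp (-(c * (Real.log y / Real.log z))) + 1 / (1 + |t|)) + y ^ (1 - c₁) := by
  obtain ⟨C, c, hC, hc, hrt⟩ := rough_twist
  refine ⟨32 * C, c, by positivity, hc, ?_⟩
  intro B hB
  obtain ⟨c₁, z₁, hc₁, hc₁2, hz₁, hr⟩ := hrt B hB
  refine ⟨c₁ / 2, max z₁ ((2048 / c₁ ^ 2) ^ (4 / c₁)), by positivity, by linarith,
    le_trans hz₁ (le_max_left _ _), ?_⟩
  intro z y t δ hz hzy ht hδ hδ1
  have hz1 : z₁ ≤ z := le_trans (le_max_left _ _) hz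
  have hz2 : 2 ≤ z := hz₁.trans hz1
  have hy2 : 2 ≤ y := hz2.trans hzy
  have hy1 : 1 ≤ y := by linarith
  have hy0 : 0 < y := by linarith
  have hlz : 0 < Real.log z := Real.log_pos (by linarith)
  have hly : 0 < Real.log y := Real.log_pos (by linarith)
  -- growth
  have hgrow : 32 * Real.log y ^ 2 ≤ y ^ (c₁ / 2) := by
    have h1 : 2048 / c₁ ^ 2 ≤ y ^ (c₁ / 4) := by
      have h2 : (2048 / c₁ ^ 2) ^ (4 / c₁) ≤ y := le_trans (le_trans (le_max_right _ _) hz) hzy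
      have h3 : ((2048 / c₁ ^ 2) ^ (4 / c₁)) ^ (c₁ / 4) ≤ y ^ (c₁ / 4) :=
        Real.rpow_le_rpow (by positivity) h2 (by positivity)
      rw [← Real.rpow_mul (by positivity)] at h3
      have h4 : 4 / c₁ * (c₁ / 4) = 1 := by field_simp
      rwa [h4, Real.rpow_one] at h3
    have h5 := Real.log_le_rpow_div hy0.le (show 0 < c₁ / 8 by positivity)
    calc 32 * Real.log y ^ 2 ≤ 32 * (y ^ (c₁ / 8) / (c₁ / 8)) ^ 2 := by gcongr
      _ = 2048 / c₁ ^ 2 * (y ^ (c₁ / 8)) ^ 2 := by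
          field_simp
          ring
      _ = 2048 / c₁ ^ 2 * y ^ (c₁ / 4) := by
          rw [← Real.rpow_natCast (y ^ (c₁ / 8)) 2, ← Real.rpow_mul hy0.le]
          congr 2
          push_cast
          ring
      _ ≤ y ^ (c₁ / 4) * y ^ (c₁ / 4) := by gcongr
      _ = y ^ (c₁ / 2) := by
          rw [← Real.rpow_add hy0]
          congr 1
          ring
  set F : ℝ := Real.exp (-(c * (Real.log y / Real.log z))) + 1 / (1 + |t|) with hF
  have hF0 : 0 < F := by positivity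
  -- bound on [y, 2y]
  have hv : ∀ v : ℝ, y ≤ v → v ≤ 2 * y → ‖∑ n ∈ Ioc 0 ⌊v⌋₊, K03_a z t n‖ ≤
      2 * C * (y / Real.log z) * F + 2 * y ^ (1 - c₁) := by
    intro v hv1 hv2
    have hv0 : 0 < v := by linarith
    have h1 := hr z v t hz1 (hzy.trans hv1) (ht.trans (Real.rpow_le_rpow hy0.le hv1 (by linarith)))
    rw [K03_DP] at h1
    refine h1.trans ?_
    have h2 : v ^ (1 - c₁) ≤ 2 * y ^ (1 - c₁) := by
      calc v ^ (1 - c₁) ≤ (2 * y) ^ (1 - c₁) := Real.rpow_le_rpow hv0.le hv2 (by linarith)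
        _ = 2 ^ (1 - c₁) * y ^ (1 - c₁) := Real.mul_rpow (by norm_num) hy0.le
        _ ≤ 2 ^ (1 : ℝ) * y ^ (1 - c₁) := by
            have : (2 : ℝ) ^ (1 - c₁) ≤ 2 ^ (1 : ℝ) :=
              Real.rpow_le_rpow_of_exponent_le (by norm_num) (by linarith)
            gcongr
        _ = 2 * y ^ (1 - c₁) := by rw [Real.rpow_one]
    have h3 : Real.exp (-(c * (Real.log v / Real.log z))) ≤
        Real.exp (-(c * (Real.log y / Real.log z))) := by
      apply Real.exp_le_exp.2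
      have : Real.log y ≤ Real.log v := Real.log_le_log hy0 hv1
      have h4 : Real.log y / Real.log z ≤ Real.log v / Real.log z := by gcongr
      nlinarith
    calc C * (v / Real.log z) * (Real.exp (-(c * (Real.log v / Real.log z))) + 1 / (1 + |t|)) +
          v ^ (1 - c₁)
        ≤ C * (2 * y / Real.log z) * F + 2 * y ^ (1 - c₁) := by
          rw [hF]
          gcongr
      _ = 2 * C * (y / Real.log z) * F + 2 * y ^ (1 - c₁) := by ring
  set Q : ℝ := 2 * C * (y / Real.log z) * F + 2 * y ^ (1 - c₁) with hQ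
  have hQ0 : 0 < Q := by positivity
  have hyy : y ≤ (1 + δ) * y := by nlinarith
  have hyy2 : (1 + δ) * y ≤ 2 * y := by nlinarith
  have hfl : ⌊y⌋₊ ≤ ⌊(1 + δ) * y⌋₊ := Nat.floor_le_floor hyy
  have hsum : ∑ b ∈ rgh z y ((1 + δ) * y), ((Real.log b ^ 2 : ℝ) : ℂ) * tw t b =
      ∑ n ∈ Ioc ⌊y⌋₊ ⌊(1 + δ) * y⌋₊, ((Real.log n ^ 2 : ℝ) : ℂ) * K03_a z t n := by
    classical
    unfold rgh win K03_a
    rw [sum_filter]
    apply sum_congr rfl
    intro n _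
    split_ifs <;> simp
  have hB : ∀ k, ⌊y⌋₊ ≤ k → k ≤ ⌊(1 + δ) * y⌋₊ → ‖∑ n ∈ Ioc ⌊y⌋₊ k, K03_a z t n‖ ≤ 2 * Q := by
    intro k hk1 hk2
    rcases hk1.eq_or_lt with h | h
    · rw [← h]
      simp
      positivity
    · have h1 : y ≤ (k : ℝ) := ((Nat.floor_lt hy0.le).1 h).le
      have h2 : (k : ℝ) ≤ 2 * y := by
        have h3 : (k : ℝ) ≤ (⌊(1 + δ) * y⌋₊ : ℝ) := by exact_mod_cast hk2
        have h4 : (⌊(1 + δ) * y⌋₊ : ℝ) ≤ (1 + δ) * y := Nat.floor_le (by positivity)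
        linarith
      have h5 := hv k h1 h2
      rw [Nat.floor_natCast] at h5
      have h6 := hv y le_rfl (by linarith)
      have h7 : ∑ n ∈ Ioc ⌊y⌋₊ k, K03_a z t n =
          ∑ n ∈ Ioc 0 k, K03_a z t n - ∑ n ∈ Ioc 0 ⌊y⌋₊, K03_a z t n := by
        rw [eq_sub_iff_add_eq, add_comm]
        exact sum_Ioc_consecutive _ (by simp) hk1
      rw [h7]
      calc _ ≤ _ := norm_sub_le _ _
        _ ≤ 2 * Q := by linarith
  rw [hsum]
  have hab := K03_abel2 (fun n : ℕ => Real.log n ^ 2) (K03_a z t) K03_mono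
    (fun n => sq_nonneg _) ⌊y⌋₊ ⌊(1 + δ) * y⌋₊ (2 * Q) hfl (by positivity) hB
  refine hab.trans ?_
  have hlogN : Real.log (⌊(1 + δ) * y⌋₊ : ℝ) ^ 2 ≤ 4 * Real.log y ^ 2 := by
    have h1 : 1 ≤ ⌊(1 + δ) * y⌋₊ := by
      apply Nat.le_floor
      push_cast
      linarith
    have h2 : (1 : ℝ) ≤ (⌊(1 + δ) * y⌋₊ : ℝ) := by exact_mod_cast h1
    have h3 : (⌊(1 + δ) * y⌋₊ : ℝ) ≤ (1 + δ) * y := Nat.floor_le (by positivity)
    have h4 : Real.log (⌊(1 + δ) * y⌋₊ : ℝ) ≤ 2 * Real.log y := by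
      calc Real.log (⌊(1 + δ) * y⌋₊ : ℝ) ≤ Real.log (y * y) := by
            apply Real.log_le_log (by linarith)
            nlinarith
        _ = 2 * Real.log y := by
            rw [Real.log_mul hy0.ne' hy0.ne']
            ring
    have h5 : 0 ≤ Real.log (⌊(1 + δ) * y⌋₊ : ℝ) := Real.log_nonneg h2
    calc Real.log (⌊(1 + δ) * y⌋₊ : ℝ) ^ 2 ≤ (2 * Real.log y) ^ 2 := by gcongr
      _ = 4 * Real.log y ^ 2 := by ring
  calc 2 * Real.log (⌊(1 + δ) * y⌋₊ : ℝ) ^ 2 * (2 * Q) ≤ 2 * (4 * Real.log y ^ 2) * (2 * Q) := by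
        gcongr
    _ = 32 * C * Real.log y ^ 2 * (y / Real.log z) * F +
        32 * Real.log y ^ 2 * y ^ (1 - c₁) := by
        rw [hQ]
        ring
    _ ≤ 32 * C * Real.log y ^ 2 * (y / Real.log z) * F + y ^ (1 - c₁ / 2) := by
        have h1 : 32 * Real.log y ^ 2 * y ^ (1 - c₁) ≤ y ^ (c₁ / 2) * y ^ (1 - c₁) := by gcongr
        have h2 : y ^ (c₁ / 2) * y ^ (1 - c₁) = y ^ (1 - c₁ / 2) := by
          rw [← Real.rpow_add hy0]
          congr 1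
          ring
        linarith

end BP4
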