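import Pool.Agent.LibBP4.S12

/-!
TASK K04.  Reciprocals of the rough numbers in `(A, Az]`.  A rough number is `1` or `> z`.  For `A < 1` the sum
is `≤ 1` (only `a = 1` is possible).  For `A ≥ 1` all terms are `> max A z =: Y₀`; cover
`(Y₀, Az]` by the dyadic blocks `(2^k Y₀, 2^{k+1} Y₀]`, at most `log z/log 2 + 1` of them, each
contributing `≤ C/log z` by `rgh_card_le` (`h = 2^k Y₀ ≥ z`).
-/

open MeasureTheory Finset Filter
open scoped Topology

namespace BP4

open MR57 (tw DP trap SW wh ES IsCM Grep)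

private theorem K04_sum_union {s t u : Finset ℕ} (h : s ⊆ t ∪ u) :
    ∑ a ∈ s, 1 / (a : ℝ) ≤ ∑ a ∈ t, 1 / (a : ℝ) + ∑ a ∈ u, 1 / (a : ℝ) := by
  have h1 : ∑ a ∈ s, 1 / (a : ℝ) ≤ ∑ a ∈ t ∪ u, 1 / (a : ℝ) :=
    sum_le_sum_of_subset_of_nonneg h fun a _ _ => by positivity
  have h2 : ∑ a ∈ t ∪ u, 1 / (a : ℝ) + ∑ a ∈ t ∩ u, 1 / (a : ℝ) =
      ∑ a ∈ t, 1 / (a : ℝ) + ∑ a ∈ u, 1 / (a : ℝ) := sum_union_inter
  have h3 : 0 ≤ ∑ a ∈ t ∩ u, 1 / (a : ℝ) := sum_nonneg fun a _ => by positivity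
  linarith

private theorem K04_block {z C h : ℝ} (hz : 2 ≤ z) (hh : z ≤ h)
    (hC : ((rgh z h (h + h)).card : ℝ) ≤ C * (h / Real.log z)) :
    ∑ a ∈ rgh z h (h + h), 1 / (a : ℝ) ≤ C / Real.log z := by
  have hh0 : 0 < h := by linarith
  have h1 : ∑ a ∈ rgh z h (h + h), 1 / (a : ℝ) ≤ ∑ _a ∈ rgh z h (h + h), 1 / h := by
    refine sum_le_sum fun a ha => ?_
    rw [mem_rgh hh0.le] at ha
    exact one_div_le_one_div_of_le hh0 ha.1.1.le
  rw [sum_const, nsmul_eq_mul] at h1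
  have h2 : ((rgh z h (h + h)).card : ℝ) * (1 / h) ≤ C * (h / Real.log z) * (1 / h) :=
    mul_le_mul_of_nonneg_right hC (by positivity)
  have h3 : C * (h / Real.log z) * (1 / h) = C / Real.log z := by
    field_simp
  linarith

private theorem K04_dyadic {z C Y : ℝ} (hz : 2 ≤ z) (hY : z ≤ Y)
    (hC : ∀ z x h : ℝ, 2 ≤ z → 0 ≤ x → z ≤ h →
      ((rgh z x (x + h)).card : ℝ) ≤ C * (h / Real.log z)) (K : ℕ) :
    ∑ a ∈ rgh z Y (2 ^ K * Y), 1 / (a : ℝ) ≤ K * (C / Real.log z) := by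
  have hY0 : 0 < Y := by linarith
  induction K with
  | zero =>
    have h1 : rgh z Y (2 ^ 0 * Y) = ∅ := by
      apply eq_empty_of_forall_notMem
      intro a ha
      rw [mem_rgh hY0.le] at ha
      have h2 := ha.1.1
      have h3 := ha.1.2
      rw [pow_zero, one_mul] at h3
      linarith
    rw [h1]
    simp
  | succ K ih =>
    have h2K : (1 : ℝ) ≤ 2 ^ K := one_le_pow₀ (by norm_num)
    have hh : Y ≤ 2 ^ K * Y := by nlinarith
    have hsub : rgh z Y (2 ^ (K + 1) * Y) ⊆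
        rgh z Y (2 ^ K * Y) ∪ rgh z (2 ^ K * Y) (2 ^ K * Y + 2 ^ K * Y) := by
      intro a ha
      rw [mem_rgh hY0.le] at ha
      rw [mem_union, mem_rgh hY0.le, mem_rgh (by positivity)]
      by_cases h3 : (a : ℝ) ≤ 2 ^ K * Y
      · exact Or.inl ⟨⟨ha.1.1, h3⟩, ha.2⟩
      · refine Or.inr ⟨⟨not_le.1 h3, ?_⟩, ha.2⟩
        have h4 := ha.1.2
        rw [pow_succ] at h4
        linarith
    have h3 := K04_sum_union hsub
    have h4 := K04_block hz (hY.trans hh)
      (hC z (2 ^ K * Y) (2 ^ K * Y) hz (by positivity) (hY.trans hh))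
    push_cast
    linarith

private theorem K04_large {z : ℝ} {a : ℕ} (ha : Rough z a) (h1 : a ≠ 1) : z < a := by
  obtain ⟨p, hp, hpa⟩ := Nat.exists_prime_and_dvd h1
  have h2 := ha.2 p hp hpa
  have h3 : (p : ℝ) ≤ a := by exact_mod_cast Nat.le_of_dvd (Nat.pos_of_ne_zero ha.1) hpa
  linarith

theorem rough_harm : ∃ C : ℝ, 0 < C ∧ ∀ z A : ℝ, 2 ≤ z → 0 ≤ A →
    ∑ a ∈ rgh z A (A * z), 1 / (a : ℝ) ≤ C := by
  obtain ⟨C, hC0, hC⟩ := rgh_card_le
  have hl2 : 0 < Real.log 2 := Real.log_pos (by norm_num)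
  refine ⟨1 + 2 * C / Real.log 2, by positivity, fun z A hz hA => ?_⟩
  have hz0 : 0 < z := by linarith
  have hlz : Real.log 2 ≤ Real.log z := Real.log_le_log (by norm_num) hz
  have hlz0 : 0 < Real.log z := lt_of_lt_of_le hl2 hlz
  rcases lt_or_ge A 1 with hA1 | hA1
  · have hsub : rgh z A (A * z) ⊆ {1} := by
      intro a ha
      rw [mem_rgh hA] at ha
      rw [mem_singleton]
      by_contra h1
      have h2 := K04_large ha.2 h1
      have h3 := ha.1.2
      nlinarith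
    have h1 : ∑ a ∈ rgh z A (A * z), 1 / (a : ℝ) ≤ ∑ a ∈ ({1} : Finset ℕ), 1 / (a : ℝ) :=
      sum_le_sum_of_subset_of_nonneg hsub fun a _ _ => by positivity
    rw [sum_singleton] at h1
    have h2 : 0 ≤ 2 * C / Real.log 2 := by positivity
    norm_num at h1
    norm_num
    linarith
  · set K : ℕ := ⌊Real.log z / Real.log 2⌋₊ + 1 with hK
    have hK1 : Real.log z / Real.log 2 ≤ K := by
      rw [hK]
      push_cast
      exact (Nat.lt_floor_add_one _).le
    have hK2 : (K : ℝ) ≤ 2 * (Real.log z / Real.log 2) := by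
      rw [hK]
      push_cast
      have h1 : ((⌊Real.log z / Real.log 2⌋₊ : ℕ) : ℝ) ≤ Real.log z / Real.log 2 :=
        Nat.floor_le (by positivity)
      have h2 : 1 ≤ Real.log z / Real.log 2 := (one_le_div hl2).2 hlz
      linarith
    have hK3 : z ≤ 2 ^ K := by
      have h1 : Real.log z ≤ K * Real.log 2 := (div_le_iff₀ hl2).1 hK1
      rw [← Real.log_pow] at h1
      exact (Real.log_le_log_iff hz0 (by positivity)).1 h1
    have hY : z ≤ max A z := le_max_right _ _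
    have hsub : rgh z A (A * z) ⊆ rgh z (max A z) (2 ^ K * max A z) := by
      intro a ha
      rw [mem_rgh hA] at ha
      rw [mem_rgh (hA.trans (le_max_left _ _))]
      have h1 : a ≠ 1 := by
        rintro rfl
        have h2 := ha.1.1
        norm_num at h2
        linarith
      refine ⟨⟨max_lt ha.1.1 (K04_large ha.2 h1), ha.1.2.trans ?_⟩, ha.2⟩
      calc A * z ≤ max A z * 2 ^ K :=
            mul_le_mul (le_max_left _ _) hK3 hz0.le (hA.trans (le_max_left _ _))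
        _ = 2 ^ K * max A z := mul_comm _ _
    have h1 : ∑ a ∈ rgh z A (A * z), 1 / (a : ℝ) ≤
        ∑ a ∈ rgh z (max A z) (2 ^ K * max A z), 1 / (a : ℝ) :=
      sum_le_sum_of_subset_of_nonneg hsub fun a _ _ => by positivity
    have h2 := K04_dyadic hz hY hC K
    have h3 : (K : ℝ) * (C / Real.log z) ≤ 2 * (Real.log z / Real.log 2) * (C / Real.log z) :=
      mul_le_mul_of_nonneg_right hK2 (by positivity)
    have h4 : 2 * (Real.log z / Real.log 2) * (C / Real.log z) = 2 * C / Real.log 2 := by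
      field_simp
    linarith

end BP4
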