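import Pool.Agent.LibBP4.K03
import Pool.Agent.LibBP4.K04

/-!
TASK K05a.  The terms `a ≤ x/z`, `z = x^{1/u}`.  `inner_log2` with `y = x/a ≥ z`, `B = uA`
(`|t| ≤ x^A = z^{uA} ≤ y^B`).  Group the `a` by `z^v ≤ x/a < z^{v+1}`, `v = 1, ..., ⌊u⌋`, i.e.
`a ∈ (x/z^{v+1}, x/z^v]`, use `rough_harm` (`A = x/z^{v+1}`):
`∑ ≤ C x log z ∑_v (v+1)² (exp(-cv) + 1/T₀) ≤ C' x log z` if `T₀ ≥ (u+2)^3`.  The power terms:
`∑_{a ≤ x/z} (x/a)^{1-c₁} ≤ x^{1-c₁} (x/z)^{c₁} (1+1/c₁) = (1+1/c₁) x z^{-c₁} ≤ x` for
`x ≥ X₀`.  Finally `log z = log x/u`, and `z ≥ z₁, 2` for `x ≥ X₀`.  (`C₀` is absolute.)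
-/

open MeasureTheory Finset Filter
open scoped Topology

namespace BP4

open MR57 (tw DP trap SW wh ES IsCM Grep)

theorem K05a_sum {c : ℝ} (hc : 0 < c) : ∃ K : ℝ, 0 < K ∧ ∀ N : ℕ,
    ∑ v ∈ range N, ((v : ℝ) + 1) ^ 2 * Real.exp (-(c * v)) ≤ K := by
  have hs : Summable fun n : ℕ => (n : ℝ) ^ 2 * Real.exp (-c * n) :=
    Real.summable_pow_mul_exp_neg_nat_mul 2 hc
  set f : ℕ → ℝ := fun n : ℕ => (n : ℝ) ^ 2 * Real.exp (-c * n) with hf
  have hf0 : ∀ n, 0 ≤ f n := fun n => by positivity
  refine ⟨Real.exp c * (∑' n, f n) + 1, ?_, ?_⟩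
  · have h0 : 0 ≤ ∑' n, f n := tsum_nonneg hf0
    positivity
  · intro N
    have h1 : ∀ v ∈ range N, ((v : ℝ) + 1) ^ 2 * Real.exp (-(c * v)) = Real.exp c * f (v + 1) := by
      intro v _
      simp only [hf]
      push_cast
      have h2 : Real.exp (-(c * v)) = Real.exp c * Real.exp (-c * (v + 1)) := by
        rw [← Real.exp_add]
        congr 1
        ring
      rw [h2]
      ring
    rw [Finset.sum_congr rfl h1, ← Finset.mul_sum]
    have h3 : ∑ v ∈ range N, f (v + 1) ≤ ∑' n, f n := by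
      have h4 := Finset.sum_range_succ' f N
      have h5 : ∑ n ∈ range (N + 1), f n ≤ ∑' n, f n :=
        hs.sum_le_tsum _ (fun n _ => hf0 n)
      have h6 := hf0 0
      linarith
    have := mul_le_mul_of_nonneg_left h3 (Real.exp_pos c).le
    linarith

theorem part_small : ∃ C₀ : ℝ, 0 < C₀ ∧ ∀ u A : ℝ, 2 ≤ u → 1 ≤ A → ∃ X₀ T₀ : ℝ, 2 ≤ X₀ ∧
    1 ≤ T₀ ∧ ∀ x t δ : ℝ, X₀ ≤ x → T₀ ≤ |t| → |t| ≤ x ^ A → 0 ≤ δ → δ ≤ 1 →
    ∑ a ∈ rgh (x ^ (1 / u)) 0 (x / x ^ (1 / u)),
      ‖∑ b ∈ rgh (x ^ (1 / u)) (x / a) ((1 + δ) * (x / a)), ((Real.log b ^ 2 : ℝ) : ℂ) * tw t b‖ ≤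
      C₀ * x * Real.log x / u := by
  classical
  obtain ⟨C, c, hC, hc, hin⟩ := inner_log2
  obtain ⟨C', hC', hharm⟩ := rough_harm
  obtain ⟨K, hK, hsum⟩ := K05a_sum hc
  refine ⟨C' * (C * (K + 1) + 2), by positivity, ?_⟩
  intro u A hu hA
  obtain ⟨c₁, z₁, hc₁, hc₁', hz₁, hin'⟩ := hin (u * A) (by nlinarith)
  have hu0 : 0 < u := by linarith
  set b₀ : ℝ := max z₁ ((u + 2) ^ (1 / c₁)) with hb₀
  have hb₀1 : z₁ ≤ b₀ := le_max_left _ _
  have hb₀2 : (u + 2) ^ (1 / c₁) ≤ b₀ := le_max_right _ _
  have hb2 : 2 ≤ b₀ := hz₁.trans hb₀1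
  refine ⟨b₀ ^ u, (u + 2) ^ 3, ?_, ?_, ?_⟩
  · calc (2 : ℝ) ≤ b₀ := hb2
      _ = b₀ ^ (1 : ℝ) := (Real.rpow_one _).symm
      _ ≤ b₀ ^ u := Real.rpow_le_rpow_of_exponent_le (by linarith) (by linarith)
  · exact one_le_pow₀ (by linarith)
  · intro x t δ hx htT htA hδ0 hδ1
    have hb1u : (1 : ℝ) ≤ b₀ ^ u := Real.one_le_rpow (by linarith) (by linarith)
    have hx1 : 1 ≤ x := hb1u.trans hx
    have hx0 : 0 < x := by linarith
    have hzb : b₀ ≤ x ^ (1 / u) := by
      have h1 : (b₀ ^ u) ^ (1 / u) ≤ x ^ (1 / u) :=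
        Real.rpow_le_rpow (by positivity) hx (by positivity)
      rwa [← Real.rpow_mul (by linarith), mul_one_div_cancel hu0.ne', Real.rpow_one] at h1
    set z : ℝ := x ^ (1 / u) with hz
    have hz2 : 2 ≤ z := hb2.trans hzb
    have hz1 : z₁ ≤ z := hb₀1.trans hzb
    have hz0 : 0 < z := by linarith
    have hlz : 0 < Real.log z := Real.log_pos (by linarith)
    have hlzx : Real.log x = u * Real.log z := by
      rw [hz, Real.log_rpow hx0]
      field_simp
    have hlz2 : 1 / 2 ≤ Real.log z := by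
      have h1 : Real.log 2 ≤ Real.log z := Real.log_le_log (by norm_num) hz2
      have h2 := Real.log_two_gt_d9
      linarith
    have hzc : (u + 2) * z ^ (-c₁) ≤ 1 := by
      have h1 : ((u + 2) ^ (1 / c₁)) ^ c₁ ≤ z ^ c₁ :=
        Real.rpow_le_rpow (by positivity) (hb₀2.trans hzb) hc₁.le
      rw [← Real.rpow_mul (by linarith), one_div_mul_cancel hc₁.ne', Real.rpow_one] at h1
      rw [Real.rpow_neg hz0.le, ← div_eq_mul_inv, div_le_one (Real.rpow_pos_of_pos hz0 _)]
      exact h1
    have hzc0 : 0 ≤ z ^ (-c₁) := Real.rpow_nonneg hz0.le _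
    -- the blocks
    set N : ℕ := ⌊u⌋₊ + 1 with hN
    have hNu : (N : ℝ) ≤ u + 1 := by
      rw [hN]
      push_cast
      have := Nat.floor_le hu0.le
      linarith
    set S : ℕ → Finset ℕ := fun v => rgh z (x / z ^ (v + 1)) (x / z ^ (v + 1) * z) with hS
    set G : ℕ → ℝ := fun v =>
      x * (C * Real.log z * ((v : ℝ) + 1) ^ 2 * (Real.exp (-(c * v)) + 1 / (1 + |t|)) +
        z ^ (-c₁)) with hG
    have hG0 : ∀ v, 0 ≤ G v := by
      intro v
      simp only [hG]
      positivity
    have hterm : ∀ a ∈ rgh z 0 (x / z),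
        ‖∑ b ∈ rgh z (x / a) ((1 + δ) * (x / a)), ((Real.log b ^ 2 : ℝ) : ℂ) * tw t b‖ ≤
          ∑ v ∈ range N, if a ∈ S v then G v * (1 / (a : ℝ)) else 0 := by
      intro a ha
      rw [mem_rgh le_rfl] at ha
      obtain ⟨⟨h1, h2⟩, h3⟩ := ha
      have hy0 : 0 < x / a := div_pos hx0 h1
      have ha1 : (1 : ℝ) ≤ a := by
        have : 0 < a := by exact_mod_cast h1
        exact_mod_cast this
      have hyz : z ≤ x / a := by
        rw [le_div_iff₀ h1]
        rw [le_div_iff₀ hz0] at h2
        linarith [mul_comm z (a : ℝ)]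
      have hyx : x / a ≤ x := div_le_self hx0.le ha1
      have hlyz : Real.log z ≤ Real.log (x / a) := Real.log_le_log hz0 hyz
      have hlyx : Real.log (x / a) ≤ u * Real.log z := by
        rw [← hlzx]
        exact Real.log_le_log hy0 hyx
      set r : ℝ := Real.log (x / a) / Real.log z with hr
      have hr0 : 0 ≤ r := div_nonneg (hlz.le.trans hlyz) hlz.le
      have hru : r ≤ u := by
        rw [hr, div_le_iff₀ hlz]
        exact hlyx
      have hrl : r * Real.log z = Real.log (x / a) := div_mul_cancel₀ _ hlz.ne'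
      set v : ℕ := ⌊r⌋₊ with hv
      have hvr : (v : ℝ) ≤ r := Nat.floor_le hr0
      have hrv : r < v + 1 := Nat.lt_floor_add_one r
      have hvN : v ∈ range N := by
        rw [mem_range, hN, Nat.lt_succ_iff]
        exact Nat.floor_mono hru
      have haS : a ∈ S v := by
        simp only [hS]
        rw [mem_rgh (by positivity)]
        refine ⟨⟨?_, ?_⟩, h3⟩
        · rw [div_lt_iff₀ (by positivity)]
          have h4 : x / a < z ^ (v + 1) := by
            rw [← Real.log_lt_log_iff hy0 (by positivity), Real.log_pow, ← hrl]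
            push_cast
            exact mul_lt_mul_of_pos_right hrv hlz
          rw [div_lt_iff₀ h1] at h4
          linarith [mul_comm (z ^ (v + 1)) (a : ℝ)]
        · have h4 : z ^ v ≤ x / a := by
            rw [← Real.log_le_log_iff (by positivity) hy0, Real.log_pow, ← hrl]
            exact mul_le_mul_of_nonneg_right hvr hlz.le
          rw [le_div_iff₀ h1] at h4
          have h5 : x / z ^ (v + 1) * z = x / z ^ v := by
            rw [pow_succ]
            field_simp
          rw [h5, le_div_iff₀ (by positivity)]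
          linarith [mul_comm (z ^ v) (a : ℝ)]
      have htB : |t| ≤ (x / a) ^ (u * A) := by
        refine htA.trans ?_
        have h4 : x ^ A = z ^ (u * A) := by
          rw [hz, ← Real.rpow_mul hx0.le]
          congr 1
          field_simp
        rw [h4]
        exact Real.rpow_le_rpow hz0.le hyz (by positivity)
      have hmain := hin' z (x / a) t δ hz1 hyz htB hδ0 hδ1
      refine hmain.trans ?_
      have hle : C * Real.log (x / a) ^ 2 * ((x / a) / Real.log z) *
          (Real.exp (-(c * (Real.log (x / a) / Real.log z))) + 1 / (1 + |t|)) +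
          (x / a) ^ (1 - c₁) ≤ G v * (1 / (a : ℝ)) := by
        have e1 : (x / a) ^ (1 - c₁) ≤ (x / a) * z ^ (-c₁) := by
          rw [sub_eq_add_neg, Real.rpow_add hy0, Real.rpow_one]
          apply mul_le_mul_of_nonneg_left _ hy0.le
          exact Real.rpow_le_rpow_of_nonpos hz0 hyz (by linarith)
        have e2 : C * Real.log (x / a) ^ 2 * ((x / a) / Real.log z) *
            (Real.exp (-(c * (Real.log (x / a) / Real.log z))) + 1 / (1 + |t|)) ≤
            C * Real.log z * ((v : ℝ) + 1) ^ 2 * (x / a) *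
              (Real.exp (-(c * v)) + 1 / (1 + |t|)) := by
          have f1 : C * Real.log (x / a) ^ 2 * ((x / a) / Real.log z) =
              C * Real.log z * r ^ 2 * (x / a) := by
            rw [← hrl]
            field_simp
          rw [f1, ← hr]
          have f2 : r ^ 2 ≤ ((v : ℝ) + 1) ^ 2 := pow_le_pow_left₀ hr0 hrv.le 2
          have f3 : Real.exp (-(c * r)) ≤ Real.exp (-(c * v)) := by
            apply Real.exp_le_exp.2
            have := mul_le_mul_of_nonneg_left hvr hc.le
            linarith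
          have f4 : 0 ≤ 1 / (1 + |t|) := by positivity
          gcongr
        calc _ ≤ C * Real.log z * ((v : ℝ) + 1) ^ 2 * (x / a) *
              (Real.exp (-(c * v)) + 1 / (1 + |t|)) + (x / a) * z ^ (-c₁) := add_le_add e2 e1
          _ = G v * (1 / (a : ℝ)) := by
              simp only [hG]
              ring
      refine hle.trans ?_
      have hsingle := Finset.single_le_sum
        (f := fun v => if a ∈ S v then G v * (1 / (a : ℝ)) else 0) (s := range N)
        (fun w _ => by
          show 0 ≤ if a ∈ S w then G w * (1 / (a : ℝ)) else 0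
          split_ifs
          · exact mul_nonneg (hG0 w) (by positivity)
          · exact le_rfl) hvN
      simp only [haS, if_true] at hsingle
      exact hsingle
    refine (Finset.sum_le_sum hterm).trans ?_
    rw [Finset.sum_comm]
    have hblock : ∀ v ∈ range N,
        ∑ a ∈ rgh z 0 (x / z), (if a ∈ S v then G v * (1 / (a : ℝ)) else 0) ≤ G v * C' := by
      intro v _
      rw [← Finset.sum_filter]
      have h1 : ∑ a ∈ (rgh z 0 (x / z)).filter (fun a => a ∈ S v), G v * (1 / (a : ℝ)) ≤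
          ∑ a ∈ S v, G v * (1 / (a : ℝ)) := by
        apply Finset.sum_le_sum_of_subset_of_nonneg
        · intro a ha
          rw [mem_filter] at ha
          exact ha.2
        · intro a _ _
          exact mul_nonneg (hG0 v) (by positivity)
      refine h1.trans ?_
      rw [← Finset.mul_sum]
      exact mul_le_mul_of_nonneg_left (hharm z _ hz2 (by positivity)) (hG0 v)
    refine (Finset.sum_le_sum hblock).trans ?_
    rw [← Finset.sum_mul]
    have hGsum : ∑ v ∈ range N, G v ≤ x * Real.log z * (C * (K + 1) + 2) := by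
      simp only [hG]
      rw [← Finset.mul_sum, Finset.sum_add_distrib]
      have e1 : ∑ v ∈ range N, C * Real.log z * ((v : ℝ) + 1) ^ 2 *
          (Real.exp (-(c * v)) + 1 / (1 + |t|)) ≤ C * Real.log z * (K + 1) := by
        have f1 : ∀ v ∈ range N, C * Real.log z * ((v : ℝ) + 1) ^ 2 *
            (Real.exp (-(c * v)) + 1 / (1 + |t|)) =
            C * Real.log z * (((v : ℝ) + 1) ^ 2 * Real.exp (-(c * v)) +
              ((v : ℝ) + 1) ^ 2 * (1 / (1 + |t|))) := by
          intro v _
          ring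
        rw [Finset.sum_congr rfl f1, ← Finset.mul_sum, Finset.sum_add_distrib, ← Finset.sum_mul]
        apply mul_le_mul_of_nonneg_left _ (by positivity)
        have f2 : (∑ v ∈ range N, ((v : ℝ) + 1) ^ 2) * (1 / (1 + |t|)) ≤ 1 := by
          have g1 : ∑ v ∈ range N, ((v : ℝ) + 1) ^ 2 ≤ (u + 2) ^ 3 := by
            have g2 : ∀ v ∈ range N, ((v : ℝ) + 1) ^ 2 ≤ (u + 2) ^ 2 := by
              intro v hv
              rw [mem_range] at hv
              have g3 : (v : ℝ) + 1 ≤ N := by exact_mod_cast hv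
              apply pow_le_pow_left₀ (by positivity)
              linarith
            refine (Finset.sum_le_sum g2).trans ?_
            rw [Finset.sum_const, card_range, nsmul_eq_mul]
            calc (N : ℝ) * (u + 2) ^ 2 ≤ (u + 2) * (u + 2) ^ 2 := by
                  apply mul_le_mul_of_nonneg_right _ (by positivity)
                  linarith
              _ = (u + 2) ^ 3 := by ring
          have ht0 : 0 < 1 + |t| := by positivity
          rw [mul_one_div, div_le_one ht0]
          linarith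
        have f3 := hsum N
        linarith
      have e2 : ∑ v ∈ range N, z ^ (-c₁) ≤ 2 * Real.log z := by
        rw [Finset.sum_const, card_range, nsmul_eq_mul]
        have f1 : (N : ℝ) * z ^ (-c₁) ≤ (u + 2) * z ^ (-c₁) :=
          mul_le_mul_of_nonneg_right (by linarith) hzc0
        linarith
      calc x * (∑ v ∈ range N, C * Real.log z * ((v : ℝ) + 1) ^ 2 *
              (Real.exp (-(c * v)) + 1 / (1 + |t|)) + ∑ v ∈ range N, z ^ (-c₁)) ≤
            x * (C * Real.log z * (K + 1) + 2 * Real.log z) :=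
            mul_le_mul_of_nonneg_left (add_le_add e1 e2) hx0.le
        _ = x * Real.log z * (C * (K + 1) + 2) := by ring
    calc (∑ v ∈ range N, G v) * C' ≤ (x * Real.log z * (C * (K + 1) + 2)) * C' :=
          mul_le_mul_of_nonneg_right hGsum hC'.le
      _ = C' * (C * (K + 1) + 2) * x * Real.log x / u := by
          rw [hlzx]
          field_simp

end BP4
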