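import Pool.Agent.LibBP4.S12

/-!
TASK K05b.  The terms `x/z < a ≤ (1+δ)x`, `z = x^{1/u}`, `u ≥ 2`.  The inner sum has `b ∈ (x/a, (1+δ)x/a]`,
`x/a < z`; `b = 1` contributes `log² 1 = 0`, any other rough `b` is `> z`, so `a < 2x/z` and
`z < b ≤ 2z`: the inner sum is `≤ log²(2z) #rgh z z (2z) ≤ C z log z` (`rgh_card_le`), and there
are `≤ C (x/z)/log z` rough `a ∈ (x/z, 2x/z]` (`rgh_card_le`, `x/z ≥ z`).  Total `≤ C x`.
-/

open MeasureTheory Finset Filter
open scoped Topology

namespace BP4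

open MR57 (tw DP trap SW wh ES IsCM Grep)

/-- A rough number is `1` or larger than `z`. -/
theorem K05b_rough {z : ℝ} {b : ℕ} (h : Rough z b) (h1 : b ≠ 1) : z < b := by
  obtain ⟨h0, h2⟩ := h
  have h3 := Nat.minFac_prime h1
  have h4 := h2 _ h3 (Nat.minFac_dvd b)
  have h5 : b.minFac ≤ b := Nat.minFac_le (Nat.pos_of_ne_zero h0)
  have h6 : ((b.minFac : ℕ) : ℝ) ≤ b := by exact_mod_cast h5
  linarith

theorem K05b_inner (C z y δ t : ℝ) (hC : 0 < C) (hz : 2 ≤ z)
    (hcard : ((rgh z z (z + z)).card : ℝ) ≤ C * (z / Real.log z)) (hy0 : 0 ≤ y) (hy : y < z)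
    (hδ0 : 0 ≤ δ) (hδ : δ ≤ 1) :
    ‖∑ b ∈ rgh z y ((1 + δ) * y), ((Real.log b ^ 2 : ℝ) : ℂ) * tw t b‖ ≤
      if z < (1 + δ) * y then 4 * C * (z * Real.log z) else 0 := by
  classical
  have hlz : 0 < Real.log z := Real.log_pos (by linarith)
  have hl2 : Real.log (z + z) ≤ 2 * Real.log z := by
    have h1 : z + z ≤ z ^ 2 := by nlinarith
    have h2 := Real.log_le_log (by linarith) h1
    rw [Real.log_pow] at h2
    exact_mod_cast h2
  have hy2 : (1 + δ) * y ≤ z + z := by nlinarith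
  -- drop `b = 1`
  have hdrop : ∑ b ∈ rgh z y ((1 + δ) * y), ((Real.log b ^ 2 : ℝ) : ℂ) * tw t b =
      ∑ b ∈ (rgh z y ((1 + δ) * y)).filter (fun b => b ≠ 1),
        ((Real.log b ^ 2 : ℝ) : ℂ) * tw t b := by
    symm
    apply Finset.sum_subset (Finset.filter_subset _ _)
    intro b hb hb'
    rw [mem_filter] at hb'
    have h1 : b = 1 := by
      by_contra h
      exact hb' ⟨hb, h⟩
    subst h1
    simp
  rw [hdrop]
  split_ifs with hcase
  · refine (norm_sum_le _ _).trans ?_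
    have hterm : ∀ b ∈ (rgh z y ((1 + δ) * y)).filter (fun b => b ≠ 1),
        ‖((Real.log b ^ 2 : ℝ) : ℂ) * tw t b‖ ≤ (2 * Real.log z) ^ 2 := by
      intro b hb
      rw [mem_filter, mem_rgh hy0] at hb
      obtain ⟨⟨⟨h1, h2⟩, h3⟩, h4⟩ := hb
      have h5 := K05b_rough h3 h4
      have h6 : 0 ≤ Real.log b := Real.log_nonneg (by linarith)
      have h7 : Real.log b ≤ 2 * Real.log z :=
        (Real.log_le_log (by linarith) (h2.trans hy2)).trans hl2
      rw [norm_mul, norm_tw, mul_one, Complex.norm_real, Real.norm_eq_abs,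
        abs_of_nonneg (sq_nonneg _)]
      exact pow_le_pow_left₀ h6 h7 2
    refine (Finset.sum_le_sum hterm).trans ?_
    rw [Finset.sum_const, nsmul_eq_mul]
    have hsub : (rgh z y ((1 + δ) * y)).filter (fun b => b ≠ 1) ⊆ rgh z z (z + z) := by
      intro b hb
      rw [mem_filter, mem_rgh hy0] at hb
      obtain ⟨⟨⟨h1, h2⟩, h3⟩, h4⟩ := hb
      rw [mem_rgh (by linarith)]
      exact ⟨⟨K05b_rough h3 h4, h2.trans hy2⟩, h3⟩
    have hc : ((((rgh z y ((1 + δ) * y)).filter (fun b => b ≠ 1)).card : ℕ) : ℝ) ≤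
        C * (z / Real.log z) := le_trans (by exact_mod_cast Finset.card_le_card hsub) hcard
    calc ((((rgh z y ((1 + δ) * y)).filter (fun b => b ≠ 1)).card : ℕ) : ℝ) *
          (2 * Real.log z) ^ 2 ≤ (C * (z / Real.log z)) * (2 * Real.log z) ^ 2 :=
          mul_le_mul_of_nonneg_right hc (sq_nonneg _)
      _ = 4 * C * (z * Real.log z) := by
          field_simp
          ring
  · have hempty : (rgh z y ((1 + δ) * y)).filter (fun b => b ≠ 1) = ∅ := by
      apply Finset.filter_eq_empty_iff.2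
      intro b hb hb1
      rw [mem_rgh hy0] at hb
      have h5 := K05b_rough hb.2 hb1
      exact hcase (lt_of_lt_of_le h5 hb.1.2)
    rw [hempty, Finset.sum_empty, norm_zero]

theorem part_large : ∃ C : ℝ, 0 < C ∧ ∀ u : ℝ, 2 ≤ u → ∃ X₀ : ℝ, 2 ≤ X₀ ∧
    ∀ x t δ : ℝ, X₀ ≤ x → 0 ≤ δ → δ ≤ 1 →
    ∑ a ∈ rgh (x ^ (1 / u)) (x / x ^ (1 / u)) ((1 + δ) * x),
      ‖∑ b ∈ rgh (x ^ (1 / u)) (x / a) ((1 + δ) * (x / a)), ((Real.log b ^ 2 : ℝ) : ℂ) * tw t b‖ ≤
      C * x := by
  classical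
  obtain ⟨C, hC, hcard⟩ := rgh_card_le
  refine ⟨4 * C ^ 2, by positivity, fun u hu => ⟨(2 : ℝ) ^ u, ?_, ?_⟩⟩
  · calc (2 : ℝ) = (2 : ℝ) ^ (1 : ℝ) := (Real.rpow_one 2).symm
      _ ≤ (2 : ℝ) ^ u := Real.rpow_le_rpow_of_exponent_le (by norm_num) (by linarith)
  · intro x t δ hx hδ0 hδ1
    have h2u : (1 : ℝ) ≤ (2 : ℝ) ^ u := Real.one_le_rpow (by norm_num) (by linarith)
    have hx1 : 1 ≤ x := h2u.trans hx
    have hx0 : 0 < x := by linarith
    have hz2 : 2 ≤ x ^ (1 / u) := by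
      have h1 : ((2 : ℝ) ^ u) ^ (1 / u) ≤ x ^ (1 / u) :=
        Real.rpow_le_rpow (by positivity) hx (by positivity)
      rwa [← Real.rpow_mul (by norm_num), mul_one_div_cancel (by linarith), Real.rpow_one] at h1
    have hzz : x ^ (1 / u) * x ^ (1 / u) ≤ x := by
      rw [← Real.rpow_add hx0]
      calc x ^ (1 / u + 1 / u) ≤ x ^ (1 : ℝ) := by
            apply Real.rpow_le_rpow_of_exponent_le hx1
            have h3 : 1 / u ≤ 1 / 2 := one_div_le_one_div_of_le (by norm_num) hu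
            linarith
        _ = x := Real.rpow_one x
    set z : ℝ := x ^ (1 / u) with hz
    have hz0 : 0 < z := by linarith
    have hlz : 0 < Real.log z := Real.log_pos (by linarith)
    have hxz : z ≤ x / z := by
      rw [le_div_iff₀ hz0]
      exact hzz
    have hxz0 : 0 ≤ x / z := by positivity
    have hbound : ∀ a ∈ rgh z (x / z) ((1 + δ) * x),
        ‖∑ b ∈ rgh z (x / a) ((1 + δ) * (x / a)), ((Real.log b ^ 2 : ℝ) : ℂ) * tw t b‖ ≤
          if a ∈ rgh z (x / z) (x / z + x / z) then 4 * C * (z * Real.log z) else 0 := by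
      intro a ha
      have ha' := ha
      rw [mem_rgh hxz0] at ha
      obtain ⟨⟨h1, h2⟩, h3⟩ := ha
      have ha0 : (0 : ℝ) < a := lt_of_le_of_lt hxz0 h1
      have hy : x / a < z := by
        rw [div_lt_iff₀ ha0]
        rw [div_lt_iff₀ hz0] at h1
        linarith [mul_comm z (a : ℝ)]
      refine (K05b_inner C z (x / a) δ t hC hz2 (hcard z z z hz2 hz0.le le_rfl)
        (div_nonneg hx0.le ha0.le) hy hδ0 hδ1).trans ?_
      split_ifs with h4 h5
      · exact le_rfl
      · exfalso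
        apply h5
        rw [mem_rgh hxz0]
        refine ⟨⟨h1, ?_⟩, h3⟩
        have h6 : z < 2 * (x / a) := lt_of_lt_of_le h4 (by
          apply mul_le_mul_of_nonneg_right _ (div_nonneg hx0.le ha0.le)
          linarith)
        have h7 : z * a < 2 * x := by
          have := mul_lt_mul_of_pos_right h6 ha0
          rwa [mul_assoc, div_mul_cancel₀ _ ha0.ne'] at this
        have h8 : (a : ℝ) < 2 * x / z := by
          rw [lt_div_iff₀ hz0]
          linarith [mul_comm z (a : ℝ)]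
        have h9 : 2 * x / z = x / z + x / z := by ring
        linarith
      · positivity
      · exact le_rfl
    refine (Finset.sum_le_sum hbound).trans ?_
    rw [← Finset.sum_filter, Finset.sum_const, nsmul_eq_mul]
    have hsub : ((rgh z (x / z) ((1 + δ) * x)).filter
        (fun a => a ∈ rgh z (x / z) (x / z + x / z))) ⊆ rgh z (x / z) (x / z + x / z) := by
      intro a ha
      rw [mem_filter] at ha
      exact ha.2
    have hc : ((((rgh z (x / z) ((1 + δ) * x)).filter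
        (fun a => a ∈ rgh z (x / z) (x / z + x / z))).card : ℕ) : ℝ) ≤
        C * ((x / z) / Real.log z) :=
      le_trans (by exact_mod_cast Finset.card_le_card hsub) (hcard z (x / z) (x / z) hz2 hxz0 hxz)
    calc ((((rgh z (x / z) ((1 + δ) * x)).filter
        (fun a => a ∈ rgh z (x / z) (x / z + x / z))).card : ℕ) : ℝ) *
          (4 * C * (z * Real.log z)) ≤ (C * ((x / z) / Real.log z)) *
          (4 * C * (z * Real.log z)) := mul_le_mul_of_nonneg_right hc (by positivity)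
      _ = 4 * C ^ 2 * x := by
          field_simp

end BP4
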