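import Pool.Agent.LibBP4.K02
import Pool.Agent.LibBP4.K05a
import Pool.Agent.LibBP4.K05b

/-!
TASK K05.  Selberg's function over rough numbers, twisted (assembly): `lam2_regroup`, `|μ| ≤ 1`, split the
range of `a` at `x/z`, `part_small`, `part_large` (`C x ≤ x log x/u` for `x ≥ X₀(u)`).
-/

open MeasureTheory Finset Filter
open scoped Topology

namespace BP4

open MR57 (tw DP trap SW wh ES IsCM Grep)

theorem lam2_bound : ∃ C₀ : ℝ, 0 < C₀ ∧ ∀ u A : ℝ, 2 ≤ u → 1 ≤ A → ∃ X₀ T₀ : ℝ, 2 ≤ X₀ ∧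
    1 ≤ T₀ ∧ ∀ x t δ : ℝ, X₀ ≤ x → T₀ ≤ |t| → |t| ≤ x ^ A → 0 ≤ δ → δ ≤ 1 →
    ‖∑ n ∈ rgh (x ^ (1 / u)) x ((1 + δ) * x), (Lam2 n : ℂ) * tw t n‖ ≤
      C₀ * x * Real.log x / u := by
  obtain ⟨C₁, hC₁, hs⟩ := part_small
  obtain ⟨C₂, hC₂, hl⟩ := part_large
  refine ⟨C₁ + C₂, by positivity, ?_⟩
  intro u A hu hA
  obtain ⟨X₁, T₁, hX₁, hT₁, hs'⟩ := hs u A hu hA
  obtain ⟨X₂, hX₂, hl'⟩ := hl u hu
  refine ⟨max (max X₁ X₂) (Real.exp u), T₁, (hX₁.trans (le_max_left _ _)).trans (le_max_left _ _),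
    hT₁, ?_⟩
  intro x t δ hx hT ht hδ hδ1
  have hxX₁ : X₁ ≤ x := ((le_max_left _ _).trans (le_max_left _ _)).trans hx
  have hxX₂ : X₂ ≤ x := ((le_max_right _ _).trans (le_max_left _ _)).trans hx
  have hxu : Real.exp u ≤ x := (le_max_right _ _).trans hx
  have hx2 : 2 ≤ x := hX₁.trans hxX₁
  have hu0 : 0 < u := by linarith
  have hlogu : u ≤ Real.log x := by
    rw [← Real.log_exp u]
    exact Real.log_le_log (Real.exp_pos u) hxu
  have h1 := hs' x t δ hxX₁ hT ht hδ hδ1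
  have h2 := hl' x t δ hxX₂ hδ hδ1
  set z : ℝ := x ^ (1 / u) with hz
  have hz1 : 1 ≤ z := Real.one_le_rpow (by linarith) (by positivity)
  have hz0 : 0 < z := by linarith
  rw [lam2_regroup z x δ t (by linarith) hδ]
  have hsplit : rgh z 0 ((1 + δ) * x) ⊆ rgh z 0 (x / z) ∪ rgh z (x / z) ((1 + δ) * x) := by
    intro a ha
    rw [mem_rgh le_rfl] at ha
    rw [mem_union, mem_rgh le_rfl, mem_rgh (by positivity)]
    by_cases h : (a : ℝ) ≤ x / z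
    · exact Or.inl ⟨⟨ha.1.1, h⟩, ha.2⟩
    · exact Or.inr ⟨⟨not_le.mp h, ha.1.2⟩, ha.2⟩
  have hterm : ∀ a : ℕ, ‖((ArithmeticFunction.moebius a : ℝ) : ℂ) * tw t a *
      ∑ b ∈ rgh z (x / a) ((1 + δ) * (x / a)), ((Real.log b ^ 2 : ℝ) : ℂ) * tw t b‖ ≤
      ‖∑ b ∈ rgh z (x / a) ((1 + δ) * (x / a)), ((Real.log b ^ 2 : ℝ) : ℂ) * tw t b‖ := by
    intro a
    rw [norm_mul, norm_mul, norm_tw, mul_one]
    have hmu : ‖((ArithmeticFunction.moebius a : ℝ) : ℂ)‖ ≤ 1 := by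
      rw [Complex.norm_real, Real.norm_eq_abs]
      have := ArithmeticFunction.abs_moebius_le_one (n := a)
      exact_mod_cast this
    calc _ ≤ 1 * ‖∑ b ∈ rgh z (x / a) ((1 + δ) * (x / a)),
          ((Real.log b ^ 2 : ℝ) : ℂ) * tw t b‖ :=
          mul_le_mul_of_nonneg_right hmu (norm_nonneg _)
      _ = _ := one_mul _
  calc ‖∑ a ∈ rgh z 0 ((1 + δ) * x), ((ArithmeticFunction.moebius a : ℝ) : ℂ) * tw t a *
        ∑ b ∈ rgh z (x / a) ((1 + δ) * (x / a)), ((Real.log b ^ 2 : ℝ) : ℂ) * tw t b‖ ≤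
      ∑ a ∈ rgh z 0 ((1 + δ) * x),
        ‖∑ b ∈ rgh z (x / a) ((1 + δ) * (x / a)), ((Real.log b ^ 2 : ℝ) : ℂ) * tw t b‖ :=
        (norm_sum_le _ _).trans (sum_le_sum fun a _ => hterm a)
    _ ≤ ∑ a ∈ rgh z 0 (x / z) ∪ rgh z (x / z) ((1 + δ) * x),
        ‖∑ b ∈ rgh z (x / a) ((1 + δ) * (x / a)), ((Real.log b ^ 2 : ℝ) : ℂ) * tw t b‖ :=
        sum_le_sum_of_subset_of_nonneg hsplit (fun _ _ _ => norm_nonneg _)
    _ ≤ (∑ a ∈ rgh z 0 (x / z),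
        ‖∑ b ∈ rgh z (x / a) ((1 + δ) * (x / a)), ((Real.log b ^ 2 : ℝ) : ℂ) * tw t b‖) +
        ∑ a ∈ rgh z (x / z) ((1 + δ) * x),
        ‖∑ b ∈ rgh z (x / a) ((1 + δ) * (x / a)), ((Real.log b ^ 2 : ℝ) : ℂ) * tw t b‖ := by
        classical
        have h := sum_union_inter (s₁ := rgh z 0 (x / z)) (s₂ := rgh z (x / z) ((1 + δ) * x))
          (f := fun a : ℕ => ‖∑ b ∈ rgh z (x / a) ((1 + δ) * (x / a)),
            ((Real.log b ^ 2 : ℝ) : ℂ) * tw t b‖)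
        have h' : 0 ≤ ∑ a ∈ rgh z 0 (x / z) ∩ rgh z (x / z) ((1 + δ) * x),
            ‖∑ b ∈ rgh z (x / a) ((1 + δ) * (x / a)), ((Real.log b ^ 2 : ℝ) : ℂ) * tw t b‖ :=
          sum_nonneg fun _ _ => norm_nonneg _
        linarith
    _ ≤ C₁ * x * Real.log x / u + C₂ * x := add_le_add h1 h2
    _ ≤ (C₁ + C₂) * x * Real.log x / u := by
        have h3 : C₂ * x ≤ C₂ * x * Real.log x / u := by
          rw [le_div_iff₀ hu0]
          exact mul_le_mul_of_nonneg_left hlogu (by positivity)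
        have h4 : (C₁ + C₂) * x * Real.log x / u = C₁ * x * Real.log x / u +
            C₂ * x * Real.log x / u := by ring
        linarith

end BP4
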