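import Pool.Agent.LibBP4.Ext

/-!
TASK K06.  Chebyshev bounds (from `x_card_primes_le` with `4z = x`, and `θ(x) ≤ C x`; Mathlib has
`Chebyshev.theta_le_log4_mul_x` or similar).
-/

open MeasureTheory Finset Filter
open scoped Topology

namespace BP4

open MR57 (tw DP trap SW wh ES IsCM Grep)

theorem cheb : ∃ C : ℝ, 0 < C ∧ (∀ x : ℝ, 2 ≤ x → ((prm 0 x).card : ℝ) ≤ C * (x / Real.log x)) ∧
    ∀ x : ℝ, 0 ≤ x → ∑ p ∈ prm 0 x, Real.log p ≤ C * x := by
  obtain ⟨C, hC, H⟩ := x_card_primes_le
  have h4 : Real.log 4 ≤ 8 := by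
    have := Real.log_le_sub_one_of_pos (by norm_num : (0 : ℝ) < 4)
    linarith
  refine ⟨C + 8, by linarith, ?_, ?_⟩
  · intro x hx
    have hlog : 0 < Real.log x := Real.log_pos (by linarith)
    rcases lt_or_ge x 8 with h8 | h8
    · have h1 : ((prm 0 x).card : ℝ) ≤ x := by
        have h2 : (prm 0 x).card ≤ ⌊x⌋₊ := by
          unfold prm win
          refine (card_filter_le _ _).trans ?_
          rw [Nat.card_Ioc, Nat.floor_zero]
          omega
        have h3 : ((⌊x⌋₊ : ℕ) : ℝ) ≤ x := Nat.floor_le (by linarith)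
        have h2' : ((prm 0 x).card : ℝ) ≤ (⌊x⌋₊ : ℕ) := by exact_mod_cast h2
        linarith
      have h5 : 1 ≤ x / Real.log x := by
        rw [le_div_iff₀ hlog]
        have := Real.log_le_sub_one_of_pos (by linarith : (0 : ℝ) < x)
        linarith
      nlinarith
    · have h1 := H (x / 4) (by linarith)
      have hsub : prm 0 x ⊆ (range (⌊4 * (x / 4)⌋₊ + 1)).filter Nat.Prime := by
        intro p hp
        rw [prm_zero] at hp
        rw [mul_div_cancel₀ _ (by norm_num : (4 : ℝ) ≠ 0)]
        rw [mem_filter, mem_Icc] at hp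
        rw [mem_filter, mem_range]
        exact ⟨by omega, hp.2⟩
      have h2 : ((prm 0 x).card : ℝ) ≤ C * (x / 4 / Real.log (x / 4)) := by
        refine le_trans ?_ h1
        exact_mod_cast card_le_card hsub
      have h3 : Real.log x ≤ 3 * Real.log (x / 4) := by
        have h5 : x ≤ (x / 4) ^ 3 := by nlinarith [mul_nonneg (by linarith : (0:ℝ) ≤ x) (by linarith : (0:ℝ) ≤ x - 8), mul_nonneg (mul_nonneg (by linarith : (0:ℝ) ≤ x) (by linarith : (0:ℝ) ≤ x - 8)) (by linarith : (0:ℝ) ≤ x)]
        have h6 := Real.log_le_log (by linarith) h5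
        rw [Real.log_pow] at h6
        exact_mod_cast h6
      have h7 : 0 < Real.log (x / 4) := by linarith
      have h8' : x / 4 / Real.log (x / 4) ≤ x / Real.log x := by
        rw [div_le_div_iff₀ h7 hlog]
        nlinarith
      have h9 : 0 ≤ x / Real.log x := by positivity
      nlinarith
  · intro x hx
    have h1 := Chebyshev.theta_le_log4_mul_x hx
    have h2 : ∑ p ∈ prm 0 x, Real.log p = Chebyshev.theta x := by
      unfold prm win Chebyshev.theta
      rw [Nat.floor_zero]
    rw [h2]
    nlinarith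

end BP4
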