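import Pool.Agent.LibBP4.K06

/-!
TASK K07b.  The part `(Λ*Λ)(n)`, `n = a b` `z`-rough in `(x, (1+δ)x]`, `a = p^i`, `b = q^j`, `p, q > z`,
`z = x^{1/u}`, `u ≥ 2`.  Pairs of primes `(p, q)` with `p ≤ x/z`: exactly `BB` (there `q > x/p ≥ z`
is automatic).  Pairs of primes with `p > x/z`: then `q < 2z`, `p < 2x/z`: total
`≤ θ(2x/z) θ(2z) ≤ C x` (`cheb`).  Terms with `i ≥ 2` or `j ≥ 2`:
`≤ 2 ∑_{p > z, i ≥ 2} log p · ψ(2x/p^i) ≤ C x ∑_{p > z} log p/p² ≤ C x`
(`ψ(y) ≤ C y`: Mathlib's `Chebyshev.psi` bounds).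
-/

open MeasureTheory Finset Filter
open scoped Topology

namespace BP4

open MR57 (tw DP trap SW wh ES IsCM Grep)

/-- the von Mangoldt function on non-primes -/
noncomputable def K07b_c (a : ℕ) : ℝ := if a.Prime then 0 else ArithmeticFunction.vonMangoldt a

theorem K07b_c_nonneg (a : ℕ) : 0 ≤ K07b_c a := by
  unfold K07b_c
  split_ifs
  · exact le_rfl
  · exact ArithmeticFunction.vonMangoldt_nonneg

theorem K07b_sum_c (N : ℕ) : ∑ a ∈ Icc 1 N, K07b_c a = Chebyshev.psi N - Chebyshev.theta N := by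
  rw [Chebyshev.psi_sub_theta_eq_sum_not_prime, Nat.floor_natCast, sum_filter]
  have h : Ioc 0 N = Icc 1 N := by
    ext a
    simp only [mem_Ioc, mem_Icc]
    omega
  rw [h]
  refine sum_congr rfl fun a _ => ?_
  unfold K07b_c
  by_cases ha : a.Prime <;> simp [ha]

theorem K07b_np_sum : ∃ C : ℝ, 0 < C ∧ ∀ N : ℕ, ∑ a ∈ Icc 1 N, K07b_c a / a ≤ C := by
  obtain ⟨C0, hC0⟩ := Chebyshev.psi_sub_theta_le_mul_sqrt
  set C := max C0 1 with hC
  have hC1 : 1 ≤ C := le_max_right _ _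
  have hA : ∀ N : ℕ, ∑ a ∈ Icc 1 N, K07b_c a ≤ C * Real.sqrt N := by
    intro N
    rw [K07b_sum_c]
    exact (hC0 N).trans (mul_le_mul_of_nonneg_right (le_max_left _ _) (Real.sqrt_nonneg _))
  refine ⟨3 * C, by positivity, ?_⟩
  have key : ∀ N : ℕ, ∑ a ∈ Icc 1 (N + 1), K07b_c a / a ≤
      (∑ a ∈ Icc 1 (N + 1), K07b_c a) / ((N + 1 : ℕ) : ℝ) + C * (2 - 2 / Real.sqrt ((N + 1 : ℕ) : ℝ)) := by
    intro N
    induction N with
    | zero => simp
    | succ N ih =>
      rw [sum_Icc_succ_top (by omega), sum_Icc_succ_top (by omega) (f := K07b_c)]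
      set A := ∑ a ∈ Icc 1 (N + 1), K07b_c a with hAdef
      set B := ∑ a ∈ Icc 1 (N + 1), K07b_c a / a with hBdef
      have hAN := hA (N + 1)
      rw [← hAdef] at hAN
      set n : ℝ := ((N + 1 : ℕ) : ℝ) with hn
      have hn1 : (1 : ℝ) ≤ n := by
        rw [hn]
        exact_mod_cast Nat.succ_le_succ (Nat.zero_le N)
      have hn' : ((N + 1 + 1 : ℕ) : ℝ) = n + 1 := by rw [hn]; push_cast; ring
      rw [hn']
      set r := Real.sqrt n with hr
      set q := Real.sqrt (n + 1) with hq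
      have hr2 : r ^ 2 = n := Real.sq_sqrt (by linarith)
      have hq2 : q ^ 2 = n + 1 := Real.sq_sqrt (by linarith)
      have hr1 : 1 ≤ r := by rw [hr, Real.one_le_sqrt]; exact hn1
      have hq1 : 1 ≤ q := by rw [hq, Real.one_le_sqrt]; linarith
      have hrq : r ≤ q := Real.sqrt_le_sqrt (by linarith)
      have hcore : A * (1 / n - 1 / (n + 1)) ≤ C * (2 / r - 2 / q) := by
        have h1 : 1 / n - 1 / (n + 1) = 1 / (r ^ 2 * q ^ 2) := by
          rw [hr2, hq2]; field_simp; ring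
        have h2 : 1 / (r * q ^ 2) ≤ 2 / r - 2 / q := by
          rw [div_sub_div _ _ (by positivity) (by positivity), div_le_div_iff₀ (by positivity)
            (by positivity)]
          have h3 : (q - r) * (q + r) = 1 := by nlinarith
          have h4 : 1 ≤ (q - r) * (2 * q) := by nlinarith [mul_nonneg (sub_nonneg.2 hrq) (sub_nonneg.2 hrq)]
          have h5 : 0 ≤ r * q := by positivity
          nlinarith [mul_le_mul_of_nonneg_left h4 h5]
        rw [h1]
        calc A * (1 / (r ^ 2 * q ^ 2)) ≤ (C * r) * (1 / (r ^ 2 * q ^ 2)) :=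
              mul_le_mul_of_nonneg_right hAN (by positivity)
          _ = C * (1 / (r * q ^ 2)) := by field_simp
          _ ≤ C * (2 / r - 2 / q) := mul_le_mul_of_nonneg_left h2 (by linarith)
      have e1 : (A + K07b_c (N + 1 + 1)) / (n + 1) = A / (n + 1) + K07b_c (N + 1 + 1) / (n + 1) := by
        ring
      have e2 : A * (1 / n - 1 / (n + 1)) = A / n - A / (n + 1) := by ring
      have e3 : C * (2 / r - 2 / q) = C * (2 - 2 / q) - C * (2 - 2 / r) := by ring
      rw [e2, e3] at hcore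
      rw [e1]
      linarith
  intro N
  rcases Nat.eq_zero_or_pos N with h0 | h0
  · subst h0
    simp
    linarith
  · obtain ⟨M, rfl⟩ : ∃ M, N = M + 1 := ⟨N - 1, by omega⟩
    have h1 := key M
    have hn1 : (1 : ℝ) ≤ ((M + 1 : ℕ) : ℝ) := by exact_mod_cast Nat.succ_le_succ (Nat.zero_le M)
    have h2 : (∑ a ∈ Icc 1 (M + 1), K07b_c a) / ((M + 1 : ℕ) : ℝ) ≤ C := by
      rw [div_le_iff₀ (by linarith)]
      refine (hA (M + 1)).trans (mul_le_mul_of_nonneg_left ?_ (by linarith))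
      rw [Real.sqrt_le_left (by linarith)]
      nlinarith
    have h3 : 0 ≤ 2 / Real.sqrt ((M + 1 : ℕ) : ℝ) := by positivity
    nlinarith

theorem K07b_double (C1 : ℝ) (h1 : ∀ N : ℕ, ∑ a ∈ Icc 1 N, K07b_c a / a ≤ C1) {X : ℝ} (hX : 0 ≤ X)
    (N : ℕ) :
    ∑ a ∈ Icc 1 N, K07b_c a * ∑ b ∈ (Icc 1 N).filter (fun b : ℕ => (a : ℝ) * b ≤ X),
      ArithmeticFunction.vonMangoldt b ≤ (Real.log 4 + 4) * X * C1 := by
  have hc : 0 < Real.log 4 + 4 := by
    have := Real.log_nonneg (by norm_num : (1 : ℝ) ≤ 4)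
    linarith
  calc ∑ a ∈ Icc 1 N, K07b_c a * ∑ b ∈ (Icc 1 N).filter (fun b : ℕ => (a : ℝ) * b ≤ X),
      ArithmeticFunction.vonMangoldt b
      ≤ ∑ a ∈ Icc 1 N, (Real.log 4 + 4) * X * (K07b_c a / a) := by
        refine sum_le_sum fun a ha => ?_
        rw [mem_Icc] at ha
        have ha0 : (0 : ℝ) < a := by exact_mod_cast ha.1
        have h2 : ∑ b ∈ (Icc 1 N).filter (fun b : ℕ => (a : ℝ) * b ≤ X),
            ArithmeticFunction.vonMangoldt b ≤ Chebyshev.psi (X / a) := by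
          unfold Chebyshev.psi
          refine sum_le_sum_of_subset_of_nonneg ?_ fun _ _ _ =>
            ArithmeticFunction.vonMangoldt_nonneg
          intro b hb
          rw [mem_filter, mem_Icc] at hb
          rw [mem_Ioc]
          refine ⟨hb.1.1, Nat.le_floor ?_⟩
          rw [le_div_iff₀ ha0]
          linarith [hb.2]
        have h3 := Chebyshev.psi_le_const_mul_self (x := X / a) (by positivity)
        calc K07b_c a * ∑ b ∈ (Icc 1 N).filter (fun b : ℕ => (a : ℝ) * b ≤ X),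
            ArithmeticFunction.vonMangoldt b ≤ K07b_c a * ((Real.log 4 + 4) * (X / a)) :=
              mul_le_mul_of_nonneg_left (h2.trans h3) (K07b_c_nonneg a)
          _ = (Real.log 4 + 4) * X * (K07b_c a / a) := by ring
    _ = (Real.log 4 + 4) * X * ∑ a ∈ Icc 1 N, K07b_c a / a := by rw [mul_sum]
    _ ≤ (Real.log 4 + 4) * X * C1 := mul_le_mul_of_nonneg_left (h1 N) (by positivity)

theorem conv_part : ∃ C : ℝ, 0 < C ∧ ∀ u : ℝ, 2 ≤ u → ∃ X₀ : ℝ, 2 ≤ X₀ ∧ ∀ x t δ : ℝ, X₀ ≤ x →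
    0 ≤ δ → δ ≤ 1 →
    ‖∑ n ∈ rgh (x ^ (1 / u)) x ((1 + δ) * x),
        ((∑ y ∈ n.divisorsAntidiagonal, ArithmeticFunction.vonMangoldt y.1 *
          ArithmeticFunction.vonMangoldt y.2 : ℝ) : ℂ) * tw t n -
      BB δ x (x ^ (1 / u)) t‖ ≤ C * x := by
  classical
  obtain ⟨C0, hC0, _, hcheb⟩ := cheb
  obtain ⟨C1, hC1, hnp⟩ := K07b_np_sum
  have hc4 : 0 < Real.log 4 + 4 := by
    have := Real.log_nonneg (by norm_num : (1 : ℝ) ≤ 4)
    linarith
  refine ⟨4 * C0 ^ 2 + 2 * ((Real.log 4 + 4) * 2 * C1), by positivity, ?_⟩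
  intro u hu
  refine ⟨2, le_rfl, ?_⟩
  intro x t δ hx hδ0 hδ1
  have hx0 : 0 < x := by linarith
  set z := x ^ (1 / u) with hz
  have hz0 : 0 < z := Real.rpow_pos_of_pos hx0 _
  set X := (1 + δ) * x with hX
  have hX0 : 0 < X := by positivity
  have hX2 : X ≤ 2 * x := by nlinarith
  set N := ⌊X⌋₊ with hN
  set S := rgh z x X with hS
  set Y : Finset (ℕ × ℕ) := ((Icc 1 N) ×ˢ (Icc 1 N)).filter (fun y => y.1 * y.2 ∈ S) with hY
  have hSmem : ∀ n, n ∈ S ↔ (x < n ∧ (n : ℝ) ≤ X) ∧ Rough z n := fun n => mem_rgh hx0.le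
  have hYmem : ∀ y : ℕ × ℕ, y ∈ Y ↔ y.1 * y.2 ∈ S := by
    intro y
    rw [hY, mem_filter, mem_product, mem_Icc, mem_Icc]
    constructor
    · exact fun h => h.2
    · intro h
      have h2 := (hSmem _).1 h
      have hne : y.1 * y.2 ≠ 0 := h2.2.1
      have hle : y.1 * y.2 ≤ N := Nat.le_floor h2.1.2
      have h3 : 1 ≤ y.1 := Nat.one_le_iff_ne_zero.2 (left_ne_zero_of_mul hne)
      have h4 : 1 ≤ y.2 := Nat.one_le_iff_ne_zero.2 (right_ne_zero_of_mul hne)
      refine ⟨⟨⟨h3, le_trans ?_ hle⟩, ⟨h4, le_trans ?_ hle⟩⟩, h⟩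
      · exact Nat.le_mul_of_pos_right _ h4
      · exact Nat.le_mul_of_pos_left _ h3
  set L : ℕ → ℝ := fun n => ArithmeticFunction.vonMangoldt n with hL
  have hL0 : ∀ n, 0 ≤ L n := fun n => ArithmeticFunction.vonMangoldt_nonneg
  set F : ℕ × ℕ → ℂ := fun y => ((L y.1 * L y.2 : ℝ) : ℂ) * tw t (y.1 * y.2) with hF
  have hFn : ∀ y, ‖F y‖ = L y.1 * L y.2 := by
    intro y
    simp only [hF]
    rw [norm_mul, norm_tw, mul_one, Complex.norm_real, Real.norm_eq_abs,
      abs_of_nonneg (mul_nonneg (hL0 _) (hL0 _))]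
  -- step 1
  have hstep1 : ∑ n ∈ S, ((∑ y ∈ n.divisorsAntidiagonal, ArithmeticFunction.vonMangoldt y.1 *
          ArithmeticFunction.vonMangoldt y.2 : ℝ) : ℂ) * tw t n = ∑ y ∈ Y, F y := by
    rw [← sum_fiberwise_of_maps_to (g := fun y : ℕ × ℕ => y.1 * y.2) (t := S)
      (fun y hy => (hYmem y).1 hy)]
    refine sum_congr rfl fun n hn => ?_
    have hset : Y.filter (fun y => y.1 * y.2 = n) = n.divisorsAntidiagonal := by
      ext y
      rw [mem_filter, hYmem, Nat.mem_divisorsAntidiagonal]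
      constructor
      · rintro ⟨h1, h2⟩
        refine ⟨h2, ?_⟩
        exact ((hSmem n).1 hn).2.1
      · rintro ⟨h1, h2⟩
        rw [h1]
        exact ⟨hn, rfl⟩
    rw [hset, Complex.ofReal_sum, sum_mul]
    refine sum_congr rfl fun y hy => ?_
    rw [Nat.mem_divisorsAntidiagonal] at hy
    simp only [hF, hL]
    rw [hy.1]
  rw [hstep1]
  -- step 2: split
  have hsplit : ∑ y ∈ Y, F y = ∑ y ∈ Y.filter (fun y => y.1.Prime ∧ y.2.Prime), F y +
      ∑ y ∈ Y.filter (fun y => ¬ (y.1.Prime ∧ y.2.Prime)), F y :=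
    (sum_filter_add_sum_filter_not _ _ _).symm
  have hsplit2 : ∑ y ∈ Y.filter (fun y => y.1.Prime ∧ y.2.Prime), F y =
      ∑ y ∈ (Y.filter (fun y => y.1.Prime ∧ y.2.Prime)).filter (fun y => (y.1 : ℝ) ≤ x / z), F y +
      ∑ y ∈ (Y.filter (fun y => y.1.Prime ∧ y.2.Prime)).filter (fun y => ¬ (y.1 : ℝ) ≤ x / z),
        F y := (sum_filter_add_sum_filter_not _ _ _).symm
  have hrough : ∀ y ∈ Y.filter (fun y => y.1.Prime ∧ y.2.Prime),
      z < y.1 ∧ z < y.2 ∧ x < (y.1 : ℝ) * y.2 ∧ (y.1 : ℝ) * y.2 ≤ X ∧ y.1.Prime ∧ y.2.Prime := by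
    intro y hy
    rw [mem_filter, hYmem, hSmem] at hy
    obtain ⟨⟨⟨h1, h2⟩, h3⟩, h4, h5⟩ := hy
    push_cast at h1 h2
    exact ⟨h3.2 _ h4 (Dvd.intro _ rfl), h3.2 _ h5 (Dvd.intro_left _ rfl), h1, h2, h4, h5⟩
  -- BB
  have hBB : BB δ x z t = ∑ y ∈ (Y.filter (fun y => y.1.Prime ∧ y.2.Prime)).filter
      (fun y => (y.1 : ℝ) ≤ x / z), F y := by
    rw [sum_finset_product _ (prm z (x / z)) (fun p => prm (x / p) ((1 + δ) * (x / p)))]
    · unfold BB W
      refine sum_congr rfl fun p hp => ?_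
      rw [mul_sum]
      refine sum_congr rfl fun q hq => ?_
      rw [mem_prm hz0.le] at hp
      have hp0 : (0 : ℝ) < p := hz0.trans hp.1.1
      rw [mem_prm (by positivity)] at hq
      simp only [hF, hL]
      rw [ArithmeticFunction.vonMangoldt_apply_prime hp.2,
        ArithmeticFunction.vonMangoldt_apply_prime hq.2, tw_mul t p q hp.2.ne_zero hq.2.ne_zero]
      push_cast
      ring
    · rintro ⟨p, q⟩
      constructor
      · intro h
        rw [mem_filter] at h
        obtain ⟨h1, h2⟩ := h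
        obtain ⟨h3, h4, h5, h6, h7, h8⟩ := hrough _ h1
        simp only at h2 h3 h4 h5 h6 h7 h8 ⊢
        have hp0 : (0 : ℝ) < p := hz0.trans h3
        rw [mem_prm hz0.le, mem_prm (by positivity)]
        refine ⟨⟨⟨h3, h2⟩, h7⟩, ⟨?_, ?_⟩, h8⟩
        · rw [div_lt_iff₀ hp0]; linarith
        · rw [← mul_div_assoc, le_div_iff₀ hp0]; linarith
      · rintro ⟨hp, hq⟩
        simp only at hp hq
        rw [mem_prm hz0.le] at hp
        have hp0 : (0 : ℝ) < p := hz0.trans hp.1.1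
        rw [mem_prm (by positivity)] at hq
        obtain ⟨⟨h1, h2⟩, h3⟩ := hp
        obtain ⟨⟨h4, h5⟩, h6⟩ := hq
        rw [mem_filter, mem_filter, hYmem, hSmem]
        simp only
        have h4' := h4
        rw [div_lt_iff₀ hp0] at h4
        rw [← mul_div_assoc, le_div_iff₀ hp0] at h5
        have hzq : z < q := by
          refine lt_of_le_of_lt ?_ h4'
          rw [le_div_iff₀ hp0]
          rw [le_div_iff₀ hz0] at h2
          linarith
        refine ⟨⟨⟨⟨?_, ?_⟩, ?_, ?_⟩, h3, h6⟩, h2⟩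
        · push_cast; linarith
        · push_cast; linarith
        · exact mul_ne_zero h3.ne_zero h6.ne_zero
        · intro r hr hd
          rcases (Nat.Prime.dvd_mul hr).1 hd with h | h
          · rw [(Nat.prime_dvd_prime_iff_eq hr h3).1 h]; exact h1
          · rw [(Nat.prime_dvd_prime_iff_eq hr h6).1 h]; exact hzq
  -- large p
  have hlarge : ‖∑ y ∈ (Y.filter (fun y => y.1.Prime ∧ y.2.Prime)).filter
      (fun y => ¬ (y.1 : ℝ) ≤ x / z), F y‖ ≤ 4 * C0 ^ 2 * x := by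
    set Yl := (Y.filter (fun y => y.1.Prime ∧ y.2.Prime)).filter
      (fun y => ¬ (y.1 : ℝ) ≤ x / z) with hYl
    calc ‖∑ y ∈ Yl, F y‖
        ≤ ∑ y ∈ Yl, Real.log y.1 * Real.log y.2 := by
          refine (norm_sum_le _ _).trans (sum_le_sum fun y hy => ?_)
          rw [mem_filter] at hy
          obtain ⟨_, _, _, _, h7, h8⟩ := hrough _ hy.1
          rw [hFn]
          simp only [hL]
          rw [ArithmeticFunction.vonMangoldt_apply_prime h7,
            ArithmeticFunction.vonMangoldt_apply_prime h8]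
      _ ≤ ∑ y ∈ (prm 0 (2 * x / z)) ×ˢ (prm 0 (2 * z)), Real.log y.1 * Real.log y.2 := by
          refine sum_le_sum_of_subset_of_nonneg ?_ fun y _ _ =>
            mul_nonneg (Real.log_natCast_nonneg _) (Real.log_natCast_nonneg _)
          intro y hy
          rw [mem_filter] at hy
          obtain ⟨h3, h4, h5, h6, h7, h8⟩ := hrough _ hy.1
          have h9 := hy.2
          rw [not_le, div_lt_iff₀ hz0] at h9
          have hp0 : (0 : ℝ) < y.1 := hz0.trans h3
          have hq0 : (0 : ℝ) < y.2 := hz0.trans h4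
          rw [mem_product, mem_prm le_rfl, mem_prm le_rfl]
          refine ⟨⟨⟨hp0, ?_⟩, h7⟩, ⟨hq0, ?_⟩, h8⟩
          · rw [le_div_iff₀ hz0]
            nlinarith
          · by_contra hcon
            push Not at hcon
            nlinarith
      _ = (∑ p ∈ prm 0 (2 * x / z), Real.log p) * ∑ q ∈ prm 0 (2 * z), Real.log q := by
          rw [sum_product, sum_mul_sum]
      _ ≤ (C0 * (2 * x / z)) * (C0 * (2 * z)) := by
          refine mul_le_mul (hcheb _ (by positivity)) (hcheb _ (by positivity)) ?_ (by positivity)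
          exact sum_nonneg fun q _ => Real.log_natCast_nonneg q
      _ = 4 * C0 ^ 2 * x := by field_simp; ring
  -- prime powers
  have hpow : ‖∑ y ∈ Y.filter (fun y => ¬ (y.1.Prime ∧ y.2.Prime)), F y‖ ≤
      2 * ((Real.log 4 + 4) * 2 * C1) * x := by
    have hD := K07b_double C1 hnp hX0.le N
    set D : ℝ := ∑ a ∈ Icc 1 N, K07b_c a *
      ∑ b ∈ (Icc 1 N).filter (fun b : ℕ => (a : ℝ) * b ≤ X), ArithmeticFunction.vonMangoldt b
      with hDdef
    have hD1 : ∑ y ∈ Y, K07b_c y.1 * L y.2 ≤ D := by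
      have e : D = ∑ y ∈ ((Icc 1 N) ×ˢ (Icc 1 N)).filter
          (fun y : ℕ × ℕ => (y.1 : ℝ) * y.2 ≤ X), K07b_c y.1 * L y.2 := by
        rw [sum_finset_product _ (Icc 1 N)
          (fun a => (Icc 1 N).filter (fun b : ℕ => (a : ℝ) * b ≤ X))]
        · simp only [hDdef, mul_sum, hL]
        · rintro ⟨a, b⟩
          simp only [mem_filter, mem_product, mem_Icc]
          tauto
      rw [e]
      refine sum_le_sum_of_subset_of_nonneg ?_ fun y _ _ => mul_nonneg (K07b_c_nonneg _) (hL0 _)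
      intro y hy
      have h1 := (hSmem _).1 ((hYmem y).1 hy)
      rw [hY, mem_filter] at hy
      rw [mem_filter]
      refine ⟨hy.1, ?_⟩
      have := h1.1.2
      push_cast at this
      exact this
    have hD2 : ∑ y ∈ Y, L y.1 * K07b_c y.2 ≤ D := by
      have e : ∑ y ∈ Y, L y.1 * K07b_c y.2 = ∑ y ∈ Y, K07b_c y.1 * L y.2 := by
        refine sum_bij' (fun y _ => (y.2, y.1)) (fun y _ => (y.2, y.1)) ?_ ?_ ?_ ?_ ?_
        · intro y hy
          rw [hYmem] at hy ⊢
          simpa [mul_comm] using hy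
        · intro y hy
          rw [hYmem] at hy ⊢
          simpa [mul_comm] using hy
        · intro y _; rfl
        · intro y _; rfl
        · intro y _
          simp only
          ring
      rw [e]
      exact hD1
    calc ‖∑ y ∈ Y.filter (fun y => ¬ (y.1.Prime ∧ y.2.Prime)), F y‖
        ≤ ∑ y ∈ Y.filter (fun y => ¬ (y.1.Prime ∧ y.2.Prime)),
            (K07b_c y.1 * L y.2 + L y.1 * K07b_c y.2) := by
          refine (norm_sum_le _ _).trans (sum_le_sum fun y hy => ?_)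
          rw [mem_filter] at hy
          rw [hFn]
          by_cases h1 : y.1.Prime
          · have h2 : ¬ y.2.Prime := fun h => hy.2 ⟨h1, h⟩
            have h3 : K07b_c y.2 = L y.2 := by simp [K07b_c, h2, hL]
            rw [h3]
            have := mul_nonneg (K07b_c_nonneg y.1) (hL0 y.2)
            linarith
          · have h3 : K07b_c y.1 = L y.1 := by simp [K07b_c, h1, hL]
            rw [h3]
            have := mul_nonneg (hL0 y.1) (K07b_c_nonneg y.2)
            linarith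
      _ ≤ ∑ y ∈ Y, (K07b_c y.1 * L y.2 + L y.1 * K07b_c y.2) := by
          refine sum_le_sum_of_subset_of_nonneg (filter_subset _ _) fun y _ _ => ?_
          exact add_nonneg (mul_nonneg (K07b_c_nonneg _) (hL0 _))
            (mul_nonneg (hL0 _) (K07b_c_nonneg _))
      _ = ∑ y ∈ Y, K07b_c y.1 * L y.2 + ∑ y ∈ Y, L y.1 * K07b_c y.2 := sum_add_distrib
      _ ≤ 2 * ((Real.log 4 + 4) * X * C1) := by linarith
      _ ≤ 2 * ((Real.log 4 + 4) * 2 * C1) * x := by
          have : (Real.log 4 + 4) * X * C1 ≤ (Real.log 4 + 4) * (2 * x) * C1 :=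
            mul_le_mul_of_nonneg_right (mul_le_mul_of_nonneg_left hX2 hc4.le) hC1.le
          nlinarith
  rw [hsplit, hsplit2, ← hBB]
  have e : ∀ a b c : ℂ, a + b + c - a = b + c := fun a b c => by ring
  rw [e]
  refine (norm_add_le _ _).trans ?_
  have : (4 * C0 ^ 2 + 2 * ((Real.log 4 + 4) * 2 * C1)) * x =
      4 * C0 ^ 2 * x + 2 * ((Real.log 4 + 4) * 2 * C1) * x := by ring
  rw [this]
  exact add_le_add hlarge hpow

end BP4
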