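import Pool.Agent.LibBP4.K07a
import Pool.Agent.LibBP4.K07b

/-!
TASK K07.  From `Λ₂` over the rough numbers in `(x, (1+δ)x]` to primes and products of two primes (assembly).
-/

open MeasureTheory Finset Filter
open scoped Topology

namespace BP4

open MR57 (tw DP trap SW wh ES IsCM Grep)

theorem lam2_vs : ∃ C : ℝ, 0 < C ∧ ∀ u : ℝ, 2 ≤ u → ∃ X₀ : ℝ, 2 ≤ X₀ ∧ ∀ x t δ : ℝ, X₀ ≤ x →
    0 ≤ δ → δ ≤ 1 →
    ‖∑ n ∈ rgh (x ^ (1 / u)) x ((1 + δ) * x), (Lam2 n : ℂ) * tw t n -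
      ((Real.log x : ℂ) * W δ x t + BB δ x (x ^ (1 / u)) t)‖ ≤ C * x := by
  obtain ⟨C1, hC1, h1⟩ := lam_part
  obtain ⟨C2, hC2, h2⟩ := conv_part
  refine ⟨C1 + C2, by linarith, fun u hu => ?_⟩
  obtain ⟨X1, hX1, h1⟩ := h1 u hu
  obtain ⟨X2, hX2, h2⟩ := h2 u hu
  refine ⟨max X1 X2, le_max_of_le_left hX1, fun x t δ hx hδ hδ1 => ?_⟩
  have a1 := h1 x t δ (le_trans (le_max_left _ _) hx) hδ hδ1
  have a2 := h2 x t δ (le_trans (le_max_right _ _) hx) hδ hδ1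
  have e0 : ∀ n : ℕ, (Lam2 n : ℂ) * tw t n =
      ((ArithmeticFunction.vonMangoldt n * Real.log n : ℝ) : ℂ) * tw t n +
      ((∑ y ∈ n.divisorsAntidiagonal, ArithmeticFunction.vonMangoldt y.1 *
          ArithmeticFunction.vonMangoldt y.2 : ℝ) : ℂ) * tw t n := by
    intro n
    unfold Lam2
    push_cast
    ring
  have e : ∑ n ∈ rgh (x ^ (1 / u)) x ((1 + δ) * x), (Lam2 n : ℂ) * tw t n -
      ((Real.log x : ℂ) * W δ x t + BB δ x (x ^ (1 / u)) t) =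
      (∑ n ∈ rgh (x ^ (1 / u)) x ((1 + δ) * x),
        ((ArithmeticFunction.vonMangoldt n * Real.log n : ℝ) : ℂ) * tw t n -
      (Real.log x : ℂ) * W δ x t) +
      (∑ n ∈ rgh (x ^ (1 / u)) x ((1 + δ) * x),
        ((∑ y ∈ n.divisorsAntidiagonal, ArithmeticFunction.vonMangoldt y.1 *
          ArithmeticFunction.vonMangoldt y.2 : ℝ) : ℂ) * tw t n -
      BB δ x (x ^ (1 / u)) t) := by
    rw [sum_congr rfl (fun n _ => e0 n), sum_add_distrib]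
    ring
  rw [e]
  refine (norm_add_le _ _).trans ?_
  linarith

end BP4
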