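import Pool.Agent.LibBP4.K06

/-!
TASK K07a.  The part `Λ(n) log n` over the `z`-rough `n ∈ (x, (1+δ)x]`, `z = x^{1/u}`, `u ≥ 2`.  For a prime
`n = p ∈ (x, (1+δ)x]` (it is rough since `p > x ≥ z`) the term is `log² p`, compared with
`log x log p`: difference `≤ log p · log 2`, total `≤ C x` (`cheb`).  Prime powers `p^k`, `k ≥ 2`: at
most `C √x log x` of them below `2x`, each term `≤ log²(2x)`, total `≤ x` for `x ≥ X₀`.
-/

open MeasureTheory Finset Filter
open scoped Topology

namespace BP4

open MR57 (tw DP trap SW wh ES IsCM Grep)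

theorem lam_part : ∃ C : ℝ, 0 < C ∧ ∀ u : ℝ, 2 ≤ u → ∃ X₀ : ℝ, 2 ≤ X₀ ∧ ∀ x t δ : ℝ, X₀ ≤ x →
    0 ≤ δ → δ ≤ 1 →
    ‖∑ n ∈ rgh (x ^ (1 / u)) x ((1 + δ) * x),
        ((ArithmeticFunction.vonMangoldt n * Real.log n : ℝ) : ℂ) * tw t n -
      (Real.log x : ℂ) * W δ x t‖ ≤ C * x := by
  classical
  obtain ⟨C0, hC0, _, hcheb⟩ := cheb
  obtain ⟨C1', hC1'⟩ := Chebyshev.psi_sub_theta_le_mul_sqrt
  set C1 := max C1' 1 with hC1d
  have hC1 : 1 ≤ C1 := le_max_right _ _
  refine ⟨2 * C0 + 4 * C1, by positivity, ?_⟩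
  intro u hu
  refine ⟨2, le_rfl, ?_⟩
  intro x t δ hx hδ0 hδ1
  have hx0 : 0 < x := by linarith
  set z := x ^ (1 / u) with hz
  have hz0 : 0 < z := Real.rpow_pos_of_pos hx0 _
  have hzx : z ≤ x := by
    have h1 : x ^ (1 / u) ≤ x ^ (1 : ℝ) := by
      refine Real.rpow_le_rpow_of_exponent_le (by linarith) ?_
      rw [div_le_one (by linarith)]
      linarith
    rwa [Real.rpow_one] at h1
  set X := (1 + δ) * x with hX
  have hX2 : X ≤ 2 * x := by nlinarith
  set S := rgh z x X with hS
  have hSmem : ∀ n, n ∈ S ↔ (x < n ∧ (n : ℝ) ≤ X) ∧ Rough z n := fun n => mem_rgh hx0.le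
  have hlog2 : Real.log 2 ≤ 1 := by
    have := Real.log_le_sub_one_of_pos (by norm_num : (0 : ℝ) < 2)
    linarith
  set F : ℕ → ℂ := fun n => ((ArithmeticFunction.vonMangoldt n * Real.log n : ℝ) : ℂ) * tw t n
    with hF
  have hsplit : ∑ n ∈ S, F n = ∑ n ∈ S.filter Nat.Prime, F n +
      ∑ n ∈ S.filter (fun n => ¬ n.Prime), F n := (sum_filter_add_sum_filter_not _ _ _).symm
  have hprm : S.filter Nat.Prime = prm x X := by
    ext p
    rw [mem_filter, hSmem, mem_prm hx0.le]
    constructor
    · rintro ⟨⟨h1, _⟩, h2⟩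
      exact ⟨h1, h2⟩
    · rintro ⟨h1, h2⟩
      refine ⟨⟨h1, h2.ne_zero, fun r hr hd => ?_⟩, h2⟩
      rw [(Nat.prime_dvd_prime_iff_eq hr h2).1 hd]
      exact lt_of_le_of_lt hzx h1.1
  have hmain : ‖∑ n ∈ S.filter Nat.Prime, F n - (Real.log x : ℂ) * W δ x t‖ ≤ 2 * C0 * x := by
    rw [hprm, W, mul_sum, ← sum_sub_distrib]
    calc ‖∑ p ∈ prm x X, (F p - (Real.log x : ℂ) * ((Real.log p : ℂ) * tw t p))‖
        ≤ ∑ p ∈ prm x X, Real.log p := by
          refine (norm_sum_le _ _).trans (sum_le_sum fun p hp => ?_)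
          rw [mem_prm hx0.le] at hp
          have hp0 : (0 : ℝ) < p := hx0.trans hp.1.1
          have e : F p - (Real.log x : ℂ) * ((Real.log p : ℂ) * tw t p) =
              ((Real.log p * (Real.log p - Real.log x) : ℝ) : ℂ) * tw t p := by
            simp only [hF]
            rw [ArithmeticFunction.vonMangoldt_apply_prime hp.2]
            push_cast
            ring
          have h1 : 0 ≤ Real.log p - Real.log x :=
            sub_nonneg.2 (Real.log_le_log hx0 hp.1.1.le)
          have h2 : Real.log p - Real.log x ≤ 1 := by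
            rw [← Real.log_div hp0.ne' hx0.ne']
            refine le_trans (Real.log_le_log (by positivity) ?_) hlog2
            rw [div_le_iff₀ hx0]
            linarith [hp.1.2]
          have h3 := Real.log_natCast_nonneg p
          rw [e, norm_mul, norm_tw, mul_one, Complex.norm_real, Real.norm_eq_abs,
            abs_of_nonneg (mul_nonneg h3 h1)]
          nlinarith
      _ ≤ ∑ p ∈ prm 0 (2 * x), Real.log p := by
          refine sum_le_sum_of_subset_of_nonneg ?_ fun p _ _ => Real.log_natCast_nonneg p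
          intro p hp
          rw [mem_prm hx0.le] at hp
          rw [mem_prm le_rfl]
          exact ⟨⟨hx0.trans hp.1.1, hp.1.2.trans hX2⟩, hp.2⟩
      _ ≤ C0 * (2 * x) := hcheb _ (by linarith)
      _ = 2 * C0 * x := by ring
  have hrest : ‖∑ n ∈ S.filter (fun n => ¬ n.Prime), F n‖ ≤ 4 * C1 * x := by
    calc ‖∑ n ∈ S.filter (fun n => ¬ n.Prime), F n‖
        ≤ ∑ n ∈ S.filter (fun n => ¬ n.Prime),
            ArithmeticFunction.vonMangoldt n * Real.log (2 * x) := by
          refine (norm_sum_le _ _).trans (sum_le_sum fun n hn => ?_)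
          rw [mem_filter, hSmem] at hn
          have hn0 : (0 : ℝ) < n := hx0.trans hn.1.1.1
          have h3 := Real.log_natCast_nonneg n
          have h4 : 0 ≤ ArithmeticFunction.vonMangoldt n := ArithmeticFunction.vonMangoldt_nonneg
          simp only [hF]
          rw [norm_mul, norm_tw, mul_one, Complex.norm_real, Real.norm_eq_abs,
            abs_of_nonneg (mul_nonneg h4 h3)]
          refine mul_le_mul_of_nonneg_left ?_ h4
          exact Real.log_le_log hn0 (hn.1.1.2.trans hX2)
      _ = (∑ n ∈ S.filter (fun n => ¬ n.Prime), ArithmeticFunction.vonMangoldt n) *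
            Real.log (2 * x) := by rw [sum_mul]
      _ ≤ (C1 * Real.sqrt (2 * x)) * (2 * Real.sqrt (2 * x)) := by
          have h1 : ∑ n ∈ S.filter (fun n => ¬ n.Prime), ArithmeticFunction.vonMangoldt n ≤
              C1 * Real.sqrt (2 * x) := by
            have h2 := hC1' (2 * x)
            rw [Chebyshev.psi_sub_theta_eq_sum_not_prime] at h2
            refine le_trans (le_trans ?_ h2) (mul_le_mul_of_nonneg_right (le_max_left _ _)
              (Real.sqrt_nonneg _))
            refine sum_le_sum_of_subset_of_nonneg ?_ fun n _ _ =>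
              ArithmeticFunction.vonMangoldt_nonneg
            intro n hn
            rw [mem_filter, hSmem] at hn
            rw [mem_filter, mem_Ioc]
            refine ⟨⟨Nat.pos_of_ne_zero hn.1.2.1, Nat.le_floor (hn.1.1.2.trans hX2)⟩, hn.2⟩
          have h3 : Real.log (2 * x) ≤ 2 * Real.sqrt (2 * x) := by
            have := Real.log_le_rpow_div (by linarith : (0 : ℝ) ≤ 2 * x)
              (by norm_num : (0 : ℝ) < 1 / 2)
            rw [← Real.sqrt_eq_rpow] at this
            linarith
          exact mul_le_mul h1 h3 (Real.log_nonneg (by linarith)) (by positivity)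
      _ = 2 * C1 * (Real.sqrt (2 * x)) ^ 2 := by ring
      _ = 4 * C1 * x := by
          rw [Real.sq_sqrt (by linarith)]
          ring
  rw [hsplit]
  have e : ∀ a b c : ℂ, a + b - c = (a - c) + b := fun a b c => by ring
  rw [e]
  refine (norm_add_le _ _).trans ?_
  have : (2 * C0 + 4 * C1) * x = 2 * C0 * x + 4 * C1 * x := by ring
  rw [this]
  exact add_le_add hmain hrest

end BP4
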