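import Pool.Agent.LibBP4.K05
import Pool.Agent.LibBP4.K07

/-!
TASK K08.  Selberg's asymptotic formula twisted by `n^{-it}` (assembly of `lam2_bound` and `lam2_vs`;
`C x ≤ x log x/u` for `x ≥ X₀(u)`).
-/

open MeasureTheory Finset Filter
open scoped Topology

namespace BP4

open MR57 (tw DP trap SW wh ES IsCM Grep)

theorem selberg_formula : ∃ C₀ : ℝ, 0 < C₀ ∧ ∀ u A : ℝ, 2 ≤ u → 1 ≤ A → ∃ X₀ T₀ : ℝ, 2 ≤ X₀ ∧
    1 ≤ T₀ ∧ ∀ x t δ : ℝ, X₀ ≤ x → T₀ ≤ |t| → |t| ≤ x ^ A → 0 ≤ δ → δ ≤ 1 →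
    ‖(Real.log x : ℂ) * W δ x t + BB δ x (x ^ (1 / u)) t‖ ≤ C₀ * x * Real.log x / u := by
  obtain ⟨C1, hC1, h1⟩ := lam2_bound
  obtain ⟨C2, hC2, h2⟩ := lam2_vs
  refine ⟨C1 + 1, by linarith, fun u A hu hA => ?_⟩
  obtain ⟨X1, T1, hX1, hT1, h1⟩ := h1 u A hu hA
  obtain ⟨X2, hX2, h2⟩ := h2 u hu
  refine ⟨max (max X1 X2) (Real.exp (C2 * u)), T1, le_max_of_le_left (le_max_of_le_left hX1), hT1,
    fun x t δ hx ht ht' hδ hδ1 => ?_⟩
  have hx1 : X1 ≤ x := le_trans (le_trans (le_max_left _ _) (le_max_left _ _)) hx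
  have hx2 : X2 ≤ x := le_trans (le_trans (le_max_right _ _) (le_max_left _ _)) hx
  have hx3 : Real.exp (C2 * u) ≤ x := le_trans (le_max_right _ _) hx
  have hx0 : 0 < x := by linarith
  have hu0 : 0 < u := by linarith
  have hlog : C2 * u ≤ Real.log x := (Real.le_log_iff_exp_le hx0).2 hx3
  have a1 := h1 x t δ hx1 ht ht' hδ hδ1
  have a2 := h2 x t δ hx2 hδ hδ1
  have a3 : C2 * x ≤ x * Real.log x / u := by
    rw [le_div_iff₀ hu0]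
    nlinarith
  set S : ℂ := ∑ n ∈ rgh (x ^ (1 / u)) x ((1 + δ) * x), (Lam2 n : ℂ) * tw t n with hS
  set B : ℂ := (Real.log x : ℂ) * W δ x t + BB δ x (x ^ (1 / u)) t with hB
  have a4 : ‖B‖ ≤ ‖S‖ + ‖S - B‖ := by
    have : B = S - (S - B) := by ring
    calc ‖B‖ = ‖S - (S - B)‖ := by rw [← this]
      _ ≤ ‖S‖ + ‖S - B‖ := norm_sub_le _ _
  have a5 : (C1 + 1) * x * Real.log x / u = C1 * x * Real.log x / u + x * Real.log x / u := by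
    ring
  rw [a5]
  linarith

end BP4
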