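import Pool.Agent.LibBP4.Ext

/-!
TASK K09.  Primes in `(x, (1+δ)x]`, from the prime number theorem (`x_theta_tendsto`,
`x_primeCounting_tendsto`; `Chebyshev.theta x = ∑_{p ∈ (Ioc 0 ⌊x⌋₊).filter Prime} log p`).
-/

open MeasureTheory Finset Filter
open scoped Topology

namespace BP4

open MR57 (tw DP trap SW wh ES IsCM Grep)

theorem K09_sum_prm (f : ℕ → ℝ) {a b : ℝ} (hab : a ≤ b) :
    ∑ p ∈ prm a b, f p =
      ∑ p ∈ (Ioc 0 ⌊b⌋₊).filter Nat.Prime, f p - ∑ p ∈ (Ioc 0 ⌊a⌋₊).filter Nat.Prime, f p := by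
  have h1 : (Ioc 0 ⌊b⌋₊).filter Nat.Prime = (Ioc 0 ⌊a⌋₊).filter Nat.Prime ∪ prm a b := by
    unfold prm win
    rw [← filter_union, Ioc_union_Ioc_eq_Ioc (Nat.zero_le _) (Nat.floor_mono hab)]
  have h2 : Disjoint ((Ioc 0 ⌊a⌋₊).filter Nat.Prime) (prm a b) := by
    unfold prm win
    apply disjoint_filter_filter
    rw [disjoint_left]
    intro p hp hp'
    rw [mem_Ioc] at hp hp'
    omega
  rw [h1, sum_union h2]
  ring

theorem K09_theta (x : ℝ) :
    Chebyshev.theta x = ∑ p ∈ (Ioc 0 ⌊x⌋₊).filter Nat.Prime, Real.log p := by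
  rfl

theorem K09_pi (x : ℝ) :
    (Nat.primeCounting ⌊x⌋₊ : ℝ) = ∑ p ∈ (Ioc 0 ⌊x⌋₊).filter Nat.Prime, (1 : ℝ) := by
  rw [sum_const, nsmul_eq_mul, mul_one, Nat.primeCounting, Nat.primeCounting', Nat.count_eq_card_filter_range]
  congr 1
  congr 1
  ext p
  simp only [mem_filter, mem_range, mem_Ioc]
  constructor
  · rintro ⟨h1, h2⟩
    exact ⟨⟨h2.pos, by omega⟩, h2⟩
  · rintro ⟨h1, h2⟩
    exact ⟨by omega, h2⟩

theorem theta_window (δ ε : ℝ) (hδ : 0 < δ) (hε : 0 < ε) : ∃ X₀ : ℝ, 2 ≤ X₀ ∧ ∀ x : ℝ, X₀ ≤ x →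
    |∑ p ∈ prm x ((1 + δ) * x), Real.log p - δ * x| ≤ ε * x := by
  have h1 := x_theta_tendsto
  rw [Metric.tendsto_atTop] at h1
  obtain ⟨Y, hY⟩ := h1 (ε / (2 + δ)) (by positivity)
  refine ⟨max Y 2, le_max_right _ _, fun x hx => ?_⟩
  have hxY : Y ≤ x := le_trans (le_max_left _ _) hx
  have hx2 : 2 ≤ x := le_trans (le_max_right _ _) hx
  have hx0 : 0 < x := by linarith
  have hxx : x ≤ (1 + δ) * x := by nlinarith
  have key : ∀ y : ℝ, x ≤ y → |Chebyshev.theta y - y| ≤ ε / (2 + δ) * y := by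
    intro y hy
    have hy0 : 0 < y := by linarith
    have := hY y (le_trans hxY hy)
    rw [Real.dist_eq] at this
    have e : Chebyshev.theta y - y = (Chebyshev.theta y / y - 1) * y := by
      field_simp
    rw [e, abs_mul, abs_of_pos hy0]
    exact mul_le_mul_of_nonneg_right this.le hy0.le
  rw [K09_sum_prm _ hxx, ← K09_theta, ← K09_theta]
  have k1 := key x le_rfl
  have k2 := key ((1 + δ) * x) hxx
  have e1 : Chebyshev.theta ((1 + δ) * x) - Chebyshev.theta x - δ * x =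
      (Chebyshev.theta ((1 + δ) * x) - (1 + δ) * x) - (Chebyshev.theta x - x) := by ring
  rw [e1]
  refine (abs_sub _ _).trans ?_
  have e2 : ε * x = ε / (2 + δ) * ((1 + δ) * x) + ε / (2 + δ) * x := by
    have : 2 + δ ≠ 0 := by positivity
    field_simp
    ring
  rw [e2]
  linarith

theorem K09_log_ratio (δ : ℝ) (hδ : 0 < δ) :
    Tendsto (fun x : ℝ => Real.log x / Real.log ((1 + δ) * x)) atTop (𝓝 1) := by
  have h1 : Tendsto (fun x : ℝ => Real.log (1 + δ) / Real.log x) atTop (𝓝 0) :=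
    Tendsto.div_atTop tendsto_const_nhds Real.tendsto_log_atTop
  have h2 : Tendsto (fun x : ℝ => (Real.log (1 + δ) / Real.log x + 1)⁻¹) atTop (𝓝 1) := by
    have := (h1.add_const 1).inv₀ (by norm_num)
    simpa using this
  refine h2.congr' ?_
  filter_upwards [eventually_ge_atTop (2 : ℝ)] with x hx
  have hx0 : 0 < x := by linarith
  have hl : 0 < Real.log x := Real.log_pos (by linarith)
  have hl2 : 0 < Real.log (1 + δ) := Real.log_pos (by linarith)
  rw [Real.log_mul (by positivity) (by positivity)]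
  field_simp

theorem count_window (δ ε : ℝ) (hδ : 0 < δ) (hε : 0 < ε) : ∃ X₀ : ℝ, 2 ≤ X₀ ∧ ∀ x : ℝ, X₀ ≤ x →
    |((prm x ((1 + δ) * x)).card : ℝ) - δ * (x / Real.log x)| ≤ ε * (x / Real.log x) := by
  have h1 := x_primeCounting_tendsto
  have hmul : Tendsto (fun x : ℝ => (1 + δ) * x) atTop atTop :=
    Tendsto.const_mul_atTop (by linarith) tendsto_id
  have h2 := h1.comp hmul
  have h3 : Tendsto (fun x : ℝ => (Nat.primeCounting ⌊(1 + δ) * x⌋₊ : ℝ) * Real.log x / x)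
      atTop (𝓝 (1 + δ)) := by
    have h4 := ((h2.mul (K09_log_ratio δ hδ)).mul_const (1 + δ))
    simp only [one_mul, mul_one] at h4
    refine h4.congr' ?_
    filter_upwards [eventually_ge_atTop (2 : ℝ)] with x hx
    have hx0 : 0 < x := by linarith
    have hl : 0 < Real.log ((1 + δ) * x) := Real.log_pos (by nlinarith)
    simp only [Function.comp]
    field_simp
  have h5 := h3.sub h1
  rw [Metric.tendsto_atTop] at h5
  obtain ⟨Y, hY⟩ := h5 ε hε
  refine ⟨max Y 2, le_max_right _ _, fun x hx => ?_⟩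
  have hxY : Y ≤ x := le_trans (le_max_left _ _) hx
  have hx2 : 2 ≤ x := le_trans (le_max_right _ _) hx
  have hx0 : 0 < x := by linarith
  have hxx : x ≤ (1 + δ) * x := by nlinarith
  have hl : 0 < Real.log x := Real.log_pos (by linarith)
  have hd := hY x hxY
  rw [Real.dist_eq] at hd
  have hc : ((prm x ((1 + δ) * x)).card : ℝ) =
      (Nat.primeCounting ⌊(1 + δ) * x⌋₊ : ℝ) - (Nat.primeCounting ⌊x⌋₊ : ℝ) := by
    rw [K09_pi, K09_pi, ← K09_sum_prm _ hxx, sum_const, nsmul_eq_mul, mul_one]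
  rw [hc]
  have e : (Nat.primeCounting ⌊(1 + δ) * x⌋₊ : ℝ) - (Nat.primeCounting ⌊x⌋₊ : ℝ)
      - δ * (x / Real.log x) =
      ((Nat.primeCounting ⌊(1 + δ) * x⌋₊ : ℝ) * Real.log x / x -
        (Nat.primeCounting ⌊x⌋₊ : ℝ) * Real.log x / x - (1 + δ - 1)) * (x / Real.log x) := by
    field_simp
    ring
  rw [e, abs_mul, abs_of_pos (div_pos hx0 hl)]
  exact mul_le_mul_of_nonneg_right hd.le (div_pos hx0 hl).le

end BP4
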