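import Pool.Agent.LibBP4.K09

/-!
TASK K10.  Total mass of `BB`: by `theta_window` the inner sum is `≤ (1+ε') δ x/p` (as `x/p ≥ z = x^{1/u}` is
large), and `∑_{z < p ≤ x/z} log p/p ≤ log(x/z) + K ≤ log x` (`x_mertens_first`, `z ≥ e^K`).
-/

open MeasureTheory Finset Filter
open scoped Topology

namespace BP4

open MR57 (tw DP trap SW wh ES IsCM Grep)

theorem BB_mass (δ ε u : ℝ) (hδ : 0 < δ) (hε : 0 < ε) (hu : 2 ≤ u) : ∃ X₀ : ℝ, 2 ≤ X₀ ∧
    ∀ x : ℝ, X₀ ≤ x →
    ∑ p ∈ prm (x ^ (1 / u)) (x / x ^ (1 / u)), Real.log p *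
      ∑ q ∈ prm (x / p) ((1 + δ) * (x / p)), Real.log q ≤ (1 + ε) * (δ * (x * Real.log x)) := by
  obtain ⟨X1, hX1, h1⟩ := theta_window δ (ε * δ) hδ (by positivity)
  obtain ⟨K, hK, hM⟩ := x_mertens_first
  have hu0 : 0 < u := by linarith
  set Z : ℝ := max X1 (Real.exp K) with hZ
  have hZ1 : X1 ≤ Z := le_max_left _ _
  have hZ2 : Real.exp K ≤ Z := le_max_right _ _
  have hZ0 : 2 ≤ Z := le_trans hX1 hZ1
  refine ⟨max 2 (Z ^ u), le_max_left _ _, fun x hx => ?_⟩
  have hx2 : 2 ≤ x := le_trans (le_max_left _ _) hx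
  have hxZ : Z ^ u ≤ x := le_trans (le_max_right _ _) hx
  have hx0 : 0 < x := by linarith
  set z : ℝ := x ^ (1 / u) with hz
  have hzZ : Z ≤ z := by
    have h2 : (Z ^ u) ^ (1 / u) ≤ x ^ (1 / u) :=
      Real.rpow_le_rpow (by positivity) hxZ (by positivity)
    rw [← Real.rpow_mul (by linarith), mul_one_div_cancel hu0.ne', Real.rpow_one] at h2
    exact h2
  have hz2 : 2 ≤ z := le_trans hZ0 hzZ
  have hz0 : 0 < z := by linarith
  have hzz : z * z ≤ x := by
    have h3 : z * z = x ^ (1 / u + 1 / u) := by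
      rw [hz, ← Real.rpow_add hx0]
    rw [h3]
    calc x ^ (1 / u + 1 / u) ≤ x ^ (1 : ℝ) := by
          apply Real.rpow_le_rpow_of_exponent_le (by linarith)
          rw [← add_div, div_le_one hu0]
          linarith
      _ = x := Real.rpow_one x
  have hxz1 : 1 ≤ x / z := by
    rw [le_div_iff₀ hz0]
    nlinarith
  have hlx : 0 < Real.log x := Real.log_pos (by linarith)
  -- the inner sums
  have hin : ∀ p ∈ prm z (x / z), Real.log p *
      ∑ q ∈ prm (x / p) ((1 + δ) * (x / p)), Real.log q ≤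
      ((1 + ε) * δ * x) * (Real.log p / p) := by
    intro p hp
    rw [mem_prm hz0.le] at hp
    obtain ⟨⟨hp1, hp2⟩, hpp⟩ := hp
    have hp0 : (0 : ℝ) < p := by linarith
    have hxp : z ≤ x / p := by
      rw [le_div_iff₀ hp0]
      rw [le_div_iff₀ hz0] at hp2
      linarith
    have h4 := h1 (x / p) (le_trans (le_trans hZ1 hzZ) hxp)
    have h5 := (abs_le.1 h4).2
    have h6 : 0 ≤ Real.log (p : ℝ) := Real.log_nonneg (by linarith)
    calc Real.log p * ∑ q ∈ prm (x / p) ((1 + δ) * (x / p)), Real.log q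
        ≤ Real.log p * ((1 + ε) * δ * (x / p)) := by
          apply mul_le_mul_of_nonneg_left _ h6
          linarith
      _ = ((1 + ε) * δ * x) * (Real.log p / p) := by ring
  -- Mertens
  have hmer : ∑ p ∈ prm z (x / z), Real.log p / p ≤ Real.log x := by
    have hsub : prm z (x / z) ⊆ prm 0 (x / z) := by
      intro p hp
      rw [mem_prm hz0.le] at hp
      rw [mem_prm le_rfl]
      exact ⟨⟨by linarith [hp.1.1], hp.1.2⟩, hp.2⟩
    have h7 : ∑ p ∈ prm z (x / z), Real.log p / p ≤ ∑ p ∈ prm 0 (x / z), Real.log p / p := by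
      apply sum_le_sum_of_subset_of_nonneg hsub
      intro p hp _
      rw [mem_prm le_rfl] at hp
      have : (1 : ℝ) ≤ p := by exact_mod_cast hp.2.one_lt.le
      exact div_nonneg (Real.log_nonneg this) (by linarith)
    have h8 := (abs_le.1 (hM (x / z) hxz1)).2
    have h9 : Real.log (x / z) = Real.log x - Real.log z := Real.log_div hx0.ne' hz0.ne'
    have h10 : K ≤ Real.log z := (Real.le_log_iff_exp_le hz0).2 (le_trans hZ2 hzZ)
    linarith
  calc ∑ p ∈ prm z (x / z), Real.log p * ∑ q ∈ prm (x / p) ((1 + δ) * (x / p)), Real.log q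
      ≤ ∑ p ∈ prm z (x / z), ((1 + ε) * δ * x) * (Real.log p / p) := sum_le_sum hin
    _ = ((1 + ε) * δ * x) * ∑ p ∈ prm z (x / z), Real.log p / p := by rw [mul_sum]
    _ ≤ ((1 + ε) * δ * x) * Real.log x := by
        apply mul_le_mul_of_nonneg_left hmer
        positivity
    _ = (1 + ε) * (δ * (x * Real.log x)) := by ring

end BP4
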