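import Pool.Agent.LibBP4.Defs

/-!
TASK K11a.  If the weighted mean of unimodular numbers `v_i` is large in the direction `ω`, so is the mean of
their squares in the direction `ω²`.  With `x_i = Re(\bar ω v_i)`: `Re(\bar ω² v_i²) = 2x_i² - 1`,
`∑ c_i x_i² ≥ (∑ c_i x_i)²/C`.
-/

open MeasureTheory Finset Filter
open scoped Topology

namespace BP4

open MR57 (tw DP trap SW wh ES IsCM Grep)

theorem quad_lemma {ι : Type*} (s : Finset ι) (c : ι → ℝ) (v : ι → ℂ) (w : ℂ) (C : ℝ)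
    (hc : ∀ i ∈ s, 0 ≤ c i) (hv : ∀ i ∈ s, ‖v i‖ = 1) (hw : ‖w‖ = 1) (hC : ∑ i ∈ s, c i ≤ C)
    (hC0 : 0 < C) :
    2 * (((starRingEnd ℂ) w * ∑ i ∈ s, (c i : ℂ) * v i).re) ^ 2 / C - C ≤
      ((starRingEnd ℂ) w ^ 2 * ∑ i ∈ s, (c i : ℂ) * v i ^ 2).re := by
  have h1 : ((starRingEnd ℂ) w * ∑ i ∈ s, (c i : ℂ) * v i).re =
      ∑ i ∈ s, c i * ((starRingEnd ℂ) w * v i).re := by
    rw [mul_sum, Complex.re_sum]
    refine sum_congr rfl fun i _ => ?_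
    rw [show (starRingEnd ℂ) w * ((c i : ℂ) * v i) = (c i : ℂ) * ((starRingEnd ℂ) w * v i) by ring,
      Complex.re_ofReal_mul]
  have h2 : ((starRingEnd ℂ) w ^ 2 * ∑ i ∈ s, (c i : ℂ) * v i ^ 2).re =
      ∑ i ∈ s, (c i * (2 * ((starRingEnd ℂ) w * v i).re ^ 2) - c i) := by
    rw [mul_sum, Complex.re_sum]
    refine sum_congr rfl fun i hi => ?_
    rw [show (starRingEnd ℂ) w ^ 2 * ((c i : ℂ) * v i ^ 2) =
      (c i : ℂ) * ((starRingEnd ℂ) w * v i) ^ 2 by ring, Complex.re_ofReal_mul]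
    have hn : ‖(starRingEnd ℂ) w * v i‖ = 1 := by
      rw [norm_mul, RCLike.norm_conj, hw, hv i hi, one_mul]
    have h3 : ((starRingEnd ℂ) w * v i).re * ((starRingEnd ℂ) w * v i).re +
        ((starRingEnd ℂ) w * v i).im * ((starRingEnd ℂ) w * v i).im = 1 := by
      rw [← Complex.normSq_apply, Complex.normSq_eq_norm_sq, hn, one_pow]
    generalize (starRingEnd ℂ) w * v i = z at h3 ⊢
    rw [sq z, Complex.mul_re]
    have h4 : z.im * z.im = 1 - z.re * z.re := by linarith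
    rw [h4]; ring
  rw [h1, h2, sum_sub_distrib]
  have h5 : (∑ i ∈ s, c i * ((starRingEnd ℂ) w * v i).re) ^ 2 ≤
      (∑ i ∈ s, c i) * ∑ i ∈ s, c i * ((starRingEnd ℂ) w * v i).re ^ 2 := by
    refine Finset.sum_sq_le_sum_mul_sum_of_sq_le_mul s hc
      (fun i hi => mul_nonneg (hc i hi) (sq_nonneg _)) (fun i _ => le_of_eq (by ring))
  have h6 : 0 ≤ ∑ i ∈ s, c i * ((starRingEnd ℂ) w * v i).re ^ 2 :=
    sum_nonneg fun i hi => mul_nonneg (hc i hi) (sq_nonneg _)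
  have h7 : (∑ i ∈ s, c i * ((starRingEnd ℂ) w * v i).re) ^ 2 / C ≤
      ∑ i ∈ s, c i * ((starRingEnd ℂ) w * v i).re ^ 2 := by
    rw [div_le_iff₀ hC0, mul_comm]
    exact h5.trans (mul_le_mul_of_nonneg_right hC h6)
  have h8 : ∑ i ∈ s, c i * (2 * ((starRingEnd ℂ) w * v i).re ^ 2) =
      2 * ∑ i ∈ s, c i * ((starRingEnd ℂ) w * v i).re ^ 2 := by
    rw [mul_sum]; exact sum_congr rfl fun i _ => by ring
  rw [h8, mul_div_assoc]
  linarith

end BP4
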