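import Pool.Agent.LibBP4.K08
import Pool.Agent.LibBP4.K09
import Pool.Agent.LibBP4.K10
import Pool.Agent.LibBP4.K11a

/-!
TASK K11.  `|W| ≤ (3/4) δ x`.  Let `C₀` be from `selberg_formula`, choose `u ≥ 2` with `C₀/(uδ) ≤ 1/100`, take
`X₀, T₀` for `(u, A+1)` (used at `t` and at `2t`: `|2t| ≤ x^{A+1}`).  Masses
`∑ log p ≤ W₀ := 1.01 δx` (`theta_window`), `BB_mass ≤ BB₀ := 1.01 δ x log x`.  Suppose
`|W(t)| > (3/4) δ x`; let `ω = W(t)/|W(t)|`.  `quad_lemma` for `W` (over `p`, `v = tw t p`,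
`tw (2t) p = (tw t p)²`) gives `Re(\bar ω² W(2t)) ≥ 2|W|²/W₀ - W₀`; for `BB` (over pairs `(p, q)`)
`B₁ := -Re(\bar ω BB(t)) ≥ |W| log x - C₀ x log x/u ≥ 0.74 δ x log x` by the formula at `t`, so
`Re(\bar ω² BB(2t)) ≥ 2 B₁²/BB₀ - BB₀`.  Adding `log x ·` the first:
`≥ δ x log x (2·0.5625/1.01 - 1.01 + 2·0.5476/1.01 - 1.01) > 0.1 δ x log x`, contradicting the
formula at `2t`, which gives `≤ C₀ x log x/u ≤ 0.01 δ x log x`.
-/

open MeasureTheory Finset Filter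
open scoped Topology

namespace BP4

open MR57 (tw DP trap SW wh ES IsCM Grep)

private theorem K11_tw_two (t : ℝ) (n : ℕ) : tw (2 * t) n = tw t n ^ 2 := by
  unfold MR57.tw
  rw [sq, ← Complex.exp_add]
  congr 1
  push_cast
  ring

private theorem K11_BB_sigma (δ x z t : ℝ) : BB δ x z t =
    ∑ i ∈ (prm z (x / z)).sigma (fun p => prm (x / p) ((1 + δ) * (x / p))),
      ((Real.log i.1 * Real.log i.2 : ℝ) : ℂ) * (tw t i.1 * tw t i.2) := by
  unfold BB W
  rw [Finset.sum_sigma]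
  refine Finset.sum_congr rfl fun p _ => ?_
  rw [Finset.mul_sum]
  refine Finset.sum_congr rfl fun q _ => ?_
  push_cast
  ring

private theorem K11_mass_sigma (δ x z : ℝ) :
    ∑ i ∈ (prm z (x / z)).sigma (fun p => prm (x / p) ((1 + δ) * (x / p))),
      (Real.log i.1 * Real.log i.2) =
    ∑ p ∈ prm z (x / z), Real.log p * ∑ q ∈ prm (x / p) ((1 + δ) * (x / p)), Real.log q := by
  rw [Finset.sum_sigma]
  refine Finset.sum_congr rfl fun p _ => ?_
  rw [Finset.mul_sum]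

private theorem K11_re_le (w z : ℂ) (hw : ‖w‖ = 1) : |(((starRingEnd ℂ) w) * z).re| ≤ ‖z‖ := by
  refine (Complex.abs_re_le_norm _).trans ?_
  rw [norm_mul, Complex.norm_conj, hw, one_mul]

private theorem K11_re_le2 (w z : ℂ) (hw : ‖w‖ = 1) :
    |(((starRingEnd ℂ) w) ^ 2 * z).re| ≤ ‖z‖ := by
  refine (Complex.abs_re_le_norm _).trans ?_
  rw [norm_mul, norm_pow, Complex.norm_conj, hw, one_pow, one_mul]

private theorem K11_num {n D L R1 R2 b Bt : ℝ} (hD : 0 < D) (hL : 0 < L) (hn : 3 / 4 * D < n)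
    (h1 : 2 * n ^ 2 / (101 / 100 * D) - 101 / 100 * D ≤ R1)
    (h2 : 2 * b ^ 2 / (101 / 100 * (D * L)) - 101 / 100 * (D * L) ≤ R2)
    (h3 : L * n + b ≤ 1 / 100 * (D * L)) (h4 : L * R1 + R2 ≤ 1 / 100 * (D * L)) : False := by
  have hDL : 0 < D * L := mul_pos hD hL
  have hb : b ≤ -(74 / 100 * (D * L)) := by
    have : L * (3 / 4 * D) < L * n := mul_lt_mul_of_pos_left hn hL
    nlinarith
  have hb2 : (74 / 100 * (D * L)) ^ 2 ≤ b ^ 2 := by
    have h5 : (74 / 100 * (D * L)) ≤ -b := by linarith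
    have h6 : 0 ≤ 74 / 100 * (D * L) := by positivity
    calc (74 / 100 * (D * L)) ^ 2 ≤ (-b) ^ 2 := pow_le_pow_left₀ h6 h5 2
      _ = b ^ 2 := by ring
  have hn2 : (3 / 4 * D) ^ 2 ≤ n ^ 2 := pow_le_pow_left₀ (by positivity) hn.le 2
  have e1 : 2 * (3 / 4 * D) ^ 2 / (101 / 100 * D) ≤ 2 * n ^ 2 / (101 / 100 * D) := by gcongr
  have e2 : 2 * (74 / 100 * (D * L)) ^ 2 / (101 / 100 * (D * L)) ≤
      2 * b ^ 2 / (101 / 100 * (D * L)) := by gcongr
  have e3 : 2 * (3 / 4 * D) ^ 2 / (101 / 100 * D) = (112500 / 101000) * D := by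
    field_simp
    norm_num
  have e4 : 2 * (74 / 100 * (D * L)) ^ 2 / (101 / 100 * (D * L)) = (109520 / 101000) * (D * L) := by
    field_simp
    norm_num
  rw [e3] at e1
  rw [e4] at e2
  have h5 : (112500 / 101000 - 101 / 100) * D ≤ R1 := by linarith
  have h6 : L * ((112500 / 101000 - 101 / 100) * D) ≤ L * R1 := mul_le_mul_of_nonneg_left h5 hL.le
  nlinarith

theorem three_quarter (δ A : ℝ) (hδ : 0 < δ) (hδ1 : δ ≤ 1) (hA : 1 ≤ A) : ∃ X₀ T₀ : ℝ, 2 ≤ X₀ ∧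
    1 ≤ T₀ ∧ ∀ x t : ℝ, X₀ ≤ x → T₀ ≤ |t| → |t| ≤ x ^ A → ‖W δ x t‖ ≤ 3 / 4 * (δ * x) := by
  obtain ⟨C₀, hC₀, H⟩ := selberg_formula
  set u : ℝ := max 2 (100 * C₀ / δ) with hu
  have hu2 : 2 ≤ u := le_max_left _ _
  have hu0 : 0 < u := by linarith
  have huC : C₀ / u ≤ δ / 100 := by
    have h1 : 100 * C₀ / δ ≤ u := le_max_right _ _
    rw [div_le_iff₀ hδ] at h1
    rw [div_le_div_iff₀ hu0 (by norm_num)]
    linarith
  obtain ⟨X₁, T₁, hX₁, hT₁, H1⟩ := H u (A + 1) hu2 (by linarith)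
  obtain ⟨X₂, hX₂, H2⟩ := theta_window δ (δ / 100) hδ (by linarith)
  obtain ⟨X₃, hX₃, H3⟩ := BB_mass δ (1 / 100) u hδ (by norm_num) hu2
  refine ⟨max X₁ (max X₂ X₃), T₁, hX₁.trans (le_max_left _ _), hT₁, fun x t hx ht htx => ?_⟩
  have hx1 : X₁ ≤ x := (le_max_left _ _).trans hx
  have hx2 : X₂ ≤ x := ((le_max_left _ _).trans (le_max_right _ _)).trans hx
  have hx3 : X₃ ≤ x := ((le_max_right _ _).trans (le_max_right _ _)).trans hx
  have hxge : 2 ≤ x := hX₁.trans hx1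
  have hx0 : 0 < x := by linarith
  have hL : 0 < Real.log x := Real.log_pos (by linarith)
  have hD : 0 < δ * x := mul_pos hδ hx0
  by_contra hcon
  push Not at hcon
  -- the formula at `t` and `2t`
  have hxA : 2 * x ^ A ≤ x ^ (A + 1) := by
    rw [Real.rpow_add hx0, Real.rpow_one]
    have : 0 ≤ x ^ A := Real.rpow_nonneg hx0.le _
    nlinarith
  have hxA0 : 0 ≤ x ^ A := Real.rpow_nonneg hx0.le _
  have F1 := H1 x t δ hx1 ht (by linarith) hδ.le hδ1
  have F2 := H1 x (2 * t) δ hx1 (by rw [abs_mul, abs_two]; have := abs_nonneg t; linarith)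
    (by rw [abs_mul, abs_two]; linarith) hδ.le hδ1
  have hbound : C₀ * x * Real.log x / u ≤ 1 / 100 * (δ * x * Real.log x) := by
    have e1 : C₀ * x * Real.log x / u = (C₀ / u) * (x * Real.log x) := by ring
    rw [e1]
    have := mul_le_mul_of_nonneg_right huC (mul_pos hx0 hL).le
    linarith
  -- direction
  set Wt := W δ x t with hWt
  have hn0 : 0 < ‖Wt‖ := lt_trans (by positivity) hcon
  obtain ⟨ω, hωdef⟩ : ∃ ω : ℂ, ω = Wt / (‖Wt‖ : ℂ) := ⟨_, rfl⟩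
  have hω : ‖ω‖ = 1 := by
    rw [hωdef, norm_div, Complex.norm_real, norm_norm, div_self hn0.ne']
  have hωW : (starRingEnd ℂ) ω * Wt = (‖Wt‖ : ℂ) := by
    rw [hωdef, map_div₀, Complex.conj_ofReal, div_mul_eq_mul_div, ← Complex.normSq_eq_conj_mul_self,
      Complex.normSq_eq_norm_sq]
    push_cast
    rw [sq, mul_div_assoc, div_self (by exact_mod_cast hn0.ne'), mul_one]
  -- quad lemma for `W`
  have hmassW : ∑ p ∈ prm x ((1 + δ) * x), Real.log (p : ℝ) ≤ 101 / 100 * (δ * x) := by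
    have := (abs_le.1 (H2 x hx2)).2
    linarith
  have Q1 := quad_lemma (prm x ((1 + δ) * x)) (fun p => Real.log (p : ℝ)) (fun p => tw t p) ω
    (101 / 100 * (δ * x)) (fun p _ => Real.log_natCast_nonneg p) (fun p _ => norm_tw t p) hω hmassW
    (by positivity)
  have eW : ∑ i ∈ prm x ((1 + δ) * x), ((Real.log (i : ℝ) : ℝ) : ℂ) * tw t i = Wt := rfl
  have eW2 : ∑ i ∈ prm x ((1 + δ) * x), ((Real.log (i : ℝ) : ℝ) : ℂ) * tw t i ^ 2 =
      W δ x (2 * t) := by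
    unfold W
    refine Finset.sum_congr rfl fun p _ => ?_
    rw [K11_tw_two]
  rw [eW, eW2, hωW, Complex.ofReal_re] at Q1
  -- quad lemma for `BB`
  set z : ℝ := x ^ (1 / u) with hz
  have hmassB : ∑ i ∈ (prm z (x / z)).sigma (fun p => prm (x / p) ((1 + δ) * (x / p))),
      (Real.log i.1 * Real.log i.2) ≤ 101 / 100 * (δ * x * Real.log x) := by
    rw [K11_mass_sigma]
    have := H3 x hx3
    refine this.trans (le_of_eq ?_)
    ring
  have Q2 := quad_lemma ((prm z (x / z)).sigma (fun p => prm (x / p) ((1 + δ) * (x / p))))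
    (fun i => Real.log (i.1 : ℝ) * Real.log (i.2 : ℝ)) (fun i => tw t i.1 * tw t i.2) ω
    (101 / 100 * (δ * x * Real.log x))
    (fun i _ => mul_nonneg (Real.log_natCast_nonneg _) (Real.log_natCast_nonneg _))
    (fun i _ => by rw [norm_mul, norm_tw, norm_tw, mul_one]) hω hmassB (by positivity)
  have eB2 : ∑ i ∈ (prm z (x / z)).sigma (fun p => prm (x / p) ((1 + δ) * (x / p))),
      ((Real.log i.1 * Real.log i.2 : ℝ) : ℂ) * (tw t i.1 * tw t i.2) ^ 2 = BB δ x z (2 * t) := by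
    rw [K11_BB_sigma]
    refine Finset.sum_congr rfl fun i _ => ?_
    rw [K11_tw_two, K11_tw_two, mul_pow]
  rw [← K11_BB_sigma, eB2] at Q2
  -- real parts of the formulas
  have G1 : Real.log x * ‖Wt‖ + ((starRingEnd ℂ) ω * BB δ x z t).re ≤
      1 / 100 * (δ * x * Real.log x) := by
    have h1 := (le_abs_self _).trans (K11_re_le ω ((Real.log x : ℂ) * Wt + BB δ x z t) hω)
    have h2 : ((starRingEnd ℂ) ω * ((Real.log x : ℂ) * Wt + BB δ x z t)).re =
        Real.log x * ‖Wt‖ + ((starRingEnd ℂ) ω * BB δ x z t).re := by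
      have h3 : (starRingEnd ℂ) ω * ((Real.log x : ℂ) * Wt + BB δ x z t) =
          (Real.log x : ℂ) * ((starRingEnd ℂ) ω * Wt) + (starRingEnd ℂ) ω * BB δ x z t := by ring
      rw [h3, hωW, Complex.add_re, ← Complex.ofReal_mul, Complex.ofReal_re]
    rw [h2] at h1
    exact h1.trans (F1.trans hbound)
  have G2 : Real.log x * ((starRingEnd ℂ) ω ^ 2 * W δ x (2 * t)).re +
      ((starRingEnd ℂ) ω ^ 2 * BB δ x z (2 * t)).re ≤ 1 / 100 * (δ * x * Real.log x) := by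
    have h1 := (le_abs_self _).trans
      (K11_re_le2 ω ((Real.log x : ℂ) * W δ x (2 * t) + BB δ x z (2 * t)) hω)
    have h2 : ((starRingEnd ℂ) ω ^ 2 * ((Real.log x : ℂ) * W δ x (2 * t) + BB δ x z (2 * t))).re =
        Real.log x * ((starRingEnd ℂ) ω ^ 2 * W δ x (2 * t)).re +
          ((starRingEnd ℂ) ω ^ 2 * BB δ x z (2 * t)).re := by
      have h3 : (starRingEnd ℂ) ω ^ 2 * ((Real.log x : ℂ) * W δ x (2 * t) + BB δ x z (2 * t)) =
          (Real.log x : ℂ) * ((starRingEnd ℂ) ω ^ 2 * W δ x (2 * t)) +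
            (starRingEnd ℂ) ω ^ 2 * BB δ x z (2 * t) := by ring
      rw [h3, Complex.add_re, Complex.re_ofReal_mul]
    rw [h2] at h1
    exact h1.trans (F2.trans hbound)
  exact K11_num (Bt := 0) hD hL hcon Q1 Q2 G1 G2

end BP4
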