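import Pool.Agent.LibBP4.K12a

/-!
TASK K12.  `BB` against products of short sums.  `z = x^{1/u}`, grid `z_j = z (1+e)^j`, `j ≤ J`,
`z_J ≤ x/z < z_{J+1}`.  `prm z (x/z)` is the disjoint union of `prm z_j ((1+e)z_j)`, `j < J`, and
`prm z_J (x/z)`.  For `p` in the `j`-th window replace `W δ (x/p)` by `W δ (x/z_j)`
(`move_window`, `x/z_{j+1} ≥ z` large), error `≤ 8e x log p/p`; summed with
`∑_{p ≤ x} log p/p ≤ log x + K ≤ 2 log x` (`x_mertens_first`): `≤ 16 e x log x`.  The remaining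
`p ∈ (z_J, x/z] ⊆ (z_J, (1+e)z_J]` have total mass `≤ 2 z_J · 4 (x/z_J) = 8x` (`theta_window`; for
the inner sum `∑_{q ∈ (x/p, (1+δ)x/p]} log q ≤ 2δx/p ≤ 4x/p` as `x/p ≥ z`).  All constants are
absolute.
-/

open MeasureTheory Finset Filter
open scoped Topology

namespace BP4

open MR57 (tw DP trap SW wh ES IsCM Grep)

theorem K12_prm_split {a b c : ℝ} (ha : 0 ≤ a) (hab : a ≤ b) (hbc : b ≤ c) {M : Type*}
    [AddCommMonoid M] (f : ℕ → M) :
    ∑ p ∈ prm a c, f p = ∑ p ∈ prm a b, f p + ∑ p ∈ prm b c, f p := by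
  have hb : 0 ≤ b := ha.trans hab
  rw [← sum_union]
  · refine sum_congr ?_ fun _ _ => rfl
    ext p
    rw [mem_union, mem_prm ha, mem_prm ha, mem_prm hb]
    constructor
    · rintro ⟨⟨h1, h2⟩, h3⟩
      rcases le_or_gt (p : ℝ) b with h | h
      · exact Or.inl ⟨⟨h1, h⟩, h3⟩
      · exact Or.inr ⟨⟨h, h2⟩, h3⟩
    · rintro (⟨⟨h1, h2⟩, h3⟩ | ⟨⟨h1, h2⟩, h3⟩)
      · exact ⟨⟨h1, h2.trans hbc⟩, h3⟩
      · exact ⟨⟨lt_of_le_of_lt hab h1, h2⟩, h3⟩
  · rw [disjoint_left]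
    intro p h1 h2
    rw [mem_prm ha] at h1
    rw [mem_prm hb] at h2
    linarith [h1.1.2, h2.1.1]

theorem K12_grid {z e : ℝ} (hz : 0 ≤ z) (he : 0 < e) {M : Type*} [AddCommMonoid M]
    (f : ℕ → M) (J : ℕ) :
    ∑ p ∈ prm z (z * (1 + e) ^ J), f p =
      ∑ j ∈ range J, ∑ p ∈ prm (z * (1 + e) ^ j) ((1 + e) * (z * (1 + e) ^ j)), f p := by
  induction J with
  | zero =>
    rw [range_zero, sum_empty]
    refine sum_eq_zero fun p hp => ?_
    rw [mem_prm hz] at hp
    have h1 := hp.1.1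
    have h2 := hp.1.2
    rw [pow_zero, mul_one] at h2
    linarith
  | succ J ih =>
    rw [sum_range_succ, ← ih]
    have h1 : z ≤ z * (1 + e) ^ J := by
      have : (1 : ℝ) ≤ (1 + e) ^ J := one_le_pow₀ (by linarith)
      nlinarith
    have h2 : z * (1 + e) ^ J ≤ z * (1 + e) ^ (J + 1) := by
      rw [pow_succ, ← mul_assoc]
      have : 0 ≤ z * (1 + e) ^ J := by positivity
      nlinarith
    rw [K12_prm_split hz h1 h2 f]
    congr 3
    rw [pow_succ]
    ring

theorem K12_logp_nonneg {a b : ℝ} (_ : 0 ≤ a) : ∀ p ∈ prm a b, 0 ≤ Real.log (p : ℝ) := by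
  intro p _
  exact Real.log_natCast_nonneg p

theorem K12_norm_log (p : ℕ) : ‖((Real.log p : ℝ) : ℂ)‖ = Real.log p := by
  rw [Complex.norm_real, Real.norm_eq_abs, abs_of_nonneg (Real.log_natCast_nonneg p)]

theorem K12_W_le (δ y t : ℝ) : ‖W δ y t‖ ≤ ∑ p ∈ prm y ((1 + δ) * y), Real.log p := by
  unfold W
  refine (norm_sum_le _ _).trans (sum_le_sum fun p _ => ?_)
  rw [norm_mul, norm_tw, mul_one]
  exact (K12_norm_log p).le

theorem BB_grid : ∃ C : ℝ, 0 < C ∧ ∀ δ e u : ℝ, 0 < δ → δ ≤ 1 → 0 < e → e ≤ 1 → 2 ≤ u →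
    ∃ X₀ : ℝ, 2 ≤ X₀ ∧ ∀ (x t : ℝ) (J : ℕ), X₀ ≤ x →
    x ^ (1 / u) * (1 + e) ^ J ≤ x / x ^ (1 / u) →
    x / x ^ (1 / u) < x ^ (1 / u) * (1 + e) ^ (J + 1) →
    ‖BB δ x (x ^ (1 / u)) t‖ ≤
      (∑ j ∈ range J, ‖W e (x ^ (1 / u) * (1 + e) ^ j) t‖ *
        ‖W δ (x / (x ^ (1 / u) * (1 + e) ^ j)) t‖) + C * e * (x * Real.log x) + C * x := by
  obtain ⟨K, hK, HK⟩ := x_mertens_first
  refine ⟨16, by norm_num, ?_⟩
  intro δ e u hδ hδ1 he he1 hu
  obtain ⟨Y₀, hY₀, HY⟩ := move_window e he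
  obtain ⟨X₁, hX₁, H1⟩ := theta_window e 1 he one_pos
  obtain ⟨X₂, hX₂, H2⟩ := theta_window δ 1 hδ one_pos
  have hu0 : 0 < u := by linarith
  set M := max Y₀ (max X₁ X₂) with hM
  have hM2 : 2 ≤ M := hY₀.trans (le_max_left _ _)
  refine ⟨max 2 (max (Real.exp K) (M ^ u)), le_max_left _ _, ?_⟩
  intro x t J hx hJ1 hJ2
  have hx2 : 2 ≤ x := (le_max_left _ _).trans hx
  have hxK : Real.exp K ≤ x := ((le_max_left _ _).trans (le_max_right _ _)).trans hx
  have hxM : M ^ u ≤ x := ((le_max_right _ _).trans (le_max_right _ _)).trans hx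
  have hx0 : 0 < x := by linarith
  have hlog : K ≤ Real.log x := (Real.le_log_iff_exp_le hx0).2 hxK
  set z := x ^ (1 / u) with hz
  have hMz : M ≤ z := by
    have h := Real.rpow_le_rpow (by positivity) hxM (by positivity : (0 : ℝ) ≤ 1 / u)
    rwa [← Real.rpow_mul (by linarith), mul_one_div_cancel hu0.ne', Real.rpow_one] at h
  have hYz : Y₀ ≤ z := (le_max_left _ _).trans hMz
  have hX1z : X₁ ≤ z := ((le_max_left _ _).trans (le_max_right _ _)).trans hMz
  have hX2z : X₂ ≤ z := ((le_max_right _ _).trans (le_max_right _ _)).trans hMz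
  have hz0 : 0 < z := by linarith
  have hz1 : 1 ≤ z := by linarith
  have he1' : (0 : ℝ) < 1 + e := by linarith
  have hzj0 : ∀ j : ℕ, 0 < z * (1 + e) ^ j := fun j => by positivity
  have hzj1 : ∀ j : ℕ, z ≤ z * (1 + e) ^ j := fun j => by
    have : (1 : ℝ) ≤ (1 + e) ^ j := one_le_pow₀ (by linarith)
    nlinarith
  have hzmono : ∀ j k : ℕ, j ≤ k → z * (1 + e) ^ j ≤ z * (1 + e) ^ k := fun j k hjk =>
    mul_le_mul_of_nonneg_left (pow_le_pow_right₀ (by linarith) hjk) hz0.le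
  have hxz : x / z ≤ x := div_le_self hx0.le hz1
  set g : ℕ → ℂ := fun p => (Real.log p : ℂ) * tw t p * W δ (x / p) t with hg
  have hBB : BB δ x z t = (∑ j ∈ range J, ∑ p ∈ prm (z * (1 + e) ^ j)
      ((1 + e) * (z * (1 + e) ^ j)), g p) + ∑ p ∈ prm (z * (1 + e) ^ J) (x / z), g p := by
    rw [← K12_grid hz0.le he g J, ← K12_prm_split hz0.le (hzj1 J) hJ1 g]
    rfl
  -- the windows
  have hwin : ∀ j ∈ range J, ‖∑ p ∈ prm (z * (1 + e) ^ j) ((1 + e) * (z * (1 + e) ^ j)), g p‖ ≤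
      ‖W e (z * (1 + e) ^ j) t‖ * ‖W δ (x / (z * (1 + e) ^ j)) t‖ +
        8 * e * x * ∑ p ∈ prm (z * (1 + e) ^ j) ((1 + e) * (z * (1 + e) ^ j)),
          Real.log p / p := by
    intro j hj
    rw [mem_range] at hj
    set N := z * (1 + e) ^ j with hN
    have hN0 : 0 < N := hzj0 j
    have hN1 : (1 + e) * N ≤ x / z := by
      have h1 := hzmono (j + 1) J hj
      have h2 : (1 + e) * N = z * (1 + e) ^ (j + 1) := by rw [hN, pow_succ]; ring
      rw [h2]
      exact h1.trans hJ1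
    have hYN : Y₀ ≤ x / ((1 + e) * N) := by
      refine hYz.trans ?_
      rw [le_div_iff₀ (by positivity)]
      rw [le_div_iff₀ hz0] at hN1
      linarith
    have hdec : ∑ p ∈ prm N ((1 + e) * N), g p = W e N t * W δ (x / N) t +
        ∑ p ∈ prm N ((1 + e) * N), (Real.log p : ℂ) * tw t p *
          (W δ (x / p) t - W δ (x / N) t) := by
      conv_rhs => rw [W, sum_mul, ← sum_add_distrib]
      refine sum_congr rfl fun p _ => ?_
      simp only [hg]
      ring
    rw [hdec]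
    refine (norm_add_le _ _).trans ?_
    rw [norm_mul]
    refine add_le_add le_rfl ?_
    refine (norm_sum_le _ _).trans ?_
    rw [mul_sum]
    refine sum_le_sum fun p hp => ?_
    rw [mem_prm hN0.le] at hp
    have hp0 : (0 : ℝ) < p := hN0.trans hp.1.1
    have h := HY δ x t N p hδ hδ1 hx0 hN0 hp.1.1 hp.1.2 hYN
    rw [norm_mul, norm_mul, norm_tw, mul_one]
    have hnl : ‖((Real.log p : ℝ) : ℂ)‖ = Real.log p := K12_norm_log p
    rw [hnl]
    calc Real.log p * ‖W δ (x / p) t - W δ (x / N) t‖ ≤ Real.log p * (8 * e * (x / p)) :=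
          mul_le_mul_of_nonneg_left h (Real.log_natCast_nonneg p)
      _ = 8 * e * x * (Real.log p / p) := by ring
  have hsum1 : ∑ j ∈ range J, ∑ p ∈ prm (z * (1 + e) ^ j) ((1 + e) * (z * (1 + e) ^ j)),
      Real.log p / p ≤ 2 * Real.log x := by
    rw [← K12_grid hz0.le he (fun p : ℕ => Real.log p / p) J]
    have h1 : ∑ p ∈ prm z (z * (1 + e) ^ J), Real.log p / p ≤ ∑ p ∈ prm 0 x, Real.log p / p := by
      refine sum_le_sum_of_subset_of_nonneg ?_ ?_
      · intro p hp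
        rw [mem_prm hz0.le] at hp
        rw [mem_prm le_rfl]
        exact ⟨⟨hz0.trans hp.1.1, (hp.1.2.trans hJ1).trans hxz⟩, hp.2⟩
      · intro p _ _
        exact div_nonneg (Real.log_natCast_nonneg p) (Nat.cast_nonneg p)
    have h2 := (abs_le.1 (HK x (by linarith))).2
    linarith
  -- the last window
  have hlast : ‖∑ p ∈ prm (z * (1 + e) ^ J) (x / z), g p‖ ≤ 4 * x := by
    set N := z * (1 + e) ^ J with hN
    have hN0 : 0 < N := hzj0 J
    have hNz : z ≤ N := hzj1 J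
    have hsub : prm N (x / z) ⊆ prm N ((1 + e) * N) := by
      intro p hp
      rw [mem_prm hN0.le] at hp ⊢
      refine ⟨⟨hp.1.1, ?_⟩, hp.2⟩
      have h2 : (1 + e) * N = z * (1 + e) ^ (J + 1) := by rw [hN, pow_succ]; ring
      rw [h2]
      exact hp.1.2.trans hJ2.le
    have h3 : ∑ p ∈ prm N ((1 + e) * N), Real.log p ≤ 2 * N := by
      have := (abs_le.1 (H1 N (hX1z.trans hNz))).2
      nlinarith
    calc ‖∑ p ∈ prm N (x / z), g p‖ ≤ ∑ p ∈ prm N (x / z), Real.log p * (2 * (x / N)) := by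
          refine (norm_sum_le _ _).trans (sum_le_sum fun p hp => ?_)
          rw [mem_prm hN0.le] at hp
          have hp0 : (0 : ℝ) < p := hN0.trans hp.1.1
          simp only [hg]
          rw [norm_mul, norm_mul, norm_tw, mul_one]
          have hnl : ‖((Real.log p : ℝ) : ℂ)‖ = Real.log p := K12_norm_log p
          rw [hnl]
          refine mul_le_mul_of_nonneg_left ?_ (Real.log_natCast_nonneg p)
          have hxp : z ≤ x / p := by
            rw [le_div_iff₀ hp0]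
            have := hp.1.2
            rw [le_div_iff₀ hz0] at this
            linarith
          have h5 := (abs_le.1 (H2 (x / p) (hX2z.trans hxp))).2
          have h6 : 0 < x / p := by positivity
          have h7 : x / p ≤ x / N := div_le_div_of_nonneg_left hx0.le hN0 hp.1.1.le
          calc ‖W δ (x / p) t‖ ≤ ∑ q ∈ prm (x / p) ((1 + δ) * (x / p)), Real.log q :=
                K12_W_le δ (x / p) t
            _ ≤ 2 * (x / p) := by nlinarith
            _ ≤ 2 * (x / N) := by linarith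
      _ = (∑ p ∈ prm N (x / z), Real.log p) * (2 * (x / N)) := by rw [sum_mul]
      _ ≤ (2 * N) * (2 * (x / N)) := by
          refine mul_le_mul_of_nonneg_right ?_ (by positivity)
          refine le_trans ?_ h3
          exact sum_le_sum_of_subset_of_nonneg hsub fun p _ _ => Real.log_natCast_nonneg p
      _ = 4 * x := by field_simp; ring
  rw [hBB]
  refine (norm_add_le _ _).trans ?_
  have h8 : ‖∑ j ∈ range J, ∑ p ∈ prm (z * (1 + e) ^ j) ((1 + e) * (z * (1 + e) ^ j)), g p‖ ≤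
      (∑ j ∈ range J, ‖W e (z * (1 + e) ^ j) t‖ * ‖W δ (x / (z * (1 + e) ^ j)) t‖) +
        8 * e * x * (2 * Real.log x) := by
    refine (norm_sum_le _ _).trans ((sum_le_sum hwin).trans ?_)
    rw [sum_add_distrib, ← mul_sum]
    refine add_le_add le_rfl ?_
    exact mul_le_mul_of_nonneg_left hsum1 (by positivity)
  linarith

end BP4
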