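import Pool.Agent.LibBP4.K09

/-!
TASK K12a.  Moving the window of `q`.  For `N < p ≤ (1+e)N` the windows `(x/p, (1+δ)x/p]` and
`(x/N, (1+δ)x/N]` differ inside `(x/N', x/N] ∪ ((1+δ)x/N', (1+δ)x/N]` with `N' = (1+e)N`, i.e. in the
two windows `prm Y ((1+e)Y)` and `prm ((1+δ)Y) ((1+e)(1+δ)Y)`, `Y = x/N'`; by `theta_window e e` each
has mass `≤ 2e(1+δ)Y`, and `Y ≤ x/p`.  Here `Y ≥ z` is the largeness condition.
-/

open MeasureTheory Finset Filter
open scoped Topology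

namespace BP4

open MR57 (tw DP trap SW wh ES IsCM Grep)

theorem move_window (e : ℝ) (he : 0 < e) : ∃ Y₀ : ℝ, 2 ≤ Y₀ ∧ ∀ (δ x t N : ℝ) (p : ℕ), 0 < δ →
    δ ≤ 1 → 0 < x → 0 < N → N < p → (p : ℝ) ≤ (1 + e) * N → Y₀ ≤ x / ((1 + e) * N) →
    ‖W δ (x / p) t - W δ (x / N) t‖ ≤ 8 * e * (x / p) := by
  obtain ⟨X₀, hX₀, H⟩ := theta_window e e he he
  refine ⟨X₀, hX₀, ?_⟩
  intro δ x t N p hδ hδ1 hx hN hNp hpN hY
  set Y := x / ((1 + e) * N) with hYdef
  have he1 : 0 < 1 + e := by linarith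
  have hp0 : (0 : ℝ) < p := hN.trans hNp
  have hY0 : 0 < Y := by positivity
  have ha1 : Y ≤ x / p := div_le_div_of_nonneg_left hx.le hp0 hpN
  have ha2 : x / p ≤ x / N := div_le_div_of_nonneg_left hx.le hN hNp.le
  have ha3 : x / N = (1 + e) * Y := by
    rw [hYdef]
    field_simp
  have ha0 : 0 < x / p := by positivity
  have hN0 : 0 < x / N := by positivity
  set A := prm (x / p) ((1 + δ) * (x / p)) with hA
  set B := prm (x / N) ((1 + δ) * (x / N)) with hB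
  set f : ℕ → ℂ := fun q => (Real.log q : ℂ) * tw t q with hf
  have hfn : ∀ q, ‖f q‖ = Real.log q := by
    intro q
    simp only [hf]
    rw [norm_mul, norm_tw, mul_one, Complex.norm_real, Real.norm_eq_abs,
      abs_of_nonneg (Real.log_natCast_nonneg q)]
  have hdiff : W δ (x / p) t - W δ (x / N) t = ∑ q ∈ A \ B, f q - ∑ q ∈ B \ A, f q := by
    have h1 : W δ (x / p) t = ∑ q ∈ A, f q := rfl
    have h2 : W δ (x / N) t = ∑ q ∈ B, f q := rfl
    rw [h1, h2, sum_sdiff_sub_sum_sdiff]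
  have hw1 : A \ B ⊆ prm Y ((1 + e) * Y) := by
    intro q hq
    rw [Finset.mem_sdiff, hA, hB, mem_prm ha0.le, mem_prm hN0.le] at hq
    rw [mem_prm hY0.le]
    obtain ⟨⟨⟨h1, h2⟩, h3⟩, h4⟩ := hq
    refine ⟨⟨lt_of_le_of_lt ha1 h1, ?_⟩, h3⟩
    rw [← ha3]
    by_contra hcon
    push Not at hcon
    refine h4 ⟨⟨hcon, h2.trans ?_⟩, h3⟩
    exact mul_le_mul_of_nonneg_left ha2 (by linarith)
  have hw2 : B \ A ⊆ prm ((1 + δ) * Y) ((1 + e) * ((1 + δ) * Y)) := by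
    intro q hq
    rw [Finset.mem_sdiff, hA, hB, mem_prm ha0.le, mem_prm hN0.le] at hq
    rw [mem_prm (by positivity)]
    obtain ⟨⟨⟨h1, h2⟩, h3⟩, h4⟩ := hq
    refine ⟨⟨?_, ?_⟩, h3⟩
    · by_contra hcon
      push Not at hcon
      refine h4 ⟨⟨lt_of_le_of_lt ha2 h1, hcon.trans ?_⟩, h3⟩
      exact mul_le_mul_of_nonneg_left ha1 (by linarith)
    · refine h2.trans (le_of_eq ?_)
      rw [ha3]
      ring
  have hb1 : ∑ q ∈ prm Y ((1 + e) * Y), Real.log q ≤ 2 * e * Y := by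
    have := (abs_le.1 (H Y hY)).2
    linarith
  have hb2 : ∑ q ∈ prm ((1 + δ) * Y) ((1 + e) * ((1 + δ) * Y)), Real.log q ≤
      2 * e * ((1 + δ) * Y) := by
    have h1 : X₀ ≤ (1 + δ) * Y := by nlinarith
    have := (abs_le.1 (H _ h1)).2
    linarith
  rw [hdiff]
  refine (norm_sub_le _ _).trans ?_
  have hs1 : ‖∑ q ∈ A \ B, f q‖ ≤ 2 * e * Y := by
    refine (norm_sum_le _ _).trans (le_trans ?_ hb1)
    simp only [hfn]
    exact sum_le_sum_of_subset_of_nonneg hw1 fun q _ _ => Real.log_natCast_nonneg q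
  have hs2 : ‖∑ q ∈ B \ A, f q‖ ≤ 2 * e * ((1 + δ) * Y) := by
    refine (norm_sum_le _ _).trans (le_trans ?_ hb2)
    simp only [hfn]
    exact sum_le_sum_of_subset_of_nonneg hw2 fun q _ _ => Real.log_natCast_nonneg q
  have h5 : e * ((1 + δ) * Y) ≤ e * (2 * Y) := by
    refine mul_le_mul_of_nonneg_left ?_ he.le
    nlinarith
  have h6 : e * Y ≤ e * (x / p) := mul_le_mul_of_nonneg_left ha1 he.le
  have h7 : 0 ≤ e * Y := by positivity
  nlinarith

end BP4
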