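import Pool.Agent.LibBP4.K08
import Pool.Agent.LibBP4.K11
import Pool.Agent.LibBP4.K12

/-!
TASK K13.  Contraction.  Let `C₀` be from `selberg_formula`, `C` from `BB_grid`.  Choose `e` with
`(3/4)(1+2e) ≤ 4/5` and `2 C e ≤ ε δ/3`, `u ≥ 2` with `C₀/u ≤ ε δ/3`, and apply everything with the
exponent `A' = uA` at the scales `z_j ≥ x^{1/u}` and `x/z_j ≥ x^{1/u}`: `‖W e z_j‖ ≤ (3/4) e z_j`
(`three_quarter`), `‖W δ (x/z_j)‖ ≤ κ δ x/z_j` (hypothesis).  So each product is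
`≤ (3/4) e κ δ x`, and `J e ≤ (1+e) log x` (from `(1+e)^J ≤ x` and `log(1+e) ≥ e/(1+e)`).  Then
`log x |W| ≤ |BB| + C₀ x log x/u`.
-/

open MeasureTheory Finset Filter
open scoped Topology

namespace BP4

open MR57 (tw DP trap SW wh ES IsCM Grep)

theorem K13_J_bound (e y : ℝ) (he : 0 < e) (J : ℕ) (_hy : 0 < y) (h : (1 + e) ^ J ≤ y) :
    (J : ℝ) * e ≤ (1 + e) * Real.log y := by
  have h1 : (0 : ℝ) < 1 + e := by linarith
  have h2 : Real.log ((1 + e) ^ J) ≤ Real.log y := Real.log_le_log (by positivity) h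
  rw [Real.log_pow] at h2
  have h3 : e / (1 + e) ≤ Real.log (1 + e) := by
    have := Real.one_sub_inv_le_log_of_pos h1
    have e1 : 1 - (1 + e)⁻¹ = e / (1 + e) := by field_simp; ring
    rwa [e1] at this
  have h4 : (J : ℝ) * (e / (1 + e)) ≤ Real.log y :=
    (mul_le_mul_of_nonneg_left h3 (Nat.cast_nonneg J)).trans h2
  have h5 : (J : ℝ) * e = (1 + e) * ((J : ℝ) * (e / (1 + e))) := by field_simp
  rw [h5]
  exact mul_le_mul_of_nonneg_left h4 h1.le

theorem contraction (κ ε : ℝ) (hκ : 0 < κ) (hε : 0 < ε)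
    (H : ∀ δ A : ℝ, 0 < δ → δ ≤ 1 → 1 ≤ A → ∃ X₀ T₀ : ℝ, 2 ≤ X₀ ∧ 1 ≤ T₀ ∧ ∀ x t : ℝ, X₀ ≤ x →
      T₀ ≤ |t| → |t| ≤ x ^ A → ‖W δ x t‖ ≤ κ * (δ * x)) :
    ∀ δ A : ℝ, 0 < δ → δ ≤ 1 → 1 ≤ A → ∃ X₀ T₀ : ℝ, 2 ≤ X₀ ∧ 1 ≤ T₀ ∧ ∀ x t : ℝ, X₀ ≤ x →
      T₀ ≤ |t| → |t| ≤ x ^ A → ‖W δ x t‖ ≤ (4 / 5 * κ + ε) * (δ * x) := by
  intro δ A hδ hδ1 hA
  obtain ⟨C₀, hC₀, Hs⟩ := selberg_formula
  obtain ⟨C, hC, HB⟩ := BB_grid
  have hεδ : 0 < ε * δ := mul_pos hε hδ
  -- choice of e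
  obtain ⟨e, he0, he1, he2, he3⟩ : ∃ e : ℝ, 0 < e ∧ e ≤ 1 ∧ e ≤ 1 / 15 ∧ C * e ≤ ε * δ / 3 := by
    refine ⟨min (1 / 15) (ε * δ / (3 * C)), by positivity, ?_, min_le_left _ _, ?_⟩
    · exact (min_le_left _ _).trans (by norm_num)
    · calc C * min (1 / 15) (ε * δ / (3 * C)) ≤ C * (ε * δ / (3 * C)) :=
            mul_le_mul_of_nonneg_left (min_le_right _ _) hC.le
        _ = ε * δ / 3 := by field_simp
  -- choice of u
  obtain ⟨u, hu2, hu3⟩ : ∃ u : ℝ, 2 ≤ u ∧ C₀ / u ≤ ε * δ / 3 := by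
    refine ⟨max 2 (3 * C₀ / (ε * δ)), le_max_left _ _, ?_⟩
    have h1 : 3 * C₀ / (ε * δ) ≤ max 2 (3 * C₀ / (ε * δ)) := le_max_right _ _
    have h2 : 0 < 3 * C₀ / (ε * δ) := by positivity
    calc C₀ / max 2 (3 * C₀ / (ε * δ)) ≤ C₀ / (3 * C₀ / (ε * δ)) :=
          div_le_div_of_nonneg_left hC₀.le h2 h1
      _ = ε * δ / 3 := by field_simp
  have hu0 : 0 < u := by linarith
  have huA : 1 ≤ u * A := by nlinarith
  obtain ⟨X1, T1, hX1, hT1, G1⟩ := Hs u A hu2 hA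
  obtain ⟨X2, hX2, G2⟩ := HB δ e u hδ hδ1 he0 he1 hu2
  obtain ⟨X3, T3, hX3, hT3, G3⟩ := three_quarter e (u * A) he0 he1 huA
  obtain ⟨X4, T4, hX4, hT4, G4⟩ := H δ (u * A) hδ hδ1 huA
  -- the threshold
  let Y : ℝ := max X3 X4
  have hY2 : 2 ≤ Y := hX3.trans (le_max_left _ _)
  refine ⟨max (max X1 X2) (max (Y ^ u) (Real.exp (3 * C / (ε * δ)))), max T1 (max T3 T4),
    hX1.trans ((le_max_left _ _).trans (le_max_left _ _)), hT1.trans (le_max_left _ _), ?_⟩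
  intro x t hx ht htx
  have hx1 : X1 ≤ x := (le_max_left _ _).trans ((le_max_left _ _).trans hx)
  have hx2 : X2 ≤ x := (le_max_right _ _).trans ((le_max_left _ _).trans hx)
  have hx3 : Y ^ u ≤ x := (le_max_left _ _).trans ((le_max_right _ _).trans hx)
  have hx4 : Real.exp (3 * C / (ε * δ)) ≤ x := (le_max_right _ _).trans ((le_max_right _ _).trans hx)
  have ht1 : T1 ≤ |t| := (le_max_left _ _).trans ht
  have ht3 : T3 ≤ |t| := (le_max_left _ _).trans ((le_max_right _ _).trans ht)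
  have ht4 : T4 ≤ |t| := (le_max_right _ _).trans ((le_max_right _ _).trans ht)
  have hx0 : 0 < x := by linarith
  have hx1' : 1 < x := by linarith
  have hlog : 3 * C / (ε * δ) ≤ Real.log x := by
    rw [← Real.log_exp (3 * C / (ε * δ))]
    exact Real.log_le_log (Real.exp_pos _) hx4
  have hlog0 : 0 < Real.log x := Real.log_pos hx1'
  let z : ℝ := x ^ (1 / u)
  have hz : z = x ^ (1 / u) := rfl
  have hz0 : 0 < z := Real.rpow_pos_of_pos hx0 _
  have hzY : Y ≤ z := by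
    have h1 : (Y ^ u) ^ (1 / u) ≤ x ^ (1 / u) :=
      Real.rpow_le_rpow (by positivity) hx3 (by positivity)
    rwa [← Real.rpow_mul (by linarith), mul_one_div_cancel hu0.ne', Real.rpow_one] at h1
  have hz2 : z * z ≤ x := by
    rw [hz, ← Real.rpow_add hx0]
    calc x ^ (1 / u + 1 / u) ≤ x ^ (1 : ℝ) := by
          apply Real.rpow_le_rpow_of_exponent_le hx1'.le
          have : 1 / u ≤ 1 / 2 := one_div_le_one_div_of_le (by norm_num) hu2
          linarith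
      _ = x := Real.rpow_one x
  have hzu : z ^ (u * A) = x ^ A := by
    rw [hz, ← Real.rpow_mul hx0.le]
    congr 1
    field_simp
  have hzA : ∀ w : ℝ, z ≤ w → |t| ≤ w ^ (u * A) := by
    intro w hw
    calc |t| ≤ x ^ A := htx
      _ = z ^ (u * A) := hzu.symm
      _ ≤ w ^ (u * A) := Real.rpow_le_rpow hz0.le hw (by linarith)
  have hxz : 1 ≤ x / z / z := by
    rw [div_div, le_div_iff₀ (by positivity), one_mul]
    exact hz2
  obtain ⟨J, hJ1, hJ2⟩ := exists_nat_pow_near hxz (show 1 < 1 + e by linarith)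
  have hJ1' : z * (1 + e) ^ J ≤ x / z := by
    have := mul_le_mul_of_nonneg_left hJ1 hz0.le
    rwa [mul_div_cancel₀ _ hz0.ne'] at this
  have hJ2' : x / z < z * (1 + e) ^ (J + 1) := by
    have := mul_lt_mul_of_pos_left hJ2 hz0
    rwa [mul_div_cancel₀ _ hz0.ne'] at this
  have hBB := G2 x t J hx2 hJ1' hJ2'
  have hform := G1 x t δ hx1 ht1 htx hδ.le hδ1
  -- the sum over the grid
  have hterm : ∀ j ∈ range J, ‖W e (z * (1 + e) ^ j) t‖ * ‖W δ (x / (z * (1 + e) ^ j)) t‖ ≤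
      3 / 4 * e * κ * δ * x := by
    intro j hj
    rw [mem_range] at hj
    have hp : 1 ≤ (1 + e) ^ j := one_le_pow₀ (by linarith)
    have hzj : z ≤ z * (1 + e) ^ j := le_mul_of_one_le_right hz0.le hp
    have hzj0 : 0 < z * (1 + e) ^ j := by positivity
    have hpj : (1 + e) ^ j ≤ (1 + e) ^ J := pow_le_pow_right₀ (by linarith) hj.le
    have hxj : z ≤ x / (z * (1 + e) ^ j) := by
      rw [le_div_iff₀ hzj0]
      have h1 : z * (1 + e) ^ j ≤ x / z := (mul_le_mul_of_nonneg_left hpj hz0.le).trans hJ1'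
      rw [le_div_iff₀ hz0] at h1
      linarith
    have a1 := G3 (z * (1 + e) ^ j) t ((le_max_left _ _).trans (hzY.trans hzj)) ht3 (hzA _ hzj)
    have a2 := G4 (x / (z * (1 + e) ^ j)) t ((le_max_right _ _).trans (hzY.trans hxj)) ht4
      (hzA _ hxj)
    calc ‖W e (z * (1 + e) ^ j) t‖ * ‖W δ (x / (z * (1 + e) ^ j)) t‖ ≤
          (3 / 4 * (e * (z * (1 + e) ^ j))) * (κ * (δ * (x / (z * (1 + e) ^ j)))) :=
          mul_le_mul a1 a2 (norm_nonneg _) (by positivity)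
      _ = 3 / 4 * e * κ * δ * x := by
          field_simp
  have hsum : ∑ j ∈ range J, ‖W e (z * (1 + e) ^ j) t‖ * ‖W δ (x / (z * (1 + e) ^ j)) t‖ ≤
      (J : ℝ) * (3 / 4 * e * κ * δ * x) := by
    calc _ ≤ ∑ _j ∈ range J, 3 / 4 * e * κ * δ * x := sum_le_sum hterm
      _ = (J : ℝ) * (3 / 4 * e * κ * δ * x) := by rw [sum_const, card_range, nsmul_eq_mul]
  have hJe : (J : ℝ) * e ≤ (1 + e) * Real.log x := by
    refine K13_J_bound e x he0 J hx0 (hJ1.trans ?_)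
    rw [div_div, div_le_iff₀ (by positivity)]
    have : 1 ≤ z * z := by
      have : 1 ≤ z := by linarith
      nlinarith
    nlinarith
  have hsum2 : (J : ℝ) * (3 / 4 * e * κ * δ * x) ≤ 4 / 5 * κ * (δ * x) * Real.log x := by
    have e1 : (J : ℝ) * (3 / 4 * e * κ * δ * x) = ((J : ℝ) * e) * (3 / 4 * κ * (δ * x)) := by ring
    rw [e1]
    calc ((J : ℝ) * e) * (3 / 4 * κ * (δ * x)) ≤
          ((1 + e) * Real.log x) * (3 / 4 * κ * (δ * x)) :=
          mul_le_mul_of_nonneg_right hJe (by positivity)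
      _ = ((1 + e) * (3 / 4)) * (κ * (δ * x) * Real.log x) := by ring
      _ ≤ (4 / 5) * (κ * (δ * x) * Real.log x) := by
          apply mul_le_mul_of_nonneg_right _ (by positivity)
          linarith
      _ = 4 / 5 * κ * (δ * x) * Real.log x := by ring
  -- combine
  have hW : Real.log x * ‖W δ x t‖ ≤ ‖BB δ x z t‖ + C₀ * x * Real.log x / u := by
    have h1 : ‖(Real.log x : ℂ) * W δ x t‖ ≤
        ‖(Real.log x : ℂ) * W δ x t + BB δ x z t‖ + ‖BB δ x z t‖ := by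
      have := norm_sub_le ((Real.log x : ℂ) * W δ x t + BB δ x z t) (BB δ x z t)
      rwa [add_sub_cancel_right] at this
    rw [norm_mul, Complex.norm_real, Real.norm_of_nonneg hlog0.le] at h1
    linarith [hform]
  have hA1 : C₀ * x * Real.log x / u ≤ ε * δ / 3 * (x * Real.log x) := by
    have e1 : C₀ * x * Real.log x / u = (C₀ / u) * (x * Real.log x) := by ring
    rw [e1]
    exact mul_le_mul_of_nonneg_right hu3 (by positivity)
  have hA2 : C * e * (x * Real.log x) ≤ ε * δ / 3 * (x * Real.log x) :=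
    mul_le_mul_of_nonneg_right he3 (by positivity)
  have hA3 : C * x ≤ ε * δ / 3 * (x * Real.log x) := by
    have h1 : C ≤ ε * δ / 3 * Real.log x := by
      rw [div_le_iff₀ hεδ] at hlog
      linarith
    calc C * x ≤ (ε * δ / 3 * Real.log x) * x := mul_le_mul_of_nonneg_right h1 hx0.le
      _ = ε * δ / 3 * (x * Real.log x) := by ring
  have hfin : Real.log x * ‖W δ x t‖ ≤ Real.log x * ((4 / 5 * κ + ε) * (δ * x)) := by
    calc Real.log x * ‖W δ x t‖ ≤ 4 / 5 * κ * (δ * x) * Real.log x +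
          ε * δ / 3 * (x * Real.log x) + ε * δ / 3 * (x * Real.log x) +
          ε * δ / 3 * (x * Real.log x) := by linarith
      _ = Real.log x * ((4 / 5 * κ + ε) * (δ * x)) := by ring
  exact le_of_mul_le_mul_left hfin hlog0

end BP4
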