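import Pool.Agent.LibBP4.K13
import Pool.Agent.LibBP4.K06

/-!
TASK K14.  Pointwise bound for prime polynomials.  Iterate `contraction` starting from `three_quarter`: with
`ε = η/10` the constants `κ_{n+1} = (4/5) κ_n + ε` drop below `6ε`, so
`‖W δ x t‖ ≤ η δ x` for every `η > 0`.  Unweighted: `|∑ p^{-it} - W/log x| ≤ ∑ |1 - log p/log x| ≤
#primes · log 2/log x ≤ C x/log² x` (`cheb`).
-/

open MeasureTheory Finset Filter
open scoped Topology

namespace BP4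

open MR57 (tw DP trap SW wh ES IsCM Grep)

private theorem K14_iter (ε : ℝ) (hε : 0 < ε) (n : ℕ) :
    ∀ δ A : ℝ, 0 < δ → δ ≤ 1 → 1 ≤ A → ∃ X₀ T₀ : ℝ, 2 ≤ X₀ ∧ 1 ≤ T₀ ∧ ∀ x t : ℝ, X₀ ≤ x →
      T₀ ≤ |t| → |t| ≤ x ^ A → ‖W δ x t‖ ≤ ((4 / 5) ^ n * (3 / 4) + 5 * ε) * (δ * x) := by
  induction n with
  | zero =>
    intro δ A hδ hδ1 hA
    obtain ⟨X₀, T₀, h1, h2, h3⟩ := three_quarter δ A hδ hδ1 hA
    refine ⟨X₀, T₀, h1, h2, fun x t hx ht hxt => (h3 x t hx ht hxt).trans ?_⟩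
    have hx0 : 0 ≤ x := by linarith
    refine mul_le_mul_of_nonneg_right ?_ (mul_nonneg hδ.le hx0)
    rw [pow_zero]
    linarith
  | succ n ih =>
    intro δ A hδ hδ1 hA
    have hκ : (0 : ℝ) < (4 / 5) ^ n * (3 / 4) + 5 * ε := by positivity
    obtain ⟨X₀, T₀, h1, h2, h3⟩ := contraction _ ε hκ hε ih δ A hδ hδ1 hA
    refine ⟨X₀, T₀, h1, h2, fun x t hx ht hxt => (h3 x t hx ht hxt).trans (le_of_eq ?_)⟩
    rw [pow_succ]
    ring

private theorem K14_all (η : ℝ) (hη : 0 < η) :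
    ∀ δ A : ℝ, 0 < δ → δ ≤ 1 → 1 ≤ A → ∃ X₀ T₀ : ℝ, 2 ≤ X₀ ∧ 1 ≤ T₀ ∧ ∀ x t : ℝ, X₀ ≤ x →
      T₀ ≤ |t| → |t| ≤ x ^ A → ‖W δ x t‖ ≤ η * (δ * x) := by
  intro δ A hδ hδ1 hA
  have hlim : Tendsto (fun n : ℕ => ((4 : ℝ) / 5) ^ n) atTop (𝓝 0) :=
    tendsto_pow_atTop_nhds_zero_of_lt_one (by norm_num) (by norm_num)
  obtain ⟨n, hn⟩ := (hlim.eventually (gt_mem_nhds (show (0 : ℝ) < η / 2 by linarith))).exists
  obtain ⟨X₀, T₀, h1, h2, h3⟩ := K14_iter (η / 10) (by linarith) n δ A hδ hδ1 hA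
  refine ⟨X₀, T₀, h1, h2, fun x t hx ht hxt => (h3 x t hx ht hxt).trans ?_⟩
  have hx0 : 0 ≤ x := by linarith
  refine mul_le_mul_of_nonneg_right ?_ (mul_nonneg hδ.le hx0)
  have h4 : (0 : ℝ) < (4 / 5) ^ n := by positivity
  linarith

theorem kp (δ η A : ℝ) (hδ : 0 < δ) (hδ1 : δ ≤ 1) (hη : 0 < η) (hA : 1 ≤ A) :
    ∃ X₀ T₀ : ℝ, 2 ≤ X₀ ∧ 1 ≤ T₀ ∧ ∀ x t : ℝ, X₀ ≤ x → T₀ ≤ |t| → |t| ≤ x ^ A →
    ‖PP δ x t‖ ≤ η * (x / Real.log x) := by
  obtain ⟨C, hC, hcheb, -⟩ := cheb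
  obtain ⟨X₀, T₀, h1, h2, h3⟩ := K14_all (η / 2) (by linarith) δ A hδ hδ1 hA
  refine ⟨max X₀ (Real.exp (4 * C / η)), T₀, h1.trans (le_max_left _ _), h2,
    fun x t hx ht hxt => ?_⟩
  have hx1 : X₀ ≤ x := (le_max_left _ _).trans hx
  have hx2 : Real.exp (4 * C / η) ≤ x := (le_max_right _ _).trans hx
  have hxge : 2 ≤ x := h1.trans hx1
  have hx0 : 0 < x := by linarith
  have hL : 0 < Real.log x := Real.log_pos (by linarith)
  have hLbig : 4 * C / η ≤ Real.log x := by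
    rw [← Real.log_exp (4 * C / η)]
    exact Real.log_le_log (Real.exp_pos _) hx2
  have hW := h3 x t hx1 ht hxt
  -- comparison
  have hdiff : ‖(Real.log x : ℂ) * PP δ x t - W δ x t‖ ≤ 2 * C * (x / Real.log x) := by
    have e1 : (Real.log x : ℂ) * PP δ x t - W δ x t =
        ∑ p ∈ prm x ((1 + δ) * x), ((Real.log x - Real.log (p : ℝ) : ℝ) : ℂ) * tw t p := by
      unfold PP W MR57.DP
      rw [Finset.mul_sum, ← Finset.sum_sub_distrib]
      refine Finset.sum_congr rfl fun p _ => ?_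
      push_cast
      ring
    rw [e1]
    have e2 : ∀ p ∈ prm x ((1 + δ) * x),
        ‖((Real.log x - Real.log (p : ℝ) : ℝ) : ℂ) * tw t p‖ ≤ 1 := by
      intro p hp
      rw [norm_mul, norm_tw, mul_one, Complex.norm_real, Real.norm_eq_abs]
      obtain ⟨⟨hp1, hp2⟩, -⟩ := (mem_prm hx0.le).1 hp
      have hlog1 : Real.log x ≤ Real.log (p : ℝ) := Real.log_le_log hx0 hp1.le
      have hp0 : (0 : ℝ) < (p : ℝ) := hx0.trans hp1
      have hlog2 : Real.log (p : ℝ) ≤ Real.log (2 * x) :=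
        Real.log_le_log hp0 (hp2.trans (by nlinarith))
      rw [Real.log_mul (by norm_num) hx0.ne'] at hlog2
      have hlog3 : Real.log 2 ≤ 1 := by
        have := Real.log_two_lt_d9
        linarith
      rw [abs_le]
      constructor <;> linarith
    have e3 : ((prm x ((1 + δ) * x)).card : ℝ) ≤ ((prm 0 (2 * x)).card : ℝ) := by
      have hsub : prm x ((1 + δ) * x) ⊆ prm 0 (2 * x) := by
        intro p hp
        obtain ⟨⟨hp1, hp2⟩, hp3⟩ := (mem_prm hx0.le).1 hp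
        exact (mem_prm le_rfl).2 ⟨⟨hx0.trans hp1, hp2.trans (by nlinarith)⟩, hp3⟩
      exact_mod_cast Finset.card_le_card hsub
    have e4 := hcheb (2 * x) (by linarith)
    have e5 : C * (2 * x / Real.log (2 * x)) ≤ 2 * C * (x / Real.log x) := by
      have h5 : Real.log x ≤ Real.log (2 * x) := Real.log_le_log hx0 (by linarith)
      have h6 : 2 * x / Real.log (2 * x) ≤ 2 * x / Real.log x := by gcongr
      calc C * (2 * x / Real.log (2 * x)) ≤ C * (2 * x / Real.log x) :=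
            mul_le_mul_of_nonneg_left h6 hC.le
        _ = 2 * C * (x / Real.log x) := by ring
    calc ‖∑ p ∈ prm x ((1 + δ) * x), ((Real.log x - Real.log (p : ℝ) : ℝ) : ℂ) * tw t p‖
        ≤ ∑ p ∈ prm x ((1 + δ) * x), ‖((Real.log x - Real.log (p : ℝ) : ℝ) : ℂ) * tw t p‖ :=
          norm_sum_le _ _
      _ ≤ ∑ _p ∈ prm x ((1 + δ) * x), (1 : ℝ) := Finset.sum_le_sum e2
      _ = ((prm x ((1 + δ) * x)).card : ℝ) := by simp
      _ ≤ 2 * C * (x / Real.log x) := e3.trans (e4.trans e5)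
  have hmain : Real.log x * ‖PP δ x t‖ ≤ η / 2 * (δ * x) + 2 * C * (x / Real.log x) := by
    have e1 : Real.log x * ‖PP δ x t‖ = ‖(Real.log x : ℂ) * PP δ x t‖ := by
      rw [norm_mul, Complex.norm_real, Real.norm_eq_abs, abs_of_pos hL]
    rw [e1]
    have e2 : (Real.log x : ℂ) * PP δ x t =
        W δ x t + ((Real.log x : ℂ) * PP δ x t - W δ x t) := by ring
    rw [e2]
    exact (norm_add_le _ _).trans (add_le_add hW hdiff)
  have hfin : η / 2 * (δ * x) + 2 * C * (x / Real.log x) ≤ η * x := by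
    have e1 : η / 2 * (δ * x) ≤ η / 2 * x := by
      have : δ * x ≤ x := by nlinarith
      exact mul_le_mul_of_nonneg_left this (by linarith)
    have e2 : 2 * C * (x / Real.log x) ≤ η / 2 * x := by
      have e3 : 2 * C / Real.log x ≤ η / 2 := by
        rw [div_le_iff₀ hL]
        rw [div_le_iff₀ hη] at hLbig
        linarith
      calc 2 * C * (x / Real.log x) = (2 * C / Real.log x) * x := by ring
        _ ≤ η / 2 * x := mul_le_mul_of_nonneg_right e3 hx0.le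
    linarith
  have e : η * (x / Real.log x) = η * x / Real.log x := by ring
  rw [e, le_div_iff₀ hL]
  linarith

end BP4
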