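import Pool.Agent.LibBP4.Ext

/-!
TASK M01a.  The prime number theorem in tent form.  For a prime `q`, `max 0 (w - |log A - log q|) =
∫_0^w 1_{e^{-r}A < q < e^r A} dr`.  Summing over `q ∈ s` the integrand is the number of primes in
`(e^{-r}A, e^r A)`, which by `x_primeCounting_tendsto` is `(e^r - e^{-r}) A/log A + O(ε' A/log A)`
uniformly for `0 ≤ r ≤ w ≤ 1`, `A ≥ A₀` (`π(x) = (1+o(1)) x/log x` uniformly for
`x ∈ [A/3, 3A]`, where `log x/log A → 1`).  `∫_0^w (e^r - e^{-r}) dr = 2 cosh w - 2`.
-/

open MeasureTheory Finset Filter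
open scoped Topology

namespace BP4

open MR57 (tw DP trap SW wh ES IsCM Grep)

/-- Indicator of `-r < a ≤ r`. -/
noncomputable def M01a_ind (a r : ℝ) : ℝ := if a ≤ r ∧ -a < r then 1 else 0

theorem M01a_ind_eq (a r : ℝ) : M01a_ind a r =
    Set.indicator (Set.Ici a ∩ Set.Ioi (-a)) (fun _ => (1 : ℝ)) r := by
  unfold M01a_ind
  rw [Set.indicator_apply]
  rfl

theorem M01a_ind_int (a w : ℝ) : IntervalIntegrable (M01a_ind a) volume 0 w := by
  have h : M01a_ind a = Set.indicator (Set.Ici a ∩ Set.Ioi (-a)) (fun _ => (1 : ℝ)) := by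
    funext r; exact M01a_ind_eq a r
  rw [h]
  constructor <;>
  exact (integrable_const (1 : ℝ)).indicator (measurableSet_Ici.inter measurableSet_Ioi)

theorem M01a_ind_integral (a w : ℝ) (hw : 0 < w) :
    ∫ r in (0 : ℝ)..w, M01a_ind a r = max 0 (w - |a|) := by
  rw [intervalIntegral.integral_of_le hw.le]
  have h1 : ∫ r in Set.Ioc 0 w, M01a_ind a r =
      ∫ r in Set.Ioc 0 w, Set.indicator (Set.Ici |a|) (fun _ => (1 : ℝ)) r := by
    apply integral_congr_ae
    have h2 : ∀ᵐ r : ℝ ∂(volume.restrict (Set.Ioc 0 w)), r ≠ |a| := by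
      apply ae_restrict_of_ae
      rw [ae_iff]
      simp
    filter_upwards [h2] with r hr
    unfold M01a_ind
    rw [Set.indicator_apply]
    have : (a ≤ r ∧ -a < r) ↔ |a| ≤ r := by
      constructor
      · rintro ⟨h3, h4⟩
        exact abs_le.2 ⟨by linarith, h3⟩
      · intro h3
        have h5 : |a| < r := lt_of_le_of_ne h3 (Ne.symm hr)
        rw [abs_lt] at h5
        exact ⟨h5.2.le, by linarith⟩
    simp only [this, Set.mem_Ici]
  rw [h1, setIntegral_indicator measurableSet_Ici]
  rcases le_or_gt |a| w with h | h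
  · rw [max_eq_right (by linarith)]
    rcases eq_or_lt_of_le (abs_nonneg a) with h0 | h0
    · rw [← h0]
      have : Set.Ioc 0 w ∩ Set.Ici (0 : ℝ) = Set.Ioc 0 w := by
        ext r
        simp only [Set.mem_inter_iff, Set.mem_Ioc, Set.mem_Ici]
        constructor
        · exact fun h => h.1
        · exact fun h => ⟨h, h.1.le⟩
      rw [this]
      simp [hw.le]
    · have : Set.Ioc 0 w ∩ Set.Ici |a| = Set.Icc |a| w := by
        ext r
        simp only [Set.mem_inter_iff, Set.mem_Ioc, Set.mem_Ici, Set.mem_Icc]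
        constructor
        · exact fun h => ⟨h.2, h.1.2⟩
        · exact fun h => ⟨⟨by linarith [h.1], h.2⟩, h.1⟩
      rw [this]
      simp [h]
  · rw [max_eq_left (by linarith)]
    have : Set.Ioc 0 w ∩ Set.Ici |a| = ∅ := by
      ext r
      simp only [Set.mem_inter_iff, Set.mem_Ioc, Set.mem_Ici, Set.mem_empty_iff_false, iff_false]
      rintro ⟨h3, h4⟩
      linarith [h3.2]
    rw [this]
    simp

/-- Uniform prime number theorem. -/
theorem M01a_pnt (ε : ℝ) (hε : 0 < ε) : ∃ A₀ : ℝ, 9 ≤ A₀ ∧ ∀ A y : ℝ, A₀ ≤ A → A / 3 ≤ y →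
    y ≤ 3 * A → |(Nat.primeCounting ⌊y⌋₊ : ℝ) - y / Real.log A| ≤ ε * (A / Real.log A) := by
  have h1 := (Metric.tendsto_atTop.1 x_primeCounting_tendsto) (ε / 12) (by positivity)
  obtain ⟨Y, hY⟩ := h1
  have h2 : ∀ᶠ A : ℝ in atTop, 6 * Real.log 3 / ε ≤ Real.log (A / 3) := by
    have : Tendsto (fun A : ℝ => Real.log (A / 3)) atTop atTop :=
      Real.tendsto_log_atTop.comp (tendsto_id.atTop_div_const (by norm_num))
    exact this.eventually_ge_atTop _
  obtain ⟨A₁, hA₁⟩ := eventually_atTop.1 h2
  refine ⟨max 9 (max A₁ (3 * |Y|)), le_max_left _ _, ?_⟩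
  intro A y hA hy1 hy2
  have hA9 : 9 ≤ A := le_trans (le_max_left _ _) hA
  have hAA : A₁ ≤ A := le_trans ((le_max_left _ _).trans (le_max_right _ _)) hA
  have hAY : 3 * |Y| ≤ A := le_trans ((le_max_right _ _).trans (le_max_right _ _)) hA
  have hlog3 : 0 < Real.log 3 := Real.log_pos (by norm_num)
  have hy0 : 0 < y := by linarith
  have hyY : Y ≤ y := by linarith [le_abs_self Y]
  have h3 := hY y hyY
  rw [Real.dist_eq] at h3
  have hlA3 : 0 < Real.log (A / 3) := Real.log_pos (by linarith)
  have hlA : 0 < Real.log A := Real.log_pos (by linarith)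
  have hly : Real.log (A / 3) ≤ Real.log y := Real.log_le_log (by linarith) hy1
  have hly0 : 0 < Real.log y := by linarith
  have e1 : Real.log (A / 3) = Real.log A - Real.log 3 :=
    Real.log_div (by linarith) (by norm_num)
  have hly2 : Real.log y ≤ Real.log A + Real.log 3 := by
    have := Real.log_le_log hy0 hy2
    rw [Real.log_mul (by norm_num) (by linarith)] at this
    linarith
  have h9 : Real.log A ≤ 2 * Real.log y := by
    have : 2 * Real.log 3 ≤ Real.log A := by
      have h : Real.log 9 = 2 * Real.log 3 := by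
        rw [show (9 : ℝ) = 3 ^ 2 by norm_num, Real.log_pow]; norm_num
      rw [← h]
      exact Real.log_le_log (by norm_num) hA9
    linarith
  set π := (Nat.primeCounting ⌊y⌋₊ : ℝ) with hπ
  have h4 : |π - y / Real.log y| ≤ ε / 12 * (y / Real.log y) := by
    have e2 : π - y / Real.log y = (π * Real.log y / y - 1) * (y / Real.log y) := by
      field_simp
    rw [e2, abs_mul, abs_of_pos (show 0 < y / Real.log y by positivity)]
    exact mul_le_mul_of_nonneg_right h3.le (by positivity)
  have h5 : y / Real.log y ≤ 6 * (A / Real.log A) := by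
    rw [← mul_div_assoc, div_le_div_iff₀ hly0 hlA]
    nlinarith [mul_le_mul hy2 h9 hlA.le (by linarith)]
  have h6 : |y / Real.log y - y / Real.log A| ≤ ε / 2 * (A / Real.log A) := by
    have e3 : y / Real.log y - y / Real.log A =
        (y * (Real.log A - Real.log y) / Real.log y) / Real.log A := by
      field_simp
    rw [e3, abs_div, abs_of_pos hlA, ← mul_div_assoc]
    apply div_le_div_of_nonneg_right _ hlA.le
    rw [abs_div, abs_of_pos hly0, div_le_iff₀ hly0, abs_mul, abs_of_pos hy0]
    have h7 : |Real.log A - Real.log y| ≤ Real.log 3 := abs_le.2 ⟨by linarith, by linarith⟩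
    have h8 := hA₁ A hAA
    rw [div_le_iff₀ hε] at h8
    calc y * |Real.log A - Real.log y| ≤ (3 * A) * Real.log 3 :=
          mul_le_mul hy2 h7 (abs_nonneg _) (by linarith)
      _ ≤ ε / 2 * A * Real.log y := by nlinarith [mul_le_mul_of_nonneg_left hly hε.le]
  calc |π - y / Real.log A| ≤ |π - y / Real.log y| + |y / Real.log y - y / Real.log A| :=
        abs_sub_le _ _ _
    _ ≤ ε / 12 * (y / Real.log y) + ε / 2 * (A / Real.log A) := add_le_add h4 h6
    _ ≤ ε / 12 * (6 * (A / Real.log A)) + ε / 2 * (A / Real.log A) := by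
        have := mul_le_mul_of_nonneg_left h5 (show 0 ≤ ε / 12 by positivity)
        linarith
    _ = ε * (A / Real.log A) := by ring

theorem M01a_count (a b : ℕ) (hab : a ≤ b) :
    (((Ioc a b).filter Nat.Prime).card : ℝ) = Nat.primeCounting b - Nat.primeCounting a := by
  have h1 : (range (b + 1)).filter Nat.Prime =
      ((range (a + 1)).filter Nat.Prime) ∪ ((Ioc a b).filter Nat.Prime) := by
    rw [← filter_union]
    congr 1
    ext x
    simp only [mem_range, mem_union, mem_Ioc]
    omega
  have h2 : Disjoint ((range (a + 1)).filter Nat.Prime) ((Ioc a b).filter Nat.Prime) := by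
    apply disjoint_filter_filter
    rw [Finset.disjoint_left]
    intro x hx hx2
    simp only [mem_range, mem_Ioc] at hx hx2
    omega
  have h3 := card_union_of_disjoint h2
  rw [← h1] at h3
  unfold Nat.primeCounting Nat.primeCounting'
  rw [Nat.count_eq_card_filter_range, Nat.count_eq_card_filter_range, h3]
  push_cast
  ring

theorem tent_sum (w ε : ℝ) (hw : 0 < w) (hw1 : w ≤ 1) (hε : 0 < ε) : ∃ A₀ : ℝ, 2 ≤ A₀ ∧
    ∀ (A : ℝ) (s : Finset ℕ), A₀ ≤ A → (∀ q ∈ s, q.Prime) →
    (∀ q : ℕ, q.Prime → Real.exp (-w) * A < q → (q : ℝ) < Real.exp w * A → q ∈ s) →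
    |∑ q ∈ s, max 0 (w - |Real.log A - Real.log q|) -
      (2 * Real.cosh w - 2) * (A / Real.log A)| ≤ ε * (A / Real.log A) := by
  obtain ⟨A₀, hA₀, hpnt⟩ := M01a_pnt (ε / 2) (by positivity)
  refine ⟨A₀, by linarith, ?_⟩
  intro A s hA hs hs2
  have hA9 : 9 ≤ A := by linarith
  have hA0 : 0 < A := by linarith
  have hlA : 0 < Real.log A := Real.log_pos (by linarith)
  set X := A / Real.log A with hX
  have hX0 : 0 < X := by positivity
  -- the sum is an integral
  have e1 : ∑ q ∈ s, max 0 (w - |Real.log A - Real.log q|) =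
      ∫ r in (0 : ℝ)..w, ∑ q ∈ s, M01a_ind (Real.log q - Real.log A) r := by
    rw [intervalIntegral.integral_finsetSum (fun q _ => M01a_ind_int _ w)]
    apply sum_congr rfl
    intro q _
    rw [M01a_ind_integral _ _ hw, abs_sub_comm]
  have e2 : (2 * Real.cosh w - 2) * X =
      ∫ r in (0 : ℝ)..w, (Real.exp r - Real.exp (-r)) * X := by
    rw [intervalIntegral.integral_mul_const]
    congr 1
    have hc1 : Continuous fun r : ℝ => Real.exp r := Real.continuous_exp
    have hc2 : Continuous fun r : ℝ => Real.exp (-r) := by fun_prop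
    rw [intervalIntegral.integral_sub (hc1.intervalIntegrable _ _)
      (hc2.intervalIntegrable _ _)]
    rw [intervalIntegral.integral_comp_neg (fun r => Real.exp r), integral_exp, integral_exp,
      Real.cosh_eq]
    simp only [neg_zero, Real.exp_zero]
    ring
  have hi1 : IntervalIntegrable
      (fun r => ∑ q ∈ s, M01a_ind (Real.log q - Real.log A) r) volume 0 w := by
    have := IntervalIntegrable.sum s (f := fun q => M01a_ind (Real.log q - Real.log A))
      (fun q _ => M01a_ind_int (Real.log q - Real.log A) w)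
    have h : (fun r => ∑ q ∈ s, M01a_ind (Real.log q - Real.log A) r) =
        ∑ q ∈ s, M01a_ind (Real.log q - Real.log A) := by
      funext r; rw [Finset.sum_apply]
    rw [h]
    exact this
  have hi2 : IntervalIntegrable (fun r => (Real.exp r - Real.exp (-r)) * X) volume 0 w := by
    apply Continuous.intervalIntegrable
    fun_prop
  rw [e1, e2, ← intervalIntegral.integral_sub hi1 hi2]
  have hmain : ∀ᵐ r : ℝ, r ∈ Set.uIoc 0 w →
      ‖∑ q ∈ s, M01a_ind (Real.log q - Real.log A) r - (Real.exp r - Real.exp (-r)) * X‖ ≤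
        ε * X := by
    have hne : ∀ᵐ r : ℝ, r ≠ w := by
      rw [ae_iff]; simp
    filter_upwards [hne] with r hr hr2
    rw [Set.uIoc_of_le hw.le] at hr2
    have hr0 : 0 < r := hr2.1
    have hrw : r < w := lt_of_le_of_ne hr2.2 hr
    have hr1 : r ≤ 1 := by linarith
    -- bounds for exp
    have hexp1 : Real.exp r ≤ 3 := by
      have h1 : Real.exp r ≤ Real.exp 1 := Real.exp_le_exp.2 hr1
      have h2 := Real.exp_one_lt_d9
      linarith
    have hexp2 : 1 / 3 ≤ Real.exp (-r) := by
      rw [Real.exp_neg, ← one_div]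
      exact one_div_le_one_div_of_le (Real.exp_pos r) hexp1
    have hexp3 : 1 ≤ Real.exp r := Real.one_le_exp hr0.le
    have hexp4 : Real.exp (-r) ≤ 1 := Real.exp_le_one_iff.2 (by linarith)
    -- count
    have hcount : ∑ q ∈ s, M01a_ind (Real.log q - Real.log A) r =
        (((Ioc ⌊Real.exp (-r) * A⌋₊ ⌊Real.exp r * A⌋₊).filter Nat.Prime).card : ℝ) := by
      unfold M01a_ind
      rw [← Finset.sum_filter, sum_const, nsmul_eq_mul, mul_one]
      congr 2
      ext q
      simp only [mem_filter, mem_Ioc]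
      have hkey : q.Prime → ((Real.log q - Real.log A ≤ r ∧ -(Real.log q - Real.log A) < r) ↔
          ((q : ℝ) ≤ Real.exp r * A ∧ Real.exp (-r) * A < q)) := by
        intro hq
        have hq0 : (0 : ℝ) < q := by exact_mod_cast hq.pos
        have h1 : (q : ℝ) ≤ Real.exp r * A ↔ Real.log q - Real.log A ≤ r := by
          rw [← Real.log_le_log_iff hq0 (by positivity), Real.log_mul (Real.exp_pos r).ne' hA0.ne',
            Real.log_exp]
          constructor <;> intro h <;> linarith
        have h2 : Real.exp (-r) * A < q ↔ -(Real.log q - Real.log A) < r := by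
          rw [← Real.log_lt_log_iff (by positivity) hq0,
            Real.log_mul (Real.exp_pos (-r)).ne' hA0.ne', Real.log_exp]
          constructor <;> intro h <;> linarith
        rw [h1, h2]
      have hfl : (⌊Real.exp (-r) * A⌋₊ < q ∧ q ≤ ⌊Real.exp r * A⌋₊) ↔
          ((q : ℝ) ≤ Real.exp r * A ∧ Real.exp (-r) * A < q) := by
        rw [Nat.floor_lt (by positivity), Nat.le_floor_iff (by positivity)]
        tauto
      rw [hfl]
      constructor
      · rintro ⟨h1, h2⟩
        exact ⟨(hkey (hs q h1)).1 h2, hs q h1⟩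
      · rintro ⟨h1, h2⟩
        refine ⟨?_, (hkey h2).2 h1⟩
        apply hs2 q h2
        · refine lt_of_le_of_lt ?_ h1.2
          exact mul_le_mul_of_nonneg_right (Real.exp_le_exp.2 (by linarith)) hA0.le
        · refine lt_of_le_of_lt h1.1 ?_
          exact mul_lt_mul_of_pos_right (Real.exp_lt_exp.2 hrw) hA0
    rw [hcount, M01a_count _ _ (Nat.floor_le_floor (by nlinarith))]
    have h1 := hpnt A (Real.exp r * A) hA (by nlinarith) (by nlinarith)
    have h2 := hpnt A (Real.exp (-r) * A) hA (by nlinarith) (by nlinarith)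
    rw [Real.norm_eq_abs]
    have e3 : (Nat.primeCounting ⌊Real.exp r * A⌋₊ : ℝ) - Nat.primeCounting ⌊Real.exp (-r) * A⌋₊ -
        (Real.exp r - Real.exp (-r)) * X =
        ((Nat.primeCounting ⌊Real.exp r * A⌋₊ : ℝ) - Real.exp r * A / Real.log A) -
        ((Nat.primeCounting ⌊Real.exp (-r) * A⌋₊ : ℝ) - Real.exp (-r) * A / Real.log A) := by
      rw [hX]; ring
    rw [e3]
    refine (abs_sub _ _).trans ?_
    linarith
  have hfin := intervalIntegral.norm_integral_le_of_norm_le_const_ae hmain
  rw [Real.norm_eq_abs] at hfin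
  refine hfin.trans ?_
  rw [sub_zero, abs_of_pos hw]
  nlinarith [mul_pos hε hX0]

end BP4
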