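import Pool.Agent.LibBP4.K09
import Pool.Agent.LibBP4.M01a

/-!
TASK M01.  Main term.  For fixed `p`, with `A = e^β p ∈ [(1-2δ)aM, (1+4δ)aM]` (`p ∈ (M, (1+δ)M]`,
`|β - log a| ≤ 2δ`, `δ ≤ 1/10`), `β + log p - log q = log A - log q`, and all primes
`q ∈ (e^{-w}A, e^w A)` are in `(aM/2, 2aM]`; `tent_sum` with `ε = w²δ`; `2cosh w - 2 ∈ [w², w²(1+w²)]`;
`A/log A = (aM/log M)(1 + O(δ))` for `M ≥ M₀(δ, a)`.  Dividing by `w²` and summing over the `p`
(`count_window`: `δ(1+O(δ)) M/log M` of them): `a δ (M/log M)² (1 + O(δ))`.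
-/

open MeasureTheory Finset Filter
open scoped Topology

namespace BP4

open MR57 (tw DP trap SW wh ES IsCM Grep)

theorem M01_cosh (w δ : ℝ) (hw : 0 < w) (hwδ : w ≤ δ) (hδ : δ ≤ 1 / 10) :
    w ^ 2 ≤ 2 * Real.cosh w - 2 ∧ 2 * Real.cosh w - 2 ≤ w ^ 2 * (1 + δ) := by
  constructor
  · have h1 : Real.cosh w = 1 + 2 * Real.sinh (w / 2) ^ 2 := by
      have h := Real.cosh_two_mul (w / 2)
      have h2 := Real.cosh_sq (w / 2)
      rw [show 2 * (w / 2) = w by ring] at h
      rw [h, h2]; ring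
    have h2 : w / 2 ≤ Real.sinh (w / 2) := Real.self_le_sinh_iff.2 (by linarith)
    have h3 : (w / 2) ^ 2 ≤ Real.sinh (w / 2) ^ 2 := pow_le_pow_left₀ (by linarith) h2 2
    rw [h1]
    nlinarith
  · have h1 := Real.cosh_le_exp_half_sq w
    have hw1 : w ≤ 1 / 10 := hwδ.trans hδ
    have hy0 : 0 ≤ w ^ 2 / 2 := by positivity
    have hy1 : w ^ 2 / 2 ≤ 1 := by nlinarith
    have h2 : Real.exp (w ^ 2 / 2) ≤ 1 + w ^ 2 / 2 + (w ^ 2 / 2) ^ 2 := by
      have := Real.exp_bound' hy0 hy1 (n := 2) (by norm_num)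
      norm_num [Finset.sum_range_succ, Nat.factorial] at this
      nlinarith [this, hy0]
    have h3 : w ^ 2 * w ^ 2 ≤ w ^ 2 * δ := by
      apply mul_le_mul_of_nonneg_left _ (by positivity)
      nlinarith
    nlinarith

/-- elementary bounds for the factor `A / log A` -/
theorem M01_ratio (δ a M A : ℝ) (hδ : 0 < δ) (hδ1 : δ ≤ 1 / 10) (ha : 1 ≤ a) (hM : 0 < M)
    (hl : 0 < Real.log M)
    (h1 : Real.exp (-(2 * δ)) * (a * M) ≤ A) (h2 : A ≤ Real.exp (2 * δ) * (1 + δ) * (a * M))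
    (h3 : (1 - δ) * Real.log M ≤ Real.log A) (h4 : Real.log A ≤ (1 + δ) * Real.log M) :
    |A / Real.log A - a * (M / Real.log M)| ≤ 6 * δ * (a * (M / Real.log M)) := by
  have hA0 : 0 < A := lt_of_lt_of_le (by positivity) h1
  have hlA : 0 < Real.log A := lt_of_lt_of_le (mul_pos (by linarith) hl) h3
  have haM : 0 < a * M := by positivity
  have e1 : 1 - 2 * δ ≤ Real.exp (-(2 * δ)) := by
    have := Real.add_one_le_exp (-(2 * δ)); linarith
  have e2 : Real.exp (2 * δ) ≤ 1 + 2 * δ + (2 * δ) ^ 2 := by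
    have := Real.exp_bound' (show 0 ≤ 2 * δ by linarith) (by linarith) (n := 2) (by norm_num)
    norm_num [Finset.sum_range_succ, Nat.factorial] at this
    nlinarith [this, hδ]
  have hup : A / Real.log A ≤ (1 + 6 * δ) * (a * (M / Real.log M)) := by
    rw [div_le_iff₀ hlA]
    have h5 : (1 + 6 * δ) * (a * (M / Real.log M)) * ((1 - δ) * Real.log M) ≤
        (1 + 6 * δ) * (a * (M / Real.log M)) * Real.log A :=
      mul_le_mul_of_nonneg_left h3 (by positivity)
    have h6 : (1 + 6 * δ) * (a * (M / Real.log M)) * ((1 - δ) * Real.log M) =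
        (1 + 6 * δ) * (1 - δ) * (a * M) := by
      field_simp
    have h7 : Real.exp (2 * δ) * (1 + δ) ≤ (1 + 6 * δ) * (1 - δ) := by
      calc Real.exp (2 * δ) * (1 + δ) ≤ (1 + 2 * δ + (2 * δ) ^ 2) * (1 + δ) :=
            mul_le_mul_of_nonneg_right e2 (by linarith)
        _ ≤ (1 + 6 * δ) * (1 - δ) := by nlinarith [mul_pos hδ hδ, mul_pos (mul_pos hδ hδ) hδ]
    have h8 := mul_le_mul_of_nonneg_right h7 haM.le
    linarith
  have hlo : (1 - 6 * δ) * (a * (M / Real.log M)) ≤ A / Real.log A := by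
    rw [le_div_iff₀ hlA]
    have h0 : 0 ≤ (1 - 6 * δ) * (a * (M / Real.log M)) := by
      apply mul_nonneg (by linarith) (by positivity)
    have h5 : (1 - 6 * δ) * (a * (M / Real.log M)) * Real.log A ≤
        (1 - 6 * δ) * (a * (M / Real.log M)) * ((1 + δ) * Real.log M) :=
      mul_le_mul_of_nonneg_left h4 h0
    have h6 : (1 - 6 * δ) * (a * (M / Real.log M)) * ((1 + δ) * Real.log M) =
        (1 - 6 * δ) * (1 + δ) * (a * M) := by
      field_simp
    have h7 : (1 - 6 * δ) * (1 + δ) ≤ Real.exp (-(2 * δ)) := by nlinarith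
    have h8 := mul_le_mul_of_nonneg_right h7 haM.le
    linarith
  rw [abs_le]
  constructor <;> nlinarith

theorem main_term : ∃ C : ℝ, 0 < C ∧ ∀ δ w a : ℝ, 0 < δ → δ ≤ 1 / 10 → 0 < w → w ≤ δ → 1 ≤ a →
    ∃ M₀ : ℝ, 2 ≤ M₀ ∧ ∀ M β : ℝ, M₀ ≤ M → |β - Real.log a| ≤ 2 * δ →
    |FF δ a M w β / w ^ 2 - a * δ * (M / Real.log M) ^ 2| ≤
      C * (a * δ ^ 2) * (M / Real.log M) ^ 2 := by
  refine ⟨30, by norm_num, ?_⟩
  intro δ w a hδ hδ1 hw hwδ ha
  obtain ⟨X₀, hX₀, Hc⟩ := count_window δ (δ ^ 2) hδ (by positivity)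
  obtain ⟨A₀, hA₀, Ht⟩ := tent_sum w (w ^ 2 * δ) hw (by linarith) (by positivity)
  refine ⟨max (max X₀ (2 * A₀)) (Real.exp (max 2 ((Real.log a + 3 * δ) / δ))),
    hX₀.trans ((le_max_left _ _).trans (le_max_left _ _)), ?_⟩
  intro M β hM hβ
  have hM1 : X₀ ≤ M := (le_max_left _ _).trans ((le_max_left _ _).trans hM)
  have hM2 : 2 * A₀ ≤ M := (le_max_right _ _).trans ((le_max_left _ _).trans hM)
  have hM3 : Real.exp (max 2 ((Real.log a + 3 * δ) / δ)) ≤ M := (le_max_right _ _).trans hM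
  have hM0 : 0 < M := by linarith
  have ha0 : 0 < a := by linarith
  have hlogM : max 2 ((Real.log a + 3 * δ) / δ) ≤ Real.log M := by
    rw [← Real.log_exp (max 2 ((Real.log a + 3 * δ) / δ))]
    exact Real.log_le_log (Real.exp_pos _) hM3
  have hl2 : 2 ≤ Real.log M := (le_max_left _ _).trans hlogM
  have hl3 : Real.log a + 3 * δ ≤ δ * Real.log M := by
    have := (le_max_right _ _).trans hlogM
    rw [div_le_iff₀ hδ] at this
    linarith
  have hl0 : 0 < Real.log M := by linarith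
  have hloga : 0 ≤ Real.log a := Real.log_nonneg ha
  obtain ⟨hβ1, hβ2⟩ := abs_le.1 hβ
  have hexpa : Real.exp (Real.log a) = a := Real.exp_log ha0
  set L : ℝ := M / Real.log M with hL
  have hL0 : 0 < L := by positivity
  -- one prime p
  have key : ∀ p ∈ prm M ((1 + δ) * M),
      |(∑ q ∈ prm (a * M / 2) (2 * a * M), max 0 (w - |β + Real.log p - Real.log q|)) / w ^ 2 -
        a * L| ≤ 14 * δ * (a * L) := by
    intro p hp
    rw [mem_prm hM0.le] at hp
    obtain ⟨⟨hp1, hp2⟩, hpp⟩ := hp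
    have hp0 : (0 : ℝ) < p := by linarith
    set A : ℝ := Real.exp β * p with hA
    have hA0 : 0 < A := by positivity
    have hlogA : Real.log A = β + Real.log p := by
      rw [hA, Real.log_mul (Real.exp_pos _).ne' hp0.ne', Real.log_exp]
    have hb1 : Real.exp (-(2 * δ)) * a ≤ Real.exp β := by
      rw [← hexpa, ← Real.exp_add]
      apply Real.exp_le_exp.2
      linarith
    have hb2 : Real.exp β ≤ Real.exp (2 * δ) * a := by
      rw [← hexpa, ← Real.exp_add]
      apply Real.exp_le_exp.2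
      linarith
    have hA1 : Real.exp (-(2 * δ)) * (a * M) ≤ A := by
      calc Real.exp (-(2 * δ)) * (a * M) = (Real.exp (-(2 * δ)) * a) * M := by ring
        _ ≤ Real.exp β * p := mul_le_mul hb1 hp1.le hM0.le (Real.exp_pos _).le
    have hA2 : A ≤ Real.exp (2 * δ) * (1 + δ) * (a * M) := by
      calc A = Real.exp β * p := hA
        _ ≤ (Real.exp (2 * δ) * a) * ((1 + δ) * M) :=
          mul_le_mul hb2 hp2 hp0.le (by positivity)
        _ = Real.exp (2 * δ) * (1 + δ) * (a * M) := by ring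
    have e1 : 1 - 2 * δ ≤ Real.exp (-(2 * δ)) := by
      have := Real.add_one_le_exp (-(2 * δ)); linarith
    have hlp1 : Real.log M ≤ Real.log p := Real.log_le_log hM0 hp1.le
    have hlp2 : Real.log p ≤ Real.log M + δ := by
      have h1 : Real.log p ≤ Real.log ((1 + δ) * M) := Real.log_le_log hp0 hp2
      rw [Real.log_mul (by linarith) hM0.ne'] at h1
      have h2 : Real.log (1 + δ) ≤ δ := by
        have := Real.log_le_sub_one_of_pos (show 0 < 1 + δ by linarith)
        linarith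
      linarith
    have hA3 : (1 - δ) * Real.log M ≤ Real.log A := by
      rw [hlogA]
      nlinarith
    have hA4 : Real.log A ≤ (1 + δ) * Real.log M := by
      rw [hlogA]
      nlinarith
    have hAA : A₀ ≤ A := by
      have h1 : M * (4 / 5) ≤ A := by
        calc M * (4 / 5) ≤ Real.exp (-(2 * δ)) * (a * M) := by
              have h2 : (4 : ℝ) / 5 ≤ Real.exp (-(2 * δ)) := by linarith
              calc M * (4 / 5) = (4 / 5) * (1 * M) := by ring
                _ ≤ Real.exp (-(2 * δ)) * (a * M) :=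
                  mul_le_mul h2 (mul_le_mul_of_nonneg_right ha hM0.le) (by positivity)
                    (Real.exp_pos _).le
          _ ≤ A := hA1
      linarith
    have hsupp : ∀ q : ℕ, q.Prime → Real.exp (-w) * A < q → (q : ℝ) < Real.exp w * A →
        q ∈ prm (a * M / 2) (2 * a * M) := by
      intro q hq hq1 hq2
      rw [mem_prm (by positivity)]
      refine ⟨⟨?_, ?_⟩, hq⟩
      · have h1 : 9 / 10 ≤ Real.exp (-w) := by
          have := Real.add_one_le_exp (-w); linarith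
        have h2 : (4 : ℝ) / 5 ≤ Real.exp (-(2 * δ)) := by linarith
        have h3 : (4 / 5) * (a * M) ≤ A :=
          (mul_le_mul_of_nonneg_right h2 (by positivity)).trans hA1
        have h4 : (9 / 10) * ((4 / 5) * (a * M)) ≤ Real.exp (-w) * A :=
          mul_le_mul h1 h3 (by positivity) (Real.exp_pos _).le
        have h5 : 0 < a * M := by positivity
        linarith
      · have h1 : Real.exp w ≤ 6 / 5 := by
          have h2 := Real.exp_bound' hw.le (by linarith) (n := 2) (by norm_num)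
          norm_num [Finset.sum_range_succ, Nat.factorial] at h2
          nlinarith [h2, hw]
        have h2 : Real.exp (2 * δ) ≤ 5 / 4 := by
          have h3 := Real.exp_bound' (show 0 ≤ 2 * δ by linarith) (by linarith) (n := 2)
            (by norm_num)
          norm_num [Finset.sum_range_succ, Nat.factorial] at h3
          nlinarith [h3, hδ]
        have h3 : A ≤ (5 / 4) * (11 / 10) * (a * M) := by
          refine hA2.trans (mul_le_mul_of_nonneg_right ?_ (by positivity))
          exact mul_le_mul h2 (by linarith) (by linarith) (by norm_num)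
        have h4 : Real.exp w * A ≤ (6 / 5) * ((5 / 4) * (11 / 10) * (a * M)) :=
          mul_le_mul h1 h3 hA0.le (by norm_num)
        have h5 : 0 < a * M := by positivity
        linarith
    have ht := Ht A (prm (a * M / 2) (2 * a * M)) hAA
      (fun q hq => ((mem_prm (by positivity)).1 hq).2) hsupp
    rw [hlogA] at ht
    have hr := M01_ratio δ a M A hδ hδ1 ha hM0 hl0 hA1 hA2 hA3 hA4
    rw [hlogA] at hr
    obtain ⟨c1, c2⟩ := M01_cosh w δ hw hwδ hδ1
    set B : ℝ := A / (β + Real.log p) with hB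
    set I : ℝ := ∑ q ∈ prm (a * M / 2) (2 * a * M), max 0 (w - |β + Real.log p - Real.log q|)
    have hB0 : 0 < B := by
      rw [hB, ← hlogA]
      apply div_pos hA0
      have : 0 < (1 - δ) * Real.log M := mul_pos (by linarith) hl0
      linarith
    have hw2 : 0 < w ^ 2 := by positivity
    obtain ⟨r1, r2⟩ := abs_le.1 hr
    obtain ⟨t1, t2⟩ := abs_le.1 ht
    have haL : 0 < a * L := by positivity
    have hB2 : B ≤ (8 / 5) * (a * L) := by
      have : 6 * δ * (a * L) ≤ (3 / 5) * (a * L) :=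
        mul_le_mul_of_nonneg_right (by linarith) haL.le
      linarith
    have hup : I / w ^ 2 ≤ B + 2 * δ * B := by
      rw [div_le_iff₀ hw2]
      have h1 : (2 * Real.cosh w - 2) * B ≤ w ^ 2 * (1 + δ) * B :=
        mul_le_mul_of_nonneg_right c2 hB0.le
      have h2 : I ≤ w ^ 2 * (1 + δ) * B + w ^ 2 * δ * B := by linarith
      linarith [h2, show w ^ 2 * (1 + δ) * B + w ^ 2 * δ * B = (B + 2 * δ * B) * w ^ 2 by ring]
    have hlo : B - 2 * δ * B ≤ I / w ^ 2 := by
      rw [le_div_iff₀ hw2]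
      have h1 : w ^ 2 * B ≤ (2 * Real.cosh w - 2) * B :=
        mul_le_mul_of_nonneg_right c1 hB0.le
      have h2 : w ^ 2 * B - w ^ 2 * δ * B ≤ I := by linarith
      have h3 : 0 ≤ δ * B * w ^ 2 := by positivity
      linarith [h2, h3, show (B - 2 * δ * B) * w ^ 2 = w ^ 2 * B - w ^ 2 * δ * B - δ * B * w ^ 2 by
        ring]
    have hδB : 2 * δ * B ≤ 2 * δ * ((8 / 5) * (a * L)) :=
      mul_le_mul_of_nonneg_left hB2 (by linarith)
    have hδL : 0 < δ * (a * L) := by positivity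
    rw [abs_le]
    constructor
    · linarith
    · linarith
  -- sum over p
  have hcount := Hc M hM1
  rw [← hL] at hcount
  set N : ℝ := ((prm M ((1 + δ) * M)).card : ℝ) with hN
  have hN0 : 0 ≤ N := by positivity
  obtain ⟨n1, n2⟩ := abs_le.1 hcount
  have hFF : |FF δ a M w β / w ^ 2 - N * (a * L)| ≤ N * (14 * δ * (a * L)) := by
    have e1 : FF δ a M w β / w ^ 2 - N * (a * L) = ∑ p ∈ prm M ((1 + δ) * M),
        ((∑ q ∈ prm (a * M / 2) (2 * a * M), max 0 (w - |β + Real.log p - Real.log q|)) / w ^ 2 -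
          a * L) := by
      rw [sum_sub_distrib, sum_const, nsmul_eq_mul, ← sum_div]
      rfl
    rw [e1]
    calc _ ≤ ∑ p ∈ prm M ((1 + δ) * M), |(∑ q ∈ prm (a * M / 2) (2 * a * M),
          max 0 (w - |β + Real.log p - Real.log q|)) / w ^ 2 - a * L| := abs_sum_le_sum_abs _ _
      _ ≤ ∑ _p ∈ prm M ((1 + δ) * M), 14 * δ * (a * L) := sum_le_sum key
      _ = N * (14 * δ * (a * L)) := by rw [sum_const, nsmul_eq_mul]
  have haL : 0 < a * L := by positivity
  have hδ2 : δ ^ 2 * L ≤ (1 / 10) * (δ * L) := by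
    have : δ ^ 2 * L = δ * (δ * L) := by ring
    rw [this]
    exact mul_le_mul_of_nonneg_right hδ1 (by positivity)
  have hN2 : N ≤ (11 / 10) * (δ * L) := by linarith
  have h1 : N * (14 * δ * (a * L)) ≤ (11 / 10) * (δ * L) * (14 * δ * (a * L)) :=
    mul_le_mul_of_nonneg_right hN2 (by positivity)
  have h2 : |N * (a * L) - a * δ * L ^ 2| ≤ a * δ ^ 2 * L ^ 2 := by
    have e2 : N * (a * L) - a * δ * L ^ 2 = (a * L) * (N - δ * L) := by ring
    rw [e2, abs_mul, abs_of_pos haL]
    calc a * L * |N - δ * L| ≤ a * L * (δ ^ 2 * L) := mul_le_mul_of_nonneg_left hcount haL.le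
      _ = a * δ ^ 2 * L ^ 2 := by ring
  have h3 : |FF δ a M w β / w ^ 2 - a * δ * L ^ 2| ≤
      |FF δ a M w β / w ^ 2 - N * (a * L)| + |N * (a * L) - a * δ * L ^ 2| := abs_sub_le _ _ _
  have h4 : (11 / 10) * (δ * L) * (14 * δ * (a * L)) = (154 / 10) * (a * δ ^ 2 * L ^ 2) := by ring
  have h5 : 0 < a * δ ^ 2 * L ^ 2 := by positivity
  have h6 : 30 * (a * δ ^ 2) * L ^ 2 = 30 * (a * δ ^ 2 * L ^ 2) := by ring
  rw [h6]
  linarith

end BP4
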