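import Pool.Agent.LibBP4.Defs

/-!
TASK M02.  Upper sandwich, `h = 1/(n a M)`.  For `p` with `q = ⌊αp⌋₊` prime: `aM - 1 < q ≤ (1+δ)²aM`, so
`q ∈ prm (aM/2) (2aM)`, and `v = log α + log p - log q = log(αp/q) ∈ [0, 1/q] ⊆ [0, (n+1)h]`
(`M ≥ n+1`).  For such `v`, `∑_{j=0}^{n+1} max 0 (h - |v - jh|) ≥ h` (the two tents next to `v`).
All terms of the sum are nonnegative.
-/

open MeasureTheory Finset Filter
open scoped Topology

namespace BP4

open MR57 (tw DP trap SW wh ES IsCM Grep)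

theorem M02_tents (h v : ℝ) (n : ℕ) (hh : 0 < h) (hv : 0 ≤ v) (hv1 : v ≤ (n + 1) * h) :
    h ≤ ∑ j ∈ range (n + 2), max 0 (h - |v - j * h|) := by
  set j₀ : ℕ := ⌊v / h⌋₊ with hj₀
  have h1 : (j₀ : ℝ) * h ≤ v := by
    have := Nat.floor_le (div_nonneg hv hh.le)
    rw [le_div_iff₀ hh] at this
    exact this
  have h2 : v < (j₀ + 1) * h := by
    have := Nat.lt_floor_add_one (v / h)
    rw [div_lt_iff₀ hh] at this
    exact this
  have h3 : j₀ ≤ n + 1 := by
    have : (j₀ : ℝ) * h ≤ (n + 1) * h := h1.trans hv1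
    have h4 := le_of_mul_le_mul_right this hh
    exact_mod_cast h4
  rcases Nat.lt_or_ge j₀ (n + 1) with h4 | h4
  · have h5 : ({j₀, j₀ + 1} : Finset ℕ) ⊆ range (n + 2) := by
      intro x hx
      simp only [mem_insert, mem_singleton] at hx
      simp only [mem_range]
      omega
    have h6 := sum_le_sum_of_subset_of_nonneg (f := fun j : ℕ => max 0 (h - |v - j * h|)) h5
      (fun _ _ _ => le_max_left _ _)
    refine le_trans ?_ h6
    rw [sum_pair (by omega)]
    have h7 : h - |v - j₀ * h| ≤ max 0 (h - |v - j₀ * h|) := le_max_right _ _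
    have h8 : h - |v - ((j₀ + 1 : ℕ) : ℝ) * h| ≤ max 0 (h - |v - ((j₀ + 1 : ℕ) : ℝ) * h|) :=
      le_max_right _ _
    have h9 : |v - j₀ * h| = v - j₀ * h := abs_of_nonneg (by linarith)
    have h10 : |v - ((j₀ + 1 : ℕ) : ℝ) * h| = (j₀ + 1) * h - v := by
      push_cast
      rw [abs_of_nonpos (by linarith)]
      ring
    linarith
  · have h5 : j₀ = n + 1 := le_antisymm h3 h4
    have h6 : v = (j₀ : ℝ) * h := by
      apply le_antisymm _ h1
      rw [h5]
      push_cast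
      exact hv1
    have h7 := single_le_sum (f := fun j : ℕ => max 0 (h - |v - j * h|)) (s := range (n + 2))
      (fun _ _ => le_max_left _ _) (mem_range.2 (by omega : j₀ < n + 2))
    refine le_trans ?_ h7
    have h8 : v - (j₀ : ℝ) * h = 0 := by rw [h6]; ring
    simp only [h8, abs_zero, sub_zero]
    exact le_max_right _ _

theorem M02_point (δ a M α : ℝ) (n p : ℕ) (hδ : 0 < δ) (hδ1 : δ ≤ 1 / 10) (ha : 1 ≤ a)
    (hn : 1 ≤ n) (hM : (n : ℝ) + 2 ≤ M) (hα : a ≤ α) (hα1 : α ≤ (1 + δ) * a)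
    (hp : M < p) (hp1 : (p : ℝ) ≤ (1 + δ) * M) (hq : (⌊α * p⌋₊).Prime) :
    ⌊α * p⌋₊ ∈ prm (a * M / 2) (2 * a * M) ∧
      0 ≤ Real.log α + Real.log p - Real.log (⌊α * p⌋₊ : ℕ) ∧
      Real.log α + Real.log p - Real.log (⌊α * p⌋₊ : ℕ) ≤ (n + 1) * (1 / (n * a * M)) := by
  have hn' : (1 : ℝ) ≤ n := by exact_mod_cast hn
  have hM3 : (3 : ℝ) ≤ M := by linarith
  have hα0 : 0 < α := by linarith
  have hp0 : (0 : ℝ) < p := by linarith
  have haM : M ≤ a * M := by nlinarith
  set q : ℕ := ⌊α * p⌋₊ with hqd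
  have h1 : (q : ℝ) ≤ α * p := Nat.floor_le (by positivity)
  have h2 : α * p < q + 1 := Nat.lt_floor_add_one _
  have h3 : a * M < α * p := by nlinarith
  have h4 : α * p ≤ (1 + δ) * a * ((1 + δ) * M) :=
    mul_le_mul hα1 hp1 hp0.le (by positivity)
  have h5 : (1 + δ) * a * ((1 + δ) * M) ≤ 2 * a * M := by
    have h6 : (1 + δ) * (1 + δ) ≤ 2 := by nlinarith
    have h7 : (0 : ℝ) ≤ a * M := by linarith
    nlinarith
  have hq0 : (0 : ℝ) < q := by linarith
  refine ⟨?_, ?_, ?_⟩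
  · rw [mem_prm (by linarith)]
    refine ⟨⟨?_, ?_⟩, hq⟩
    · linarith
    · linarith
  · have h6 : Real.log q ≤ Real.log (α * p) := Real.log_le_log hq0 h1
    rw [Real.log_mul hα0.ne' hp0.ne'] at h6
    linarith
  · have h6 : Real.log α + Real.log p - Real.log q = Real.log (α * p / q) := by
      rw [Real.log_div (by positivity) hq0.ne', Real.log_mul hα0.ne' hp0.ne']
    rw [h6]
    have h7 : Real.log (α * p / q) ≤ α * p / q - 1 := Real.log_le_sub_one_of_pos (by positivity)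
    have h8 : α * p / q - 1 ≤ 1 / q := by
      rw [div_sub_one hq0.ne']
      apply div_le_div_of_nonneg_right _ hq0.le
      linarith
    have h9 : 1 / (q : ℝ) ≤ (n + 1) * (1 / (n * a * M)) := by
      rw [mul_one_div, div_le_div_iff₀ hq0 (by positivity)]
      have h10 : (n : ℝ) * a * M ≤ (n + 1) * (a * M - 1) := by nlinarith
      have h11 : (n + 1 : ℝ) * (a * M - 1) ≤ (n + 1) * q := by
        apply mul_le_mul_of_nonneg_left _ (by positivity)
        linarith
      linarith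
    linarith

theorem sandwich_upper (δ a M α : ℝ) (n : ℕ) (hδ : 0 < δ) (hδ1 : δ ≤ 1 / 10) (ha : 1 ≤ a)
    (hn : 1 ≤ n) (hM : (n : ℝ) + 2 ≤ M) (hα : a ≤ α) (hα1 : α ≤ (1 + δ) * a) :
    (Nw δ M α : ℝ) * (1 / (n * a * M)) ≤
      ∑ j ∈ range (n + 2), FF δ a M (1 / (n * a * M)) (Real.log α - j * (1 / (n * a * M))) := by
  have hn' : (1 : ℝ) ≤ n := by exact_mod_cast hn
  have hM3 : (3 : ℝ) ≤ M := by linarith
  set h : ℝ := 1 / (n * a * M) with hh
  have hh0 : 0 < h := by rw [hh]; positivity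
  have e1 : ∑ j ∈ range (n + 2), FF δ a M h (Real.log α - j * h) =
      ∑ p ∈ prm M ((1 + δ) * M), ∑ q ∈ prm (a * M / 2) (2 * a * M), ∑ j ∈ range (n + 2),
        max 0 (h - |(Real.log α + Real.log p - Real.log q) - j * h|) := by
    unfold FF
    rw [sum_comm]
    apply sum_congr rfl
    intro p _
    rw [sum_comm]
    apply sum_congr rfl
    intro q _
    apply sum_congr rfl
    intro j _
    have : Real.log α - j * h + Real.log p - Real.log q =
      (Real.log α + Real.log p - Real.log q) - j * h := by ring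
    rw [this]
  rw [e1]
  unfold Nw
  rw [← nsmul_eq_mul, ← sum_const]
  refine le_trans (sum_le_sum (g := fun p : ℕ => ∑ q ∈ prm (a * M / 2) (2 * a * M),
    ∑ j ∈ range (n + 2), max 0 (h - |(Real.log α + Real.log p - Real.log q) - j * h|)) ?_) ?_
  · intro p hp
    rw [mem_filter, mem_prm (by linarith)] at hp
    obtain ⟨⟨⟨hp1, hp2⟩, _⟩, hq⟩ := hp
    obtain ⟨g1, g2, g3⟩ := M02_point δ a M α n p hδ hδ1 ha hn hM hα hα1 hp1 hp2 hq
    have g4 := M02_tents h _ n hh0 g2 g3
    refine le_trans g4 ?_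
    exact single_le_sum (f := fun q : ℕ => ∑ j ∈ range (n + 2),
      max 0 (h - |(Real.log α + Real.log p - Real.log q) - j * h|))
      (fun q _ => sum_nonneg fun j _ => le_max_left _ _) g1
  · apply sum_le_sum_of_subset_of_nonneg (filter_subset _ _)
    intro p _ _
    exact sum_nonneg fun q _ => sum_nonneg fun j _ => le_max_left _ _

end BP4
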