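import Pool.Agent.LibBP4.Defs

/-!
TASK M03.  Lower sandwich, `h = 1/(n a M)`.  For a pair `(p, q)` put `v = log α + log p - log q`;
`∑_{j=1}^{m} max 0 (h - |v - jh|) ≤ h`, and it is `0` unless `0 < v < (m+1)h`.  If
`0 < v < (m+1)h`, then `q < αp < q e^{(m+1)h} ≤ q + 1`: indeed `q < αp ≤ (1+δ)²aM` and
`(m+1)h ≤ (1-3δ)/(aM) ≤ 1/q - 1/(2q²) ≤ log(1 + 1/q)` for `M ≥ 100/δ` (`q ≥ aM/2`;
`(1+δ)^{-2} ≥ 1 - 2δ`).  So `q = ⌊αp⌋₊`: each `p` has at most one such `q`, and then `⌊αp⌋₊` is prime.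
-/

open MeasureTheory Finset Filter
open scoped Topology

namespace BP4

open MR57 (tw DP trap SW wh ES IsCM Grep)

theorem M03_tent (h v : ℝ) (hh : 0 < h) (m : ℕ) (hm : 1 ≤ m) :
    ∑ j ∈ Icc 1 m, max 0 (h - |v - (j : ℝ) * h|) =
      max 0 (min (min v h) (((m : ℝ) + 1) * h - v)) := by
  induction m, hm using Nat.le_induction with
  | base =>
    rw [Icc_self, sum_singleton]
    push_cast
    rcases le_total v h with h1 | h1
    · rw [abs_of_nonpos (by linarith), min_eq_left h1, min_eq_left (by linarith)]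
      congr 1
      ring
    · rw [abs_of_nonneg (by linarith), min_eq_right h1, min_eq_right (by linarith)]
      congr 1
      ring
  | succ m hm ih =>
    rw [sum_Icc_succ_top (by omega), ih]
    have hm1 : (1 : ℝ) ≤ m := by exact_mod_cast hm
    have hmh : h ≤ m * h := le_mul_of_one_le_left hh.le hm1
    push_cast
    have e1 : ((m : ℝ) + 1) * h = m * h + h := by ring
    have e2 : ((m : ℝ) + 1 + 1) * h = m * h + 2 * h := by ring
    rw [e1, e2]
    rcases le_total v (m * h) with h1 | h1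
    · have t0 : max 0 (h - |v - (m * h + h)|) = 0 := by
        rw [abs_of_nonpos (by linarith)]
        exact max_eq_left (by linarith)
      rw [t0, add_zero]
      have m1 : min v h ≤ h := min_le_right _ _
      rw [min_eq_left (by linarith : min v h ≤ m * h + h - v),
        min_eq_left (by linarith : min v h ≤ m * h + 2 * h - v)]
    · rw [min_eq_right (by linarith : h ≤ v), min_eq_right (by linarith : m * h + h - v ≤ h)]
      rcases le_total v (m * h + h) with h2 | h2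
      · rw [max_eq_right (by linarith : 0 ≤ m * h + h - v), abs_of_nonpos (by linarith),
          max_eq_right (by linarith), min_eq_left (by linarith), max_eq_right hh.le]
        ring
      · rw [max_eq_left (by linarith : m * h + h - v ≤ 0), abs_of_nonneg (by linarith),
          min_eq_right (by linarith), zero_add]
        congr 1
        ring

theorem M03_sum (h v : ℝ) (hh : 0 < h) (m : ℕ) :
    (∑ j ∈ Icc 1 m, max 0 (h - |v - (j : ℝ) * h|) ≤ h) ∧
      (∑ j ∈ Icc 1 m, max 0 (h - |v - (j : ℝ) * h|) ≠ 0 → 0 < v ∧ v < ((m : ℝ) + 1) * h) := by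
  rcases Nat.eq_zero_or_pos m with h0 | h0
  · subst h0
    simp [hh.le]
  · rw [M03_tent h v hh m h0]
    refine ⟨max_le hh.le ((min_le_left _ _).trans (min_le_right _ _)), fun hne => ?_⟩
    have h1 : 0 < min (min v h) (((m : ℝ) + 1) * h - v) := by
      by_contra hcon
      push Not at hcon
      exact hne (max_eq_left hcon)
    rw [lt_min_iff, lt_min_iff] at h1
    exact ⟨h1.1.1, by linarith [h1.2]⟩

theorem M03_key (δ a M α : ℝ) (n m : ℕ) (hδ : 0 < δ) (hδ1 : δ ≤ 1 / 10) (ha : 1 ≤ a)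
    (hn : 1 ≤ n) (hm : (m : ℝ) + 1 ≤ (1 - 3 * δ) * n) (hM : 100 / δ ≤ M) (hα : a ≤ α)
    (hα1 : α ≤ (1 + δ) * a) (p q : ℕ) (hp0 : M < p) (hp : (p : ℝ) ≤ (1 + δ) * M)
    (hq0 : a * M / 2 < q) (h1 : 0 < Real.log α + Real.log p - Real.log q)
    (h2 : Real.log α + Real.log p - Real.log q < ((m : ℝ) + 1) * (1 / (n * a * M))) :
    ⌊α * p⌋₊ = q := by
  have hM0 : 0 < M := lt_of_lt_of_le (by positivity) hM
  have hn0 : (0 : ℝ) < n := by exact_mod_cast hn
  have ha0 : 0 < a := by linarith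
  have hα0 : 0 < α := by linarith
  have hp1 : (0 : ℝ) < p := by linarith
  have haM : 0 < a * M := by positivity
  have hq1 : (0 : ℝ) < q := by linarith
  have hαp : 0 < α * p := by positivity
  rw [← Real.log_mul hα0.ne' hp1.ne'] at h1 h2
  have h3 : (q : ℝ) < α * p := (Real.log_lt_log_iff hq1 hαp).1 (by linarith)
  have h4 : α * p ≤ (1 + δ) ^ 2 * (a * M) := by
    calc α * p ≤ ((1 + δ) * a) * ((1 + δ) * M) :=
          mul_le_mul hα1 hp hp1.le (by positivity)
      _ = _ := by ring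
  have h5 : ((m : ℝ) + 1) * (1 / (n * a * M)) ≤ (1 - 3 * δ) / (a * M) := by
    calc ((m : ℝ) + 1) * (1 / (n * a * M)) ≤ ((1 - 3 * δ) * n) * (1 / (n * a * M)) :=
          mul_le_mul_of_nonneg_right hm (by positivity)
      _ = (1 - 3 * δ) / (a * M) := by field_simp
  have h6 : 1 ≤ δ * (a * M) := by
    have h7 : 100 ≤ M * δ := (div_le_iff₀ hδ).1 hM
    have h8 : M * δ ≤ δ * (a * M) := by nlinarith
    linarith
  have h7 : (1 - 3 * δ) / (a * M) ≤ 1 / ((q : ℝ) + 1) := by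
    rw [div_le_div_iff₀ haM (by linarith)]
    have h8 : (1 - 3 * δ) * ((q : ℝ) + 1) ≤ (1 - 3 * δ) * ((1 + δ) ^ 2 * (a * M) + 1) :=
      mul_le_mul_of_nonneg_left (by linarith) (by linarith)
    have h9 : (1 - 3 * δ) * (1 + δ) ^ 2 ≤ 1 - δ := by nlinarith [sq_nonneg δ, mul_pos hδ hδ]
    have h10 : (1 - 3 * δ) * (1 + δ) ^ 2 * (a * M) ≤ (1 - δ) * (a * M) :=
      mul_le_mul_of_nonneg_right h9 haM.le
    nlinarith
  have h8 : 1 / ((q : ℝ) + 1) ≤ Real.log ((q : ℝ) + 1) - Real.log q := by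
    rw [← Real.log_div (by linarith) hq1.ne']
    have h9 := Real.one_sub_inv_le_log_of_pos (x := ((q : ℝ) + 1) / q) (by positivity)
    have h10 : 1 - (((q : ℝ) + 1) / q)⁻¹ = 1 / ((q : ℝ) + 1) := by
      rw [inv_div]
      field_simp
      ring
    linarith
  have h9 : α * p < (q : ℝ) + 1 :=
    (Real.log_lt_log_iff hαp (by linarith)).1 (by linarith)
  rw [Nat.floor_eq_iff hαp.le]
  exact ⟨h3.le, h9⟩

theorem sandwich_lower (δ a M α : ℝ) (n m : ℕ) (hδ : 0 < δ) (hδ1 : δ ≤ 1 / 10) (ha : 1 ≤ a)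
    (hn : 1 ≤ n) (hm : (m : ℝ) + 1 ≤ (1 - 3 * δ) * n) (hM : 100 / δ ≤ M) (hα : a ≤ α)
    (hα1 : α ≤ (1 + δ) * a) :
    ∑ j ∈ Icc 1 m, FF δ a M (1 / (n * a * M)) (Real.log α - j * (1 / (n * a * M))) ≤
      (Nw δ M α : ℝ) * (1 / (n * a * M)) := by
  obtain ⟨h, hh⟩ : ∃ h, h = 1 / (n * a * M) := ⟨_, rfl⟩
  have hM0 : 0 < M := lt_of_lt_of_le (by positivity) hM
  have hn0 : (0 : ℝ) < n := by exact_mod_cast hn
  have ha0 : 0 < a := by linarith
  have hh0 : 0 < h := by rw [hh]; positivity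
  rw [← hh]
  unfold FF
  rw [sum_comm]
  have hrow : ∀ p ∈ prm M ((1 + δ) * M),
      (∑ j ∈ Icc 1 m, ∑ q ∈ prm (a * M / 2) (2 * a * M),
        max 0 (h - |Real.log α - (j : ℝ) * h + Real.log p - Real.log q|)) ≤
      if (⌊α * p⌋₊).Prime then h else 0 := by
    intro p hp
    rw [mem_prm hM0.le] at hp
    rw [sum_comm]
    have hterm : ∀ q ∈ prm (a * M / 2) (2 * a * M),
        (∑ j ∈ Icc 1 m, max 0 (h - |Real.log α - (j : ℝ) * h + Real.log p - Real.log q|)) =
        ∑ j ∈ Icc 1 m, max 0 (h - |(Real.log α + Real.log p - Real.log q) - (j : ℝ) * h|) := by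
      intro q _
      apply sum_congr rfl
      intro j _
      congr 3
      ring
    rw [sum_congr rfl hterm]
    have hz : ∀ q ∈ prm (a * M / 2) (2 * a * M), q ≠ ⌊α * p⌋₊ →
        ∑ j ∈ Icc 1 m, max 0 (h - |(Real.log α + Real.log p - Real.log q) - (j : ℝ) * h|) = 0 := by
      intro q hq hne
      rw [mem_prm (by positivity)] at hq
      by_contra hcon
      obtain ⟨k1, k2⟩ := (M03_sum h (Real.log α + Real.log p - Real.log q) hh0 m).2 hcon
      rw [hh] at k2
      exact hne (M03_key δ a M α n m hδ hδ1 ha hn hm hM hα hα1 p q hp.1.1 hp.1.2 hq.1.1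
        k1 k2).symm
    by_cases hmem : ⌊α * p⌋₊ ∈ prm (a * M / 2) (2 * a * M)
    · rw [sum_eq_single ⌊α * p⌋₊ (fun q hq hne => hz q hq hne) (fun hc => absurd hmem hc)]
      have hpr : (⌊α * p⌋₊).Prime := ((mem_prm (by positivity)).1 hmem).2
      rw [if_pos hpr]
      exact (M03_sum h _ hh0 m).1
    · rw [sum_eq_zero (fun q hq => hz q hq (fun hc => hmem (hc ▸ hq)))]
      split_ifs
      · exact hh0.le
      · exact le_rfl
  refine (sum_le_sum hrow).trans (le_of_eq ?_)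
  unfold Nw
  rw [← sum_filter, sum_const, nsmul_eq_mul]

end BP4
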