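import Pool.Agent.LibBP4.M01
import Pool.Agent.LibBP4.M02
import Pool.Agent.LibBP4.M03

/-!
TASK M04.  Counting in one window when all shifts are good (assembly).  `δ = 1/k`, `n = k`,
`h = 1/(k a M)`, `L = log M`.  For each shift, `FF h/h² = a δ (M/L)² (1 + O(δ))` by `main_term` and
the hypothesis (`|log α - jh - log a| ≤ δ + (k+1)h ≤ 2δ`).  Upper:
`Nw h ≤ ∑_{j ≤ k+1} FF ≤ (k+2) h² a δ (M/L)² (1 + Cδ)`, i.e.
`Nw ≤ (k+2)/(k a M) · a δ (M/L)² (1+Cδ) = δ M/L² (1 + O(δ))`.  Lower: `m = ⌊(1-3δ)k⌋₊ - 1`,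
`m ≥ k(1 - 5δ)`.
-/

open MeasureTheory Finset Filter
open scoped Topology

namespace BP4

open MR57 (tw DP trap SW wh ES IsCM Grep)

/-- The shifts stay close to `log a`. -/
theorem M04_shift (k : ℕ) (a M α : ℝ) (hk : 10 ≤ k) (ha : 1 ≤ a) (hM : 100 * (k : ℝ) ≤ M)
    (hα : a ≤ α) (hα1 : α ≤ (1 + 1 / (k : ℝ)) * a) (j : ℕ) (hj : j < k + 2) :
    |Real.log α - j * (1 / (k * a * M)) - Real.log a| ≤ 2 * (1 / (k : ℝ)) := by
  have hk0 : (10 : ℝ) ≤ (k : ℝ) := by exact_mod_cast hk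
  have hkpos : (0 : ℝ) < (k : ℝ) := by linarith
  have hapos : 0 < a := by linarith
  have hαpos : 0 < α := by linarith
  have hMpos : 0 < M := by nlinarith
  have h1 : 0 ≤ Real.log α - Real.log a := by
    have := Real.log_le_log hapos hα
    linarith
  have h2 : Real.log α - Real.log a ≤ 1 / (k : ℝ) := by
    have h3 : Real.log α ≤ Real.log ((1 + 1 / (k : ℝ)) * a) := Real.log_le_log hαpos hα1
    have h4 : Real.log ((1 + 1 / (k : ℝ)) * a) = Real.log (1 + 1 / (k : ℝ)) + Real.log a := by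
      rw [Real.log_mul (by positivity) (by positivity)]
    have h5 : Real.log (1 + 1 / (k : ℝ)) ≤ (1 + 1 / (k : ℝ)) - 1 :=
      Real.log_le_sub_one_of_pos (by positivity)
    linarith
  have hj1 : (j : ℝ) ≤ (k : ℝ) + 1 := by
    have : j ≤ k + 1 := by omega
    exact_mod_cast this
  have hj0 : (0 : ℝ) ≤ (j : ℝ) := Nat.cast_nonneg j
  have h6 : (j : ℝ) * (1 / (k * a * M)) ≤ 2 * (1 / (k : ℝ)) := by
    have h7 : 1 / ((k : ℝ) * a * M) ≤ 1 / ((k : ℝ) * (100 * (k : ℝ))) := by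
      apply one_div_le_one_div_of_le (by positivity)
      have : (k : ℝ) * (100 * (k : ℝ)) ≤ (k : ℝ) * (a * M) := by
        apply mul_le_mul_of_nonneg_left _ hkpos.le
        nlinarith
      linarith
    calc (j : ℝ) * (1 / (k * a * M)) ≤ ((k : ℝ) + 1) * (1 / ((k : ℝ) * (100 * (k : ℝ)))) := by
          apply mul_le_mul hj1 h7 (by positivity) (by positivity)
      _ ≤ 2 * (1 / (k : ℝ)) := by
          rw [mul_one_div, mul_one_div, div_le_div_iff₀ (by positivity) hkpos]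
          nlinarith
  have h8 : 0 ≤ (j : ℝ) * (1 / (k * a * M)) := by positivity
  have h9 : (0 : ℝ) < 1 / (k : ℝ) := by positivity
  rw [abs_le]
  constructor <;> linarith

theorem good_window : ∃ C : ℝ, 0 < C ∧ ∀ (k : ℕ) (a w : ℝ), 10 ≤ k → 1 ≤ a → 0 < w →
    w ≤ 1 / (k : ℝ) → ∃ M₀ : ℝ, 2 ≤ M₀ ∧ ∀ M α : ℝ, M₀ ≤ M → a ≤ α → α ≤ (1 + 1 / (k : ℝ)) * a →
    (∀ j ∈ range (k + 2), DD (1 / (k : ℝ)) a M (1 / (k * a * M)) w
      (Real.log α - j * (1 / (k * a * M))) ≤ (1 / (k : ℝ)) ^ 2 * (M / Real.log M) ^ 2) →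
    |(Nw (1 / (k : ℝ)) M α : ℝ) - (1 / (k : ℝ)) * (M / Real.log M ^ 2)| ≤
      C * (1 / (k : ℝ)) ^ 2 * (M / Real.log M ^ 2) := by
  obtain ⟨C, hC, hmain⟩ := main_term
  refine ⟨4 + 2 * (C + 1), by positivity, ?_⟩
  intro k a w hk ha hw hwk
  have hk0 : (10 : ℝ) ≤ (k : ℝ) := by exact_mod_cast hk
  have hkpos : (0 : ℝ) < (k : ℝ) := by linarith
  have hapos : 0 < a := by linarith
  have hδ : (0 : ℝ) < 1 / (k : ℝ) := by positivity
  have hδ1 : (1 : ℝ) / (k : ℝ) ≤ 1 / 10 := one_div_le_one_div_of_le (by norm_num) hk0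
  obtain ⟨M₀, hM₀, hmain⟩ := hmain (1 / (k : ℝ)) w a hδ hδ1 hw hwk ha
  refine ⟨max M₀ (100 * (k : ℝ)), le_max_of_le_left hM₀, ?_⟩
  intro M α hM hα hα1 hDD
  have hM1 : M₀ ≤ M := (le_max_left _ _).trans hM
  have hM2 : 100 * (k : ℝ) ≤ M := (le_max_right _ _).trans hM
  have hM3 : 2 ≤ M := hM₀.trans hM1
  have hMpos : 0 < M := by linarith
  have hLpos : 0 < Real.log M := Real.log_pos (by linarith)
  have hδk : (1 / (k : ℝ)) * (k : ℝ) = 1 := by field_simp
  set δ : ℝ := 1 / (k : ℝ) with hδdef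
  set h : ℝ := 1 / (k * a * M) with hh
  have hhpos : 0 < h := by rw [hh]; positivity
  set P : ℝ := (M / Real.log M) ^ 2 with hP
  have hPpos : 0 < P := by rw [hP]; positivity
  -- each shift
  have key : ∀ j : ℕ, j < k + 2 →
      |FF δ a M h (Real.log α - j * h) - h ^ 2 * (a * δ * P)| ≤ h ^ 2 * ((C + 1) * (a * δ ^ 2) * P) := by
    intro j hj
    have e1 := hmain M (Real.log α - j * h) hM1 (M04_shift k a M α hk ha hM2 hα hα1 j hj)
    have e2 := hDD j (mem_range.2 hj)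
    unfold DD at e2
    have e3 : |FF δ a M h (Real.log α - j * h) / h ^ 2 - a * δ * P| ≤ (C + 1) * (a * δ ^ 2) * P := by
      calc |FF δ a M h (Real.log α - j * h) / h ^ 2 - a * δ * P|
          ≤ |FF δ a M h (Real.log α - j * h) / h ^ 2 - FF δ a M w (Real.log α - j * h) / w ^ 2| +
            |FF δ a M w (Real.log α - j * h) / w ^ 2 - a * δ * P| := abs_sub_le _ _ _
        _ ≤ δ ^ 2 * P + C * (a * δ ^ 2) * P := add_le_add e2 e1
        _ ≤ (C + 1) * (a * δ ^ 2) * P := by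
            have : δ ^ 2 * P ≤ a * δ ^ 2 * P := by
              have h0 : 0 ≤ δ ^ 2 * P := by positivity
              nlinarith
            linarith
    have e4 : FF δ a M h (Real.log α - j * h) - h ^ 2 * (a * δ * P) =
        h ^ 2 * (FF δ a M h (Real.log α - j * h) / h ^ 2 - a * δ * P) := by
      have : h ^ 2 ≠ 0 := by positivity
      field_simp
    rw [e4, abs_mul, abs_of_nonneg (by positivity : 0 ≤ h ^ 2)]
    exact mul_le_mul_of_nonneg_left e3 (by positivity)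
  -- identity for the main quantity
  have hid : (k : ℝ) * h * (a * δ * P) = δ * (M / Real.log M ^ 2) := by
    rw [hh, hP]
    field_simp
  set Q : ℝ := M / Real.log M ^ 2 with hQ
  have hQpos : 0 < Q := by rw [hQ]; positivity
  have hmain2 : h * (a * δ * P) = δ * (δ * Q) := by
    have : (k : ℝ) * (h * (a * δ * P)) = (k : ℝ) * (δ * (δ * Q)) := by
      calc (k : ℝ) * (h * (a * δ * P)) = (k : ℝ) * h * (a * δ * P) := by ring
        _ = δ * Q := hid
        _ = (δ * (k : ℝ)) * (δ * Q) := by rw [hδk, one_mul]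
        _ = (k : ℝ) * (δ * (δ * Q)) := by ring
    exact mul_left_cancel₀ hkpos.ne' this
  -- upper bound
  have hup := sandwich_upper δ a M α k hδ hδ1 ha (by omega) (by linarith) hα hα1
  have hlo := sandwich_lower δ a M α k (k - 4) hδ hδ1 ha (by omega) (by
    have h4 : 4 ≤ k := by omega
    have : ((k - 4 : ℕ) : ℝ) = (k : ℝ) - 4 := by
      rw [Nat.cast_sub h4]
      norm_num
    rw [this]
    nlinarith) (by
    rw [hδdef]
    have : 100 / (1 / (k : ℝ)) = 100 * (k : ℝ) := by field_simp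
    rw [this]
    exact hM2) hα hα1
  rw [← hh] at hup hlo
  have hup2 : (Nw δ M α : ℝ) * h ≤ ((k : ℝ) + 2) * (h ^ 2 * (a * δ * P) * (1 + (C + 1) * δ)) := by
    refine hup.trans ?_
    calc ∑ j ∈ range (k + 2), FF δ a M h (Real.log α - j * h)
        ≤ ∑ _j ∈ range (k + 2), (h ^ 2 * (a * δ * P) * (1 + (C + 1) * δ)) := by
          apply sum_le_sum
          intro j hj
          have := (abs_le.1 (key j (mem_range.1 hj))).2
          nlinarith
      _ = ((k : ℝ) + 2) * (h ^ 2 * (a * δ * P) * (1 + (C + 1) * δ)) := by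
          rw [sum_const, card_range, nsmul_eq_mul]
          push_cast
          ring
  have hlo2 : ((k : ℝ) - 4) * (h ^ 2 * (a * δ * P) * (1 - (C + 1) * δ)) ≤ (Nw δ M α : ℝ) * h := by
    refine le_trans ?_ hlo
    calc ((k : ℝ) - 4) * (h ^ 2 * (a * δ * P) * (1 - (C + 1) * δ))
        = ∑ _j ∈ Icc 1 (k - 4), (h ^ 2 * (a * δ * P) * (1 - (C + 1) * δ)) := by
          rw [sum_const, Nat.card_Icc, nsmul_eq_mul]
          have h4 : 4 ≤ k := by omega
          have : ((k - 4 + 1 - 1 : ℕ) : ℝ) = (k : ℝ) - 4 := by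
            have h5 : k - 4 + 1 - 1 = k - 4 := by omega
            rw [h5, Nat.cast_sub h4]
            norm_num
          rw [this]
      _ ≤ ∑ j ∈ Icc 1 (k - 4), FF δ a M h (Real.log α - j * h) := by
          apply sum_le_sum
          intro j hj
          rw [mem_Icc] at hj
          have := (abs_le.1 (key j (by omega))).1
          nlinarith
  -- divide by h
  have hup3 : (Nw δ M α : ℝ) ≤ ((k : ℝ) + 2) * (δ * (δ * Q) * (1 + (C + 1) * δ)) := by
    have : (Nw δ M α : ℝ) * h ≤ (((k : ℝ) + 2) * (δ * (δ * Q) * (1 + (C + 1) * δ))) * h := by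
      refine hup2.trans (le_of_eq ?_)
      rw [← hmain2]
      ring
    exact le_of_mul_le_mul_right this hhpos
  have hlo3 : ((k : ℝ) - 4) * (δ * (δ * Q) * (1 - (C + 1) * δ)) ≤ (Nw δ M α : ℝ) := by
    have : (((k : ℝ) - 4) * (δ * (δ * Q) * (1 - (C + 1) * δ))) * h ≤ (Nw δ M α : ℝ) * h := by
      refine le_trans (le_of_eq ?_) hlo2
      rw [← hmain2]
      ring
    exact le_of_mul_le_mul_right this hhpos
  have hup4 : ((k : ℝ) + 2) * (δ * (δ * Q) * (1 + (C + 1) * δ)) =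
      (1 + 2 * δ) * (1 + (C + 1) * δ) * (δ * Q) := by
    calc ((k : ℝ) + 2) * (δ * (δ * Q) * (1 + (C + 1) * δ))
        = (δ * (k : ℝ) + 2 * δ) * (1 + (C + 1) * δ) * (δ * Q) := by ring
      _ = _ := by rw [hδk]
  have hlo4 : ((k : ℝ) - 4) * (δ * (δ * Q) * (1 - (C + 1) * δ)) =
      (1 - 4 * δ) * (1 - (C + 1) * δ) * (δ * Q) := by
    calc ((k : ℝ) - 4) * (δ * (δ * Q) * (1 - (C + 1) * δ))
        = (δ * (k : ℝ) - 4 * δ) * (1 - (C + 1) * δ) * (δ * Q) := by ring
      _ = _ := by rw [hδk]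
  rw [hup4] at hup3
  rw [hlo4] at hlo3
  have hδQ : 0 < δ * Q := by positivity
  rw [abs_le]
  constructor
  · have e1 : (1 - 4 * δ) * (1 - (C + 1) * δ) ≥ 1 - (4 + 2 * (C + 1)) * δ := by
      have f1 : 0 ≤ (C + 1) * δ := by positivity
      have f2 : 0 ≤ (C + 1) * δ * δ := by positivity
      nlinarith
    have e2 := mul_le_mul_of_nonneg_right e1 hδQ.le
    have e3 : (1 - (4 + 2 * (C + 1)) * δ) * (δ * Q) = δ * Q - (4 + 2 * (C + 1)) * δ ^ 2 * Q := by
      ring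
    linarith
  · have e1 : (1 + 2 * δ) * (1 + (C + 1) * δ) ≤ 1 + (4 + 2 * (C + 1)) * δ := by
      have : (C + 1) * δ * δ ≤ (C + 1) * δ * (1 / 10) := by
        apply mul_le_mul_of_nonneg_left hδ1
        positivity
      nlinarith
    have e2 := mul_le_mul_of_nonneg_right e1 hδQ.le
    have e3 : (1 + (4 + 2 * (C + 1)) * δ) * (δ * Q) = δ * Q + (4 + 2 * (C + 1)) * δ ^ 2 * Q := by
      ring
    linarith

end BP4
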