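import Pool.Agent.LibBP4.F06
import Pool.Agent.LibBP4.F08
import Pool.Agent.LibBP4.F09

/-!
TASK M05a.  One scale.  `δ = n⁻¹ = 1/k`, `h = 1/(k a M)`; `w` from `bad_measure` with `η = δ²/4`, `w₁ = δ`.  Apply
`cover_cells` with `D = DD ..`, Lipschitz constant `Lam = C M⁴` (`FF_lip`, divided by `h²` and by
`w²`; `||x|-|y|| ≤ |x-y|`), `lam = δ²(M/log M)²` (so `lam/2 = 2η (M/log M)²`), `N = ⌊M³⌋₊ + 1`
(`Lam/N ≤ C M < lam/2` for large `M`), `m = M^{-c₁}`, `s i = i h ≤ 1`, `J = k+2`, `b = log a ≥ 0`.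
-/

open MeasureTheory Finset Filter
open scoped Topology

namespace BP4

open MR57 (tw DP trap SW wh ES IsCM Grep)

private theorem M05a_lip (δ a M h w : ℝ) (hδ : 0 ≤ δ) (ha : 0 ≤ a) (hM : 0 ≤ M) (hh : 0 < h)
    (hw : 0 < w) (x y : ℝ) :
    |DD δ a M h w x - DD δ a M h w y| ≤
      (((1 + δ) * M) * (2 * a * M) * (1 / h ^ 2 + 1 / w ^ 2)) * |x - y| := by
  have h1 := FF_lip δ a M h hδ ha hM x y
  have h2 := FF_lip δ a M w hδ ha hM x y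
  set L := ((1 + δ) * M) * (2 * a * M) with hL
  unfold DD
  refine (abs_abs_sub_abs_le_abs_sub _ _).trans ?_
  have e : FF δ a M h x / h ^ 2 - FF δ a M w x / w ^ 2 - (FF δ a M h y / h ^ 2 - FF δ a M w y / w ^ 2) =
      (FF δ a M h x - FF δ a M h y) / h ^ 2 - (FF δ a M w x - FF δ a M w y) / w ^ 2 := by ring
  rw [e]
  refine (abs_sub _ _).trans ?_
  rw [abs_div, abs_div, abs_of_pos (pow_pos hh 2), abs_of_pos (pow_pos hw 2)]
  have h3 : |FF δ a M h x - FF δ a M h y| / h ^ 2 ≤ L * |x - y| / h ^ 2 :=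
    div_le_div_of_nonneg_right h1 (pow_pos hh 2).le
  have h4 : |FF δ a M w x - FF δ a M w y| / w ^ 2 ≤ L * |x - y| / w ^ 2 :=
    div_le_div_of_nonneg_right h2 (pow_pos hw 2).le
  calc _ ≤ L * |x - y| / h ^ 2 + L * |x - y| / w ^ 2 := add_le_add h3 h4
    _ = _ := by ring

theorem one_scale : ∃ c₁ : ℝ, 0 < c₁ ∧ c₁ ≤ 1 ∧ ∀ (k : ℕ) (a : ℝ), 10 ≤ k → 1 ≤ a →
    ∃ w M₀ : ℝ, 0 < w ∧ w ≤ 1 / (k : ℝ) ∧ 2 ≤ M₀ ∧ ∀ M : ℝ, M₀ ≤ M → ∃ I : Finset ℕ,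
    (I.card : ℝ) ≤ ((k : ℝ) + 2) * (((⌊M ^ 3⌋₊ : ℝ) + 1) * M ^ (-c₁)) ∧
    ∀ β : ℝ, Real.log a ≤ β → β ≤ Real.log a + 1 → ∀ i ∈ range (k + 2),
      (1 / (k : ℝ)) ^ 2 * (M / Real.log M) ^ 2 <
        DD (1 / (k : ℝ)) a M (1 / (k * a * M)) w (β - i * (1 / (k * a * M))) →
      ∃ i ∈ I, (i : ℝ) / ((⌊M ^ 3⌋₊ : ℝ) + 1) ≤ β ∧ β ≤ ((i : ℝ) + 1) / ((⌊M ^ 3⌋₊ : ℝ) + 1) := by
  obtain ⟨c₁, hc0, hc1, hbad⟩ := bad_measure
  refine ⟨c₁, hc0, hc1, fun k a hk ha => ?_⟩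
  have hk' : (10 : ℝ) ≤ k := by exact_mod_cast hk
  have hk0 : (0 : ℝ) < k := by linarith
  have hδ : (0 : ℝ) < 1 / k := by positivity
  have hδ1 : (1 : ℝ) / k ≤ 1 / 10 := one_div_le_one_div_of_le (by norm_num) hk'
  have hη : (0 : ℝ) < (1 / (k : ℝ)) ^ 2 / 4 := by positivity
  obtain ⟨w, M₁, hw, hwk, hw1, hM1, hvol⟩ :=
    hbad (1 / k) a k ((1 / (k : ℝ)) ^ 2 / 4) (1 / k) hδ hδ1 ha (by linarith) hη hδ
  set C : ℝ := (1 + 1 / (k : ℝ)) * (2 * a) * ((k * a) ^ 2 + 1 / w ^ 2) with hC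
  have hCpos : 0 < C := by positivity
  -- growth
  have hlog := (Real.isLittleO_pow_log_id_atTop (n := 2)).def
    (show (0 : ℝ) < (1 / (k : ℝ)) ^ 2 / (4 * C) by positivity)
  obtain ⟨M₂, hM2⟩ := eventually_atTop.1 hlog
  refine ⟨w, max M₁ M₂, hw, hwk, hM1.trans (le_max_left _ _), fun M hM => ?_⟩
  have hMM1 : M₁ ≤ M := (le_max_left _ _).trans hM
  have hMM2 : M₂ ≤ M := (le_max_right _ _).trans hM
  have hM2' : (2 : ℝ) ≤ M := hM1.trans hMM1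
  have hM0 : 0 < M := by linarith
  have hlogM : 0 < Real.log M := Real.log_pos (by linarith)
  have hh : 0 < 1 / (k * a * M) := by positivity
  have hg : Real.log M ^ 2 ≤ (1 / (k : ℝ)) ^ 2 / (4 * C) * M := by
    have := hM2 M hMM2
    simp only [id, Real.norm_eq_abs] at this
    rwa [abs_of_nonneg (sq_nonneg _), abs_of_pos hM0] at this
  set N : ℕ := ⌊M ^ 3⌋₊ + 1 with hN
  have hNM : M ^ 3 < (N : ℝ) := by
    rw [hN]
    push_cast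
    exact Nat.lt_floor_add_one _
  have hN0 : (0 : ℝ) < N := (by positivity : (0 : ℝ) ≤ M ^ 3).trans_lt hNM
  set lam : ℝ := (1 / (k : ℝ)) ^ 2 * (M / Real.log M) ^ 2 with hlam
  set Lam : ℝ := ((1 + 1 / (k : ℝ)) * M) * (2 * a * M) *
    (1 / (1 / (k * a * M)) ^ 2 + 1 / w ^ 2) with hLam
  have hLam0 : 0 ≤ Lam := by positivity
  have hLam1 : Lam ≤ C * M ^ 4 := by
    have e1 : (1 : ℝ) / (1 / (k * a * M)) ^ 2 = (k * a) ^ 2 * M ^ 2 := by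
      field_simp
    have h1 : (1 : ℝ) / w ^ 2 ≤ 1 / w ^ 2 * M ^ 2 := by
      refine le_mul_of_one_le_right (by positivity) ?_
      nlinarith
    rw [hLam, e1, hC]
    calc ((1 + 1 / (k : ℝ)) * M) * (2 * a * M) * ((k * a) ^ 2 * M ^ 2 + 1 / w ^ 2)
        ≤ ((1 + 1 / (k : ℝ)) * M) * (2 * a * M) * ((k * a) ^ 2 * M ^ 2 + 1 / w ^ 2 * M ^ 2) := by
          gcongr
      _ = _ := by ring
  have hLam2 : Lam / N < lam / 2 := by
    have h1 : Lam / N ≤ C * M := by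
      rw [div_le_iff₀ hN0]
      calc Lam ≤ C * M ^ 4 := hLam1
        _ = C * M * M ^ 3 := by ring
        _ ≤ C * M * N := by gcongr
    refine h1.trans_lt ?_
    have h2 : lam / 2 = (1 / (k : ℝ)) ^ 2 * M ^ 2 / (2 * Real.log M ^ 2) := by
      rw [hlam]
      field_simp
    rw [h2, lt_div_iff₀ (by positivity)]
    calc C * M * (2 * Real.log M ^ 2) ≤ C * M * (2 * ((1 / (k : ℝ)) ^ 2 / (4 * C) * M)) := by
          gcongr
      _ = (1 / (k : ℝ)) ^ 2 * M ^ 2 / 2 := by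
          field_simp
          norm_num
      _ < (1 / (k : ℝ)) ^ 2 * M ^ 2 := by
          have : 0 < (1 / (k : ℝ)) ^ 2 * M ^ 2 := by positivity
          linarith
  have hloga : 0 ≤ Real.log a := Real.log_nonneg ha
  have hm0 : (0 : ℝ) ≤ M ^ (-c₁) := by positivity
  have hs : ∀ j < k + 2, 0 ≤ (j : ℝ) * (1 / (k * a * M)) ∧ (j : ℝ) * (1 / (k * a * M)) ≤ 1 := by
    intro j hj
    refine ⟨by positivity, ?_⟩
    have hj' : (j : ℝ) ≤ k + 1 := by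
      have : j ≤ k + 1 := by omega
      exact_mod_cast this
    rw [mul_one_div, div_le_one (by positivity)]
    have h1 : (k : ℝ) * 1 * 2 ≤ k * a * M := by gcongr
    linarith
  have hm : volume {β : ℝ | Real.log a - 2 ≤ β ∧ β ≤ Real.log a + 2 ∧
      lam / 2 < DD (1 / (k : ℝ)) a M (1 / (k * a * M)) w β} ≤ ENNReal.ofReal (M ^ (-c₁)) := by
    have h1 := hvol M (Real.log a) hMM1
    have e : 2 * ((1 / (k : ℝ)) ^ 2 / 4) * (M / Real.log M) ^ 2 = lam / 2 := by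
      rw [hlam]
      ring
    rw [e] at h1
    exact h1
  obtain ⟨I, hI1, hI2⟩ := cover_cells (DD (1 / (k : ℝ)) a M (1 / (k * a * M)) w) Lam lam
    (M ^ (-c₁)) (Real.log a) N (k + 2) (fun i => (i : ℝ) * (1 / (k * a * M)))
    (fun x y => M05a_lip (1 / k) a M _ w hδ.le (by linarith) hM0.le hh hw x y)
    (by omega) hLam0 hLam2 hs hloga hm0 hm
  refine ⟨I, ?_, ?_⟩
  · have e : (N : ℝ) = (⌊M ^ 3⌋₊ : ℝ) + 1 := by
      rw [hN]
      push_cast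
      rfl
    rw [← e]
    push_cast at hI1
    exact hI1
  · intro β h1 h2 i hi h3
    obtain ⟨i', hi', h4, h5⟩ := hI2 β h1 h2 i (mem_range.1 hi) h3
    have e : (N : ℝ) = (⌊M ^ 3⌋₊ : ℝ) + 1 := by
      rw [hN]
      push_cast
      rfl
    rw [e] at h4 h5
    exact ⟨i', hi', h4, h5⟩

end BP4
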