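import Pool.Agent.LibBP4.Ext
import Pool.Agent.LibBP4.M05a

/-!
TASK M05.  Dimension of the bad set for one `(k, a)`.  `M_j = (1+1/k)^j`, `N_j = ⌊M_j³⌋₊ + 1`, cells from
`one_scale` (for the finitely many small `j` take `I_j = ∅`).  With `s = 1 - c₁/6`,
`∑_j #I_j N_j^{-s} ≤ C ∑_j M_j^{3(1-s) - c₁} < ∞` (geometric); use `x_dimH_limsup`.
-/

open MeasureTheory Finset Filter
open scoped Topology

namespace BP4

open MR57 (tw DP trap SW wh ES IsCM Grep)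

theorem bad_dim : ∃ s : ℝ, 0 < s ∧ s < 1 ∧ ∀ (k : ℕ) (a : ℝ), 10 ≤ k → 1 ≤ a →
    ∃ w : ℝ, 0 < w ∧ w ≤ 1 / (k : ℝ) ∧
    dimH {β : ℝ | Real.log a ≤ β ∧ β ≤ Real.log a + 1 ∧ ∃ᶠ j : ℕ in atTop, ∃ i ∈ range (k + 2),
      (1 / (k : ℝ)) ^ 2 * ((1 + 1 / (k : ℝ)) ^ j / Real.log ((1 + 1 / (k : ℝ)) ^ j)) ^ 2 <
        DD (1 / (k : ℝ)) a ((1 + 1 / (k : ℝ)) ^ j) (1 / (k * a * (1 + 1 / (k : ℝ)) ^ j)) w
          (β - i * (1 / (k * a * (1 + 1 / (k : ℝ)) ^ j)))} ≤ ENNReal.ofReal s := by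
  classical
  obtain ⟨c₁, hc0, hc1, hone⟩ := one_scale
  refine ⟨1 - c₁ / 6, by linarith, by linarith, fun k a hk ha => ?_⟩
  obtain ⟨w, M₀, hw, hwk, hM0, hI⟩ := hone k a hk ha
  refine ⟨w, hw, hwk, ?_⟩
  choose! I hI1 hI2 using hI
  have hk' : (10 : ℝ) ≤ k := by exact_mod_cast hk
  have hk0 : (0 : ℝ) < k := by linarith
  have hq : 1 < 1 + 1 / (k : ℝ) := by
    have : 0 < 1 / (k : ℝ) := by positivity
    linarith
  set M : ℕ → ℝ := fun j => (1 + 1 / (k : ℝ)) ^ j with hMdef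
  have hM1 : ∀ j, 1 ≤ M j := fun j => one_le_pow₀ hq.le
  have hMt : Tendsto M atTop atTop := tendsto_pow_atTop_atTop_of_one_lt hq
  have hNcast : ∀ j, ((⌊M j ^ 3⌋₊ + 1 : ℕ) : ℝ) = (⌊M j ^ 3⌋₊ : ℝ) + 1 := fun j => by push_cast; rfl
  have hNle : ∀ j, (⌊M j ^ 3⌋₊ : ℝ) + 1 ≤ 2 * M j ^ 3 := by
    intro j
    have h1 : (⌊M j ^ 3⌋₊ : ℝ) ≤ M j ^ 3 := Nat.floor_le (by have := hM1 j; positivity)
    have h2 : 1 ≤ M j ^ 3 := one_le_pow₀ (hM1 j)
    linarith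
  have hNge : ∀ j, M j ≤ (⌊M j ^ 3⌋₊ : ℝ) + 1 := by
    intro j
    have h1 : M j ^ 3 < (⌊M j ^ 3⌋₊ : ℝ) + 1 := Nat.lt_floor_add_one _
    have h2 : M j ≤ M j ^ 3 := le_self_pow₀ (hM1 j) (by norm_num)
    linarith
  refine x_dimH_limsup (1 - c₁ / 6) (by linarith) (fun j => ⌊M j ^ 3⌋₊ + 1)
    (fun j => if M₀ ≤ M j then I (M j) else ∅) _ ?_ ?_ ?_
  · refine tendsto_atTop_mono (fun j => ?_) hMt
    rw [hNcast]
    exact hNge j
  · have hgeo : Summable fun j : ℕ => (((k : ℝ) + 2) * (2 : ℝ) ^ (c₁ / 6)) *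
        ((1 + 1 / (k : ℝ)) ^ (-(c₁ / 2))) ^ j := by
      refine Summable.mul_left _ (summable_geometric_of_lt_one (by positivity) ?_)
      exact Real.rpow_lt_one_of_one_lt_of_neg hq (by linarith)
    refine Summable.of_nonneg_of_le (fun j => by positivity) (fun j => ?_) hgeo
    rw [hNcast]
    have hMp : 0 < M j := by linarith [hM1 j]
    have hNp : 0 < (⌊M j ^ 3⌋₊ : ℝ) + 1 := by positivity
    by_cases hj : M₀ ≤ M j
    · rw [if_pos hj]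
      have h1 := hI1 (M j) hj
      calc ((I (M j)).card : ℝ) * ((⌊M j ^ 3⌋₊ : ℝ) + 1) ^ (-(1 - c₁ / 6))
          ≤ (((k : ℝ) + 2) * (((⌊M j ^ 3⌋₊ : ℝ) + 1) * M j ^ (-c₁))) *
              ((⌊M j ^ 3⌋₊ : ℝ) + 1) ^ (-(1 - c₁ / 6)) := by
            gcongr
        _ = ((k : ℝ) + 2) * M j ^ (-c₁) * ((⌊M j ^ 3⌋₊ : ℝ) + 1) ^ (c₁ / 6) := by
            have e : ((⌊M j ^ 3⌋₊ : ℝ) + 1) ^ (c₁ / 6) =
                ((⌊M j ^ 3⌋₊ : ℝ) + 1) * ((⌊M j ^ 3⌋₊ : ℝ) + 1) ^ (-(1 - c₁ / 6)) := by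
              nth_rewrite 2 [← Real.rpow_one ((⌊M j ^ 3⌋₊ : ℝ) + 1)]
              rw [← Real.rpow_add hNp]
              congr 1
              ring
            rw [e]
            ring
        _ ≤ ((k : ℝ) + 2) * M j ^ (-c₁) * (2 * M j ^ 3) ^ (c₁ / 6) := by
            gcongr
            exact hNle j
        _ = (((k : ℝ) + 2) * (2 : ℝ) ^ (c₁ / 6)) * ((1 + 1 / (k : ℝ)) ^ (-(c₁ / 2))) ^ j := by
            rw [Real.mul_rpow (by norm_num) (by positivity)]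
            have e1 : (M j ^ 3) ^ (c₁ / 6) = M j ^ (c₁ / 2) := by
              rw [← Real.rpow_natCast, ← Real.rpow_mul hMp.le]
              congr 1
              push_cast
              ring
            have e2 : M j ^ (-c₁) * M j ^ (c₁ / 2) = M j ^ (-(c₁ / 2)) := by
              rw [← Real.rpow_add hMp]
              congr 1
              ring
            have e3 : M j ^ (-(c₁ / 2)) = ((1 + 1 / (k : ℝ)) ^ (-(c₁ / 2))) ^ j := by
              rw [hMdef]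
              simp only
              rw [← Real.rpow_natCast, ← Real.rpow_natCast, ← Real.rpow_mul (by linarith),
                ← Real.rpow_mul (by linarith), mul_comm]
            rw [e1, ← e3, ← e2]
            ring
    · rw [if_neg hj, card_empty, Nat.cast_zero, zero_mul]
      positivity
  · intro x hx
    obtain ⟨h1, h2, h3⟩ := hx
    have hev : ∀ᶠ j in atTop, M₀ ≤ M j := hMt.eventually_ge_atTop M₀
    refine (h3.and_eventually hev).mono fun j hj => ?_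
    obtain ⟨⟨i, hi, h4⟩, h5⟩ := hj
    obtain ⟨i', hi', h6, h7⟩ := hI2 (M j) h5 x h1 h2 i hi h4
    simp only [if_pos h5]
    rw [hNcast]
    exact ⟨i', hi', h6, h7⟩

end BP4
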