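import Pool.Agent.LibBP4.Defs

/-!
TASK M06.  Summation over the windows (real analysis).  `G(x) = x/log² x`; for `M = (1+1/k)^j` large,
`G((1+1/k)M) - G(M) = (1/k)(M/log² M)(1 + o(1))`, so by `H`,
`f(M_{j+1}) - f(M_j) ≤ (1 + 2C/k)(G(M_{j+1}) - G(M_j))` and `≥ (1 - 2C/k)(...)` for `j ≥ j₀`;
telescope, use `G → ∞`, monotonicity of `f` between the grid points, and
`G(M_{j+1})/G(M_j) → 1 + 1/k`; let `k → ∞`.
-/

open MeasureTheory Finset Filter
open scoped Topology

namespace BP4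

open MR57 (tw DP trap SW wh ES IsCM Grep)

/-- Values of the main term on the grid. -/
noncomputable def M06_g (q : ℝ) (j : ℕ) : ℝ := q ^ j / ((j : ℝ) * Real.log q) ^ 2

theorem M06_g_pos {q : ℝ} (hq : 1 < q) {j : ℕ} (hj : 1 ≤ j) : 0 < M06_g q j := by
  unfold M06_g
  have h1 : 0 < Real.log q := Real.log_pos hq
  have h2 : (0 : ℝ) < j := by exact_mod_cast hj
  positivity

theorem M06_g_succ {q : ℝ} (hq : 1 < q) {j : ℕ} (hj : 1 ≤ j) :
    M06_g q (j + 1) = q * ((j : ℝ) / ((j : ℝ) + 1)) ^ 2 * M06_g q j := by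
  unfold M06_g
  have h1 : 0 < Real.log q := Real.log_pos hq
  have h2 : (0 : ℝ) < j := by exact_mod_cast hj
  push_cast
  rw [pow_succ]
  field_simp

/-- Approximation on the grid. -/
theorem M06_grid (f : ℝ → ℝ) (C : ℝ) (hC : 0 ≤ C) (δ : ℝ) (hδ : 0 < δ) (hδ1 : δ ≤ 1 / 2)
    (H : ∀ᶠ j : ℕ in atTop,
      |f ((1 + δ) ^ (j + 1)) - f ((1 + δ) ^ j) - δ * M06_g (1 + δ) j| ≤
        C * δ ^ 2 * M06_g (1 + δ) j) :
    ∀ᶠ j : ℕ in atTop, |f ((1 + δ) ^ j) - M06_g (1 + δ) j| ≤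
      (2 * C + 3) * δ * M06_g (1 + δ) j := by
  have hq : (1 : ℝ) < 1 + δ := by linarith
  set q := 1 + δ with hqd
  -- ratio
  have hr : Tendsto (fun j : ℕ => q * ((j : ℝ) / ((j : ℝ) + 1)) ^ 2) atTop (𝓝 (q * 1 ^ 2)) := by
    apply Tendsto.const_mul
    apply Tendsto.pow
    exact tendsto_natCast_div_add_atTop (1 : ℝ)
  have hr2 : ∀ᶠ j : ℕ in atTop, |q * ((j : ℝ) / ((j : ℝ) + 1)) ^ 2 - q| < δ ^ 2 := by
    have := (Metric.tendsto_nhds.1 hr) (δ ^ 2) (by positivity)
    filter_upwards [this] with j hj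
    rw [Real.dist_eq, one_pow, mul_one] at hj
    exact hj
  obtain ⟨j₀, hj₀⟩ := eventually_atTop.1 (H.and (hr2.and (eventually_ge_atTop 1)))
  -- one step
  have hstep : ∀ j, j₀ ≤ j → 1 ≤ j ∧
      |(f (q ^ (j + 1)) - M06_g q (j + 1)) - (f (q ^ j) - M06_g q j)| ≤
        2 * (C + 1) * δ * (M06_g q (j + 1) - M06_g q j) := by
    intro j hj
    obtain ⟨h1, h2, h3⟩ := hj₀ j hj
    refine ⟨h3, ?_⟩
    have hg := M06_g_pos hq h3
    have hs := M06_g_succ hq h3
    set r := q * ((j : ℝ) / ((j : ℝ) + 1)) ^ 2 with hrd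
    set g := M06_g q j with hgd
    have h4 : |r * g - g - δ * g| ≤ δ ^ 2 * g := by
      have : r * g - g - δ * g = (r - q) * g := by rw [hqd]; ring
      rw [this, abs_mul, abs_of_pos hg]
      exact mul_le_mul_of_nonneg_right h2.le hg.le
    have h5 : δ * g ≤ 2 * (r * g - g) := by
      have h6 := (abs_le.1 h4).1
      nlinarith [mul_pos hδ hg]
    rw [hs]
    have e1 : (f (q ^ (j + 1)) - r * g) - (f (q ^ j) - g) =
        (f (q ^ (j + 1)) - f (q ^ j) - δ * g) - (r * g - g - δ * g) := by ring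
    rw [e1]
    refine (abs_sub _ _).trans ?_
    have h7 : C * δ ^ 2 * g + δ ^ 2 * g ≤ 2 * (C + 1) * δ * (r * g - g) := by
      have h8 : 0 ≤ (C + 1) * δ := by positivity
      nlinarith [mul_le_mul_of_nonneg_left h5 h8]
    linarith
  -- telescoping
  have htel : ∀ n : ℕ, |f (q ^ (j₀ + n)) - M06_g q (j₀ + n)| ≤
      |f (q ^ j₀) - M06_g q j₀| + 2 * (C + 1) * δ * (M06_g q (j₀ + n) - M06_g q j₀) := by
    intro n
    induction n with
    | zero => simp
    | succ n ih =>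
      have h1 := (hstep (j₀ + n) (by omega)).2
      have e : j₀ + (n + 1) = j₀ + n + 1 := by ring
      rw [e]
      have h2 : |f (q ^ (j₀ + n + 1)) - M06_g q (j₀ + n + 1)| ≤
          |(f (q ^ (j₀ + n + 1)) - M06_g q (j₀ + n + 1)) - (f (q ^ (j₀ + n)) - M06_g q (j₀ + n))| +
          |f (q ^ (j₀ + n)) - M06_g q (j₀ + n)| := by
        have := abs_add_le ((f (q ^ (j₀ + n + 1)) - M06_g q (j₀ + n + 1)) -
          (f (q ^ (j₀ + n)) - M06_g q (j₀ + n))) (f (q ^ (j₀ + n)) - M06_g q (j₀ + n))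
        rwa [sub_add_cancel] at this
      nlinarith
  -- growth
  have hgrow : ∀ K : ℝ, ∀ᶠ j : ℕ in atTop, K ≤ δ * M06_g q j := by
    intro K
    have h1 := tendsto_pow_const_div_const_pow_of_one_lt 2 hq
    have hL : 0 < Real.log q := Real.log_pos hq
    have h2 : ∀ᶠ j : ℕ in atTop, (j : ℝ) ^ 2 / q ^ j < δ / ((|K| + 1) * Real.log q ^ 2) := by
      apply (tendsto_order.1 h1).2
      positivity
    filter_upwards [h2, eventually_ge_atTop 1] with j hj hj1
    have hj0 : (0 : ℝ) < j := by exact_mod_cast hj1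
    have hqj : 0 < q ^ j := by positivity
    rw [div_lt_div_iff₀ hqj (by positivity)] at hj
    have h3 : |K| + 1 ≤ δ * M06_g q j := by
      unfold M06_g
      rw [mul_pow, ← mul_div_assoc, le_div_iff₀ (by positivity)]
      nlinarith
    linarith [le_abs_self K]
  obtain ⟨j₁, hj₁⟩ := eventually_atTop.1 (hgrow (|f (q ^ j₀) - M06_g q j₀|))
  filter_upwards [eventually_ge_atTop (max j₀ j₁)] with j hj
  have hj0 : j₀ ≤ j := le_trans (le_max_left _ _) hj
  have hj1 : j₁ ≤ j := le_trans (le_max_right _ _) hj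
  obtain ⟨n, rfl⟩ := Nat.exists_eq_add_of_le hj0
  have h1 := htel n
  have h2 := hj₁ _ hj1
  have h3 := (hstep j₀ le_rfl).1
  have h4 := M06_g_pos hq h3
  have h5 : 0 ≤ 2 * (C + 1) * δ * M06_g q j₀ := by positivity
  nlinarith

theorem final_sum (f : ℝ → ℝ) (hf : Monotone f) (C : ℝ)
    (H : ∀ k : ℕ, 10 ≤ k → ∀ᶠ j : ℕ in atTop,
      |f ((1 + 1 / (k : ℝ)) ^ (j + 1)) - f ((1 + 1 / (k : ℝ)) ^ j) -
        (1 / (k : ℝ)) * ((1 + 1 / (k : ℝ)) ^ j / Real.log ((1 + 1 / (k : ℝ)) ^ j) ^ 2)| ≤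
        C * (1 / (k : ℝ)) ^ 2 * ((1 + 1 / (k : ℝ)) ^ j / Real.log ((1 + 1 / (k : ℝ)) ^ j) ^ 2)) :
    Tendsto (fun x : ℝ => f x * Real.log x ^ 2 / x) atTop (𝓝 1) := by
  rw [Metric.tendsto_nhds]
  intro ε hε
  set D := 2 * |C| + 3 with hD
  have hD0 : 0 < D := by positivity
  -- choice of k
  obtain ⟨k, hk⟩ := exists_nat_gt (max 10 (max D ((2 * D + 1) / (ε / 2))))
  have hk10 : (10 : ℝ) < k := lt_of_le_of_lt (le_max_left _ _) hk
  have hkD : D < k := lt_of_le_of_lt ((le_max_left _ _).trans (le_max_right _ _)) hk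
  have hkE : (2 * D + 1) / (ε / 2) < k :=
    lt_of_le_of_lt ((le_max_right _ _).trans (le_max_right _ _)) hk
  have hk0 : (0 : ℝ) < k := by linarith
  set δ : ℝ := 1 / (k : ℝ) with hδd
  have hδ : 0 < δ := by positivity
  have hδ10 : δ ≤ 1 / 2 := by
    rw [hδd]
    exact one_div_le_one_div_of_le (by norm_num) (by linarith)
  have hDδ : D * δ ≤ 1 := by
    rw [hδd, mul_one_div, div_le_one hk0]
    exact hkD.le
  have hEδ : (2 * D + 1) * δ < ε := by
    rw [div_lt_iff₀ (by positivity)] at hkE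
    rw [hδd, mul_one_div, div_lt_iff₀ hk0]
    nlinarith
  have hq : (1 : ℝ) < 1 + δ := by linarith
  have hL : 0 < Real.log (1 + δ) := Real.log_pos hq
  have hgr := M06_grid f |C| (abs_nonneg C) δ hδ hδ10 (by
    filter_upwards [H k (by exact_mod_cast hk10.le), eventually_ge_atTop 1] with j hj hj1
    rw [Real.log_pow] at hj
    have hg := M06_g_pos hq hj1
    unfold M06_g at hg ⊢
    refine hj.trans ?_
    have h1 : C * δ ^ 2 ≤ |C| * δ ^ 2 :=
      mul_le_mul_of_nonneg_right (le_abs_self C) (by positivity)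
    exact mul_le_mul_of_nonneg_right h1 hg.le)
  rw [← hD] at hgr
  obtain ⟨J, hJ⟩ := eventually_atTop.1 hgr
  have hj : Tendsto (fun x : ℝ => ⌊Real.log x / Real.log (1 + δ)⌋₊) atTop atTop :=
    tendsto_nat_floor_atTop.comp (Real.tendsto_log_atTop.atTop_div_const hL)
  filter_upwards [hj.eventually_ge_atTop (max J 1), eventually_gt_atTop 1] with x hx hx1
  set j := ⌊Real.log x / Real.log (1 + δ)⌋₊ with hjd
  have hJj : J ≤ j := le_trans (le_max_left _ _) hx
  have hj1 : 1 ≤ j := le_trans (le_max_right _ _) hx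
  have hj0 : (0 : ℝ) < j := by exact_mod_cast hj1
  have hx0 : 0 < x := by linarith
  have hlx : 0 < Real.log x := Real.log_pos hx1
  have h1 : (j : ℝ) * Real.log (1 + δ) ≤ Real.log x := by
    have := Nat.floor_le (a := Real.log x / Real.log (1 + δ)) (by positivity)
    rwa [← hjd, le_div_iff₀ hL] at this
  have h2 : Real.log x < ((j : ℝ) + 1) * Real.log (1 + δ) := by
    have := Nat.lt_floor_add_one (Real.log x / Real.log (1 + δ))
    rwa [← hjd, div_lt_iff₀ hL] at this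
  have h3 : (1 + δ) ^ j ≤ x := by
    rw [← Real.log_le_log_iff (by positivity) hx0, Real.log_pow]
    exact h1
  have h4 : x ≤ (1 + δ) ^ (j + 1) := by
    rw [← Real.log_le_log_iff hx0 (by positivity), Real.log_pow]
    push_cast
    exact h2.le
  set G := x / Real.log x ^ 2 with hG
  have hG0 : 0 < G := by positivity
  set g := M06_g (1 + δ) j with hg
  have hg0 : 0 < g := M06_g_pos hq hj1
  set g1 := M06_g (1 + δ) (j + 1) with hg1
  have hg10 : 0 < g1 := M06_g_pos hq (by omega)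
  -- comparison of G with g and g1
  have h5 : G ≤ (1 + δ) * g := by
    rw [hG, hg]
    unfold M06_g
    rw [← mul_div_assoc, ← pow_succ']
    apply div_le_div₀ (by positivity) h4 (by positivity)
    exact pow_le_pow_left₀ (by positivity) h1 2
  have h6 : g1 ≤ (1 + δ) * G := by
    rw [hG, hg1]
    unfold M06_g
    rw [← mul_div_assoc, pow_succ']
    apply div_le_div₀ (by positivity) (mul_le_mul_of_nonneg_left h3 (by positivity))
      (by positivity)
    push_cast
    exact pow_le_pow_left₀ hlx.le h2.le 2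
  have h7 := hJ j hJj
  have h8 := hJ (j + 1) (by omega)
  rw [← hg] at h7
  rw [← hg1] at h8
  have h9 : f ((1 + δ) ^ j) ≤ f x := hf h3
  have h10 : f x ≤ f ((1 + δ) ^ (j + 1)) := hf h4
  rw [Real.dist_eq]
  have e1 : f x * Real.log x ^ 2 / x - 1 = (f x - G) / G := by
    rw [hG]
    field_simp
  rw [e1, abs_div, abs_of_pos hG0, div_lt_iff₀ hG0]
  have h11 := (abs_le.1 h7).1
  have h12 := (abs_le.1 h8).2
  -- upper
  have hup : f x - G ≤ (2 * D + 1) * δ * G := by
    have : f x ≤ (1 + D * δ) * g1 := by nlinarith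
    have h13 : (1 + D * δ) * g1 ≤ (1 + D * δ) * ((1 + δ) * G) :=
      mul_le_mul_of_nonneg_left h6 (by positivity)
    have h14 : D * δ * δ ≤ D * δ := by
      have : D * δ * δ ≤ D * δ * 1 := mul_le_mul_of_nonneg_left (by linarith) (by positivity)
      linarith
    nlinarith [mul_le_mul_of_nonneg_right h14 hG0.le]
  have hlo : -((2 * D + 1) * δ * G) ≤ f x - G := by
    have h13 : (1 - D * δ) * g ≤ f x := by nlinarith
    have h14 : (1 - D * δ) * ((1 - δ) * G) ≤ (1 - D * δ) * g := by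
      apply mul_le_mul_of_nonneg_left _ (by linarith)
      have : (1 - δ) * G ≤ (1 - δ) * ((1 + δ) * g) :=
        mul_le_mul_of_nonneg_left h5 (by linarith)
      nlinarith [mul_pos (mul_pos hδ hδ) hg0]
    nlinarith [mul_pos (mul_pos (mul_pos hD0 hδ) hδ) hG0, mul_pos (mul_pos hD0 hδ) hG0]
  have hfin : |f x - G| ≤ (2 * D + 1) * δ * G := abs_le.2 ⟨hlo, hup⟩
  exact lt_of_le_of_lt hfin (mul_lt_mul_of_pos_right hEδ hG0)

end BP4
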