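import Pool.Agent.LibBP4.M04
import Pool.Agent.LibBP4.M06

/-!
TASK M07a.  A number outside all the bad sets satisfies the asymptotic formula.  `f x = #{p ∈ prm 0 x :
⌊αp⌋₊ prime}`; `f((1+1/k)M) - f(M) = Nw (1/k) M α`; for each `k ≥ 10` choose `i` with
`a = (1+1/k)^i ≤ α ≤ (1+1/k) a` and `w` from the hypothesis; then `good_window` applies for all large
`M = (1+1/k)^j`, and `final_sum` gives the limit along the reals, hence along `N : ℕ`.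
-/

open MeasureTheory Finset Filter
open scoped Topology

namespace BP4

open MR57 (tw DP trap SW wh ES IsCM Grep)

theorem M07a_mono (α : ℝ) : Monotone (fun x : ℝ =>
    (((prm 0 x).filter (fun p : ℕ => (⌊α * p⌋₊).Prime)).card : ℝ)) := by
  intro x y hxy
  have h : (prm 0 x).filter (fun p : ℕ => (⌊α * p⌋₊).Prime) ⊆
      (prm 0 y).filter (fun p : ℕ => (⌊α * p⌋₊).Prime) := by
    apply filter_subset_filter
    unfold prm win
    apply filter_subset_filter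
    exact Ioc_subset_Ioc_right (Nat.floor_mono hxy)
  show (((prm 0 x).filter (fun p : ℕ => (⌊α * p⌋₊).Prime)).card : ℝ) ≤
    (((prm 0 y).filter (fun p : ℕ => (⌊α * p⌋₊).Prime)).card : ℝ)
  exact_mod_cast card_le_card h

theorem M07a_diff (α δ M : ℝ) (hδ : 0 ≤ δ) (hM : 0 ≤ M) :
    (((prm 0 ((1 + δ) * M)).filter (fun p : ℕ => (⌊α * p⌋₊).Prime)).card : ℝ) -
      (((prm 0 M).filter (fun p : ℕ => (⌊α * p⌋₊).Prime)).card : ℝ) = (Nw δ M α : ℝ) := by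
  have hle : M ≤ (1 + δ) * M := by nlinarith
  have hU : prm 0 ((1 + δ) * M) = prm 0 M ∪ prm M ((1 + δ) * M) := by
    ext p
    rw [mem_union, mem_prm le_rfl, mem_prm le_rfl, mem_prm hM]
    constructor
    · rintro ⟨⟨h1, h2⟩, h3⟩
      by_cases hp : (p : ℝ) ≤ M
      · exact Or.inl ⟨⟨h1, hp⟩, h3⟩
      · exact Or.inr ⟨⟨not_le.mp hp, h2⟩, h3⟩
    · rintro (⟨⟨h1, h2⟩, h3⟩ | ⟨⟨h1, h2⟩, h3⟩)
      · exact ⟨⟨h1, h2.trans hle⟩, h3⟩
      · exact ⟨⟨lt_of_le_of_lt hM h1, h2⟩, h3⟩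
  have hD : Disjoint (prm 0 M) (prm M ((1 + δ) * M)) := by
    rw [disjoint_left]
    intro p hp hp'
    rw [mem_prm le_rfl] at hp
    rw [mem_prm hM] at hp'
    linarith [hp.1.2, hp'.1.1]
  rw [hU, filter_union, card_union_of_disjoint (disjoint_filter_filter hD)]
  unfold Nw
  push_cast
  ring

theorem good_alpha (α : ℝ) (hα : 1 < α)
    (H : ∀ k : ℕ, 10 ≤ k → ∀ i : ℕ, (1 + 1 / (k : ℝ)) ^ i ≤ α →
      α ≤ (1 + 1 / (k : ℝ)) * (1 + 1 / (k : ℝ)) ^ i → ∃ w : ℝ, 0 < w ∧ w ≤ 1 / (k : ℝ) ∧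
      ∀ᶠ j : ℕ in atTop, ∀ l ∈ range (k + 2),
        DD (1 / (k : ℝ)) ((1 + 1 / (k : ℝ)) ^ i) ((1 + 1 / (k : ℝ)) ^ j)
          (1 / (k * (1 + 1 / (k : ℝ)) ^ i * (1 + 1 / (k : ℝ)) ^ j)) w
          (Real.log α - l * (1 / (k * (1 + 1 / (k : ℝ)) ^ i * (1 + 1 / (k : ℝ)) ^ j))) ≤
        (1 / (k : ℝ)) ^ 2 * ((1 + 1 / (k : ℝ)) ^ j / Real.log ((1 + 1 / (k : ℝ)) ^ j)) ^ 2) :
    Tendsto (fun N : ℕ =>
      (((range (N + 1)).filter (fun p : ℕ => p.Prime ∧ (⌊α * p⌋₊).Prime)).card : ℝ) *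
        Real.log N ^ 2 / N) atTop (𝓝 1) := by
  obtain ⟨C, hC, hW⟩ := good_window
  have key := final_sum (fun x : ℝ =>
    (((prm 0 x).filter (fun p : ℕ => (⌊α * p⌋₊).Prime)).card : ℝ)) (M07a_mono α) C (by
    intro k hk
    have hk0 : (0 : ℝ) < k := by
      have : 0 < k := by omega
      exact_mod_cast this
    have hk1 : 0 < 1 / (k : ℝ) := by positivity
    have hy : 1 < 1 + 1 / (k : ℝ) := by linarith
    obtain ⟨i, hi1, hi2⟩ := exists_nat_pow_near hα.le hy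
    have hi3 : α ≤ (1 + 1 / (k : ℝ)) * (1 + 1 / (k : ℝ)) ^ i := by
      rw [← pow_succ']
      exact hi2.le
    obtain ⟨w, hw0, hw1, hw2⟩ := H k hk i hi1 hi3
    have ha : 1 ≤ (1 + 1 / (k : ℝ)) ^ i := one_le_pow₀ hy.le
    obtain ⟨M₀, hM₀, hM⟩ := hW k ((1 + 1 / (k : ℝ)) ^ i) w hk ha hw0 hw1
    have ht : ∀ᶠ j : ℕ in atTop, M₀ ≤ (1 + 1 / (k : ℝ)) ^ j :=
      (tendsto_pow_atTop_atTop_of_one_lt hy).eventually_ge_atTop M₀
    filter_upwards [hw2, ht] with j hj1 hj2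
    have h1 := hM ((1 + 1 / (k : ℝ)) ^ j) α hj2 hi1 hi3 hj1
    have h2 := M07a_diff α (1 / (k : ℝ)) ((1 + 1 / (k : ℝ)) ^ j) hk1.le (by positivity)
    rw [← pow_succ'] at h2
    rw [h2]
    exact h1)
  have key2 := key.comp tendsto_natCast_atTop_atTop
  refine key2.congr ?_
  intro N
  simp only [Function.comp]
  have hs : (prm 0 (N : ℝ)).filter (fun p : ℕ => (⌊α * p⌋₊).Prime) =
      (range (N + 1)).filter (fun p : ℕ => p.Prime ∧ (⌊α * p⌋₊).Prime) := by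
    ext p
    rw [mem_filter, mem_prm le_rfl, mem_filter, mem_range]
    constructor
    · rintro ⟨⟨⟨h1, h2⟩, h3⟩, h4⟩
      have h5 : p ≤ N := by exact_mod_cast h2
      exact ⟨by omega, h3, h4⟩
    · rintro ⟨h1, h2, h3⟩
      have h5 : p ≤ N := by omega
      exact ⟨⟨⟨by exact_mod_cast h2.pos, by exact_mod_cast h5⟩, h2⟩, h3⟩
  rw [hs]

end BP4
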