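import Pool.Agent.LibBP4.Defs

/-!
TASK M07b.  The exponential function does not increase the dimension of a bounded set
(`LipschitzOnWith.dimH_image_le`; `Real.exp` is Lipschitz on `(-∞, B]`).
-/

open MeasureTheory Finset Filter
open scoped Topology

namespace BP4

open MR57 (tw DP trap SW wh ES IsCM Grep)

theorem dimH_exp_le (S : Set ℝ) (B : ℝ) (hS : ∀ x ∈ S, x ≤ B) :
    dimH (Real.exp '' S) ≤ dimH S := by
  have h1 : LipschitzOnWith (Real.exp B).toNNReal Real.exp (Set.Iic B) := by
    refine Convex.lipschitzOnWith_of_nnnorm_deriv_le (fun x _ => Real.differentiableAt_exp)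
      (fun x hx => ?_) (convex_Iic B)
    rw [Real.deriv_exp, ← NNReal.coe_le_coe, coe_nnnorm, Real.coe_toNNReal _ (Real.exp_pos _).le,
      Real.norm_eq_abs, abs_of_pos (Real.exp_pos _)]
    exact Real.exp_le_exp.2 hx
  exact (h1.mono hS).dimH_image_le

end BP4
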