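import Pool.Agent.LibBP4.M05
import Pool.Agent.LibBP4.M07a
import Pool.Agent.LibBP4.M07b

/-!
M07.  The theorem (assembly).
-/

open MeasureTheory Finset Filter
open scoped Topology

namespace BP4

open MR57 (tw DP trap SW wh ES IsCM Grep)

theorem main : dimH {α : ℝ | 1 < α ∧
    ¬ Tendsto (fun N : ℕ =>
      (((range (N + 1)).filter (fun p : ℕ => p.Prime ∧ (⌊α * p⌋₊).Prime)).card : ℝ) *
        Real.log N ^ 2 / N) atTop (𝓝 1)} < 1 := by
  obtain ⟨s, hs0, hs1, H⟩ := bad_dim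
  choose! w hw using H
  set B : ℕ → ℕ → Set ℝ := fun k i => {β : ℝ | 10 ≤ k ∧ Real.log ((1 + 1 / (k : ℝ)) ^ i) ≤ β ∧
    β ≤ Real.log ((1 + 1 / (k : ℝ)) ^ i) + 1 ∧ ∃ᶠ j : ℕ in atTop, ∃ l ∈ range (k + 2),
      (1 / (k : ℝ)) ^ 2 * ((1 + 1 / (k : ℝ)) ^ j / Real.log ((1 + 1 / (k : ℝ)) ^ j)) ^ 2 <
        DD (1 / (k : ℝ)) ((1 + 1 / (k : ℝ)) ^ i) ((1 + 1 / (k : ℝ)) ^ j)
          (1 / (k * (1 + 1 / (k : ℝ)) ^ i * (1 + 1 / (k : ℝ)) ^ j)) (w k ((1 + 1 / (k : ℝ)) ^ i))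
          (β - l * (1 / (k * (1 + 1 / (k : ℝ)) ^ i * (1 + 1 / (k : ℝ)) ^ j)))} with hB
  have ha : ∀ k i : ℕ, (1 : ℝ) ≤ (1 + 1 / (k : ℝ)) ^ i := fun k i =>
    one_le_pow₀ (by
      have : (0 : ℝ) ≤ 1 / (k : ℝ) := by positivity
      linarith)
  have hdim : ∀ k i : ℕ, dimH (Real.exp '' B k i) ≤ ENNReal.ofReal s := by
    intro k i
    by_cases hk : 10 ≤ k
    · refine (dimH_exp_le (B k i) (Real.log ((1 + 1 / (k : ℝ)) ^ i) + 1)
        (fun x hx => hx.2.2.1)).trans (le_trans (dimH_mono ?_) (hw k _ hk (ha k i)).2.2)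
      rintro β ⟨_, h2, h3, h4⟩
      exact ⟨h2, h3, h4⟩
    · have : B k i = ∅ := by
        ext β
        simp only [hB, Set.mem_ofPred_eq, Set.mem_empty_iff_false, iff_false]
        exact fun h => hk h.1
      rw [this, Set.image_empty, dimH_empty]
      exact bot_le
  have hsub : {α : ℝ | 1 < α ∧
      ¬ Tendsto (fun N : ℕ =>
        (((range (N + 1)).filter (fun p : ℕ => p.Prime ∧ (⌊α * p⌋₊).Prime)).card : ℝ) *
          Real.log N ^ 2 / N) atTop (𝓝 1)} ⊆ ⋃ k : ℕ, ⋃ i : ℕ, Real.exp '' B k i := by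
    rintro α ⟨hα, hnot⟩
    by_contra hα2
    apply hnot
    apply good_alpha α hα
    intro k hk i hi1 hi2
    refine ⟨w k ((1 + 1 / (k : ℝ)) ^ i), (hw k _ hk (ha k i)).1, (hw k _ hk (ha k i)).2.1, ?_⟩
    by_contra hfr
    apply hα2
    rw [Set.mem_iUnion]
    refine ⟨k, ?_⟩
    rw [Set.mem_iUnion]
    refine ⟨i, Real.log α, ?_, Real.exp_log (by linarith)⟩
    have ha0 : (0 : ℝ) < (1 + 1 / (k : ℝ)) ^ i := lt_of_lt_of_le one_pos (ha k i)
    have hk0 : (0 : ℝ) < k := by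
      have : (10 : ℝ) ≤ k := by exact_mod_cast hk
      linarith
    have hk1 : 1 / (k : ℝ) ≤ 1 := by
      rw [div_le_one hk0]
      have : (10 : ℝ) ≤ k := by exact_mod_cast hk
      linarith
    refine ⟨hk, Real.log_le_log ha0 hi1, ?_, ?_⟩
    · have h1 : Real.log α ≤ Real.log ((1 + 1 / (k : ℝ)) * (1 + 1 / (k : ℝ)) ^ i) :=
        Real.log_le_log (by linarith) hi2
      have h2 : (0 : ℝ) < 1 + 1 / (k : ℝ) := by positivity
      rw [Real.log_mul h2.ne' ha0.ne'] at h1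
      have h3 : Real.log (1 + 1 / (k : ℝ)) ≤ 1 + 1 / (k : ℝ) - 1 :=
        Real.log_le_sub_one_of_pos h2
      linarith
    · intro hev
      apply hfr
      refine hev.mono ?_
      intro j hj l hl
      by_contra hlt
      exact hj ⟨l, hl, not_le.1 hlt⟩
  calc dimH _ ≤ dimH (⋃ k : ℕ, ⋃ i : ℕ, Real.exp '' B k i) := dimH_mono hsub
    _ ≤ ENNReal.ofReal s := by
        rw [dimH_iUnion]
        refine iSup_le fun k => ?_
        rw [dimH_iUnion]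
        exact iSup_le fun i => hdim k i
    _ < 1 := by
        rw [← ENNReal.ofReal_one]
        exact (ENNReal.ofReal_lt_ofReal_iff one_pos).2 hs1

end BP4
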