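import Pool.Agent.LibBP4.Defs

/-!
TASK R01b.  Properties of the coefficients `bco` (`y = z(1+e)^J`, `z_j = z(1+e)^j`; each prime `p ∈ (z, y]` has
exactly one `j < J` with `p ∈ (z_j, z_{j+1}]`).  (1) support.  (2) `bco n` is a real number between
`0` and `∑_{p ∣ n, z < p ≤ y} 1/(om(n/p)+1) ≤ ∑_{p ∣ n, z < p ≤ y} 1/om(n) ≤ 1`, since every prime
counted in `om n` except possibly `p` is counted in `om (n/p)`.  (3) if `om z y n = 0` the sum is
empty.  (4) for rough `n ∈ ((1+e)M, (1+δ)M]` with no `p² ∣ n`, `p > z` prime: all `p` count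
(`n/p ∈ (M/z_j, (1+δ)M/z_j]`), `n/p` is rough and `om(n/p) + 1 = om n`, so `bco n = om n/om n = 1`.
-/

open MeasureTheory Finset Filter
open scoped Topology

namespace BP4

open MR57 (tw DP trap SW wh ES IsCM Grep)

open Classical in
/-- real version of `cf` -/
noncomputable def r01b_cr (z y : ℝ) (m : ℕ) : ℝ := if Rough z m then 1 / ((om z y m : ℝ) + 1) else 0

theorem r01b_cf (z y : ℝ) (m : ℕ) : cf z y m = (r01b_cr z y m : ℂ) := by
  unfold cf r01b_cr
  split_ifs
  · push_cast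
    rfl
  · simp

theorem r01b_cr_nonneg (z y : ℝ) (m : ℕ) : 0 ≤ r01b_cr z y m := by
  unfold r01b_cr
  split_ifs
  · positivity
  · exact le_rfl

theorem r01b_zj_le (z e : ℝ) (hz : 2 ≤ z) (he : 0 < e) (j : ℕ) : z ≤ z * (1 + e) ^ j := by
  have h : (1 : ℝ) ≤ (1 + e) ^ j := one_le_pow₀ (by linarith)
  nlinarith

theorem r01b_zj_mono (z e : ℝ) (hz : 2 ≤ z) (he : 0 < e) {j k : ℕ} (h : j ≤ k) :
    z * (1 + e) ^ j ≤ z * (1 + e) ^ k := by
  have h : (1 + e) ^ j ≤ (1 + e) ^ k := pow_le_pow_right₀ (by linarith) h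
  have hz0 : 0 ≤ z := by linarith
  exact mul_le_mul_of_nonneg_left h hz0

theorem r01b_mem (z e : ℝ) (hz : 2 ≤ z) (he : 0 < e) {J j p : ℕ} (hj : j < J)
    (hp : p ∈ prm (z * (1 + e) ^ j) ((1 + e) * (z * (1 + e) ^ j))) :
    p ∈ prm z (z * (1 + e) ^ J) := by
  have h1 := r01b_zj_le z e hz he j
  rw [mem_prm (by linarith)] at hp
  rw [mem_prm (by linarith)]
  refine ⟨⟨by linarith [hp.1.1], hp.1.2.trans ?_⟩, hp.2⟩
  have h2 := r01b_zj_mono z e hz he (Nat.succ_le_of_lt hj)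
  rw [pow_succ] at h2
  linarith

theorem r01b_sum (z e : ℝ) (hz : 2 ≤ z) (he : 0 < e) (J : ℕ) (g : ℕ → ℝ) :
    ∑ j ∈ range J, ∑ p ∈ prm (z * (1 + e) ^ j) ((1 + e) * (z * (1 + e) ^ j)), g p =
      ∑ p ∈ prm z (z * (1 + e) ^ J), g p := by
  induction J with
  | zero =>
    have h : prm z (z * (1 + e) ^ 0) = ∅ := by
      ext p
      rw [mem_prm (by linarith)]
      simp only [pow_zero, mul_one, notMem_empty, iff_false, not_and]
      intro h
      linarith [h.1, h.2]
    rw [h]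
    simp
  | succ J ih =>
    rw [sum_range_succ, ih]
    have h1 := r01b_zj_le z e hz he J
    have hE : (1 + e) * (z * (1 + e) ^ J) = z * (1 + e) ^ (J + 1) := by ring
    have h2 : z * (1 + e) ^ J ≤ z * (1 + e) ^ (J + 1) :=
      r01b_zj_mono z e hz he (Nat.le_succ J)
    rw [hE]
    have hd : Disjoint (prm z (z * (1 + e) ^ J)) (prm (z * (1 + e) ^ J) (z * (1 + e) ^ (J + 1))) := by
      rw [Finset.disjoint_left]
      intro p hp hp'
      rw [mem_prm (by linarith)] at hp hp'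
      linarith [hp.1.2, hp'.1.1]
    rw [← sum_union hd]
    apply sum_congr _ (fun _ _ => rfl)
    ext p
    rw [mem_union, mem_prm (by linarith), mem_prm (by linarith), mem_prm (by linarith)]
    constructor
    · rintro (h | h)
      · exact ⟨⟨h.1.1, h.1.2.trans h2⟩, h.2⟩
      · exact ⟨⟨by linarith [h.1.1], h.1.2⟩, h.2⟩
    · intro h
      by_cases hp : (p : ℝ) ≤ z * (1 + e) ^ J
      · exact Or.inl ⟨⟨h.1.1, hp⟩, h.2⟩
      · exact Or.inr ⟨⟨not_le.1 hp, h.1.2⟩, h.2⟩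

theorem r01b_om_le (z y : ℝ) (n p : ℕ) (hp : p.Prime) (hpn : p ∣ n) :
    om z y n ≤ om z y (n / p) + 1 := by
  unfold om
  have hsub : (prm z y).filter (fun q => q ∣ n) ⊆ insert p ((prm z y).filter (fun q => q ∣ n / p)) := by
    intro q hq
    rw [mem_filter] at hq
    rw [mem_insert, mem_filter]
    by_cases hqp : q = p
    · exact Or.inl hqp
    · right
      refine ⟨hq.1, ?_⟩
      have hqq : q.Prime := by
        unfold prm at hq
        rw [mem_filter] at hq
        exact hq.1.2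
      have h1 : q ∣ p * (n / p) := by
        rw [Nat.mul_div_cancel' hpn]
        exact hq.2
      rcases (Nat.Prime.dvd_mul hqq).1 h1 with h | h
      · exact absurd ((Nat.prime_dvd_prime_iff_eq hqq hp).1 h) hqp
      · exact h
  exact (card_le_card hsub).trans (card_insert_le _ _)

theorem r01b_om_eq (z y : ℝ) (n p : ℕ) (hp : p.Prime) (hpz : p ∈ prm z y) (hpn : p ∣ n)
    (hp2 : ¬ p ^ 2 ∣ n) :
    om z y n = om z y (n / p) + 1 := by
  unfold om
  have hne : p ∉ (prm z y).filter (fun q => q ∣ n / p) := by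
    rw [mem_filter]
    rintro ⟨_, h⟩
    apply hp2
    rw [pow_two]
    obtain ⟨k, hk⟩ := h
    refine ⟨k, ?_⟩
    rw [mul_assoc, ← hk, Nat.mul_div_cancel' hpn]
  rw [← card_insert_of_notMem hne]
  congr 1
  ext q
  rw [mem_filter, mem_insert, mem_filter]
  constructor
  · intro hq
    by_cases hqp : q = p
    · exact Or.inl hqp
    · right
      refine ⟨hq.1, ?_⟩
      have hqq : q.Prime := by
        unfold prm at hq
        rw [mem_filter] at hq
        exact hq.1.2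
      have h1 : q ∣ p * (n / p) := by
        rw [Nat.mul_div_cancel' hpn]
        exact hq.2
      rcases (Nat.Prime.dvd_mul hqq).1 h1 with h | h
      · exact absurd ((Nat.prime_dvd_prime_iff_eq hqq hp).1 h) hqp
      · exact h
  · rintro (h | h)
    · rw [h]
      exact ⟨hpz, hpn⟩
    · exact ⟨h.1, h.2.trans (Nat.div_dvd_of_dvd hpn)⟩

theorem r01b_om_pos (z y : ℝ) (n p : ℕ) (hpz : p ∈ prm z y) (hpn : p ∣ n) : 0 < om z y n := by
  unfold om
  exact card_pos.2 ⟨p, mem_filter.2 ⟨hpz, hpn⟩⟩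

theorem r01b_total (z y : ℝ) (n : ℕ) :
    ∑ p ∈ prm z y, (if p ∣ n then 1 / (om z y n : ℝ) else 0) = (om z y n : ℝ) * (1 / (om z y n : ℝ)) := by
  rw [← sum_filter, sum_const, nsmul_eq_mul]
  rfl

theorem r01b_bco (M δ z e : ℝ) (J n : ℕ) :
    bco M δ z e J n = ((∑ j ∈ range J, ∑ p ∈ prm (z * (1 + e) ^ j) ((1 + e) * (z * (1 + e) ^ j)),
      (if p ∣ n ∧ n / p ∈ win (M / (z * (1 + e) ^ j)) ((1 + δ) * (M / (z * (1 + e) ^ j))) then
        r01b_cr z (z * (1 + e) ^ J) (n / p) else 0) : ℝ) : ℂ) := by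
  unfold bco
  rw [Complex.ofReal_sum]
  apply sum_congr rfl
  intro j _
  rw [Complex.ofReal_sum]
  apply sum_congr rfl
  intro p _
  split_ifs
  · rw [r01b_cf]
  · simp

theorem bco_supp (M δ z e : ℝ) (J n : ℕ) (hM : 0 < M) (hδ : 0 < δ) (hz : 2 ≤ z) (he : 0 < e)
    (h : bco M δ z e J n ≠ 0) : Rough z n ∧ M < n ∧ (n : ℝ) ≤ (1 + δ) * (1 + e) * M := by
  unfold bco at h
  obtain ⟨j, hj, h⟩ := exists_ne_zero_of_sum_ne_zero h
  obtain ⟨p, hp, h⟩ := exists_ne_zero_of_sum_ne_zero h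
  have hc : p ∣ n ∧ n / p ∈ win (M / (z * (1 + e) ^ j)) ((1 + δ) * (M / (z * (1 + e) ^ j))) := by
    by_contra hc
    rw [if_neg hc] at h
    exact h rfl
  rw [if_pos hc] at h
  have hr : Rough z (n / p) := by
    by_contra hr
    unfold cf at h
    rw [if_neg hr] at h
    exact h rfl
  obtain ⟨hpn, hw⟩ := hc
  have hzj := r01b_zj_le z e hz he j
  set x := z * (1 + e) ^ j with hx
  have hx0 : 0 < x := by linarith
  have hMx : 0 ≤ M / x := by positivity
  rw [mem_prm hx0.le] at hp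
  rw [mem_win hMx] at hw
  obtain ⟨⟨hp1, hp2⟩, hpp⟩ := hp
  obtain ⟨hw1, hw2⟩ := hw
  have hmpos : (0 : ℝ) < ((n / p : ℕ) : ℝ) := lt_of_le_of_lt hMx hw1
  have hnp : n = p * (n / p) := (Nat.mul_div_cancel' hpn).symm
  have hnR : (n : ℝ) = (p : ℝ) * ((n / p : ℕ) : ℝ) := by
    rw [← Nat.cast_mul, ← hnp]
  refine ⟨⟨?_, ?_⟩, ?_, ?_⟩
  · intro hn0
    rw [hn0] at hmpos
    simp at hmpos
  · intro q hq hqn
    rw [hnp] at hqn
    rcases (Nat.Prime.dvd_mul hq).1 hqn with hh | hh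
    · rw [(Nat.prime_dvd_prime_iff_eq hq hpp).1 hh]
      linarith
    · exact hr.2 q hq hh
  · rw [hnR]
    calc M = x * (M / x) := by field_simp
      _ < p * (M / x) := mul_lt_mul_of_pos_right hp1 (by positivity)
      _ ≤ p * ((n / p : ℕ) : ℝ) := by
        apply mul_le_mul_of_nonneg_left hw1.le
        positivity
  · rw [hnR]
    calc (p : ℝ) * ((n / p : ℕ) : ℝ) ≤ ((1 + e) * x) * ((1 + δ) * (M / x)) := by
          apply mul_le_mul hp2 hw2 hmpos.le
          positivity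
      _ = (1 + δ) * (1 + e) * M := by field_simp

theorem bco_range (M δ z e : ℝ) (J n : ℕ) (hM : 0 < M) (hδ : 0 < δ) (hz : 2 ≤ z) (he : 0 < e)
    (hn : n ≠ 0) : ∃ b : ℝ, bco M δ z e J n = b ∧ 0 ≤ b ∧ b ≤ 1 := by
  refine ⟨_, r01b_bco M δ z e J n, ?_, ?_⟩
  · apply sum_nonneg
    intro j _
    apply sum_nonneg
    intro p _
    split_ifs
    · exact r01b_cr_nonneg _ _ _
    · exact le_rfl
  · have h1 : ∑ j ∈ range J, ∑ p ∈ prm (z * (1 + e) ^ j) ((1 + e) * (z * (1 + e) ^ j)),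
        (if p ∣ n ∧ n / p ∈ win (M / (z * (1 + e) ^ j)) ((1 + δ) * (M / (z * (1 + e) ^ j))) then
          r01b_cr z (z * (1 + e) ^ J) (n / p) else 0) ≤
        ∑ j ∈ range J, ∑ p ∈ prm (z * (1 + e) ^ j) ((1 + e) * (z * (1 + e) ^ j)),
          (if p ∣ n then 1 / (om z (z * (1 + e) ^ J) n : ℝ) else 0) := by
      apply sum_le_sum
      intro j hj
      apply sum_le_sum
      intro p hp
      have hpz := r01b_mem z e hz he (mem_range.1 hj) hp
      have hpp : p.Prime := by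
        unfold prm at hp
        rw [mem_filter] at hp
        exact hp.2
      by_cases hpn : p ∣ n
      · rw [if_pos hpn]
        have hpos := r01b_om_pos z (z * (1 + e) ^ J) n p hpz hpn
        have hle := r01b_om_le z (z * (1 + e) ^ J) n p hpp hpn
        have hposR : (0 : ℝ) < (om z (z * (1 + e) ^ J) n : ℝ) := by exact_mod_cast hpos
        have hleR : (om z (z * (1 + e) ^ J) n : ℝ) ≤ (om z (z * (1 + e) ^ J) (n / p) : ℝ) + 1 := by
          exact_mod_cast hle
        split_ifs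
        · unfold r01b_cr
          split_ifs
          · exact one_div_le_one_div_of_le hposR hleR
          · positivity
        · positivity
      · rw [if_neg hpn, if_neg (fun h => hpn h.1)]
    refine h1.trans ?_
    rw [r01b_sum z e hz he J (fun p => if p ∣ n then 1 / (om z (z * (1 + e) ^ J) n : ℝ) else 0),
      r01b_total]
    by_cases h0 : (om z (z * (1 + e) ^ J) n : ℝ) = 0
    · rw [h0]
      simp
    · rw [mul_one_div_cancel h0]

theorem bco_zero (M δ z e : ℝ) (J n : ℕ) (hM : 0 < M) (hδ : 0 < δ) (hz : 2 ≤ z) (he : 0 < e)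
    (hn : n ≠ 0) (h : om z (z * (1 + e) ^ J) n = 0) : bco M δ z e J n = 0 := by
  unfold bco
  apply sum_eq_zero
  intro j hj
  apply sum_eq_zero
  intro p hp
  have hpz := r01b_mem z e hz he (mem_range.1 hj) hp
  rw [if_neg]
  rintro ⟨hpn, _⟩
  have hpos := r01b_om_pos z (z * (1 + e) ^ J) n p hpz hpn
  omega

theorem bco_one (M δ z e : ℝ) (J n : ℕ) (hM : 0 < M) (hδ : 0 < δ) (hz : 2 ≤ z) (he : 0 < e)
    (hn : Rough z n) (h1 : (1 + e) * M < n) (h2 : (n : ℝ) ≤ (1 + δ) * M)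
    (h3 : ¬ ∃ p : ℕ, p.Prime ∧ z < p ∧ p ^ 2 ∣ n) (h : om z (z * (1 + e) ^ J) n ≠ 0) :
    bco M δ z e J n = 1 := by
  rw [r01b_bco]
  have hS : ∑ j ∈ range J, ∑ p ∈ prm (z * (1 + e) ^ j) ((1 + e) * (z * (1 + e) ^ j)),
        (if p ∣ n ∧ n / p ∈ win (M / (z * (1 + e) ^ j)) ((1 + δ) * (M / (z * (1 + e) ^ j))) then
          r01b_cr z (z * (1 + e) ^ J) (n / p) else 0) =
        ∑ j ∈ range J, ∑ p ∈ prm (z * (1 + e) ^ j) ((1 + e) * (z * (1 + e) ^ j)),
          (if p ∣ n then 1 / (om z (z * (1 + e) ^ J) n : ℝ) else 0) := by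
    apply sum_congr rfl
    intro j hj
    apply sum_congr rfl
    intro p hp
    have hpz := r01b_mem z e hz he (mem_range.1 hj) hp
    by_cases hpn : p ∣ n
    · have hzj := r01b_zj_le z e hz he j
      have hx0 : 0 < z * (1 + e) ^ j := by linarith
      have hMx : 0 ≤ M / (z * (1 + e) ^ j) := by positivity
      rw [mem_prm hx0.le] at hp
      obtain ⟨⟨hp1, hp2⟩, hpp⟩ := hp
      have hzp : z < p := by linarith
      have hp2n : ¬ p ^ 2 ∣ n := fun hh => h3 ⟨p, hpp, hzp, hh⟩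
      have hnp : n = p * (n / p) := (Nat.mul_div_cancel' hpn).symm
      have hnR : (n : ℝ) = (p : ℝ) * ((n / p : ℕ) : ℝ) := by
        rw [← Nat.cast_mul, ← hnp]
      have hp0 : (0 : ℝ) < p := by linarith
      have hq : ((n / p : ℕ) : ℝ) = n / p := by
        rw [hnR]
        field_simp
      have hw : n / p ∈ win (M / (z * (1 + e) ^ j)) ((1 + δ) * (M / (z * (1 + e) ^ j))) := by
        rw [mem_win hMx, hq]
        constructor
        · rw [div_lt_div_iff₀ hx0 hp0]
          calc M * p ≤ M * ((1 + e) * (z * (1 + e) ^ j)) := by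
                apply mul_le_mul_of_nonneg_left hp2 hM.le
            _ = ((1 + e) * M) * (z * (1 + e) ^ j) := by ring
            _ < n * (z * (1 + e) ^ j) := mul_lt_mul_of_pos_right h1 hx0
        · rw [← mul_div_assoc]
          rw [div_le_div_iff₀ hp0 hx0]
          calc (n : ℝ) * (z * (1 + e) ^ j) ≤ ((1 + δ) * M) * (z * (1 + e) ^ j) := by
                apply mul_le_mul_of_nonneg_right h2 hx0.le
            _ ≤ ((1 + δ) * M) * p := by
                apply mul_le_mul_of_nonneg_left hp1.le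
                positivity
      rw [if_pos ⟨hpn, hw⟩, if_pos hpn]
      have hrough : Rough z (n / p) := by
        refine ⟨?_, ?_⟩
        · intro hh
          rw [hh, mul_zero] at hnp
          exact hn.1 hnp
        · intro q hqq hqn
          exact hn.2 q hqq (hqn.trans (Nat.div_dvd_of_dvd hpn))
      unfold r01b_cr
      rw [if_pos hrough, r01b_om_eq z (z * (1 + e) ^ J) n p hpp hpz hpn hp2n]
      push_cast
      rfl
    · rw [if_neg hpn, if_neg (fun h => hpn h.1)]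
  rw [hS, r01b_sum z e hz he J (fun p => if p ∣ n then 1 / (om z (z * (1 + e) ^ J) n : ℝ) else 0),
      r01b_total]
  have h0 : (om z (z * (1 + e) ^ J) n : ℝ) ≠ 0 := by exact_mod_cast h
  rw [mul_one_div_cancel h0]
  simp

end BP4
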