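import Pool.Agent.LibBP4.Defs

/-!
TASK R01c.  A `z`-rough `n ∈ (M, 2M]`, `2M ≤ y²`, `y ≤ M`, is prime iff it has no prime factor in `(z, y]`: a
prime `n > M ≥ y` has only itself as prime factor; a composite `n` has a prime factor
`≤ √n ≤ y` (`Nat.minFac_sq_le_self`), which is `> z`.
-/

open MeasureTheory Finset Filter
open scoped Topology

namespace BP4

open MR57 (tw DP trap SW wh ES IsCM Grep)

theorem prime_iff_om (M z y : ℝ) (n : ℕ) (hM : 2 ≤ M) (hz : 2 ≤ z) (hn : Rough z n) (h1 : M < n)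
    (h2 : (n : ℝ) ≤ 2 * M) (hy1 : y ≤ M) (hy2 : 2 * M ≤ y ^ 2) (hy0 : 0 ≤ y) :
    n.Prime ↔ om z y n = 0 := by
  have hz0 : 0 ≤ z := by linarith
  unfold om
  rw [card_eq_zero, filter_eq_empty_iff]
  constructor
  · intro hp q hq hqn
    rw [mem_prm hz0] at hq
    have h3 : q = n := (Nat.prime_dvd_prime_iff_eq hq.2 hp).1 hqn
    rw [h3] at hq
    linarith [hq.1.2]
  · intro h
    by_contra hp
    have hn0 : 0 < n := Nat.pos_of_ne_zero hn.1
    have hn1 : n ≠ 1 := by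
      rintro rfl
      norm_num at h1
      linarith
    have h3 : n.minFac ^ 2 ≤ n := Nat.minFac_sq_le_self hn0 hp
    have hq := Nat.minFac_prime hn1
    have hqn := Nat.minFac_dvd n
    have h4 : ((n.minFac : ℝ)) ^ 2 ≤ y ^ 2 := by
      have : ((n.minFac : ℝ)) ^ 2 ≤ (n : ℝ) := by exact_mod_cast h3
      linarith
    have h5 : (n.minFac : ℝ) ≤ y := by
      exact (sq_le_sq₀ (by positivity) hy0).1 h4
    exact h ((mem_prm hz0).2 ⟨⟨hn.2 _ hq hqn, h5⟩, hq⟩) hqn

end BP4
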