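import Pool.Agent.LibBP4.R01a
import Pool.Agent.LibBP4.R01b
import Pool.Agent.LibBP4.R01c

/-!
TASK R01.  Combinatorial decomposition of the primes in `(M, (1+δ)M]` (assembly).  Put `y = z(1+e)^J` and
`r n = 1_{prime, n ≤ (1+δ)M} - 1_{rough, n ≤ (1+δ)M} + bco n` for `n ∈ Uset`, `0` otherwise.  Compare
the coefficients of `n^{-it}` for `n ∈ win M ((1+δ)(1+e)M)` (`bco_sum`).  Outside `Uset` (rough,
`(1+e)M < n ≤ (1+δ)M`, no large square): by `prime_iff_om`, `bco_zero`, `bco_one` the coefficient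
vanishes; non-rough `n`: all vanish (`bco_supp`; a prime `n > M ≥ z` is rough).  `|r| ≤ 1`:
`bco ∈ [0,1]`, and for a prime `n ∈ (M, (1+δ)M]` `bco n = 0` (`om n = 0`).
-/

open MeasureTheory Finset Filter
open scoped Topology

namespace BP4

open MR57 (tw DP trap SW wh ES IsCM Grep)

/-- A sum over a subset as a sum with an indicator. -/
theorem r01_ind (W S : Finset ℕ) (hS : S ⊆ W) (f : ℕ → ℂ) :
    ∑ n ∈ S, f n = ∑ n ∈ W, (if n ∈ S then (1 : ℂ) else 0) * f n := by
  rw [← sum_subset hS]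
  · apply sum_congr rfl
    intro n hn
    rw [if_pos hn, one_mul]
  · intro n _ hn
    rw [if_neg hn, zero_mul]

theorem decomp (M δ z e : ℝ) (J : ℕ) (hM : 2 ≤ M) (hδ : 0 < δ) (hδ1 : δ ≤ 1) (hz : 2 ≤ z)
    (he : 0 < e) (heδ : e ≤ δ) (hy1 : z * (1 + e) ^ J ≤ M) (hy2 : 2 * M ≤ (z * (1 + e) ^ J) ^ 2) :
    ∃ r : ℕ → ℂ, (∀ n, ‖r n‖ ≤ 1) ∧ ∀ t : ℝ,
      PP δ M t = DP (rgh z M ((1 + δ) * M)) (fun _ => 1) t -
        (∑ j ∈ range J, PP e (z * (1 + e) ^ j) t *
          DP (win (M / (z * (1 + e) ^ j)) ((1 + δ) * (M / (z * (1 + e) ^ j))))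
            (cf z (z * (1 + e) ^ J)) t) + DP (Uset z e δ M) r t := by
  classical
  have hM0 : 0 < M := by linarith
  have hzM : z ≤ M := (r01b_zj_le z e hz he J).trans hy1
  have hy0 : 0 ≤ z * (1 + e) ^ J := by positivity
  have h2M : (1 + δ) * M ≤ 2 * M := by nlinarith
  have hWle : (1 + δ) * M ≤ (1 + δ) * (1 + e) * M := by
    have : 0 ≤ (1 + δ) * M := by positivity
    nlinarith
  have hprough : ∀ n : ℕ, n.Prime → M < n → Rough z n := by
    intro n hn hMn
    refine ⟨hn.ne_zero, ?_⟩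
    intro p hp hpn
    rw [(Nat.prime_dvd_prime_iff_eq hp hn).1 hpn]
    linarith
  refine ⟨fun n => if n ∈ Uset z e δ M then
    (if n ∈ prm M ((1 + δ) * M) then (1 : ℂ) else 0) -
      (if n ∈ rgh z M ((1 + δ) * M) then (1 : ℂ) else 0) + bco M δ z e J n else 0, ?_, ?_⟩
  · intro n
    dsimp only
    split_ifs with hU hp hr hr
    · -- prime
      have hp' := (mem_prm hM0.le).1 hp
      have hom := (prime_iff_om M z (z * (1 + e) ^ J) n hM hz (hprough n hp'.2 hp'.1.1) hp'.1.1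
        (hp'.1.2.trans h2M) hy1 hy2 hy0).1 hp'.2
      rw [bco_zero M δ z e J n hM0 hδ hz he hp'.2.ne_zero hom]
      simp
    · exfalso
      have hp' := (mem_prm hM0.le).1 hp
      exact hr ((mem_rgh hM0.le).2 ⟨hp'.1, hprough n hp'.2 hp'.1.1⟩)
    · have hn0 : n ≠ 0 := ((mem_rgh hM0.le).1 hr).2.1
      obtain ⟨b, hb, hb0, hb1⟩ := bco_range M δ z e J n hM0 hδ hz he hn0
      rw [hb]
      have : (0 : ℂ) - 1 + (b : ℂ) = ((b - 1 : ℝ) : ℂ) := by
        push_cast
        ring
      rw [this, Complex.norm_real, Real.norm_eq_abs, abs_le]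
      constructor <;> linarith
    · have hn0 : n ≠ 0 := by
        unfold Uset at hU
        rw [mem_filter, mem_rgh hM0.le] at hU
        exact hU.1.2.1
      obtain ⟨b, hb, hb0, hb1⟩ := bco_range M δ z e J n hM0 hδ hz he hn0
      rw [hb]
      have : (0 : ℂ) - 0 + (b : ℂ) = ((b : ℝ) : ℂ) := by
        ring
      rw [this, Complex.norm_real, Real.norm_eq_abs, abs_le]
      constructor <;> linarith
    · simp
  · intro t
    rw [bco_sum M δ z e J hM0 hδ (by linarith) he t]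
    unfold PP MR57.DP
    have hS1 : prm M ((1 + δ) * M) ⊆ win M ((1 + δ) * (1 + e) * M) := by
      intro n hn
      rw [mem_prm hM0.le] at hn
      rw [mem_win hM0.le]
      exact ⟨hn.1.1, hn.1.2.trans hWle⟩
    have hS2 : rgh z M ((1 + δ) * M) ⊆ win M ((1 + δ) * (1 + e) * M) := by
      intro n hn
      rw [mem_rgh hM0.le] at hn
      rw [mem_win hM0.le]
      exact ⟨hn.1.1, hn.1.2.trans hWle⟩
    have hS3 : Uset z e δ M ⊆ win M ((1 + δ) * (1 + e) * M) := by
      intro n hn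
      unfold Uset at hn
      rw [mem_filter, mem_rgh hM0.le] at hn
      rw [mem_win hM0.le]
      exact hn.1.1
    rw [r01_ind _ _ hS1, r01_ind _ _ hS2, r01_ind _ _ hS3, ← sum_sub_distrib, ← sum_add_distrib]
    apply sum_congr rfl
    intro n hn
    have hn' := (mem_win hM0.le).1 hn
    by_cases hU : n ∈ Uset z e δ M
    · simp only [if_pos hU]
      ring
    · simp only [if_neg hU]
      by_cases hr : Rough z n
      · have hnU : ¬ ((n : ℝ) ≤ (1 + e) * M ∨ (1 + δ) * M < n ∨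
            ∃ p : ℕ, p.Prime ∧ z < p ∧ p ^ 2 ∣ n) := by
          intro hh
          apply hU
          unfold Uset
          rw [mem_filter, mem_rgh hM0.le]
          exact ⟨⟨hn', hr⟩, hh⟩
        rw [not_or, not_or, not_le, not_lt] at hnU
        obtain ⟨hn1, hn2, hn3⟩ := hnU
        have hmr : n ∈ rgh z M ((1 + δ) * M) := (mem_rgh hM0.le).2 ⟨⟨hn'.1, hn2⟩, hr⟩
        rw [if_pos hmr]
        have hiff := prime_iff_om M z (z * (1 + e) ^ J) n hM hz hr hn'.1
          (hn2.trans h2M) hy1 hy2 hy0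
        by_cases hom : om z (z * (1 + e) ^ J) n = 0
        · have hnp : n.Prime := hiff.2 hom
          rw [if_pos ((mem_prm hM0.le).2 ⟨⟨hn'.1, hn2⟩, hnp⟩),
            bco_zero M δ z e J n hM0 hδ hz he hr.1 hom]
          ring
        · have hnp : ¬ n.Prime := fun h => hom (hiff.1 h)
          rw [if_neg (fun h => hnp ((mem_prm hM0.le).1 h).2),
            bco_one M δ z e J n hM0 hδ hz he hr hn1 hn2 hn3 hom]
          ring
      · have hb : bco M δ z e J n = 0 := by
          by_contra hb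
          exact hr (bco_supp M δ z e J n hM0 hδ hz he hb).1
        rw [if_neg (fun h => hr (hprough n ((mem_prm hM0.le).1 h).2 ((mem_prm hM0.le).1 h).1.1)),
          if_neg (fun h => hr ((mem_rgh hM0.le).1 h).2), hb]
        ring

end BP4
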