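import Pool.Agent.LibBP4.Defs

/-!
TASK R01a.  The products `P_j A_j` as one Dirichlet polynomial.  Expand the product, group by `n = p m`
(`tw_mul`; `m = n/p`).  A nonzero term has `n = p m ∈ (M, (1+δ)(1+e)M]`, since
`z_j < p ≤ (1+e) z_j` and `M/z_j < m ≤ (1+δ)M/z_j`.
-/

open MeasureTheory Finset Filter
open scoped Topology

namespace BP4

open MR57 (tw DP trap SW wh ES IsCM Grep)

theorem r01a_key (M δ x e : ℝ) (hM : 0 < M) (hδ : 0 < δ) (hx : 0 < x) (he : 0 < e)
    (t : ℝ) (c : ℕ → ℂ) (p : ℕ) (hp : p ∈ prm x ((1 + e) * x)) :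
    ∑ m ∈ win (M / x) ((1 + δ) * (M / x)), tw t p * (c m * tw t m) =
      ∑ n ∈ win M ((1 + δ) * (1 + e) * M),
        (if p ∣ n ∧ n / p ∈ win (M / x) ((1 + δ) * (M / x)) then c (n / p) else 0) * tw t n := by
  rw [mem_prm hx.le] at hp
  obtain ⟨⟨hp1, hp2⟩, hpp⟩ := hp
  have hMx : 0 ≤ M / x := by positivity
  have hp0 : p ≠ 0 := hpp.ne_zero
  symm
  rw [← sum_filter_add_sum_filter_not (win M ((1 + δ) * (1 + e) * M))
    (fun n => p ∣ n ∧ n / p ∈ win (M / x) ((1 + δ) * (M / x)))]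
  have h0 : ∑ n ∈ (win M ((1 + δ) * (1 + e) * M)).filter
      (fun n => ¬ (p ∣ n ∧ n / p ∈ win (M / x) ((1 + δ) * (M / x)))),
      (if p ∣ n ∧ n / p ∈ win (M / x) ((1 + δ) * (M / x)) then c (n / p) else 0) * tw t n = 0 := by
    apply sum_eq_zero
    intro n hn
    rw [mem_filter] at hn
    rw [if_neg hn.2, zero_mul]
  rw [h0, add_zero]
  apply sum_bij' (fun n _ => n / p) (fun m _ => p * m)
  · intro n hn
    rw [mem_filter] at hn
    exact hn.2.2
  · intro m hm
    have hm' := (mem_win hMx).1 hm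
    rw [mem_filter, mem_win hM.le]
    have hmpos : (0 : ℝ) < m := lt_of_le_of_lt hMx hm'.1
    refine ⟨⟨?_, ?_⟩, Dvd.intro _ rfl, ?_⟩
    · push_cast
      calc M = x * (M / x) := by field_simp
        _ < p * (M / x) := mul_lt_mul_of_pos_right hp1 (by positivity)
        _ ≤ p * m := by
          apply mul_le_mul_of_nonneg_left hm'.1.le
          positivity
    · push_cast
      calc (p : ℝ) * m ≤ ((1 + e) * x) * ((1 + δ) * (M / x)) := by
            apply mul_le_mul hp2 hm'.2 hmpos.le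
            positivity
        _ = (1 + δ) * (1 + e) * M := by field_simp
    · rw [Nat.mul_div_cancel_left _ hpp.pos]
      exact hm
  · intro n hn
    rw [mem_filter] at hn
    exact Nat.mul_div_cancel' hn.2.1
  · intro m hm
    exact Nat.mul_div_cancel_left _ hpp.pos
  · intro n hn
    rw [mem_filter] at hn
    rw [if_pos hn.2]
    have hnp : n = p * (n / p) := (Nat.mul_div_cancel' hn.2.1).symm
    have hm' := (mem_win hMx).1 hn.2.2
    have hmpos : (0 : ℝ) < ((n / p : ℕ) : ℝ) := lt_of_le_of_lt hMx hm'.1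
    have hm0 : n / p ≠ 0 := by
      intro h
      rw [h] at hmpos
      simp at hmpos
    have h1 : tw t n = tw t p * tw t (n / p) := by
      rw [← tw_mul t p (n / p) hp0 hm0, ← hnp]
    rw [h1]
    ring

theorem bco_sum (M δ z e : ℝ) (J : ℕ) (hM : 0 < M) (hδ : 0 < δ) (hz : 0 < z) (he : 0 < e)
    (t : ℝ) :
    ∑ j ∈ range J, PP e (z * (1 + e) ^ j) t *
        DP (win (M / (z * (1 + e) ^ j)) ((1 + δ) * (M / (z * (1 + e) ^ j))))
          (cf z (z * (1 + e) ^ J)) t =
      ∑ n ∈ win M ((1 + δ) * (1 + e) * M), bco M δ z e J n * tw t n := by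
  have hR : ∑ n ∈ win M ((1 + δ) * (1 + e) * M), bco M δ z e J n * tw t n =
      ∑ j ∈ range J, ∑ p ∈ prm (z * (1 + e) ^ j) ((1 + e) * (z * (1 + e) ^ j)),
        ∑ n ∈ win M ((1 + δ) * (1 + e) * M),
          (if p ∣ n ∧ n / p ∈ win (M / (z * (1 + e) ^ j)) ((1 + δ) * (M / (z * (1 + e) ^ j))) then
            cf z (z * (1 + e) ^ J) (n / p) else 0) * tw t n := by
    simp only [bco, sum_mul]
    rw [sum_comm]
    apply sum_congr rfl
    intro j _
    rw [sum_comm]
  rw [hR]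
  apply sum_congr rfl
  intro j _
  unfold PP MR57.DP
  rw [sum_mul]
  apply sum_congr rfl
  intro p hp
  rw [← r01a_key M δ (z * (1 + e) ^ j) e hM hδ (by positivity) he t _ p hp, one_mul, mul_sum]

end BP4
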