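import Pool.Agent.LibBP4.S12

/-!
TASK R02.  Size of the exceptional set of `decomp`.  `(M, (1+e)M]` and `((1+δ)M, (1+δ)(1+e)M]` by
`rgh_card_le` with `h = eM`, `h = (1+δ)eM`; the numbers `n ≤ 4M` divisible by `p²` for a prime
`p > z` are at most `∑_{k > z} 4M/k² ≤ 8M/z`.
-/

open MeasureTheory Finset Filter
open scoped Topology

namespace BP4

open MR57 (tw DP trap SW wh ES IsCM Grep)

/-- The numbers up to `K` divisible by `k²` for some `k > N`. -/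
theorem r02_sq_card (N K : ℕ) (hN : N ≠ 0) :
    (((Ioc N K).biUnion (fun p => (Ioc 0 K).filter (fun n => p ^ 2 ∣ n))).card : ℝ) ≤
      (K : ℝ) * (1 / N) := by
  have h1 : (((Ioc N K).biUnion (fun p => (Ioc 0 K).filter (fun n => p ^ 2 ∣ n))).card : ℝ) ≤
      ∑ p ∈ Ioc N K, (K : ℝ) * ((p : ℝ) ^ 2)⁻¹ := by
    have h2 : ((Ioc N K).biUnion (fun p => (Ioc 0 K).filter (fun n => p ^ 2 ∣ n))).card ≤
        ∑ p ∈ Ioc N K, ((Ioc 0 K).filter (fun n => p ^ 2 ∣ n)).card := card_biUnion_le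
    have h3 : (((Ioc N K).biUnion (fun p => (Ioc 0 K).filter (fun n => p ^ 2 ∣ n))).card : ℝ) ≤
        ∑ p ∈ Ioc N K, (((Ioc 0 K).filter (fun n => p ^ 2 ∣ n)).card : ℝ) := by
      exact_mod_cast h2
    refine h3.trans (Finset.sum_le_sum ?_)
    intro p _
    rw [Nat.Ioc_filter_dvd_card_eq_div, ← div_eq_mul_inv]
    have h4 : ((K / p ^ 2 : ℕ) : ℝ) ≤ (K : ℝ) / ((p ^ 2 : ℕ) : ℝ) := Nat.cast_div_le
    push_cast at h4
    exact h4
  refine h1.trans ?_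
  rw [← Finset.mul_sum]
  apply mul_le_mul_of_nonneg_left _ (Nat.cast_nonneg K)
  rw [one_div]
  rcases le_total N K with h | h
  · have h2 := sum_Ioc_inv_sq_le_sub (α := ℝ) hN h
    have h3 : (0 : ℝ) ≤ (K : ℝ)⁻¹ := by positivity
    linarith
  · rw [Finset.Ioc_eq_empty (by omega), Finset.sum_empty]
    positivity

theorem Uset_card : ∃ C : ℝ, 0 < C ∧ ∀ M δ z e : ℝ, 2 ≤ z → 0 < δ → δ ≤ 1 → 0 < e → e ≤ 1 →
    z ≤ e * M → ((Uset z e δ M).card : ℝ) ≤ C * (e * M / Real.log z + M / z) := by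
  obtain ⟨C0, hC0, h0⟩ := rgh_card_le
  refine ⟨3 * C0 + 8, by positivity, ?_⟩
  intro M δ z e hz hδ hδ1 he he1 hzM
  have hM : 0 < M := by
    by_contra hcon
    push Not at hcon
    have : e * M ≤ 0 := mul_nonpos_of_nonneg_of_nonpos he.le hcon
    linarith
  have hz0 : 0 < z := by linarith
  have hlog : 0 < Real.log z := Real.log_pos (by linarith)
  have hδM : 0 ≤ (1 + δ) * M := by positivity
  have hN2 : 2 ≤ ⌊z⌋₊ := Nat.le_floor (by exact_mod_cast hz)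
  have hNz : (⌊z⌋₊ : ℝ) ≤ z := Nat.floor_le hz0.le
  have hzN : z < (⌊z⌋₊ : ℝ) + 1 := Nat.lt_floor_add_one z
  classical
  have hsub : Uset z e δ M ⊆ rgh z M (M + e * M) ∪
      (rgh z ((1 + δ) * M) ((1 + δ) * M + (1 + δ) * (e * M)) ∪
        (Ioc ⌊z⌋₊ ⌊4 * M⌋₊).biUnion (fun p => (Ioc 0 ⌊4 * M⌋₊).filter (fun n => p ^ 2 ∣ n))) := by
    intro n hn
    unfold Uset at hn
    rw [Finset.mem_filter, mem_rgh hM.le] at hn
    obtain ⟨⟨⟨h1, h2⟩, h3⟩, h4⟩ := hn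
    rw [Finset.mem_union, Finset.mem_union, mem_rgh hM.le, mem_rgh hδM]
    rcases h4 with h4 | h4 | ⟨p, hp, hzp, hpn⟩
    · left
      refine ⟨⟨h1, ?_⟩, h3⟩
      calc (n : ℝ) ≤ (1 + e) * M := h4
        _ = M + e * M := by ring
    · right
      left
      refine ⟨⟨h4, ?_⟩, h3⟩
      calc (n : ℝ) ≤ (1 + δ) * (1 + e) * M := h2
        _ = (1 + δ) * M + (1 + δ) * (e * M) := by ring
    · right
      right
      have hn4 : (n : ℝ) ≤ 4 * M := by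
        refine h2.trans ?_
        have : (1 + δ) * (1 + e) ≤ 4 := by nlinarith
        exact mul_le_mul_of_nonneg_right this hM.le
      have hn0 : 0 < n := by
        have : (0 : ℝ) < n := hM.trans h1
        exact_mod_cast this
      have hnK : n ≤ ⌊4 * M⌋₊ := Nat.le_floor hn4
      have hpN : ⌊z⌋₊ < p := (Nat.floor_lt hz0.le).2 hzp
      have hpn' : p ^ 2 ≤ n := Nat.le_of_dvd hn0 hpn
      have hpp : p ≤ p ^ 2 := by nlinarith [hp.pos]
      rw [Finset.mem_biUnion]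
      refine ⟨p, ?_, ?_⟩
      · rw [Finset.mem_Ioc]
        exact ⟨hpN, by omega⟩
      · rw [Finset.mem_filter, Finset.mem_Ioc]
        exact ⟨⟨hn0, hnK⟩, hpn⟩
  have hc1 := h0 z M (e * M) hz hM.le hzM
  have hc2 := h0 z ((1 + δ) * M) ((1 + δ) * (e * M)) hz hδM (by nlinarith)
  have hc3 := r02_sq_card ⌊z⌋₊ ⌊4 * M⌋₊ (by omega)
  have hcard : ((Uset z e δ M).card : ℝ) ≤ ((rgh z M (M + e * M)).card : ℝ) +
      (((rgh z ((1 + δ) * M) ((1 + δ) * M + (1 + δ) * (e * M))).card : ℝ) +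
        (((Ioc ⌊z⌋₊ ⌊4 * M⌋₊).biUnion
          (fun p => (Ioc 0 ⌊4 * M⌋₊).filter (fun n => p ^ 2 ∣ n))).card : ℝ)) := by
    have h1 := (Finset.card_le_card hsub).trans (Finset.card_union_le _ _)
    have h2 := Finset.card_union_le (rgh z ((1 + δ) * M) ((1 + δ) * M + (1 + δ) * (e * M)))
      ((Ioc ⌊z⌋₊ ⌊4 * M⌋₊).biUnion (fun p => (Ioc 0 ⌊4 * M⌋₊).filter (fun n => p ^ 2 ∣ n)))
    exact_mod_cast h1.trans (Nat.add_le_add_left h2 _)
  have hc3' : (((Ioc ⌊z⌋₊ ⌊4 * M⌋₊).biUnion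
      (fun p => (Ioc 0 ⌊4 * M⌋₊).filter (fun n => p ^ 2 ∣ n))).card : ℝ) ≤ 8 * (M / z) := by
    refine hc3.trans ?_
    have h1 : (⌊4 * M⌋₊ : ℝ) ≤ 4 * M := Nat.floor_le (by positivity)
    have hNpos : (0 : ℝ) < (⌊z⌋₊ : ℝ) := by
      have : 0 < ⌊z⌋₊ := by omega
      exact_mod_cast this
    have h2 : 1 / (⌊z⌋₊ : ℝ) ≤ 2 / z := by
      rw [div_le_div_iff₀ hNpos hz0]
      have : (2 : ℝ) ≤ (⌊z⌋₊ : ℝ) := by exact_mod_cast hN2
      linarith
    calc (⌊4 * M⌋₊ : ℝ) * (1 / (⌊z⌋₊ : ℝ)) ≤ (4 * M) * (2 / z) := by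
          apply mul_le_mul h1 h2 (by positivity) (by positivity)
      _ = 8 * (M / z) := by ring
  have hc2' : C0 * ((1 + δ) * (e * M) / Real.log z) ≤ 2 * (C0 * (e * M / Real.log z)) := by
    have h1 : 0 ≤ C0 * (e * M / Real.log z) := by positivity
    have h2 : C0 * ((1 + δ) * (e * M) / Real.log z) =
        (1 + δ) * (C0 * (e * M / Real.log z)) := by ring
    rw [h2]
    exact mul_le_mul_of_nonneg_right (by linarith) h1
  have hx : 0 ≤ e * M / Real.log z := by positivity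
  have hy : 0 ≤ M / z := by positivity
  nlinarith [mul_nonneg hC0.le hy, mul_nonneg hC0.le hx]

end BP4
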