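import Pool.Agent.LibBP4.Ext

/-!
TASK R03b.  Mean square of `QQ`: `x_hm_two (1/4)` with scale `aM/2` (`M^3 ≤ (aM/2)^4`; `M^c ≤ (aM/2)^{c'}`,
`c = c'/2`), and `log (aM/2) ≥ (1/2) log M`.
-/

open MeasureTheory Finset Filter
open scoped Topology

namespace BP4

open MR57 (tw DP trap SW wh ES IsCM Grep)

theorem Q_bound : ∃ c C : ℝ, 0 < c ∧ 0 < C ∧ ∃ M₀ : ℝ, 2 ≤ M₀ ∧ ∀ (a M : ℝ) (T : Finset ℝ),
    1 ≤ a → M₀ ≤ M → MR57.Sep (M ^ 3) T → (T.card : ℝ) ≤ M ^ c →
    ∑ t ∈ T, ‖QQ a M t‖ ^ 2 ≤ C * (a * (M / Real.log M)) ^ 2 := by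
  obtain ⟨C, c, z₀, hC, hc, hz₀, H⟩ := x_hm_two (1 / 4) (by norm_num)
  refine ⟨c / 2, C, by positivity, hC, max 16 (2 * z₀), le_max_of_le_left (by norm_num), ?_⟩
  intro a M T ha hM hsep hcard
  have hM16 : 16 ≤ M := (le_max_left _ _).trans hM
  have hMz : 2 * z₀ ≤ M := (le_max_right _ _).trans hM
  have hM0 : 0 < M := by linarith
  set z : ℝ := a * M / 2 with hz
  have hzM : M / 2 ≤ z := by
    rw [hz]
    nlinarith
  have hz1 : z₀ ≤ z := by linarith
  have hz0 : 0 < z := by linarith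
  have hsq : Real.sqrt M ≤ z := by
    have h1 : Real.sqrt M ≤ M / 2 := by
      rw [Real.sqrt_le_left (by linarith)]
      nlinarith
    linarith
  have hsq0 : 0 < Real.sqrt M := Real.sqrt_pos.2 hM0
  have hX : M ^ 3 ≤ z ^ (1 / (1 / 4 : ℝ)) := by
    have e : (1 / (1 / 4 : ℝ)) = ((4 : ℕ) : ℝ) := by norm_num
    rw [e, Real.rpow_natCast]
    calc M ^ 3 ≤ (M / 2) ^ 4 := by
          have : (M / 2) ^ 4 = M ^ 3 * (M / 16) := by ring
          rw [this]
          have h1 : (1 : ℝ) ≤ M / 16 := by linarith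
          have h2 : (0 : ℝ) ≤ M ^ 3 := by positivity
          nlinarith
      _ ≤ z ^ 4 := pow_le_pow_left₀ (by linarith) hzM 4
  have hcard' : (T.card : ℝ) ≤ z ^ c := by
    refine hcard.trans ?_
    calc M ^ (c / 2) = (Real.sqrt M) ^ c := by
          rw [Real.sqrt_eq_rpow, ← Real.rpow_mul hM0.le]
          congr 1
          ring
      _ ≤ z ^ c := Real.rpow_le_rpow hsq0.le hsq hc.le
  have key := H z (M ^ 3) (prm (a * M / 2) (2 * a * M)) (fun _ => 1) T hz1 hX (by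
    intro p hp
    rw [mem_prm hz0.le] at hp
    refine ⟨hp.2, hp.1.1, ?_⟩
    have := hp.1.2
    rw [hz]
    linarith) (fun _ => by simp) hsep hcard'
  have hlogM : 0 < Real.log M := Real.log_pos (by linarith)
  have hlog : (1 / 2) * Real.log M ≤ Real.log z := by
    have h1 : Real.log (Real.sqrt M) ≤ Real.log z := Real.log_le_log hsq0 hsq
    rw [Real.log_sqrt hM0.le] at h1
    linarith
  have hquot : z / Real.log z ≤ a * (M / Real.log M) := by
    calc z / Real.log z ≤ z / ((1 / 2) * Real.log M) :=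
          div_le_div_of_nonneg_left hz0.le (by positivity) hlog
      _ = a * (M / Real.log M) := by
          rw [hz]
          field_simp
  have hlogz : 0 < Real.log z := by linarith
  calc ∑ t ∈ T, ‖QQ a M t‖ ^ 2 ≤ C * (z / Real.log z) ^ 2 := key
    _ ≤ C * (a * (M / Real.log M)) ^ 2 :=
        mul_le_mul_of_nonneg_left (pow_le_pow_left₀ (by positivity) hquot 2) hC.le

end BP4
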