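import Pool.Agent.LibBP4.R03a
import Pool.Agent.LibBP4.R03b
import Pool.Agent.LibBP4.K14

/-!
TASK R03.  The bilinear part on a sparse set (assembly).  Exponent: the minimum of those of `A_bound` and
`Q_bound`.  Given `u, e, δ, a, η`: choose `η'` small, apply `kp` with `(e, η', A = 3u)` at the scales
`z_j = z(1+e)^j ≥ z = M^{1/u}` (`|t| ≤ M^3 = z^{3u} ≤ z_j^{3u}`):
`‖P_j‖ ≤ η' z_j/log z_j ≤ η' z_j u/log M`.  Cauchy over `T` for each `j`:
`∑_T ‖P_j‖‖A_j‖‖QQ‖ ≤ η' (z_j u/log M) (C(u,δ) (M/z_j)/log M)(C a M/log M)`, sum over `j < J` with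
`J ≤ log y/log(1+e) ≤ (2/e) log M`: total `≤ η' C(u, e, δ, a) (M/log M)²`.
-/

open MeasureTheory Finset Filter
open scoped Topology

namespace BP4

open MR57 (tw DP trap SW wh ES IsCM Grep)

theorem R03_cs (T : Finset ℝ) (p f g : ℝ → ℝ) (P F G : ℝ) (hP : 0 ≤ P) (hF : 0 ≤ F) (hG : 0 ≤ G)
    (hp : ∀ t ∈ T, p t ≤ P) (hf : ∀ t, 0 ≤ f t) (hg : ∀ t, 0 ≤ g t)
    (h1 : ∑ t ∈ T, f t ^ 2 ≤ F ^ 2) (h2 : ∑ t ∈ T, g t ^ 2 ≤ G ^ 2) :
    ∑ t ∈ T, p t * f t * g t ≤ P * (F * G) := by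
  have h3 : (∑ t ∈ T, f t * g t) ^ 2 ≤ (F * G) ^ 2 := by
    calc (∑ t ∈ T, f t * g t) ^ 2 ≤ (∑ t ∈ T, f t ^ 2) * ∑ t ∈ T, g t ^ 2 :=
          Finset.sum_mul_sq_le_sq_mul_sq T f g
      _ ≤ F ^ 2 * G ^ 2 := mul_le_mul h1 h2 (Finset.sum_nonneg fun _ _ => sq_nonneg _) (sq_nonneg _)
      _ = (F * G) ^ 2 := by ring
  have h4 : ∑ t ∈ T, f t * g t ≤ F * G := by
    have h0 : 0 ≤ ∑ t ∈ T, f t * g t := Finset.sum_nonneg fun t _ => mul_nonneg (hf t) (hg t)
    exact (pow_le_pow_iff_left₀ h0 (mul_nonneg hF hG) (by norm_num)).1 h3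
  calc ∑ t ∈ T, p t * f t * g t ≤ ∑ t ∈ T, P * (f t * g t) := by
        apply Finset.sum_le_sum
        intro t ht
        have := mul_le_mul_of_nonneg_right (hp t ht) (mul_nonneg (hf t) (hg t))
        calc p t * f t * g t = p t * (f t * g t) := by ring
          _ ≤ _ := this
    _ = P * ∑ t ∈ T, f t * g t := by rw [Finset.mul_sum]
    _ ≤ P * (F * G) := mul_le_mul_of_nonneg_left h4 hP

theorem bilinear : ∃ c : ℝ, 0 < c ∧ ∀ u e δ a η : ℝ, 25 ≤ u → 0 < e → e ≤ 1 → 0 < δ → δ ≤ 1 →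
    1 ≤ a → 0 < η → ∃ M₀ T₀ : ℝ, 2 ≤ M₀ ∧ 1 ≤ T₀ ∧ ∀ (M : ℝ) (J : ℕ) (T : Finset ℝ), M₀ ≤ M →
    (M ^ (1 / u) * (1 + e) ^ J) ^ 2 ≤ 9 * M → MR57.Sep (M ^ 3) T → (∀ t ∈ T, T₀ ≤ |t|) →
    (T.card : ℝ) ≤ M ^ c →
    ∑ t ∈ T, (∑ j ∈ range J, ‖PP e (M ^ (1 / u) * (1 + e) ^ j) t‖ *
        ‖DP (win (M / (M ^ (1 / u) * (1 + e) ^ j)) ((1 + δ) * (M / (M ^ (1 / u) * (1 + e) ^ j))))
          (cf (M ^ (1 / u)) (M ^ (1 / u) * (1 + e) ^ J)) t‖) * ‖QQ a M t‖ ≤
      η * (M / Real.log M) ^ 2 := by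
  obtain ⟨c₁, hc₁, HA⟩ := A_bound
  obtain ⟨c₂, CQ, hc₂, hCQ, M₂, hM₂, HQ⟩ := Q_bound
  refine ⟨min c₁ c₂, lt_min hc₁ hc₂, ?_⟩
  intro u e δ a η hu he he1 hδ hδ1 ha hη
  have hu0 : 0 < u := by linarith
  obtain ⟨CA, M₁, hCA, hM₁, HA2⟩ := HA u δ hu hδ hδ1
  have hle : 0 < Real.log (1 + e) := Real.log_pos (by linarith)
  set B : ℝ := Real.sqrt CA * Real.sqrt CQ with hB
  have hB0 : 0 < B := mul_pos (Real.sqrt_pos.2 hCA) (Real.sqrt_pos.2 hCQ)
  set η' : ℝ := η * Real.log (1 + e) / (u * a * B) with hη'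
  have hη'0 : 0 < η' := by positivity
  obtain ⟨X₀, T₀, hX₀, hT₀, HK⟩ := kp e η' (3 * u) he he1 hη'0 (by linarith)
  refine ⟨max (max M₁ M₂) (max 9 (X₀ ^ u)), T₀, le_max_of_le_left (le_max_of_le_left hM₁), hT₀, ?_⟩
  intro M J T hM hJ hsep hT hcard
  have hMM₁ : M₁ ≤ M := (le_max_left _ _).trans ((le_max_left _ _).trans hM)
  have hMM₂ : M₂ ≤ M := (le_max_right _ _).trans ((le_max_left _ _).trans hM)
  have hM9 : 9 ≤ M := (le_max_left _ _).trans ((le_max_right _ _).trans hM)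
  have hMX : X₀ ^ u ≤ M := (le_max_right _ _).trans ((le_max_right _ _).trans hM)
  have hM0 : 0 < M := by linarith
  have hM1 : 1 ≤ M := by linarith
  have hlogM : 0 < Real.log M := Real.log_pos (by linarith)
  set z : ℝ := M ^ (1 / u) with hz
  have hz0 : 0 < z := Real.rpow_pos_of_pos hM0 _
  have hz1 : 1 ≤ z := Real.one_le_rpow hM1 (by positivity)
  have hzX : X₀ ≤ z := by
    have h1 : (X₀ ^ u) ^ (1 / u) ≤ M ^ (1 / u) :=
      Real.rpow_le_rpow (Real.rpow_nonneg (by linarith) _) hMX (by positivity)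
    rw [← Real.rpow_mul (by linarith), mul_one_div_cancel hu0.ne', Real.rpow_one] at h1
    exact h1
  have hlogz : Real.log z = (1 / u) * Real.log M := by rw [hz, Real.log_rpow hM0]
  have hpow1 : ∀ j : ℕ, (1 : ℝ) ≤ (1 + e) ^ j := fun j => one_le_pow₀ (by linarith)
  -- mean squares
  have hcardA : (T.card : ℝ) ≤ M ^ c₁ :=
    hcard.trans (Real.rpow_le_rpow_of_exponent_le hM1 (min_le_left _ _))
  have hcardQ : (T.card : ℝ) ≤ M ^ c₂ :=
    hcard.trans (Real.rpow_le_rpow_of_exponent_le hM1 (min_le_right _ _))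
  have hQ := HQ a M T ha hMM₂ hsep hcardQ
  have hQ' : ∑ t ∈ T, ‖QQ a M t‖ ^ 2 ≤ (Real.sqrt CQ * (a * (M / Real.log M))) ^ 2 := by
    rw [mul_pow, Real.sq_sqrt hCQ.le]
    exact hQ
  have hterm : ∀ j ∈ range J, ∑ t ∈ T, ‖PP e (z * (1 + e) ^ j) t‖ *
      ‖DP (win (M / (z * (1 + e) ^ j)) ((1 + δ) * (M / (z * (1 + e) ^ j))))
        (cf z (z * (1 + e) ^ J)) t‖ * ‖QQ a M t‖ ≤
      η' * u * a * B * (M / Real.log M) ^ 2 / Real.log M := by
    intro j hj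
    rw [mem_range] at hj
    set N : ℝ := z * (1 + e) ^ j with hN
    have hNz : z ≤ N := by
      rw [hN]
      nlinarith [hpow1 j]
    have hN1 : 1 ≤ N := hz1.trans hNz
    have hN0 : 0 < N := by linarith
    have hNJ : N ≤ z * (1 + e) ^ J := by
      rw [hN]
      apply mul_le_mul_of_nonneg_left _ hz0.le
      exact pow_le_pow_right₀ (by linarith) hj.le
    have hN9 : N ^ 2 ≤ 9 * M := (pow_le_pow_left₀ hN0.le hNJ 2).trans hJ
    have hA := HA2 M N (z * (1 + e) ^ J) T hMM₁ hN1 hN9 hsep hcardA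
    have hA' : ∑ t ∈ T, ‖DP (win (M / N) ((1 + δ) * (M / N))) (cf z (z * (1 + e) ^ J)) t‖ ^ 2
        ≤ (Real.sqrt CA * (M / N / Real.log M)) ^ 2 := by
      rw [mul_pow, Real.sq_sqrt hCA.le]
      exact hA
    have hlogN : (1 / u) * Real.log M ≤ Real.log N := by
      rw [← hlogz]
      exact Real.log_le_log hz0 hNz
    have hPP : ∀ t ∈ T, ‖PP e N t‖ ≤ η' * (u * (N / Real.log M)) := by
      intro t ht
      have h1 : |t| ≤ N ^ (3 * u) := by
        have h2 := hsep.1 t ht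
        refine h2.trans ?_
        calc M ^ 3 = z ^ (3 * u) := by
              rw [hz, ← Real.rpow_mul hM0.le]
              have : (1 / u) * (3 * u) = ((3 : ℕ) : ℝ) := by
                field_simp
                norm_num
              rw [this, Real.rpow_natCast]
          _ ≤ N ^ (3 * u) := Real.rpow_le_rpow hz0.le hNz (by positivity)
      have h3 := HK N t (hzX.trans hNz) (hT t ht) h1
      refine h3.trans ?_
      apply mul_le_mul_of_nonneg_left _ hη'0.le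
      calc N / Real.log N ≤ N / ((1 / u) * Real.log M) :=
            div_le_div_of_nonneg_left hN0.le (by positivity) hlogN
        _ = u * (N / Real.log M) := by field_simp
    have hcs := R03_cs T (fun t => ‖PP e N t‖)
      (fun t => ‖DP (win (M / N) ((1 + δ) * (M / N))) (cf z (z * (1 + e) ^ J)) t‖)
      (fun t => ‖QQ a M t‖) (η' * (u * (N / Real.log M))) (Real.sqrt CA * (M / N / Real.log M))
      (Real.sqrt CQ * (a * (M / Real.log M))) (by positivity) (by positivity) (by positivity)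
      hPP (fun t => norm_nonneg _) (fun t => norm_nonneg _) hA' hQ'
    refine hcs.trans (le_of_eq ?_)
    rw [hB]
    field_simp
  have hJle : (J : ℝ) ≤ Real.log M / Real.log (1 + e) := by
    rw [le_div_iff₀ hle]
    have h1 : ((1 + e) ^ J) ^ 2 ≤ 9 * M := by
      refine le_trans ?_ hJ
      apply pow_le_pow_left₀ (by positivity)
      have := hpow1 J
      nlinarith
    have h2 : Real.log (((1 + e) ^ J) ^ 2) ≤ Real.log (9 * M) :=
      Real.log_le_log (by positivity) h1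
    rw [Real.log_pow, Real.log_pow, Real.log_mul (by norm_num) hM0.ne'] at h2
    have h3 : Real.log 9 ≤ Real.log M := Real.log_le_log (by norm_num) hM9
    push_cast at h2
    linarith
  have hswap : ∑ t ∈ T, (∑ j ∈ range J, ‖PP e (z * (1 + e) ^ j) t‖ *
        ‖DP (win (M / (z * (1 + e) ^ j)) ((1 + δ) * (M / (z * (1 + e) ^ j))))
          (cf z (z * (1 + e) ^ J)) t‖) * ‖QQ a M t‖
      = ∑ j ∈ range J, ∑ t ∈ T, ‖PP e (z * (1 + e) ^ j) t‖ *
        ‖DP (win (M / (z * (1 + e) ^ j)) ((1 + δ) * (M / (z * (1 + e) ^ j))))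
          (cf z (z * (1 + e) ^ J)) t‖ * ‖QQ a M t‖ := by
    rw [Finset.sum_comm]
    apply Finset.sum_congr rfl
    intro t _
    rw [Finset.sum_mul]
  rw [hswap]
  calc _ ≤ ∑ _j ∈ range J, η' * u * a * B * (M / Real.log M) ^ 2 / Real.log M :=
        Finset.sum_le_sum hterm
    _ = J * (η' * u * a * B * (M / Real.log M) ^ 2 / Real.log M) := by
        rw [sum_const, card_range, nsmul_eq_mul]
    _ ≤ (Real.log M / Real.log (1 + e)) * (η' * u * a * B * (M / Real.log M) ^ 2 / Real.log M) :=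
        mul_le_mul_of_nonneg_right hJle (by positivity)
    _ = η * (M / Real.log M) ^ 2 := by
        rw [hη']
        field_simp

end BP4
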