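import Pool.Agent.LibBP4.Ext

/-!
TASK S06.  An exponentially weighted sum over primes.  Split the primes into the blocks
`z^{2^{-j-1}} < p ≤ z^{2^{-j}}`, `j = 0, 1, ...` (only `p ≥ 2` matters).  On a block
`∑ 1/p ≤ C₁` (`x_mertens_second`; uniformly in `j` and `z`, including bounded ranges),
`1/log p ≤ 2^{j+1}/log z` and `exp(-(lam/log p)) ≤ exp(-μ 2^j)` with `μ = lam/log z ≥ c`.  Then
`∑_j C₁ 2^{j+1}/log z * exp(-μ 2^j) ≤ (C₁/log z) exp(-μ) ∑_j 2^{j+1} exp(-c (2^j - 1))`.

(Proof given here: with `y = log z / log p ≥ 1`, `y exp(-c(y-1)) ≤ K / y`, and Mertens' first theorem.)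
-/

open MeasureTheory Finset Filter
open scoped Topology

namespace BP4

open MR57 (tw DP trap SW wh ES IsCM Grep)

theorem S06_term (c : ℝ) (hc : 0 < c) (L l lam : ℝ) (hl : 0 < l) (hlL : l ≤ L)
    (hlam : c * L ≤ lam) :
    Real.exp (-(lam / l)) / l ≤ (2 * Real.exp c / c ^ 2) * (1 / L * Real.exp (-(lam / L))) *
      (l / L) := by
  have hL : 0 < L := hl.trans_le hlL
  set y := L / l with hy
  have hy1 : 1 ≤ y := (one_le_div hl).mpr hlL
  set m := lam / L with hm
  have hmc : c ≤ m := by rw [hm, le_div_iff₀ hL]; exact hlam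
  have e1 : lam / l = m * y := by rw [hm, hy]; field_simp
  have e2 : (1 : ℝ) / l = y / L := by rw [hy]; field_simp
  have e3 : l / L = 1 / y := by rw [hy]; field_simp
  have hy0 : 0 < y := by linarith
  -- `y ^ 2 * exp (-c (y - 1)) ≤ 2 exp c / c ^ 2`
  have h1 : y ^ 2 ≤ 2 / c ^ 2 * Real.exp (c * y) := by
    have := Real.quadratic_le_exp_of_nonneg (x := c * y) (by positivity)
    have h2 : (c * y) ^ 2 / 2 ≤ Real.exp (c * y) := by
      have : 0 ≤ c * y := by positivity
      linarith
    calc y ^ 2 = 2 / c ^ 2 * ((c * y) ^ 2 / 2) := by field_simp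
      _ ≤ 2 / c ^ 2 * Real.exp (c * y) := by
        apply mul_le_mul_of_nonneg_left h2 (by positivity)
  have h3 : Real.exp (-(m * y)) ≤ Real.exp (-m) * (Real.exp c * Real.exp (-(c * y))) := by
    rw [← Real.exp_add, ← Real.exp_add]
    apply Real.exp_le_exp.mpr
    nlinarith
  rw [e1, div_eq_mul_one_div, e2, e3]
  have h4 : y * Real.exp (-(c * y)) ≤ 2 / c ^ 2 * (1 / y) := by
    rw [mul_one_div, le_div_iff₀ hy0]
    calc y * Real.exp (-(c * y)) * y = y ^ 2 * Real.exp (-(c * y)) := by ring
      _ ≤ 2 / c ^ 2 * Real.exp (c * y) * Real.exp (-(c * y)) :=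
        mul_le_mul_of_nonneg_right h1 (Real.exp_pos _).le
      _ = 2 / c ^ 2 := by rw [mul_assoc, ← Real.exp_add]; simp
  calc Real.exp (-(m * y)) * (y / L)
      ≤ Real.exp (-m) * (Real.exp c * Real.exp (-(c * y))) * (y / L) :=
        mul_le_mul_of_nonneg_right h3 (by positivity)
    _ = Real.exp (-m) * Real.exp c / L * (y * Real.exp (-(c * y))) := by ring
    _ ≤ Real.exp (-m) * Real.exp c / L * (2 / c ^ 2 * (1 / y)) :=
        mul_le_mul_of_nonneg_left h4 (by positivity)
    _ = 2 * Real.exp c / c ^ 2 * (1 / L * Real.exp (-m)) * (1 / y) := by ring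

theorem sum_exp (c : ℝ) (hc : 0 < c) : ∃ C : ℝ, 0 < C ∧ ∀ z lam : ℝ, 2 ≤ z →
    c * Real.log z ≤ lam →
    ∑ p ∈ prm 0 z, Real.exp (-(lam / Real.log p)) / (p * Real.log p) ≤
      C / Real.log z * Real.exp (-(lam / Real.log z)) := by
  obtain ⟨K, hK, hM⟩ := x_mertens_first
  have hl2 : 0 < Real.log 2 := Real.log_pos one_lt_two
  refine ⟨(2 * Real.exp c / c ^ 2) * (1 + K / Real.log 2), by positivity, ?_⟩
  intro z lam hz hlam
  have hLz : Real.log 2 ≤ Real.log z := Real.log_le_log two_pos hz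
  have hL : 0 < Real.log z := hl2.trans_le hLz
  have hterm : ∀ p ∈ prm 0 z, Real.exp (-(lam / Real.log p)) / (p * Real.log p) ≤
      (2 * Real.exp c / c ^ 2) * (1 / Real.log z * Real.exp (-(lam / Real.log z))) /
        Real.log z * (Real.log p / p) := by
    intro p hp
    rw [mem_prm le_rfl] at hp
    have hp2 : (2 : ℝ) ≤ p := by exact_mod_cast hp.2.two_le
    have hp0 : (0 : ℝ) < p := by linarith
    have hlp : 0 < Real.log p := Real.log_pos (by linarith)
    have h := S06_term c hc (Real.log z) (Real.log p) lam hlp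
      (Real.log_le_log hp0 hp.1.2) hlam
    calc Real.exp (-(lam / Real.log p)) / (p * Real.log p)
        = Real.exp (-(lam / Real.log p)) / Real.log p * (1 / p) := by
          field_simp
      _ ≤ (2 * Real.exp c / c ^ 2) * (1 / Real.log z * Real.exp (-(lam / Real.log z))) *
          (Real.log p / Real.log z) * (1 / p) := mul_le_mul_of_nonneg_right h (by positivity)
      _ = _ := by ring
  refine (sum_le_sum hterm).trans ?_
  rw [← mul_sum]
  have hs : ∑ p ∈ prm 0 z, Real.log p / p ≤ Real.log z * (1 + K / Real.log 2) := by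
    have h1 := (abs_le.mp (hM z (by linarith))).2
    have h2 : K ≤ Real.log z * (K / Real.log 2) := by
      calc K = Real.log 2 * (K / Real.log 2) := by field_simp
        _ ≤ Real.log z * (K / Real.log 2) :=
          mul_le_mul_of_nonneg_right hLz (by positivity)
    linarith
  calc (2 * Real.exp c / c ^ 2) * (1 / Real.log z * Real.exp (-(lam / Real.log z))) /
        Real.log z * ∑ p ∈ prm 0 z, Real.log p / p
      ≤ (2 * Real.exp c / c ^ 2) * (1 / Real.log z * Real.exp (-(lam / Real.log z))) /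
        Real.log z * (Real.log z * (1 + K / Real.log 2)) :=
        mul_le_mul_of_nonneg_left hs (by positivity)
    _ = (2 * Real.exp c / c ^ 2) * (1 + K / Real.log 2) / Real.log z *
        Real.exp (-(lam / Real.log z)) := by
        field_simp

end BP4
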