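import Pool.Agent.LibBP4.Defs

/-!
TASK S07.  Telescoping identity: `V(N) = V(N-1) (1 - 1/N)` at a prime `N`.  Induction on `⌊z⌋₊`
(`prm_zero`).
-/

open MeasureTheory Finset Filter
open scoped Topology

namespace BP4

open MR57 (tw DP trap SW wh ES IsCM Grep)

private lemma S07_V_nat (N : ℕ) :
    V (N : ℝ) = 1 - ∑ p ∈ (Icc 0 N).filter Nat.Prime, V ((p : ℝ) - 1) / p := by
  induction N with
  | zero =>
    unfold V
    rw [prm_zero]
    have h1 : (Icc 0 ⌊((0 : ℕ) : ℝ)⌋₊).filter Nat.Prime = ∅ := by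
      rw [Nat.floor_natCast]
      decide
    have h2 : (Icc 0 0).filter Nat.Prime = ∅ := by decide
    rw [h1, h2]
    simp
  | succ N ih =>
    have hV : ∀ n : ℕ, V (n : ℝ) = ∏ p ∈ (Icc 0 n).filter Nat.Prime, (1 - 1 / (p : ℝ)) := by
      intro n
      unfold V
      rw [prm_zero, Nat.floor_natCast]
    have hI : Icc 0 (N + 1) = insert (N + 1) (Icc 0 N) := by
      ext x
      simp only [mem_Icc, mem_insert]
      omega
    by_cases hp : (N + 1).Prime
    · have hf : (Icc 0 (N + 1)).filter Nat.Prime = insert (N + 1) ((Icc 0 N).filter Nat.Prime) := by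
        rw [hI, filter_insert, if_pos hp]
      have hn : N + 1 ∉ (Icc 0 N).filter Nat.Prime := by
        simp
      rw [hV, hf, prod_insert hn, sum_insert hn, ← hV]
      have e1 : (((N + 1 : ℕ) : ℝ) - 1) = (N : ℝ) := by push_cast; ring
      rw [e1]
      have e2 : (∑ p ∈ (Icc 0 N).filter Nat.Prime, V ((p : ℝ) - 1) / p) = 1 - V (N : ℝ) := by
        linarith
      rw [e2]
      ring
    · have hf : (Icc 0 (N + 1)).filter Nat.Prime = (Icc 0 N).filter Nat.Prime := by
        rw [hI, filter_insert, if_neg hp]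
      rw [hV, hf, ← hV]
      exact ih

theorem V_tele (z : ℝ) (hz : 0 ≤ z) : V z = 1 - ∑ p ∈ prm 0 z, V ((p : ℝ) - 1) / p := by
  have h1 : V z = V ((⌊z⌋₊ : ℕ) : ℝ) := by
    unfold V
    rw [prm_zero, prm_zero, Nat.floor_natCast]
  rw [h1, S07_V_nat, prm_zero]

end BP4
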