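import Pool.Agent.LibBP4.Defs

/-!
TASK S08.  Buchstab identity: sort the `n ∈ (x, x+h]` that are not `z`-rough by their least prime factor
`p = n.minFac ≤ z`; `m = n/p` runs over the numbers in `(x/p, (x+h)/p]` all of whose prime factors
are `> p - 1` (i.e. `≥ p`).
-/

open MeasureTheory Finset Filter
open scoped Topology

namespace BP4

open MR57 (tw DP trap SW wh ES IsCM Grep)

open Classical in
theorem S08_fiber (z x h : ℝ) (hx : 0 ≤ x) (p : ℕ) (hp : p.Prime) (hpz : (p : ℝ) ≤ z) :
    (((win x (x + h)).filter (fun n => ¬ Rough z n)).filter (fun n => n.minFac = p)).card =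
      (rgh ((p : ℝ) - 1) (x / p) ((x + h) / p)).card := by
  have hp0 : (0 : ℝ) < p := by exact_mod_cast hp.pos
  have hxp : 0 ≤ x / p := div_nonneg hx hp0.le
  symm
  apply Finset.card_bij (fun m _ => p * m)
  · intro m hm
    rw [mem_rgh hxp] at hm
    obtain ⟨⟨h1, h2⟩, hm0, h3⟩ := hm
    rw [mem_filter, mem_filter, mem_win hx]
    rw [div_lt_iff₀ hp0] at h1
    rw [le_div_iff₀ hp0] at h2
    refine ⟨⟨⟨?_, ?_⟩, ?_⟩, ?_⟩
    · push_cast
      linarith [mul_comm (m : ℝ) (p : ℝ)]
    · push_cast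
      linarith [mul_comm (m : ℝ) (p : ℝ)]
    · rintro ⟨-, h4⟩
      have := h4 p hp (dvd_mul_right p m)
      linarith
    · have hpm : p * m ≠ 1 := by
        intro h5
        have := Nat.eq_one_of_mul_eq_one_right h5
        exact hp.one_lt.ne' this
      apply le_antisymm
      · exact Nat.minFac_le_of_dvd hp.two_le (dvd_mul_right p m)
      · have hq := Nat.minFac_prime hpm
        have hd := Nat.minFac_dvd (p * m)
        rcases (Nat.Prime.dvd_mul hq).1 hd with h5 | h5
        · have := (Nat.prime_dvd_prime_iff_eq hq hp).1 h5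
          rw [this]
        · have := h3 _ hq h5
          have h6 : (p : ℝ) < ((p * m).minFac : ℝ) + 1 := by linarith
          have h7 : p < (p * m).minFac + 1 := by exact_mod_cast h6
          omega
  · intro m _ m' _ h5
    exact Nat.eq_of_mul_eq_mul_left hp.pos h5
  · intro n hn
    rw [mem_filter, mem_filter, mem_win hx] at hn
    obtain ⟨⟨⟨h1, h2⟩, h3⟩, h4⟩ := hn
    have hpn : p ∣ n := h4 ▸ Nat.minFac_dvd n
    obtain ⟨m, rfl⟩ := hpn
    refine ⟨m, ?_, rfl⟩
    rw [mem_rgh hxp]
    have hn0 : p * m ≠ 0 := by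
      intro h5
      rw [h5] at h1
      simp only [Nat.cast_zero] at h1
      linarith
    have hm0 : m ≠ 0 := right_ne_zero_of_mul hn0
    push_cast at h1 h2
    refine ⟨⟨?_, ?_⟩, hm0, ?_⟩
    · rw [div_lt_iff₀ hp0]
      linarith [mul_comm (m : ℝ) (p : ℝ)]
    · rw [le_div_iff₀ hp0]
      linarith [mul_comm (m : ℝ) (p : ℝ)]
    · intro q hq hqm
      have h6 : (p * m).minFac ≤ q := Nat.minFac_le_of_dvd hq.two_le (dvd_mul_of_dvd_right hqm p)
      rw [h4] at h6
      have h7 : (p : ℝ) ≤ q := by exact_mod_cast h6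
      linarith

theorem buchstab (z x h : ℝ) (hx : 0 ≤ x) (hh : 0 ≤ h) :
    ((win x (x + h)).card : ℝ) = (rgh z x (x + h)).card +
      ∑ p ∈ prm 0 z, ((rgh ((p : ℝ) - 1) (x / p) ((x + h) / p)).card : ℝ) := by
  classical
  have h1 : (win x (x + h)).card = (rgh z x (x + h)).card +
      ((win x (x + h)).filter (fun n => ¬ Rough z n)).card := by
    have := Finset.card_filter_add_card_filter_not (s := win x (x + h)) (fun n => Rough z n)
    rw [← this]
    unfold rgh
    congr!
  have h2 : ((win x (x + h)).filter (fun n => ¬ Rough z n)).card =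
      ∑ p ∈ prm 0 z,
        (((win x (x + h)).filter (fun n => ¬ Rough z n)).filter (fun n => n.minFac = p)).card := by
    apply Finset.card_eq_sum_card_fiberwise
    intro n hn
    simp only [Finset.coe_filter, Set.mem_ofPred_eq] at hn
    obtain ⟨hn1, hn2⟩ := hn
    rw [mem_win hx] at hn1
    have hn0 : n ≠ 0 := by
      rintro rfl
      simp only [Nat.cast_zero] at hn1
      linarith
    have hex : ∃ q : ℕ, q.Prime ∧ q ∣ n ∧ (q : ℝ) ≤ z := by
      by_contra hcon
      apply hn2
      refine ⟨hn0, ?_⟩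
      intro q hq hqn
      by_contra h5
      exact hcon ⟨q, hq, hqn, not_lt.1 h5⟩
    obtain ⟨q, hq, hqn, hqz⟩ := hex
    have hn1' : n ≠ 1 := by
      rintro rfl
      exact hq.one_lt.ne' (Nat.dvd_one.1 hqn)
    have hmp := Nat.minFac_prime hn1'
    have hle : n.minFac ≤ q := Nat.minFac_le_of_dvd hq.two_le hqn
    have hle' : ((n.minFac : ℕ) : ℝ) ≤ z := le_trans (by exact_mod_cast hle) hqz
    have h0 : (0 : ℝ) < n.minFac := by exact_mod_cast hmp.pos
    exact Finset.mem_coe.2 ((mem_prm le_rfl).2 ⟨⟨h0, hle'⟩, hmp⟩)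
  rw [h1, h2]
  push_cast
  congr 1
  apply Finset.sum_congr rfl
  intro p hp
  rw [mem_prm le_rfl] at hp
  rw [S08_fiber z x h hx p hp.2 hp.1.2]

end BP4
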