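import Pool.Agent.LibBP4.S10
import Pool.Agent.LibBP4.S03
import Pool.Agent.LibBP4.S06
import Pool.Agent.LibBP4.S07
import Pool.Agent.LibBP4.S08

/-!
TASK S11.  Lower bound sieve.  If `h < z²`: trivial for large `C` since `V z ≤ C/log z` and the exponential
is `≥ exp(-2c)`.  If `h ≥ z²`: Buchstab (`buchstab`), `#win ≥ h - 1`, and for each prime `p ≤ z`
the upper bound `FL_upper` for `rgh (p-1) (x/p) (x/p + h/p)` (for `p ≥ 3`; `p - 1 ≤ h/p` holds as
`h ≥ z²`; for `p = 2` every number is `1`-rough and the count is `≤ h/2 + 1`, `V 1 = 1`).  Here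
`log (h/p) ≥ (1/2) log h` and `log (p-1) ≥ (1/2) log p`, so the error terms sum to at most
`C h ∑_{p ≤ z} exp(-c' log h/log p)/(p log p) ≤ C (h/log z) exp(-c' log h/log z)` by `sum_exp`
(with `lam = c' log h ≥ 2c' log z`), and the main terms give `h V z` by `V_tele`.
-/

open MeasureTheory Finset Filter
open scoped Topology

namespace BP4

open MR57 (tw DP trap SW wh ES IsCM Grep)

theorem S11_card_win {a b : ℝ} (ha : 0 ≤ a) (hab : a ≤ b) :
    b - a - 1 ≤ ((win a b).card : ℝ) ∧ ((win a b).card : ℝ) ≤ b - a + 1 := by
  unfold win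
  rw [Nat.card_Ioc, Nat.cast_sub (Nat.floor_le_floor hab)]
  have h1 := Nat.floor_le ha
  have h2 := Nat.floor_le (ha.trans hab)
  have h3 := Nat.lt_floor_add_one a
  have h4 := Nat.lt_floor_add_one b
  constructor <;> linarith

theorem S11_card_rgh (z : ℝ) {a b : ℝ} (ha : 0 ≤ a) (hab : a ≤ b) :
    ((rgh z a b).card : ℝ) ≤ b - a + 1 := by
  classical
  refine le_trans ?_ (S11_card_win ha hab).2
  exact_mod_cast card_le_card (filter_subset _ _)

theorem S11_V_one : V 1 = 1 := by
  unfold V
  have h : prm 0 1 = ∅ := by
    refine eq_empty_of_forall_notMem fun p hp => ?_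
    obtain ⟨⟨-, h1⟩, h2⟩ := (mem_prm le_rfl).1 hp
    have : p ≤ 1 := by exact_mod_cast h1
    exact absurd h2.two_le (by omega)
  rw [h, prod_empty]

theorem FL_lower : ∃ C c : ℝ, 0 < C ∧ 0 < c ∧ ∀ z x h : ℝ, 2 ≤ z → 0 ≤ x → z ≤ h →
    h * V z - C * (h / Real.log z) * Real.exp (-(c * (Real.log h / Real.log z))) ≤
      ((rgh z x (x + h)).card : ℝ) := by
  obtain ⟨Cu, cu, hCu, hcu, hU⟩ := FL_upper
  obtain ⟨c0, C0, hc0, hC0, hV⟩ := V_bounds
  obtain ⟨Cs, hCs, hS⟩ := sum_exp cu hcu
  obtain ⟨c, hc, hc1, hc2⟩ : ∃ c : ℝ, 0 < c ∧ c ≤ cu / 2 ∧ c ≤ 1 / 4 :=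
    ⟨min (cu / 2) (1 / 4), lt_min (by positivity) (by norm_num), min_le_left _ _, min_le_right _ _⟩
  refine ⟨C0 * Real.exp (2 * c) + 2 + 2 * Cu * Cs, c, by positivity, hc, ?_⟩
  intro z x h hz hx hzh
  have hz0 : 0 < z := by linarith
  have hh0 : 0 < h := by linarith
  have hlz : 0 < Real.log z := Real.log_pos (by linarith)
  have hlh : Real.log z ≤ Real.log h := Real.log_le_log hz0 hzh
  have hlh0 : 0 < Real.log h := by linarith
  have hVz := hV z hz
  have hq : 0 < h / Real.log z := by positivity
  have hexp : 0 < Real.exp (-(c * (Real.log h / Real.log z))) := Real.exp_pos _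
  by_cases hcase : h < z ^ 2
  · -- trivial range
    have h1 : Real.log h / Real.log z ≤ 2 := by
      rw [div_le_iff₀ hlz]
      have := Real.log_le_log hh0 hcase.le
      rw [Real.log_pow] at this
      exact_mod_cast this
    have h2 : Real.exp (-(2 * c)) ≤ Real.exp (-(c * (Real.log h / Real.log z))) := by
      rw [Real.exp_le_exp]
      nlinarith
    have h3 : h * V z ≤ C0 * (h / Real.log z) := by
      have := mul_le_mul_of_nonneg_left hVz.2 hh0.le
      calc h * V z ≤ h * (C0 / Real.log z) := this
        _ = C0 * (h / Real.log z) := by ring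
    have h4 : C0 * (h / Real.log z) ≤ C0 * Real.exp (2 * c) * (h / Real.log z) *
        Real.exp (-(c * (Real.log h / Real.log z))) := by
      have h5 : 1 ≤ Real.exp (2 * c) * Real.exp (-(c * (Real.log h / Real.log z))) := by
        refine le_trans ?_ (mul_le_mul_of_nonneg_left h2 (Real.exp_pos _).le)
        rw [← Real.exp_add, add_neg_cancel, Real.exp_zero]
      calc C0 * (h / Real.log z) = C0 * (h / Real.log z) * 1 := by ring
        _ ≤ C0 * (h / Real.log z) *
            (Real.exp (2 * c) * Real.exp (-(c * (Real.log h / Real.log z)))) :=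
            mul_le_mul_of_nonneg_left h5 (by positivity)
        _ = _ := by ring
    have h6 : 0 ≤ (2 + 2 * Cu * Cs) * (h / Real.log z) *
        Real.exp (-(c * (Real.log h / Real.log z))) := by positivity
    have h7 : (C0 * Real.exp (2 * c) + 2 + 2 * Cu * Cs) * (h / Real.log z) *
        Real.exp (-(c * (Real.log h / Real.log z))) =
        C0 * Real.exp (2 * c) * (h / Real.log z) *
        Real.exp (-(c * (Real.log h / Real.log z))) + (2 + 2 * Cu * Cs) * (h / Real.log z) *
        Real.exp (-(c * (Real.log h / Real.log z))) := by ring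
    rw [h7]
    have h8 : (0 : ℝ) ≤ ((rgh z x (x + h)).card : ℝ) := Nat.cast_nonneg _
    linarith
  · rw [not_lt] at hcase
    have hlh2 : 2 * Real.log z ≤ Real.log h := by
      have := Real.log_le_log (by positivity) hcase
      rw [Real.log_pow] at this
      exact_mod_cast this
    -- the estimate for one prime
    set lam := cu / 2 * Real.log h with hlam
    have hkey : ∀ p ∈ prm 0 z, ((rgh ((p : ℝ) - 1) (x / p) ((x + h) / p)).card : ℝ) ≤
        h * (V ((p : ℝ) - 1) / p) + (if p = 2 then 1 else 0) +
          2 * Cu * h * (Real.exp (-(lam / Real.log p)) / (p * Real.log p)) := by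
      intro p hp
      obtain ⟨⟨-, hpz⟩, hpp⟩ := (mem_prm le_rfl).1 hp
      have hp2 : (2 : ℝ) ≤ p := by exact_mod_cast hpp.two_le
      have hp0 : (0 : ℝ) < p := by linarith
      have hlp : 0 < Real.log p := Real.log_pos (by linarith)
      by_cases hp' : p = 2
      · subst hp'
        rw [if_pos rfl]
        have h1 := S11_card_rgh (((2 : ℕ) : ℝ) - 1) (a := x / (2 : ℕ)) (b := (x + h) / (2 : ℕ))
          (by positivity) (by gcongr; linarith)
        have h2 : V (((2 : ℕ) : ℝ) - 1) = 1 := by
          rw [show ((2 : ℕ) : ℝ) - 1 = 1 by norm_num, S11_V_one]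
        rw [h2]
        have h3 : 0 ≤ 2 * Cu * h *
            (Real.exp (-(lam / Real.log (2 : ℕ))) / ((2 : ℕ) * Real.log (2 : ℕ))) := by
          positivity
        have h4 : (x + h) / ((2 : ℕ) : ℝ) - x / ((2 : ℕ) : ℝ) = h * (1 / ((2 : ℕ) : ℝ)) := by
          ring
        linarith
      · rw [if_neg hp', add_zero]
        have hp3 : (3 : ℝ) ≤ p := by
          have := hpp.two_le
          have h3 : 3 ≤ p := by omega
          exact_mod_cast h3
        have hpp2 : (p : ℝ) * p ≤ h := by
          refine le_trans ?_ hcase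
          rw [sq]
          exact mul_le_mul hpz hpz hp0.le hz0.le
        have h1 : (p : ℝ) - 1 ≤ h / p := by
          rw [le_div_iff₀ hp0]
          nlinarith
        have h2 := hU ((p : ℝ) - 1) (x / p) (h / p) (by linarith) (by positivity) h1
        rw [← add_div] at h2
        refine h2.trans ?_
        have hlp1 : 0 < Real.log ((p : ℝ) - 1) := Real.log_pos (by linarith)
        have h3 : Real.log ((p : ℝ) - 1) ≤ Real.log p :=
          Real.log_le_log (by linarith) (by linarith)
        have h4 : Real.log p ≤ 2 * Real.log ((p : ℝ) - 1) := by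
          have h5 : Real.log p ≤ Real.log (((p : ℝ) - 1) ^ 2) :=
            Real.log_le_log hp0 (by nlinarith)
          rw [Real.log_pow] at h5
          exact_mod_cast h5
        have h5 : Real.log h / 2 ≤ Real.log (h / p) := by
          rw [Real.log_div hh0.ne' hp0.ne']
          have h6 := Real.log_le_log (by positivity) hpp2
          rw [Real.log_mul hp0.ne' hp0.ne'] at h6
          linarith
        have h6 : lam / Real.log p ≤ cu * (Real.log (h / p) / Real.log ((p : ℝ) - 1)) := by
          rw [hlam, mul_div_assoc', div_le_div_iff₀ hlp hlp1]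
          have h7 : cu / 2 * Real.log h ≤ cu * Real.log (h / p) := by nlinarith
          have h8 : 0 ≤ cu / 2 * Real.log h := by positivity
          exact mul_le_mul h7 h3 hlp1.le (h8.trans h7)
        have h7 : Real.exp (-(cu * (Real.log (h / p) / Real.log ((p : ℝ) - 1)))) ≤
            Real.exp (-(lam / Real.log p)) := by
          rw [Real.exp_le_exp]
          linarith
        have h8 : h / p / Real.log ((p : ℝ) - 1) ≤ 2 * (h / (p * Real.log p)) := by
          rw [div_div, mul_div_assoc', div_le_div_iff₀ (by positivity) (by positivity)]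
          have : 0 ≤ h * p := by positivity
          nlinarith
        have h9 : h / p * V ((p : ℝ) - 1) = h * (V ((p : ℝ) - 1) / p) := by ring
        rw [h9]
        have h10 : Cu * (h / p / Real.log ((p : ℝ) - 1)) *
            Real.exp (-(cu * (Real.log (h / p) / Real.log ((p : ℝ) - 1)))) ≤
            Cu * (2 * (h / (p * Real.log p))) * Real.exp (-(lam / Real.log p)) :=
          mul_le_mul (mul_le_mul_of_nonneg_left h8 hCu.le) h7 (Real.exp_pos _).le
            (by positivity)
        have h11 : Cu * (2 * (h / (p * Real.log p))) * Real.exp (-(lam / Real.log p)) =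
            2 * Cu * h * (Real.exp (-(lam / Real.log p)) / (p * Real.log p)) := by ring
        linarith
    -- summation
    have hsum := sum_le_sum hkey
    rw [sum_add_distrib, sum_add_distrib, ← mul_sum, ← mul_sum] at hsum
    have hite : ∑ p ∈ prm 0 z, (if p = 2 then (1 : ℝ) else 0) ≤ 1 := by
      rw [sum_ite_eq']
      split_ifs <;> norm_num
    have hse := hS z lam hz (by rw [hlam]; nlinarith)
    have htele := V_tele z hz0.le
    have hbu := buchstab z x h hx hh0.le
    have hwin := (S11_card_win hx (by linarith : x ≤ x + h)).1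
    -- the error terms
    have hL : 0 ≤ Real.log h / Real.log z := by positivity
    have he1 : Real.exp (-(lam / Real.log z)) ≤ Real.exp (-(c * (Real.log h / Real.log z))) := by
      rw [Real.exp_le_exp, hlam, neg_le_neg_iff, mul_div_assoc]
      exact mul_le_mul_of_nonneg_right hc1 hL
    have he2 : 2 * Cu * h * ∑ p ∈ prm 0 z, Real.exp (-(lam / Real.log p)) / (p * Real.log p) ≤
        2 * Cu * Cs * (h / Real.log z) * Real.exp (-(c * (Real.log h / Real.log z))) := by
      calc _ ≤ 2 * Cu * h * (Cs / Real.log z * Real.exp (-(lam / Real.log z))) :=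
            mul_le_mul_of_nonneg_left hse (by positivity)
        _ ≤ 2 * Cu * h * (Cs / Real.log z * Real.exp (-(c * (Real.log h / Real.log z)))) := by
            gcongr
        _ = _ := by ring
    have he3 : 1 ≤ h / Real.log z * Real.exp (-(c * (Real.log h / Real.log z))) := by
      have hl2 : (1 / 2 : ℝ) ≤ Real.log z := by
        have h1 := Real.log_le_log (by norm_num) hz
        have h2 := Real.log_two_gt_d9
        linarith
      have h1 : Real.exp (-(Real.log h / 2)) ≤ Real.exp (-(c * (Real.log h / Real.log z))) := by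
        rw [Real.exp_le_exp, neg_le_neg_iff]
        rw [mul_div_assoc', div_le_iff₀ hlz]
        have h2 : c * Real.log h ≤ 1 / 4 * Real.log h := mul_le_mul_of_nonneg_right hc2 hlh0.le
        have h3 : Real.log h / 2 * (1 / 2) ≤ Real.log h / 2 * Real.log z :=
          mul_le_mul_of_nonneg_left hl2 (by positivity)
        linarith
      have h2 : h = Real.exp (Real.log h / 2) * Real.exp (Real.log h / 2) := by
        rw [← Real.exp_add, add_halves, Real.exp_log hh0]
      have h3 : z ≤ Real.exp (Real.log h / 2) := by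
        rw [← Real.log_le_iff_le_exp hz0]
        linarith
      have h4 : Real.log z ≤ z := (Real.log_le_sub_one_of_pos hz0).trans (by linarith)
      have h5 : h * Real.exp (-(Real.log h / 2)) = Real.exp (Real.log h / 2) := by
        rw [Real.exp_neg, mul_inv_eq_iff_eq_mul₀ (Real.exp_pos _).ne']
        exact h2
      calc (1 : ℝ) ≤ Real.exp (Real.log h / 2) / Real.log z := by
            rw [one_le_div hlz]
            linarith
        _ = h / Real.log z * Real.exp (-(Real.log h / 2)) := by rw [← h5]; ring
        _ ≤ _ := mul_le_mul_of_nonneg_left h1 hq.le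
    have he4 : 0 ≤ C0 * Real.exp (2 * c) * (h / Real.log z *
        Real.exp (-(c * (Real.log h / Real.log z)))) := by positivity
    have he5 : (C0 * Real.exp (2 * c) + 2 + 2 * Cu * Cs) * (h / Real.log z) *
        Real.exp (-(c * (Real.log h / Real.log z))) =
        C0 * Real.exp (2 * c) * (h / Real.log z *
        Real.exp (-(c * (Real.log h / Real.log z)))) +
        2 * (h / Real.log z * Real.exp (-(c * (Real.log h / Real.log z)))) +
        2 * Cu * Cs * (h / Real.log z) * Real.exp (-(c * (Real.log h / Real.log z))) := by ring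
    rw [he5]
    have hmain : h * V z = h - h * ∑ p ∈ prm 0 z, V ((p : ℝ) - 1) / p := by
      rw [htele]; ring
    linarith

end BP4
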