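import Pool.Agent.LibBP4.S10
import Pool.Agent.LibBP4.S11
import Pool.Agent.LibBP4.S03

/-!
TASK S12.  The fundamental lemma, two sided, and the crude upper bound (assembly).
-/

open MeasureTheory Finset Filter
open scoped Topology

namespace BP4

open MR57 (tw DP trap SW wh ES IsCM Grep)

theorem FL : ∃ C c : ℝ, 0 < C ∧ 0 < c ∧ ∀ z x h : ℝ, 2 ≤ z → 0 ≤ x → z ≤ h →
    |((rgh z x (x + h)).card : ℝ) - h * V z| ≤
      C * (h / Real.log z) * Real.exp (-(c * (Real.log h / Real.log z))) := by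
  obtain ⟨C1, c1, hC1, hc1, h1⟩ := FL_upper
  obtain ⟨C2, c2, hC2, hc2, h2⟩ := FL_lower
  refine ⟨max C1 C2, min c1 c2, lt_max_of_lt_left hC1, lt_min hc1 hc2, ?_⟩
  intro z x h hz hx hh
  have u1 := h1 z x h hz hx hh
  have u2 := h2 z x h hz hx hh
  have hlz : 0 < Real.log z := Real.log_pos (by linarith)
  have hlh : 0 < Real.log h := Real.log_pos (by linarith)
  have hh0 : 0 < h := by linarith
  have key : ∀ C' c' : ℝ, 0 < C' → C' ≤ max C1 C2 → min c1 c2 ≤ c' →
      C' * (h / Real.log z) * Real.exp (-(c' * (Real.log h / Real.log z))) ≤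
      max C1 C2 * (h / Real.log z) *
        Real.exp (-(min c1 c2 * (Real.log h / Real.log z))) := by
    intro C' c' hC' hCC hcc
    have hq : 0 ≤ Real.log h / Real.log z := by positivity
    apply mul_le_mul
    · exact mul_le_mul_of_nonneg_right hCC (by positivity)
    · exact Real.exp_le_exp.mpr (neg_le_neg (mul_le_mul_of_nonneg_right hcc hq))
    · exact (Real.exp_pos _).le
    · exact mul_nonneg (hC'.le.trans hCC) (by positivity)
  have k1 := key C1 c1 hC1 (le_max_left _ _) (min_le_left _ _)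
  have k2 := key C2 c2 hC2 (le_max_right _ _) (min_le_right _ _)
  rw [abs_le]
  constructor <;> linarith

theorem rgh_card_le : ∃ C : ℝ, 0 < C ∧ ∀ z x h : ℝ, 2 ≤ z → 0 ≤ x → z ≤ h →
    ((rgh z x (x + h)).card : ℝ) ≤ C * (h / Real.log z) := by
  obtain ⟨C1, c1, hC1, hc1, h1⟩ := FL_upper
  obtain ⟨c2, C2, hc2, hC2, h2⟩ := V_bounds
  refine ⟨C2 + C1, by positivity, ?_⟩
  intro z x h hz hx hh
  have u1 := h1 z x h hz hx hh
  have u2 := (h2 z hz).2
  have hlz : 0 < Real.log z := Real.log_pos (by linarith)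
  have hlh : 0 < Real.log h := Real.log_pos (by linarith)
  have hh0 : 0 < h := by linarith
  have e1 : Real.exp (-(c1 * (Real.log h / Real.log z))) ≤ 1 :=
    Real.exp_le_one_iff.mpr (by
      have : 0 ≤ c1 * (Real.log h / Real.log z) := by positivity
      linarith)
  have e2 : h * V z ≤ h * (C2 / Real.log z) := mul_le_mul_of_nonneg_left u2 hh0.le
  have e3 : C1 * (h / Real.log z) * Real.exp (-(c1 * (Real.log h / Real.log z))) ≤
      C1 * (h / Real.log z) * 1 := mul_le_mul_of_nonneg_left e1 (by positivity)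
  have e4 : h * (C2 / Real.log z) = C2 * (h / Real.log z) := by ring
  nlinarith

end BP4
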