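import Pool.Agent.LibBP4.E07
import Pool.Agent.LibBP4.S12

/-!
TASK R03a.  Mean square of the factor `A_j`.  `A(t)` is over `n ∈ win (M/N) ((1+δ)M/N)` with coefficients `cf`,
supported on `z`-rough numbers (`z = M^{1/u}`), `|cf| ≤ 1`; the scale `M' = M/N ≥ √M/3 ≥ M^{0.4}`
satisfies `M'^{1/u} ≤ z`, `M³ ≤ M'^8`.  `hm_rough (1/8)` with `κ = 1/u`, `s` = the rough numbers of the
window, `#s ≤ C δM'/log z ≤ C u M'/log M` (`rgh_card_le`, `δM' ≥ z` for large `M`).  Take
`c = c'/4` with `c'` from `hm_rough (1/8)`.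
-/

open MeasureTheory Finset Filter
open scoped Topology

namespace BP4

open MR57 (tw DP trap SW wh ES IsCM Grep)

theorem R03a_rough_mono {z z' : ℝ} (h : z' ≤ z) {n : ℕ} (hn : Rough z n) : Rough z' n :=
  ⟨hn.1, fun p hp hd => h.trans_lt (hn.2 p hp hd)⟩

theorem R03a_norm_cf (z y : ℝ) (n : ℕ) : ‖cf z y n‖ ≤ 1 := by
  classical
  unfold cf
  split_ifs
  · have h : ((om z y n : ℂ) + 1) = (((om z y n : ℝ) + 1 : ℝ) : ℂ) := by push_cast; ring
    rw [h, norm_div, norm_one, Complex.norm_real, Real.norm_eq_abs,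
      abs_of_nonneg (by positivity)]
    rw [div_le_one (by positivity)]
    have : (0 : ℝ) ≤ om z y n := by positivity
    linarith
  · simp

theorem R03a_DP (z y a b t : ℝ) : DP (win a b) (cf z y) t = DP (rgh z a b) (cf z y) t := by
  classical
  unfold MR57.DP rgh
  rw [Finset.sum_filter]
  apply Finset.sum_congr rfl
  intro n _
  split_ifs with h
  · rfl
  · have : cf z y n = 0 := by
      unfold cf
      rw [if_neg h]
    rw [this, zero_mul]

theorem A_bound : ∃ c : ℝ, 0 < c ∧ ∀ u δ : ℝ, 25 ≤ u → 0 < δ → δ ≤ 1 → ∃ C M₀ : ℝ, 0 < C ∧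
    2 ≤ M₀ ∧ ∀ (M N y : ℝ) (T : Finset ℝ), M₀ ≤ M → 1 ≤ N → N ^ 2 ≤ 9 * M →
    MR57.Sep (M ^ 3) T → (T.card : ℝ) ≤ M ^ c →
    ∑ t ∈ T, ‖DP (win (M / N) ((1 + δ) * (M / N))) (cf (M ^ (1 / u)) y) t‖ ^ 2 ≤
      C * (M / N / Real.log M) ^ 2 := by
  obtain ⟨c, hc, H⟩ := hm_rough (1 / 8) (by norm_num)
  obtain ⟨C₁, hC₁, hcardr⟩ := rgh_card_le
  refine ⟨c / 4, by positivity, ?_⟩
  intro u δ hu hδ hδ1
  have hu0 : 0 < u := by linarith
  obtain ⟨C₂, M₁, hC₂, hM₁, H2⟩ := H (1 / u) (by positivity) (by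
    rw [div_le_one hu0]; linarith)
  refine ⟨4 * u * C₁ * C₂, max (max 6561 (2 ^ u)) (max ((3 / δ) ^ 4) (9 * M₁ ^ 2)), by positivity,
    le_max_of_le_left (le_max_of_le_left (by norm_num)), ?_⟩
  intro M N y T hM hN hNM hsep hcard
  have h6561 : 6561 ≤ M := (le_max_left _ _).trans ((le_max_left _ _).trans hM)
  have h2u : (2 : ℝ) ^ u ≤ M := (le_max_right _ _).trans ((le_max_left _ _).trans hM)
  have hδ4 : (3 / δ) ^ 4 ≤ M := (le_max_left _ _).trans ((le_max_right _ _).trans hM)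
  have hM9 : 9 * M₁ ^ 2 ≤ M := (le_max_right _ _).trans ((le_max_right _ _).trans hM)
  have hM0 : 0 < M := by linarith
  have hN0 : 0 < N := by linarith
  set M' : ℝ := M / N with hM'
  have hM'0 : 0 < M' := by positivity
  have hM'le : M' ≤ M := by
    rw [hM']
    exact div_le_self hM0.le hN
  -- `M' ≥ √M/3`
  have hsq0 : 0 < Real.sqrt M := Real.sqrt_pos.2 hM0
  have hsq2 : Real.sqrt M ^ 2 = M := Real.sq_sqrt hM0.le
  have hN3 : N ≤ 3 * Real.sqrt M := by
    have h1 : N ^ 2 ≤ (3 * Real.sqrt M) ^ 2 := by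
      rw [mul_pow, hsq2]
      linarith
    exact (pow_le_pow_iff_left₀ hN0.le (by positivity) (by norm_num)).1 h1
  have hM'ge : Real.sqrt M / 3 ≤ M' := by
    rw [hM', le_div_iff₀ hN0]
    calc Real.sqrt M / 3 * N ≤ Real.sqrt M / 3 * (3 * Real.sqrt M) :=
          mul_le_mul_of_nonneg_left hN3 (by positivity)
      _ = Real.sqrt M ^ 2 := by ring
      _ = M := hsq2
  -- fourth root
  set r : ℝ := M ^ (1 / 4 : ℝ) with hr
  have hr0 : 0 < r := Real.rpow_pos_of_pos hM0 _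
  have hr4 : r ^ 4 = M := by
    rw [hr, ← Real.rpow_natCast, ← Real.rpow_mul hM0.le]
    norm_num
  have hr2 : r ^ 2 = Real.sqrt M := by
    rw [Real.sqrt_eq_rpow, hr, ← Real.rpow_natCast, ← Real.rpow_mul hM0.le]
    norm_num
  have hr9 : 9 ≤ r := by
    have h1 : (9 : ℝ) ^ 4 ≤ r ^ 4 := by
      rw [hr4]
      norm_num
      exact h6561
    exact (pow_le_pow_iff_left₀ (by norm_num) hr0.le (by norm_num)).1 h1
  have hrM' : r ≤ M' := by
    refine le_trans ?_ hM'ge
    rw [← hr2]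
    nlinarith
  have hX : M ^ 3 ≤ M' ^ (1 / (1 / 8 : ℝ)) := by
    have e : (1 / (1 / 8 : ℝ)) = ((8 : ℕ) : ℝ) := by norm_num
    rw [e, Real.rpow_natCast]
    calc M ^ 3 ≤ (Real.sqrt M / 3) ^ 8 := by
          have : (Real.sqrt M / 3) ^ 8 = (Real.sqrt M ^ 2) ^ 4 / 6561 := by ring
          rw [this, hsq2, le_div_iff₀ (by norm_num)]
          have h1 : (0 : ℝ) ≤ M ^ 3 := by positivity
          calc M ^ 3 * 6561 ≤ M ^ 3 * M := mul_le_mul_of_nonneg_left h6561 h1
            _ = M ^ 4 := by ring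
      _ ≤ M' ^ 8 := pow_le_pow_left₀ (by positivity) hM'ge 8
  have hM1M' : M₁ ≤ M' := by
    refine le_trans ?_ hM'ge
    have h1 : (3 * M₁) ^ 2 ≤ Real.sqrt M ^ 2 := by
      rw [hsq2]
      calc (3 * M₁) ^ 2 = 9 * M₁ ^ 2 := by ring
        _ ≤ M := hM9
    have h2 := (pow_le_pow_iff_left₀ (by linarith : (0 : ℝ) ≤ 3 * M₁) hsq0.le
      (by norm_num : (2 : ℕ) ≠ 0)).1 h1
    linarith
  set z : ℝ := M ^ (1 / u) with hz
  have hz2 : 2 ≤ z := by
    have h1 : ((2 : ℝ) ^ u) ^ (1 / u) ≤ M ^ (1 / u) :=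
      Real.rpow_le_rpow (by positivity) h2u (by positivity)
    rw [← Real.rpow_mul (by norm_num), mul_one_div_cancel hu0.ne', Real.rpow_one] at h1
    exact h1
  have hzr : z ≤ r := by
    rw [hz, hr]
    apply Real.rpow_le_rpow_of_exponent_le (by linarith)
    rw [div_le_div_iff₀ hu0 (by norm_num)]
    linarith
  have hzh : z ≤ δ * M' := by
    refine hzr.trans ?_
    have h1 : 3 / δ ≤ r := by
      have h2 : (3 / δ) ^ 4 ≤ r ^ 4 := by rw [hr4]; exact hδ4
      exact (pow_le_pow_iff_left₀ (by positivity) hr0.le (by norm_num)).1 h2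
    have h2 : 3 ≤ δ * r := by
      rw [div_le_iff₀ hδ] at h1
      linarith
    calc r ≤ (δ * r) * r / 3 := by
          rw [le_div_iff₀ (by norm_num)]
          nlinarith
      _ = δ * (r ^ 2 / 3) := by ring
      _ ≤ δ * M' := by
          apply mul_le_mul_of_nonneg_left _ hδ.le
          rw [hr2]
          exact hM'ge
  have hcard' : (T.card : ℝ) ≤ M' ^ c := by
    refine hcard.trans ?_
    calc M ^ (c / 4) = r ^ c := by
          rw [hr, ← Real.rpow_mul hM0.le]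
          congr 1
          ring
      _ ≤ M' ^ c := Real.rpow_le_rpow hr0.le hrM' hc.le
  have hkey := H2 M' (M ^ 3) (rgh z M' ((1 + δ) * M')) (cf z y) T hM1M' hX (by
    intro n hn
    rw [mem_rgh hM'0.le] at hn
    refine ⟨R03a_rough_mono ?_ hn.2, hn.1.1, ?_⟩
    · exact Real.rpow_le_rpow hM'0.le hM'le (by positivity)
    · have := hn.1.2
      nlinarith) (R03a_norm_cf z y) hsep hcard'
  have hcd : ((rgh z M' ((1 + δ) * M')).card : ℝ) ≤ C₁ * (δ * M' / Real.log z) := by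
    have e : (1 + δ) * M' = M' + δ * M' := by ring
    rw [e]
    exact hcardr z M' (δ * M') hz2 hM'0.le hzh
  have hlogM : 0 < Real.log M := Real.log_pos (by linarith)
  have hlogz : Real.log z = (1 / u) * Real.log M := by
    rw [hz, Real.log_rpow hM0]
  have hlogM' : (1 / 4) * Real.log M ≤ Real.log M' := by
    have h1 : Real.log r ≤ Real.log M' := Real.log_le_log hr0 hrM'
    rw [hr, Real.log_rpow hM0] at h1
    exact h1
  simp only [R03a_DP]
  have hq : M' / Real.log M' ≤ 4 * (M' / Real.log M) := by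
    calc M' / Real.log M' ≤ M' / ((1 / 4) * Real.log M) :=
          div_le_div_of_nonneg_left hM'0.le (by positivity) hlogM'
      _ = 4 * (M' / Real.log M) := by field_simp
  have hcd2 : ((rgh z M' ((1 + δ) * M')).card : ℝ) ≤ C₁ * (u * (M' / Real.log M)) := by
    refine hcd.trans ?_
    apply mul_le_mul_of_nonneg_left _ hC₁.le
    rw [hlogz]
    have e : δ * M' / ((1 / u) * Real.log M) = δ * (u * (M' / Real.log M)) := by field_simp
    rw [e]
    have h1 : 0 ≤ u * (M' / Real.log M) := by positivity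
    nlinarith
  have hlogM'pos : 0 < Real.log M' := by linarith [mul_pos (by norm_num : (0 : ℝ) < 1 / 4) hlogM]
  calc ∑ t ∈ T, ‖DP (rgh z M' ((1 + δ) * M')) (cf z y) t‖ ^ 2
      ≤ C₂ * ((rgh z M' ((1 + δ) * M')).card : ℝ) * (M' / Real.log M') := hkey
    _ ≤ C₂ * (C₁ * (u * (M' / Real.log M))) * (4 * (M' / Real.log M)) := by
        apply mul_le_mul (mul_le_mul_of_nonneg_left hcd2 hC₂.le) hq (by positivity) (by positivity)
    _ = 4 * u * C₁ * C₂ * (M' / Real.log M) ^ 2 := by ring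

end BP4
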