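import Pool.Agent.LibBP4.E07
import Pool.Agent.LibBP4.R02

/-!
TASK R04a.  The exceptional numbers: `hm_rough (1/4)` with `κ = 1/u` (all elements of `Uset z e δ M` are
`z`-rough and in `(M, 4M]`) and `Uset_card`:
`∑_T ≤ C(u) (e M u/log M + M^{1-1/u}) M/log M`, where `C(u)` does not depend on `e`; so take
`e₀ ≤ η/(4 C C(u) u)`, then `M₀`.
-/

open MeasureTheory Finset Filter
open scoped Topology

namespace BP4

open MR57 (tw DP trap SW wh ES IsCM Grep)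

theorem U_part : ∃ c : ℝ, 0 < c ∧ ∀ u η : ℝ, 25 ≤ u → 0 < η → ∃ e₀ : ℝ, 0 < e₀ ∧ e₀ ≤ 1 ∧
    ∀ e δ : ℝ, 0 < e → e ≤ e₀ → 0 < δ → δ ≤ 1 → ∃ M₀ : ℝ, 2 ≤ M₀ ∧
    ∀ (M : ℝ) (T : Finset ℝ) (r : ℕ → ℂ), M₀ ≤ M → (∀ n, ‖r n‖ ≤ 1) → MR57.Sep (M ^ 3) T →
    (T.card : ℝ) ≤ M ^ c →
    ∑ t ∈ T, ‖DP (Uset (M ^ (1 / u)) e δ M) r t‖ ^ 2 ≤ η * (M / Real.log M) ^ 2 := by
  obtain ⟨c, hc, hm⟩ := hm_rough (1 / 3) (by norm_num)
  obtain ⟨C2, hC2, hU⟩ := Uset_card
  refine ⟨c, hc, ?_⟩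
  intro u η hu hη
  have hu0 : 0 < u := by linarith
  have hκ : 0 < 1 / u := by positivity
  have hκ1 : 1 / u ≤ 1 := by
    rw [div_le_one hu0]
    linarith
  have hκ1' : 1 / u < 1 := by
    rw [div_lt_one hu0]
    linarith
  obtain ⟨C1, M1, hC1, hM1, hh⟩ := hm (1 / u) hκ hκ1
  refine ⟨min 1 (η / (2 * (C1 * C2 * u))), ?_, min_le_left _ _, ?_⟩
  · exact lt_min one_pos (by positivity)
  intro e δ he hee hδ hδ1
  have he1 : e ≤ 1 := hee.trans (min_le_left _ _)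
  have he2 : e ≤ η / (2 * (C1 * C2 * u)) := hee.trans (min_le_right _ _)
  have ev1 : ∀ᶠ M : ℝ in atTop, 2 ≤ M ^ (1 / u) :=
    (tendsto_rpow_atTop hκ).eventually_ge_atTop 2
  have ev2 : ∀ᶠ M : ℝ in atTop, 1 / e ≤ M ^ (1 - 1 / u) :=
    (tendsto_rpow_atTop (by linarith)).eventually_ge_atTop (1 / e)
  have ev3 : ∀ᶠ M : ℝ in atTop, ‖Real.log M‖ ≤ (η / (2 * (C1 * C2))) * ‖M ^ (1 / u)‖ :=
    (isLittleO_log_rpow_atTop hκ).def (by positivity)
  obtain ⟨M2, hM2⟩ := Filter.eventually_atTop.1 (ev1.and (ev2.and ev3))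
  refine ⟨max M1 (max M2 2), (le_max_right _ _).trans (le_max_right _ _), ?_⟩
  intro M T r hM hr hSep hT
  have hMM1 : M1 ≤ M := (le_max_left _ _).trans hM
  have hMM2 : M2 ≤ M := ((le_max_left _ _).trans (le_max_right _ _)).trans hM
  have hM2' : 2 ≤ M := ((le_max_right _ _).trans (le_max_right _ _)).trans hM
  obtain ⟨f1, f2, f3⟩ := hM2 M hMM2
  have hM0 : 0 < M := by linarith
  have hL : 0 < Real.log M := Real.log_pos (by linarith)
  have hz0 : 0 < M ^ (1 / u) := Real.rpow_pos_of_pos hM0 _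
  have f2' : M ^ (1 / u) ≤ e * M := by
    have h1 : M ^ (1 / u) * M ^ (1 - 1 / u) = M := by
      rw [← Real.rpow_add hM0]
      have : 1 / u + (1 - 1 / u) = 1 := by ring
      rw [this, Real.rpow_one]
    have h2 : M ^ (1 / u) * (1 / e) ≤ M := by
      calc M ^ (1 / u) * (1 / e) ≤ M ^ (1 / u) * M ^ (1 - 1 / u) :=
            mul_le_mul_of_nonneg_left f2 hz0.le
        _ = M := h1
    rw [mul_one_div, div_le_iff₀ he] at h2
    linarith
  have f3' : C1 * C2 * Real.log M ≤ η / 2 * M ^ (1 / u) := by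
    rw [Real.norm_of_nonneg hL.le, Real.norm_of_nonneg hz0.le] at f3
    have h1 : C1 * C2 * Real.log M ≤ C1 * C2 * (η / (2 * (C1 * C2)) * M ^ (1 / u)) :=
      mul_le_mul_of_nonneg_left f3 (by positivity)
    have h2 : C1 * C2 * (η / (2 * (C1 * C2)) * M ^ (1 / u)) = η / 2 * M ^ (1 / u) := by
      field_simp
    linarith
  have hX : M ^ 3 ≤ M ^ (1 / (1 / 3 : ℝ)) := by
    have h1 : (1 / (1 / 3 : ℝ)) = ((3 : ℕ) : ℝ) := by norm_num
    rw [h1, Real.rpow_natCast]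
  have hs : ∀ n ∈ Uset (M ^ (1 / u)) e δ M,
      Rough (M ^ (1 / u)) n ∧ M < n ∧ (n : ℝ) ≤ 4 * M := by
    intro n hn
    unfold Uset at hn
    classical
    rw [Finset.mem_filter, mem_rgh hM0.le] at hn
    obtain ⟨⟨⟨h1, h2⟩, h3⟩, _⟩ := hn
    refine ⟨h3, h1, h2.trans ?_⟩
    have : (1 + δ) * (1 + e) ≤ 4 := by nlinarith
    exact mul_le_mul_of_nonneg_right this hM0.le
  have g1 := hh M (M ^ 3) (Uset (M ^ (1 / u)) e δ M) r T hMM1 hX hs hr hSep hT
  have g2 := hU M δ (M ^ (1 / u)) e f1 hδ hδ1 he he1 f2'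
  refine g1.trans ?_
  have hlogz : Real.log (M ^ (1 / u)) = 1 / u * Real.log M := Real.log_rpow hM0 _
  rw [hlogz] at g2
  have hMLpos : 0 < M / Real.log M := by positivity
  have g3 : C1 * ((Uset (M ^ (1 / u)) e δ M).card : ℝ) * (M / Real.log M) ≤
      C1 * (C2 * (e * M / (1 / u * Real.log M) + M / M ^ (1 / u))) * (M / Real.log M) := by
    apply mul_le_mul_of_nonneg_right _ hMLpos.le
    exact mul_le_mul_of_nonneg_left g2 hC1.le
  refine g3.trans ?_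
  have g4 : C1 * (C2 * (e * M / (1 / u * Real.log M))) * (M / Real.log M) ≤
      η / 2 * (M / Real.log M) ^ 2 := by
    have h1 : C1 * (C2 * (e * M / (1 / u * Real.log M))) * (M / Real.log M) =
        (C1 * C2 * u) * e * (M / Real.log M) ^ 2 := by
      field_simp
    rw [h1]
    apply mul_le_mul_of_nonneg_right _ (by positivity)
    have h2 : (C1 * C2 * u) * e ≤ (C1 * C2 * u) * (η / (2 * (C1 * C2 * u))) :=
      mul_le_mul_of_nonneg_left he2 (by positivity)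
    have h3 : (C1 * C2 * u) * (η / (2 * (C1 * C2 * u))) = η / 2 := by
      field_simp
    linarith
  have g5 : C1 * (C2 * (M / M ^ (1 / u))) * (M / Real.log M) ≤
      η / 2 * (M / Real.log M) ^ 2 := by
    have h1 : C1 * (C2 * (M / M ^ (1 / u))) * (M / Real.log M) =
        (C1 * C2 * Real.log M / M ^ (1 / u)) * (M / Real.log M) ^ 2 := by
      field_simp
    rw [h1]
    apply mul_le_mul_of_nonneg_right _ (by positivity)
    rw [div_le_iff₀ hz0]
    exact f3'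
  have g6 : C1 * (C2 * (e * M / (1 / u * Real.log M) + M / M ^ (1 / u))) * (M / Real.log M) =
      C1 * (C2 * (e * M / (1 / u * Real.log M))) * (M / Real.log M) +
        C1 * (C2 * (M / M ^ (1 / u))) * (M / Real.log M) := by ring
  rw [g6]
  linarith

end BP4
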