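import Pool.Agent.LibBP4.E10

/-!
TASK R04b.  The rough part: `spart` with `u` so large that `C u² exp(-c'u) ≤ η/2`, then `T₀` with
`C u²/T₀ ≤ η/2`.
-/

open MeasureTheory Finset Filter
open scoped Topology

namespace BP4

open MR57 (tw DP trap SW wh ES IsCM Grep)

/-- choice of the parameter `u` -/
theorem R04b_exists_u (C c' η : ℝ) (hc' : 0 < c') (hη : 0 < η) :
    ∃ u : ℝ, 25 ≤ u ∧ C * u ^ 2 * Real.exp (-(c' * u)) ≤ η / 2 := by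
  have h1 : Tendsto (fun x : ℝ => x ^ 2 * Real.exp (-x)) atTop (𝓝 0) :=
    Real.tendsto_pow_mul_exp_neg_atTop_nhds_zero 2
  have h2 : Tendsto (fun u : ℝ => c' * u) atTop atTop := tendsto_id.const_mul_atTop hc'
  have h3 : Tendsto (fun u : ℝ => (C / c' ^ 2) * ((c' * u) ^ 2 * Real.exp (-(c' * u)))) atTop
      (𝓝 ((C / c' ^ 2) * 0)) := (h1.comp h2).const_mul _
  rw [mul_zero] at h3
  have h4 : ∀ᶠ u : ℝ in atTop,
      (C / c' ^ 2) * ((c' * u) ^ 2 * Real.exp (-(c' * u))) < η / 2 :=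
    h3.eventually_lt_const (by positivity)
  obtain ⟨u, hu1, hu2⟩ := (h4.and (eventually_ge_atTop (25 : ℝ))).exists
  refine ⟨u, hu2, ?_⟩
  have h5 : (C / c' ^ 2) * ((c' * u) ^ 2 * Real.exp (-(c' * u)))
      = C * u ^ 2 * Real.exp (-(c' * u)) := by
    field_simp
  rw [h5] at hu1
  exact hu1.le

theorem S_part : ∃ c : ℝ, 0 < c ∧ ∀ η : ℝ, 0 < η → ∃ u T₀ : ℝ, 25 ≤ u ∧ 1 ≤ T₀ ∧ ∀ δ : ℝ, 0 < δ →
    δ ≤ 1 → ∃ M₀ : ℝ, 2 ≤ M₀ ∧ ∀ (M : ℝ) (T : Finset ℝ), M₀ ≤ M → MR57.Sep (M ^ 3) T →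
    (∀ t ∈ T, T₀ ≤ |t|) → (T.card : ℝ) ≤ M ^ c →
    ∑ t ∈ T, ‖DP (rgh (M ^ (1 / u)) M ((1 + δ) * M)) (fun _ => 1) t‖ ^ 2 ≤
      η * (M / Real.log M) ^ 2 := by
  obtain ⟨C, c, c', hC, hc, hc', H⟩ := spart
  refine ⟨c, hc, fun η hη => ?_⟩
  obtain ⟨u, hu25, hu⟩ := R04b_exists_u C c' η hc' hη
  have hu0 : 0 < u := by linarith
  refine ⟨u, max 1 (2 * C * u ^ 2 / η), hu25, le_max_left _ _, fun δ hδ0 hδ1 => ?_⟩
  obtain ⟨M₀, hM₀, H2⟩ := H u δ (max 1 (2 * C * u ^ 2 / η)) hu25 hδ0 hδ1 (le_max_left _ _)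
  refine ⟨M₀, hM₀, fun M T hM hT hT2 hcard => ?_⟩
  refine (H2 M T hM hT hT2 hcard).trans ?_
  have hT0 : 0 < max 1 (2 * C * u ^ 2 / η) := lt_of_lt_of_le one_pos (le_max_left _ _)
  have h1 : C * u ^ 2 * (1 / max 1 (2 * C * u ^ 2 / η)) ≤ η / 2 := by
    rw [mul_one_div, div_le_iff₀ hT0]
    have h2 : 2 * C * u ^ 2 / η ≤ max 1 (2 * C * u ^ 2 / η) := le_max_right _ _
    have h3 : C * u ^ 2 = η / 2 * (2 * C * u ^ 2 / η) := by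
      field_simp
    rw [h3]
    exact mul_le_mul_of_nonneg_left h2 (by positivity)
  have h4 : C * (u * (M / Real.log M)) ^ 2 *
      (Real.exp (-(c' * u)) + 1 / max 1 (2 * C * u ^ 2 / η))
      = (C * u ^ 2 * Real.exp (-(c' * u)) + C * u ^ 2 * (1 / max 1 (2 * C * u ^ 2 / η))) *
        (M / Real.log M) ^ 2 := by ring
  rw [h4]
  refine mul_le_mul_of_nonneg_right ?_ (sq_nonneg _)
  linarith

end BP4
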