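import Pool.Agent.LibBP4.R01
import Pool.Agent.LibBP4.R03
import Pool.Agent.LibBP4.R04a
import Pool.Agent.LibBP4.R04b

/-!
TASK R04.  Products of two prime polynomials on a sparse set (assembly).  `c` = the minimum of the exponents
of `S_part`, `U_part`, `bilinear`, `Q_bound`.  Given `η`: `u, T₀` from `S_part`, then
`e ≤ min e₀ δ`, then `bilinear` with `η/3`.  With `z = M^{1/u}` pick `J` with
`2M ≤ (z(1+e)^J)² ≤ 9M` (`J` least with `2M ≤ (z(1+e)^J)²`; `(1+e)² 2 ≤ 9`; `z² ≤ 2M`).  By `decomp`,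
`‖PP δ M t‖ ≤ ‖S‖ + ∑_j ‖P_j‖‖A_j‖ + ‖DP (Uset) r‖`; Cauchy with
`∑_T ‖QQ‖² ≤ C (aM/log M)²` for the first and the third.
-/

open MeasureTheory Finset Filter
open scoped Topology

namespace BP4

open MR57 (tw DP trap SW wh ES IsCM Grep)

theorem R04_cauchy (T : Finset ℝ) (f g : ℝ → ℝ) (η₁ C a K η : ℝ) (hC : 0 < C) (ha : 1 ≤ a)
    (hη : 0 < η) (hη₁ : η₁ = η ^ 2 / (9 * C * a ^ 2))
    (hf : ∑ t ∈ T, f t ^ 2 ≤ η₁ * K ^ 2) (hg : ∑ t ∈ T, g t ^ 2 ≤ C * (a * K) ^ 2) :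
    ∑ t ∈ T, f t * g t ≤ η / 3 * K ^ 2 := by
  have ha0 : 0 < a := by linarith
  have h1 : (∑ t ∈ T, f t * g t) ^ 2 ≤ (η / 3 * K ^ 2) ^ 2 := by
    have hη₁0 : 0 < η₁ := by rw [hη₁]; positivity
    calc (∑ t ∈ T, f t * g t) ^ 2 ≤ (∑ t ∈ T, f t ^ 2) * ∑ t ∈ T, g t ^ 2 :=
          Finset.sum_mul_sq_le_sq_mul_sq _ _ _
      _ ≤ (η₁ * K ^ 2) * (C * (a * K) ^ 2) := by
          apply mul_le_mul hf hg
          · exact Finset.sum_nonneg (fun t _ => sq_nonneg _)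
          · positivity
      _ = (η / 3 * K ^ 2) ^ 2 := by
          rw [hη₁]
          field_simp
          ring
  have h2 : 0 ≤ η / 3 * K ^ 2 := by positivity
  exact le_of_abs_le ((sq_le_sq.1 h1).trans (abs_of_nonneg h2).le)

theorem R04_J (z M e : ℝ) (hM : 3 ≤ M) (hz : 2 ≤ z) (hz2 : z ^ 2 ≤ M) (he : 0 < e)
    (he1 : e ≤ 1 / 10) : ∃ J : ℕ, 2 * M ≤ (z * (1 + e) ^ J) ^ 2 ∧ (z * (1 + e) ^ J) ^ 2 ≤ 9 * M ∧
      z * (1 + e) ^ J ≤ M := by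
  classical
  have hex : ∃ J : ℕ, 2 * M ≤ (z * (1 + e) ^ J) ^ 2 := by
    obtain ⟨J, hJ⟩ := pow_unbounded_of_one_lt (2 * M) (show (1 : ℝ) < 1 + e by linarith)
    refine ⟨J, ?_⟩
    have h1 : (1 : ℝ) ≤ (1 + e) ^ J := one_le_pow₀ (by linarith)
    have h2 : (1 + e) ^ J ≤ z * (1 + e) ^ J := by nlinarith
    have h3 : 1 ≤ z * (1 + e) ^ J := h1.trans h2
    nlinarith
  set J := Nat.find hex with hJdef
  have hJ : 2 * M ≤ (z * (1 + e) ^ J) ^ 2 := Nat.find_spec hex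
  have hJ0 : J ≠ 0 := by
    intro h0
    rw [h0] at hJ
    simp only [pow_zero, mul_one] at hJ
    linarith
  obtain ⟨j, hj⟩ := Nat.exists_eq_succ_of_ne_zero hJ0
  have hlt : (z * (1 + e) ^ j) ^ 2 < 2 * M := by
    have : ¬ (2 * M ≤ (z * (1 + e) ^ j) ^ 2) := by
      apply Nat.find_min hex
      rw [← hJdef, hj]
      exact Nat.lt_succ_self j
    linarith
  have heq : (z * (1 + e) ^ J) ^ 2 = (z * (1 + e) ^ j) ^ 2 * (1 + e) ^ 2 := by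
    rw [hj, Nat.succ_eq_add_one, pow_succ]
    ring
  have he2 : (1 + e) ^ 2 ≤ 3 / 2 := by nlinarith
  have hle : (z * (1 + e) ^ J) ^ 2 ≤ 3 * M := by
    rw [heq]
    have h0 : 0 ≤ (z * (1 + e) ^ j) ^ 2 := sq_nonneg _
    have h3 : 0 ≤ (1 + e) ^ 2 := sq_nonneg _
    nlinarith
  refine ⟨J, hJ, by linarith, ?_⟩
  have hsq : (z * (1 + e) ^ J) ^ 2 ≤ M ^ 2 := by nlinarith
  have h0 : 0 ≤ M := by linarith
  exact le_of_abs_le ((sq_le_sq.1 hsq).trans (abs_of_nonneg h0).le)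

theorem rp : ∃ c : ℝ, 0 < c ∧ ∀ δ a η : ℝ, 0 < δ → δ ≤ 1 / 10 → 1 ≤ a → 0 < η →
    ∃ M₀ T₀ : ℝ, 2 ≤ M₀ ∧ 1 ≤ T₀ ∧ ∀ (M : ℝ) (T : Finset ℝ), M₀ ≤ M → MR57.Sep (M ^ 3) T →
    (∀ t ∈ T, T₀ ≤ |t|) → (T.card : ℝ) ≤ M ^ c →
    ∑ t ∈ T, ‖PP δ M t‖ * ‖QQ a M t‖ ≤ η * (M / Real.log M) ^ 2 := by
  obtain ⟨cS, hcS, hS⟩ := S_part
  obtain ⟨cU, hcU, hU⟩ := U_part
  obtain ⟨cB, hcB, hB⟩ := bilinear
  obtain ⟨cQ, C, hcQ, hC, MQ, hMQ, hQ⟩ := Q_bound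
  refine ⟨min (min cS cU) (min cB cQ), by positivity, ?_⟩
  intro δ a η hδ hδ1 ha hη
  have ha0 : 0 < a := by linarith
  set η₁ : ℝ := η ^ 2 / (9 * C * a ^ 2) with hη₁
  have hη₁0 : 0 < η₁ := by rw [hη₁]; positivity
  obtain ⟨u, TS, hu, hTS, hS'⟩ := hS η₁ hη₁0
  obtain ⟨MS, hMS, hS''⟩ := hS' δ hδ (by linarith)
  obtain ⟨e₀, he₀, he₀1, hU'⟩ := hU u η₁ hu hη₁0
  set e : ℝ := min e₀ δ with hedef
  have he : 0 < e := lt_min he₀ hδ
  have hee₀ : e ≤ e₀ := min_le_left _ _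
  have heδ : e ≤ δ := min_le_right _ _
  obtain ⟨MU, hMU, hU''⟩ := hU' e δ he hee₀ hδ (by linarith)
  obtain ⟨MB, TB, hMB, hTB, hB'⟩ := hB u e δ a (η / 3) hu he (by linarith) hδ (by linarith) ha
    (by positivity)
  have hu0 : 0 < u := by linarith
  refine ⟨max (max MS MU) (max (max MB MQ) (max (2 ^ u) 3)), max TS TB, ?_, ?_, ?_⟩
  · exact hMS.trans ((le_max_left _ _).trans (le_max_left _ _))
  · exact hTS.trans (le_max_left _ _)
  intro M T hM hSep hT hcard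
  have h1 : MS ≤ M := ((le_max_left _ _).trans (le_max_left _ _)).trans hM
  have h2 : MU ≤ M := ((le_max_right _ _).trans (le_max_left _ _)).trans hM
  have h3 : MB ≤ M :=
    ((le_max_left _ _).trans ((le_max_left _ _).trans (le_max_right _ _))).trans hM
  have h4 : MQ ≤ M :=
    ((le_max_right _ _).trans ((le_max_left _ _).trans (le_max_right _ _))).trans hM
  have h5 : (2 : ℝ) ^ u ≤ M :=
    ((le_max_left _ _).trans ((le_max_right _ _).trans (le_max_right _ _))).trans hM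
  have h6 : (3 : ℝ) ≤ M :=
    ((le_max_right _ _).trans ((le_max_right _ _).trans (le_max_right _ _))).trans hM
  have hM1 : (1 : ℝ) ≤ M := by linarith
  have hM0 : (0 : ℝ) ≤ M := by linarith
  have hcard' : ∀ c' : ℝ, min (min cS cU) (min cB cQ) ≤ c' → (T.card : ℝ) ≤ M ^ c' :=
    fun c' hc' => hcard.trans (Real.rpow_le_rpow_of_exponent_le hM1 hc')
  have hcardS := hcard' cS ((min_le_left _ _).trans (min_le_left _ _))
  have hcardU := hcard' cU ((min_le_left _ _).trans (min_le_right _ _))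
  have hcardB := hcard' cB ((min_le_right _ _).trans (min_le_left _ _))
  have hcardQ := hcard' cQ ((min_le_right _ _).trans (min_le_right _ _))
  have hTS' : ∀ t ∈ T, TS ≤ |t| := fun t ht => (le_max_left _ _).trans (hT t ht)
  have hTB' : ∀ t ∈ T, TB ≤ |t| := fun t ht => (le_max_right _ _).trans (hT t ht)
  -- the scale `z`
  have hz : (2 : ℝ) ≤ M ^ (1 / u) := by
    have h7 : ((2 : ℝ) ^ u) ^ (1 / u) = 2 := by
      rw [← Real.rpow_mul (by norm_num), mul_one_div_cancel hu0.ne', Real.rpow_one]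
    calc (2 : ℝ) = ((2 : ℝ) ^ u) ^ (1 / u) := h7.symm
      _ ≤ M ^ (1 / u) := Real.rpow_le_rpow (by positivity) h5 (by positivity)
  have hz2 : (M ^ (1 / u)) ^ 2 ≤ M := by
    have h8 : M ^ (1 / u) ≤ M ^ (1 / 2 : ℝ) := by
      apply Real.rpow_le_rpow_of_exponent_le hM1
      rw [div_le_div_iff₀ hu0 (by norm_num)]
      linarith
    have h9 : (M ^ (1 / 2 : ℝ)) ^ 2 = M := by
      rw [← Real.rpow_natCast, ← Real.rpow_mul hM0]
      norm_num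
    have h10 : 0 ≤ M ^ (1 / u) := Real.rpow_nonneg hM0 _
    calc (M ^ (1 / u)) ^ 2 ≤ (M ^ (1 / 2 : ℝ)) ^ 2 := pow_le_pow_left₀ h10 h8 2
      _ = M := h9
  obtain ⟨J, hJ1, hJ2, hJ3⟩ := R04_J (M ^ (1 / u)) M e h6 hz hz2 he (by linarith)
  obtain ⟨r, hr, hdec⟩ := decomp M δ (M ^ (1 / u)) e J (by linarith) hδ (by linarith) hz he heδ
    hJ3 hJ1
  have hq := hQ a M T ha h4 hSep hcardQ
  have hs := hS'' M T h1 hSep hTS' hcardS
  have huu := hU'' M T r h2 hr hSep hcardU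
  have hb := hB' M J T h3 hJ2 hSep hTB' hcardB
  have A1 := R04_cauchy T (fun t => ‖DP (rgh (M ^ (1 / u)) M ((1 + δ) * M)) (fun _ => 1) t‖)
    (fun t => ‖QQ a M t‖) η₁ C a (M / Real.log M) η hC ha hη hη₁ hs hq
  have A2 := R04_cauchy T (fun t => ‖DP (Uset (M ^ (1 / u)) e δ M) r t‖)
    (fun t => ‖QQ a M t‖) η₁ C a (M / Real.log M) η hC ha hη hη₁ huu hq
  have hpt : ∀ t ∈ T, ‖PP δ M t‖ * ‖QQ a M t‖ ≤
      ‖DP (rgh (M ^ (1 / u)) M ((1 + δ) * M)) (fun _ => 1) t‖ * ‖QQ a M t‖ +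
      (∑ j ∈ range J, ‖PP e (M ^ (1 / u) * (1 + e) ^ j) t‖ *
        ‖DP (win (M / (M ^ (1 / u) * (1 + e) ^ j)) ((1 + δ) * (M / (M ^ (1 / u) * (1 + e) ^ j))))
          (cf (M ^ (1 / u)) (M ^ (1 / u) * (1 + e) ^ J)) t‖) * ‖QQ a M t‖ +
      ‖DP (Uset (M ^ (1 / u)) e δ M) r t‖ * ‖QQ a M t‖ := by
    intro t _
    rw [← add_mul, ← add_mul]
    apply mul_le_mul_of_nonneg_right _ (norm_nonneg _)
    rw [hdec t]
    refine (norm_add_le _ _).trans ?_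
    gcongr
    refine (norm_sub_le _ _).trans ?_
    gcongr
    refine (norm_sum_le _ _).trans ?_
    apply le_of_eq
    apply sum_congr rfl
    intro j _
    rw [norm_mul]
  calc ∑ t ∈ T, ‖PP δ M t‖ * ‖QQ a M t‖ ≤ _ := sum_le_sum hpt
    _ = _ := by rw [sum_add_distrib, sum_add_distrib]
    _ ≤ η / 3 * (M / Real.log M) ^ 2 + η / 3 * (M / Real.log M) ^ 2 +
        η / 3 * (M / Real.log M) ^ 2 := add_le_add (add_le_add A1 hb) A2
    _ = η * (M / Real.log M) ^ 2 := by ring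

end BP4
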