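import Pool.Agent.LibBP4.Defs

/-!
TASK S01.  Selberg weights of level `R` for the primes `≤ z`.  Copy `LibMR57/B05.lean` (in
`outputs/live/Pool/Agent/LibMR57/B05.lean`) and replace the set `b05S R` (squarefree numbers up to
`R`) by `sset R z`; everything goes through because `sset R z` is closed under divisors.
`lambda_d = μ(d) d / G * ∑_{l ∈ sset, d ∣ l} 1/φ(l)`, `ρ = BoundingSieve.lambdaSquared lambda`.
The extra claim (prime factors of `d` are `≤ z` when `ρ d ≠ 0`) holds because `ρ n ≠ 0` gives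
`n = lcm d e` with `lambda_d, lambda_e ≠ 0`.
-/

open MeasureTheory Finset Filter
open scoped Topology

namespace BP4

open MR57 (tw DP trap SW wh ES IsCM Grep)

/-- all prime factors are at most `z` -/
def S01_Q (z : ℝ) (l : ℕ) : Prop := ∀ p : ℕ, p.Prime → p ∣ l → (p : ℝ) ≤ z

/-- Selberg's weights `λ_d`. -/
noncomputable def S01lam (R : ℕ) (z : ℝ) (d : ℕ) : ℝ :=
  (ArithmeticFunction.moebius d : ℝ) * d / G R z *
    ∑ l ∈ (sset R z).filter (fun l => d ∣ l), 1 / (Nat.totient l : ℝ)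

theorem S01_mem {R : ℕ} {z : ℝ} {l : ℕ} :
    l ∈ sset R z ↔ ((1 ≤ l ∧ l ≤ R) ∧ Squarefree l) ∧ S01_Q z l := by
  classical
  unfold sset S01_Q
  rw [Finset.mem_filter, Finset.mem_Icc]
  tauto

theorem S01_sum_inj {α β : Type*} [DecidableEq β] (s : Finset α) (t : Finset β) (f : β → ℝ)
    (i : α → β) (hi : ∀ a ∈ s, i a ∈ t) (inj : Set.InjOn i s) (hf : ∀ b ∈ t, 0 ≤ f b) :
    ∑ a ∈ s, f (i a) ≤ ∑ b ∈ t, f b := by
  rw [← Finset.sum_image (f := f) inj]
  apply Finset.sum_le_sum_of_subset_of_nonneg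
  · intro b hb
    rw [Finset.mem_image] at hb
    obtain ⟨a, ha, rfl⟩ := hb
    exact hi a ha
  · intro b hb _
    exact hf b hb

theorem S01_G_pos {R : ℕ} {z : ℝ} (hR : 1 ≤ R) : 0 < G R z := by
  unfold G
  apply Finset.sum_pos
  · intro l hl
    rw [S01_mem] at hl
    have e1 : 0 < Nat.totient l := Nat.totient_pos.2 (by omega)
    positivity
  · refine ⟨1, S01_mem.2 ⟨⟨⟨le_refl 1, hR⟩, squarefree_one⟩, ?_⟩⟩
    intro p hp h1
    exact absurd (Nat.dvd_one.1 h1) hp.one_lt.ne'

theorem S01_lam_one {R : ℕ} {z : ℝ} (hR : 1 ≤ R) : S01lam R z 1 = 1 := by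
  unfold S01lam
  have h1 : (sset R z).filter (fun l => 1 ∣ l) = sset R z := by
    apply Finset.filter_true_of_mem
    intro l _
    exact one_dvd l
  rw [h1]
  have h2 := (S01_G_pos (z := z) hR).ne'
  change (ArithmeticFunction.moebius 1 : ℝ) * ((1 : ℕ) : ℝ) / G R z * G R z = 1
  rw [ArithmeticFunction.moebius_apply_one]
  push_cast
  rw [div_mul_cancel₀ _ h2]
  norm_num

theorem S01_lam_supp {R : ℕ} {z : ℝ} {d : ℕ} (h : S01lam R z d ≠ 0) :
    (1 ≤ d ∧ d ≤ R) ∧ Squarefree d ∧ S01_Q z d := by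
  have h1 : (ArithmeticFunction.moebius d : ℝ) ≠ 0 := by
    intro h0
    apply h
    unfold S01lam
    rw [h0]
    ring
  have h2 : Squarefree d := by
    by_contra h3
    apply h1
    rw [ArithmeticFunction.moebius_eq_zero_of_not_squarefree h3]
    norm_num
  have h3 : ((sset R z).filter (fun l => d ∣ l)).Nonempty := by
    by_contra h4
    rw [Finset.not_nonempty_iff_eq_empty] at h4
    apply h
    unfold S01lam
    rw [h4, Finset.sum_empty, mul_zero]
  obtain ⟨l, hl⟩ := h3
  rw [Finset.mem_filter, S01_mem] at hl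
  have h5 : d ≤ l := Nat.le_of_dvd (by omega) hl.2
  have h6 : d ≠ 0 := h2.ne_zero
  exact ⟨⟨by omega, by omega⟩, h2, fun p hp hpd => hl.1.2 p hp (hpd.trans hl.2)⟩

theorem S01_lam_le {R : ℕ} {z : ℝ} (hR : 1 ≤ R) (d : ℕ) : |S01lam R z d| ≤ 1 := by
  by_cases h : S01lam R z d = 0
  · rw [h, abs_zero]
    exact zero_le_one
  obtain ⟨⟨hd1, hdR⟩, hsq, -⟩ := S01_lam_supp h
  have hG := S01_G_pos (z := z) hR
  -- the key inequality
  have key : (d : ℝ) * ∑ l ∈ (sset R z).filter (fun l => d ∣ l), 1 / (Nat.totient l : ℝ) ≤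
      G R z := by
    have e1 : (d : ℝ) * ∑ l ∈ (sset R z).filter (fun l => d ∣ l), 1 / (Nat.totient l : ℝ) =
        ∑ x ∈ (sset R z).filter (fun l => d ∣ l) ×ˢ d.divisors,
          1 / (Nat.totient (x.1 / x.2) : ℝ) := by
      rw [Finset.sum_product, Finset.mul_sum]
      apply Finset.sum_congr rfl
      intro l hl
      rw [Finset.mem_filter, S01_mem] at hl
      have e2 : (d : ℝ) = ∑ k ∈ d.divisors, (Nat.totient k : ℝ) := by
        exact_mod_cast (Nat.sum_totient d).symm
      rw [e2, Finset.sum_mul]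
      apply Finset.sum_congr rfl
      intro k hk
      have hkd := Nat.dvd_of_mem_divisors hk
      have hkl : k ∣ l := hkd.trans hl.2
      obtain ⟨m, rfl⟩ := hkl
      have hk0 : 0 < k := Nat.pos_of_ne_zero (by
        rintro rfl
        simp at hl)
      have hcop : Nat.Coprime k m := Nat.coprime_of_squarefree_mul hl.1.1.2
      rw [Nat.mul_div_cancel_left m hk0, Nat.totient_mul hcop]
      have e3 : (Nat.totient k : ℝ) ≠ 0 := by
        have := Nat.totient_pos.2 hk0
        positivity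
      push_cast
      rw [mul_one_div, div_mul_cancel_left₀ e3, one_div]
    rw [e1]
    unfold G
    apply S01_sum_inj ((sset R z).filter (fun l => d ∣ l) ×ˢ d.divisors) (sset R z)
      (fun n => 1 / (Nat.totient n : ℝ)) (fun x => x.1 / x.2)
    · intro x hx
      rw [Finset.mem_product, Finset.mem_filter, S01_mem, Nat.mem_divisors] at hx
      obtain ⟨⟨⟨⟨⟨h1, h2⟩, h3⟩, hq⟩, h4⟩, h5, h6⟩ := hx
      have h7 : x.2 ∣ x.1 := h5.trans h4
      have h8 : x.1 / x.2 ∣ x.1 := Nat.div_dvd_of_dvd h7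
      rw [S01_mem]
      refine ⟨⟨⟨?_, (Nat.div_le_self _ _).trans h2⟩, h3.squarefree_of_dvd h8⟩,
        fun p hp hpd => hq p hp (hpd.trans h8)⟩
      exact Nat.div_pos (Nat.le_of_dvd (by omega) h7) (Nat.pos_of_dvd_of_pos h5 (by omega))
    · have lc : ∀ x ∈ (sset R z).filter (fun l => d ∣ l) ×ˢ d.divisors,
          Nat.lcm (x.1 / x.2) d = x.1 ∧ x.1 / x.2 * x.2 = x.1 ∧ 0 < x.1 / x.2 := by
        intro x hx
        rw [Finset.mem_product, Finset.mem_filter, S01_mem, Nat.mem_divisors] at hx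
        obtain ⟨⟨⟨⟨⟨h1, h2⟩, h3⟩, -⟩, h4⟩, h5, h6⟩ := hx
        have h7 : x.2 ∣ x.1 := h5.trans h4
        have h8 : x.1 / x.2 ∣ x.1 := Nat.div_dvd_of_dvd h7
        have h9 : x.1 / x.2 * x.2 = x.1 := Nat.div_mul_cancel h7
        refine ⟨Nat.dvd_antisymm (Nat.lcm_dvd h8 h4) ?_, h9, ?_⟩
        · have hcop : Nat.Coprime (x.1 / x.2) x.2 := by
            apply Nat.coprime_of_squarefree_mul
            rw [h9]
            exact h3
          conv_lhs => rw [← h9]
          exact hcop.mul_dvd_of_dvd_of_dvd (Nat.dvd_lcm_left _ _)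
            (h5.trans (Nat.dvd_lcm_right _ _))
        · exact Nat.div_pos (Nat.le_of_dvd (by omega) h7) (Nat.pos_of_dvd_of_pos h5 (by omega))
      intro x hx y hy hxy
      obtain ⟨a1, a2, a3⟩ := lc x (by exact_mod_cast hx)
      obtain ⟨b1, b2, b3⟩ := lc y (by exact_mod_cast hy)
      change x.1 / x.2 = y.1 / y.2 at hxy
      have c1 : x.1 = y.1 := by rw [← a1, ← b1, hxy]
      have c2 : x.2 = y.2 := by
        have : x.1 / x.2 * x.2 = x.1 / x.2 * y.2 := by
          rw [a2, hxy, b2, c1]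
        exact Nat.eq_of_mul_eq_mul_left a3 this
      exact Prod.ext c1 c2
    · intro n _
      positivity
  have h0 : 0 ≤ ∑ l ∈ (sset R z).filter (fun l => d ∣ l), 1 / (Nat.totient l : ℝ) :=
    Finset.sum_nonneg (fun l _ => by positivity)
  have hmu : |(ArithmeticFunction.moebius d : ℝ)| ≤ 1 := by
    exact_mod_cast ArithmeticFunction.abs_moebius_le_one
  unfold S01lam
  rw [abs_mul, abs_div, abs_mul, abs_of_nonneg h0, abs_of_pos hG, Nat.abs_cast]
  rw [div_mul_eq_mul_div, div_le_one hG]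
  calc |(ArithmeticFunction.moebius d : ℝ)| * d *
        ∑ l ∈ (sset R z).filter (fun l => d ∣ l), 1 / (Nat.totient l : ℝ)
      = |(ArithmeticFunction.moebius d : ℝ)| * (d *
        ∑ l ∈ (sset R z).filter (fun l => d ∣ l), 1 / (Nat.totient l : ℝ)) := by ring
    _ ≤ 1 * (d * ∑ l ∈ (sset R z).filter (fun l => d ∣ l), 1 / (Nat.totient l : ℝ)) :=
        mul_le_mul_of_nonneg_right hmu (by positivity)
    _ ≤ G R z := by rw [one_mul]; exact key

/-- Möbius inversion over multiples. -/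
theorem S01_mu_sum {R : ℕ} {z : ℝ} {l m : ℕ} (hl : 1 ≤ l) (hm : m ∈ sset R z) :
    ∑ d ∈ Icc 1 R, (if l ∣ d ∧ d ∣ m then (ArithmeticFunction.moebius d : ℝ) else 0) =
      if m = l then (ArithmeticFunction.moebius l : ℝ) else 0 := by
  rw [S01_mem] at hm
  obtain ⟨⟨⟨hm1, hmR⟩, hsq⟩, -⟩ := hm
  by_cases hlm : l ∣ m
  · obtain ⟨k, rfl⟩ := hlm
    have hk0 : k ≠ 0 := by
      rintro rfl
      simp at hm1
    have hcop : Nat.Coprime l k := Nat.coprime_of_squarefree_mul hsq
    have h1 : ∑ d ∈ Icc 1 R, (if l ∣ d ∧ d ∣ l * k then (ArithmeticFunction.moebius d : ℝ) else 0) =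
        ∑ e ∈ k.divisors, (ArithmeticFunction.moebius (l * e) : ℝ) := by
      rw [← Finset.sum_filter]
      symm
      apply Finset.sum_nbij (fun e => l * e)
      · intro e he
        rw [Nat.mem_divisors] at he
        rw [Finset.mem_filter, Finset.mem_Icc]
        have e1 : l * e ∣ l * k := Nat.mul_dvd_mul_left l he.1
        have e2 : 0 < e := Nat.pos_of_dvd_of_pos he.1 (by omega)
        refine ⟨⟨Nat.mul_pos (by omega) e2, (Nat.le_of_dvd (by omega) e1).trans hmR⟩,
          Nat.dvd_mul_right l e, e1⟩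
      · intro a _ b _ hab
        exact Nat.eq_of_mul_eq_mul_left (by omega) hab
      · intro d hd
        rw [Finset.mem_coe, Finset.mem_filter] at hd
        obtain ⟨_, ⟨e, rfl⟩, h2⟩ := hd
        refine ⟨e, ?_, rfl⟩
        rw [Finset.mem_coe, Nat.mem_divisors]
        exact ⟨Nat.dvd_of_mul_dvd_mul_left (by omega) h2, hk0⟩
      · intro e _
        rfl
    rw [h1]
    have h2 : ∀ e ∈ k.divisors, (ArithmeticFunction.moebius (l * e) : ℝ) =
        (ArithmeticFunction.moebius l : ℝ) * (ArithmeticFunction.moebius e : ℝ) := by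
      intro e he
      have e1 : Nat.Coprime l e := hcop.coprime_dvd_right (Nat.dvd_of_mem_divisors he)
      rw [ArithmeticFunction.isMultiplicative_moebius.map_mul_of_coprime e1]
      push_cast
      rfl
    rw [Finset.sum_congr rfl h2, ← Finset.mul_sum]
    have h3 : ∑ e ∈ k.divisors, (ArithmeticFunction.moebius e : ℝ) = if k = 1 then 1 else 0 := by
      have h4 := ArithmeticFunction.coe_mul_zeta_apply
        (f := (ArithmeticFunction.moebius : ArithmeticFunction ℤ)) (x := k)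
      rw [ArithmeticFunction.moebius_mul_coe_zeta, ArithmeticFunction.one_apply] at h4
      have h5 : ((∑ e ∈ k.divisors, ArithmeticFunction.moebius e : ℤ) : ℝ) =
          ((if k = 1 then 1 else 0 : ℤ) : ℝ) := by rw [h4]
      push_cast at h5
      exact h5
    rw [h3]
    by_cases hk : k = 1
    · subst hk
      simp
    · rw [if_neg hk, mul_zero, if_neg]
      intro h4
      apply hk
      have : l * k = l * 1 := by rw [h4, mul_one]
      exact Nat.eq_of_mul_eq_mul_left (by omega) this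
  · rw [if_neg (show ¬ m = l by rintro rfl; exact hlm (dvd_refl _))]
    apply Finset.sum_eq_zero
    intro d _
    rw [if_neg]
    rintro ⟨h1, h2⟩
    exact hlm (h1.trans h2)

theorem S01_A {R : ℕ} {z : ℝ} {l : ℕ} (hl : 1 ≤ l) :
    ∑ d ∈ Icc 1 R, (if l ∣ d then S01lam R z d / d else 0) =
      if l ∈ sset R z then (ArithmeticFunction.moebius l : ℝ) / (G R z * Nat.totient l) else 0 := by
  have h1 : ∀ d ∈ Icc 1 R, (if l ∣ d then S01lam R z d / d else 0) =
      ∑ m ∈ sset R z, (1 / (G R z * Nat.totient m)) *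
        (if l ∣ d ∧ d ∣ m then (ArithmeticFunction.moebius d : ℝ) else 0) := by
    intro d hd
    rw [Finset.mem_Icc] at hd
    have hd0 : (d : ℝ) ≠ 0 := by
      have : 0 < d := by omega
      positivity
    by_cases hld : l ∣ d
    · rw [if_pos hld]
      unfold S01lam
      rw [Finset.sum_filter]
      have e1 : (ArithmeticFunction.moebius d : ℝ) * d / G R z *
          (∑ m ∈ sset R z, if d ∣ m then 1 / (Nat.totient m : ℝ) else 0) / d =
          (ArithmeticFunction.moebius d : ℝ) / G R z *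
          (∑ m ∈ sset R z, if d ∣ m then 1 / (Nat.totient m : ℝ) else 0) := by
        field_simp
      rw [e1, Finset.mul_sum]
      apply Finset.sum_congr rfl
      intro m _
      by_cases hdm : d ∣ m
      · rw [if_pos hdm, if_pos ⟨hld, hdm⟩, div_mul_div_comm, mul_one, one_div_mul_eq_div]
      · rw [if_neg hdm, if_neg (fun h => hdm h.2), mul_zero, mul_zero]
    · rw [if_neg hld]
      symm
      apply Finset.sum_eq_zero
      intro m _
      rw [if_neg (fun h => hld h.1), mul_zero]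
  rw [Finset.sum_congr rfl h1, Finset.sum_comm]
  have h2 : ∀ m ∈ sset R z, ∑ d ∈ Icc 1 R, (1 / (G R z * Nat.totient m)) *
        (if l ∣ d ∧ d ∣ m then (ArithmeticFunction.moebius d : ℝ) else 0) =
      if m = l then (ArithmeticFunction.moebius l : ℝ) / (G R z * Nat.totient l) else 0 := by
    intro m hm
    rw [← Finset.mul_sum, S01_mu_sum hl hm]
    by_cases hml : m = l
    · rw [if_pos hml, if_pos hml, hml, one_div_mul_eq_div]
    · rw [if_neg hml, if_neg hml, mul_zero]
  rw [Finset.sum_congr rfl h2, Finset.sum_ite_eq' (sset R z) l]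

theorem S01_term {R : ℕ} {z : ℝ} {d e : ℕ} (hd : d ∈ Icc 1 R) (he : e ∈ Icc 1 R) :
    S01lam R z d * S01lam R z e / (Nat.lcm d e : ℝ) =
      ∑ l ∈ Icc 1 R, (Nat.totient l : ℝ) * (if l ∣ d then S01lam R z d / d else 0) *
        (if l ∣ e then S01lam R z e / e else 0) := by
  rw [Finset.mem_Icc] at hd he
  have hd0 : 0 < d := by omega
  have he0 : 0 < e := by omega
  have h1 : ∑ l ∈ Icc 1 R, (Nat.totient l : ℝ) * (if l ∣ d then S01lam R z d / d else 0) *
        (if l ∣ e then S01lam R z e / e else 0) =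
      (∑ l ∈ Icc 1 R, if l ∣ Nat.gcd d e then (Nat.totient l : ℝ) else 0) *
        (S01lam R z d / d * (S01lam R z e / e)) := by
    rw [Finset.sum_mul]
    apply Finset.sum_congr rfl
    intro l _
    by_cases h1 : l ∣ d
    · by_cases h2 : l ∣ e
      · rw [if_pos h1, if_pos h2, if_pos (Nat.dvd_gcd h1 h2)]
        ring
      · have h3 : ¬ l ∣ Nat.gcd d e := fun h => h2 (h.trans (Nat.gcd_dvd_right d e))
        rw [if_neg h2, if_neg h3]
        ring
    · have h3 : ¬ l ∣ Nat.gcd d e := fun h => h1 (h.trans (Nat.gcd_dvd_left d e))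
      rw [if_neg h1, if_neg h3]
      ring
  have h2 : (∑ l ∈ Icc 1 R, if l ∣ Nat.gcd d e then (Nat.totient l : ℝ) else 0) =
      (Nat.gcd d e : ℝ) := by
    rw [← Finset.sum_filter]
    have hg : 0 < Nat.gcd d e := Nat.gcd_pos_of_pos_left e hd0
    have h3 : (Icc 1 R).filter (fun l => l ∣ Nat.gcd d e) = (Nat.gcd d e).divisors := by
      ext l
      rw [Finset.mem_filter, Finset.mem_Icc, Nat.mem_divisors]
      constructor
      · rintro ⟨_, h⟩
        exact ⟨h, hg.ne'⟩
      · rintro ⟨h, _⟩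
        have e1 : l ≤ Nat.gcd d e := Nat.le_of_dvd hg h
        have e2 : Nat.gcd d e ≤ d := Nat.gcd_le_left e hd0
        have e3 : 0 < l := Nat.pos_of_dvd_of_pos h hg
        exact ⟨⟨e3, by omega⟩, h⟩
    rw [h3]
    exact_mod_cast Nat.sum_totient (Nat.gcd d e)
  have h3 : (Nat.gcd d e : ℝ) * (Nat.lcm d e : ℝ) = d * e := by
    exact_mod_cast Nat.gcd_mul_lcm d e
  have h4 : (0 : ℝ) < Nat.lcm d e := by
    exact_mod_cast Nat.lcm_pos hd0 he0
  have hd' : (0 : ℝ) < d := by exact_mod_cast hd0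
  have he' : (0 : ℝ) < e := by exact_mod_cast he0
  rw [h1, h2, div_eq_iff h4.ne']
  have h5 : (Nat.gcd d e : ℝ) * (S01lam R z d / d * (S01lam R z e / e)) * (Nat.lcm d e : ℝ) =
      ((Nat.gcd d e : ℝ) * (Nat.lcm d e : ℝ)) * (S01lam R z d / d * (S01lam R z e / e)) := by ring
  rw [h5, h3]
  field_simp

theorem S01_quad {R : ℕ} {z : ℝ} (hR : 1 ≤ R) :
    ∑ d ∈ Icc 1 R, ∑ e ∈ Icc 1 R, S01lam R z d * S01lam R z e / (Nat.lcm d e : ℝ) =
      1 / G R z := by
  have hG := S01_G_pos (z := z) hR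
  have h1 : ∑ d ∈ Icc 1 R, ∑ e ∈ Icc 1 R, S01lam R z d * S01lam R z e / (Nat.lcm d e : ℝ) =
      ∑ l ∈ Icc 1 R, (Nat.totient l : ℝ) *
        (∑ d ∈ Icc 1 R, if l ∣ d then S01lam R z d / d else 0) ^ 2 := by
    calc ∑ d ∈ Icc 1 R, ∑ e ∈ Icc 1 R, S01lam R z d * S01lam R z e / (Nat.lcm d e : ℝ)
        = ∑ d ∈ Icc 1 R, ∑ e ∈ Icc 1 R, ∑ l ∈ Icc 1 R, (Nat.totient l : ℝ) *
          (if l ∣ d then S01lam R z d / d else 0) * (if l ∣ e then S01lam R z e / e else 0) := by
          apply Finset.sum_congr rfl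
          intro d hd
          apply Finset.sum_congr rfl
          intro e he
          exact S01_term hd he
      _ = ∑ d ∈ Icc 1 R, ∑ l ∈ Icc 1 R, ∑ e ∈ Icc 1 R, (Nat.totient l : ℝ) *
          (if l ∣ d then S01lam R z d / d else 0) * (if l ∣ e then S01lam R z e / e else 0) := by
          apply Finset.sum_congr rfl
          intro d _
          exact Finset.sum_comm
      _ = ∑ l ∈ Icc 1 R, ∑ d ∈ Icc 1 R, ∑ e ∈ Icc 1 R, (Nat.totient l : ℝ) *
          (if l ∣ d then S01lam R z d / d else 0) * (if l ∣ e then S01lam R z e / e else 0) :=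
          Finset.sum_comm
      _ = _ := by
          apply Finset.sum_congr rfl
          intro l _
          rw [sq, Finset.sum_mul_sum, Finset.mul_sum]
          apply Finset.sum_congr rfl
          intro d _
          rw [Finset.mul_sum]
          apply Finset.sum_congr rfl
          intro e _
          ring
  rw [h1]
  classical
  have h2 : ∀ l ∈ Icc 1 R, (Nat.totient l : ℝ) *
        (∑ d ∈ Icc 1 R, if l ∣ d then S01lam R z d / d else 0) ^ 2 =
      (1 / G R z ^ 2) * (if l ∈ sset R z then 1 / (Nat.totient l : ℝ) else 0) := by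
    intro l hl
    rw [Finset.mem_Icc] at hl
    rw [S01_A hl.1]
    have ht : (0 : ℝ) < Nat.totient l := by
      exact_mod_cast Nat.totient_pos.2 (by omega)
    by_cases hs : l ∈ sset R z
    · rw [if_pos hs, if_pos hs]
      have hm : (ArithmeticFunction.moebius l : ℝ) ^ 2 = 1 := by
        exact_mod_cast ArithmeticFunction.moebius_sq_eq_one_of_squarefree (S01_mem.1 hs).1.2
      rw [div_pow, hm]
      field_simp
    · rw [if_neg hs, if_neg hs]
      ring
  have h3 : (Icc 1 R).filter (fun l => l ∈ sset R z) = sset R z := by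
    ext l
    rw [Finset.mem_filter, Finset.mem_Icc]
    exact ⟨fun h => h.2, fun h => ⟨(S01_mem.1 h).1.1, h⟩⟩
  rw [Finset.sum_congr rfl h2, ← Finset.mul_sum, ← Finset.sum_filter, h3]
  change (1 / G R z ^ 2) * G R z = 1 / G R z
  field_simp

theorem S01_main {R : ℕ} {z : ℝ} (hR : 1 ≤ R) :
    ∑ n ∈ Icc 1 (R ^ 2), BoundingSieve.lambdaSquared (S01lam R z) n / n = 1 / G R z := by
  rw [← S01_quad hR]
  have h1 : ∀ n ∈ Icc 1 (R ^ 2), BoundingSieve.lambdaSquared (S01lam R z) n / n =
      ∑ d ∈ Icc 1 R, ∑ e ∈ Icc 1 R,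
        (if n = Nat.lcm d e then S01lam R z d * S01lam R z e / (Nat.lcm d e : ℝ) else 0) := by
    intro n hn
    rw [Finset.mem_Icc] at hn
    have e1 : BoundingSieve.lambdaSquared (S01lam R z) n =
        ∑ d ∈ Icc 1 R, ∑ e ∈ Icc 1 R,
          (if n = Nat.lcm d e then S01lam R z d * S01lam R z e else 0) := by
      unfold BoundingSieve.lambdaSquared
      rw [← Finset.sum_product', ← Finset.sum_product']
      apply Finset.sum_congr_of_eq_on_inter
      · intro x hx hx'
        by_contra h0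
        have h2 : n = Nat.lcm x.1 x.2 ∧ S01lam R z x.1 * S01lam R z x.2 ≠ 0 := by
          by_cases h3 : n = Nat.lcm x.1 x.2
          · rw [if_pos h3] at h0
            exact ⟨h3, h0⟩
          · rw [if_neg h3] at h0
            exact absurd rfl h0
        apply hx'
        rw [Finset.mem_product, Finset.mem_Icc, Finset.mem_Icc]
        exact ⟨(S01_lam_supp (left_ne_zero_of_mul h2.2)).1,
          (S01_lam_supp (right_ne_zero_of_mul h2.2)).1⟩
      · intro x hx hx'
        rw [if_neg]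
        intro h3
        apply hx'
        rw [Finset.mem_product, Nat.mem_divisors, Nat.mem_divisors]
        refine ⟨⟨?_, by omega⟩, ?_, by omega⟩
        · rw [h3]; exact Nat.dvd_lcm_left _ _
        · rw [h3]; exact Nat.dvd_lcm_right _ _
      · intro x _ _
        rfl
    rw [e1, Finset.sum_div]
    apply Finset.sum_congr rfl
    intro d _
    rw [Finset.sum_div]
    apply Finset.sum_congr rfl
    intro e _
    by_cases h3 : n = Nat.lcm d e
    · rw [if_pos h3, if_pos h3, ← h3]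
    · rw [if_neg h3, if_neg h3, zero_div]
  rw [Finset.sum_congr rfl h1, Finset.sum_comm]
  apply Finset.sum_congr rfl
  intro d hd
  rw [Finset.sum_comm]
  apply Finset.sum_congr rfl
  intro e he
  rw [Finset.mem_Icc] at hd he
  rw [Finset.sum_ite_eq' (Icc 1 (R ^ 2)) (Nat.lcm d e), if_pos]
  rw [Finset.mem_Icc]
  refine ⟨Nat.lcm_pos (by omega) (by omega), ?_⟩
  calc Nat.lcm d e ≤ d * e := Nat.le_of_dvd (Nat.mul_pos (by omega) (by omega))
        (Nat.lcm_dvd (Nat.dvd_mul_right d e) (Nat.dvd_mul_left e d))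
    _ ≤ R * R := Nat.mul_le_mul hd.2 he.2
    _ = R ^ 2 := by ring

theorem sel_weights (R : ℕ) (z : ℝ) (hR : 1 ≤ R) : ∃ ρ : ℕ → ℝ, ρ 1 = 1 ∧
    (∀ d, ρ d ≠ 0 → 1 ≤ d ∧ d ≤ R ^ 2 ∧ ∀ p : ℕ, p.Prime → p ∣ d → (p : ℝ) ≤ z) ∧
    (∀ d, |ρ d| ≤ (d.divisors.card : ℝ) ^ 2) ∧
    (∀ n, 1 ≤ n → 0 ≤ ∑ d ∈ n.divisors, ρ d) ∧
    ∑ d ∈ Icc 1 (R ^ 2), ρ d / d = 1 / G R z := by
  refine ⟨BoundingSieve.lambdaSquared (S01lam R z), ?_, ?_, ?_, ?_, S01_main hR⟩
  · simp [BoundingSieve.lambdaSquared, S01_lam_one hR]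
  · intro n hn
    unfold BoundingSieve.lambdaSquared at hn
    obtain ⟨d, hd, hn⟩ := Finset.exists_ne_zero_of_sum_ne_zero hn
    obtain ⟨e, he, hn⟩ := Finset.exists_ne_zero_of_sum_ne_zero hn
    have h2 : n = Nat.lcm d e ∧ S01lam R z d * S01lam R z e ≠ 0 := by
      by_cases h3 : n = Nat.lcm d e
      · rw [if_pos h3] at hn
        exact ⟨h3, hn⟩
      · rw [if_neg h3] at hn
        exact absurd rfl hn
    have hd1 := (S01_lam_supp (left_ne_zero_of_mul h2.2)).1
    have he1 := (S01_lam_supp (right_ne_zero_of_mul h2.2)).1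
    have hd2 := (S01_lam_supp (left_ne_zero_of_mul h2.2)).2.2
    have he2 := (S01_lam_supp (right_ne_zero_of_mul h2.2)).2.2
    rw [h2.1]
    refine ⟨Nat.lcm_pos (by omega) (by omega), ?_, ?_⟩
    · calc Nat.lcm d e ≤ d * e := Nat.le_of_dvd (Nat.mul_pos (by omega) (by omega))
            (Nat.lcm_dvd (Nat.dvd_mul_right d e) (Nat.dvd_mul_left e d))
        _ ≤ R * R := Nat.mul_le_mul hd1.2 he1.2
        _ = R ^ 2 := by ring
    · intro p hp hpd
      have h4 : p ∣ d * e := hpd.trans (Nat.lcm_dvd (Nat.dvd_mul_right d e) (Nat.dvd_mul_left e d))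
      rcases (Nat.Prime.dvd_mul hp).1 h4 with h5 | h5
      · exact hd2 p hp h5
      · exact he2 p hp h5
  · intro n
    unfold BoundingSieve.lambdaSquared
    calc |∑ d ∈ n.divisors, ∑ e ∈ n.divisors,
          if n = Nat.lcm d e then S01lam R z d * S01lam R z e else 0|
        ≤ ∑ d ∈ n.divisors, ∑ e ∈ n.divisors, (1 : ℝ) := by
          refine (Finset.abs_sum_le_sum_abs _ _).trans (Finset.sum_le_sum fun d _ => ?_)
          refine (Finset.abs_sum_le_sum_abs _ _).trans (Finset.sum_le_sum fun e _ => ?_)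
          by_cases h3 : n = Nat.lcm d e
          · rw [if_pos h3, abs_mul]
            exact mul_le_one₀ (S01_lam_le hR d) (abs_nonneg _) (S01_lam_le hR e)
          · rw [if_neg h3, abs_zero]
            exact zero_le_one
      _ = (n.divisors.card : ℝ) ^ 2 := by
          rw [Finset.sum_const, Finset.sum_const, nsmul_eq_mul, nsmul_eq_mul, mul_one, sq]
  · intro n _
    have h := BoundingSieve.upperMoebius_lambdaSquared (S01lam R z) (S01_lam_one hR) n
    refine le_trans ?_ h
    split_ifs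
    · exact zero_le_one
    · exact le_refl _

end BP4
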