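import Pool.Agent.LibBP4.S05
import Pool.Agent.LibBP4.S09

/-!
TASK S10.  Upper bound sieve.  Let `R = ⌊h^{1/12}⌋₊`.  If `z ≤ R` take `ρ` from `sieve_w z R`; then
`#rgh ≤ ∑_{n ∈ win} ∑_{d ∣ n} ρ d ≤ h ∑ ρ d/d + ∑ |ρ d|` (`mass_sum`), `∑ |ρ d| ≤ R^6 ≤ h^{1/2}`
(`|ρ d| ≤ τ(d)² ≤ R^4`, see `b06b_rho_sum` in `outputs/live/Pool/Agent/LibMR57/B06b.lean`), use
`le_V`, `V ≤ C/log z` and `h^{1/2} ≤ C (h/log z) exp(-c log h/log z)` for small `c` since
`log z ≥ log 2`.  If `z > R`: then `log h ≤ 14 log z` up to bounded `h`, so the exponential is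
bounded below and it is enough to show `#rgh ≤ C h/log z`: for `h ≥ h₀` put `z' = R ≥ 2` (`z' ≤ z`),
`#rgh z ≤ #rgh z'` and use `sieve_w z' R`, `le_log`; for `h < h₀` everything is bounded
(`#rgh ≤ h + 1`, `h ≥ z ≥ 2`).
-/

open MeasureTheory Finset Filter
open scoped Topology

namespace BP4

open MR57 (tw DP trap SW wh ES IsCM Grep)

/-- The sum of the absolute values of the weights. -/
theorem S10_rho_sum {C₀ z : ℝ} {R : ℕ} {ρ : ℕ → ℝ} (h : IsSel C₀ z R ρ) :
    ∑ d ∈ Icc 1 (R ^ 2), |ρ d| ≤ (R : ℝ) ^ 6 := by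
  have hb : ∀ d ∈ Icc 1 (R ^ 2), |ρ d| ≤ (R : ℝ) ^ 4 := by
    intro d hd
    rw [mem_Icc] at hd
    refine (h.bd d).trans ?_
    have h1 : (d.divisors.card : ℝ) ≤ (R : ℝ) ^ 2 := by
      calc (d.divisors.card : ℝ) ≤ d := by exact_mod_cast Nat.card_divisors_le_self d
        _ ≤ (R : ℝ) ^ 2 := by exact_mod_cast hd.2
    calc (d.divisors.card : ℝ) ^ 2 ≤ ((R : ℝ) ^ 2) ^ 2 :=
          pow_le_pow_left₀ (Nat.cast_nonneg _) h1 2
      _ = (R : ℝ) ^ 4 := by ring
  calc ∑ d ∈ Icc 1 (R ^ 2), |ρ d| ≤ ∑ _d ∈ Icc 1 (R ^ 2), (R : ℝ) ^ 4 := sum_le_sum hb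
    _ = (R : ℝ) ^ 6 := by
      rw [sum_const, Nat.card_Icc, nsmul_eq_mul, Nat.add_sub_cancel]
      push_cast
      ring

theorem S10_basic {C₀ z x h : ℝ} {R : ℕ} {ρ : ℕ → ℝ} (hs : IsSel C₀ z R ρ) (hx : 0 ≤ x)
    (hh : 0 ≤ h) :
    ((rgh z x (x + h)).card : ℝ) ≤ h * ∑ d ∈ Icc 1 (R ^ 2), ρ d / d + (R : ℝ) ^ 6 := by
  classical
  have hm := mass_sum ρ (R ^ 2) hs.supp x h hx hh
  have h1 : ((rgh z x (x + h)).card : ℝ) ≤ ∑ n ∈ win x (x + h), ∑ d ∈ n.divisors, ρ d := by
    calc ((rgh z x (x + h)).card : ℝ) = ∑ n ∈ rgh z x (x + h), ∑ d ∈ n.divisors, ρ d := by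
          rw [card_eq_sum_ones, Nat.cast_sum]
          refine sum_congr rfl fun n hn => ?_
          rw [mem_rgh hx] at hn
          rw [hs.rough n hn.2]
          simp
      _ ≤ ∑ n ∈ win x (x + h), ∑ d ∈ n.divisors, ρ d := by
          apply sum_le_sum_of_subset_of_nonneg
          · intro n hn
            rw [mem_rgh hx] at hn
            rw [mem_win hx]
            exact hn.1
          · intro n hn _
            rw [mem_win hx] at hn
            apply hs.nonneg n
            have : (0 : ℝ) < n := by linarith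
            exact_mod_cast this
  have h2 := S10_rho_sum hs
  have h3 := (abs_le.mp hm).2
  linarith

theorem S10_card_win {x h : ℝ} (hx : 0 ≤ x) (hh : 0 ≤ h) : ((win x (x + h)).card : ℝ) ≤ h + 1 := by
  unfold win
  rw [Nat.card_Ioc]
  have h1 : (⌊x + h⌋₊ : ℝ) ≤ x + h := Nat.floor_le (by linarith)
  have h2 : x < (⌊x⌋₊ : ℝ) + 1 := Nat.lt_floor_add_one x
  have h3 : ⌊x⌋₊ ≤ ⌊x + h⌋₊ := Nat.floor_le_floor (by linarith)
  rw [Nat.cast_sub h3]
  linarith

theorem S10_rgh_le_win {z x h : ℝ} : (rgh z x (x + h)).card ≤ (win x (x + h)).card := by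
  classical
  unfold rgh
  exact card_filter_le _ _

theorem S10_rgh_mono {z z' x b : ℝ} (hz : z' ≤ z) : (rgh z x b).card ≤ (rgh z' x b).card := by
  classical
  unfold rgh
  apply card_le_card
  intro n hn
  rw [mem_filter] at hn ⊢
  exact ⟨hn.1, hn.2.1, fun p hp hpn => lt_of_le_of_lt hz (hn.2.2 p hp hpn)⟩

/-- `h^{1/2} ≤ 4 (h/log z) exp(-(1/24) log h/log z)`. -/
theorem S10_sqrt {z h : ℝ} (hz : 2 ≤ z) (hh : z ≤ h) :
    h ^ (1 / 2 : ℝ) ≤ 4 * (h / Real.log z) *
      Real.exp (-(1 / 24 * (Real.log h / Real.log z))) := by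
  have hh0 : 0 < h := by linarith
  have hlz : 0 < Real.log z := Real.log_pos (by linarith)
  have hlh : Real.log z ≤ Real.log h := Real.log_le_log (by linarith) hh
  have hl2 : Real.log 2 ≤ Real.log z := Real.log_le_log two_pos hz
  have hl2' : (1 / 6 : ℝ) ≤ Real.log 2 := by linarith [Real.log_two_gt_d9]
  have hL : 0 < Real.log h := hlz.trans_le hlh
  have e1 : h ^ (1 / 2 : ℝ) = h * Real.exp (-(1 / 2 * Real.log h)) := by
    rw [Real.rpow_def_of_pos hh0]
    nth_rewrite 2 [← Real.exp_log hh0]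
    rw [← Real.exp_add]
    congr 1
    ring
  have e2 : 1 / 24 * (Real.log h / Real.log z) ≤ 1 / 4 * Real.log h := by
    rw [mul_div_assoc', div_le_iff₀ hlz]
    nlinarith
  have e3 : Real.exp (-(1 / 4 * Real.log h)) ≤ 4 / Real.log z := by
    rw [le_div_iff₀ hlz]
    have h1 : 1 / 4 * Real.log h ≤ Real.exp (1 / 4 * Real.log h) := by
      have := Real.add_one_le_exp (1 / 4 * Real.log h)
      linarith
    have h2 : Real.exp (-(1 / 4 * Real.log h)) * (1 / 4 * Real.log h) ≤ 1 := by
      calc Real.exp (-(1 / 4 * Real.log h)) * (1 / 4 * Real.log h)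
          ≤ Real.exp (-(1 / 4 * Real.log h)) * Real.exp (1 / 4 * Real.log h) :=
            mul_le_mul_of_nonneg_left h1 (Real.exp_pos _).le
        _ = 1 := by rw [← Real.exp_add]; simp
    have h3 : Real.exp (-(1 / 4 * Real.log h)) * Real.log z ≤
        Real.exp (-(1 / 4 * Real.log h)) * Real.log h :=
      mul_le_mul_of_nonneg_left hlh (Real.exp_pos _).le
    linarith
  rw [e1]
  calc h * Real.exp (-(1 / 2 * Real.log h))
      = h * (Real.exp (-(1 / 4 * Real.log h)) * Real.exp (-(1 / 4 * Real.log h))) := by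
        rw [← Real.exp_add]; congr 2; ring
    _ ≤ h * (4 / Real.log z * Real.exp (-(1 / 24 * (Real.log h / Real.log z)))) := by
        apply mul_le_mul_of_nonneg_left _ hh0.le
        apply mul_le_mul e3 _ (Real.exp_pos _).le (by positivity)
        exact Real.exp_le_exp.mpr (by linarith)
    _ = _ := by ring

theorem FL_upper : ∃ C c : ℝ, 0 < C ∧ 0 < c ∧ ∀ z x h : ℝ, 2 ≤ z → 0 ≤ x → z ≤ h →
    ((rgh z x (x + h)).card : ℝ) ≤
      h * V z + C * (h / Real.log z) * Real.exp (-(c * (Real.log h / Real.log z))) := by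
  obtain ⟨C0, hC0, hsel⟩ := sieve_w
  obtain ⟨cV, CV, hcV, hCV, hV⟩ := V_bounds
  refine ⟨CV * C0 + 4 + 3 * (24 * C0 + 4) + 3 * 24, 1 / 24, by positivity, by norm_num, ?_⟩
  intro z x h hz hx hh
  have hh0 : 0 < h := by linarith
  have hlz : 0 < Real.log z := Real.log_pos (by linarith)
  have hlh : Real.log z ≤ Real.log h := Real.log_le_log (by linarith) hh
  have hL : 0 < Real.log h := hlz.trans_le hlh
  have hVz := hV z hz
  have hV0 : 0 ≤ V z := le_trans (by positivity) hVz.1
  set E := Real.exp (-(1 / 24 * (Real.log h / Real.log z))) with hE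
  have hE0 : 0 < E := Real.exp_pos _
  have hsq := S10_sqrt hz hh
  rw [← hE] at hsq
  set R := ⌊h ^ (1 / 12 : ℝ)⌋₊ with hR
  have hRle : (R : ℝ) ≤ h ^ (1 / 12 : ℝ) := Nat.floor_le (by positivity)
  have hRlt : h ^ (1 / 12 : ℝ) < (R : ℝ) + 1 := Nat.lt_floor_add_one _
  have hR6 : (R : ℝ) ^ 6 ≤ h ^ (1 / 2 : ℝ) := by
    calc (R : ℝ) ^ 6 ≤ (h ^ (1 / 12 : ℝ)) ^ 6 := pow_le_pow_left₀ (Nat.cast_nonneg _) hRle 6
      _ = h ^ (1 / 2 : ℝ) := by
        rw [← Real.rpow_natCast, ← Real.rpow_mul hh0.le]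
        norm_num
  have hlog12 : Real.log (h ^ (1 / 12 : ℝ)) = 1 / 12 * Real.log h := Real.log_rpow hh0 _
  have hq : 0 ≤ h / Real.log z := by positivity
  by_cases hcase : z ≤ R
  · obtain ⟨ρ, hρ⟩ := hsel z R hz hcase
    have hb := S10_basic hρ hx hh0.le
    have hR2 : (2 : ℝ) ≤ R := hz.trans hcase
    have hlogR : 1 / 24 * Real.log h ≤ Real.log R := by
      have h1 : h ^ (1 / 12 : ℝ) ≤ (R : ℝ) ^ 2 := by nlinarith
      have h2 := Real.log_le_log (by positivity) h1
      rw [hlog12, Real.log_pow] at h2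
      push_cast at h2
      linarith
    have hexp : Real.exp (-(Real.log R / Real.log z)) ≤ E := by
      rw [hE]
      apply Real.exp_le_exp.mpr
      have : 1 / 24 * (Real.log h / Real.log z) ≤ Real.log R / Real.log z := by
        rw [mul_div_assoc']
        exact div_le_div_of_nonneg_right hlogR hlz.le
      linarith
    have h1 : h * ∑ d ∈ Icc 1 (R ^ 2), ρ d / d ≤ h * (V z * (1 + C0 * E)) := by
      apply mul_le_mul_of_nonneg_left _ hh0.le
      refine hρ.le_V.trans ?_
      apply mul_le_mul_of_nonneg_left _ hV0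
      have := mul_le_mul_of_nonneg_left hexp hC0.le
      linarith
    have h2 : h * V z * (C0 * E) ≤ CV * C0 * (h / Real.log z) * E := by
      have := mul_le_mul_of_nonneg_left hVz.2 (by positivity : 0 ≤ h * (C0 * E))
      calc h * V z * (C0 * E) = h * (C0 * E) * V z := by ring
        _ ≤ h * (C0 * E) * (CV / Real.log z) := this
        _ = CV * C0 * (h / Real.log z) * E := by ring
    have h3 : 0 ≤ (3 * (24 * C0 + 4) + 3 * 24) * (h / Real.log z) * E := by positivity
    have h4 : (CV * C0 + 4 + 3 * (24 * C0 + 4) + 3 * 24) * (h / Real.log z) * E =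
      CV * C0 * (h / Real.log z) * E + 4 * (h / Real.log z) * E +
        (3 * (24 * C0 + 4) + 3 * 24) * (h / Real.log z) * E := by ring
    have h5 : h * (V z * (1 + C0 * E)) = h * V z + h * V z * (C0 * E) := by ring
    rw [h4]
    linarith
  · have hRz : (R : ℝ) < z := not_le.mp hcase
    -- the exponential is bounded below
    have hE1 : 1 ≤ 3 * E := by
      have h1 : h ^ (1 / 12 : ℝ) ≤ z ^ 2 := by nlinarith
      have h2 := Real.log_le_log (by positivity) h1
      rw [hlog12, Real.log_pow] at h2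
      push_cast at h2
      have h3 : 1 / 24 * (Real.log h / Real.log z) ≤ 1 := by
        rw [mul_div_assoc', div_le_one hlz]
        linarith
      have h4 : Real.exp (-1) ≤ E := by
        rw [hE]
        exact Real.exp_le_exp.mpr (by linarith)
      have h5 : 1 / 3 ≤ Real.exp (-1) := by
        rw [Real.exp_neg, ← one_div]
        apply one_div_le_one_div_of_le (Real.exp_pos _)
        linarith [Real.exp_one_lt_d9]
      linarith
    have hcard : ((rgh z x (x + h)).card : ℝ) ≤ (24 * C0 + 4 + 24) * (h / Real.log z) := by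
      by_cases hR2 : 2 ≤ R
      · obtain ⟨ρ, hρ⟩ := hsel R R (by exact_mod_cast hR2) le_rfl
        have hb := S10_basic hρ hx hh0.le
        have hmono : ((rgh z x (x + h)).card : ℝ) ≤ ((rgh (R : ℝ) x (x + h)).card : ℝ) := by
          exact_mod_cast S10_rgh_mono hRz.le
        have hR2' : (2 : ℝ) ≤ R := by exact_mod_cast hR2
        have hlogR : 1 / 24 * Real.log h ≤ Real.log R := by
          have h1 : h ^ (1 / 12 : ℝ) ≤ (R : ℝ) ^ 2 := by nlinarith
          have h2 := Real.log_le_log (by positivity) h1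
          rw [hlog12, Real.log_pow] at h2
          push_cast at h2
          linarith
        have h1 : C0 / Real.log R ≤ 24 * C0 / Real.log z := by
          rw [div_le_div_iff₀ (by linarith) hlz]
          nlinarith
        have h2 : h * ∑ d ∈ Icc 1 (R ^ 2), ρ d / d ≤ h * (24 * C0 / Real.log z) :=
          mul_le_mul_of_nonneg_left (hρ.le_log.trans h1) hh0.le
        have h3 : h ^ (1 / 2 : ℝ) ≤ 4 * (h / Real.log z) := by
          refine hsq.trans ?_
          have : E ≤ 1 := by
            rw [hE]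
            exact Real.exp_le_one_iff.mpr (by
              have : 0 ≤ 1 / 24 * (Real.log h / Real.log z) := by positivity
              linarith)
          have h4 : 0 ≤ 4 * (h / Real.log z) := by positivity
          nlinarith
        have h5 : h * (24 * C0 / Real.log z) = 24 * C0 * (h / Real.log z) := by ring
        nlinarith
      · -- `h < 2 ^ 12`
        have hR1 : (R : ℝ) + 1 ≤ 2 := by
          have : R ≤ 1 := by omega
          have : (R : ℝ) ≤ 1 := by exact_mod_cast this
          linarith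
        have hlog : Real.log h ≤ 12 := by
          have h1 := Real.log_le_log (by positivity) (hRlt.le.trans hR1)
          rw [hlog12] at h1
          have h2 := Real.log_two_lt_d9
          linarith
        have h1 : ((rgh z x (x + h)).card : ℝ) ≤ h + 1 := by
          refine le_trans ?_ (S10_card_win hx hh0.le)
          exact_mod_cast S10_rgh_le_win
        have h2 : h + 1 ≤ 24 * (h / Real.log z) := by
          rw [mul_div_assoc', le_div_iff₀ hlz]
          have : Real.log z ≤ 12 := hlh.trans hlog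
          nlinarith
        have h3 : 0 ≤ (24 * C0 + 4) * (h / Real.log z) := by positivity
        linarith
    have h1 : 0 ≤ h * V z := by positivity
    have h2 : (24 * C0 + 4 + 24) * (h / Real.log z) ≤
        (24 * C0 + 4 + 24) * (h / Real.log z) * (3 * E) := by
      have : 0 ≤ (24 * C0 + 4 + 24) * (h / Real.log z) := by positivity
      nlinarith
    have h3 : 0 ≤ (CV * C0 + 4) * (h / Real.log z) * E := by positivity
    have h4 : (CV * C0 + 4 + 3 * (24 * C0 + 4) + 3 * 24) * (h / Real.log z) * E =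
      (CV * C0 + 4) * (h / Real.log z) * E + (24 * C0 + 4 + 24) * (h / Real.log z) * (3 * E) := by
      ring
    rw [h4]
    linarith

end BP4
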